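import Pool.Agent.Lib_helper68.LEV.DefsC
import Pool.Agent.Lib_helper23.BG4F.MER

set_option autoImplicit false

namespace Pool.Agent.LEV

/-- one step of the partial summation -/
theorem MRT_step {C : ℝ} (hC : 0 ≤ C) {L L' A : ℝ} (hL : 0 < L) (hL' : L < L') (hu : L' - L ≤ 1)
    (hA : |A - L| ≤ C) :
    |A * (1 / L - 1 / L') - (Real.log L' - Real.log L)| ≤ (1 + C) * (1 / L - 1 / L') := by
  have hL'0 : 0 < L' := hL.trans hL'
  have hd : 0 ≤ 1 / L - 1 / L' := by
    rw [sub_nonneg]; exact one_div_le_one_div_of_le hL hL'.le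
  have e1 : A * (1 / L - 1 / L') = (A - L) * (1 / L - 1 / L') + (L' - L) / L' := by
    field_simp
    ring
  have h1 : Real.log L' - Real.log L ≤ (L' - L) / L := by
    rw [← Real.log_div hL'0.ne' hL.ne']
    have := Real.log_le_sub_one_of_pos (div_pos hL'0 hL)
    have e : (L' - L) / L = L' / L - 1 := by field_simp
    rw [e]; exact this
  have h2 : (L' - L) / L' ≤ Real.log L' - Real.log L := by
    have := Real.one_sub_inv_le_log_of_pos (div_pos hL'0 hL)
    rw [Real.log_div hL'0.ne' hL.ne'] at this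
    have e : (L' - L) / L' = 1 - (L' / L)⁻¹ := by field_simp
    rw [e]; exact this
  have h3 : (L' - L) / L - (L' - L) / L' ≤ 1 / L - 1 / L' := by
    have e : (L' - L) / L - (L' - L) / L' = (L' - L) * (1 / L - 1 / L') := by ring
    rw [e]
    exact mul_le_of_le_one_left hd hu
  have h4 : |(A - L) * (1 / L - 1 / L')| ≤ C * (1 / L - 1 / L') := by
    rw [abs_mul, abs_of_nonneg hd]
    exact mul_le_mul_of_nonneg_right hA hd
  have h5 := abs_le.mp h4
  rw [e1, abs_le]
  constructor
  · nlinarith [h5.1, h5.2]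
  · nlinarith [h5.1, h5.2]

theorem MRT_nat {C : ℝ} (hC : 0 ≤ C)
    (hA : ∀ n : ℕ, 1 ≤ n → |∑ p ∈ (Finset.Icc 1 n).filter Nat.Prime, Real.log p / p - Real.log n| ≤ C)
    (n : ℕ) (hn : 2 ≤ n) :
    |∑ p ∈ (Finset.Icc 1 n).filter Nat.Prime, 1 / (p : ℝ) -
      (∑ p ∈ (Finset.Icc 1 n).filter Nat.Prime, Real.log p / p) / Real.log n -
      Real.log (Real.log n) + Real.log (Real.log 2)| ≤ (1 + C) * (1 / Real.log 2 - 1 / Real.log n) := by
  induction n, hn using Nat.le_induction with
  | base =>
    have h2 : (Finset.Icc 1 2).filter Nat.Prime = {2} := by decide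
    rw [h2]
    have hl : Real.log 2 ≠ 0 := (Real.log_pos (by norm_num)).ne'
    simp only [Finset.sum_singleton]
    norm_num
    field_simp
    norm_num
  | succ n hn ih =>
    have hn0 : (0 : ℝ) < n := by exact_mod_cast (by omega : 0 < n)
    have hn1 : (1 : ℝ) < n := by exact_mod_cast (by omega : 1 < n)
    have hL : 0 < Real.log n := Real.log_pos hn1
    have hL' : Real.log n < Real.log ((n + 1 : ℕ) : ℝ) := by
      apply Real.log_lt_log hn0
      push_cast; linarith
    have hu : Real.log ((n + 1 : ℕ) : ℝ) - Real.log n ≤ 1 := by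
      rw [← Real.log_div (by positivity) hn0.ne']
      have := Real.log_le_sub_one_of_pos (div_pos (by positivity : (0 : ℝ) < ((n + 1 : ℕ) : ℝ)) hn0)
      have e : ((n + 1 : ℕ) : ℝ) / n - 1 = 1 / n := by push_cast; field_simp; ring
      rw [e] at this
      have h1 : 1 / (n : ℝ) ≤ 1 := by
        rw [div_le_one hn0]; exact hn1.le
      linarith
    have hstep := MRT_step hC hL hL' hu (hA n (by omega))
    have hI : Finset.Icc 1 (n + 1) = insert (n + 1) (Finset.Icc 1 n) := by
      ext k; simp only [Finset.mem_Icc, Finset.mem_insert]; omega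
    have hnot : n + 1 ∉ (Finset.Icc 1 n).filter Nat.Prime := by
      simp
    set S := ∑ p ∈ (Finset.Icc 1 n).filter Nat.Prime, 1 / (p : ℝ) with hS
    set A := ∑ p ∈ (Finset.Icc 1 n).filter Nat.Prime, Real.log p / p with hAd
    set L := Real.log n with hLd
    set L' := Real.log ((n + 1 : ℕ) : ℝ) with hL'd
    have hL'0 : 0 < L' := hL.trans hL'
    have key : ∑ p ∈ (Finset.Icc 1 (n + 1)).filter Nat.Prime, 1 / (p : ℝ) -
        (∑ p ∈ (Finset.Icc 1 (n + 1)).filter Nat.Prime, Real.log p / p) / L' = S - A / L' := by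
      rw [hI, Finset.filter_insert]
      split_ifs with hp
      · rw [Finset.sum_insert hnot, Finset.sum_insert hnot, ← hS, ← hAd, ← hL'd]
        have h0 : ((n + 1 : ℕ) : ℝ) ≠ 0 := by positivity
        field_simp
        ring
      · rfl
    rw [key]
    have e2 : S - A / L' - Real.log L' + Real.log (Real.log 2) =
        (S - A / L - Real.log L + Real.log (Real.log 2)) +
          (A * (1 / L - 1 / L') - (Real.log L' - Real.log L)) := by
      field_simp
      ring
    rw [e2]
    calc |(S - A / L - Real.log L + Real.log (Real.log 2)) +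
          (A * (1 / L - 1 / L') - (Real.log L' - Real.log L))|
        ≤ |S - A / L - Real.log L + Real.log (Real.log 2)| +
          |A * (1 / L - 1 / L') - (Real.log L' - Real.log L)| := abs_add_le _ _
      _ ≤ (1 + C) * (1 / Real.log 2 - 1 / L) + (1 + C) * (1 / L - 1 / L') := add_le_add ih hstep
      _ = (1 + C) * (1 / Real.log 2 - 1 / L') := by ring

theorem mertens_two_pr : ∃ C : ℝ, ∀ x : ℝ, 2 ≤ x →
    |∑ p ∈ (Finset.Icc 1 ⌊x⌋₊).filter Nat.Prime, 1 / (p : ℝ) - Real.log (Real.log x)| ≤ C := by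
  obtain ⟨C0, hC0⟩ := Pool.Agent.BG4.mertens_one
  set C := max C0 0 with hCd
  have hC : 0 ≤ C := le_max_right _ _
  have hA : ∀ n : ℕ, 1 ≤ n →
      |∑ p ∈ (Finset.Icc 1 n).filter Nat.Prime, Real.log p / p - Real.log n| ≤ C := by
    intro n hn
    exact (hC0 n hn).trans (le_max_left _ _)
  have hl2 : 0 < Real.log 2 := Real.log_pos (by norm_num)
  refine ⟨(1 + C) / Real.log 2 + (1 + C / Real.log 2) + |Real.log (Real.log 2)| + 1 / Real.log 2, ?_⟩
  intro x hx
  have hx0 : 0 < x := by linarith
  set n := ⌊x⌋₊ with hnd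
  have hn2 : 2 ≤ n := Nat.le_floor (by exact_mod_cast hx)
  have hnx : (n : ℝ) ≤ x := Nat.floor_le hx0.le
  have hxn : x < n + 1 := Nat.lt_floor_add_one x
  have hn2' : (2 : ℝ) ≤ n := by exact_mod_cast hn2
  have hn0 : (0 : ℝ) < n := by linarith
  have hL2 : Real.log 2 ≤ Real.log n := Real.log_le_log (by norm_num) hn2'
  have hL : 0 < Real.log n := hl2.trans_le hL2
  have h1 := MRT_nat hC hA n hn2
  have h2 := hA n (by omega)
  set S := ∑ p ∈ (Finset.Icc 1 n).filter Nat.Prime, 1 / (p : ℝ) with hS
  set A := ∑ p ∈ (Finset.Icc 1 n).filter Nat.Prime, Real.log p / p with hAd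
  have h3 : |A / Real.log n - 1| ≤ C / Real.log 2 := by
    have e : A / Real.log n - 1 = (A - Real.log n) / Real.log n := by field_simp
    rw [e, abs_div, abs_of_pos hL]
    exact div_le_div₀ hC h2 hl2 hL2
  have h4 : (1 + C) * (1 / Real.log 2 - 1 / Real.log n) ≤ (1 + C) / Real.log 2 := by
    have : 0 ≤ 1 / Real.log n := by positivity
    have e : (1 + C) / Real.log 2 = (1 + C) * (1 / Real.log 2) := by ring
    rw [e]
    apply mul_le_mul_of_nonneg_left _ (by linarith)
    linarith
  have hlx : Real.log n ≤ Real.log x := Real.log_le_log hn0 hnx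
  have h5 : 0 ≤ Real.log (Real.log x) - Real.log (Real.log n) :=
    sub_nonneg.mpr (Real.log_le_log hL hlx)
  have h6 : Real.log (Real.log x) - Real.log (Real.log n) ≤ 1 / Real.log 2 := by
    have a1 : Real.log (Real.log x) - Real.log (Real.log n) ≤
        (Real.log x - Real.log n) / Real.log n := by
      rw [← Real.log_div (hL.trans_le hlx).ne' hL.ne']
      have := Real.log_le_sub_one_of_pos (div_pos (hL.trans_le hlx) hL)
      have e : (Real.log x - Real.log n) / Real.log n = Real.log x / Real.log n - 1 := by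
        field_simp
      rw [e]; exact this
    have a2 : Real.log x - Real.log n ≤ 1 := by
      rw [← Real.log_div hx0.ne' hn0.ne']
      have := Real.log_le_sub_one_of_pos (div_pos hx0 hn0)
      have e : x / n - 1 ≤ 1 := by
        rw [sub_le_iff_le_add, div_le_iff₀ hn0]; linarith
      linarith
    calc Real.log (Real.log x) - Real.log (Real.log n) ≤ (Real.log x - Real.log n) / Real.log n := a1
      _ ≤ 1 / Real.log 2 := div_le_div₀ zero_le_one a2 hl2 hL2
  have e : S - Real.log (Real.log x) =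
      (S - A / Real.log n - Real.log (Real.log n) + Real.log (Real.log 2)) +
      (A / Real.log n - 1) + 1 - Real.log (Real.log 2) -
      (Real.log (Real.log x) - Real.log (Real.log n)) := by ring
  have b1 := abs_le.mp h1
  have b2 := abs_le.mp h3
  have b3 := abs_le.mp (le_refl |Real.log (Real.log 2)|)
  rw [e, abs_le]
  constructor
  · linarith [b1.1, b2.1, b3.2, b3.1]
  · have : 0 ≤ 1 / Real.log 2 := by positivity
    linarith [b1.2, b2.2, b3.2, b3.1]

theorem mertens_two : type_of% @mertens_two_pr := @mertens_two_pr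

end Pool.Agent.LEV
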