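import Pool.Agent.Lib_helper68.LEV.DefsC

set_option autoImplicit false

namespace Pool.Agent.LEV

open Complex MeasureTheory Filter Topology UpperHalfPlane ModularGroup
open scoped MatrixGroups Modular ENNReal ModularForm ComplexConjugate ContDiff

section
variable {N : ℕ} [Fact N.Prime]

omit [Fact N.Prime] in
theorem QEX_per : (1 : ℝ) ∈ (G0 N).strictPeriods := by
  simp

omit [Fact N.Prime] in
theorem QEX_qp (n : ℕ) (z : ℍ) : Function.Periodic.qParam 1 (z : ℂ) ^ n =
    cexp (2 * Real.pi * Complex.I * n * (z : ℂ)) := by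
  rw [Function.Periodic.qParam, ← Complex.exp_nat_mul]
  congr 1
  push_cast
  ring

theorem qex_pr (f : S2 N) (z : ℍ) :
    HasSum (fun n : ℕ => co f n * cexp (2 * Real.pi * Complex.I * n * (z : ℂ))) (f z) := by
  have hN : NeZero N := ⟨(Fact.out : N.Prime).ne_zero⟩
  have h := ModularForm.hasSum_qExpansion (h := 1) (Γ := G0 N) (k := 2) f one_pos QEX_per z
  have e : (fun n : ℕ => co f n * cexp (2 * Real.pi * Complex.I * n * (z : ℂ))) =
      fun m : ℕ => (UpperHalfPlane.qExpansion 1 f).coeff m *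
        Function.Periodic.qParam 1 (z : ℂ) ^ m := by
    funext n
    rw [QEX_qp]
    rfl
  rw [e]
  exact h

theorem co_zero_pr (f : S2 N) : co f 0 = 0 :=
  CuspFormClass.qExpansion_coeff_zero (Γ := G0 N) (k := 2) f one_pos QEX_per

theorem co_add_pr (f g : S2 N) (n : ℕ) : co (f + g) n = co f n + co g n := by
  unfold co
  have h := ModularForm.qExpansion_add (h := 1) (Γ := G0 N) one_pos QEX_per (a := 2) (b := 2) f g
  have e : ((f + g : S2 N) : ℍ → ℂ) = (f : ℍ → ℂ) + (g : ℍ → ℂ) := rfl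
  rw [e, h, map_add]

theorem co_smul_pr (c : ℂ) (f : S2 N) (n : ℕ) : co (c • f) n = c * co f n := by
  unfold co
  have h := ModularForm.qExpansion_smul (h := 1) (Γ := G0 N) (k := 2) one_pos QEX_per c f
  have e : ((c • f : S2 N) : ℍ → ℂ) = c • (f : ℍ → ℂ) := rfl
  rw [e, h, map_smul, smul_eq_mul]

theorem co_ext_pr {f g : S2 N} (h : ∀ n, co f n = co g n) : f = g := by
  apply DFunLike.ext
  intro z
  have h1 := qex_pr f z
  have h2 := qex_pr g z
  simp only [h] at h1
  exact h1.unique h2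

theorem co_unique_pr (f : S2 N) (c : ℕ → ℂ)
    (h : ∀ z : ℍ, HasSum (fun n : ℕ => c n * cexp (2 * Real.pi * Complex.I * n * (z : ℂ))) (f z)) :
    ∀ n, co f n = c n := by
  intro n
  symm
  apply ModularFormClass.qExpansion_coeff_unique (h := 1) (Γ := G0 N) (k := 2) (f := f) one_pos QEX_per
  intro z
  have := h z
  simp only [smul_eq_mul, QEX_qp]
  exact this

theorem co_bound_pr (f : S2 N) : ∃ C : ℝ, ∀ n : ℕ, ‖co f n‖ ≤ C * n := by
  have hN : NeZero N := ⟨(Fact.out : N.Prime).ne_zero⟩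
  have h := CuspFormClass.qExpansion_isBigO (k := 2) (Γ := G0 N) f
  have hw : (G0 N).strictWidthInfty = 1 := CongruenceSubgroup.strictWidthInfty_Gamma0 N
  rw [hw] at h
  obtain ⟨C, hC⟩ := h.bound
  rw [eventually_atTop] at hC
  obtain ⟨M, hM⟩ := hC
  refine ⟨max C 0 + ∑ k ∈ Finset.range M, ‖co f k‖, fun n => ?_⟩
  have hs : 0 ≤ ∑ k ∈ Finset.range M, ‖co f k‖ := Finset.sum_nonneg (fun k _ => norm_nonneg _)
  have hn0 : (0 : ℝ) ≤ n := Nat.cast_nonneg n
  rcases Nat.eq_zero_or_pos n with h0 | h0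
  · rw [h0, co_zero_pr, norm_zero]
    simp
  have hn1 : (1 : ℝ) ≤ n := by exact_mod_cast h0
  by_cases hMn : M ≤ n
  · have h1 := hM n hMn
    have e1 : ((2 : ℤ) : ℝ) / 2 = 1 := by norm_num
    rw [e1, Real.rpow_one, Real.norm_of_nonneg hn0] at h1
    calc ‖co f n‖ ≤ C * n := h1
      _ ≤ (max C 0 + ∑ k ∈ Finset.range M, ‖co f k‖) * n := by
          apply mul_le_mul_of_nonneg_right _ hn0
          have := le_max_left C 0
          linarith
  · have h1 : ‖co f n‖ ≤ ∑ k ∈ Finset.range M, ‖co f k‖ :=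
      Finset.single_le_sum (f := fun k => ‖co f k‖) (fun k _ => norm_nonneg _)
        (Finset.mem_range.mpr (not_le.mp hMn))
    have h2 : 0 ≤ max C 0 := le_max_right _ _
    calc ‖co f n‖ ≤ (max C 0 + ∑ k ∈ Finset.range M, ‖co f k‖) * 1 := by linarith
      _ ≤ (max C 0 + ∑ k ∈ Finset.range M, ‖co f k‖) * n :=
          mul_le_mul_of_nonneg_left hn1 (by linarith)

theorem f_bound_pr (f : S2 N) : ∃ C : ℝ, ∀ (q : PX N) (z : ℍ), ‖fam f q z‖ * z.im ≤ C := by
  have hN : NeZero N := ⟨(Fact.out : N.Prime).ne_zero⟩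
  obtain ⟨C, hC⟩ := CuspFormClass.petersson_bounded_left 2 (G0 N) f f
  refine ⟨Real.sqrt C, fun q z => ?_⟩
  have h1 := hC ((sg q)⁻¹ • z)
  rw [← UpperHalfPlane.petersson_slash_SL] at h1
  have h2 : ‖UpperHalfPlane.petersson 2 (fam f q) (fam f q) z‖ = (‖fam f q z‖ * z.im) ^ 2 := by
    unfold UpperHalfPlane.petersson
    rw [norm_mul, norm_mul, RCLike.norm_conj, norm_zpow, Complex.norm_real,
      Real.norm_of_nonneg z.im_pos.le]
    norm_cast
    ring
  have h3 : (‖fam f q z‖ * z.im) ^ 2 ≤ C := by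
    rw [← h2]; exact h1
  exact Real.le_sqrt_of_sq_le h3

end

theorem qex : type_of% @qex_pr := @qex_pr
theorem co_zero : type_of% @co_zero_pr := @co_zero_pr
theorem co_add : type_of% @co_add_pr := @co_add_pr
theorem co_smul : type_of% @co_smul_pr := @co_smul_pr
theorem co_ext : type_of% @co_ext_pr := @co_ext_pr
theorem co_unique : type_of% @co_unique_pr := @co_unique_pr
theorem co_bound : type_of% @co_bound_pr := @co_bound_pr
theorem f_bound : type_of% @f_bound_pr := @f_bound_pr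

end Pool.Agent.LEV
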