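import Pool.Agent.Lib_helper68.LEV.DefsC
import Pool.Agent.Lib_helper68.LEV.QEX

/-! block GEL -/

namespace Pool.Agent.LEV

open Complex MeasureTheory Filter Topology UpperHalfPlane ModularGroup
open scoped MatrixGroups Modular ENNReal ModularForm ComplexConjugate ContDiff

/-- the additive character -/
noncomputable def GEL_e (n : ℕ) (x : ℝ) : ℂ := cexp (2 * Real.pi * Complex.I * n * x)

theorem GEL_mB_pos (B : Finset ℕ) (hB : ∀ p ∈ B, p.Prime) : 0 < mB B :=
  Finset.prod_pos fun p hp => (hB p hp).pos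

theorem GEL_not_dvd (B : Finset ℕ) (hB : ∀ p ∈ B, p.Prime) {q : ℕ} (hq : q.Prime) (h : q ∉ B) :
    ¬ q ∣ mB B := by
  intro hd
  obtain ⟨p, hp, hpd⟩ := (hq.prime.dvd_finsetProd_iff _).1 hd
  rw [(Nat.prime_dvd_prime_iff_eq hq (hB p hp)).1 hpd] at h
  exact h hp

theorem GEL_fold (B : Finset ℕ) (hB : ∀ p ∈ B, p.Prime) (g : ℝ → ℂ) :
    ∑ j ∈ Finset.range (mB B), g ((j : ℝ) / mB B) =
      ∑ B' ∈ B.powerset, ∑ j ∈ (Finset.range (mB B')).filter (fun j => (mB B').Coprime j),
        g ((j : ℝ) / mB B') := by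
  classical
  have hmaps : ∀ j ∈ Finset.range (mB B), B.filter (fun p => ¬ p ∣ j) ∈ B.powerset :=
    fun j _ => Finset.mem_powerset.2 (Finset.filter_subset _ _)
  rw [← Finset.sum_fiberwise_of_maps_to hmaps]
  refine Finset.sum_congr rfl fun B' hB' => ?_
  rw [Finset.mem_powerset] at hB'
  have hBd : ∀ p ∈ B \ B', p.Prime := fun p hp => hB p (Finset.mem_sdiff.1 hp).1
  have hBp : ∀ p ∈ B', p.Prime := fun p hp => hB p (hB' hp)
  have hprod : mB (B \ B') * mB B' = mB B := Finset.prod_sdiff hB'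
  have hpos := GEL_mB_pos _ hBd
  have hpos' := GEL_mB_pos _ hBp
  symm
  refine Finset.sum_bij (fun j _ => mB (B \ B') * j) ?_ ?_ ?_ ?_
  · intro j hj
    rw [Finset.mem_filter, Finset.mem_range] at hj
    rw [Finset.mem_filter, Finset.mem_range]
    refine ⟨?_, ?_⟩
    · rw [← hprod]
      exact (Nat.mul_lt_mul_left hpos).2 hj.1
    · ext p
      rw [Finset.mem_filter]
      constructor
      · rintro ⟨hp, hnd⟩
        by_contra hpB
        exact hnd (Dvd.dvd.mul_right (Finset.dvd_prod_of_mem _ (Finset.mem_sdiff.2 ⟨hp, hpB⟩)) _)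
      · intro hp
        refine ⟨hB' hp, fun hd => ?_⟩
        have hpp := hBp p hp
        rcases hpp.dvd_mul.1 hd with h | h
        · exact GEL_not_dvd _ hBd hpp (fun h' => (Finset.mem_sdiff.1 h').2 hp) h
        · have h1 : p ∣ mB B' := Finset.dvd_prod_of_mem _ hp
          exact Nat.not_coprime_of_dvd_of_dvd hpp.one_lt h1 h hj.2
  · intro a _ b _ h
    exact Nat.eq_of_mul_eq_mul_left hpos h
  · intro j hj
    rw [Finset.mem_filter, Finset.mem_range] at hj
    have hdv : mB (B \ B') ∣ j := by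
      refine Finset.prod_primes_dvd j (fun p hp => (hBd p hp).prime) fun p hp => ?_
      by_contra hnd
      have : p ∈ B.filter (fun p => ¬ p ∣ j) :=
        Finset.mem_filter.2 ⟨(Finset.mem_sdiff.1 hp).1, hnd⟩
      rw [hj.2] at this
      exact (Finset.mem_sdiff.1 hp).2 this
    obtain ⟨k, rfl⟩ := hdv
    refine ⟨k, ?_, rfl⟩
    rw [Finset.mem_filter, Finset.mem_range]
    refine ⟨?_, ?_⟩
    · have := hj.1
      rw [← hprod] at this
      exact (Nat.mul_lt_mul_left hpos).1 this
    · refine Nat.Coprime.prod_left fun p hp => ?_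
      rw [(hBp p hp).coprime_iff_not_dvd]
      intro hd
      rw [← hj.2, Finset.mem_filter] at hp
      exact hp.2 (Dvd.dvd.mul_left hd _)
  · intro j _
    congr 1
    have h1 : ((mB (B \ B') : ℕ) : ℝ) ≠ 0 := by exact_mod_cast hpos.ne'
    rw [← hprod, Nat.cast_mul, Nat.cast_mul, mul_div_mul_left _ _ h1]

theorem GEL_geom (m n : ℕ) (hm : 0 < m) :
    ∑ j ∈ Finset.range m, GEL_e n ((j : ℝ) / m) = if m ∣ n then (m : ℂ) else 0 := by
  have hm0 : (m : ℂ) ≠ 0 := by exact_mod_cast hm.ne'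
  set ζ : ℂ := cexp (2 * Real.pi * Complex.I * n / m) with hζ
  have hpow : ∀ j : ℕ, GEL_e n ((j : ℝ) / m) = ζ ^ j := by
    intro j
    rw [hζ, ← Complex.exp_nat_mul, GEL_e]
    congr 1
    push_cast
    field_simp
  rw [Finset.sum_congr rfl fun j _ => hpow j]
  have hone : ζ ^ m = 1 := by
    rw [hζ, ← Complex.exp_nat_mul, Complex.exp_eq_one_iff]
    refine ⟨n, ?_⟩
    push_cast
    field_simp
  split_ifs with h
  · obtain ⟨k, rfl⟩ := h
    have : ζ = 1 := by
      rw [hζ, Complex.exp_eq_one_iff]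
      refine ⟨k, ?_⟩
      push_cast
      field_simp
    rw [this]
    simp
  · have hne : ζ ≠ 1 := by
      intro h1
      rw [hζ, Complex.exp_eq_one_iff] at h1
      obtain ⟨k, hk⟩ := h1
      apply h
      have hpi : (Real.pi : ℂ) ≠ 0 := by exact_mod_cast Real.pi_ne_zero
      have h2 : (n : ℂ) = k * m := by
        field_simp at hk
        have h3 : (2 * Real.pi * Complex.I : ℂ) ≠ 0 := Complex.two_pi_I_ne_zero
        apply mul_left_cancel₀ h3
        linear_combination (2 * Real.pi * Complex.I) * hk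
      have h4 : (n : ℤ) = k * m := by exact_mod_cast h2
      have h5 : (m : ℤ) ∣ (n : ℤ) := ⟨k, by rw [h4]; ring⟩
      exact_mod_cast h5
    rw [geom_sum_eq hne, hone, sub_self, zero_div]

/-- the Ramanujan sum -/
noncomputable def GEL_R (n : ℕ) (B : Finset ℕ) : ℂ :=
  ∑ j ∈ (Finset.range (mB B)).filter (fun j => (mB B).Coprime j), GEL_e n ((j : ℝ) / mB B)

theorem GEL_R_sum (B : Finset ℕ) (hB : ∀ p ∈ B, p.Prime) (n : ℕ) :
    ∑ B' ∈ B.powerset, GEL_R n B' = if mB B ∣ n then (mB B : ℂ) else 0 := by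
  rw [← GEL_geom _ n (GEL_mB_pos B hB), GEL_fold B hB]
  rfl

theorem GEL_ram (A : Finset ℕ) (hA : ∀ p ∈ A, p.Prime) (n : ℕ) :
    ∑ B ∈ A.powerset, (2 : ℂ) ^ (A \ B).card * GEL_R n B =
      ∑ B ∈ A.powerset.filter (fun B => mB B ∣ n), (mB B : ℂ) := by
  classical
  rw [Finset.sum_filter]
  have h1 : ∀ B ∈ A.powerset, (if mB B ∣ n then (mB B : ℂ) else 0) =
      ∑ B' ∈ B.powerset, GEL_R n B' := fun B hB =>
    (GEL_R_sum B (fun p hp => hA p (Finset.mem_powerset.1 hB hp)) n).symm
  rw [Finset.sum_congr rfl h1]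
  rw [Finset.sum_comm' (t' := A.powerset) (s' := fun B' => Finset.Icc B' A)]
  · refine Finset.sum_congr rfl fun B hB => ?_
    rw [Finset.mem_powerset] at hB
    rw [Finset.sum_const, Finset.card_Icc_finset hB, Finset.card_sdiff_of_subset hB, nsmul_eq_mul]
    push_cast
    rfl
  · intro B B'
    rw [Finset.mem_powerset, Finset.mem_powerset, Finset.mem_powerset, Finset.mem_Icc]
    constructor
    · rintro ⟨h1, h2⟩
      exact ⟨⟨h2, h1⟩, h2.trans h1⟩
    · rintro ⟨⟨h1, h2⟩, _⟩
      exact ⟨h2, h1⟩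

theorem GEL_weights (I : Finset ℕ) (hI : ∀ p ∈ I, p.Prime) (K n : ℕ) :
    ∑ B ∈ SB I K, (wB I K B : ℂ) * GEL_R n B = (cB I K n : ℂ) := by
  classical
  have hsub : ∀ A ∈ SB I K, A ⊆ I ∧ A.card ≤ K := by
    intro A hA
    rw [SB, Finset.mem_filter, Finset.mem_powerset] at hA
    exact hA
  have h1 : ∀ B ∈ SB I K, (wB I K B : ℂ) * GEL_R n B =
      ∑ A ∈ (SB I K).filter (fun A => B ⊆ A),
        (-1) ^ A.card / (mB A : ℂ) * ((2 : ℂ) ^ (A \ B).card * GEL_R n B) := by
    intro B _
    rw [wB]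
    push_cast
    rw [Finset.sum_mul]
    refine Finset.sum_congr rfl fun A _ => ?_
    ring
  rw [Finset.sum_congr rfl h1, Finset.sum_comm' (t' := SB I K) (s' := fun A => A.powerset)]
  · rw [cB]
    push_cast
    refine Finset.sum_congr rfl fun A hA => ?_
    rw [← Finset.mul_sum, GEL_ram A (fun p hp => hI p ((hsub A hA).1 hp))]
  · intro B A
    rw [Finset.mem_filter, Finset.mem_powerset]
    constructor
    · rintro ⟨_, h2, h3⟩
      exact ⟨h3, h2⟩
    · rintro ⟨h1, h2⟩
      refine ⟨?_, h2, h1⟩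
      rw [SB, Finset.mem_filter, Finset.mem_powerset]
      exact ⟨h1.trans (hsub A h2).1, (Finset.card_le_card h1).trans (hsub A h2).2⟩

/-- termwise integration -/
theorem GEL_int {N : ℕ} [Fact N.Prime] (f : S2 N) (x : ℝ) {V : ℝ} (hV : 0 < V) :
    HasSum (fun n : ℕ => co f n * (Real.exp (-2 * Real.pi * n * V) / (2 * Real.pi * n) : ℝ) *
      GEL_e n x) (∫ v in Set.Ioi V, ev f x v) := by
  obtain ⟨C, hC⟩ := co_bound f
  set F : ℕ → ℝ → ℂ := fun n v => co f n * GEL_e n x * cexp (((-(2 * Real.pi * n) : ℝ) : ℂ) * v)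
    with hF
  have hnorm_e : ∀ n : ℕ, ‖GEL_e n x‖ = 1 := by
    intro n
    rw [GEL_e, Complex.norm_exp]
    simp
  have hint : ∀ n, Integrable (F n) (volume.restrict (Set.Ioi V)) := by
    intro n
    rcases Nat.eq_zero_or_pos n with rfl | hn
    · simp only [hF, co_zero, zero_mul]
      exact integrable_zero _ _ _
    · have ha : ((-(2 * Real.pi * n) : ℝ) : ℂ).re < 0 := by
        rw [Complex.ofReal_re]
        have : (0 : ℝ) < n := by exact_mod_cast hn
        have := Real.pi_pos
        nlinarith [mul_pos this ‹(0 : ℝ) < n›]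
      exact (integrableOn_exp_mul_complex_Ioi ha V).const_mul _
  have hval : ∀ n, ∫ v in Set.Ioi V, F n v = co f n *
      (Real.exp (-2 * Real.pi * n * V) / (2 * Real.pi * n) : ℝ) * GEL_e n x := by
    intro n
    rcases Nat.eq_zero_or_pos n with rfl | hn
    · simp only [hF, co_zero, zero_mul, integral_zero]
    · have hn' : (0 : ℝ) < n := by exact_mod_cast hn
      have hpi := Real.pi_pos
      have ha : ((-(2 * Real.pi * n) : ℝ) : ℂ).re < 0 := by
        rw [Complex.ofReal_re]
        nlinarith [mul_pos hpi hn']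
      simp only [hF]
      rw [integral_const_mul, integral_exp_mul_complex_Ioi ha]
      have hne : (Real.pi : ℂ) ≠ 0 := by exact_mod_cast hpi.ne'
      have hne2 : (n : ℂ) ≠ 0 := by exact_mod_cast hn.ne'
      have he : cexp (((-(2 * Real.pi * n) : ℝ) : ℂ) * (V : ℂ)) =
          ((Real.exp (-2 * Real.pi * n * V) : ℝ) : ℂ) := by
        push_cast
        congr 1
        ring
      rw [he]
      push_cast
      field_simp
  have hsum : Summable fun n => ∫ v, ‖F n v‖ ∂(volume.restrict (Set.Ioi V)) := by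
    have hn : ∀ n, ∫ v in Set.Ioi V, ‖F n v‖ =
        ‖co f n‖ * (Real.exp (-2 * Real.pi * n * V) / (2 * Real.pi * n)) := by
      intro n
      rcases Nat.eq_zero_or_pos n with rfl | hn
      · simp only [hF, co_zero, zero_mul, norm_zero, integral_zero]
      · have hn' : (0 : ℝ) < n := by exact_mod_cast hn
        have hpi := Real.pi_pos
        have ha : -(2 * Real.pi * n) < 0 := by nlinarith [mul_pos hpi hn']
        have h1 : ∀ v : ℝ, ‖F n v‖ = ‖co f n‖ * Real.exp (-(2 * Real.pi * n) * v) := by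
          intro v
          simp only [hF]
          rw [norm_mul, norm_mul, hnorm_e, mul_one, ← Complex.ofReal_mul, Complex.norm_exp_ofReal]
        simp only [h1]
        rw [integral_const_mul, integral_exp_mul_Ioi ha]
        have he : -(2 * Real.pi * n) * V = -2 * Real.pi * n * V := by ring
        rw [he, neg_div_neg_eq]
    simp only [hn]
    have hg : Summable fun n : ℕ => C / (2 * Real.pi) * Real.exp (-2 * Real.pi * V) ^ n := by
      refine (summable_geometric_of_lt_one (Real.exp_pos _).le ?_).mul_left _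
      rw [Real.exp_lt_one_iff]
      have := mul_pos Real.pi_pos hV
      linarith
    refine Summable.of_nonneg_of_le (fun n => by positivity) (fun n => ?_) hg
    rcases Nat.eq_zero_or_pos n with rfl | hn
    · rw [co_zero]
      simp only [norm_zero, zero_mul, pow_zero, mul_one]
      have h1 := hC 1
      have h2 : (0 : ℝ) ≤ C := by
        have := (norm_nonneg _).trans h1
        simpa using this
      have := Real.pi_pos
      positivity
    · have hn' : (0 : ℝ) < n := by exact_mod_cast hn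
      have hpi := Real.pi_pos
      rw [← Real.exp_nat_mul]
      have he : (n : ℝ) * (-2 * Real.pi * V) = -2 * Real.pi * n * V := by ring
      rw [he]
      calc ‖co f n‖ * (Real.exp (-2 * Real.pi * n * V) / (2 * Real.pi * n))
          ≤ (C * n) * (Real.exp (-2 * Real.pi * n * V) / (2 * Real.pi * n)) :=
            mul_le_mul_of_nonneg_right (hC n) (by positivity)
        _ = C / (2 * Real.pi) * Real.exp (-2 * Real.pi * n * V) := by
            field_simp
  have hmain := hasSum_integral_of_summable_integral_norm hint hsum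
  simp only [hval] at hmain
  have hcong : ∫ v in Set.Ioi V, ev f x v = ∫ v in Set.Ioi V, ∑' n, F n v := by
    refine setIntegral_congr_fun measurableSet_Ioi fun v hv => ?_
    have hv0 : 0 < v := hV.trans hv
    have him : 0 < ((x : ℂ) + (v : ℂ) * Complex.I).im := by simpa using hv0
    have hq := qex f ⟨(x : ℂ) + (v : ℂ) * Complex.I, him⟩
    have hof : UpperHalfPlane.ofComplex ((x : ℂ) + (v : ℂ) * Complex.I) =
        ⟨(x : ℂ) + (v : ℂ) * Complex.I, him⟩ := UpperHalfPlane.ofComplex_apply_of_im_pos him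
    show ev f x v = ∑' n, F n v
    rw [ev, hof, ← hq.tsum_eq]
    refine tsum_congr fun n => ?_
    simp only [hF, GEL_e]
    rw [mul_assoc (co f n), ← Complex.exp_add]
    congr 2
    show 2 * (Real.pi : ℂ) * Complex.I * n * ((x : ℂ) + (v : ℂ) * Complex.I) = _
    push_cast
    linear_combination (2 * Real.pi * n * v : ℂ) * Complex.I_mul_I
  rw [hcong]
  exact hmain

theorem geo_large_pr {N : ℕ} [Fact N.Prime] (f : S2 N) (I : Finset ℕ)
    (hI : ∀ p ∈ I, p.Prime) (K : ℕ) {V : ℝ} (hV : 0 < V) :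
    ∑ B ∈ SB I K, (wB I K B : ℂ) *
      ∑ j ∈ (Finset.range (mB B)).filter (fun j => (mB B).Coprime j),
        ∫ v in Set.Ioi V, ev f ((j : ℝ) / mB B) v =
      ∑' n : ℕ, ((cB I K n * Real.exp (-2 * Real.pi * n * V) / (2 * Real.pi * Real.sqrt n) : ℝ) : ℂ) *
        (co f n / (Real.sqrt n : ℂ)) := by
  have h1 : HasSum (fun n : ℕ => ∑ B ∈ SB I K, (wB I K B : ℂ) *
      ∑ j ∈ (Finset.range (mB B)).filter (fun j => (mB B).Coprime j),
        (co f n * (Real.exp (-2 * Real.pi * n * V) / (2 * Real.pi * n) : ℝ) *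
          GEL_e n ((j : ℝ) / mB B)))
      (∑ B ∈ SB I K, (wB I K B : ℂ) *
      ∑ j ∈ (Finset.range (mB B)).filter (fun j => (mB B).Coprime j),
        ∫ v in Set.Ioi V, ev f ((j : ℝ) / mB B) v) :=
    hasSum_sum fun B _ => (hasSum_sum fun j _ => GEL_int f _ hV).mul_left _
  rw [← h1.tsum_eq]
  refine tsum_congr fun n => ?_
  have h2 : ∑ B ∈ SB I K, (wB I K B : ℂ) *
      ∑ j ∈ (Finset.range (mB B)).filter (fun j => (mB B).Coprime j),
        (co f n * (Real.exp (-2 * Real.pi * n * V) / (2 * Real.pi * n) : ℝ) *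
          GEL_e n ((j : ℝ) / mB B)) =
      co f n * (Real.exp (-2 * Real.pi * n * V) / (2 * Real.pi * n) : ℝ) * (cB I K n : ℂ) := by
    rw [← GEL_weights I hI K n, Finset.mul_sum]
    refine Finset.sum_congr rfl fun B _ => ?_
    rw [← Finset.mul_sum, GEL_R]
    ring
  rw [h2]
  rcases Nat.eq_zero_or_pos n with rfl | hn
  · rw [co_zero]
    simp
  · have hn' : (0 : ℝ) < n := by exact_mod_cast hn
    have hs : (Real.sqrt n : ℂ) * (Real.sqrt n : ℂ) = (n : ℂ) := by
      rw [← Complex.ofReal_mul, Real.mul_self_sqrt hn'.le, Complex.ofReal_natCast]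
    have hs0 : (Real.sqrt n : ℂ) ≠ 0 := by
      exact_mod_cast (Real.sqrt_pos.2 hn').ne'
    have hpi : (Real.pi : ℂ) ≠ 0 := by exact_mod_cast Real.pi_ne_zero
    have hn0 : (n : ℂ) ≠ 0 := by exact_mod_cast hn.ne'
    push_cast
    rw [← hs]
    field_simp

theorem geo_large : type_of% @geo_large_pr := @geo_large_pr

end Pool.Agent.LEV
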