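import Pool.Agent.Lib_helper68.LEV.DefsC

namespace Pool.Agent.LEV

open Complex MeasureTheory Filter Topology UpperHalfPlane ModularGroup
open scoped MatrixGroups Modular ENNReal ModularForm ComplexConjugate ContDiff

section
variable {N : ℕ} [Fact N.Prime]

theorem FRK_N0 (N : ℕ) [Fact N.Prime] : (N : ℝ) ≠ 0 := by
  exact_mod_cast (Fact.out : N.Prime).ne_zero

theorem FRK_N0C (N : ℕ) [Fact N.Prime] : (N : ℂ) ≠ 0 := by
  exact_mod_cast (Fact.out : N.Prime).ne_zero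

noncomputable def FRK_w (N : ℕ) [Fact N.Prime] : GL (Fin 2) ℝ :=
  Matrix.GeneralLinearGroup.mkOfDetNeZero !![0, -1; (N : ℝ), 0] (by
    rw [Matrix.det_fin_two_of]
    have := FRK_N0 N
    simpa using this)

theorem FRK_w_coe (N : ℕ) [Fact N.Prime] :
    ((FRK_w N : GL (Fin 2) ℝ) : Matrix (Fin 2) (Fin 2) ℝ) = !![0, -1; (N : ℝ), 0] := rfl

theorem FRK_w_det (N : ℕ) [Fact N.Prime] : (FRK_w N).det.val = (N : ℝ) := by
  rw [Matrix.GeneralLinearGroup.val_det_apply, FRK_w_coe, Matrix.det_fin_two_of]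
  ring

theorem FRK_mem (M : GL (Fin 2) ℝ) : M ∈ G0 N ↔ ∃ a b c d : ℤ, a * d - b * (N * c) = 1 ∧
    (M : Matrix (Fin 2) (Fin 2) ℝ) = !![(a : ℝ), (b : ℝ); (N : ℝ) * (c : ℝ), (d : ℝ)] := by
  constructor
  · intro h
    obtain ⟨γ, hγ, rfl⟩ := Subgroup.mem_map.mp h
    have h1 := CongruenceSubgroup.Gamma0_mem.mp hγ
    obtain ⟨c, hc⟩ := (ZMod.intCast_zmod_eq_zero_iff_dvd _ _).mp h1
    refine ⟨γ 0 0, γ 0 1, c, γ 1 1, ?_, ?_⟩
    · rw [← hc]
      have := γ.det_coe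
      rw [Matrix.det_fin_two] at this
      linarith
    · have hc' : ((γ 1 0 : ℤ) : ℝ) = (N : ℝ) * (c : ℝ) := by rw [hc]; push_cast; ring
      rw [← hc']
      ext i j
      fin_cases i <;> fin_cases j <;> rfl
  · rintro ⟨a, b, c, d, h1, h2⟩
    let γ : SL(2, ℤ) := ⟨!![a, b; N * c, d], by rw [Matrix.det_fin_two_of]; linarith⟩
    refine Subgroup.mem_map.mpr ⟨γ, ?_, ?_⟩
    · rw [CongruenceSubgroup.Gamma0_mem]
      change (((N * c : ℤ)) : ZMod N) = 0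
      push_cast
      simp
    · apply Units.ext
      rw [h2]
      ext i j
      fin_cases i <;> fin_cases j
      · rfl
      · rfl
      · change (((N * c : ℤ)) : ℝ) = (N : ℝ) * (c : ℝ)
        push_cast
        rfl
      · rfl

theorem FRK_conj_mem {M : GL (Fin 2) ℝ} (h : M ∈ G0 N) : ∃ M' ∈ G0 N,
    FRK_w N * M = M' * FRK_w N ∧ M * FRK_w N = FRK_w N * M' := by
  obtain ⟨a, b, c, d, h1, h2⟩ := (FRK_mem M).mp h
  have hdet : (!![(d : ℝ), -(c : ℝ); (N : ℝ) * (-(b : ℝ)), (a : ℝ)]).det = 1 := by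
    rw [Matrix.det_fin_two_of]
    have h3 : ((a * d - b * (N * c) : ℤ) : ℝ) = 1 := by rw [h1]; norm_num
    push_cast at h3
    linarith
  let M' : GL (Fin 2) ℝ := Matrix.GeneralLinearGroup.mkOfDetNeZero
    !![(d : ℝ), -(c : ℝ); (N : ℝ) * (-(b : ℝ)), (a : ℝ)] (by rw [hdet]; exact one_ne_zero)
  have hM' : (M' : Matrix (Fin 2) (Fin 2) ℝ) =
      !![(d : ℝ), -(c : ℝ); (N : ℝ) * (-(b : ℝ)), (a : ℝ)] := rfl
  refine ⟨M', (FRK_mem M').mpr ⟨d, -c, -b, a, by linarith, ?_⟩, ?_, ?_⟩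
  · rw [hM']; push_cast; rfl
  · apply Units.ext
    rw [Units.val_mul, Units.val_mul, hM', h2, FRK_w_coe, Matrix.mul_fin_two, Matrix.mul_fin_two]
    congr 1
    ext i j
    fin_cases i <;> fin_cases j <;> simp <;> ring
  · apply Units.ext
    rw [Units.val_mul, Units.val_mul, hM', h2, FRK_w_coe, Matrix.mul_fin_two, Matrix.mul_fin_two]
    congr 1
    ext i j
    fin_cases i <;> fin_cases j <;> simp <;> ring

open ConjAct Pointwise in
theorem FRK_group : toConjAct (FRK_w N)⁻¹ • G0 N = G0 N := by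
  ext M
  rw [Subgroup.mem_pointwise_smul_iff_inv_smul_mem, ← map_inv, inv_inv, toConjAct_smul]
  constructor
  · intro h
    obtain ⟨M', hM', _, h2⟩ := FRK_conj_mem h
    have : M = M' := by
      have h3 : FRK_w N * M = FRK_w N * M' := by rw [← h2]; group
      exact mul_left_cancel h3
    rw [this]; exact hM'
  · intro h
    obtain ⟨M', hM', h1, _⟩ := FRK_conj_mem h
    rw [h1, mul_inv_cancel_right]
    exact hM'

omit [Fact N.Prime] in
theorem FRK_cusp {Γ : Subgroup (GL (Fin 2) ℝ)} (h : Γ = G0 N) (g : CuspForm Γ 2) :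
    ∃ g' : S2 N, (g' : ℍ → ℂ) = g := by
  subst h
  exact ⟨g, rfl⟩

theorem FRK_exists1 (f : S2 N) : ∃ g : S2 N, (g : ℍ → ℂ) = (f : ℍ → ℂ) ∣[(2 : ℤ)] (FRK_w N) := by
  obtain ⟨g, hg⟩ := FRK_cusp (FRK_group (N := N)) (CuspForm.translate f (FRK_w N))
  exact ⟨g, hg⟩

theorem FRK_det_pos (N : ℕ) [Fact N.Prime] : 0 < (FRK_w N).det.val := by
  rw [FRK_w_det]
  exact_mod_cast (Fact.out : N.Prime).pos

theorem FRK_denom (z : ℂ) : denom (FRK_w N) z = (N : ℂ) * z := by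
  rw [denom, FRK_w_coe]
  simp

theorem FRK_num (z : ℂ) : num (FRK_w N) z = -1 := by
  rw [num, FRK_w_coe]
  simp

theorem FRK_smul (z : ℍ) : FRK_w N • z = wz N z := by
  apply UpperHalfPlane.ext
  rw [UpperHalfPlane.coe_smul_of_det_pos (FRK_det_pos N), FRK_denom, FRK_num]
  rfl

theorem FRK_slash (f : ℍ → ℂ) (z : ℍ) :
    (f ∣[(2 : ℤ)] (FRK_w N)) z = ((N : ℂ) * (z : ℂ) ^ 2)⁻¹ * f (wz N z) := by
  have hσ : σ (FRK_w N) = ContinuousAlgEquiv.refl ℝ ℂ := by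
    rw [σ, if_pos (FRK_det_pos N)]
  have hN := FRK_N0C N
  have hz : (z : ℂ) ≠ 0 := z.ne_zero
  rw [ModularForm.slash_apply, FRK_smul, FRK_w_det, FRK_denom, hσ]
  have h2 : |(N : ℝ)| = (N : ℝ) := abs_of_nonneg (Nat.cast_nonneg N)
  rw [h2, show (2 : ℤ) - 1 = 1 by norm_num, zpow_one, zpow_neg]
  change f (wz N z) * (((N : ℝ)) : ℂ) * _ = _
  rw [show ((2 : ℤ)) = ((2 : ℕ) : ℤ) by norm_num, zpow_natCast]
  push_cast
  field_simp

theorem fricke_exists_pr : ∃ W : S2 N →ₗ[ℂ] S2 N, IsFricke W := by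
  choose W hW using FRK_exists1 (N := N)
  have h : ∀ f z, W f z = ((N : ℂ) * (z : ℂ) ^ 2)⁻¹ * f (wz N z) := by
    intro f z
    rw [← FRK_slash, ← hW]
  refine ⟨{ toFun := W, map_add' := ?_, map_smul' := ?_ }, ?_⟩
  · intro f g
    apply DFunLike.ext
    intro z
    rw [h, add_apply, add_apply, h, h]
    ring
  · intro c f
    apply DFunLike.ext
    intro z
    rw [h, smul_apply, smul_apply, h]
    simp only [smul_eq_mul, RingHom.id_apply]
    ring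
  · intro f z
    exact h f z

theorem fricke_sq_pr {W : S2 N →ₗ[ℂ] S2 N} (hW : IsFricke W) (f : S2 N) : W (W f) = f := by
  apply DFunLike.ext
  intro z
  have hN := FRK_N0C N
  have hz : (z : ℂ) ≠ 0 := z.ne_zero
  rw [hW, hW]
  have h1 : wz N (wz N z) = z := by
    apply UpperHalfPlane.ext
    change -1 / ((N : ℂ) * (-1 / ((N : ℂ) * (z : ℂ)))) = (z : ℂ)
    field_simp
  rw [h1]
  change ((N : ℂ) * (z : ℂ) ^ 2)⁻¹ * (((N : ℂ) * (-1 / ((N : ℂ) * (z : ℂ))) ^ 2)⁻¹ * f z) = f z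
  field_simp

theorem fricke_fam_pr {W : S2 N →ₗ[ℂ] S2 N} (hW : IsFricke W) (f : S2 N) (j : ZMod N) (z : ℍ) :
    fam f (some j) z = (N : ℂ)⁻¹ * W f (zsc N j.val z) := by
  have hN := FRK_N0C N
  have hinv : (sg (some j : PX N))⁻¹ = S⁻¹ * T ^ (-(j.val : ℤ)) := by
    change (T ^ (j.val : ℤ) * S)⁻¹ = _
    rw [mul_inv_rev, zpow_neg]
  have hc : ((sg (some j : PX N))⁻¹ : SL(2, ℤ)) = ⟨!![0, 1; -1, (j.val : ℤ)], by
      rw [Matrix.det_fin_two_of]; norm_num⟩ := by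
    rw [hinv]
    ext a b
    rw [Matrix.SpecialLinearGroup.coe_mul, ModularGroup.coe_T_zpow,
      Matrix.SpecialLinearGroup.coe_inv, ModularGroup.coe_S]
    fin_cases a <;> fin_cases b <;> simp [Matrix.adjugate_fin_two]
  have hfam : fam f (some j : PX N) z = ((f : ℍ → ℂ) ∣[(2 : ℤ)] (sg (some j : PX N))⁻¹) z := rfl
  have him : ((j.val : ℂ)) - (z : ℂ) ≠ 0 := by
    intro h
    have h1 := congrArg Complex.im h
    have h2 : ((j.val : ℂ) - (z : ℂ)).im = - z.im := by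
      rw [Complex.sub_im, Complex.natCast_im, zero_sub]
      rfl
    rw [h2] at h1
    have := z.im_pos
    simp only [Complex.zero_im] at h1
    linarith
  have him2 : (z : ℂ) - ((j.val : ℂ)) ≠ 0 := by
    intro h; apply him; rw [← neg_sub, h, neg_zero]
  have e00 : ((sg (some j : PX N))⁻¹ : SL(2, ℤ)) 0 0 = 0 := by rw [hc]; rfl
  have e01 : ((sg (some j : PX N))⁻¹ : SL(2, ℤ)) 0 1 = 1 := by rw [hc]; rfl
  have e10 : ((sg (some j : PX N))⁻¹ : SL(2, ℤ)) 1 0 = -1 := by rw [hc]; rfl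
  have e11 : ((sg (some j : PX N))⁻¹ : SL(2, ℤ)) 1 1 = (j.val : ℤ) := by rw [hc]; rfl
  have hden : denom (((sg (some j : PX N))⁻¹ : SL(2, ℤ)) : GL (Fin 2) ℝ) z = (j.val : ℂ) - (z : ℂ) := by
    rw [hc, UpperHalfPlane.denom]
    change ((((-1 : ℤ) : ℝ)) : ℂ) * (z : ℂ) + ((((j.val : ℤ) : ℝ)) : ℂ) = _
    push_cast
    ring
  have hpt : ((sg (some j : PX N))⁻¹ : SL(2, ℤ)) • z = wz N (zsc N j.val z) := by
    apply UpperHalfPlane.ext
    rw [UpperHalfPlane.coe_specialLinearGroup_apply, e00, e01, e10, e11]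
    change (((((0 : ℤ) : ℝ)) : ℂ) * (z : ℂ) + ((((1 : ℤ) : ℝ)) : ℂ)) /
      (((((-1 : ℤ) : ℝ)) : ℂ) * (z : ℂ) + ((((j.val : ℤ) : ℝ)) : ℂ)) =
      -1 / ((N : ℂ) * (((z : ℂ) - ((j.val : ℝ) : ℂ)) / (N : ℂ)))
    push_cast
    rw [mul_div_cancel₀ _ hN]
    rw [div_eq_div_iff (by convert him using 1; ring) him2]
    ring
  rw [hfam, ModularForm.SL_slash_apply, hW, hden, hpt]
  change _ = (N : ℂ)⁻¹ * (((N : ℂ) * (((z : ℂ) - ((j.val : ℝ) : ℂ)) / (N : ℂ)) ^ 2)⁻¹ * _)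
  have h3 : ((j.val : ℂ) - (z : ℂ)) ^ (-2 : ℤ) = (((z : ℂ) - (j.val : ℂ)) ^ 2)⁻¹ := by
    rw [zpow_neg]
    congr 1
    rw [show ((2 : ℤ)) = ((2 : ℕ) : ℤ) by norm_num, zpow_natCast]
    ring
  rw [h3]
  push_cast
  field_simp

end

theorem fricke_exists : type_of% @fricke_exists_pr := @fricke_exists_pr
theorem fricke_sq : type_of% @fricke_sq_pr := @fricke_sq_pr
theorem fricke_fam : type_of% @fricke_fam_pr := @fricke_fam_pr

end Pool.Agent.LEV
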