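import Pool.Agent.Lib_helper68.LEV.DefsC

/-!
# Block FAM: families indexed by the projective line
-/

namespace Pool.Agent.LEV

open Complex MeasureTheory Filter Topology UpperHalfPlane ModularGroup
open scoped MatrixGroups Modular ENNReal ModularForm ComplexConjugate ContDiff Manifold

section
variable {N : ℕ} [Fact N.Prime]

theorem pa_mul_pr (g h : SL(2, ℤ)) (q : PX N) : pa (g * h) q = pa g (pa h q) := by
  rw [pa, pa, pa, map_mul, mul_smul]

theorem pa_one_pr (q : PX N) : pa 1 q = q := by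
  rw [pa, map_one, one_smul]

theorem FAM_entry (g : SL(2, ℤ)) (i j : Fin 2) :
    (Matrix.SpecialLinearGroup.mapGL (ZMod N) g : GL (Fin 2) (ZMod N)) i j =
      ((g i j : ℤ) : ZMod N) := by
  simp

theorem pa_inf_pr (g : SL(2, ℤ)) : pa g (OnePoint.infty : PX N) =
    if ((g 1 0 : ℤ) : ZMod N) = 0 then OnePoint.infty
    else some (((g 0 0 : ℤ) : ZMod N) / ((g 1 0 : ℤ) : ZMod N)) := by
  have h := OnePoint.smul_infty_eq_ite
    (Matrix.SpecialLinearGroup.mapGL (ZMod N) g : GL (Fin 2) (ZMod N))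
  rw [FAM_entry, FAM_entry] at h
  exact h

theorem pa_some_pr (g : SL(2, ℤ)) (x : ZMod N) : pa g (some x : PX N) =
    if ((g 1 0 : ℤ) : ZMod N) * x + ((g 1 1 : ℤ) : ZMod N) = 0 then OnePoint.infty
    else some ((((g 0 0 : ℤ) : ZMod N) * x + ((g 0 1 : ℤ) : ZMod N)) /
      (((g 1 0 : ℤ) : ZMod N) * x + ((g 1 1 : ℤ) : ZMod N))) := by
  have h := OnePoint.smul_some_eq_ite
    (g := (Matrix.SpecialLinearGroup.mapGL (ZMod N) g : GL (Fin 2) (ZMod N))) (k := x)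
  simp only [FAM_entry] at h
  exact h

theorem pa_neg_pr (g : SL(2, ℤ)) (q : PX N) : pa (-g) q = pa g q := by
  have hn : ∀ i j : Fin 2, ((-g : SL(2, ℤ)) i j : ℤ) = -(g i j) := by
    intro i j
    simp
  cases q with
  | none =>
    rw [show (none : PX N) = OnePoint.infty from rfl, pa_inf_pr, pa_inf_pr]
    simp only [hn, Int.cast_neg, neg_eq_zero, neg_div_neg_eq]
  | some x =>
    rw [pa_some_pr, pa_some_pr]
    simp only [hn, Int.cast_neg]
    have e1 : -((g 1 0 : ℤ) : ZMod N) * x + -((g 1 1 : ℤ) : ZMod N) =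
        -(((g 1 0 : ℤ) : ZMod N) * x + ((g 1 1 : ℤ) : ZMod N)) := by ring
    have e2 : -((g 0 0 : ℤ) : ZMod N) * x + -((g 0 1 : ℤ) : ZMod N) =
        -(((g 0 0 : ℤ) : ZMod N) * x + ((g 0 1 : ℤ) : ZMod N)) := by ring
    rw [e1, e2, neg_div_neg_eq]
    simp only [neg_eq_zero]

theorem pa_inf_iff_pr (g : SL(2, ℤ)) : pa g (OnePoint.infty : PX N) = OnePoint.infty ↔
    g ∈ CongruenceSubgroup.Gamma0 N := by
  rw [pa_inf_pr, CongruenceSubgroup.Gamma0_mem]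
  constructor
  · intro h
    by_contra hne
    rw [if_neg hne] at h
    exact OnePoint.coe_ne_infty _ h
  · intro h
    rw [if_pos h]

theorem pa_sg_pr (q : PX N) : pa (sg q) (OnePoint.infty : PX N) = q := by
  cases q with
  | none =>
    rw [sg]
    exact pa_one_pr _
  | some j =>
    rw [sg, pa_inf_pr]
    have e : ((T ^ (j.val : ℤ) * S : SL(2, ℤ)) : Matrix (Fin 2) (Fin 2) ℤ) =
        !![(j.val : ℤ), -1; 1, 0] := by
      rw [Matrix.SpecialLinearGroup.coe_mul, coe_T_zpow, coe_S]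
      ext a b
      fin_cases a <;> fin_cases b <;> simp [Matrix.mul_apply]
    have e10 : (T ^ (j.val : ℤ) * S : SL(2, ℤ)) 1 0 = 1 := by rw [e]; rfl
    have e00 : (T ^ (j.val : ℤ) * S : SL(2, ℤ)) 0 0 = (j.val : ℤ) := by rw [e]; rfl
    rw [e10, e00]
    rw [if_neg (by simp)]
    congr 1
    simp

theorem card_PX_pr : Fintype.card (PX N) = N + 1 := by
  have h : Fintype.card (Option (ZMod N)) = N + 1 := by
    rw [Fintype.card_option, ZMod.card]
  rw [← h]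
  exact Fintype.card_congr (Equiv.refl (Option (ZMod N)))

theorem fam_inf_pr (f : S2 N) : fam f OnePoint.infty = f := by
  have h : sg (OnePoint.infty : PX N) = 1 := rfl
  rw [fam, h, inv_one, SlashAction.slash_one]

theorem FAM_inv (f : S2 N) {g : SL(2, ℤ)} (hg : g ∈ CongruenceSubgroup.Gamma0 N) :
    (f : ℍ → ℂ) ∣[(2 : ℤ)] g = f := by
  rw [ModularForm.SL_slash]
  exact SlashInvariantFormClass.slash_action_eq f _ ⟨g, hg, rfl⟩

theorem fam_slash_pr (f : S2 N) (g : SL(2, ℤ)) :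
    (f : ℍ → ℂ) ∣[(2 : ℤ)] g = fam f (pa g⁻¹ OnePoint.infty) := by
  set q : PX N := pa g⁻¹ OnePoint.infty with hq
  have h1 : pa (g * sg q) (OnePoint.infty : PX N) = OnePoint.infty := by
    rw [pa_mul_pr, pa_sg_pr, hq, ← pa_mul_pr, mul_inv_cancel, pa_one_pr]
  have h2 := FAM_inv f ((pa_inf_iff_pr _).1 h1)
  have h3 : g = (g * sg q) * (sg q)⁻¹ := by group
  calc (f : ℍ → ℂ) ∣[(2 : ℤ)] g = (f : ℍ → ℂ) ∣[(2 : ℤ)] ((g * sg q) * (sg q)⁻¹) := by rw [← h3]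
    _ = ((f : ℍ → ℂ) ∣[(2 : ℤ)] (g * sg q)) ∣[(2 : ℤ)] (sg q)⁻¹ := by
      rw [SlashAction.slash_mul]
    _ = fam f q := by rw [h2, fam]

theorem FAM_denom (g : SL(2, ℤ)) (z : ℍ) : denom g z = jd g z := by
  rw [denom_apply, jd]

theorem FAM_jd_ne (g : SL(2, ℤ)) (z : ℍ) : jd g z ≠ 0 := Pool.Agent.GL2.RSA_denom_ne g z

theorem FAM_jd_inv (g : SL(2, ℤ)) (z : ℍ) : jd g⁻¹ (g • z : ℍ) * jd g z = 1 := by
  have hdet : ((g 0 0 : ℤ) : ℂ) * ((g 1 1 : ℤ) : ℂ) - ((g 0 1 : ℤ) : ℂ) * ((g 1 0 : ℤ) : ℂ) = 1 := by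
    have := g.det_coe
    rw [Matrix.det_fin_two] at this
    exact_mod_cast this
  have e10 : (g⁻¹ : SL(2, ℤ)) 1 0 = -(g 1 0) := by
    rw [Matrix.SpecialLinearGroup.SL2_inv_expl]; rfl
  have e11 : (g⁻¹ : SL(2, ℤ)) 1 1 = g 0 0 := by
    rw [Matrix.SpecialLinearGroup.SL2_inv_expl]; rfl
  have hne := FAM_jd_ne g z
  rw [jd, e10, e11, Pool.Agent.GL2.RSA_coe_smul]
  change (((-(g 1 0) : ℤ) : ℂ) * ((((g 0 0 : ℤ) : ℂ) * (z : ℂ) + ((g 0 1 : ℤ) : ℂ)) / jd g z) +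
    ((g 0 0 : ℤ) : ℂ)) * jd g z = 1
  rw [add_mul, mul_assoc, div_mul_cancel₀ _ hne, jd, ← hdet]
  push_cast
  ring

theorem fam_equi_pr (f : S2 N) : Equi (fam f) := by
  intro g q z
  have h1 : pa g q = pa ((g * sg q)⁻¹)⁻¹ (OnePoint.infty : PX N) := by
    rw [inv_inv, pa_mul_pr, pa_sg_pr]
  rw [h1, ← fam_slash_pr, mul_inv_rev, SlashAction.slash_mul]
  change ((fam f q) ∣[(2 : ℤ)] g⁻¹) (g • z) = _
  rw [ModularForm.SL_slash_apply, inv_smul_smul, mul_comm]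
  congr 1
  have h4 : denom ((g⁻¹ : SL(2, ℤ)) : GL (Fin 2) ℝ) (g • z : ℍ) = (jd g z)⁻¹ := by
    rw [FAM_denom]
    exact eq_inv_of_mul_eq_one_left (FAM_jd_inv g z)
  rw [h4, zpow_neg, inv_zpow, inv_inv]
  norm_cast

theorem FAM_mdiff (f : S2 N) (q : PX N) : MDiff (fam f q) := by
  have h : MDiff (f : ℍ → ℂ) := ModularFormClass.holo f
  rw [fam, ModularForm.SL_slash]
  exact h.slash 2 _

theorem fam_hol_pr (f : S2 N) (q : PX N) : Hol (fam f q) :=
  UpperHalfPlane.mdifferentiable_iff.1 (FAM_mdiff f q)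

theorem fam_cont_pr (f : S2 N) (q : PX N) : Continuous (fam f q) :=
  (FAM_mdiff f q).continuous

end

theorem pa_mul : type_of% @pa_mul_pr := @pa_mul_pr
theorem pa_one : type_of% @pa_one_pr := @pa_one_pr
theorem pa_neg : type_of% @pa_neg_pr := @pa_neg_pr
theorem pa_inf : type_of% @pa_inf_pr := @pa_inf_pr
theorem pa_some : type_of% @pa_some_pr := @pa_some_pr
theorem pa_inf_iff : type_of% @pa_inf_iff_pr := @pa_inf_iff_pr
theorem pa_sg : type_of% @pa_sg_pr := @pa_sg_pr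
theorem card_PX : type_of% @card_PX_pr := @card_PX_pr
theorem fam_inf : type_of% @fam_inf_pr := @fam_inf_pr
theorem fam_slash : type_of% @fam_slash_pr := @fam_slash_pr
theorem fam_equi : type_of% @fam_equi_pr := @fam_equi_pr
theorem fam_hol : type_of% @fam_hol_pr := @fam_hol_pr
theorem fam_cont : type_of% @fam_cont_pr := @fam_cont_pr

end Pool.Agent.LEV
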