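import Pool.Agent.Lib_helper68.LEV.DefsC
import Pool.Agent.Lib_helper68.LEV.FAM

/-! Block FUN: integration over the quotient by a partition of unity (helper7). -/

namespace Pool.Agent.LEV

open Complex MeasureTheory Filter Topology UpperHalfPlane ModularGroup
open scoped MatrixGroups Modular ENNReal ModularForm ComplexConjugate ContDiff

section
variable {N : ℕ} [Fact N.Prime]

instance FUN_countable : Countable SL(2, ℤ) := GL2.RSA_countable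

theorem FUN_vol : (volume : Measure ℍ) 𝒟ᵒ < ⊤ := by
  have h1 := GL2.RSA_lint_fd (fun _ => 1)
  rw [setLIntegral_one] at h1
  rw [h1]
  have hsub : GL2.FD ⊆ {z : ℂ | z.re ∈ Set.Icc (-1 : ℝ) 1 ∧ z.im ∈ Set.Ioi (1 / 2 : ℝ)} := by
    rintro z ⟨hz1, hz2, hz3⟩
    have h3 := abs_lt.mp hz3
    refine ⟨⟨by linarith [h3.1], by linarith [h3.2]⟩, ?_⟩
    have h4 : 1 < ‖z‖ ^ 2 := by nlinarith
    rw [← Complex.normSq_eq_norm_sq, Complex.normSq_apply] at h4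
    show 1 / 2 < z.im
    nlinarith
  refine lt_of_le_of_lt (lintegral_mono_set hsub) ?_
  have hms : MeasurableSet {z : ℂ | z.re ∈ Set.Icc (-1 : ℝ) 1 ∧ z.im ∈ Set.Ioi (1 / 2 : ℝ)} :=
    (Complex.measurable_re measurableSet_Icc).inter (Complex.measurable_im measurableSet_Ioi)
  rw [← lintegral_indicator hms, (Complex.volume_preserving_equiv_real_prod.symm).lintegral_map_equiv]
  have h2 : ∀ p : ℝ × ℝ, {z : ℂ | z.re ∈ Set.Icc (-1 : ℝ) 1 ∧ z.im ∈ Set.Ioi (1 / 2 : ℝ)}.indicator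
      (fun z : ℂ => 1 * ENNReal.ofReal (1 / z.im ^ 2)) (Complex.measurableEquivRealProd.symm p) =
      (Set.Icc (-1 : ℝ) 1).indicator (fun _ => (1 : ℝ≥0∞)) p.1 *
      (Set.Ioi (1 / 2 : ℝ)).indicator (fun y => ENNReal.ofReal (1 / y ^ 2)) p.2 := by
    rintro ⟨x, y⟩
    have e : Complex.measurableEquivRealProd.symm (x, y) = (⟨x, y⟩ : ℂ) := rfl
    rw [e]
    by_cases hx : x ∈ Set.Icc (-1 : ℝ) 1
    · by_cases hy : y ∈ Set.Ioi (1 / 2 : ℝ)
      · rw [Set.indicator_of_mem (by exact ⟨hx, hy⟩), Set.indicator_of_mem hx,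
          Set.indicator_of_mem hy]
      · rw [Set.indicator_of_notMem (by exact fun h => hy h.2), Set.indicator_of_notMem hy, mul_zero]
    · rw [Set.indicator_of_notMem (by exact fun h => hx h.1), Set.indicator_of_notMem hx, zero_mul]
  rw [lintegral_congr h2, Measure.volume_eq_prod, lintegral_prod_mul
    (measurable_const.indicator measurableSet_Icc).aemeasurable
    ((by fun_prop : Measurable (fun y : ℝ => ENNReal.ofReal (1 / y ^ 2))).indicator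
      measurableSet_Ioi).aemeasurable, lintegral_indicator measurableSet_Icc,
    lintegral_indicator measurableSet_Ioi]
  apply ENNReal.mul_lt_top
  · rw [setLIntegral_one]
    simp
  · have h3 : IntegrableOn (fun y : ℝ => y ^ (-2 : ℝ)) (Set.Ioi (1 / 2)) :=
      integrableOn_Ioi_rpow_of_lt (by norm_num) (by norm_num)
    have h4 : IntegrableOn (fun y : ℝ => 1 / y ^ 2) (Set.Ioi (1 / 2)) := by
      apply h3.congr_fun _ measurableSet_Ioi
      intro y hy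
      have hy0 : (0 : ℝ) < y := lt_trans (by norm_num) hy
      simp only
      rw [Real.rpow_neg hy0.le, one_div]
      norm_cast
    exact h4.lintegral_lt_top

theorem FUN_ms (g : SL(2, ℤ)) : Measurable (fun z : ℍ => g • z) := (GL2.RSA_mp g).measurable

/-- substitution in the integral -/
theorem FUN_int (g : SL(2, ℤ)) (f : ℍ → ℂ) : ∫ z : ℍ, f (g • z) = ∫ z : ℍ, f z := by
  have := integral_smul_eq_self (μ := (volume : Measure ℍ)) f
    (g := Matrix.SpecialLinearGroup.mapGL ℝ g)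
  exact this

theorem FUN_lint (g : SL(2, ℤ)) {f : ℍ → ℝ≥0∞} (hf : Measurable f) :
    ∫⁻ z : ℍ, f (g • z) = ∫⁻ z : ℍ, f z := (GL2.RSA_mp g).lintegral_comp hf

/-- the indicator of the fundamental domain -/
noncomputable def FUN_D (z : ℍ) : ℝ≥0∞ := 𝒟ᵒ.indicator (fun _ => (1 : ℝ≥0∞)) z

theorem FUN_D_meas : Measurable FUN_D := measurable_const.indicator isOpen_fdo.measurableSet

theorem FUN_D_le (z : ℍ) : FUN_D z ≤ 1 := by
  unfold FUN_D
  by_cases hz : z ∈ 𝒟ᵒ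
  · rw [Set.indicator_of_mem hz]
  · rw [Set.indicator_of_notMem hz]
    exact zero_le_one

theorem FUN_D_int : ∫⁻ z : ℍ, FUN_D z = (volume : Measure ℍ) 𝒟ᵒ := by
  unfold FUN_D
  rw [lintegral_indicator isOpen_fdo.measurableSet, setLIntegral_one]

/-- the partition of unity -/
noncomputable def FUN_psi (N : ℕ) [Fact N.Prime] (z : ℍ) : ℝ≥0∞ :=
  2⁻¹ * ∑ q : PX N, FUN_D (sg q • z)

theorem FUN_psi_meas : Measurable (FUN_psi N) := by
  unfold FUN_psi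
  exact (Finset.measurable_sum _ fun q _ => FUN_D_meas.comp (FUN_ms _)).const_mul _

theorem FUN_two_psi (z : ℍ) : 2 * FUN_psi N z = ∑ q : PX N, FUN_D (sg q • z) := by
  unfold FUN_psi
  rw [← mul_assoc, ENNReal.mul_inv_cancel (by norm_num) (by norm_num), one_mul]

theorem FUN_psi_le (z : ℍ) : FUN_psi N z ≤ N + 1 := by
  unfold FUN_psi
  calc 2⁻¹ * ∑ q : PX N, FUN_D (sg q • z) ≤ 1 * ∑ q : PX N, (1 : ℝ≥0∞) := by
        gcongr
        · exact ENNReal.inv_le_one.2 (by norm_num)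
        · exact FUN_D_le _
    _ = N + 1 := by
        rw [Finset.sum_const, Finset.card_univ, card_PX]
        simp

theorem FUN_psi_int : ∫⁻ z : ℍ, FUN_psi N z < ⊤ := by
  have hm : ∀ q : PX N, Measurable (fun z : ℍ => FUN_D (sg q • z)) :=
    fun q => FUN_D_meas.comp (FUN_ms _)
  unfold FUN_psi
  rw [lintegral_const_mul _ (Finset.measurable_sum _ fun q _ => hm q),
    lintegral_finsetSum _ fun q _ => hm q]
  apply ENNReal.mul_lt_top (by norm_num)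
  apply ENNReal.sum_lt_top.2
  intro q _
  rw [FUN_lint _ FUN_D_meas, FUN_D_int]
  exact FUN_vol

theorem FUN_mem (g : SL(2, ℤ)) :
    (sg (pa g (OnePoint.infty : PX N)))⁻¹ * g ∈ CongruenceSubgroup.Gamma0 N := by
  rw [← pa_inf_iff (N := N), pa_mul]
  generalize pa g (OnePoint.infty : PX N) = q
  have h2 : pa (sg q)⁻¹ (pa (sg q) (OnePoint.infty : PX N)) = OnePoint.infty := by
    rw [← pa_mul, inv_mul_cancel, pa_one]
  rwa [pa_sg] at h2

theorem FUN_fix {γ : SL(2, ℤ)} (h : γ ∈ CongruenceSubgroup.Gamma0 N) (q : PX N) :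
    pa (sg q * γ) (OnePoint.infty : PX N) = q := by
  rw [pa_mul, pa_inf_iff (N := N) γ |>.2 h, pa_sg]

/-- the coset decomposition -/
noncomputable def FUN_equiv (N : ℕ) [Fact N.Prime] :
    PX N × CongruenceSubgroup.Gamma0 N ≃ SL(2, ℤ) where
  toFun p := sg p.1 * (p.2 : SL(2, ℤ))
  invFun g := (pa g OnePoint.infty, ⟨(sg (pa g (OnePoint.infty : PX N)))⁻¹ * g, FUN_mem g⟩)
  left_inv p := by
    obtain ⟨q, γ, hγ⟩ := p
    have h := FUN_fix hγ q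
    apply Prod.ext
    · exact h
    · apply Subtype.ext
      show (sg (pa (sg q * γ) (OnePoint.infty : PX N)))⁻¹ * (sg q * γ) = γ
      rw [h, inv_mul_cancel_left]
  right_inv g := by
    simp

theorem FUN_sum (F : SL(2, ℤ) → ℝ≥0∞) :
    ∑' γ : CongruenceSubgroup.Gamma0 N, ∑ q : PX N, F (sg q * (γ : SL(2, ℤ))) =
      ∑' g : SL(2, ℤ), F g := by
  rw [← (FUN_equiv N).tsum_eq, ENNReal.tsum_prod']
  have h1 : ∀ γ : CongruenceSubgroup.Gamma0 N, ∑ q : PX N, F (sg q * (γ : SL(2, ℤ))) =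
      ∑' q : PX N, F (sg q * (γ : SL(2, ℤ))) := fun γ => (tsum_fintype _).symm
  simp_rw [h1]
  rw [ENNReal.tsum_comm]
  rfl

theorem FUN_psi_sum : ∀ᵐ z : ℍ, ∑' γ : CongruenceSubgroup.Gamma0 N,
    FUN_psi N ((γ : SL(2, ℤ)) • z) = 1 := by
  filter_upwards [GL2.RSA_count_ae] with z hz
  have h1 : ∀ γ : CongruenceSubgroup.Gamma0 N, FUN_psi N ((γ : SL(2, ℤ)) • z) =
      2⁻¹ * ∑ q : PX N, FUN_D ((sg q * (γ : SL(2, ℤ))) • z) := by
    intro γ
    unfold FUN_psi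
    simp_rw [mul_smul]
  simp_rw [h1]
  rw [ENNReal.tsum_mul_left, FUN_sum (fun g => FUN_D (g • z))]
  have h2 : ∑' g : SL(2, ℤ), FUN_D (g • z) = 2 := hz
  rw [h2, ENNReal.inv_mul_cancel (by norm_num) (by norm_num)]

theorem FUN_lintegral (h : ℍ → ℝ≥0∞) (hm : Measurable h) :
    ∑ q : PX N, ∫⁻ z in 𝒟ᵒ, h ((sg q)⁻¹ • z) = 2 * ∫⁻ z : ℍ, h z * FUN_psi N z := by
  have hmq : ∀ q : PX N, Measurable (fun w : ℍ => h w * FUN_D (sg q • w)) :=
    fun q => hm.mul (FUN_D_meas.comp (FUN_ms _))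
  have h1 : ∀ q : PX N, ∫⁻ z in 𝒟ᵒ, h ((sg q)⁻¹ • z) = ∫⁻ w : ℍ, h w * FUN_D (sg q • w) := by
    intro q
    rw [← FUN_lint (sg q)⁻¹ (hmq q), ← lintegral_indicator isOpen_fdo.measurableSet]
    apply lintegral_congr
    intro z
    simp only [smul_inv_smul]
    unfold FUN_D
    by_cases hz : z ∈ 𝒟ᵒ
    · rw [Set.indicator_of_mem hz, Set.indicator_of_mem hz, mul_one]
    · rw [Set.indicator_of_notMem hz, Set.indicator_of_notMem hz, mul_zero]
  simp_rw [h1]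
  have hmp : Measurable (fun z : ℍ => h z * FUN_psi N z) := hm.mul FUN_psi_meas
  rw [← lintegral_finsetSum _ fun q _ => hmq q, ← lintegral_const_mul _ hmp]
  apply lintegral_congr
  intro z
  rw [mul_left_comm, FUN_two_psi, Finset.mul_sum]

theorem FUN_integral (h : ℍ → ℂ) (hm : Measurable h) (hb : ∃ C : ℝ, ∀ z, ‖h z‖ ≤ C) :
    ∑ q : PX N, ∫ z in 𝒟ᵒ, h ((sg q)⁻¹ • z) =
      2 * ∫ z : ℍ, h z * ((FUN_psi N z).toReal : ℂ) := by
  obtain ⟨C, hC⟩ := hb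
  have h1 : ∀ q : PX N, ∫ z in 𝒟ᵒ, h ((sg q)⁻¹ • z) =
      ∫ w : ℍ, h w * ((FUN_D (sg q • w)).toReal : ℂ) := by
    intro q
    rw [← FUN_int (sg q)⁻¹, ← integral_indicator isOpen_fdo.measurableSet]
    apply integral_congr_ae
    apply Eventually.of_forall
    intro z
    simp only [smul_inv_smul]
    unfold FUN_D
    by_cases hz : z ∈ 𝒟ᵒ
    · rw [Set.indicator_of_mem hz, Set.indicator_of_mem hz, ENNReal.toReal_one,
        Complex.ofReal_one, mul_one]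
    · rw [Set.indicator_of_notMem hz, Set.indicator_of_notMem hz, ENNReal.toReal_zero,
        Complex.ofReal_zero, mul_zero]
  have hint : ∀ q : PX N, Integrable (fun w : ℍ => h w * ((FUN_D (sg q • w)).toReal : ℂ)) := by
    intro q
    have hD : Integrable (fun w : ℍ => ((FUN_D (sg q • w)).toReal : ℂ)) := by
      apply Integrable.ofReal
      apply integrable_toReal_of_lintegral_ne_top
      · exact (FUN_D_meas.comp (FUN_ms _)).aemeasurable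
      · rw [FUN_lint _ FUN_D_meas, FUN_D_int]
        exact FUN_vol.ne
    exact hD.bdd_mul (c := C) hm.aestronglyMeasurable (Eventually.of_forall hC)
  simp_rw [h1]
  rw [← integral_finsetSum _ fun q _ => hint q, ← integral_const_mul]
  apply integral_congr_ae
  apply Eventually.of_forall
  intro z
  have h2 : 2 * ((FUN_psi N z).toReal : ℂ) = ∑ q : PX N, ((FUN_D (sg q • z)).toReal : ℂ) := by
    have h3 := congrArg ENNReal.toReal (FUN_two_psi (N := N) z)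
    rw [ENNReal.toReal_mul, ENNReal.toReal_sum (fun q _ => ne_top_of_le_ne_top (by simp)
      (FUN_D_le (sg q • z)))] at h3
    have h4 := congrArg (fun x : ℝ => (x : ℂ)) h3
    push_cast at h4
    simpa using h4
  simp only
  rw [mul_left_comm, h2, Finset.mul_sum]

/-- integration over the quotient by a partition of unity -/
theorem fun_exists_pr : ∃ ψ : ℍ → ℝ≥0∞, Measurable ψ ∧ (∀ z, ψ z ≤ N + 1) ∧ ∫⁻ z : ℍ, ψ z < ⊤ ∧
    (∀ᵐ z : ℍ, ∑' γ : CongruenceSubgroup.Gamma0 N, ψ ((γ : SL(2, ℤ)) • z) = 1) ∧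
    (∀ h : ℍ → ℝ≥0∞, Measurable h → (∀ γ ∈ CongruenceSubgroup.Gamma0 N, ∀ z, h (γ • z) = h z) →
      ∑ q : PX N, ∫⁻ z in 𝒟ᵒ, h ((sg q)⁻¹ • z) = 2 * ∫⁻ z : ℍ, h z * ψ z) ∧
    (∀ h : ℍ → ℂ, Measurable h → (∃ C : ℝ, ∀ z, ‖h z‖ ≤ C) →
      (∀ γ ∈ CongruenceSubgroup.Gamma0 N, ∀ z, h (γ • z) = h z) →
      ∑ q : PX N, ∫ z in 𝒟ᵒ, h ((sg q)⁻¹ • z) = 2 * ∫ z : ℍ, h z * ((ψ z).toReal : ℂ)) :=
  ⟨FUN_psi N, FUN_psi_meas, FUN_psi_le, FUN_psi_int, FUN_psi_sum,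
    fun h hm _ => FUN_lintegral h hm, fun h hm hb _ => FUN_integral h hm hb⟩

theorem fun_unique_pr {ψ₁ ψ₂ : ℍ → ℝ≥0∞} (h1 : Measurable ψ₁) (h2 : Measurable ψ₂)
    (hs1 : ∀ᵐ z : ℍ, ∑' γ : CongruenceSubgroup.Gamma0 N, ψ₁ ((γ : SL(2, ℤ)) • z) = 1)
    (hs2 : ∀ᵐ z : ℍ, ∑' γ : CongruenceSubgroup.Gamma0 N, ψ₂ ((γ : SL(2, ℤ)) • z) = 1)
    (h : ℍ → ℝ≥0∞) (hm : Measurable h)
    (hi : ∀ γ ∈ CongruenceSubgroup.Gamma0 N, ∀ z, h (γ • z) = h z) :
    ∫⁻ z : ℍ, h z * ψ₁ z = ∫⁻ z : ℍ, h z * ψ₂ z := by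
  have e1 : ∫⁻ z : ℍ, h z * ψ₁ z = ∫⁻ z : ℍ, ∑' γ : CongruenceSubgroup.Gamma0 N,
      h z * ψ₁ z * ψ₂ ((γ : SL(2, ℤ)) • z) := by
    apply lintegral_congr_ae
    filter_upwards [hs2] with z hz
    rw [ENNReal.tsum_mul_left, hz, mul_one]
  have e2 : ∫⁻ z : ℍ, h z * ψ₂ z = ∫⁻ z : ℍ, ∑' γ : CongruenceSubgroup.Gamma0 N,
      h z * ψ₂ z * ψ₁ ((γ : SL(2, ℤ)) • z) := by
    apply lintegral_congr_ae
    filter_upwards [hs1] with z hz
    rw [ENNReal.tsum_mul_left, hz, mul_one]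
  have m1 : ∀ γ : SL(2, ℤ), Measurable (fun z : ℍ => h z * ψ₁ z * ψ₂ (γ • z)) :=
    fun γ => (hm.mul h1).mul (h2.comp (FUN_ms _))
  have m2 : ∀ γ : SL(2, ℤ), Measurable (fun z : ℍ => h z * ψ₂ z * ψ₁ (γ • z)) :=
    fun γ => (hm.mul h2).mul (h1.comp (FUN_ms _))
  rw [e1, e2, lintegral_tsum fun γ : CongruenceSubgroup.Gamma0 N => (m1 γ).aemeasurable,
    lintegral_tsum fun γ : CongruenceSubgroup.Gamma0 N => (m2 γ).aemeasurable,
    ← (Equiv.inv (CongruenceSubgroup.Gamma0 N)).tsum_eq]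
  apply tsum_congr
  intro γ
  have e3 := FUN_lint (γ : SL(2, ℤ)) (f := fun z => h z * ψ₁ z *
    ψ₂ (((γ⁻¹ : CongruenceSubgroup.Gamma0 N) : SL(2, ℤ)) • z)) (m1 _)
  have e4 : ∫⁻ z : ℍ, h z * ψ₁ z *
      ψ₂ (((Equiv.inv (CongruenceSubgroup.Gamma0 N) γ : CongruenceSubgroup.Gamma0 N) :
        SL(2, ℤ)) • z) = ∫⁻ z : ℍ, h z * ψ₁ z *
    ψ₂ (((γ⁻¹ : CongruenceSubgroup.Gamma0 N) : SL(2, ℤ)) • z) := rfl
  rw [e4, ← e3]
  apply lintegral_congr
  intro z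
  rw [hi _ γ.2, Subgroup.coe_inv, inv_smul_smul]
  ring

/-- the inner product as an integral over the upper half plane -/
theorem pet_fun_pr (f g : S2 N) (q : PX N) (z : ℍ) :
    conj (fam f q z) * fam g q z * ((z.im ^ 2 : ℝ) : ℂ) =
      conj (f ((sg q)⁻¹ • z)) * g ((sg q)⁻¹ • z) * ((((sg q)⁻¹ • z : ℍ).im ^ 2 : ℝ) : ℂ) := by
  unfold fam
  rw [ModularForm.SL_slash_apply, ModularForm.SL_slash_apply, GL2.RSA_im_smul]
  have h1 : denom ((sg q)⁻¹ : SL(2, ℤ)) z = ((((sg q)⁻¹ : SL(2, ℤ)) 1 0 : ℤ) : ℂ) * (z : ℂ) +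
      ((((sg q)⁻¹ : SL(2, ℤ)) 1 1 : ℤ) : ℂ) := denom_apply _ _
  rw [h1]
  have h2 := GL2.RSA_denom_ne (sg q)⁻¹ z
  set w := ((((sg q)⁻¹ : SL(2, ℤ)) 1 0 : ℤ) : ℂ) * (z : ℂ) +
      ((((sg q)⁻¹ : SL(2, ℤ)) 1 1 : ℤ) : ℂ) with hw
  have h3 : conj w ≠ 0 := by simpa using h2
  have h4 : ((‖w‖ ^ 2 : ℝ) : ℂ) = conj w * w := by
    rw [← Complex.normSq_eq_norm_sq, Complex.normSq_eq_conj_mul_self]
  have h5 : ((z.im / ‖w‖ ^ 2) ^ 2 : ℝ) = z.im ^ 2 / (‖w‖ ^ 2) ^ 2 := by ring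
  rw [h5]
  rw [Complex.ofReal_div, Complex.ofReal_pow (‖w‖ ^ 2), h4, map_mul, map_zpow₀]
  field_simp

end

theorem fun_exists : type_of% @fun_exists_pr := @fun_exists_pr
theorem fun_unique : type_of% @fun_unique_pr := @fun_unique_pr
theorem pet_fun : type_of% @pet_fun_pr := @pet_fun_pr

end Pool.Agent.LEV
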