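import Pool.Agent.Lib_helper68.LEV.DefsC
import Pool.Agent.Lib_helper68.GL2.B7
import Pool.Agent.Lib_helper68.LEV.FAM
import Pool.Agent.Lib_helper68.LEV.QEX

/-!
# Block PET: the Petersson inner product
-/

namespace Pool.Agent.LEV

open Complex MeasureTheory Filter Topology UpperHalfPlane ModularGroup
open scoped MatrixGroups Modular ENNReal ModularForm ComplexConjugate ContDiff Manifold

section
variable {N : ℕ} [Fact N.Prime]

theorem PET_vol : (volume : Measure ℍ) 𝒟ᵒ < ⊤ := Pool.Agent.GL2.b7_vol_fdo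

theorem PET_im_cont : Continuous fun z : ℍ => z.im := UpperHalfPlane.continuous_im

theorem PET_enorm {w : ℂ} {y : ℝ} (hy : 0 < y) :
    ‖w‖ₑ ^ 2 * ENNReal.ofReal (y ^ 2) = ENNReal.ofReal ((‖w‖ * y) ^ 2) := by
  rw [← ofReal_norm, ← ENNReal.ofReal_pow (norm_nonneg _), ← ENNReal.ofReal_mul (by positivity),
    mul_pow]

theorem PET_bd (f : S2 N) : ∃ C : ℝ, 0 ≤ C ∧ ∀ (q : PX N) (z : ℍ), ‖fam f q z‖ * z.im ≤ C := by
  obtain ⟨C, hC⟩ := f_bound f
  refine ⟨C, ?_, hC⟩
  exact (mul_nonneg (norm_nonneg _) UpperHalfPlane.I.im_pos.le).trans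
    (hC OnePoint.infty UpperHalfPlane.I)

theorem en_lt_pr (f : S2 N) : en (fam f) < ⊤ := by
  obtain ⟨C, hC0, hC⟩ := PET_bd f
  rw [en, ENNReal.sum_lt_top]
  intro q _
  calc ∫⁻ z in 𝒟ᵒ, ‖fam f q z‖ₑ ^ 2 * ENNReal.ofReal (z.im ^ 2)
      ≤ ∫⁻ z in 𝒟ᵒ, ENNReal.ofReal (C ^ 2) := by
        refine lintegral_mono fun z => ?_
        simp only
        rw [PET_enorm z.im_pos]
        refine ENNReal.ofReal_le_ofReal (pow_le_pow_left₀ ?_ (hC q z) 2)
        exact mul_nonneg (norm_nonneg _) z.im_pos.le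
    _ = ENNReal.ofReal (C ^ 2) * (volume : Measure ℍ) 𝒟ᵒ := setLIntegral_const _ _
    _ < ⊤ := ENNReal.mul_lt_top ENNReal.ofReal_lt_top PET_vol

/-- the integrand of the inner product is integrable -/
theorem PET_int (f g : S2 N) (q : PX N) :
    IntegrableOn (fun z : ℍ => conj (fam f q z) * fam g q z * ((z.im ^ 2 : ℝ) : ℂ)) 𝒟ᵒ := by
  obtain ⟨C, hC0, hC⟩ := PET_bd f
  obtain ⟨D, hD0, hD⟩ := PET_bd g
  have hc : Continuous (fun z : ℍ => conj (fam f q z) * fam g q z * ((z.im ^ 2 : ℝ) : ℂ)) :=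
    ((Complex.continuous_conj.comp (fam_cont f q)).mul (fam_cont g q)).mul
      (Complex.continuous_ofReal.comp (PET_im_cont.pow 2))
  refine Measure.integrableOn_of_bounded (M := C * D) PET_vol.ne hc.aestronglyMeasurable
    (Eventually.of_forall fun z => ?_)
  have h1 : ‖conj (fam f q z) * fam g q z * ((z.im ^ 2 : ℝ) : ℂ)‖ =
      (‖fam f q z‖ * z.im) * (‖fam g q z‖ * z.im) := by
    rw [norm_mul, norm_mul, Complex.norm_conj, Complex.norm_real,
      Real.norm_of_nonneg (by positivity)]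
    ring
  rw [h1]
  exact mul_le_mul (hC q z) (hD q z) (mul_nonneg (norm_nonneg _) z.im_pos.le) hC0

theorem pet_conj_pr (f g : S2 N) : pet g f = conj (pet f g) := by
  rw [pet, pet, map_sum]
  refine Finset.sum_congr rfl fun q _ => ?_
  rw [← integral_conj]
  refine integral_congr_ae (Eventually.of_forall fun z => ?_)
  simp only [map_mul, Complex.conj_conj, Complex.conj_ofReal]
  ring

theorem PET_fam_add (g h : S2 N) (q : PX N) : fam (g + h) q = fam g q + fam h q := by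
  rw [fam, fam, fam, FunLike.coe_add, SlashAction.add_slash]

theorem PET_fam_smul (c : ℂ) (g : S2 N) (q : PX N) : fam (c • g) q = c • fam g q := by
  rw [fam, fam, FunLike.coe_smul, ModularForm.SL_smul_slash]

theorem pet_add_pr (f g h : S2 N) : pet f (g + h) = pet f g + pet f h := by
  rw [pet, pet, pet, ← Finset.sum_add_distrib]
  refine Finset.sum_congr rfl fun q _ => ?_
  rw [← integral_add (PET_int f g q) (PET_int f h q)]
  refine integral_congr_ae (Eventually.of_forall fun z => ?_)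
  simp only [PET_fam_add, Pi.add_apply]
  ring

theorem pet_smul_pr (c : ℂ) (f g : S2 N) : pet f (c • g) = c * pet f g := by
  rw [pet, pet, Finset.mul_sum]
  refine Finset.sum_congr rfl fun q _ => ?_
  rw [← integral_const_mul]
  refine integral_congr_ae (Eventually.of_forall fun z => ?_)
  simp only [PET_fam_smul, Pi.smul_apply, smul_eq_mul]
  ring

theorem pet_self_pr (f : S2 N) : pet f f = (nr f : ℂ) := by
  have h := pet_conj_pr f f
  rw [nr]
  exact (Complex.conj_eq_iff_re.1 h.symm).symm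

/-- `nr` as a sum of real integrals -/
theorem PET_nr (f : S2 N) : nr f = ∑ q : PX N, ∫ z in 𝒟ᵒ, (‖fam f q z‖ * z.im) ^ 2 := by
  have h : pet f f = ((∑ q : PX N, ∫ z in 𝒟ᵒ, (‖fam f q z‖ * z.im) ^ 2 : ℝ) : ℂ) := by
    rw [pet, Complex.ofReal_sum]
    refine Finset.sum_congr rfl fun q _ => ?_
    have h2 : ∫ z in 𝒟ᵒ, (((‖fam f q z‖ * z.im) ^ 2 : ℝ) : ℂ) =
        ((∫ z in 𝒟ᵒ, (‖fam f q z‖ * z.im) ^ 2 : ℝ) : ℂ) := integral_ofReal
    rw [← h2]
    refine integral_congr_ae (Eventually.of_forall fun z => ?_)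
    simp only
    rw [mul_comm (conj (fam f q z)), Complex.mul_conj, Complex.normSq_eq_norm_sq,
      ← Complex.ofReal_mul]
    congr 1
    ring
  rw [nr, h, Complex.ofReal_re]

theorem PET_int2 (f : S2 N) (q : PX N) :
    IntegrableOn (fun z : ℍ => (‖fam f q z‖ * z.im) ^ 2) 𝒟ᵒ := by
  obtain ⟨C, hC0, hC⟩ := PET_bd f
  have hc : Continuous (fun z : ℍ => (‖fam f q z‖ * z.im) ^ 2) :=
    ((fam_cont f q).norm.mul PET_im_cont).pow 2
  refine Measure.integrableOn_of_bounded (M := C ^ 2) PET_vol.ne hc.aestronglyMeasurable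
    (Eventually.of_forall fun z => ?_)
  rw [Real.norm_of_nonneg (by positivity)]
  exact pow_le_pow_left₀ (mul_nonneg (norm_nonneg _) z.im_pos.le) (hC q z) 2

theorem nr_en_pr (f : S2 N) : ENNReal.ofReal (nr f) = en (fam f) := by
  rw [PET_nr, en, ENNReal.ofReal_sum_of_nonneg (fun q _ => integral_nonneg fun z => by
    show 0 ≤ (‖fam f q z‖ * z.im) ^ 2
    positivity)]
  refine Finset.sum_congr rfl fun q _ => ?_
  rw [ofReal_integral_eq_lintegral_ofReal (PET_int2 f q) (Eventually.of_forall fun z => by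
    show 0 ≤ (‖fam f q z‖ * z.im) ^ 2
    positivity)]
  refine lintegral_congr fun z => ?_
  rw [PET_enorm z.im_pos]

theorem PET_open_pos {U : Set ℍ} (hU : IsOpen U) (h0 : (volume : Measure ℍ) U = 0) : U = ∅ := by
  rw [volume_eq_lintegral] at h0
  by_contra hne
  obtain ⟨w, hw⟩ := Set.nonempty_iff_ne_empty.2 hne
  have hopen : IsOpen ((↑) '' U : Set ℂ) := isOpenEmbedding_coe.isOpenMap U hU
  have hpos : 0 < (volume : Measure ℂ) ((↑) '' U : Set ℂ) :=
    hopen.measure_pos volume ⟨_, w, hw, rfl⟩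
  have hm : Measurable (fun z : ℂ => (((1 / ‖z.im‖₊) ^ 2 : NNReal) : ℝ≥0∞)) :=
    ((measurable_const.div Complex.measurable_im.nnnorm).pow_const 2).coe_nnreal_ennreal
  have h1 : 0 < ∫⁻ z : ℂ in (↑) '' U, (((1 / ‖z.im‖₊) ^ 2 : NNReal) : ℝ≥0∞) := by
    rw [setLIntegral_pos_iff hm]
    refine lt_of_lt_of_le hpos (measure_mono ?_)
    rintro _ ⟨v, hv, rfl⟩
    refine ⟨?_, v, hv, rfl⟩
    rw [Function.mem_support]
    have h2 : ‖(v : ℂ).im‖₊ ≠ 0 := nnnorm_ne_zero_iff.2 v.im_ne_zero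
    simp only [ne_eq, ENNReal.coe_eq_zero]
    exact pow_ne_zero 2 (one_div_ne_zero h2)
  rw [h0] at h1
  exact lt_irrefl _ h1

theorem PET_zero {f : S2 N} (h : ∀ z : ℍ, z ∈ (𝒟ᵒ : Set ℍ) → f z = 0) : f = 0 := by
  have hhol : Hol (fam f OnePoint.infty) := fam_hol f OnePoint.infty
  rw [fam_inf] at hhol
  have hopen : IsOpen {z : ℂ | 0 < z.im} := isOpen_lt continuous_const Complex.continuous_im
  have han := hhol.analyticOnNhd hopen
  have hconn : IsPreconnected {z : ℂ | 0 < z.im} := (convex_halfSpace_im_gt 0).isPreconnected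
  set z0 : ℍ := ⟨2 * Complex.I, by simp⟩ with hz0
  have hz0c : (z0 : ℂ) = 2 * Complex.I := rfl
  have hz0D : z0 ∈ (𝒟ᵒ : Set ℍ) := by
    constructor
    · rw [hz0c, Complex.normSq_apply]; simp; norm_num
    · change |(z0 : ℂ).re| < 1 / 2
      rw [hz0c]; simp
  have hev : (fun z : ℂ => f (ofComplex z)) =ᶠ[𝓝 (z0 : ℂ)] 0 := by
    have h1 : ((↑) '' (𝒟ᵒ : Set ℍ) : Set ℂ) ∈ 𝓝 (z0 : ℂ) :=
      (isOpenEmbedding_coe.isOpenMap _ isOpen_fdo).mem_nhds ⟨z0, hz0D, rfl⟩
    filter_upwards [h1]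
    rintro _ ⟨v, hv, rfl⟩
    rw [ofComplex_apply]
    exact h v hv
  have hz := han.eqOn_zero_of_preconnected_of_eventuallyEq_zero hconn z0.im_pos hev
  refine DFunLike.ext _ _ fun z => ?_
  have h2 := hz z.im_pos
  simp only [Pi.zero_apply, ofComplex_apply] at h2
  rw [h2]
  rfl

theorem nr_pos_pr {f : S2 N} (hf : f ≠ 0) : 0 < nr f := by
  by_contra hle
  rw [not_lt] at hle
  have h0 : en (fam f) = 0 := by
    rw [← nr_en_pr, ENNReal.ofReal_eq_zero.2 hle]
  rw [en, Finset.sum_eq_zero_iff] at h0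
  have h1 := h0 OnePoint.infty (Finset.mem_univ _)
  have hfc : Continuous (f : ℍ → ℂ) := by
    have := fam_cont f OnePoint.infty
    rwa [fam_inf] at this
  rw [fam_inf] at h1
  set G : ℍ → ℝ≥0∞ := fun z => ‖f z‖ₑ ^ 2 * ENNReal.ofReal (z.im ^ 2) with hG
  have hGm : Measurable G := by
    refine Measurable.mul (hfc.measurable.enorm.pow_const 2) ?_
    exact (ENNReal.continuous_ofReal.comp (PET_im_cont.pow 2)).measurable
  set U : Set ℍ := 𝒟ᵒ ∩ {z | f z ≠ 0} with hU
  have hUo : IsOpen U := isOpen_fdo.inter (isOpen_ne_fun hfc continuous_const)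
  have hU0 : (volume : Measure ℍ) U = 0 := by
    by_contra hne
    have hpos : 0 < (volume : Measure ℍ) U := pos_iff_ne_zero.2 hne
    have h2 : 0 < ∫⁻ z in U, G z := by
      rw [setLIntegral_pos_iff hGm]
      refine lt_of_lt_of_le hpos (measure_mono ?_)
      intro z hz
      refine ⟨?_, hz⟩
      rw [Function.mem_support, hG]
      simp only [ne_eq, mul_eq_zero, pow_eq_zero_iff, OfNat.ofNat_ne_zero, not_false_eq_true,
        enorm_eq_zero, ENNReal.ofReal_eq_zero, not_or, not_le]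
      exact ⟨hz.2, by have := z.im_pos; positivity⟩
    have h3 : ∫⁻ z in U, G z ≤ ∫⁻ z in 𝒟ᵒ, G z :=
      lintegral_mono_set Set.inter_subset_left
    have h4 : ∫⁻ z in 𝒟ᵒ, G z = 0 := h1
    rw [h4] at h3
    exact absurd (lt_of_lt_of_le h2 h3) (lt_irrefl _)
  have hUe := PET_open_pos hUo hU0
  refine hf (PET_zero fun z hz => ?_)
  by_contra hne
  have : z ∈ U := ⟨hz, hne⟩
  rw [hUe] at this
  exact this

end

theorem en_lt : type_of% @en_lt_pr := @en_lt_pr
theorem pet_conj : type_of% @pet_conj_pr := @pet_conj_pr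
theorem pet_add : type_of% @pet_add_pr := @pet_add_pr
theorem pet_smul : type_of% @pet_smul_pr := @pet_smul_pr
theorem pet_self : type_of% @pet_self_pr := @pet_self_pr
theorem nr_en : type_of% @nr_en_pr := @nr_en_pr
theorem nr_pos : type_of% @nr_pos_pr := @nr_pos_pr

end Pool.Agent.LEV
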