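import Pool.Agent.Lib_helper68.LEV.DefsC
import Pool.Agent.Lib_helper68.LEV.FAM
import Pool.Agent.Lib_helper68.LEV.FUN
import Pool.Agent.Lib_helper68.LEV.PET

/-! Block FRU: the Fricke operator is unitary (helper7). -/

namespace Pool.Agent.LEV

open Complex MeasureTheory Filter Topology UpperHalfPlane ModularGroup
open scoped MatrixGroups Modular ENNReal ModularForm ComplexConjugate ContDiff

section
variable {N : ℕ} [Fact N.Prime]

theorem FRU_N0 (N : ℕ) [Fact N.Prime] : (N : ℝ) ≠ 0 := by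
  exact_mod_cast (Fact.out : N.Prime).ne_zero

theorem FRU_N0C (N : ℕ) [Fact N.Prime] : (N : ℂ) ≠ 0 := by
  exact_mod_cast (Fact.out : N.Prime).ne_zero

/-- the Fricke matrix -/
noncomputable def FRU_w (N : ℕ) [Fact N.Prime] : GL (Fin 2) ℝ :=
  Matrix.GeneralLinearGroup.mkOfDetNeZero !![0, -1; (N : ℝ), 0] (by
    rw [Matrix.det_fin_two_of]
    have := FRU_N0 N
    simpa using this)

theorem FRU_w_coe (N : ℕ) [Fact N.Prime] :
    ((FRU_w N : GL (Fin 2) ℝ) : Matrix (Fin 2) (Fin 2) ℝ) = !![0, -1; (N : ℝ), 0] := rfl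

theorem FRU_w_det (N : ℕ) [Fact N.Prime] : 0 < (FRU_w N).det.val := by
  rw [Matrix.GeneralLinearGroup.val_det_apply, FRU_w_coe, Matrix.det_fin_two_of]
  have : (0 : ℝ) < N := by exact_mod_cast (Fact.out : N.Prime).pos
  linarith

theorem FRU_wz (z : ℍ) : FRU_w N • z = wz N z := by
  apply UpperHalfPlane.ext
  rw [coe_smul_of_det_pos (FRU_w_det N), num, denom, FRU_w_coe]
  show _ = -1 / ((N : ℂ) * (z : ℂ))
  simp

theorem FRU_mp (N : ℕ) [Fact N.Prime] : MeasurePreserving (fun z : ℍ => wz N z) volume volume := by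
  have := measurePreserving_smul (FRU_w N) (volume : Measure ℍ)
  have h2 : (fun z : ℍ => wz N z) = fun z : ℍ => FRU_w N • z := by
    funext z
    rw [FRU_wz]
  rw [h2]
  exact this

theorem FRU_wz_coe (z : ℍ) : ((wz N z : ℍ) : ℂ) = -1 / ((N : ℂ) * (z : ℂ)) := rfl

theorem FRU_wz_wz (z : ℍ) : wz N (wz N z) = z := by
  apply UpperHalfPlane.ext
  rw [FRU_wz_coe, FRU_wz_coe]
  have h1 := FRU_N0C N
  have h2 := z.ne_zero
  field_simp

theorem FRU_wz_im (z : ℍ) : (wz N z : ℍ).im = z.im / (N * ‖(z : ℂ)‖ ^ 2) := by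
  have h0 : (wz N z : ℍ).im = (-1 / ((N : ℂ) * (z : ℂ))).im := rfl
  rw [h0, neg_div, Complex.neg_im, one_div, Complex.inv_im, Complex.normSq_mul,
    Complex.normSq_natCast, Complex.mul_im, Complex.natCast_re, Complex.natCast_im, zero_mul,
    add_zero, neg_div, neg_neg, Complex.normSq_eq_norm_sq]
  have h2 : ‖(z : ℂ)‖ ≠ 0 := norm_ne_zero_iff.2 z.ne_zero
  have h3 := FRU_N0 N
  have h4 : (z : ℂ).im = z.im := rfl
  rw [h4]
  field_simp

/-- the invariant density -/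
noncomputable def FRU_h (f : S2 N) (z : ℍ) : ℝ≥0∞ := ‖f z‖ₑ ^ 2 * ENNReal.ofReal (z.im ^ 2)

theorem FRU_h_eq (f : S2 N) (z : ℍ) : FRU_h f z = ENNReal.ofReal (‖f z‖ ^ 2 * z.im ^ 2) := by
  unfold FRU_h
  rw [ENNReal.ofReal_mul (by positivity), ENNReal.ofReal_pow (norm_nonneg _), ofReal_norm]

theorem FRU_cont (f : S2 N) : Continuous f := by
  have := fam_cont f OnePoint.infty
  rwa [fam_inf] at this

theorem FRU_h_meas (f : S2 N) : Measurable (FRU_h f) := by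
  have h1 : FRU_h f = fun z : ℍ => ENNReal.ofReal (‖f z‖ ^ 2 * z.im ^ 2) := by
    funext z
    exact FRU_h_eq f z
  rw [h1]
  have h2 := FRU_cont f
  have h3 : Continuous (fun z : ℍ => ‖f z‖ ^ 2 * z.im ^ 2) :=
    (h2.norm.pow 2).mul (continuous_im.pow 2)
  exact h3.measurable.ennreal_ofReal

theorem FRU_h_inv (f : S2 N) (γ : SL(2, ℤ)) (hγ : γ ∈ CongruenceSubgroup.Gamma0 N) (z : ℍ) :
    FRU_h f (γ • z) = FRU_h f z := by
  have h1 := fam_equi f γ OnePoint.infty z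
  rw [(pa_inf_iff (N := N) γ).2 hγ, fam_inf] at h1
  rw [FRU_h_eq, FRU_h_eq, h1, GL2.RSA_im_smul, norm_mul, norm_pow]
  have h2 : ‖jd γ (z : ℂ)‖ ≠ 0 := norm_ne_zero_iff.2 (GL2.RSA_denom_ne γ z)
  congr 1
  show (‖jd γ (z : ℂ)‖ ^ 2 * ‖f z‖) ^ 2 * (z.im / ‖jd γ (z : ℂ)‖ ^ 2) ^ 2 = ‖f z‖ ^ 2 * z.im ^ 2
  field_simp

theorem FRU_fam (f : S2 N) (q : PX N) (z : ℍ) :
    ‖fam f q z‖ₑ ^ 2 * ENNReal.ofReal (z.im ^ 2) = FRU_h f ((sg q)⁻¹ • z) := by
  have h1 := congrArg norm (pet_fun f f q z)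
  rw [norm_mul, norm_mul, norm_mul, norm_mul, RCLike.norm_conj, RCLike.norm_conj,
    Complex.norm_real, Complex.norm_real, Real.norm_of_nonneg (by positivity),
    Real.norm_of_nonneg (by positivity)] at h1
  have h2 : ‖fam f q z‖ₑ ^ 2 * ENNReal.ofReal (z.im ^ 2) =
      ENNReal.ofReal (‖fam f q z‖ ^ 2 * z.im ^ 2) := by
    rw [ENNReal.ofReal_mul (by positivity), ENNReal.ofReal_pow (norm_nonneg _), ofReal_norm]
  rw [h2, FRU_h_eq, pow_two ‖fam f q z‖, h1, pow_two ‖f ((sg q)⁻¹ • z)‖]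

theorem FRU_en (f : S2 N) {ψ : ℍ → ℝ≥0∞}
    (hψ : ∀ h : ℍ → ℝ≥0∞, Measurable h →
      (∀ γ ∈ CongruenceSubgroup.Gamma0 N, ∀ z, h (γ • z) = h z) →
      ∑ q : PX N, ∫⁻ z in 𝒟ᵒ, h ((sg q)⁻¹ • z) = 2 * ∫⁻ z : ℍ, h z * ψ z) :
    en (fam f) = 2 * ∫⁻ z : ℍ, FRU_h f z * ψ z := by
  rw [← hψ _ (FRU_h_meas f) (FRU_h_inv f)]
  unfold en
  simp_rw [FRU_fam]

theorem FRU_hW {W : S2 N →ₗ[ℂ] S2 N} (hW : IsFricke W) (f : S2 N) (z : ℍ) :
    FRU_h (W f) z = FRU_h f (wz N z) := by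
  rw [FRU_h_eq, FRU_h_eq, hW f z, FRU_wz_im, norm_mul, norm_inv, norm_mul, norm_pow,
    Complex.norm_natCast]
  have h2 : ‖(z : ℂ)‖ ≠ 0 := norm_ne_zero_iff.2 z.ne_zero
  have h3 := FRU_N0 N
  congr 1
  field_simp

/-- the conjugate by the Fricke matrix -/
def FRU_conj (N : ℕ) (a b c d : ℤ) (h : a * d - b * (N * c) = 1) : SL(2, ℤ) :=
  ⟨!![d, -c; N * (-b), a], by rw [Matrix.det_fin_two_of]; linarith⟩

theorem FRU_dvd {γ : SL(2, ℤ)} (h : γ ∈ CongruenceSubgroup.Gamma0 N) : (N : ℤ) ∣ γ 1 0 := by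
  have h1 := CongruenceSubgroup.Gamma0_mem.mp h
  exact (ZMod.intCast_zmod_eq_zero_iff_dvd _ _).mp h1

theorem FRU_div {γ : SL(2, ℤ)} (h : γ ∈ CongruenceSubgroup.Gamma0 N) :
    (N : ℤ) * (γ 1 0 / N) = γ 1 0 := Int.mul_ediv_cancel' (FRU_dvd h)

/-- the involution of the group -/
noncomputable def FRU_inv (N : ℕ) [Fact N.Prime] (γ : CongruenceSubgroup.Gamma0 N) :
    CongruenceSubgroup.Gamma0 N :=
  ⟨FRU_conj N ((γ : SL(2, ℤ)) 0 0) ((γ : SL(2, ℤ)) 0 1) ((γ : SL(2, ℤ)) 1 0 / N)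
    ((γ : SL(2, ℤ)) 1 1) (by
      rw [FRU_div γ.2]
      have := (γ : SL(2, ℤ)).det_coe
      rw [Matrix.det_fin_two] at this
      linarith), by
    rw [CongruenceSubgroup.Gamma0_mem]
    show ((N * (-((γ : SL(2, ℤ)) 0 1)) : ℤ) : ZMod N) = 0
    push_cast
    simp⟩

theorem FRU_inv_inv (γ : CongruenceSubgroup.Gamma0 N) : FRU_inv N (FRU_inv N γ) = γ := by
  apply Subtype.ext
  apply Subtype.ext
  have hN : (N : ℤ) ≠ 0 := by exact_mod_cast (Fact.out : N.Prime).ne_zero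
  ext i j
  fin_cases i <;> fin_cases j
  · show ((γ : SL(2, ℤ)) 0 0 : ℤ) = (γ : SL(2, ℤ)) 0 0
    rfl
  · show -((N * (-((γ : SL(2, ℤ)) 0 1)) : ℤ) / N) = (γ : SL(2, ℤ)) 0 1
    rw [Int.mul_ediv_cancel_left _ hN, neg_neg]
  · show (N : ℤ) * (-(-((γ : SL(2, ℤ)) 1 0 / N))) = (γ : SL(2, ℤ)) 1 0
    rw [neg_neg, FRU_div γ.2]
  · show ((γ : SL(2, ℤ)) 1 1 : ℤ) = (γ : SL(2, ℤ)) 1 1
    rfl

theorem FRU_smul (γ : CongruenceSubgroup.Gamma0 N) (z : ℍ) :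
    wz N ((γ : SL(2, ℤ)) • z) = ((FRU_inv N γ : CongruenceSubgroup.Gamma0 N) : SL(2, ℤ)) • wz N z := by
  apply UpperHalfPlane.ext
  rw [FRU_wz_coe, GL2.RSA_coe_smul, GL2.RSA_coe_smul, FRU_wz_coe]
  have hN := FRU_N0C N
  have hz := z.ne_zero
  have e1 : (((FRU_inv N γ : CongruenceSubgroup.Gamma0 N) : SL(2, ℤ)) 0 0 : ℤ) =
    (γ : SL(2, ℤ)) 1 1 := rfl
  have e2 : (((FRU_inv N γ : CongruenceSubgroup.Gamma0 N) : SL(2, ℤ)) 0 1 : ℤ) =
    -((γ : SL(2, ℤ)) 1 0 / N) := rfl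
  have e3 : (((FRU_inv N γ : CongruenceSubgroup.Gamma0 N) : SL(2, ℤ)) 1 0 : ℤ) =
    N * (-((γ : SL(2, ℤ)) 0 1)) := rfl
  have e4 : (((FRU_inv N γ : CongruenceSubgroup.Gamma0 N) : SL(2, ℤ)) 1 1 : ℤ) =
    (γ : SL(2, ℤ)) 0 0 := rfl
  have e5 : (((γ : SL(2, ℤ)) 1 0 : ℤ) : ℂ) = N * (((γ : SL(2, ℤ)) 1 0 / N : ℤ) : ℂ) := by
    have := congrArg (fun x : ℤ => (x : ℂ)) (FRU_div γ.2)
    push_cast at this
    exact this.symm
  have d1 := GL2.RSA_denom_ne (γ : SL(2, ℤ)) z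
  have d2 := GL2.RSA_denom_ne ((FRU_inv N γ : CongruenceSubgroup.Gamma0 N) : SL(2, ℤ)) (wz N z)
  rw [e3, e4, FRU_wz_coe] at d2
  rw [e1, e2, e3, e4]
  rw [e5] at d1 ⊢
  push_cast at d2 ⊢
  generalize (((γ : SL(2, ℤ)) 1 0 / N : ℤ) : ℂ) = c at *
  generalize (((γ : SL(2, ℤ)) 0 0 : ℤ) : ℂ) = a at *
  generalize (((γ : SL(2, ℤ)) 0 1 : ℤ) : ℂ) = b at *
  generalize (((γ : SL(2, ℤ)) 1 1 : ℤ) : ℂ) = d at *
  have d3 : a * (z : ℂ) + b ≠ 0 := by
    intro h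
    apply d2
    have : (N : ℂ) * -b * (-1 / (N * (z : ℂ))) + a = (a * z + b) / z := by
      field_simp
      ring
    rw [this, h, zero_div]
  have d4 : (N : ℂ) * -b * (-1 / (N * (z : ℂ))) + a = (a * z + b) / z := by
    field_simp
    ring
  have d5 : d * (-1 / (N * (z : ℂ))) + -c = -(N * c * z + d) / (N * z) := by
    field_simp
    ring
  rw [d4, d5]
  field_simp

theorem FRU_main {W : S2 N →ₗ[ℂ] S2 N} (hW : IsFricke W) (f : S2 N) :
    en (fam (W f)) = en (fam f) := by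
  obtain ⟨ψ, hm, _, _, hs, hψ, _⟩ := fun_exists (N := N)
  rw [FRU_en (W f) hψ, FRU_en f hψ]
  congr 1
  simp_rw [FRU_hW hW]
  have hwm : Measurable (fun z : ℍ => wz N z) := (FRU_mp N).measurable
  have hm2 : Measurable (fun z : ℍ => ψ (wz N z)) := hm.comp hwm
  have hs2 : ∀ᵐ z : ℍ, ∑' γ : CongruenceSubgroup.Gamma0 N,
      ψ (wz N ((γ : SL(2, ℤ)) • z)) = 1 := by
    have h1 := (FRU_mp N).quasiMeasurePreserving.ae hs
    filter_upwards [h1] with z hz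
    rw [← hz]
    rw [← (⟨FRU_inv N, FRU_inv N, FRU_inv_inv, FRU_inv_inv⟩ :
      CongruenceSubgroup.Gamma0 N ≃ CongruenceSubgroup.Gamma0 N).tsum_eq]
    apply tsum_congr
    intro γ
    have h2 := FRU_smul (FRU_inv N γ) z
    rw [FRU_inv_inv] at h2
    exact congrArg ψ h2
  have h3 := fun_unique hm2 hm hs2 hs (FRU_h f) (FRU_h_meas f) (FRU_h_inv f)
  rw [← h3]
  have h4 := (FRU_mp N).lintegral_comp (f := fun z => FRU_h f z * ψ (wz N z))
    ((FRU_h_meas f).mul hm2)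
  rw [← h4]
  apply lintegral_congr
  intro z
  rw [FRU_wz_wz]

theorem FRU_nr_zero : nr (0 : S2 N) = 0 := by
  have h := pet_smul (0 : ℂ) (0 : S2 N) (0 : S2 N)
  rw [zero_smul, zero_mul] at h
  unfold nr
  rw [h, Complex.zero_re]

theorem FRU_nr_nonneg (f : S2 N) : 0 ≤ nr f := by
  by_cases hf : f = 0
  · rw [hf, FRU_nr_zero]
  · exact (nr_pos hf).le

theorem fricke_nr_pr {W : S2 N →ₗ[ℂ] S2 N} (hW : IsFricke W) (f : S2 N) : nr (W f) = nr f := by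
  have h := FRU_main hW f
  rw [← nr_en, ← nr_en] at h
  exact (ENNReal.ofReal_eq_ofReal_iff (FRU_nr_nonneg _) (FRU_nr_nonneg _)).1 h

theorem FRU_add_left (f g h : S2 N) : pet (f + g) h = pet f h + pet g h := by
  rw [pet_conj h (f + g), pet_add, map_add, ← pet_conj, ← pet_conj]

theorem FRU_smul_left (c : ℂ) (f g : S2 N) : pet (c • f) g = conj c * pet f g := by
  rw [pet_conj g (c • f), pet_smul, map_mul, ← pet_conj]

theorem fricke_pet_pr {W : S2 N →ₗ[ℂ] S2 N} (hW : IsFricke W) (f g : S2 N) :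
    pet (W f) (W g) = pet f g := by
  have hd : ∀ u : S2 N, pet (W u) (W u) = pet u u := by
    intro u
    rw [pet_self, pet_self, fricke_nr_pr hW]
  have h1 := hd (f + g)
  rw [map_add, FRU_add_left, pet_add, pet_add, FRU_add_left, pet_add, pet_add, hd f, hd g] at h1
  have h2 := hd (f + Complex.I • g)
  rw [map_add, map_smul, FRU_add_left, pet_add, pet_add, FRU_add_left, pet_add, pet_add,
    FRU_smul_left, FRU_smul_left, FRU_smul_left, FRU_smul_left, pet_smul, pet_smul, pet_smul,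
    pet_smul, hd f, hd g, Complex.conj_I] at h2
  have h3 : pet (W f) (W g) + pet (W g) (W f) = pet f g + pet g f := by linear_combination h1
  have h4 : Complex.I * (pet (W f) (W g) - pet (W g) (W f)) =
      Complex.I * (pet f g - pet g f) := by linear_combination h2
  have h5 := mul_left_cancel₀ Complex.I_ne_zero h4
  linear_combination (h3 + h5) / 2

end

theorem fricke_nr : type_of% @fricke_nr_pr := @fricke_nr_pr
theorem fricke_pet : type_of% @fricke_pet_pr := @fricke_pet_pr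

end Pool.Agent.LEV
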