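import Pool.Agent.Lib_helper68.LEV.DefsC
import Pool.Agent.Lib_helper28.REAL.Main
import Pool.Agent.Lib_helper68.LEV.QEX

/-!
# Block HKA of LEV: the Hecke operators `T_p` on cusp forms of weight 2 and prime level
-/

namespace Pool.Agent.LEV

open Complex MeasureTheory Filter Topology UpperHalfPlane ModularGroup
open scoped MatrixGroups Modular ENNReal ModularForm ComplexConjugate ContDiff Manifold
open Pool.Agent.RealCoeff (MM GG rep GG_coe GG_det GG_smul rep_surj rep_inj_aux ee hs_congr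
  ee_mul_nat ee_add sum_ee coe_none coe_some)

/-- the product of an integer matrix of determinant `p` with an element of `SL(2, ℤ)` -/
def HKA_mulR {p : ℕ} (A : MM p) (γ : SL(2, ℤ)) : MM p :=
  ⟨A.1 * γ.1, by rw [Matrix.det_mul, A.2, γ.2, mul_one]⟩

theorem HKA_GG_mulR {p : ℕ} [Fact (0 < p)] (A : MM p) (γ : SL(2, ℤ)) :
    GG (HKA_mulR A γ) = GG A * Matrix.SpecialLinearGroup.mapGL ℝ γ := by
  apply Units.ext
  rw [Units.val_mul, GG_coe, GG_coe]
  ext i j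
  simp [HKA_mulR, Matrix.mul_apply]

theorem HKA_mulR_smul {p : ℕ} (A : MM p) (γ g : SL(2, ℤ)) :
    HKA_mulR (g • A) γ = g • HKA_mulR A γ := by
  apply FixedDetMatrices.ext'
  rw [FixedDetMatrices.smul_coe]
  simp only [HKA_mulR]
  rw [FixedDetMatrices.smul_coe, Matrix.mul_assoc]

theorem HKA_mulR_inj {p : ℕ} {A B : MM p} {γ : SL(2, ℤ)} (h : HKA_mulR A γ = HKA_mulR B γ) :
    A = B := by
  apply FixedDetMatrices.ext'
  have h1 := congrArg Subtype.val h
  simp only [HKA_mulR] at h1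
  have h2 : A.1 * γ.1 * (γ⁻¹).1 = B.1 * γ.1 * (γ⁻¹).1 := by rw [h1]
  rw [Matrix.mul_assoc, Matrix.mul_assoc] at h2
  have h3 : γ.1 * (γ⁻¹).1 = 1 := by
    rw [← Matrix.SpecialLinearGroup.coe_mul, mul_inv_cancel, Matrix.SpecialLinearGroup.coe_one]
  rwa [h3, Matrix.mul_one, Matrix.mul_one] at h2

/-- the permutation of the representatives -/
theorem HKA_perm {p : ℕ} (hp : p.Prime) (γ : SL(2, ℤ)) :
    ∃ e : Option (Fin p) ≃ Option (Fin p),
    ∀ r, ∃ g : SL(2, ℤ), HKA_mulR (rep p r) γ = g • rep p (e r) := by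
  choose φ g hg using fun r => rep_surj hp (HKA_mulR (rep p r) γ)
  have hinj : Function.Injective φ := by
    intro r r' h
    have h1 := hg r
    have h2 := hg r'
    rw [h] at h1
    have h3 : HKA_mulR (rep p r) γ = (g r * (g r')⁻¹) • HKA_mulR (rep p r') γ := by
      rw [← h1, ← h2, mul_smul, inv_smul_smul]
    rw [← HKA_mulR_smul] at h3
    have h4 := HKA_mulR_inj h3
    exact (rep_inj_aux hp r' r _ h4.symm).1.symm
  exact ⟨Equiv.ofBijective φ (Finite.injective_iff_bijective.mp hinj), fun r =>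
    ⟨g r, (hg r).symm⟩⟩

theorem HKA_rep10 {p : ℕ} (r : Option (Fin p)) : (rep p r).1 1 0 = 0 := by
  rcases r with _ | x <;> simp [rep]

theorem HKA_smul10 {p : ℕ} (g : SL(2, ℤ)) (r : Option (Fin p)) :
    (g • rep p r).1 1 0 = g 1 0 * (rep p r).1 0 0 := by
  rw [FixedDetMatrices.smul_coe]
  have : (g.1 * (rep p r).1) 1 0 = g.1 1 0 * (rep p r).1 0 0 + g.1 1 1 * (rep p r).1 1 0 := by
    simp [Matrix.mul_apply]
  rw [this, HKA_rep10, mul_zero, add_zero]

theorem HKA_smul10' {p : ℕ} (g : SL(2, ℤ)) (A : MM p) :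
    (g • A).1 1 0 = g 1 0 * A.1 0 0 + g 1 1 * A.1 1 0 := by
  rw [FixedDetMatrices.smul_coe]
  have : (g.1 * A.1) 1 0 = g.1 1 0 * A.1 0 0 + g.1 1 1 * A.1 1 0 := by
    simp [Matrix.mul_apply]
  rw [this]

theorem HKA_mulR10 {p : ℕ} (γ : SL(2, ℤ)) (r : Option (Fin p)) :
    (HKA_mulR (rep p r) γ).1 1 0 = (rep p r).1 1 1 * γ 1 0 := by
  have : (HKA_mulR (rep p r) γ).1 1 0 =
      (rep p r).1 1 0 * γ.1 0 0 + (rep p r).1 1 1 * γ.1 1 0 := by
    simp [HKA_mulR, Matrix.mul_apply]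
  rw [this, HKA_rep10, zero_mul, zero_add]

theorem HKA_rep00 {p : ℕ} (r : Option (Fin p)) : (rep p r).1 0 0 = 1 ∨ (rep p r).1 0 0 = p := by
  rcases r with _ | x
  · right; simp [rep]
  · left; simp [rep]

theorem HKA_gamma0 {N p : ℕ} (hN : N.Prime) (hp : p.Prime) (hpN : p ≠ N) (g : SL(2, ℤ))
    (r : Option (Fin p)) (h : (N : ℤ) ∣ (g • rep p r).1 1 0) :
    g ∈ CongruenceSubgroup.Gamma0 N := by
  rw [CongruenceSubgroup.Gamma0_mem, ZMod.intCast_zmod_eq_zero_iff_dvd]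
  rw [HKA_smul10] at h
  rcases HKA_rep00 r with h1 | h1
  · rwa [h1, mul_one] at h
  · rw [h1] at h
    have hc : IsCoprime (N : ℤ) (p : ℤ) := by
      rw [Nat.isCoprime_iff_coprime]
      exact (Nat.coprime_primes hN hp).2 (Ne.symm hpN)
    exact hc.dvd_of_dvd_mul_right h

theorem HKA_dvd10 {N : ℕ} {γ : SL(2, ℤ)} (hγ : γ ∈ CongruenceSubgroup.Gamma0 N) :
    (N : ℤ) ∣ γ 1 0 := by
  rwa [CongruenceSubgroup.Gamma0_mem, ZMod.intCast_zmod_eq_zero_iff_dvd] at hγ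

variable {N : ℕ} [hN : Fact N.Prime]

omit hN in
theorem HKA_inv (f : S2 N) {γ : SL(2, ℤ)} (hγ : γ ∈ CongruenceSubgroup.Gamma0 N) :
    (⇑f) ∣[(2 : ℤ)] (Matrix.SpecialLinearGroup.mapGL ℝ γ) = ⇑f :=
  SlashInvariantFormClass.slash_action_eq f _ (Subgroup.mem_map.2 ⟨γ, hγ, rfl⟩)

omit hN in
theorem HKA_slash_rep {p : ℕ} [Fact (0 < p)] (f : S2 N) {g : SL(2, ℤ)}
    (hg : g ∈ CongruenceSubgroup.Gamma0 N) (A : MM p) :
    (⇑f) ∣[(2 : ℤ)] GG (g • A) = (⇑f) ∣[(2 : ℤ)] GG A := by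
  rw [GG_smul, SlashAction.slash_mul, HKA_inv f hg]

/-- the function `T_p f` -/
noncomputable def HKA_fn (p : ℕ) [Fact (0 < p)] (f : S2 N) : ℍ → ℂ :=
  ∑ r : Option (Fin p), (⇑f ∣[(2 : ℤ)] GG (rep p r))

theorem HKA_fn_inv {p : ℕ} [Fact (0 < p)] (hp : p.Prime) (hpN : p ≠ N) (f : S2 N)
    {γ : SL(2, ℤ)} (hγ : γ ∈ CongruenceSubgroup.Gamma0 N) :
    (HKA_fn p f) ∣[(2 : ℤ)] (Matrix.SpecialLinearGroup.mapGL ℝ γ) = HKA_fn p f := by
  obtain ⟨e, he⟩ := HKA_perm hp γ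
  unfold HKA_fn
  rw [SlashAction.sum_slash]
  refine Fintype.sum_equiv e _ _ fun r => ?_
  obtain ⟨g, hg⟩ := he r
  have hg0 : g ∈ CongruenceSubgroup.Gamma0 N := by
    refine HKA_gamma0 hN.out hp hpN g (e r) ?_
    rw [← hg, HKA_mulR10]
    exact (HKA_dvd10 hγ).mul_left _
  rw [← SlashAction.slash_mul, ← HKA_GG_mulR, hg, HKA_slash_rep f hg0]

theorem HKA_GG10 {p : ℕ} [Fact (0 < p)] (r : Option (Fin p)) : (GG (rep p r)) 1 0 = 0 := by
  have : ((GG (rep p r) : GL (Fin 2) ℝ) : Matrix (Fin 2) (Fin 2) ℝ) 1 0 = 0 := by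
    rw [GG_coe]
    rcases r with _ | r <;> simp [rep]
  exact this

theorem HKA_zero_g (f : S2 N) (g : SL(2, ℤ)) :
    IsZeroAtImInfty (⇑f ∣[(2 : ℤ)] (Matrix.SpecialLinearGroup.mapGL ℝ g)) := by
  have hc : IsCusp (Matrix.SpecialLinearGroup.mapGL ℝ g • OnePoint.infty) (G0 N) := by
    rw [Subgroup.IsArithmetic.isCusp_iff_isCusp_SL2Z]
    exact isCusp_SL2Z_iff'.2 ⟨g, rfl⟩
  exact CuspFormClass.zero_at_cusps f hc _ rfl

theorem HKA_cusp {p : ℕ} [Fact (0 < p)] (hp : p.Prime) (f : S2 N) (γ : SL(2, ℤ)) :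
    IsZeroAtImInfty ((HKA_fn p f) ∣[(2 : ℤ)] (Matrix.SpecialLinearGroup.mapGL ℝ γ)) := by
  obtain ⟨e, he⟩ := HKA_perm hp γ
  unfold HKA_fn
  rw [SlashAction.sum_slash]
  unfold IsZeroAtImInfty Filter.ZeroAtFilter
  rw [Finset.sum_fn, show (0 : ℂ) = ∑ r : Option (Fin p), (0 : ℂ) by simp]
  refine tendsto_finsetSum _ fun r _ => ?_
  obtain ⟨g, hg⟩ := he r
  have h1 : (⇑f ∣[(2 : ℤ)] GG (rep p r)) ∣[(2 : ℤ)] (Matrix.SpecialLinearGroup.mapGL ℝ γ) =
      (⇑f ∣[(2 : ℤ)] (Matrix.SpecialLinearGroup.mapGL ℝ g)) ∣[(2 : ℤ)] GG (rep p (e r)) := by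
    rw [← SlashAction.slash_mul, ← HKA_GG_mulR, hg, GG_smul, SlashAction.slash_mul]
  rw [h1]
  exact IsZeroAtImInfty.slash _ (HKA_GG10 (e r)) (HKA_zero_g f g)

omit hN in
theorem HKA_holo {p : ℕ} [Fact (0 < p)] (f : S2 N) : MDiff (HKA_fn p f) :=
  MDifferentiable.sum fun r _ => (CuspFormClass.holo f).slash 2 (GG (rep p r))

/-- `T_p f` as a cusp form -/
noncomputable def HKA_form {p : ℕ} [Fact (0 < p)] (hp : p.Prime) (hpN : p ≠ N) (f : S2 N) :
    S2 N where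
  toFun := HKA_fn p f
  slash_action_eq' γ hγ := by
    obtain ⟨g, hg, rfl⟩ := Subgroup.mem_map.1 hγ
    exact HKA_fn_inv hp hpN f hg
  holo' := HKA_holo f
  zero_at_cusps' {c} hc := by
    rw [Subgroup.IsArithmetic.isCusp_iff_isCusp_SL2Z] at hc
    rw [OnePoint.isZeroAt_iff_forall_SL2Z hc]
    intro γ _
    exact HKA_cusp hp f γ

theorem HKA_form_apply {p : ℕ} [Fact (0 < p)] (hp : p.Prime) (hpN : p ≠ N) (f : S2 N) (z : ℍ) :
    HKA_form hp hpN f z = ∑ r : Option (Fin p), (⇑f ∣[(2 : ℤ)] GG (rep p r)) z := by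
  change HKA_fn p f z = _
  unfold HKA_fn
  rw [Finset.sum_apply]

theorem HKA_hasSum (f : S2 N) (z : ℍ) : HasSum (fun n : ℕ => co f n * ee (n * z)) (f z) := by
  refine hs_congr (fun n => ?_) (qex f z)
  unfold ee
  rw [show (2 * Real.pi * Complex.I * n * (z : ℂ)) = 2 * Real.pi * Complex.I * (n * z) by ring]

section coeffs

variable {p : ℕ} [hp : Fact (0 < p)] (f : S2 N)

omit hN in
theorem HKA_slash_none (z : ℍ) :
    (⇑f ∣[(2 : ℤ)] GG (rep p none)) z = f (GG (rep p none) • z) * (p : ℂ) := by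
  have hp0 : (0 : ℝ) < p := by exact_mod_cast hp.1
  rw [ModularForm.slash_apply, GG_det, abs_of_pos hp0,
    Pool.Agent.RealCoeff.sigma_pos (by rw [GG_det]; exact hp0)]
  have h1 : denom (GG (rep p none)) z = 1 := by
    unfold denom
    rw [GG_coe]
    simp [rep]
  rw [h1]
  simp

omit hN in
theorem HKA_slash_some (b : Fin p) (z : ℍ) :
    (⇑f ∣[(2 : ℤ)] GG (rep p (some b))) z = f (GG (rep p (some b)) • z) * (p : ℂ)⁻¹ := by
  have hp0 : (0 : ℝ) < p := by exact_mod_cast hp.1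
  have hp1 : (p : ℂ) ≠ 0 := by exact_mod_cast hp.1.ne'
  rw [ModularForm.slash_apply, GG_det, abs_of_pos hp0,
    Pool.Agent.RealCoeff.sigma_pos (by rw [GG_det]; exact hp0)]
  have h1 : denom (GG (rep p (some b))) z = p := by
    unfold denom
    rw [GG_coe]
    simp [rep]
  rw [h1, mul_assoc]
  push_cast
  rw [← zpow_add₀ hp1]
  congr 1
  norm_num

theorem HKA_none_hasSum (z : ℍ) :
    HasSum (fun n : ℕ => (if p ∣ n then (p : ℂ) * co f (n / p) else 0)
      * ee (n * z)) ((⇑f ∣[(2 : ℤ)] GG (rep p none)) z) := by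
  have hp1 : (p : ℂ) ≠ 0 := by exact_mod_cast hp.1.ne'
  have hi : Function.Injective (fun m : ℕ => p * m) := fun a b h =>
    Nat.eq_of_mul_eq_mul_left hp.1 h
  rw [← hi.hasSum_iff, HKA_slash_none]
  · have h := (HKA_hasSum f (GG (rep p none) • z)).mul_right (p : ℂ)
    refine hs_congr (fun m => ?_) h
    simp only [Function.comp_apply]
    rw [if_pos (Dvd.intro _ rfl), Nat.mul_div_cancel_left _ hp.1, coe_none]
    push_cast
    rw [show (p : ℂ) * m * z = m * (p * z) by ring]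
    ring
  · intro n hn
    rw [if_neg, zero_mul]
    rintro ⟨m, rfl⟩
    exact hn ⟨m, rfl⟩

theorem HKA_some_hasSum (z : ℍ) :
    HasSum (fun n : ℕ => co f (p * n) * ee (n * z))
      (∑ b : Fin p, (⇑f ∣[(2 : ℤ)] GG (rep p (some b))) z) := by
  have hp1 : (p : ℂ) ≠ 0 := by exact_mod_cast hp.1.ne'
  have h1 : ∀ b : Fin p, HasSum (fun n : ℕ => co f n * ee (n * z / p) *
      (ee ((n : ℂ) * b / p) * (p : ℂ)⁻¹)) ((⇑f ∣[(2 : ℤ)] GG (rep p (some b))) z) := by
    intro b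
    rw [HKA_slash_some]
    have h := (HKA_hasSum f (GG (rep p (some b)) • z)).mul_right ((p : ℂ)⁻¹)
    refine hs_congr (fun n => ?_) h
    rw [coe_some, show (n : ℂ) * ((z + b) / p) = n * z / p + n * b / p by ring, ee_add]
    ring
  have h2 := hasSum_sum (s := Finset.univ) fun b _ => h1 b
  have hi : Function.Injective (fun m : ℕ => p * m) := fun a b h =>
    Nat.eq_of_mul_eq_mul_left hp.1 h
  rw [← hi.hasSum_iff] at h2
  · refine hs_congr (fun m => ?_) h2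
    simp only [Function.comp_apply]
    rw [← Finset.mul_sum, ← Finset.sum_mul, sum_ee hp.1, if_pos (Dvd.intro _ rfl),
      mul_inv_cancel₀ hp1, mul_one]
    congr 2
    push_cast
    field_simp
  · intro n hn
    rw [← Finset.mul_sum, ← Finset.sum_mul, sum_ee hp.1, if_neg]
    · simp
    · rintro ⟨m, rfl⟩
      exact hn ⟨m, rfl⟩

/-- the expansion of the sum over the representatives -/
theorem HKA_sum_hasSum (z : ℍ) :
    HasSum (fun n : ℕ => (co f (p * n) + (if p ∣ n then (p : ℂ) * co f (n / p) else 0)) *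
      ee (n * z)) (∑ r : Option (Fin p), (⇑f ∣[(2 : ℤ)] GG (rep p r)) z) := by
  rw [Fintype.sum_option]
  have h1 := (HKA_none_hasSum f (p := p) z).add (HKA_some_hasSum f (p := p) z)
  refine hs_congr (fun n => ?_) h1
  rw [add_mul, add_comm]

end coeffs

theorem HKA_coeff {p : ℕ} [Fact (0 < p)] (hp : p.Prime) (hpN : p ≠ N) (f : S2 N)
    (n : ℕ) : co (HKA_form hp hpN f) n =
      co f (p * n) + (if p ∣ n then (p : ℂ) * co f (n / p) else 0) := by
  refine co_unique (HKA_form hp hpN f)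
    (fun n => co f (p * n) + (if p ∣ n then (p : ℂ) * co f (n / p) else 0)) (fun z => ?_) n
  rw [HKA_form_apply]
  refine hs_congr (fun m => ?_) (HKA_sum_hasSum (p := p) f z)
  unfold ee
  rw [show (2 * Real.pi * Complex.I * m * (z : ℂ)) = 2 * Real.pi * Complex.I * (m * z) by ring]

theorem hecke_exists_pr {p : ℕ} (hp : p.Prime) (hpN : p ≠ N) :
    ∃ T : S2 N →ₗ[ℂ] S2 N, IsHecke p T := by
  have : Fact (0 < p) := ⟨hp.pos⟩
  refine ⟨{ toFun := HKA_form hp hpN, map_add' := ?_, map_smul' := ?_ }, ?_⟩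
  · intro f g
    ext z
    rw [add_apply, HKA_form_apply, HKA_form_apply, HKA_form_apply,
      ← Finset.sum_add_distrib]
    refine Finset.sum_congr rfl fun r _ => ?_
    rw [FunLike.coe_add, SlashAction.add_slash]
    rfl
  · intro c f
    ext z
    rw [RingHom.id_apply]
    change HKA_form hp hpN (c • f) z = c • (HKA_form hp hpN f z)
    rw [HKA_form_apply, HKA_form_apply, Finset.smul_sum]
    refine Finset.sum_congr rfl fun r _ => ?_
    have hp0 : (0 : ℝ) < p := by exact_mod_cast hp.pos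
    have h1 : (⇑(c • f)) = c • ⇑f := rfl
    rw [h1, ModularForm.smul_slash]
    rw [Pool.Agent.RealCoeff.sigma_pos (by rw [GG_det]; exact hp0)]
    rfl
  · intro f n
    exact HKA_coeff hp hpN f n

theorem hecke_exists : type_of% @hecke_exists_pr := @hecke_exists_pr

end Pool.Agent.LEV
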