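import Pool.Agent.Lib_helper68.LEV.DefsC
import Pool.Agent.Lib_helper28.REAL.R
import Pool.Agent.Lib_helper68.GL2.B7
import Pool.Agent.Lib_helper68.LEV.FAM
import Pool.Agent.Lib_helper68.LEV.FUN
import Pool.Agent.Lib_helper68.LEV.HKA

/-!
# Block HKB of LEV: the Hecke operators are self-adjoint
-/

namespace Pool.Agent.LEV

open Complex MeasureTheory Filter Topology UpperHalfPlane ModularGroup
open scoped MatrixGroups Modular ENNReal ModularForm ComplexConjugate ContDiff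
open Pool.Agent.RealCoeff (MM GG GG_det GG_smul GG_mul_adj GG_adj_smul adjM adjM_adjM scal
  slash_scal sigma_pos P P_meas P_nonneg P_int P_hasSum P_smul_meas GG_smul_smul pet_norm_sq rep
  rep_surj rep_inj_aux hasSum_prod_fin hs_congr vol_fd)
open Pool.Agent.GL2 (RSA_mp)

/-! ### a partition of unity for `Γ₀(N)` -/

section part

variable (N : ℕ) [hN : Fact N.Prime]

/-- the weight -/
noncomputable def HKB_Q (z : ℍ) : ℝ := ∑ q : PX N, P (sg q • z)

theorem HKB_Q_meas : Measurable (HKB_Q N) := by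
  unfold HKB_Q
  exact Finset.measurable_sum _ fun q _ => P_meas.comp (RSA_mp (sg q)).measurable

theorem HKB_Q_nonneg (z : ℍ) : 0 ≤ HKB_Q N z := Finset.sum_nonneg fun _ _ => P_nonneg _

omit hN in
theorem HKB_P_int (g : SL(2, ℤ)) : Integrable (fun z : ℍ => P (g • z)) := by
  have h := (RSA_mp g).integrable_comp_of_integrable (g := P) P_int
  exact h

theorem HKB_Q_int : Integrable (HKB_Q N) := by
  have h : HKB_Q N = fun z : ℍ => ∑ q : PX N, P (sg q • z) := rfl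
  rw [h]
  exact integrable_finsetSum (μ := (volume : Measure ℍ)) Finset.univ
    fun (q : PX N) _ => HKB_P_int (sg q)

theorem HKB_bij : Function.Bijective
    (fun x : PX N × CongruenceSubgroup.Gamma0 N => sg x.1 * (x.2 : SL(2, ℤ))) := by
  have key : ∀ (q : PX N) (γ : SL(2, ℤ)), γ ∈ CongruenceSubgroup.Gamma0 N →
      pa (sg q * γ) (OnePoint.infty : PX N) = q := by
    intro q γ hγ
    rw [pa_mul, (pa_inf_iff γ).2 hγ, pa_sg]
  constructor
  · rintro ⟨q, γ, hγ⟩ ⟨q', γ', hγ'⟩ h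
    simp only at h
    have h1 : q = q' := by rw [← key q γ hγ, ← key q' γ' hγ', h]
    subst h1
    have h2 := mul_left_cancel h
    subst h2
    rfl
  · intro g
    refine ⟨⟨pa g OnePoint.infty, ⟨(sg (pa g (OnePoint.infty : PX N)))⁻¹ * g, ?_⟩⟩, ?_⟩
    · rw [← pa_inf_iff, pa_mul]
      generalize pa g (OnePoint.infty : PX N) = q
      calc pa (sg q)⁻¹ q = pa (sg q)⁻¹ (pa (sg q) OnePoint.infty) := by rw [pa_sg]
        _ = OnePoint.infty := by rw [← pa_mul, inv_mul_cancel, pa_one]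
    · simp only
      rw [mul_inv_cancel_left]

theorem HKB_bij' : Function.Bijective
    (fun x : PX N × CongruenceSubgroup.Gamma0 N => (x.2 : SL(2, ℤ)) * (sg x.1)⁻¹) := by
  have h := HKB_bij N
  constructor
  · rintro ⟨q, γ⟩ ⟨q', γ'⟩ hx
    simp only at hx
    have h1 : sg q * ((γ⁻¹ : CongruenceSubgroup.Gamma0 N) : SL(2, ℤ)) =
        sg q' * ((γ'⁻¹ : CongruenceSubgroup.Gamma0 N) : SL(2, ℤ)) := by
      have h2 := congrArg (fun g => g⁻¹) hx
      simp only [mul_inv_rev, inv_inv] at h2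
      exact h2
    have h3 := h.1 (a₁ := (q, γ⁻¹)) (a₂ := (q', γ'⁻¹)) h1
    rw [Prod.mk.injEq] at h3
    rw [h3.1, inv_injective h3.2]
  · intro g
    obtain ⟨⟨q, γ⟩, hx⟩ := h.2 g⁻¹
    refine ⟨(q, γ⁻¹), ?_⟩
    simp only at hx ⊢
    have h2 := congrArg (fun g => g⁻¹) hx
    simp only [mul_inv_rev, inv_inv] at h2
    exact h2

theorem HKB_Q_hasSum (z : ℍ) :
    HasSum (fun γ : CongruenceSubgroup.Gamma0 N => HKB_Q N ((γ : SL(2, ℤ)) • z)) 1 := by
  let e := Equiv.ofBijective _ (HKB_bij N)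
  have h1 : HasSum ((fun g : SL(2, ℤ) => P (g • z)) ∘ e) 1 := (Equiv.hasSum_iff e).2 (P_hasSum z)
  have h2 := (Equiv.hasSum_iff (Equiv.prodComm (CongruenceSubgroup.Gamma0 N) (PX N))).2 h1
  refine h2.prod_fiberwise fun γ => ?_
  unfold HKB_Q
  have h3 : ∀ q : PX N, P (sg q • (γ : SL(2, ℤ)) • z) =
      (((fun g : SL(2, ℤ) => P (g • z)) ∘ e) ∘
        (Equiv.prodComm (CongruenceSubgroup.Gamma0 N) (PX N))) (γ, q) := by
    intro q
    change _ = P ((sg q * (γ : SL(2, ℤ))) • z)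
    rw [mul_smul]
  simp only [h3]
  exact hasSum_fintype _

end part

section pair

variable {N : ℕ} [hN : Fact N.Prime] {p : ℕ} [hp : Fact (0 < p)] {f g : ℍ → ℂ}

/-- the integrand for a pair of forms -/
noncomputable def HKB_Ph (f g : ℍ → ℂ) (A : MM p) (z : ℍ) : ℂ :=
  petersson 2 f (g ∣[(2 : ℤ)] GG A) z

omit hN in
theorem HKB_Ph_smul (hg : ∀ γ ∈ CongruenceSubgroup.Gamma0 N,
    g ∣[(2 : ℤ)] (Matrix.SpecialLinearGroup.mapGL ℝ γ) = g) {γ : SL(2, ℤ)}
    (hγ : γ ∈ CongruenceSubgroup.Gamma0 N) (A : MM p) :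
    HKB_Ph f g (γ • A) = HKB_Ph f g A := by
  unfold HKB_Ph
  rw [GG_smul, SlashAction.slash_mul, hg γ hγ]

theorem HKB_Ph_adj (A : MM p) (z : ℍ) :
    HKB_Ph f g A (GG (adjM A) • z) = conj (HKB_Ph g f (adjM A) z) := by
  have hp0 : (0 : ℝ) < p := by exact_mod_cast hp.1
  have hp1 : (p : ℂ) ≠ 0 := by exact_mod_cast hp.1.ne'
  have h1 := petersson_slash 2 f (g ∣[(2 : ℤ)] GG A) (GG (adjM A)) z
  rw [GG_det, abs_of_pos hp0, sigma_pos (by rw [GG_det]; exact hp0),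
    ← SlashAction.slash_mul, GG_mul_adj] at h1
  have h2 : petersson 2 (f ∣[(2 : ℤ)] GG (adjM A)) (g ∣[(2 : ℤ)] scal p) z =
      (p : ℂ) ^ ((2 : ℤ) - 2) * petersson 2 (f ∣[(2 : ℤ)] GG (adjM A)) g z := by
    unfold petersson
    rw [slash_scal]; ring
  rw [h2] at h1
  have h3 : petersson 2 (f ∣[(2 : ℤ)] GG (adjM A)) g z =
      petersson 2 f (g ∣[(2 : ℤ)] GG A) (GG (adjM A) • z) := by
    have h4 : (p : ℂ) ^ ((2 : ℤ) - 2) ≠ 0 := zpow_ne_zero _ hp1
    apply mul_left_cancel₀ h4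
    rw [h1]
    push_cast
    rfl
  unfold HKB_Ph
  rw [← h3, petersson_symm]

theorem HKB_Ph_cont (hf : Continuous f) (hg : Continuous g) (A : MM p) :
    Continuous (HKB_Ph f g A) := by
  unfold HKB_Ph
  refine petersson_continuous 2 hf ?_
  rw [ModularForm.slash_def]
  have hp0 : (0 : ℝ) < p := by exact_mod_cast hp.1
  have h1 : ∀ z, σ (GG A) (g (GG A • z)) = g (GG A • z) := fun z =>
    sigma_pos (by rw [GG_det]; exact hp0) _
  simp_rw [h1]
  refine Continuous.mul (Continuous.mul (hg.comp (continuous_const_smul _)) continuous_const) ?_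
  refine Continuous.zpow₀ ?_ _ fun z => Or.inl (denom_ne_zero _ z)
  unfold denom
  fun_prop

theorem HKB_Ph_bdd {C D : ℝ} (hf : ∀ z, ‖petersson 2 f f z‖ ≤ C)
    (hg : ∀ z, ‖petersson 2 g g z‖ ≤ D) (A : MM p) :
    ∃ C', ∀ z, ‖HKB_Ph f g A z‖ ≤ C' := by
  have hp0 : (0 : ℝ) < p := by exact_mod_cast hp.1
  have hC : 0 ≤ C := (norm_nonneg _).trans (hf I)
  have hD : 0 ≤ D := (norm_nonneg _).trans (hg I)
  refine ⟨√(C * ((p : ℝ) ^ ((2 : ℤ) - 2) * D)), fun z => ?_⟩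
  apply Real.le_sqrt_of_sq_le
  unfold HKB_Ph
  rw [pet_norm_sq]
  refine mul_le_mul (hf z) ?_ (norm_nonneg _) hC
  rw [petersson_slash, GG_det, abs_of_pos hp0, norm_mul, norm_σ]
  refine mul_le_mul ?_ (hg _) (norm_nonneg _) (by positivity)
  rw [norm_zpow]
  simp

variable (N) in
/-- the integral attached to a matrix -/
noncomputable def HKB_II (f g : ℍ → ℂ) (A : MM p) : ℂ :=
  ∫ z : ℍ, ((HKB_Q N z * HKB_Q N (GG A • z) : ℝ) : ℂ) * HKB_Ph f g A z

theorem HKB_II_adj (A : MM p) : HKB_II N g f (adjM A) = conj (HKB_II N f g A) := by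
  unfold HKB_II
  rw [← integral_conj]
  rw [← integral_smul_eq_self (μ := (volume : Measure ℍ))
    (fun z => conj (((HKB_Q N z * HKB_Q N (GG A • z) : ℝ) : ℂ) * HKB_Ph f g A z))
    (g := GG (adjM A))]
  refine integral_congr_ae (Eventually.of_forall fun z => ?_)
  simp only
  rw [GG_adj_smul, HKB_Ph_adj, map_mul, Complex.conj_ofReal, Complex.conj_conj]
  push_cast
  ring

theorem HKB_Q_smul_meas (g : GL (Fin 2) ℝ) : Measurable fun z : ℍ => HKB_Q N (g • z) :=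
  (HKB_Q_meas N).comp (continuous_const_smul g).measurable

theorem HKB_II_hasSum (hgs : ∀ γ ∈ CongruenceSubgroup.Gamma0 N,
    g ∣[(2 : ℤ)] (Matrix.SpecialLinearGroup.mapGL ℝ γ) = g) (hfc : Continuous f)
    (hgc : Continuous g) {C D : ℝ} (hf : ∀ z, ‖petersson 2 f f z‖ ≤ C)
    (hg : ∀ z, ‖petersson 2 g g z‖ ≤ D) (A : MM p) :
    HasSum (fun γ : CongruenceSubgroup.Gamma0 N => HKB_II N f g ((γ : SL(2, ℤ)) • A))
      (∫ z : ℍ, ((HKB_Q N z : ℝ) : ℂ) * HKB_Ph f g A z) := by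
  obtain ⟨C', hC'⟩ := HKB_Ph_bdd hf hg A
  have hC0 : 0 ≤ C' := (norm_nonneg _).trans (hC' UpperHalfPlane.I)
  unfold HKB_II
  have hs : ∀ z : ℍ, HasSum (fun γ : CongruenceSubgroup.Gamma0 N =>
      HKB_Q N (GG ((γ : SL(2, ℤ)) • A) • z)) 1 := by
    intro z
    simp_rw [GG_smul_smul]
    exact HKB_Q_hasSum N _
  have hsm : ∀ γ : CongruenceSubgroup.Gamma0 N,
      HKB_Ph f g ((γ : SL(2, ℤ)) • A) = HKB_Ph f g A := fun γ => HKB_Ph_smul hgs γ.2 A
  refine hasSum_integral_of_dominated_convergence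
    (bound := fun γ z => HKB_Q N z * HKB_Q N (GG ((γ : SL(2, ℤ)) • A) • z) * C')
    (fun γ => ?_) (fun γ => ?_) ?_ ?_ ?_
  · refine AEStronglyMeasurable.mul ?_ ?_
    · exact (Complex.measurable_ofReal.comp
        ((HKB_Q_meas N).mul (HKB_Q_smul_meas _))).aestronglyMeasurable
    · rw [hsm]
      exact (HKB_Ph_cont hfc hgc A).aestronglyMeasurable
  · refine Eventually.of_forall fun z => ?_
    rw [norm_mul, Complex.norm_real, Real.norm_of_nonneg
      (mul_nonneg (HKB_Q_nonneg N _) (HKB_Q_nonneg N _)), hsm]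
    exact mul_le_mul_of_nonneg_left (hC' z) (mul_nonneg (HKB_Q_nonneg N _) (HKB_Q_nonneg N _))
  · refine Eventually.of_forall fun z => ?_
    exact (((hs z).mul_left (HKB_Q N z)).mul_right C').summable
  · have h1 : (fun z : ℍ => ∑' γ : CongruenceSubgroup.Gamma0 N,
        HKB_Q N z * HKB_Q N (GG ((γ : SL(2, ℤ)) • A) • z) * C') =
        fun z => HKB_Q N z * C' := by
      funext z
      rw [(((hs z).mul_left (HKB_Q N z)).mul_right C').tsum_eq, mul_one]
    rw [h1]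
    exact (HKB_Q_int N).mul_const C'
  · refine Eventually.of_forall fun z => ?_
    have h2 := ((hs z).mul_left (HKB_Q N z))
    have h3 := (Complex.hasSum_ofReal.mpr h2).mul_right (HKB_Ph f g A z)
    rw [mul_one] at h3
    have h4 : (fun γ : CongruenceSubgroup.Gamma0 N =>
        ((HKB_Q N z * HKB_Q N (GG ((γ : SL(2, ℤ)) • A) • z) : ℝ) : ℂ) *
        HKB_Ph f g ((γ : SL(2, ℤ)) • A) z) =
        fun γ : CongruenceSubgroup.Gamma0 N =>
          ((HKB_Q N z * HKB_Q N (GG ((γ : SL(2, ℤ)) • A) • z) : ℝ) : ℂ) *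
          HKB_Ph f g A z := by
      funext γ
      rw [hsm]
    rw [h4]
    exact h3

variable (N p) in
/-- integer matrices of determinant `p`, upper triangular modulo `N` -/
abbrev HKB_D : Type := {A : MM p // (N : ℤ) ∣ A.1 1 0}

omit hp in
theorem HKB_rep_bij (hpp : p.Prime) (hpN : p ≠ N) : Function.Bijective
    (fun x : Option (Fin p) × CongruenceSubgroup.Gamma0 N =>
      (⟨(x.2 : SL(2, ℤ)) • rep p x.1, by
        rw [HKA_smul10]
        exact (HKA_dvd10 x.2.2).mul_right _⟩ : HKB_D N p)) := by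
  constructor
  · rintro ⟨r, γ⟩ ⟨r', γ'⟩ h
    have h0 := congrArg Subtype.val h
    simp only at h0
    have h1 : ((γ' : SL(2, ℤ))⁻¹ * (γ : SL(2, ℤ))) • rep p r = rep p r' := by
      rw [mul_smul, h0, inv_smul_smul]
    obtain ⟨h2, h3⟩ := rep_inj_aux hpp r r' _ h1
    have h4 : γ = γ' := Subtype.ext (inv_mul_eq_one.mp h3).symm
    rw [h2, h4]
  · rintro ⟨A, hA⟩
    obtain ⟨r, γ, h⟩ := rep_surj hpp A
    have hγ : γ ∈ CongruenceSubgroup.Gamma0 N := by
      refine HKA_gamma0 hN.out hpp hpN γ r ?_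
      rw [h]
      exact hA
    exact ⟨(r, ⟨γ, hγ⟩), Subtype.ext h⟩

theorem HKB_II_total (hpp : p.Prime) (hpN : p ≠ N) (hgs : ∀ γ ∈ CongruenceSubgroup.Gamma0 N,
    g ∣[(2 : ℤ)] (Matrix.SpecialLinearGroup.mapGL ℝ γ) = g) (hfc : Continuous f)
    (hgc : Continuous g) {C D : ℝ} (hf : ∀ z, ‖petersson 2 f f z‖ ≤ C)
    (hg : ∀ z, ‖petersson 2 g g z‖ ≤ D) :
    HasSum (fun A : HKB_D N p => HKB_II N f g A.1)
      (∑ r, ∫ z : ℍ, ((HKB_Q N z : ℝ) : ℂ) * HKB_Ph f g (rep p r) z) := by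
  have h1 := hasSum_prod_fin
    (F := fun x : Option (Fin p) × CongruenceSubgroup.Gamma0 N =>
      HKB_II N f g ((x.2 : SL(2, ℤ)) • rep p x.1))
    (fun r => HKB_II_hasSum hgs hfc hgc hf hg (rep p r))
  let e := Equiv.ofBijective _ (HKB_rep_bij (N := N) hpp hpN)
  have h2 : (fun x : Option (Fin p) × CongruenceSubgroup.Gamma0 N =>
      HKB_II N f g ((x.2 : SL(2, ℤ)) • rep p x.1)) =
    (fun A : HKB_D N p => HKB_II N f g A.1) ∘ e := rfl
  rw [h2] at h1
  exact (Equiv.hasSum_iff e).mp h1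

omit hp hN in
theorem HKB_adj10 (A : MM p) : (adjM A).1 1 0 = -A.1 1 0 := by
  simp [adjM, Matrix.adjugate_fin_two]

theorem HKB_total (hpp : p.Prime) (hpN : p ≠ N) (hfs : ∀ γ ∈ CongruenceSubgroup.Gamma0 N,
    f ∣[(2 : ℤ)] (Matrix.SpecialLinearGroup.mapGL ℝ γ) = f)
    (hgs : ∀ γ ∈ CongruenceSubgroup.Gamma0 N,
    g ∣[(2 : ℤ)] (Matrix.SpecialLinearGroup.mapGL ℝ γ) = g) (hfc : Continuous f)
    (hgc : Continuous g) {C D : ℝ} (hf : ∀ z, ‖petersson 2 f f z‖ ≤ C)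
    (hg : ∀ z, ‖petersson 2 g g z‖ ≤ D) :
    conj (∑ r, ∫ z : ℍ, ((HKB_Q N z : ℝ) : ℂ) * HKB_Ph f g (rep p r) z) =
      ∑ r, ∫ z : ℍ, ((HKB_Q N z : ℝ) : ℂ) * HKB_Ph g f (rep p r) z := by
  have h1 := HKB_II_total hpp hpN hfs hgc hfc hg hf
  have h2 : HasSum (fun A : HKB_D N p => conj (HKB_II N f g A.1))
      (conj (∑ r, ∫ z : ℍ, ((HKB_Q N z : ℝ) : ℂ) * HKB_Ph f g (rep p r) z)) := by
    exact ((HKB_II_total hpp hpN hgs hfc hgc hf hg).map (starRingEnd ℂ) Complex.continuous_conj)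
  let e : HKB_D N p ≃ HKB_D N p :=
    ⟨fun A => ⟨adjM A.1, by rw [HKB_adj10]; exact (dvd_neg).2 A.2⟩,
      fun A => ⟨adjM A.1, by rw [HKB_adj10]; exact (dvd_neg).2 A.2⟩,
      fun A => Subtype.ext (adjM_adjM A.1), fun A => Subtype.ext (adjM_adjM A.1)⟩
  have h3 : (fun A : HKB_D N p => conj (HKB_II N f g A.1)) =
      (fun A : HKB_D N p => HKB_II N g f A.1) ∘ e := by
    funext A
    exact (HKB_II_adj A.1).symm
  rw [h3] at h2
  exact ((Equiv.hasSum_iff e).mp h2).unique h1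

end pair

section forms

variable {N : ℕ} [hN : Fact N.Prime]

/-- the sum over the representatives is the Hecke operator -/
theorem HKB_hecke {p : ℕ} [hp : Fact (0 < p)] {T : S2 N →ₗ[ℂ] S2 N} (hT : IsHecke p T)
    (f : S2 N) (z : ℍ) :
    ∑ r : Option (Fin p), (⇑f ∣[(2 : ℤ)] GG (rep p r)) z = T f z := by
  refine (HKA_sum_hasSum (p := p) f z).unique ?_
  refine hs_congr (fun n => ?_) (HKA_hasSum (T f) z)
  rw [hT f n]

omit hN in
theorem HKB_cont (f : S2 N) : Continuous (⇑f) := (CuspFormClass.holo f).continuous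

theorem HKB_pairbdd (f g : S2 N) : ∃ C, ∀ z, ‖petersson 2 f g z‖ ≤ C :=
  CuspFormClass.petersson_bounded_left 2 (G0 N) f g

omit hN in
theorem HKB_pairinv (f g : S2 N) {γ : SL(2, ℤ)} (hγ : γ ∈ CongruenceSubgroup.Gamma0 N) (z : ℍ) :
    petersson 2 f g (γ • z) = petersson 2 f g z := by
  have h := SlashInvariantFormClass.petersson_smul (k := 2) (Γ := G0 N) (f := f) (f' := g)
    (g := Matrix.SpecialLinearGroup.mapGL ℝ γ) (τ := z) (Subgroup.mem_map.2 ⟨γ, hγ, rfl⟩)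
  exact h

theorem HKB_sum {p : ℕ} [hp : Fact (0 < p)] {T : S2 N →ₗ[ℂ] S2 N} (hT : IsHecke p T)
    (f g : S2 N) :
    ∑ r, ∫ z : ℍ, ((HKB_Q N z : ℝ) : ℂ) * HKB_Ph f g (rep p r) z =
      ∫ z : ℍ, ((HKB_Q N z : ℝ) : ℂ) * petersson 2 f (T g) z := by
  obtain ⟨C, hC⟩ := HKB_pairbdd f f
  obtain ⟨D, hD⟩ := HKB_pairbdd g g
  rw [← integral_finsetSum]
  · refine integral_congr_ae (Eventually.of_forall fun z => ?_)
    simp only
    rw [← Finset.mul_sum]
    congr 1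
    unfold HKB_Ph petersson
    rw [← Finset.sum_mul, ← Finset.mul_sum, HKB_hecke hT g z]
  · intro r _
    obtain ⟨C', hC'⟩ := HKB_Ph_bdd hC hD (rep p r)
    exact ((HKB_Q_int N).ofReal).mul_bdd (c := C')
      (HKB_Ph_cont (HKB_cont f) (HKB_cont g) _).aestronglyMeasurable
      (Eventually.of_forall hC')

/-- the inner product as an integral against the partition of unity -/
theorem HKB_pet (f g : S2 N) :
    pet f g = 2 * ∫ z : ℍ, ((HKB_Q N z : ℝ) : ℂ) * petersson 2 f g z := by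
  obtain ⟨C, hC⟩ := HKB_pairbdd f g
  have hcont : Continuous (petersson 2 f g) :=
    petersson_continuous 2 (HKB_cont f) (HKB_cont g)
  have hsm : StronglyMeasurable fun z : ℍ => ((HKB_Q N z : ℝ) : ℂ) * petersson 2 f g z := by
    exact ((Complex.measurable_ofReal.comp (HKB_Q_meas N)).mul
      hcont.measurable).stronglyMeasurable
  have hint : Integrable fun z : ℍ => ((HKB_Q N z : ℝ) : ℂ) * petersson 2 f g z :=
    ((HKB_Q_int N).ofReal).mul_bdd (c := C) hcont.aestronglyMeasurable (Eventually.of_forall hC)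
  rw [← GL2.b7_unfold _ hsm hint]
  have hfin : (volume : Measure ℍ) (𝒟ᵒ : Set ℍ) < ⊤ :=
    lt_of_le_of_lt (measure_mono fdo_subset_fd) vol_fd
  have hcq : ∀ q : PX N, Continuous fun z : ℍ => petersson 2 f g ((sg q)⁻¹ • z) := fun q =>
    hcont.comp (continuous_const_smul (Matrix.SpecialLinearGroup.mapGL ℝ (sg q)⁻¹))
  have hcp : ∀ q : PX N, IntegrableOn (fun z : ℍ => petersson 2 f g ((sg q)⁻¹ • z)) 𝒟ᵒ := by
    intro q
    refine Integrable.mono' (g := fun _ => C) ?_ (hcq q).aestronglyMeasurable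
      (Eventually.of_forall fun z => hC _)
    exact integrableOn_const hfin.ne
  have h1 : pet f g = ∫ z in 𝒟ᵒ, ∑ q : PX N, petersson 2 f g ((sg q)⁻¹ • z) := by
    rw [integral_finsetSum _ fun q _ => hcp q]
    unfold pet
    refine Finset.sum_congr rfl fun q _ => ?_
    refine integral_congr_ae (Eventually.of_forall fun z => ?_)
    simp only
    rw [pet_fun]
    unfold petersson
    push_cast
    rfl
  rw [h1]
  refine integral_congr_ae (Eventually.of_forall fun z => ?_)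
  simp only
  symm
  let e := Equiv.ofBijective _ (HKB_bij' N)
  classical
  have h2 : HasSum ((fun γ : SL(2, ℤ) => ((HKB_Q N (γ • z) : ℝ) : ℂ) *
      petersson 2 f g (γ • z)) ∘ e) (∑ q : PX N, petersson 2 f g ((sg q)⁻¹ • z)) := by
    refine hasSum_prod_fin (R := PX N) fun q => ?_
    have h3 := (Complex.hasSum_ofReal.mpr (HKB_Q_hasSum N ((sg q)⁻¹ • z))).mul_right
      (petersson 2 f g ((sg q)⁻¹ • z))
    rw [Complex.ofReal_one, one_mul] at h3
    have h4 : (fun γ : CongruenceSubgroup.Gamma0 N => ((fun γ : SL(2, ℤ) =>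
        ((HKB_Q N (γ • z) : ℝ) : ℂ) * petersson 2 f g (γ • z)) ∘ e) (q, γ)) =
        fun γ : CongruenceSubgroup.Gamma0 N =>
          ((HKB_Q N ((γ : SL(2, ℤ)) • (sg q)⁻¹ • z) : ℝ) : ℂ) *
          petersson 2 f g ((sg q)⁻¹ • z) := by
      funext γ
      have h5 : ((fun γ : SL(2, ℤ) => ((HKB_Q N (γ • z) : ℝ) : ℂ) *
          petersson 2 f g (γ • z)) ∘ e) (q, γ) =
          ((HKB_Q N (((γ : SL(2, ℤ)) * (sg q)⁻¹) • z) : ℝ) : ℂ) *
          petersson 2 f g (((γ : SL(2, ℤ)) * (sg q)⁻¹) • z) := rfl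
      rw [h5, mul_smul, HKB_pairinv f g γ.2]
    rw [h4]
    exact h3
  exact ((Equiv.hasSum_iff e).mp h2).tsum_eq

theorem hecke_adj_pr {p : ℕ} (hp : p.Prime) (hpN : p ≠ N) {T : S2 N →ₗ[ℂ] S2 N}
    (hT : IsHecke p T) (f g : S2 N) : pet (T f) g = pet f (T g) := by
  have : Fact (0 < p) := ⟨hp.pos⟩
  obtain ⟨C, hC⟩ := HKB_pairbdd f f
  obtain ⟨D, hD⟩ := HKB_pairbdd g g
  have h1 := HKB_total (N := N) (p := p) (f := ⇑g) (g := ⇑f) hp hpN (fun γ hγ => HKA_inv g hγ)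
    (fun γ hγ => HKA_inv f hγ) (HKB_cont g) (HKB_cont f) hD hC
  rw [HKB_sum hT g f, HKB_sum hT f g, ← integral_conj] at h1
  rw [HKB_pet, HKB_pet, ← h1]
  congr 1
  refine integral_congr_ae (Eventually.of_forall fun z => ?_)
  simp only
  rw [map_mul, Complex.conj_ofReal, petersson_symm]

end forms

theorem hecke_adj : type_of% @hecke_adj_pr := @hecke_adj_pr

end Pool.Agent.LEV
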