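import Pool.Agent.Lib_helper68.LEV.DefsC
import Pool.Agent.Lib_helper68.LEV.FAM
import Pool.Agent.Lib_helper68.LEV.FRK
import Pool.Agent.Lib_helper68.LEV.QEX

namespace Pool.Agent.LEV

open Complex MeasureTheory Filter Topology UpperHalfPlane ModularGroup
open scoped MatrixGroups Modular ENNReal ModularForm ComplexConjugate ContDiff

section
variable {N : ℕ} [Fact N.Prime]

theorem TRC_level_one (F : CuspForm 𝒮ℒ 2) : F = 0 := by
  have h : Module.rank ℂ (CuspForm 𝒮ℒ 2) = 0 :=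
    CuspForm.rank_eq_zero_of_weight_lt_twelve (by norm_num)
  have := rank_zero_iff.mp h
  exact Subsingleton.elim _ _

omit [Fact N.Prime] in
theorem TRC_mem_G0 (g : SL(2, ℤ)) :
    (Matrix.SpecialLinearGroup.mapGL ℝ g : GL (Fin 2) ℝ) ∈ G0 N ↔
      g ∈ CongruenceSubgroup.Gamma0 N := by
  constructor
  · intro h
    obtain ⟨γ, hγ, h1⟩ := Subgroup.mem_map.mp h
    have h2 : γ = g := Matrix.SpecialLinearGroup.mapGL_injective h1
    rwa [← h2]
  · intro h
    exact Subgroup.mem_map.mpr ⟨g, h, rfl⟩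

/-- the class of `sg q` in the quotient -/
noncomputable def TRC_cl (q : PX N) : 𝒮ℒ ⧸ ((G0 N).subgroupOf 𝒮ℒ) :=
  QuotientGroup.mk (⟨Matrix.SpecialLinearGroup.mapGL ℝ (sg q), ⟨sg q, rfl⟩⟩ : 𝒮ℒ)

theorem TRC_cl_bij : Function.Bijective (TRC_cl (N := N)) := by
  constructor
  · intro q q' h
    rw [TRC_cl, TRC_cl, QuotientGroup.eq, Subgroup.mem_subgroupOf] at h
    have h1 : (Matrix.SpecialLinearGroup.mapGL ℝ ((sg q)⁻¹ * sg q') : GL (Fin 2) ℝ) ∈ G0 N := by
      rw [map_mul, map_inv]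
      exact h
    rw [TRC_mem_G0, ← pa_inf_iff, pa_mul, pa_sg] at h1
    have h2 := congrArg (pa (sg q)) h1
    rw [← pa_mul, mul_inv_cancel, pa_one, pa_sg] at h2
    exact h2.symm
  · intro x
    induction x using QuotientGroup.induction_on with
    | H x =>
      obtain ⟨g, hg⟩ := x.2
      refine ⟨pa g OnePoint.infty, ?_⟩
      rw [TRC_cl, QuotientGroup.eq, Subgroup.mem_subgroupOf]
      have h1 : (Matrix.SpecialLinearGroup.mapGL ℝ ((sg (pa g OnePoint.infty : PX N))⁻¹ * g) :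
          GL (Fin 2) ℝ) ∈ G0 N := by
        rw [TRC_mem_G0, ← pa_inf_iff, pa_mul]
        generalize (pa g OnePoint.infty : PX N) = Q
        have h3 : pa (sg Q) (OnePoint.infty : PX N) = Q := pa_sg _
        have h4 : pa (sg Q)⁻¹ (pa (sg Q) (OnePoint.infty : PX N)) = OnePoint.infty := by
          rw [← pa_mul, inv_mul_cancel, pa_one]
        rwa [h3] at h4
      rw [map_mul, map_inv, hg] at h1
      exact h1

theorem TRC_sum (f : S2 N) (z : ℍ) : ∑ q : PX N, fam f q z = 0 := by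
  have h := TRC_level_one (CuspForm.trace 𝒮ℒ f)
  have h1 := congrArg (fun F : CuspForm 𝒮ℒ 2 => (F : ℍ → ℂ) z) h
  simp only [CuspForm.coe_trace] at h1
  have h2 : ∀ q : PX N, fam f q z = SlashInvariantForm.quotientFunc f (TRC_cl q) z := by
    intro q
    rw [TRC_cl]
    change _ = SlashInvariantForm.quotientFunc f ⟦_⟧ z
    rw [SlashInvariantForm.quotientFunc_mk]
    change ((f : ℍ → ℂ) ∣[(2 : ℤ)] (sg q)⁻¹) z = _
    rw [ModularForm.SL_slash]
    exact congrArg (fun M : GL (Fin 2) ℝ => ((f : ℍ → ℂ) ∣[(2 : ℤ)] M) z)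
      (map_inv (Matrix.SpecialLinearGroup.mapGL ℝ) (sg q))
  rw [Finset.sum_congr rfl (fun q _ => h2 q)]
  rw [Finset.sum_apply] at h1
  let := Fintype.ofFinite (𝒮ℒ ⧸ ((G0 N).subgroupOf 𝒮ℒ))
  rw [Fintype.sum_bijective (TRC_cl (N := N)) TRC_cl_bij _
    (fun x => SlashInvariantForm.quotientFunc f x z) (fun q => rfl)]
  exact h1

theorem TRC_char (n : ℕ) : ∑ j : ZMod N, (N : ℂ)⁻¹ * cexp (-(2 * Real.pi * Complex.I * n * (j.val : ℂ) / N)) =
    if N ∣ n then 1 else 0 := by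
  have hN0 : (N : ℂ) ≠ 0 := by exact_mod_cast (Fact.out : N.Prime).ne_zero
  have h1 : ∀ j : ZMod N, cexp (-(2 * Real.pi * Complex.I * n * (j.val : ℂ) / N)) =
      ZMod.stdAddChar (j * (-(n : ZMod N))) := by
    intro j
    have h2 : j * (-(n : ZMod N)) = ((-((n : ℤ) * (j.val : ℤ)) : ℤ) : ZMod N) := by
      push_cast
      rw [ZMod.natCast_zmod_val]
      ring
    rw [h2, ZMod.stdAddChar_coe]
    congr 1
    push_cast
    ring
  rw [← Finset.mul_sum, Finset.sum_congr rfl (fun j _ => h1 j),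
    AddChar.sum_mulShift _ (ZMod.isPrimitive_stdAddChar N), ZMod.card]
  have h3 : (-(n : ZMod N) = 0) ↔ N ∣ n := by
    rw [neg_eq_zero, ZMod.natCast_eq_zero_iff]
  by_cases h : N ∣ n
  · rw [if_pos (h3.mpr h), if_pos h, inv_mul_cancel₀ hN0]
  · rw [if_neg (fun h' => h (h3.mp h')), if_neg h]
    simp

theorem TRC_eq {W : S2 N →ₗ[ℂ] S2 N} (hW : IsFricke W) (f : S2 N) (z : ℍ) :
    f z = -∑ j : ZMod N, (N : ℂ)⁻¹ * W f (zsc N j.val z) := by
  have h := TRC_sum f z
  have h1 : ∑ q : PX N, fam f q z = fam f (OnePoint.infty : PX N) z + ∑ j : ZMod N, fam f (some j) z :=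
    Fintype.sum_option _
  rw [h1, fam_inf] at h
  rw [eq_neg_iff_add_eq_zero, ← h]
  congr 1
  exact Finset.sum_congr rfl fun j _ => (fricke_fam hW f j z).symm

theorem TRC_coeff {W : S2 N →ₗ[ℂ] S2 N} (hW : IsFricke W) (f : S2 N) (n : ℕ) :
    co f n = -co (W f) (N * n) := by
  have hN0 : (N : ℂ) ≠ 0 := by exact_mod_cast (Fact.out : N.Prime).ne_zero
  refine co_unique f (fun m => -co (W f) (N * m)) ?_ n
  intro z
  have h1 : ∀ j : ZMod N, HasSum (fun n : ℕ => co (W f) n *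
      cexp (2 * Real.pi * Complex.I * n * ((zsc N j.val z : ℍ) : ℂ))) (W f (zsc N j.val z)) :=
    fun j => qex (W f) _
  have h2 := hasSum_sum (fun (j : ZMod N) (_ : j ∈ Finset.univ) => (h1 j).mul_left ((N : ℂ)⁻¹))
  have h3 : ∀ n : ℕ, ∑ j : ZMod N, (N : ℂ)⁻¹ * (co (W f) n *
      cexp (2 * Real.pi * Complex.I * n * ((zsc N j.val z : ℍ) : ℂ))) =
      if N ∣ n then co (W f) n * cexp (2 * Real.pi * Complex.I * n * ((z : ℂ) / N)) else 0 := by
    intro n
    have h4 : ∀ j : ZMod N, (N : ℂ)⁻¹ * (co (W f) n *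
      cexp (2 * Real.pi * Complex.I * n * ((zsc N j.val z : ℍ) : ℂ))) =
      (co (W f) n * cexp (2 * Real.pi * Complex.I * n * ((z : ℂ) / N))) *
        ((N : ℂ)⁻¹ * cexp (-(2 * Real.pi * Complex.I * n * (j.val : ℂ) / N))) := by
      intro j
      have h5 : ((zsc N j.val z : ℍ) : ℂ) = ((z : ℂ) - ((j.val : ℝ) : ℂ)) / (N : ℂ) := rfl
      have h6 : cexp (2 * Real.pi * Complex.I * n * ((zsc N j.val z : ℍ) : ℂ)) =
        cexp (2 * Real.pi * Complex.I * n * ((z : ℂ) / N)) *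
          cexp (-(2 * Real.pi * Complex.I * n * (j.val : ℂ) / N)) := by
        rw [← Complex.exp_add, h5]
        congr 1
        push_cast
        field_simp
        ring
      rw [h6]
      ring
    rw [Finset.sum_congr rfl (fun j _ => h4 j), ← Finset.mul_sum, TRC_char]
    split_ifs <;> simp
  rw [funext h3] at h2
  have hinj : Function.Injective (fun m : ℕ => N * m) :=
    fun a b h => Nat.eq_of_mul_eq_mul_left (Fact.out : N.Prime).pos h
  have h7 := (hinj.hasSum_iff (f := fun n : ℕ => if N ∣ n then co (W f) n *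
    cexp (2 * Real.pi * Complex.I * n * ((z : ℂ) / N)) else 0)
    (a := ∑ j : ZMod N, (N : ℂ)⁻¹ * W f (zsc N j.val z)) (by
      intro x hx
      rw [if_neg]
      rintro ⟨m, rfl⟩
      exact hx ⟨m, rfl⟩)).mpr h2
  have h8 := h7.neg
  rw [← TRC_eq hW f z] at h8
  refine h8.congr_fun ?_
  intro m
  simp only [Function.comp_apply]
  rw [if_pos (dvd_mul_right N m), neg_mul]
  congr 3
  push_cast
  field_simp

theorem fricke_coeff_pr {W : S2 N →ₗ[ℂ] S2 N} (hW : IsFricke W) (f : S2 N) (n : ℕ) :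
    co (W f) n = -co f (N * n) := by
  rw [TRC_coeff hW (W f) n, fricke_sq hW f]

end

theorem fricke_coeff : type_of% @fricke_coeff_pr := @fricke_coeff_pr

end Pool.Agent.LEV
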