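import Pool.Agent.Lib_helper68.LEV.DefsC
import Pool.Agent.Lib_helper68.LEV.FRK
import Pool.Agent.Lib_helper68.LEV.FRU
import Pool.Agent.Lib_helper68.LEV.HKA
import Pool.Agent.Lib_helper68.LEV.HKB
import Pool.Agent.Lib_helper68.LEV.PET
import Pool.Agent.Lib_helper68.LEV.QEX
import Pool.Agent.Lib_helper68.LEV.TRC

/-! Block EIA (MP_cc4f83_nt): newforms of prime level are eigenvectors of the Hecke and Fricke
operators; reality and orthogonality. -/

namespace Pool.Agent.LEV

open Complex MeasureTheory Filter Topology UpperHalfPlane ModularGroup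
open scoped MatrixGroups Modular ENNReal ModularForm ComplexConjugate ContDiff

section
variable {N : ℕ} [Fact N.Prime]

theorem EIA_co_congr {f g : S2 N} (h : f = g) (n : ℕ) : co f n = co g n := by rw [h]

/-- a newform is an eigenvector of the Hecke operators -/
theorem EIA_hecke_eig {f : S2 N} (hf : IsNew f) {p : ℕ} (hp : p.Prime) (hpN : p ≠ N) (n : ℕ) :
    co f (p * n) + (if p ∣ n then (p : ℂ) * co f (n / p) else 0) = co f p * co f n := by
  rcases Nat.eq_zero_or_pos n with rfl | hn
  · simp [co_zero]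
  obtain ⟨r, m, hm, rfl⟩ := Nat.exists_eq_pow_mul_and_not_dvd hn.ne' p hp.ne_one
  have hc : ∀ j : ℕ, (p ^ j).Coprime m := fun j =>
    Nat.Coprime.pow_left j ((Nat.Prime.coprime_iff_not_dvd hp).2 hm)
  have hmul : ∀ j : ℕ, co f (p ^ j * m) = co f (p ^ j) * co f m := fun j =>
    hf.mul _ _ (hc j)
  rcases Nat.eq_zero_or_pos r with rfl | hr
  · rw [pow_zero, one_mul, if_neg hm, add_zero]
    have := hmul 1
    rwa [pow_one] at this
  · obtain ⟨s, rfl⟩ : ∃ s, r = s + 1 := ⟨r - 1, by omega⟩
    have h1 : p * (p ^ (s + 1) * m) = p ^ (s + 2) * m := by ring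
    have h2 : p ^ (s + 1) * m / p = p ^ s * m := by
      rw [show p ^ (s + 1) * m = p * (p ^ s * m) by ring]
      exact Nat.mul_div_cancel_left _ hp.pos
    have h3 : p ∣ p ^ (s + 1) * m := Dvd.intro (p ^ s * m) (by ring)
    rw [if_pos h3, h1, h2, hmul, hmul, hmul]
    have h4 := hf.hecke p s hp hpN
    rw [h4]
    ring

theorem EIA_level_eig {f : S2 N} (hf : IsNew f) (n : ℕ) :
    co f (N * n) = co f N * co f n := by
  have hp : N.Prime := Fact.out
  rcases Nat.eq_zero_or_pos n with rfl | hn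
  · simp [co_zero]
  obtain ⟨r, m, hm, rfl⟩ := Nat.exists_eq_pow_mul_and_not_dvd hn.ne' N hp.ne_one
  have hc : ∀ j : ℕ, (N ^ j).Coprime m := fun j =>
    Nat.Coprime.pow_left j ((Nat.Prime.coprime_iff_not_dvd hp).2 hm)
  have hmul : ∀ j : ℕ, co f (N ^ j * m) = co f (N ^ j) * co f m := fun j =>
    hf.mul _ _ (hc j)
  rw [show N * (N ^ r * m) = N ^ (r + 1) * m by ring, hmul, hmul, hf.level r]
  rcases Nat.eq_zero_or_pos r with rfl | hr
  · rw [pow_zero, zero_add, pow_one, hf.one, one_mul]
  · obtain ⟨s, rfl⟩ : ∃ s, r = s + 1 := ⟨r - 1, by omega⟩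
    rw [hf.level s]
    ring

theorem new_hecke_pr {f : S2 N} (hf : IsNew f) {p : ℕ} (hp : p.Prime) (hpN : p ≠ N)
    {T : S2 N →ₗ[ℂ] S2 N} (hT : IsHecke p T) : T f = co f p • f := by
  refine co_ext fun n => ?_
  rw [hT, co_smul, EIA_hecke_eig hf hp hpN]

theorem new_ne_zero_pr {f : S2 N} (hf : IsNew f) : f ≠ 0 := by
  rintro rfl
  have h : co (0 : S2 N) 1 = 1 := hf.one
  have h2 := co_smul (0 : ℂ) (0 : S2 N) 1
  rw [zero_smul, zero_mul, h] at h2
  exact one_ne_zero h2

theorem new_fricke_pr {f : S2 N} (hf : IsNew f) {W : S2 N →ₗ[ℂ] S2 N} (hW : IsFricke W) :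
    W f = (-co f N) • f ∧ (co f N = 1 ∨ co f N = -1) := by
  have h1 : W f = (-co f N) • f := by
    refine co_ext fun n => ?_
    rw [fricke_coeff hW, co_smul, EIA_level_eig hf]
    ring
  refine ⟨h1, ?_⟩
  have h2 : W (W f) = f := fricke_sq hW f
  rw [h1, map_smul, h1, smul_smul] at h2
  have h3 := EIA_co_congr h2 1
  rw [co_smul, hf.one] at h3
  have h4 : (co f N - 1) * (co f N + 1) = 0 := by linear_combination h3
  rcases mul_eq_zero.1 h4 with h | h
  · left
    linear_combination h
  · right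
    linear_combination h

theorem EIA_pet_smul_left (c : ℂ) (f g : S2 N) : pet (c • f) g = conj c * pet f g := by
  rw [pet_conj g (c • f), pet_smul, map_mul, ← pet_conj g f]

/-- adjointness in terms of eigenvalues -/
theorem EIA_key {u v : S2 N} (hu : IsNew u) (hv : IsNew v) {p : ℕ} (hp : p.Prime) (hpN : p ≠ N) :
    conj (co u p) * pet u v = co v p * pet u v := by
  obtain ⟨T, hT⟩ := hecke_exists (N := N) hp hpN
  have h1 := hecke_adj hp hpN hT u v
  rw [new_hecke_pr hu hp hpN hT, new_hecke_pr hv hp hpN hT, EIA_pet_smul_left, pet_smul] at h1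
  exact h1

theorem EIA_pet_self_ne {f : S2 N} (hf : IsNew f) : pet f f ≠ 0 := by
  rw [pet_self]
  have := nr_pos (new_ne_zero_pr hf)
  exact_mod_cast this.ne'

theorem EIA_real_p {f : S2 N} (hf : IsNew f) {p : ℕ} (hp : p.Prime) :
    conj (co f p) = co f p := by
  by_cases hpN : p = N
  · subst hpN
    obtain ⟨W, hW⟩ := fricke_exists (N := p)
    rcases (new_fricke_pr hf hW).2 with h | h
    · rw [h, map_one]
    · rw [h, map_neg, map_one]
  · exact mul_right_cancel₀ (EIA_pet_self_ne hf) (EIA_key hf hf hp hpN)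

theorem EIA_real {f : S2 N} (hf : IsNew f) (n : ℕ) : conj (co f n) = co f n := by
  have hpow : ∀ p : ℕ, p.Prime → ∀ r : ℕ, conj (co f (p ^ r)) = co f (p ^ r) ∧
      conj (co f (p ^ (r + 1))) = co f (p ^ (r + 1)) := by
    intro p hp r
    by_cases hpN : p = N
    · subst hpN
      have hl : ∀ s : ℕ, conj (co f (p ^ (s + 1))) = co f (p ^ (s + 1)) := by
        intro s
        rw [hf.level s, map_pow, EIA_real_p hf hp]
      refine ⟨?_, hl r⟩
      rcases Nat.eq_zero_or_pos r with rfl | hr
      · rw [pow_zero, hf.one, map_one]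
      · obtain ⟨s, rfl⟩ : ∃ s, r = s + 1 := ⟨r - 1, by omega⟩
        exact hl s
    · induction r with
      | zero =>
        constructor
        · rw [pow_zero, hf.one, map_one]
        · rw [zero_add, pow_one]; exact EIA_real_p hf hp
      | succ r ih =>
        refine ⟨ih.2, ?_⟩
        rw [show r + 1 + 1 = r + 2 by ring, hf.hecke p r hp hpN, map_sub, map_mul, map_mul,
          ih.1, ih.2, EIA_real_p hf hp, map_natCast]
  induction n using Nat.recOnPosPrimePosCoprime with
  | zero => rw [co_zero, map_zero]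
  | one => rw [hf.one, map_one]
  | prime_pow p r hp _ => exact (hpow p hp r).1
  | coprime a b _ _ hab iha ihb => rw [hf.mul a b hab, map_mul, iha, ihb]

theorem new_real_pr {f : S2 N} (hf : IsNew f) (n : ℕ) : (co f n).im = 0 :=
  Complex.conj_eq_iff_im.1 (EIA_real hf n)

/-- two newforms with the same eigenvalues at the primes are equal -/
theorem EIA_mult_one {f g : S2 N} (hf : IsNew f) (hg : IsNew g)
    (h : ∀ p : ℕ, p.Prime → co f p = co g p) : f = g := by
  refine co_ext fun n => ?_
  have hpow : ∀ p : ℕ, p.Prime → ∀ r : ℕ, co f (p ^ r) = co g (p ^ r) ∧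
      co f (p ^ (r + 1)) = co g (p ^ (r + 1)) := by
    intro p hp r
    by_cases hpN : p = N
    · subst hpN
      have hl : ∀ s : ℕ, co f (p ^ (s + 1)) = co g (p ^ (s + 1)) := by
        intro s
        rw [hf.level s, hg.level s, h p hp]
      refine ⟨?_, hl r⟩
      rcases Nat.eq_zero_or_pos r with rfl | hr
      · rw [pow_zero, hf.one, hg.one]
      · obtain ⟨s, rfl⟩ : ∃ s, r = s + 1 := ⟨r - 1, by omega⟩
        exact hl s
    · induction r with
      | zero =>
        constructor
        · rw [pow_zero]; exact hf.one.trans hg.one.symm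
        · rw [zero_add, pow_one]; exact h p hp
      | succ r ih =>
        refine ⟨ih.2, ?_⟩
        rw [show r + 1 + 1 = r + 2 by ring, hf.hecke p r hp hpN, hg.hecke p r hp hpN, ih.1, ih.2,
          h p hp]
  induction n using Nat.recOnPosPrimePosCoprime with
  | zero => rw [co_zero, co_zero]
  | one => exact hf.one.trans hg.one.symm
  | prime_pow p r hp _ => exact (hpow p hp r).1
  | coprime a b _ _ hab iha ihb => rw [hf.mul a b hab, hg.mul a b hab, iha, ihb]

theorem new_orth_pr {f g : S2 N} (hf : IsNew f) (hg : IsNew g) (h : f ≠ g) : pet f g = 0 := by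
  obtain ⟨p, hp, hne⟩ : ∃ p : ℕ, p.Prime ∧ co f p ≠ co g p := by
    by_contra hcon
    push Not at hcon
    exact h (EIA_mult_one hf hg hcon)
  by_cases hpN : p = N
  · subst hpN
    obtain ⟨W, hW⟩ := fricke_exists (N := p)
    have h1 := fricke_pet hW f g
    rw [(new_fricke_pr hf hW).1, (new_fricke_pr hg hW).1, EIA_pet_smul_left, pet_smul, map_neg,
      EIA_real_p hf hp] at h1
    rcases (new_fricke_pr hf hW).2 with h2 | h2 <;> rcases (new_fricke_pr hg hW).2 with h3 | h3
    · exact absurd (h2.trans h3.symm) hne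
    · rw [h2, h3] at h1
      linear_combination (-1 / 2 : ℂ) * h1
    · rw [h2, h3] at h1
      linear_combination (-1 / 2 : ℂ) * h1
    · exact absurd (h2.trans h3.symm) hne
  · have h1 := EIA_key hf hg hp hpN
    rw [EIA_real_p hf hp] at h1
    by_contra h0
    exact hne (mul_right_cancel₀ h0 h1)

end

theorem new_hecke : type_of% @new_hecke_pr := @new_hecke_pr
theorem new_fricke : type_of% @new_fricke_pr := @new_fricke_pr
theorem new_ne_zero : type_of% @new_ne_zero_pr := @new_ne_zero_pr
theorem new_real : type_of% @new_real_pr := @new_real_pr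
theorem new_orth : type_of% @new_orth_pr := @new_orth_pr

end Pool.Agent.LEV
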