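import Pool.Agent.Lib_helper68.LEV.DefsG

/-! Block HPO (helper80): polynomials in the Hecke eigenvalues. -/

namespace Pool.Agent.LEV

/-- block HPO -/
theorem hpoly_add_pr {I : Finset ℕ} {X : ℕ} {G H : (ℕ → ℝ) → ℝ} (hG : HPoly I X G)
    (hH : HPoly I X H) : HPoly I X (fun x => G x + H x) := by
  obtain ⟨c, hc, hG⟩ := hG
  obtain ⟨d, hd, hH⟩ := hH
  refine ⟨fun m => c m + d m, fun m hm => ?_, fun x => ?_⟩
  · by_cases h : c m = 0
    · apply hd m
      intro h2
      apply hm
      beta_reduce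
      rw [h, h2, add_zero]
    · exact hc m h
  · beta_reduce
    rw [hG, hH, ← Finset.sum_add_distrib]
    exact Finset.sum_congr rfl fun m _ => by ring

theorem hpoly_smul_pr {I : Finset ℕ} {X : ℕ} {G : (ℕ → ℝ) → ℝ} (hG : HPoly I X G) (a : ℝ) :
    HPoly I X (fun x => a * G x) := by
  obtain ⟨c, hc, hG⟩ := hG
  refine ⟨fun m => a * c m, fun m hm => hc m (right_ne_zero_of_mul hm), fun x => ?_⟩
  beta_reduce
  rw [hG, Finset.mul_sum]
  exact Finset.sum_congr rfl fun m _ => by ring

theorem hpoly_mono_pr {I : Finset ℕ} {X X' : ℕ} (h : X ≤ X') {G : (ℕ → ℝ) → ℝ}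
    (hG : HPoly I X G) : HPoly I X' G := by
  obtain ⟨c, hc, hG⟩ := hG
  refine ⟨c, fun m hm => ⟨(hc m hm).1, (hc m hm).2.1.trans h, (hc m hm).2.2⟩, fun x => ?_⟩
  rw [hG]
  refine Finset.sum_subset (Finset.Icc_subset_Icc_right h) fun m _ hm2 => ?_
  have : c m = 0 := by
    by_contra hcon
    exact hm2 (Finset.mem_Icc.2 ⟨(hc m hcon).1, (hc m hcon).2.1⟩)
  rw [this, zero_mul]

theorem HPO_single {I : Finset ℕ} {X m : ℕ} (h1 : 1 ≤ m) (h2 : m ≤ X) (h3 : m.primeFactors ⊆ I) :
    HPoly I X (Um m) := by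
  refine ⟨fun k => if k = m then 1 else 0, fun k hk => ?_, fun x => ?_⟩
  · have : k = m := by
      by_contra hcon
      exact hk (if_neg hcon)
    rw [this]
    exact ⟨h1, h2, h3⟩
  · simp_rw [ite_mul, one_mul, zero_mul]
    rw [Finset.sum_ite_eq' (Finset.Icc 1 X) m, if_pos (Finset.mem_Icc.2 ⟨h1, h2⟩)]

theorem HPO_zero (I : Finset ℕ) (X : ℕ) : HPoly I X (fun _ => 0) :=
  ⟨fun _ => 0, fun m hm => absurd rfl hm, fun x => by simp⟩

theorem HPO_sum {I : Finset ℕ} {X : ℕ} {J : Type} [DecidableEq J] (s : Finset J)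
    (G : J → (ℕ → ℝ) → ℝ) (h : ∀ j ∈ s, HPoly I X (G j)) :
    HPoly I X (fun x => ∑ j ∈ s, G j x) := by
  induction s using Finset.induction_on with
  | empty => simpa using HPO_zero I X
  | insert a s ha ih =>
    have h1 := hpoly_add_pr (h a (Finset.mem_insert_self _ _))
      (ih fun j hj => h j (Finset.mem_insert_of_mem hj))
    obtain ⟨c, hc, h2⟩ := h1
    exact ⟨c, hc, fun x => by beta_reduce; rw [Finset.sum_insert ha]; exact h2 x⟩

theorem HPO_um_eq (m : ℕ) (x : ℕ → ℝ) : Um m x = m.factorization.prod fun p k => Uu (x p) k := rfl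

theorem HPO_um_mul {m n : ℕ} (h : m.Coprime n) (x : ℕ → ℝ) : Um (m * n) x = Um m x * Um n x := by
  rw [HPO_um_eq, HPO_um_eq, HPO_um_eq, Nat.factorization_mul_of_coprime h]
  exact Finsupp.prod_add_index_of_disjoint h.disjoint_primeFactors _

theorem HPO_um_pow {p : ℕ} (hp : p.Prime) (k : ℕ) (x : ℕ → ℝ) : Um (p ^ k) x = Uu (x p) k := by
  rw [HPO_um_eq, hp.factorization_pow, Finsupp.prod_single_index rfl]

theorem HPO_um_one (x : ℕ → ℝ) : Um 1 x = 1 := by
  rw [HPO_um_eq]
  simp

/-- the three term relation -/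
theorem HPO_rec {p : ℕ} (hp : p.Prime) {m : ℕ} (hm : 0 < m) (x : ℕ → ℝ) :
    x p * Um m x = Um (p * m) x + if p ∣ m then Um (m / p) x else 0 := by
  obtain ⟨k, n, hn, rfl⟩ : ∃ k n : ℕ, ¬ p ∣ n ∧ m = p ^ k * n := by
    obtain ⟨k, n, h1, h2⟩ := Nat.exists_eq_pow_mul_and_not_dvd hm.ne' p hp.ne_one
    exact ⟨k, n, h1, h2⟩
  have hcop : ∀ j : ℕ, (p ^ j).Coprime n := fun j =>
    Nat.Coprime.pow_left j ((Nat.Prime.coprime_iff_not_dvd hp).2 hn)
  have e1 : p * (p ^ k * n) = p ^ (k + 1) * n := by ring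
  rw [e1, HPO_um_mul (hcop k), HPO_um_mul (hcop (k + 1)), HPO_um_pow hp, HPO_um_pow hp]
  rcases k with _ | k
  · rw [if_neg (by simpa using hn)]
    change x p * (1 * Um n x) = x p * Um n x + 0
    ring
  · have e2 : p ^ (k + 1) * n / p = p ^ k * n := by
      rw [pow_succ, mul_assoc, mul_comm p n, ← mul_assoc, Nat.mul_div_cancel _ hp.pos]
    rw [if_pos (Dvd.dvd.mul_right (dvd_pow_self p (Nat.succ_ne_zero k)) n), e2,
      HPO_um_mul (hcop k), HPO_um_pow hp]
    change x p * (Uu (x p) (k + 1) * Um n x) =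
      (x p * Uu (x p) (k + 1) - Uu (x p) k) * Um n x + Uu (x p) k * Um n x
    ring

theorem hpoly_pow_pr {I : Finset ℕ} (hI : ∀ p ∈ I, p.Prime) {Z : ℕ} (hZ : ∀ p ∈ I, p ≤ Z)
    (b : ℕ → ℝ) (k : ℕ) : HPoly I (Z ^ k) (fun x => (∑ p ∈ I, b p * x p) ^ k) := by
  induction k with
  | zero =>
    obtain ⟨c, hc, h⟩ := HPO_single (I := I) (X := Z ^ 0) (m := 1) le_rfl (by simp) (by simp)
    refine ⟨c, hc, fun x => ?_⟩
    beta_reduce
    rw [← h x, HPO_um_one, pow_zero]
  | succ k ih =>
    obtain ⟨c, hc, h⟩ := ih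
    have h1 : HPoly I (Z ^ (k + 1)) (fun x => ∑ p ∈ I, ∑ m ∈ Finset.Icc 1 (Z ^ k),
        (b p * c m) * (x p * Um m x)) := by
      refine HPO_sum _ _ fun p hp => HPO_sum _ _ fun m hm => ?_
      by_cases hcm : c m = 0
      · have e : (fun x : ℕ → ℝ => (b p * c m) * (x p * Um m x)) = fun _ => 0 := by
          funext x
          rw [hcm]
          ring
        rw [e]
        exact HPO_zero _ _
      · obtain ⟨hm1, hm2, hm3⟩ := hc m hcm
        have hpp := hI p hp
        have e : (fun x : ℕ → ℝ => x p * Um m x) =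
            fun x => Um (p * m) x + if p ∣ m then Um (m / p) x else 0 := by
          funext x
          exact HPO_rec hpp hm1 x
        have h2 : HPoly I (Z ^ (k + 1)) (fun x => x p * Um m x) := by
          rw [e]
          refine hpoly_add_pr (HPO_single (Nat.mul_pos hpp.pos hm1) ?_ ?_) ?_
          · rw [pow_succ, mul_comm p m]
            exact Nat.mul_le_mul hm2 (hZ p hp)
          · rw [Nat.primeFactors_mul hpp.ne_zero (by omega), hpp.primeFactors]
            exact Finset.union_subset (Finset.singleton_subset_iff.2 hp) hm3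
          · by_cases hd : p ∣ m
            · simp only [if_pos hd]
              have h5 : m / p ∣ m := Nat.div_dvd_of_dvd hd
              refine HPO_single (Nat.div_pos (Nat.le_of_dvd hm1 hd) hpp.pos) ?_ ?_
              · refine (Nat.le_of_dvd hm1 h5).trans (hm2.trans ?_)
                rw [pow_succ]
                exact Nat.le_mul_of_pos_right _ (hpp.pos.trans_le (hZ p hp))
              · exact (Nat.primeFactors_mono h5 (by omega)).trans hm3
            · simp only [if_neg hd]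
              exact HPO_zero _ _
        exact hpoly_smul_pr h2 _
    obtain ⟨d, hd, h2⟩ := h1
    refine ⟨d, hd, fun x => ?_⟩
    have h3 := h x
    beta_reduce at h3
    rw [← h2 x]
    beta_reduce
    rw [pow_succ, h3, mul_comm, Finset.sum_mul]
    refine Finset.sum_congr rfl fun p _ => ?_
    rw [Finset.mul_sum]
    exact Finset.sum_congr rfl fun m _ => by ring

theorem HPO_la_one {N : ℕ} {f : S2 N} (hf : IsNew f) : la f 1 = 1 := by
  rw [la, hf.one]
  simp

theorem HPO_la_mul {N : ℕ} {f : S2 N} (hf : IsNew f) (hr : ∀ n, (co f n).im = 0) {m n : ℕ}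
    (h : m.Coprime n) : la f (m * n) = la f m * la f n := by
  rw [la, la, la, hf.mul m n h, Complex.mul_re, hr m, zero_mul, sub_zero]
  push_cast
  rw [Real.sqrt_mul (Nat.cast_nonneg m)]
  rw [div_mul_div_comm]

theorem HPO_la_pow {N : ℕ} {f : S2 N} (hf : IsNew f) (hr : ∀ n, (co f n).im = 0) {p : ℕ}
    (hp : p.Prime) (hpN : p ≠ N) (r : ℕ) : la f (p ^ r) = Uu (la f p) r := by
  have key : ∀ r : ℕ, la f (p ^ r) = Uu (la f p) r ∧ la f (p ^ (r + 1)) = Uu (la f p) (r + 1) := by
    intro r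
    induction r with
    | zero =>
      refine ⟨?_, ?_⟩
      · rw [pow_zero, HPO_la_one hf]
        rfl
      · rw [zero_add, pow_one]
        rfl
    | succ r ih =>
      refine ⟨ih.2, ?_⟩
      have h1 : Uu (la f p) (r + 1 + 1) = la f p * Uu (la f p) (r + 1) - Uu (la f p) r := rfl
      rw [h1, ← ih.1, ← ih.2]
      have h2 := hf.hecke p r hp hpN
      have h3 : (co f (p ^ (r + 2))).re =
          (co f p).re * (co f (p ^ (r + 1))).re - p * (co f (p ^ r)).re := by
        rw [h2, Complex.sub_re, Complex.mul_re, Complex.mul_re, hr p, hr (p ^ r)]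
        simp
      have hp0 : (0 : ℝ) < p := by exact_mod_cast hp.pos
      have hs : 0 < Real.sqrt p := Real.sqrt_pos.2 hp0
      have hsq : Real.sqrt p ^ 2 = p := Real.sq_sqrt hp0.le
      have hpow : ∀ j : ℕ, Real.sqrt (((p ^ j : ℕ)) : ℝ) = Real.sqrt p ^ j := by
        intro j
        push_cast
        rw [Real.sqrt_eq_iff_mul_self_eq (by positivity) (by positivity), ← pow_add, ← two_mul,
          pow_mul, hsq]
      rw [la, la, la, la, hpow, hpow, hpow, h3]
      rw [show r + 1 + 1 = r + 2 by ring]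
      field_simp
      rw [pow_succ (Real.sqrt p) (r + 1), pow_succ (Real.sqrt p) r]
      have h5 : (p : ℝ) * (co f (p ^ r)).re = Real.sqrt p ^ 2 * (co f (p ^ r)).re := by rw [hsq]
      rw [h5]
      ring
  exact (key r).1

theorem um_new_pr {N : ℕ} {f : S2 N} (hf : IsNew f) (hr : ∀ n, (co f n).im = 0) {m : ℕ} (hm : 0 < m)
    (hmN : m.Coprime N) : Um m (la f) = la f m := by
  induction m using Nat.recOnPosPrimePosCoprime with
  | prime_pow p n hp hn =>
    have hpN : p ≠ N := by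
      rintro rfl
      have h1 : (p ^ n).Coprime p := hmN
      have h2 : p.Coprime p := (Nat.coprime_pow_left_iff hn p p).1 h1
      rw [Nat.coprime_self] at h2
      exact hp.ne_one h2
    rw [HPO_um_pow hp, HPO_la_pow hf hr hp hpN]
  | zero => omega
  | one => rw [HPO_um_one, HPO_la_one hf]
  | coprime a b ha hb hab iha ihb =>
    rw [HPO_um_mul hab, HPO_la_mul hf hr hab,
      iha (by omega) (Nat.Coprime.coprime_mul_right hmN), ihb (by omega)
        (Nat.Coprime.coprime_mul_left hmN)]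

theorem hpoly_add : type_of% @hpoly_add_pr := @hpoly_add_pr
theorem hpoly_smul : type_of% @hpoly_smul_pr := @hpoly_smul_pr
theorem hpoly_mono : type_of% @hpoly_mono_pr := @hpoly_mono_pr
theorem hpoly_pow : type_of% @hpoly_pow_pr := @hpoly_pow_pr
theorem um_new : type_of% @um_new_pr := @um_new_pr

end Pool.Agent.LEV
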