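import Pool.Agent.Lib_helper68.LEV.DefsC
import Pool.Agent.Lib_helper68.LEV.FAM

/-!
# Block CNT: counting the images of a point in a strip
-/

namespace Pool.Agent.LEV

open Complex MeasureTheory Filter Topology UpperHalfPlane ModularGroup
open scoped MatrixGroups Modular ENNReal ModularForm ComplexConjugate ContDiff

/-- the argument modulo `π`, in `[0, π)` -/
noncomputable def CNT_psi (l : ℂ) : ℝ := toIcoMod Real.pi_pos 0 (Complex.arg l)

theorem CNT_psi_mem (l : ℂ) : 0 ≤ CNT_psi l ∧ CNT_psi l < Real.pi := by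
  have h := toIcoMod_mem_Ico' Real.pi_pos (Complex.arg l)
  exact ⟨h.1, h.2⟩

theorem CNT_psi_eq (l : ℂ) : ∃ k : ℤ, Complex.arg l = CNT_psi l + k * Real.pi := by
  refine ⟨toIcoDiv Real.pi_pos 0 (Complex.arg l), ?_⟩
  have h := toIcoMod_add_toIcoDiv_zsmul Real.pi_pos 0 (Complex.arg l)
  rw [zsmul_eq_mul] at h
  exact h.symm

theorem CNT_abs_sin (x : ℝ) (k : ℤ) : |Real.sin (x + k * Real.pi)| = |Real.sin x| := by
  rw [Real.sin_add_int_mul_pi, abs_mul, abs_zpow, abs_neg, abs_one, one_zpow, one_mul]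

/-- the area of two vectors -/
theorem CNT_area (l m : ℂ) :
    |l.im * m.re - l.re * m.im| = ‖l‖ * ‖m‖ * |Real.sin (CNT_psi l - CNT_psi m)| := by
  have h1 := Complex.norm_mul_sin_arg l
  have h2 := Complex.norm_mul_cos_arg l
  have h3 := Complex.norm_mul_sin_arg m
  have h4 := Complex.norm_mul_cos_arg m
  have h5 : l.im * m.re - l.re * m.im =
      ‖l‖ * ‖m‖ * Real.sin (Complex.arg l - Complex.arg m) := by
    rw [← h1, ← h2, ← h3, ← h4, Real.sin_sub]; ring
  obtain ⟨k, hk⟩ := CNT_psi_eq l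
  obtain ⟨k', hk'⟩ := CNT_psi_eq m
  have h6 : Complex.arg l - Complex.arg m =
      (CNT_psi l - CNT_psi m) + ((k - k' : ℤ) : ℝ) * Real.pi := by
    rw [hk, hk']; push_cast; ring
  rw [h5, abs_mul, abs_of_nonneg (by positivity), h6, CNT_abs_sin]

/-- the sign of a row -/
def CNT_sgn (c d : ℤ) : Bool := decide (0 < c ∨ (c = 0 ∧ 0 < d))

theorem CNT_row {c d c' d' : ℤ} (h : IsCoprime c d) (h' : IsCoprime c' d')
    (he : c * d' = c' * d) (hs : CNT_sgn c d = CNT_sgn c' d') : c' = c ∧ d' = d := by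
  obtain ⟨u, v, huv⟩ := h
  have e1 : c' = (u * c' + v * d') * c := by
    have : (u * c' + v * d') * c = u * c' * c + v * (c * d') := by ring
    rw [this, he]
    have : u * c' * c + v * (c' * d) = c' * (u * c + v * d) := by ring
    rw [this, huv, mul_one]
  have e2 : d' = (u * c' + v * d') * d := by
    have : (u * c' + v * d') * d = u * (c' * d) + v * d' * d := by ring
    rw [this, ← he]
    have : u * (c * d') + v * d' * d = d' * (u * c + v * d) := by ring
    rw [this, huv, mul_one]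
  have hk : IsUnit (u * c' + v * d') :=
    h'.isUnit_of_dvd' ⟨c, e1⟩ ⟨d, e2⟩
  rcases Int.isUnit_iff.1 hk with hk | hk
  · rw [hk, one_mul] at e1 e2
    exact ⟨e1, e2⟩
  · exfalso
    rw [hk] at e1 e2
    rw [e1, e2, CNT_sgn, CNT_sgn, decide_eq_decide] at hs
    by_cases hc : c = 0
    · by_cases hd : d = 0
      · rw [hc, hd] at huv; omega
      · omega
    · omega

section
variable {N : ℕ} [Fact N.Prime]

theorem CNT_gamma {g g' : SL(2, ℤ)} {q : PX N} (h : pa g⁻¹ (OnePoint.infty : PX N) = q)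
    (h' : pa g'⁻¹ (OnePoint.infty : PX N) = q) :
    (N : ℤ) ∣ g 1 0 * g' 1 1 - g' 1 0 * g 1 1 := by
  have h1 : pa (g' * g⁻¹) (OnePoint.infty : PX N) = OnePoint.infty := by
    rw [pa_mul, h, ← h', ← pa_mul, mul_inv_cancel, pa_one]
  rw [pa_inf_iff, CongruenceSubgroup.Gamma0_mem] at h1
  have h2 : (g' * g⁻¹ : SL(2, ℤ)) 1 0 = g' 1 0 * g 1 1 - g' 1 1 * g 1 0 := by
    rw [Matrix.SpecialLinearGroup.coe_mul, Matrix.SpecialLinearGroup.SL2_inv_expl]
    simp [Matrix.mul_apply, Fin.sum_univ_two]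
    ring
  rw [h2] at h1
  have h3 := (ZMod.intCast_zmod_eq_zero_iff_dvd _ N).1 h1
  have h4 : g 1 0 * g' 1 1 - g' 1 0 * g 1 1 = -(g' 1 0 * g 1 1 - g' 1 1 * g 1 0) := by ring
  rw [h4]
  exact (dvd_neg).2 h3

theorem CNT_same {g g' : SL(2, ℤ)} {z : ℍ} (hr : g' 1 0 = g 1 0 ∧ g' 1 1 = g 1 1)
    (h1 : 0 ≤ (g • z).re) (h2 : (g • z).re < 1) (h3 : 0 ≤ (g' • z).re) (h4 : (g' • z).re < 1) :
    g' = g := by
  set h : SL(2, ℤ) := g' * g⁻¹ with hh
  have hdet := g.det_coe
  rw [Matrix.det_fin_two] at hdet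
  have hdet' := g'.det_coe
  rw [Matrix.det_fin_two, hr.1, hr.2] at hdet'
  have e10 : h 1 0 = 0 := by
    rw [hh, Matrix.SpecialLinearGroup.coe_mul, Matrix.SpecialLinearGroup.SL2_inv_expl]
    simp [Matrix.mul_apply, Fin.sum_univ_two]
    rw [hr.1, hr.2]; ring
  have e11 : h 1 1 = 1 := by
    rw [hh, Matrix.SpecialLinearGroup.coe_mul, Matrix.SpecialLinearGroup.SL2_inv_expl]
    simp [Matrix.mul_apply, Fin.sum_univ_two]
    rw [hr.1, hr.2]; linarith
  have e00 : h 0 0 = 1 := by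
    rw [hh, Matrix.SpecialLinearGroup.coe_mul, Matrix.SpecialLinearGroup.SL2_inv_expl]
    simp [Matrix.mul_apply, Fin.sum_univ_two]
    linarith
  have hg : g' = h * g := by rw [hh]; group
  have hz : ((h • (g • z) : ℍ) : ℂ) = (g • z : ℍ) + ((h 0 1 : ℤ) : ℂ) := by
    rw [Pool.Agent.GL2.RSA_coe_smul, e10, e11, e00]
    simp
  have hre : (g' • z).re = (g • z).re + (h 0 1 : ℤ) := by
    rw [hg, mul_smul]
    have := congrArg Complex.re hz
    simpa using this
  have e01 : h 0 1 = 0 := by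
    have a1 : ((h 0 1 : ℤ) : ℝ) < 1 := by linarith
    have a2 : (-1 : ℝ) < ((h 0 1 : ℤ) : ℝ) := by linarith
    have a3 : h 0 1 < 1 := by exact_mod_cast a1
    have a4 : -1 < h 0 1 := by exact_mod_cast a2
    omega
  have hone : h = 1 := by
    ext i j
    fin_cases i <;> fin_cases j
    · simpa using e00
    · simpa using e01
    · simpa using e10
    · simpa using e11
  rw [hg, hone, one_mul]

theorem count_strip_pr (z : ℍ) {R : ℝ} (hR : 0 < R) (q : PX N) :
    {g : SL(2, ℤ) | pa g⁻¹ (OnePoint.infty : PX N) = q ∧ 0 ≤ (g • z).re ∧ (g • z).re < 1 ∧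
      1 / R ≤ (g • z).im}.Finite ∧
    ({g : SL(2, ℤ) | pa g⁻¹ (OnePoint.infty : PX N) = q ∧ 0 ≤ (g • z).re ∧ (g • z).re < 1 ∧
      1 / R ≤ (g • z).im}.ncard : ℝ) ≤ 2 * (1 + 4 * R / N) := by
  have hN : (0 : ℝ) < N := by exact_mod_cast (Fact.out : N.Prime).pos
  set A : Set SL(2, ℤ) := {g : SL(2, ℤ) | pa g⁻¹ (OnePoint.infty : PX N) = q ∧ 0 ≤ (g • z).re ∧
    (g • z).re < 1 ∧ 1 / R ≤ (g • z).im} with hA
  set lam : SL(2, ℤ) → ℂ := fun g => ((g 1 0 : ℤ) : ℂ) * z + ((g 1 1 : ℤ) : ℂ) with hlam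
  set δ : ℝ := N / R with hδ
  have hδ0 : 0 < δ := div_pos hN hR
  set Φ : SL(2, ℤ) → ℕ × Bool := fun g => (⌊CNT_psi (lam g) / δ⌋₊, CNT_sgn (g 1 0) (g 1 1)) with hΦ
  set M : ℕ := ⌊Real.pi / δ⌋₊ with hM
  have hzim := z.im_pos
  have hnorm : ∀ g ∈ A, ‖lam g‖ ^ 2 ≤ R * z.im := by
    intro g hg
    have h1 := hg.2.2.2
    rw [Pool.Agent.GL2.RSA_im_smul] at h1
    have h2 : lam g ≠ 0 := Pool.Agent.GL2.RSA_denom_ne g z
    have h3 : 0 < ‖lam g‖ ^ 2 := by
      have := norm_pos_iff.2 h2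
      positivity
    rw [div_le_div_iff₀ hR h3, one_mul] at h1
    linarith
  have hmaps : Set.MapsTo Φ A
      ((Finset.range (M + 1) ×ˢ (Finset.univ : Finset Bool) : Finset (ℕ × Bool)) : Set (ℕ × Bool)) := by
    intro g _
    simp only [hΦ, Finset.coe_product, Finset.coe_range, Finset.coe_univ, Set.mem_prod, Set.mem_Iio,
      Set.mem_univ, and_true]
    have h1 : ⌊CNT_psi (lam g) / δ⌋₊ ≤ M := by
      refine Nat.floor_le_floor ?_
      exact div_le_div_of_nonneg_right (CNT_psi_mem _).2.le hδ0.le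
    omega
  have hinj : Set.InjOn Φ A := by
    intro g hg g' hg' he
    simp only [hΦ, Prod.mk.injEq] at he
    obtain ⟨he1, he2⟩ := he
    -- the two arguments are close
    have hclose : |CNT_psi (lam g) - CNT_psi (lam g')| < δ := by
      have p1 := (CNT_psi_mem (lam g)).1
      have p2 := (CNT_psi_mem (lam g')).1
      have h1 := Nat.floor_le (div_nonneg p1 hδ0.le)
      have h2 := Nat.lt_floor_add_one (CNT_psi (lam g) / δ)
      have h3 := Nat.floor_le (div_nonneg p2 hδ0.le)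
      have h4 := Nat.lt_floor_add_one (CNT_psi (lam g') / δ)
      rw [he1] at h1 h2
      have h5 : |CNT_psi (lam g) / δ - CNT_psi (lam g') / δ| < 1 := by
        rw [abs_lt]; constructor <;> linarith
      rw [← sub_div, abs_div, abs_of_pos hδ0, div_lt_one hδ0] at h5
      exact h5
    have hrow : g 1 0 * g' 1 1 = g' 1 0 * g 1 1 := by
      by_contra hne
      have hdvd := CNT_gamma (N := N) hg.1 hg'.1
      have hne2 : g 1 0 * g' 1 1 - g' 1 0 * g 1 1 ≠ 0 := sub_ne_zero.2 hne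
      have hge : (N : ℤ) ≤ |g 1 0 * g' 1 1 - g' 1 0 * g 1 1| :=
        Int.le_of_dvd (abs_pos.2 hne2) ((dvd_abs _ _).2 hdvd)
      have hgeR : (N : ℝ) ≤ |((g 1 0 * g' 1 1 - g' 1 0 * g 1 1 : ℤ) : ℝ)| := by
        rw [← Int.cast_abs]; exact_mod_cast hge
      have harea := CNT_area (lam g) (lam g')
      have e1 : (lam g).im * (lam g').re - (lam g).re * (lam g').im =
          ((g 1 0 * g' 1 1 - g' 1 0 * g 1 1 : ℤ) : ℝ) * z.im := by
        simp only [hlam, Complex.add_re, Complex.add_im, Complex.mul_re, Complex.mul_im,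
          Complex.intCast_re, Complex.intCast_im, UpperHalfPlane.coe_re, UpperHalfPlane.coe_im]
        push_cast
        ring
      rw [e1, abs_mul, abs_of_pos hzim] at harea
      have h1 := hnorm g hg
      have h2 := hnorm g' hg'
      have h3 : ‖lam g‖ * ‖lam g'‖ ≤ R * z.im := by
        nlinarith [sq_nonneg (‖lam g‖ - ‖lam g'‖)]
      have h4 : |Real.sin (CNT_psi (lam g) - CNT_psi (lam g'))| ≤
          |CNT_psi (lam g) - CNT_psi (lam g')| := Real.abs_sin_le_abs
      have h5 : N * z.im ≤ (R * z.im) * |CNT_psi (lam g) - CNT_psi (lam g')| := by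
        calc (N : ℝ) * z.im ≤ |((g 1 0 * g' 1 1 - g' 1 0 * g 1 1 : ℤ) : ℝ)| * z.im :=
              mul_le_mul_of_nonneg_right hgeR hzim.le
          _ = ‖lam g‖ * ‖lam g'‖ * |Real.sin (CNT_psi (lam g) - CNT_psi (lam g'))| := harea
          _ ≤ (R * z.im) * |CNT_psi (lam g) - CNT_psi (lam g')| :=
              mul_le_mul h3 h4 (abs_nonneg _) (by positivity)
      have h6 : (R * z.im) * |CNT_psi (lam g) - CNT_psi (lam g')| < (R * z.im) * δ :=
        mul_lt_mul_of_pos_left hclose (by positivity)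
      have h7 : (R * z.im) * δ = N * z.im := by
        rw [hδ]; field_simp
      linarith
    have h8 := CNT_row (bottom_row_coprime g) (bottom_row_coprime g') hrow he2
    exact (CNT_same h8 hg.2.1 hg.2.2.1 hg'.2.1 hg'.2.2.1).symm
  have hfin : A.Finite := Set.Finite.of_injOn hmaps hinj (Finset.finite_toSet _)
  refine ⟨hfin, ?_⟩
  have hcard : A.ncard ≤ (M + 1) * 2 := by
    have h1 := Set.ncard_le_ncard_of_injOn Φ hmaps hinj (Finset.finite_toSet _)
    rw [Set.ncard_coe_finset, Finset.card_product, Finset.card_range, Finset.card_univ,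
      Fintype.card_bool] at h1
    exact h1
  have hMle : (M : ℝ) ≤ Real.pi / δ := Nat.floor_le (by positivity)
  have hpi : Real.pi / δ ≤ 4 * R / N := by
    rw [hδ, div_div_eq_mul_div]
    refine div_le_div_of_nonneg_right ?_ hN.le
    have := Real.pi_le_four
    nlinarith
  calc (A.ncard : ℝ) ≤ (((M + 1) * 2 : ℕ) : ℝ) := by exact_mod_cast hcard
    _ = 2 * (1 + M) := by push_cast; ring
    _ ≤ 2 * (1 + 4 * R / N) := by linarith

end

theorem count_strip : type_of% @count_strip_pr := @count_strip_pr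

end Pool.Agent.LEV
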