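import Pool.Agent.Lib_helper68.LEV.DefsC
import Pool.Agent.Lib_helper68.LEV.CNT
import Pool.Agent.Lib_helper68.LEV.FAM
import Pool.Agent.Lib_helper68.LEV.PET
import Pool.Agent.Lib_helper68.LEV.QEX

/-! Block LSC: the strip integral and the coefficients. -/

namespace Pool.Agent.LEV

open Complex MeasureTheory Filter Topology UpperHalfPlane ModularGroup
open scoped MatrixGroups Modular ENNReal ModularForm ComplexConjugate ContDiff

section
variable {N : ℕ} [Fact N.Prime]

theorem LSC_summable1 (f : S2 N) {y : ℝ} (hy : 0 < y) :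
    Summable (fun n : ℕ => ‖co f n‖ * Real.exp (-(2 * Real.pi * y) * n)) := by
  obtain ⟨C, hC⟩ := co_bound f
  have h := (Real.summable_pow_mul_exp_neg_nat_mul 1 (r := 2 * Real.pi * y) (by positivity)).mul_left C
  refine Summable.of_nonneg_of_le (fun n => by positivity) (fun n => ?_) h
  rw [pow_one, ← mul_assoc]
  exact mul_le_mul_of_nonneg_right (hC n) (Real.exp_pos _).le

theorem LSC_summable2 (f : S2 N) {y : ℝ} (hy : 0 < y) :
    Summable (fun n : ℕ => ‖co f n‖ ^ 2 / (4 * Real.pi * n) * Real.exp (-4 * Real.pi * n * y)) := by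
  obtain ⟨C, hC⟩ := co_bound f
  have hC0 : 0 ≤ C := by
    have := hC 1
    rw [Nat.cast_one, mul_one] at this
    exact (norm_nonneg _).trans this
  have h := (Real.summable_pow_mul_exp_neg_nat_mul 1 (r := 4 * Real.pi * y)
    (by positivity)).mul_left (C ^ 2)
  refine Summable.of_nonneg_of_le (fun n => by positivity) (fun n => ?_) h
  rw [pow_one, ← mul_assoc]
  have e : Real.exp (-4 * Real.pi * n * y) = Real.exp (-(4 * Real.pi * y) * n) := by
    congr 1; ring
  rw [e]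
  refine mul_le_mul_of_nonneg_right ?_ (Real.exp_pos _).le
  rcases Nat.eq_zero_or_pos n with h0 | h0
  · subst h0
    rw [co_zero]
    simp
  · have hn : (0 : ℝ) < n := by exact_mod_cast h0
    rw [div_le_iff₀ (by positivity)]
    have h1 : ‖co f n‖ ^ 2 ≤ (C * n) ^ 2 := pow_le_pow_left₀ (norm_nonneg _) (hC n) 2
    have h2 : (1 : ℝ) ≤ 4 * Real.pi := by
      have := Real.pi_gt_three
      linarith
    have h3 : 0 ≤ C ^ 2 * n ^ 2 := by positivity
    calc ‖co f n‖ ^ 2 ≤ (C * n) ^ 2 := h1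
      _ = C ^ 2 * n ^ 2 := by ring
      _ ≤ C ^ 2 * n ^ 2 * (4 * Real.pi) := by nlinarith
      _ = C ^ 2 * n * (4 * Real.pi * n) := by ring

/-- the form as a function on `ℂ` -/
noncomputable def LSC_g (f : S2 N) (z : ℂ) : ℂ := f (UpperHalfPlane.ofComplex z)

omit [Fact N.Prime] in
theorem LSC_g_coe (f : S2 N) (z : ℍ) : LSC_g f (z : ℂ) = f z := by
  unfold LSC_g
  rw [ofComplex_apply]

theorem LSC_g_cont (f : S2 N) : ContinuousOn (LSC_g f) {z : ℂ | 0 < z.im} := by
  have h := fam_hol f OnePoint.infty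
  rw [fam_inf] at h
  exact h.continuousOn

theorem LSC_f_cont (f : S2 N) : Continuous (f : ℍ → ℂ) := by
  have h := fam_cont f OnePoint.infty
  rwa [fam_inf] at h

/-- Parseval on a horizontal line -/
theorem LSC_line (f : S2 N) {y : ℝ} (hy : 0 < y) :
    ∫ x in (0 : ℝ)..1, ‖LSC_g f (⟨x, y⟩ : ℂ)‖ ^ 2 =
      ∑' n : ℕ, ‖co f n‖ ^ 2 * Real.exp (-4 * Real.pi * n * y) := by
  set b : ℕ → ℂ := fun n => co f n * (Real.exp (-(2 * Real.pi * y) * n) : ℝ) with hb
  have hbn : ∀ n, ‖b n‖ = ‖co f n‖ * Real.exp (-(2 * Real.pi * y) * n) := by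
    intro n
    rw [hb]
    simp only
    rw [norm_mul, Complex.norm_real, Real.norm_eq_abs, abs_of_pos (Real.exp_pos _)]
  have hpar := Pool.Agent.GL2.parseval_pr b (by simp_rw [hbn]; exact LSC_summable1 f hy)
  have hHH : ∀ x : ℝ, Pool.Agent.GL2.HH b x = LSC_g f (⟨x, y⟩ : ℂ) := by
    intro x
    have h1 := (qex f (⟨⟨x, y⟩, hy⟩ : ℍ)).tsum_eq
    have h2 : LSC_g f (⟨x, y⟩ : ℂ) = f (⟨⟨x, y⟩, hy⟩ : ℍ) :=
      LSC_g_coe f (⟨⟨x, y⟩, hy⟩ : ℍ)
    rw [h2, ← h1]
    unfold Pool.Agent.GL2.HH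
    refine tsum_congr fun n => ?_
    rw [hb]
    simp only
    rw [mul_assoc, Complex.ofReal_exp, ← Complex.exp_add]
    congr 2
    have h3 : (⟨x, y⟩ : ℂ) = (x : ℂ) + y * Complex.I := by
      apply Complex.ext <;> simp
    rw [h3]
    push_cast
    linear_combination (-2 * Real.pi * n * y : ℂ) * Complex.I_sq
  have h4 : ∀ n : ℕ, ‖b n‖ ^ 2 = ‖co f n‖ ^ 2 * Real.exp (-4 * Real.pi * n * y) := by
    intro n
    rw [hbn, mul_pow, ← Real.exp_nat_mul]
    congr 2
    push_cast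
    ring
  simp_rw [h4] at hpar
  rw [hpar]
  refine intervalIntegral.integral_congr fun x _ => ?_
  rw [hHH]

theorem LSC_lint_line (f : S2 N) {y : ℝ} (hy : 0 < y) :
    ∫⁻ x in Set.Ico (0 : ℝ) 1, ‖LSC_g f (⟨x, y⟩ : ℂ)‖ₑ ^ 2 =
      ∑' n : ℕ, ENNReal.ofReal (‖co f n‖ ^ 2 * Real.exp (-4 * Real.pi * n * y)) := by
  have hc : Continuous fun x : ℝ => LSC_g f (⟨x, y⟩ : ℂ) := by
    have h1 : Continuous (fun x : ℝ => (⟨x, y⟩ : ℂ)) := by
      have e : (fun x : ℝ => (⟨x, y⟩ : ℂ)) = fun x : ℝ => (x : ℂ) + y * Complex.I := by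
        funext x
        apply Complex.ext <;> simp
      rw [e]
      fun_prop
    exact (LSC_g_cont f).comp_continuous h1 fun x => hy
  have h2 : ∀ x : ℝ, ‖LSC_g f (⟨x, y⟩ : ℂ)‖ₑ ^ 2 = ENNReal.ofReal (‖LSC_g f (⟨x, y⟩ : ℂ)‖ ^ 2) := by
    intro x
    rw [ENNReal.ofReal_pow (norm_nonneg _), ofReal_norm]
  simp_rw [h2]
  rw [← ofReal_integral_eq_lintegral_ofReal, integral_Ico_eq_integral_Ioc,
    ← intervalIntegral.integral_of_le zero_le_one, LSC_line f hy,
    ENNReal.ofReal_tsum_of_nonneg (fun n => by positivity)]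
  · have h3 := LSC_summable1 f hy
    have h4 : Summable fun n : ℕ => (‖co f n‖ * Real.exp (-(2 * Real.pi * y) * n)) ^ 2 := by
      have hnn : ∀ n : ℕ, 0 ≤ ‖co f n‖ * Real.exp (-(2 * Real.pi * y) * n) :=
        fun n => by positivity
      apply Summable.of_nonneg_of_le (fun n => sq_nonneg _) (fun n => ?_)
        (h3.mul_left (∑' n : ℕ, ‖co f n‖ * Real.exp (-(2 * Real.pi * y) * n)))
      rw [sq]
      exact mul_le_mul_of_nonneg_right (h3.le_tsum n (fun j _ => hnn j)) (hnn n)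
    refine h4.congr fun n => ?_
    rw [mul_pow, ← Real.exp_nat_mul]
    congr 2
    push_cast
    ring
  · exact ((hc.norm.pow 2).integrableOn_Icc (a := 0) (b := 1)).mono_set Set.Ico_subset_Icc_self
  · exact Eventually.of_forall fun x => by positivity

theorem LSC_exp {c k y : ℝ} (hc : 0 ≤ c) (hk : 0 < k) :
    ∫⁻ t in Set.Ici y, ENNReal.ofReal (c * Real.exp (-k * t)) =
      ENNReal.ofReal (c / k * Real.exp (-k * y)) := by
  rw [← ofReal_integral_eq_lintegral_ofReal]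
  · congr 1
    rw [integral_Ici_eq_integral_Ioi, integral_const_mul, integral_exp_mul_Ioi (by linarith)]
    field_simp
  · refine Integrable.const_mul ?_ _
    have := integrableOn_exp_mul_Ioi (a := -k) (by linarith) y
    exact (integrableOn_Ici_iff_integrableOn_Ioi).mpr this
  · exact Eventually.of_forall fun t => by positivity

/-- the strip in `ℂ` -/
def LSC_str (y : ℝ) : Set ℂ := {z : ℂ | 0 ≤ z.re ∧ z.re < 1 ∧ y ≤ z.im}

theorem strip_sum_pr (f : S2 N) {y : ℝ} (hy : 0 < y) :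
    Summable (fun n : ℕ => ‖co f n‖ ^ 2 / (4 * Real.pi * n) * Real.exp (-4 * Real.pi * n * y)) ∧
    ∫⁻ z in {z : ℍ | 0 ≤ z.re ∧ z.re < 1 ∧ y ≤ z.im}, ‖f z‖ₑ ^ 2 * ENNReal.ofReal (z.im ^ 2) =
      ENNReal.ofReal (∑' n : ℕ, ‖co f n‖ ^ 2 / (4 * Real.pi * n) *
        Real.exp (-4 * Real.pi * n * y)) := by
  refine ⟨LSC_summable2 f hy, ?_⟩
  have hms : MeasurableSet {z : ℍ | 0 ≤ z.re ∧ z.re < 1 ∧ y ≤ z.im} := by
    refine (measurableSet_le measurable_const UpperHalfPlane.continuous_re.measurable).inter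
      ((measurableSet_lt UpperHalfPlane.continuous_re.measurable measurable_const).inter
        (measurableSet_le measurable_const UpperHalfPlane.continuous_im.measurable))
  rw [← lintegral_indicator hms]
  have h1 : ∀ w : ℍ, {z : ℍ | 0 ≤ z.re ∧ z.re < 1 ∧ y ≤ z.im}.indicator
      (fun z : ℍ => ‖f z‖ₑ ^ 2 * ENNReal.ofReal (z.im ^ 2)) w =
      (LSC_str y).indicator (fun z : ℂ => ‖LSC_g f z‖ₑ ^ 2 * ENNReal.ofReal (z.im ^ 2)) (w : ℂ) := by
    intro w
    by_cases hw : w ∈ {z : ℍ | 0 ≤ z.re ∧ z.re < 1 ∧ y ≤ z.im}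
    · rw [Set.indicator_of_mem hw, Set.indicator_of_mem (by exact hw)]
      rw [LSC_g_coe]
      rfl
    · rw [Set.indicator_of_notMem hw, Set.indicator_of_notMem (by exact hw)]
  rw [lintegral_congr h1, Pool.Agent.GL2.RSA_lint, ← lintegral_indicator
    (isOpen_lt continuous_const Complex.continuous_im).measurableSet]
  set F : ℝ × ℝ → ℝ≥0∞ := (Set.Ico (0 : ℝ) 1 ×ˢ Set.Ici y).indicator
    (fun p : ℝ × ℝ => ‖LSC_g f (⟨p.1, p.2⟩ : ℂ)‖ₑ ^ 2) with hF
  have h2 : ∫⁻ z : ℂ, {z : ℂ | 0 < z.im}.indicator (fun z =>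
      (LSC_str y).indicator (fun z : ℂ => ‖LSC_g f z‖ₑ ^ 2 * ENNReal.ofReal (z.im ^ 2)) z *
        ENNReal.ofReal (1 / z.im ^ 2)) z = ∫⁻ p : ℝ × ℝ, F p := by
    rw [(Complex.volume_preserving_equiv_real_prod.symm).lintegral_map_equiv]
    apply lintegral_congr
    rintro ⟨x, t⟩
    have e : Complex.measurableEquivRealProd.symm (x, t) = (⟨x, t⟩ : ℂ) := rfl
    rw [e, hF]
    by_cases hp : (0 ≤ x ∧ x < 1 ∧ y ≤ t)
    · have ht : 0 < t := lt_of_lt_of_le hy hp.2.2
      rw [Set.indicator_of_mem (by exact ht), Set.indicator_of_mem (by exact hp),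
        Set.indicator_of_mem (by exact ⟨⟨hp.1, hp.2.1⟩, hp.2.2⟩)]
      simp only
      rw [mul_assoc, ← ENNReal.ofReal_mul (by positivity)]
      have e2 : t ^ 2 * (1 / t ^ 2) = 1 := by field_simp
      rw [e2, ENNReal.ofReal_one, mul_one]
    · rw [Set.indicator_of_notMem (s := Set.Ico (0 : ℝ) 1 ×ˢ Set.Ici y)
        (by exact fun h => hp ⟨h.1.1, h.1.2, h.2⟩)]
      by_cases ht : 0 < t
      · rw [Set.indicator_of_mem (by exact ht), Set.indicator_of_notMem (by exact hp), zero_mul]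
      · rw [Set.indicator_of_notMem (by exact ht)]
  rw [h2, Measure.volume_eq_prod]
  have hcont : ContinuousOn (fun p : ℝ × ℝ => LSC_g f (⟨p.1, p.2⟩ : ℂ)) {p : ℝ × ℝ | 0 < p.2} := by
    have h3 : Continuous (fun p : ℝ × ℝ => (⟨p.1, p.2⟩ : ℂ)) :=
      Complex.equivRealProdCLM.symm.continuous
    exact (LSC_g_cont f).comp h3.continuousOn (fun p hp => hp)
  have hmeas : MeasurableSet (Set.Ico (0 : ℝ) 1 ×ˢ Set.Ici y) :=
    measurableSet_Ico.prod measurableSet_Ici
  have hfm : AEMeasurable F (volume.prod volume) := by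
    rw [hF, aemeasurable_indicator_iff hmeas]
    have h4 : ContinuousOn (fun p : ℝ × ℝ => LSC_g f (⟨p.1, p.2⟩ : ℂ))
        (Set.Ico (0 : ℝ) 1 ×ˢ Set.Ici y) :=
      hcont.mono (fun p hp => lt_of_lt_of_le hy hp.2)
    exact ((h4.aemeasurable hmeas).enorm).pow_const 2
  rw [lintegral_prod_symm _ hfm]
  have h4 : ∀ t : ℝ, ∫⁻ x : ℝ, F (x, t) = (Set.Ici y).indicator
      (fun t => ∑' n : ℕ, ENNReal.ofReal (‖co f n‖ ^ 2 * Real.exp (-4 * Real.pi * n * t))) t := by
    intro t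
    by_cases ht : t ∈ Set.Ici y
    · have ht0 : 0 < t := lt_of_lt_of_le hy ht
      rw [Set.indicator_of_mem ht]
      have h5 : ∀ x : ℝ, F (x, t) = (Set.Ico (0 : ℝ) 1).indicator
          (fun x => ‖LSC_g f (⟨x, t⟩ : ℂ)‖ₑ ^ 2) x := by
        intro x
        by_cases hx : x ∈ Set.Ico (0 : ℝ) 1
        · rw [hF, Set.indicator_of_mem (by exact ⟨hx, ht⟩), Set.indicator_of_mem hx]
        · rw [hF, Set.indicator_of_notMem (by exact fun h => hx h.1), Set.indicator_of_notMem hx]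
      rw [lintegral_congr h5, lintegral_indicator measurableSet_Ico, LSC_lint_line f ht0]
    · rw [Set.indicator_of_notMem ht]
      have h5 : ∀ x : ℝ, F (x, t) = 0 := by
        intro x
        rw [hF, Set.indicator_of_notMem (by exact fun h => ht h.2)]
      rw [lintegral_congr h5, lintegral_zero]
  rw [lintegral_congr h4, lintegral_indicator measurableSet_Ici, lintegral_tsum,
    ENNReal.ofReal_tsum_of_nonneg (fun n => by positivity) (LSC_summable2 f hy)]
  · refine tsum_congr fun n => ?_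
    rcases Nat.eq_zero_or_pos n with h0 | h0
    · subst h0
      rw [co_zero]
      simp
    · have hn : (0 : ℝ) < n := by exact_mod_cast h0
      have h6 := LSC_exp (c := ‖co f n‖ ^ 2) (k := 4 * Real.pi * n) (y := y) (by positivity)
        (by positivity)
      have e1 : ∀ t : ℝ, Real.exp (-4 * Real.pi * n * t) = Real.exp (-(4 * Real.pi * n) * t) := by
        intro t
        congr 1; ring
      simp_rw [e1]
      exact h6
  · intro n
    fun_prop

omit [Fact N.Prime] in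
theorem LSC_e (x : ℂ) {t : ℝ} : ‖x‖ₑ ^ 2 * ENNReal.ofReal t = ENNReal.ofReal (‖x‖ ^ 2 * t) := by
  rw [ENNReal.ofReal_mul (by positivity), ENNReal.ofReal_pow (norm_nonneg _), ofReal_norm]

theorem LSC_inv (f : S2 N) (g : SL(2, ℤ)) (z : ℍ) :
    ‖f (g • z)‖ₑ ^ 2 * ENNReal.ofReal ((g • z).im ^ 2) =
      ‖fam f (pa g⁻¹ OnePoint.infty) z‖ₑ ^ 2 * ENNReal.ofReal (z.im ^ 2) := by
  have h1 : f (g • z) * denom g z ^ (-(2 : ℤ)) = fam f (pa g⁻¹ OnePoint.infty) z := by
    rw [← fam_slash, ModularForm.SL_slash_apply]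
  have hd : denom g z ≠ 0 := UpperHalfPlane.denom_ne_zero _ _
  rw [LSC_e, LSC_e, ← h1, ModularGroup.im_smul_eq_div_normSq, Complex.normSq_eq_norm_sq, norm_mul,
    norm_zpow]
  congr 1
  have hn : ‖denom g z‖ ≠ 0 := norm_ne_zero_iff.mpr hd
  rw [zpow_neg]
  have : ‖denom g z‖ ^ (2 : ℤ) = ‖denom g z‖ ^ 2 := by norm_cast
  rw [this]
  field_simp

theorem strip_le_pr (f : S2 N) {R : ℝ} (hR : 0 < R) :
    ∫⁻ z in {z : ℍ | 0 ≤ z.re ∧ z.re < 1 ∧ 1 / R ≤ z.im}, ‖f z‖ₑ ^ 2 * ENNReal.ofReal (z.im ^ 2) ≤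
      ENNReal.ofReal ((1 + 4 * R / N) * nr f) := by
  have hfc := LSC_f_cont f
  set Str : Set ℍ := {z : ℍ | 0 ≤ z.re ∧ z.re < 1 ∧ 1 / R ≤ z.im} with hStr
  have hms : MeasurableSet Str := by
    refine (measurableSet_le measurable_const UpperHalfPlane.continuous_re.measurable).inter
      ((measurableSet_lt UpperHalfPlane.continuous_re.measurable measurable_const).inter
        (measurableSet_le measurable_const UpperHalfPlane.continuous_im.measurable))
  have him : Continuous fun z : ℍ => z.im := UpperHalfPlane.continuous_im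
  have hK : (0 : ℝ) ≤ 1 + 4 * R / N := by positivity
  set K : ℝ≥0∞ := ENNReal.ofReal (2 * (1 + 4 * R / N)) with hKdef
  set c : PX N → ℍ → ℝ≥0∞ := fun q z => ‖fam f q z‖ₑ ^ 2 * ENNReal.ofReal (z.im ^ 2) with hc
  have hcm : ∀ q, Measurable (c q) := fun q =>
    ((fam_cont f q).measurable.enorm.pow_const 2).mul (him.pow 2).measurable.ennreal_ofReal
  set G : ℍ → ℝ≥0∞ := Str.indicator (fun z => ‖f z‖ₑ ^ 2 * ENNReal.ofReal (z.im ^ 2)) with hG
  have hGm : Measurable G :=
    ((hfc.measurable.enorm.pow_const 2).mul (him.pow 2).measurable.ennreal_ofReal).indicator hms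
  have hpt : ∀ z : ℍ, ∑' g : SL(2, ℤ), G (g • z) ≤ K * ∑ q : PX N, c q z := by
    intro z
    classical
    have e1 : ∀ g : SL(2, ℤ), G (g • z) = ∑ q : PX N,
        (if pa g⁻¹ (OnePoint.infty : PX N) = q ∧ 0 ≤ (g • z).re ∧ (g • z).re < 1 ∧
          1 / R ≤ (g • z).im then c q z else 0) := by
      intro g
      by_cases hg : g • z ∈ Str
      · rw [hG, Set.indicator_of_mem hg, LSC_inv]
        rw [Finset.sum_eq_single (pa g⁻¹ (OnePoint.infty : PX N))]
        · rw [if_pos ⟨rfl, hg⟩]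
        · intro q _ hq
          rw [if_neg]
          rintro ⟨h, -⟩
          exact hq h.symm
        · intro h
          exact absurd (Finset.mem_univ _) h
      · rw [hG, Set.indicator_of_notMem hg, Finset.sum_eq_zero]
        intro q _
        rw [if_neg]
        rintro ⟨-, h⟩
        exact hg h
    simp_rw [e1]
    rw [Summable.tsum_finsetSum (fun q _ => ENNReal.summable), Finset.mul_sum]
    refine Finset.sum_le_sum fun q _ => ?_
    obtain ⟨hfin, hcard⟩ := count_strip z hR q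
    rw [tsum_eq_sum (s := hfin.toFinset)]
    · calc ∑ g ∈ hfin.toFinset, (if pa g⁻¹ (OnePoint.infty : PX N) = q ∧ 0 ≤ (g • z).re ∧
          (g • z).re < 1 ∧ 1 / R ≤ (g • z).im then c q z else 0)
          ≤ ∑ g ∈ hfin.toFinset, c q z := by
            refine Finset.sum_le_sum fun g _ => ?_
            split_ifs
            · exact le_rfl
            · exact bot_le
        _ = (hfin.toFinset.card : ℝ≥0∞) * c q z := by
            rw [Finset.sum_const, nsmul_eq_mul]
        _ ≤ K * c q z := by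
            refine mul_le_mul' ?_ le_rfl
            rw [hKdef, ← ENNReal.ofReal_natCast, ← Set.ncard_eq_toFinset_card _ hfin]
            exact ENNReal.ofReal_le_ofReal hcard
    · intro g hg
      rw [if_neg]
      intro h
      exact hg (hfin.mem_toFinset.mpr h)
  have hun := Pool.Agent.GL2.RSA_unfold G hGm
  have h2 : 2 * ∫⁻ w : ℍ, G w ≤ 2 * (ENNReal.ofReal (1 + 4 * R / N) * ENNReal.ofReal (nr f)) := by
    rw [← hun]
    calc ∫⁻ z in 𝒟ᵒ, ∑' g : SL(2, ℤ), G (g • z) ≤ ∫⁻ z in 𝒟ᵒ, K * ∑ q : PX N, c q z :=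
          lintegral_mono fun z => hpt z
      _ = K * ∑ q : PX N, ∫⁻ z in 𝒟ᵒ, c q z := by
          rw [lintegral_const_mul _ (Finset.measurable_fun_sum _ fun q _ => hcm q),
            lintegral_finsetSum _ fun q _ => hcm q]
      _ = K * en (fam f) := rfl
      _ = 2 * (ENNReal.ofReal (1 + 4 * R / N) * ENNReal.ofReal (nr f)) := by
          rw [nr_en, hKdef, ENNReal.ofReal_mul (by norm_num), mul_assoc]
          congr 1
          norm_num
  rw [ENNReal.mul_le_mul_iff_right (by norm_num) (by norm_num)] at h2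
  rw [ENNReal.ofReal_mul hK, ← lintegral_indicator hms]
  exact h2

theorem LSC_nr_zero : nr (0 : S2 N) = 0 := by
  have h := pet_smul (0 : ℂ) (0 : S2 N) (0 : S2 N)
  rw [zero_smul, zero_mul] at h
  unfold nr
  rw [h]
  rfl

theorem LSC_nr_nonneg (f : S2 N) : 0 ≤ nr f := by
  by_cases h : f = 0
  · rw [h, LSC_nr_zero]
  · exact (nr_pos h).le

end

theorem coef_le_pr : ∃ C : ℝ, 0 < C ∧ ∀ (N : ℕ) [Fact N.Prime] (f : S2 N) (X : ℕ),
    ∑ n ∈ Finset.Icc 1 X, ‖co f n‖ ^ 2 / n ≤ C * (1 + X / N) * nr f := by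
  refine ⟨4 * Real.pi * Real.exp (4 * Real.pi) * 4, by positivity, fun N _ f X => ?_⟩
  have hnr := LSC_nr_nonneg f
  rcases Nat.eq_zero_or_pos X with h0 | h0
  · subst h0
    rw [Finset.Icc_eq_empty (by norm_num), Finset.sum_empty]
    positivity
  · have hX : (0 : ℝ) < X := by exact_mod_cast h0
    have hy : (0 : ℝ) < 1 / (X : ℝ) := by positivity
    obtain ⟨hs, he⟩ := strip_sum_pr f hy
    have hle := strip_le_pr f hX
    rw [he, ENNReal.ofReal_le_ofReal_iff (by positivity)] at hle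
    have hfin := hs.sum_le_tsum (Finset.Icc 1 X) (fun n _ => by positivity)
    have hterm : ∀ n ∈ Finset.Icc 1 X, ‖co f n‖ ^ 2 / n ≤ 4 * Real.pi * Real.exp (4 * Real.pi) *
        (‖co f n‖ ^ 2 / (4 * Real.pi * n) * Real.exp (-4 * Real.pi * n * (1 / X))) := by
      intro n hn
      obtain ⟨h1, h2⟩ := Finset.mem_Icc.mp hn
      have hn0 : (0 : ℝ) < n := by exact_mod_cast h1
      have hnX : (n : ℝ) ≤ X := by exact_mod_cast h2
      have h3 : 1 ≤ Real.exp (4 * Real.pi) * Real.exp (-4 * Real.pi * n * (1 / X)) := by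
        rw [← Real.exp_add]
        refine Real.one_le_exp ?_
        have h4 : (n : ℝ) * (1 / X) ≤ 1 := by
          rw [mul_one_div, div_le_one hX]
          exact hnX
        have h5 := Real.pi_pos
        nlinarith
      have h6 : 0 ≤ ‖co f n‖ ^ 2 / n := by positivity
      calc ‖co f n‖ ^ 2 / n = ‖co f n‖ ^ 2 / n * 1 := (mul_one _).symm
        _ ≤ ‖co f n‖ ^ 2 / n * (Real.exp (4 * Real.pi) * Real.exp (-4 * Real.pi * n * (1 / X))) :=
            mul_le_mul_of_nonneg_left h3 h6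
        _ = 4 * Real.pi * Real.exp (4 * Real.pi) *
            (‖co f n‖ ^ 2 / (4 * Real.pi * n) * Real.exp (-4 * Real.pi * n * (1 / X))) := by
            have := Real.pi_pos.ne'
            field_simp
    calc ∑ n ∈ Finset.Icc 1 X, ‖co f n‖ ^ 2 / n
        ≤ ∑ n ∈ Finset.Icc 1 X, 4 * Real.pi * Real.exp (4 * Real.pi) *
        (‖co f n‖ ^ 2 / (4 * Real.pi * n) * Real.exp (-4 * Real.pi * n * (1 / X))) :=
          Finset.sum_le_sum hterm
      _ = 4 * Real.pi * Real.exp (4 * Real.pi) * ∑ n ∈ Finset.Icc 1 X,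
        (‖co f n‖ ^ 2 / (4 * Real.pi * n) * Real.exp (-4 * Real.pi * n * (1 / X))) := by
          rw [Finset.mul_sum]
      _ ≤ 4 * Real.pi * Real.exp (4 * Real.pi) * ((1 + 4 * X / N) * nr f) :=
          mul_le_mul_of_nonneg_left (hfin.trans hle) (by positivity)
      _ ≤ 4 * Real.pi * Real.exp (4 * Real.pi) * (4 * (1 + X / N) * nr f) := by
          refine mul_le_mul_of_nonneg_left (mul_le_mul_of_nonneg_right ?_ hnr) (by positivity)
          have : (0 : ℝ) ≤ (X : ℝ) / N := by positivity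
          have e : 4 * (X : ℝ) / N = 4 * ((X : ℝ) / N) := by ring
          rw [e]
          linarith
      _ = 4 * Real.pi * Real.exp (4 * Real.pi) * 4 * (1 + X / N) * nr f := by ring

theorem strip_sum : type_of% @strip_sum_pr := @strip_sum_pr
theorem strip_le : type_of% @strip_le_pr := @strip_le_pr
theorem coef_le : type_of% @coef_le_pr := @coef_le_pr

end Pool.Agent.LEV
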