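import Pool.Agent.Lib_helper68.LEV.DefsC
import Pool.Agent.Lib_helper68.LEV.LSC
import Pool.Agent.Lib_helper68.LEV.PET
import Pool.Agent.Lib_helper68.LEV.QEX

set_option autoImplicit false

namespace Pool.Agent.LEV

open Complex MeasureTheory Filter Topology UpperHalfPlane ModularGroup
open scoped MatrixGroups Modular ENNReal ModularForm ComplexConjugate ContDiff

section
variable {N : ℕ} [Fact N.Prime]

theorem LSD_pet_zero (f : S2 N) : pet f 0 = 0 := by
  have h := pet_smul (0 : ℂ) f (0 : S2 N)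
  rwa [zero_smul, zero_mul] at h

theorem LSD_pet_sum {ι : Type} (s : Finset ι) (f : S2 N) (g : ι → S2 N) :
    pet f (∑ i ∈ s, g i) = ∑ i ∈ s, pet f (g i) := by
  classical
  induction s using Finset.induction_on with
  | empty => simp only [Finset.sum_empty]; exact LSD_pet_zero f
  | insert a s ha ih => rw [Finset.sum_insert ha, Finset.sum_insert ha, pet_add, ih]

theorem LSD_co_sum {ι : Type} (s : Finset ι) (g : ι → S2 N) (n : ℕ) :
    co (∑ i ∈ s, g i) n = ∑ i ∈ s, co (g i) n := by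
  classical
  induction s using Finset.induction_on with
  | empty =>
    simp only [Finset.sum_empty]
    have h := co_smul (0 : ℂ) (0 : S2 N) n
    rwa [zero_smul, zero_mul] at h
  | insert a s ha ih => rw [Finset.sum_insert ha, Finset.sum_insert ha, co_add, ih]

/-- Pythagoras -/
theorem LSD_nr_sum {ι : Type} [Fintype ι] (f : ι → S2 N)
    (ho : ∀ i j, i ≠ j → pet (f i) (f j) = 0) (c : ι → ℂ) :
    nr (∑ i, c i • f i) = ∑ i, ‖c i‖ ^ 2 * nr (f i) := by
  classical
  have h1 : ∀ j, pet (f j) (∑ i, c i • f i) = c j * (nr (f j) : ℂ) := by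
    intro j
    rw [LSD_pet_sum, Finset.sum_eq_single j]
    · rw [pet_smul, pet_self]
    · intro i _ hij
      rw [pet_smul, ho j i (Ne.symm hij), mul_zero]
    · intro h; exact absurd (Finset.mem_univ j) h
  have h2 : (nr (∑ i, c i • f i) : ℂ) = ((∑ i, ‖c i‖ ^ 2 * nr (f i) : ℝ) : ℂ) := by
    rw [← pet_self]
    conv_lhs => rw [LSD_pet_sum]
    push_cast
    apply Finset.sum_congr rfl
    intro j _
    rw [pet_smul, pet_conj (f j), h1, map_mul, Complex.conj_ofReal, ← mul_assoc, Complex.mul_conj,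
      Complex.normSq_eq_norm_sq]
    push_cast
    ring
  exact_mod_cast h2

/-- the duality principle in abstract form -/
theorem LSD_dual {S A B : ℝ} (hS : 0 ≤ S) (hA : 0 ≤ A) (hB : 0 ≤ B)
    (h : S ^ 2 ≤ B * (A * S)) : S ≤ A * B := by
  rcases hS.eq_or_lt with h0 | h0
  · rw [← h0]; positivity
  · have : S * S ≤ (A * B) * S := by nlinarith
    exact le_of_mul_le_mul_right this h0

end

theorem large_sieve_pr : ∃ C : ℝ, 0 < C ∧ ∀ (N : ℕ) [Fact N.Prime] {ι : Type} [Fintype ι]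
    (f : ι → S2 N), (∀ i, f i ≠ 0) → (∀ i j, i ≠ j → pet (f i) (f j) = 0) →
    ∀ (X : ℕ) (b : ℕ → ℂ),
      ∑ i, 1 / nr (f i) * ‖∑ n ∈ Finset.Icc 1 X, b n * (co (f i) n / (Real.sqrt n : ℂ))‖ ^ 2 ≤
        C * (1 + X / N) * ∑ n ∈ Finset.Icc 1 X, ‖b n‖ ^ 2 := by
  obtain ⟨C, hC, hco⟩ := coef_le
  refine ⟨C, hC, ?_⟩
  intro N _ ι _ f hf ho X b
  have hnr : ∀ i, 0 < nr (f i) := fun i => nr_pos (hf i)
  set v : ι → ℂ := fun i => ∑ n ∈ Finset.Icc 1 X, b n * (co (f i) n / (Real.sqrt n : ℂ)) with hv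
  set S : ℝ := ∑ i, 1 / nr (f i) * ‖v i‖ ^ 2 with hS
  have hS0 : 0 ≤ S := Finset.sum_nonneg (fun i _ => by have := hnr i; positivity)
  set c : ι → ℂ := fun i => conj (v i) / (nr (f i) : ℂ) with hc
  set F : S2 N := ∑ i, c i • f i with hF
  have hnF : nr F = S := by
    rw [hF, LSD_nr_sum f ho c, hS]
    apply Finset.sum_congr rfl
    intro i _
    have h0 := (hnr i).ne'
    simp only [hc]
    rw [norm_div, RCLike.norm_conj, Complex.norm_real, Real.norm_of_nonneg (hnr i).le]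
    field_simp
  have hSF : ((S : ℝ) : ℂ) = ∑ n ∈ Finset.Icc 1 X, b n * (co F n / (Real.sqrt n : ℂ)) := by
    have e1 : ∀ n, co F n = ∑ i, c i * co (f i) n := by
      intro n
      rw [hF, LSD_co_sum]
      exact Finset.sum_congr rfl (fun i _ => co_smul _ _ _)
    have e2 : ((S : ℝ) : ℂ) = ∑ i, c i * v i := by
      rw [hS]
      push_cast
      apply Finset.sum_congr rfl
      intro i _
      simp only [hc]
      have h0 : (nr (f i) : ℂ) ≠ 0 := by exact_mod_cast (hnr i).ne'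
      have h1 : conj (v i) * v i = ((‖v i‖ : ℝ) : ℂ) ^ 2 := by
        rw [mul_comm, Complex.mul_conj, Complex.normSq_eq_norm_sq]; push_cast; rfl
      have h2 : conj (v i) / (nr (f i) : ℂ) * v i = conj (v i) * v i / (nr (f i) : ℂ) := by ring
      rw [h2, h1]
      ring
    rw [e2]
    simp only [hv, Finset.mul_sum]
    rw [Finset.sum_comm]
    apply Finset.sum_congr rfl
    intro n _
    rw [e1 n, Finset.sum_div, Finset.mul_sum]
    apply Finset.sum_congr rfl
    intro i _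
    ring
  have hCS : S ^ 2 ≤ (∑ n ∈ Finset.Icc 1 X, ‖b n‖ ^ 2) * (C * (1 + X / N) * S) := by
    have h1 : S ≤ ∑ n ∈ Finset.Icc 1 X, ‖b n‖ * (‖co F n‖ / Real.sqrt n) := by
      have h2 : S = ‖((S : ℝ) : ℂ)‖ := by
        rw [Complex.norm_real, Real.norm_of_nonneg hS0]
      rw [h2, hSF]
      refine (norm_sum_le _ _).trans (Finset.sum_le_sum (fun n _ => ?_))
      rw [norm_mul, norm_div, Complex.norm_real, Real.norm_of_nonneg (Real.sqrt_nonneg _)]
    have h3 : (∑ n ∈ Finset.Icc 1 X, ‖b n‖ * (‖co F n‖ / Real.sqrt n)) ^ 2 ≤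
        (∑ n ∈ Finset.Icc 1 X, ‖b n‖ ^ 2) * ∑ n ∈ Finset.Icc 1 X, (‖co F n‖ / Real.sqrt n) ^ 2 :=
      Finset.sum_mul_sq_le_sq_mul_sq _ _ _
    have h4 : ∑ n ∈ Finset.Icc 1 X, (‖co F n‖ / Real.sqrt n) ^ 2 =
        ∑ n ∈ Finset.Icc 1 X, ‖co F n‖ ^ 2 / n := by
      apply Finset.sum_congr rfl
      intro n _
      rw [div_pow, Real.sq_sqrt (Nat.cast_nonneg n)]
    have h5 := hco N F X
    rw [hnF] at h5
    calc S ^ 2 ≤ (∑ n ∈ Finset.Icc 1 X, ‖b n‖ * (‖co F n‖ / Real.sqrt n)) ^ 2 :=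
          pow_le_pow_left₀ hS0 h1 2
      _ ≤ _ := h3
      _ ≤ _ := by
          rw [h4]
          exact mul_le_mul_of_nonneg_left h5 (Finset.sum_nonneg (fun n _ => by positivity))
  exact LSD_dual hS0 (by positivity) (Finset.sum_nonneg (fun n _ => by positivity)) hCS

theorem large_sieve : type_of% @large_sieve_pr := @large_sieve_pr

end Pool.Agent.LEV
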