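import Pool.Agent.Lib_helper68.LEV.DefsC
import Pool.Agent.Lib_helper68.LEV.FAM
import Pool.Agent.Lib_helper68.LEV.LSC
import Pool.Agent.Lib_helper68.LEV.LSD
import Pool.Agent.Lib_helper68.LEV.PET
import Pool.Agent.Lib_helper68.LEV.QEX

set_option autoImplicit false

namespace Pool.Agent.LEV

open Complex MeasureTheory Filter Topology UpperHalfPlane ModularGroup
open scoped MatrixGroups Modular ENNReal ModularForm ComplexConjugate ContDiff

/-- the strip -/
def LSB_st (α R : ℝ) : Set ℂ := {z : ℂ | α ≤ z.re ∧ z.re < α + 1 ∧ 1 / R ≤ z.im}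

theorem LSB_st_meas (α R : ℝ) : MeasurableSet (LSB_st α R) := by
  have h1 : MeasurableSet {z : ℂ | α ≤ z.re} := measurableSet_le measurable_const Complex.measurable_re
  have h2 : MeasurableSet {z : ℂ | z.re < α + 1} :=
    measurableSet_lt Complex.measurable_re measurable_const
  have h3 : MeasurableSet {z : ℂ | 1 / R ≤ z.im} :=
    measurableSet_le measurable_const Complex.measurable_im
  exact h1.inter (h2.inter h3)

/-- the vertical strip without the condition on the height -/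
def LSB_vs (α : ℝ) : Set ℂ := {z : ℂ | α ≤ z.re ∧ z.re < α + 1}

theorem LSB_vs_meas (α : ℝ) : MeasurableSet (LSB_vs α) :=
  (measurableSet_le measurable_const Complex.measurable_re).inter
    (measurableSet_lt Complex.measurable_re measurable_const)

theorem LSB_fd (α : ℝ) :
    IsAddFundamentalDomain (AddSubgroup.zmultiples (1 : ℂ)) (LSB_vs α) volume := by
  refine IsAddFundamentalDomain.mk' (LSB_vs_meas α).nullMeasurableSet (fun x => ?_)
  obtain ⟨n, hn, hu⟩ := existsUnique_add_zsmul_mem_Ico (zero_lt_one (α := ℝ)) x.re α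
  simp only [zsmul_eq_mul, mul_one, Set.mem_Ico] at hn hu
  refine ⟨⟨(n : ℂ), ⟨n, by simp⟩⟩, ?_, ?_⟩
  · change α ≤ ((n : ℂ) + x).re ∧ ((n : ℂ) + x).re < α + 1
    rw [Complex.add_re, Complex.intCast_re, add_comm]
    exact hn
  · rintro ⟨g, m, hm⟩ hg
    have hm' : (m : ℂ) = g := by simpa using hm
    subst hm'
    have hg' : α ≤ ((m : ℂ) + x).re ∧ ((m : ℂ) + x).re < α + 1 := hg
    rw [Complex.add_re, Complex.intCast_re, add_comm] at hg'
    have := hu m hg'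
    subst this
    rfl

theorem LSB_shift (G : ℂ → ℝ≥0∞) (hG : ∀ (z : ℂ) (m : ℤ), G ((m : ℂ) + z) = G z) (α : ℝ) :
    ∫⁻ z in LSB_vs α, G z = ∫⁻ z in LSB_vs 0, G z := by
  refine IsAddFundamentalDomain.setLIntegral_eq (LSB_fd α) (LSB_fd 0) G ?_
  rintro ⟨g, m, hm⟩ x
  have hm' : (m : ℂ) = g := by simpa using hm
  subst hm'
  exact hG x m

section
variable {N : ℕ} [Fact N.Prime]

theorem LSB_per (F : S2 N) (z w : ℍ) (m : ℤ) (h : (w : ℂ) = (m : ℂ) + (z : ℂ)) : F w = F z := by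
  have h1 := qex F z
  have h2 := qex F w
  have e : (fun n : ℕ => co F n * cexp (2 * Real.pi * Complex.I * n * (w : ℂ))) =
      (fun n : ℕ => co F n * cexp (2 * Real.pi * Complex.I * n * (z : ℂ))) := by
    funext n
    congr 1
    rw [h]
    have e1 : 2 * (Real.pi : ℂ) * Complex.I * n * ((m : ℂ) + (z : ℂ)) =
        2 * Real.pi * Complex.I * n * (z : ℂ) + ((n * m : ℤ) : ℂ) * (2 * Real.pi * Complex.I) := by
      push_cast; ring
    rw [e1, Complex.exp_add, Complex.exp_int_mul_two_pi_mul_I, mul_one]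
  rw [e] at h2
  exact h2.unique h1

/-- the strip integral of `F` in Lebesgue measure -/
theorem LSB_strip0 (F : S2 N) {R : ℝ} (hR : 0 < R) :
    ∫⁻ z in LSB_st 0 R, ‖F (UpperHalfPlane.ofComplex z)‖ₑ ^ 2 ≤
      ENNReal.ofReal ((1 + 4 * R / N) * nr F) := by
  refine le_trans (le_of_eq ?_) (strip_le F hR)
  have hmH : MeasurableSet {z : ℍ | 0 ≤ z.re ∧ z.re < 1 ∧ 1 / R ≤ z.im} := by
    have : {z : ℍ | 0 ≤ z.re ∧ z.re < 1 ∧ 1 / R ≤ z.im} =
        UpperHalfPlane.coe ⁻¹' (LSB_st 0 R) := by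
      ext z
      simp only [Set.mem_ofPred_eq, Set.mem_preimage, LSB_st, zero_add]
      rfl
    rw [this]
    exact measurableEmbedding_coe.measurable (LSB_st_meas 0 R)
  set H : ℂ → ℝ≥0∞ := (LSB_st 0 R).indicator (fun z => ‖F (UpperHalfPlane.ofComplex z)‖ₑ ^ 2 *
    ENNReal.ofReal (z.im ^ 2)) with hH
  have h1 : ∫⁻ z in {z : ℍ | 0 ≤ z.re ∧ z.re < 1 ∧ 1 / R ≤ z.im},
      ‖F z‖ₑ ^ 2 * ENNReal.ofReal (z.im ^ 2) = ∫⁻ w : ℍ, H (w : ℂ) := by
    rw [← lintegral_indicator hmH]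
    apply lintegral_congr
    intro w
    by_cases hw : w ∈ {z : ℍ | 0 ≤ z.re ∧ z.re < 1 ∧ 1 / R ≤ z.im}
    · have hw' : (w : ℂ) ∈ LSB_st 0 R := by
        simp only [Set.mem_ofPred_eq] at hw
        simp only [LSB_st, Set.mem_ofPred_eq, zero_add]
        exact hw
      rw [Set.indicator_of_mem hw, hH, Set.indicator_of_mem hw', UpperHalfPlane.ofComplex_apply]
      rfl
    · have hw' : (w : ℂ) ∉ LSB_st 0 R := by
        intro h
        apply hw
        simp only [LSB_st, Set.mem_ofPred_eq, zero_add] at h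
        exact h
      rw [Set.indicator_of_notMem hw, hH, Set.indicator_of_notMem hw']
  rw [h1, Pool.Agent.GL2.RSA_lint H, ← lintegral_indicator (LSB_st_meas 0 R),
    ← lintegral_indicator (isOpen_lt continuous_const Complex.continuous_im).measurableSet]
  apply lintegral_congr
  intro z
  by_cases hz : z ∈ LSB_st 0 R
  · have hpos : 0 < z.im := lt_of_lt_of_le (by positivity) hz.2.2
    have hz' : z ∈ {z : ℂ | 0 < z.im} := hpos
    rw [Set.indicator_of_mem hz, Set.indicator_of_mem hz', hH, Set.indicator_of_mem hz, mul_assoc,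
      ← ENNReal.ofReal_mul (by positivity)]
    have : z.im ^ 2 * (1 / z.im ^ 2) = 1 := by field_simp
    rw [this, ENNReal.ofReal_one, mul_one]
  · rw [Set.indicator_of_notMem hz]
    by_cases hz' : z ∈ {z : ℂ | 0 < z.im}
    · rw [Set.indicator_of_mem hz', hH, Set.indicator_of_notMem hz, zero_mul]
    · rw [Set.indicator_of_notMem hz']

theorem LSB_strip (F : S2 N) {R : ℝ} (hR : 0 < R) (α : ℝ) :
    ∫⁻ z in LSB_st α R, ‖F (UpperHalfPlane.ofComplex z)‖ₑ ^ 2 ≤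
      ENNReal.ofReal ((1 + 4 * R / N) * nr F) := by
  have hmT : MeasurableSet {z : ℂ | 1 / R ≤ z.im} :=
    measurableSet_le measurable_const Complex.measurable_im
  have key : ∀ β : ℝ, ∫⁻ z in LSB_st β R, ‖F (UpperHalfPlane.ofComplex z)‖ₑ ^ 2 =
      ∫⁻ z in LSB_vs β, {z : ℂ | 1 / R ≤ z.im}.indicator
        (fun z => ‖F (UpperHalfPlane.ofComplex z)‖ₑ ^ 2) z := by
    intro β
    rw [setLIntegral_indicator hmT]
    congr 2
    ext z
    simp only [LSB_st, LSB_vs, Set.mem_inter_iff, Set.mem_ofPred_eq]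
    tauto
  rw [key α, LSB_shift _ _ α, ← key 0]
  · exact LSB_strip0 F hR
  · intro z m
    by_cases hz : 1 / R ≤ z.im
    · have hpos : 0 < z.im := lt_of_lt_of_le (by positivity) hz
      have him : ((m : ℂ) + z).im = z.im := by simp
      have hz1 : ((m : ℂ) + z) ∈ {z : ℂ | 1 / R ≤ z.im} := by
        simp only [Set.mem_ofPred_eq, him]; exact hz
      have hz2 : z ∈ {z : ℂ | 1 / R ≤ z.im} := hz
      rw [Set.indicator_of_mem hz1, Set.indicator_of_mem hz2,
        UpperHalfPlane.ofComplex_apply_of_im_pos hpos,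
        UpperHalfPlane.ofComplex_apply_of_im_pos (him ▸ hpos : 0 < ((m : ℂ) + z).im)]
      rw [LSB_per F ⟨z, hpos⟩ ⟨(m : ℂ) + z, him ▸ hpos⟩ m rfl]
    · have him : ((m : ℂ) + z).im = z.im := by simp
      have hz1 : ((m : ℂ) + z) ∉ {z : ℂ | 1 / R ≤ z.im} := by
        simp only [Set.mem_ofPred_eq, him]; exact hz
      have hz2 : z ∉ {z : ℂ | 1 / R ≤ z.im} := hz
      rw [Set.indicator_of_notMem hz1, Set.indicator_of_notMem hz2]

omit [Fact N.Prime] in
theorem LSB_apply_sum {ι : Type} (s : Finset ι) (g : ι → S2 N) (w : ℍ) :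
    (∑ i ∈ s, g i) w = ∑ i ∈ s, g i w := by
  classical
  induction s using Finset.induction_on with
  | empty => rfl
  | insert a s ha ih =>
    rw [Finset.sum_insert ha, Finset.sum_insert ha, ← ih]
    rfl

theorem LSB_cont (F : S2 N) :
    ContinuousOn (fun z : ℂ => F (UpperHalfPlane.ofComplex z)) {z : ℂ | 0 < z.im} := by
  have h := fam_hol F OnePoint.infty
  rw [fam_inf] at h
  exact h.continuousOn

/-- the cut off function -/
noncomputable def LSB_u (F : S2 N) (α R : ℝ) : ℂ → ℂ :=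
  (LSB_st α R).indicator (fun z => F (UpperHalfPlane.ofComplex z))

theorem LSB_st_sub {α R : ℝ} (hR : 0 < R) : LSB_st α R ⊆ {z : ℂ | 0 < z.im} := fun _ hz =>
  lt_of_lt_of_le (by positivity) hz.2.2

theorem LSB_u_meas (F : S2 N) (α : ℝ) {R : ℝ} (hR : 0 < R) :
    AEStronglyMeasurable (LSB_u F α R) volume := by
  unfold LSB_u
  rw [aestronglyMeasurable_indicator_iff (LSB_st_meas α R)]
  exact ((LSB_cont F).mono (LSB_st_sub hR)).aestronglyMeasurable (LSB_st_meas α R)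

theorem LSB_u_sq (F : S2 N) (α : ℝ) {R : ℝ} (hR : 0 < R) :
    ∫⁻ z, ‖LSB_u F α R z‖ₑ ^ 2 ≤ ENNReal.ofReal ((1 + 4 * R / N) * nr F) := by
  refine le_trans (le_of_eq ?_) (LSB_strip F hR α)
  rw [← lintegral_indicator (LSB_st_meas α R)]
  apply lintegral_congr
  intro z
  by_cases hz : z ∈ LSB_st α R
  · rw [LSB_u, Set.indicator_of_mem hz, Set.indicator_of_mem hz]
  · rw [LSB_u, Set.indicator_of_notMem hz, Set.indicator_of_notMem hz]
    simp

theorem LSB_u_mem (F : S2 N) (α : ℝ) {R : ℝ} (hR : 0 < R) : MemLp (LSB_u F α R) 2 volume := by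
  refine ⟨LSB_u_meas F α hR, ?_⟩
  rw [eLpNorm_lt_top_iff_lintegral_rpow_enorm_lt_top (by norm_num) (by norm_num)]
  have e : ∀ z, ‖LSB_u F α R z‖ₑ ^ (2 : ℝ≥0∞).toReal = ‖LSB_u F α R z‖ₑ ^ 2 := by
    intro z
    rw [ENNReal.toReal_ofNat, ENNReal.rpow_ofNat]
  simp only [e]
  exact (LSB_u_sq F α hR).trans_lt ENNReal.ofReal_lt_top

/-- Cauchy-Schwarz -/
theorem LSB_cs (u : ℂ → ℂ) (hu : AEStronglyMeasurable u volume) (φ : ℂ → ℝ) (hφ : Measurable φ)
    (hφi : Integrable (fun z => φ z ^ 2)) {A : ℝ} (hA : 0 ≤ A)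
    (hu2 : ∫⁻ z, ‖u z‖ₑ ^ 2 ≤ ENNReal.ofReal A) :
    ‖∫ z : ℂ, u z * (φ z : ℂ)‖ ^ 2 ≤ A * ∫ z : ℂ, φ z ^ 2 := by
  have h1 : ‖∫ z : ℂ, u z * (φ z : ℂ)‖ₑ ≤ ∫⁻ z, ‖u z‖ₑ * ‖φ z‖ₑ := by
    refine (enorm_integral_le_lintegral_enorm _).trans (le_of_eq (lintegral_congr (fun z => ?_)))
    rw [enorm_mul]
    congr 1
    rw [← ofReal_norm, ← ofReal_norm, Complex.norm_real]
  have h2 := ENNReal.lintegral_mul_le_Lp_mul_Lq (volume : Measure ℂ) Real.HolderConjugate.two_two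
    (f := fun z => ‖u z‖ₑ) (g := fun z => ‖φ z‖ₑ) hu.enorm hφ.enorm.aemeasurable
  have h3 : ∫⁻ z, ‖φ z‖ₑ ^ 2 = ENNReal.ofReal (∫ z : ℂ, φ z ^ 2) := by
    rw [ofReal_integral_eq_lintegral_ofReal hφi (Eventually.of_forall (fun z => sq_nonneg _))]
    apply lintegral_congr
    intro z
    rw [← ofReal_norm, ← ENNReal.ofReal_pow (norm_nonneg _), Real.norm_eq_abs, sq_abs]
  have h4 : ‖∫ z : ℂ, u z * (φ z : ℂ)‖ₑ ^ 2 ≤
      ENNReal.ofReal A * ENNReal.ofReal (∫ z : ℂ, φ z ^ 2) := by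
    calc ‖∫ z : ℂ, u z * (φ z : ℂ)‖ₑ ^ 2
        ≤ ((∫⁻ z, ‖u z‖ₑ ^ (2 : ℝ)) ^ (1 / (2 : ℝ)) * (∫⁻ z, ‖φ z‖ₑ ^ (2 : ℝ)) ^ (1 / (2 : ℝ))) ^ 2 := by
          exact pow_le_pow_left' (h1.trans h2) 2
      _ = (∫⁻ z, ‖u z‖ₑ ^ 2) * ∫⁻ z, ‖φ z‖ₑ ^ 2 := by
          rw [mul_pow, ← ENNReal.rpow_natCast, ← ENNReal.rpow_natCast, ← ENNReal.rpow_mul,
            ← ENNReal.rpow_mul]
          norm_num
      _ ≤ _ := by
          rw [h3]
          exact mul_le_mul_left hu2 _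
  have hB : 0 ≤ ∫ z : ℂ, φ z ^ 2 := integral_nonneg (fun z => sq_nonneg _)
  rw [← ofReal_norm, ← ENNReal.ofReal_pow (norm_nonneg _), ← ENNReal.ofReal_mul hA,
    ENNReal.ofReal_le_ofReal_iff (by positivity)] at h4
  exact h4

end

theorem bessel_strip_pr {N : ℕ} [Fact N.Prime] {ι : Type} [Fintype ι]
    (f : ι → S2 N) (hf : ∀ i, f i ≠ 0) (ho : ∀ i j, i ≠ j → pet (f i) (f j) = 0)
    {R : ℝ} (hR : 0 < R) (α : ℝ) (φ : ℂ → ℝ) (hφ : Measurable φ) (hφi : Integrable (fun z => φ z ^ 2))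
    (hs : ∀ z : ℂ, φ z ≠ 0 → α ≤ z.re ∧ z.re < α + 1 ∧ 1 / R ≤ z.im) :
    ∑ i, 1 / nr (f i) * ‖∫ z : ℂ, f i (UpperHalfPlane.ofComplex z) * (φ z : ℂ)‖ ^ 2 ≤
      (1 + 4 * R / N) * ∫ z : ℂ, φ z ^ 2 := by
  have hnr : ∀ i, 0 < nr (f i) := fun i => nr_pos (hf i)
  set v : ι → ℂ := fun i => ∫ z : ℂ, f i (UpperHalfPlane.ofComplex z) * (φ z : ℂ) with hv
  set S : ℝ := ∑ i, 1 / nr (f i) * ‖v i‖ ^ 2 with hS
  have hS0 : 0 ≤ S := Finset.sum_nonneg (fun i _ => by have := hnr i; positivity)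
  set c : ι → ℂ := fun i => conj (v i) / (nr (f i) : ℂ) with hc
  set F : S2 N := ∑ i, c i • f i with hF
  have hnF : nr F = S := by
    rw [hF, LSD_nr_sum f ho c, hS]
    apply Finset.sum_congr rfl
    intro i _
    have h0 := (hnr i).ne'
    simp only [hc]
    rw [norm_div, RCLike.norm_conj, Complex.norm_real, Real.norm_of_nonneg (hnr i).le]
    field_simp
  have hcut : ∀ (G : S2 N) (z : ℂ), G (UpperHalfPlane.ofComplex z) * (φ z : ℂ) =
      LSB_u G α R z * (φ z : ℂ) := by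
    intro G z
    by_cases hz : φ z = 0
    · rw [hz]; simp
    · have hz' : z ∈ LSB_st α R := hs z hz
      rw [LSB_u, Set.indicator_of_mem hz']
  have hφ2 : MemLp φ 2 volume := (memLp_two_iff_integrable_sq hφ.aestronglyMeasurable).mpr hφi
  have hint : ∀ G : S2 N, Integrable (fun z : ℂ => G (UpperHalfPlane.ofComplex z) * (φ z : ℂ)) := by
    intro G
    have h1 : Integrable (fun z => LSB_u G α R z * (φ z : ℂ)) :=
      MemLp.integrable_mul (LSB_u_mem G α hR) hφ2.ofReal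
    exact h1.congr (Eventually.of_forall (fun z => (hcut G z).symm))
  have hSF : ((S : ℝ) : ℂ) = ∫ z : ℂ, LSB_u F α R z * (φ z : ℂ) := by
    have e2 : ((S : ℝ) : ℂ) = ∑ i, c i * v i := by
      rw [hS]
      push_cast
      apply Finset.sum_congr rfl
      intro i _
      simp only [hc]
      have h0 : (nr (f i) : ℂ) ≠ 0 := by exact_mod_cast (hnr i).ne'
      have h1 : conj (v i) * v i = ((‖v i‖ : ℝ) : ℂ) ^ 2 := by
        rw [mul_comm, Complex.mul_conj, Complex.normSq_eq_norm_sq]; push_cast; rfl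
      have h2 : conj (v i) / (nr (f i) : ℂ) * v i = conj (v i) * v i / (nr (f i) : ℂ) := by ring
      rw [h2, h1]
      ring
    have e3 : ∀ z : ℂ, LSB_u F α R z * (φ z : ℂ) =
        ∑ i, c i * (f i (UpperHalfPlane.ofComplex z) * (φ z : ℂ)) := by
      intro z
      rw [← hcut F z, hF, LSB_apply_sum, Finset.sum_mul]
      apply Finset.sum_congr rfl
      intro i _
      have : (c i • f i) (UpperHalfPlane.ofComplex z) = c i * f i (UpperHalfPlane.ofComplex z) := rfl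
      rw [this, mul_assoc]
    rw [e2, integral_congr_ae (Eventually.of_forall e3), integral_finsetSum]
    · apply Finset.sum_congr rfl
      intro i _
      rw [integral_const_mul]
    · intro i _
      exact (hint (f i)).const_mul _
  have hA0 : (0 : ℝ) ≤ 1 + 4 * R / N := by positivity
  have hAS : 0 ≤ (1 + 4 * R / N) * S := mul_nonneg hA0 hS0
  have hcs := LSB_cs (LSB_u F α R) (LSB_u_meas F α hR) φ hφ hφi hAS
    (by rw [← hnF]; exact LSB_u_sq F α hR)
  rw [← hSF, Complex.norm_real, Real.norm_of_nonneg hS0] at hcs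
  have hB : 0 ≤ ∫ z : ℂ, φ z ^ 2 := integral_nonneg (fun z => sq_nonneg _)
  generalize (∫ z : ℂ, φ z ^ 2) = B at hB hcs ⊢
  generalize S = T at hS0 hcs ⊢
  have hcs2 : T ^ 2 ≤ B * ((1 + 4 * R / N) * T) := hcs.trans (le_of_eq (mul_comm _ _))
  exact LSD_dual hS0 hA0 hB hcs2

/-- the weighted exponential sum -/
theorem LSB_exp {N : ℕ} [Fact N.Prime] {F : S2 N} (hF : F ≠ 0) (M : ℕ) {t : ℝ} (ht : 0 < t) :
    ∑ n ∈ Finset.Icc 1 M, ‖co F n‖ ^ 2 / (4 * Real.pi * n) * Real.exp (-(t * (n / N))) ≤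
      (1 + 16 * Real.pi / t) * nr F := by
  have hN : (0 : ℝ) < N := by exact_mod_cast (Fact.out : N.Prime).pos
  have hnr := nr_pos hF
  set R : ℝ := 4 * Real.pi * N / t with hR
  have hR0 : 0 < R := by positivity
  have hy : (0 : ℝ) < 1 / R := by positivity
  obtain ⟨hsum, hint⟩ := strip_sum F hy
  have h1 := strip_le F hR0
  rw [hint, ENNReal.ofReal_le_ofReal_iff (by positivity)] at h1
  have h2 : (1 + 4 * R / N) = 1 + 16 * Real.pi / t := by
    rw [hR]; field_simp; ring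
  rw [h2] at h1
  refine le_trans ?_ h1
  refine le_trans (le_of_eq ?_) (hsum.sum_le_tsum (Finset.Icc 1 M) (fun n _ => by positivity))
  apply Finset.sum_congr rfl
  intro n _
  congr 2
  rw [hR]
  field_simp

theorem LSB_gamma {a : ℝ} (ha : 0 < a) :
    IntegrableOn (fun t : ℝ => t * Real.exp (-(t * a))) (Set.Ioi 0) ∧
    ∫ t in Set.Ioi (0 : ℝ), t * Real.exp (-(t * a)) = 1 / a ^ 2 := by
  constructor
  · have h := integrableOn_rpow_mul_exp_neg_mul_rpow (p := 1) (s := 1) (b := a) (by norm_num)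
      one_pos ha
    refine h.congr_fun (fun t _ => ?_) measurableSet_Ioi
    simp only [Real.rpow_one]
    congr 2
    ring
  · have h := Real.integral_rpow_mul_exp_neg_mul_Ioi (a := 2) (r := a) (by norm_num) ha
    have e : ∫ t in Set.Ioi (0 : ℝ), t * Real.exp (-(t * a)) =
        ∫ t in Set.Ioi (0 : ℝ), t ^ ((2 : ℝ) - 1) * Real.exp (-(a * t)) := by
      apply setIntegral_congr_fun measurableSet_Ioi
      intro t _
      have e2 : (2 : ℝ) - 1 = 1 := by norm_num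
      simp only [e2, Real.rpow_one]
      congr 3
      ring
    rw [e, h, Real.Gamma_two, mul_one, Real.rpow_two]
    field_simp

theorem LSB_exp_int : IntegrableOn (fun t : ℝ => Real.exp (-t)) (Set.Ioi 0) ∧
    ∫ t in Set.Ioi (0 : ℝ), Real.exp (-t) = 1 :=
  ⟨integrableOn_exp_neg_Ioi 0, integral_exp_neg_Ioi_zero⟩

/-- the weighted bound of the coefficients -/
theorem LSB_weight {N : ℕ} [Fact N.Prime] {F : S2 N} (hF : F ≠ 0) (M : ℕ) :
    ∑ n ∈ Finset.Icc 1 M, (‖co F n‖ / (Real.sqrt n * (1 + (n : ℝ) / N))) ^ 2 ≤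
      (4 * Real.pi * (1 + 16 * Real.pi)) * nr F := by
  have hN : (0 : ℝ) < N := by exact_mod_cast (Fact.out : N.Prime).pos
  have hnr := nr_pos hF
  have hpi := Real.pi_pos
  have h1 : ∀ n : ℕ, (0 : ℝ) < 1 + (n : ℝ) / N := fun n => by positivity
  have hL : ∫ t in Set.Ioi (0 : ℝ), ∑ n ∈ Finset.Icc 1 M, ‖co F n‖ ^ 2 / (4 * Real.pi * n) *
      (t * Real.exp (-(t * (1 + (n : ℝ) / N)))) =
      ∑ n ∈ Finset.Icc 1 M, ‖co F n‖ ^ 2 / (4 * Real.pi * n) * (1 / (1 + (n : ℝ) / N) ^ 2) := by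
    rw [integral_finsetSum]
    · apply Finset.sum_congr rfl
      intro n _
      rw [integral_const_mul, (LSB_gamma (h1 n)).2]
    · intro n _
      exact (LSB_gamma (h1 n)).1.const_mul _
  have g1 := LSB_gamma (a := 1) one_pos
  have g2 := LSB_exp_int
  have hRint : IntegrableOn (fun t : ℝ => nr F * (t * Real.exp (-(t * 1))) +
      16 * Real.pi * nr F * Real.exp (-t)) (Set.Ioi 0) :=
    (g1.1.const_mul _).add (g2.1.const_mul _)
  have hR : ∫ t in Set.Ioi (0 : ℝ), (nr F * (t * Real.exp (-(t * 1))) +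
      16 * Real.pi * nr F * Real.exp (-t)) = (1 + 16 * Real.pi) * nr F := by
    rw [integral_add (g1.1.const_mul _) (g2.1.const_mul _), integral_const_mul, integral_const_mul,
      g1.2, g2.2]
    ring
  have hle : ∫ t in Set.Ioi (0 : ℝ), ∑ n ∈ Finset.Icc 1 M, ‖co F n‖ ^ 2 / (4 * Real.pi * n) *
      (t * Real.exp (-(t * (1 + (n : ℝ) / N)))) ≤ ∫ t in Set.Ioi (0 : ℝ),
      (nr F * (t * Real.exp (-(t * 1))) + 16 * Real.pi * nr F * Real.exp (-t)) := by
    apply setIntegral_mono_on _ hRint measurableSet_Ioi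
    · intro t ht
      have ht0 : 0 < t := ht
      have h2 := LSB_exp hF M ht0
      have e1 : ∑ n ∈ Finset.Icc 1 M, ‖co F n‖ ^ 2 / (4 * Real.pi * n) *
          (t * Real.exp (-(t * (1 + (n : ℝ) / N)))) =
          (t * Real.exp (-t)) * ∑ n ∈ Finset.Icc 1 M, ‖co F n‖ ^ 2 / (4 * Real.pi * n) *
            Real.exp (-(t * (n / N))) := by
        rw [Finset.mul_sum]
        apply Finset.sum_congr rfl
        intro n _
        have e2 : -(t * (1 + (n : ℝ) / N)) = -t + -(t * (n / N)) := by ring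
        rw [e2, Real.exp_add]
        ring
      rw [e1]
      calc (t * Real.exp (-t)) * ∑ n ∈ Finset.Icc 1 M, ‖co F n‖ ^ 2 / (4 * Real.pi * n) *
            Real.exp (-(t * (n / N))) ≤ (t * Real.exp (-t)) * ((1 + 16 * Real.pi / t) * nr F) :=
          mul_le_mul_of_nonneg_left h2 (by positivity)
        _ = nr F * (t * Real.exp (-(t * 1))) + 16 * Real.pi * nr F * Real.exp (-t) := by
          rw [mul_one]; field_simp
    · apply integrable_finsetSum
      intro n _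
      exact (LSB_gamma (h1 n)).1.const_mul _
  rw [hL, hR] at hle
  have e3 : ∑ n ∈ Finset.Icc 1 M, (‖co F n‖ / (Real.sqrt n * (1 + (n : ℝ) / N))) ^ 2 =
      (4 * Real.pi) * ∑ n ∈ Finset.Icc 1 M, ‖co F n‖ ^ 2 / (4 * Real.pi * n) *
        (1 / (1 + (n : ℝ) / N) ^ 2) := by
    rw [Finset.mul_sum]
    apply Finset.sum_congr rfl
    intro n hn
    have hn1 : (0 : ℝ) < n := by exact_mod_cast (Finset.mem_Icc.mp hn).1
    have h2 := (h1 n).ne'
    rw [div_pow, mul_pow, Real.sq_sqrt hn1.le]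
    field_simp
  rw [e3]
  calc (4 * Real.pi) * ∑ n ∈ Finset.Icc 1 M, ‖co F n‖ ^ 2 / (4 * Real.pi * n) *
        (1 / (1 + (n : ℝ) / N) ^ 2) ≤ (4 * Real.pi) * ((1 + 16 * Real.pi) * nr F) :=
      mul_le_mul_of_nonneg_left hle (by positivity)
    _ = _ := by ring

/-- the finite version of `ls_inf` -/
theorem LSB_fin {N : ℕ} [Fact N.Prime] {ι : Type} [Fintype ι]
    (f : ι → S2 N) (hf : ∀ i, f i ≠ 0) (ho : ∀ i j, i ≠ j → pet (f i) (f j) = 0) (g : ℕ → ℝ) (M : ℕ) :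
    ∑ i, 1 / nr (f i) * ‖∑ n ∈ Finset.Icc 1 M, (g n : ℂ) * (co (f i) n / (Real.sqrt n : ℂ))‖ ^ 2 ≤
      (4 * Real.pi * (1 + 16 * Real.pi)) *
        ∑ n ∈ Finset.Icc 1 M, g n ^ 2 * (1 + (n : ℝ) / N) ^ 2 := by
  have hN : (0 : ℝ) < N := by exact_mod_cast (Fact.out : N.Prime).pos
  have hpi := Real.pi_pos
  have hnr : ∀ i, 0 < nr (f i) := fun i => nr_pos (hf i)
  set v : ι → ℂ := fun i => ∑ n ∈ Finset.Icc 1 M, (g n : ℂ) * (co (f i) n / (Real.sqrt n : ℂ))
    with hv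
  set S : ℝ := ∑ i, 1 / nr (f i) * ‖v i‖ ^ 2 with hS
  have hS0 : 0 ≤ S := Finset.sum_nonneg (fun i _ => by have := hnr i; positivity)
  set c : ι → ℂ := fun i => conj (v i) / (nr (f i) : ℂ) with hc
  set F : S2 N := ∑ i, c i • f i with hF
  have hnF : nr F = S := by
    rw [hF, LSD_nr_sum f ho c, hS]
    apply Finset.sum_congr rfl
    intro i _
    have h0 := (hnr i).ne'
    simp only [hc]
    rw [norm_div, RCLike.norm_conj, Complex.norm_real, Real.norm_of_nonneg (hnr i).le]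
    field_simp
  have hB0 : 0 ≤ ∑ n ∈ Finset.Icc 1 M, g n ^ 2 * (1 + (n : ℝ) / N) ^ 2 :=
    Finset.sum_nonneg (fun n _ => by positivity)
  by_cases hF0 : F = 0
  · have : S = 0 := by
      rw [← hnF, hF0]
      have h1 := pet_self (0 : S2 N)
      rw [LSD_pet_zero] at h1
      exact_mod_cast h1.symm
    rw [this]
    exact mul_nonneg (by positivity) hB0
  have hSF : ((S : ℝ) : ℂ) = ∑ n ∈ Finset.Icc 1 M, (g n : ℂ) * (co F n / (Real.sqrt n : ℂ)) := by
    have e1 : ∀ n, co F n = ∑ i, c i * co (f i) n := by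
      intro n
      rw [hF, LSD_co_sum]
      exact Finset.sum_congr rfl (fun i _ => co_smul _ _ _)
    have e2 : ((S : ℝ) : ℂ) = ∑ i, c i * v i := by
      rw [hS]
      push_cast
      apply Finset.sum_congr rfl
      intro i _
      simp only [hc]
      have h0 : (nr (f i) : ℂ) ≠ 0 := by exact_mod_cast (hnr i).ne'
      have h1 : conj (v i) * v i = ((‖v i‖ : ℝ) : ℂ) ^ 2 := by
        rw [mul_comm, Complex.mul_conj, Complex.normSq_eq_norm_sq]; push_cast; rfl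
      have h2 : conj (v i) / (nr (f i) : ℂ) * v i = conj (v i) * v i / (nr (f i) : ℂ) := by ring
      rw [h2, h1]
      ring
    rw [e2]
    simp only [hv, Finset.mul_sum]
    rw [Finset.sum_comm]
    apply Finset.sum_congr rfl
    intro n _
    rw [e1 n, Finset.sum_div, Finset.mul_sum]
    apply Finset.sum_congr rfl
    intro i _
    ring
  have hW := LSB_weight hF0 M
  rw [hnF] at hW
  have hCS : S ^ 2 ≤ (∑ n ∈ Finset.Icc 1 M, g n ^ 2 * (1 + (n : ℝ) / N) ^ 2) *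
      ((4 * Real.pi * (1 + 16 * Real.pi)) * S) := by
    have h1 : S ≤ ∑ n ∈ Finset.Icc 1 M, (|g n| * (1 + (n : ℝ) / N)) *
        (‖co F n‖ / (Real.sqrt n * (1 + (n : ℝ) / N))) := by
      have h2 : S = ‖((S : ℝ) : ℂ)‖ := by
        rw [Complex.norm_real, Real.norm_of_nonneg hS0]
      rw [h2, hSF]
      refine (norm_sum_le _ _).trans (Finset.sum_le_sum (fun n _ => ?_))
      rw [norm_mul, norm_div, Complex.norm_real, Complex.norm_real,
        Real.norm_of_nonneg (Real.sqrt_nonneg _), Real.norm_eq_abs]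
      have h3 : (1 + (n : ℝ) / N) ≠ 0 := by positivity
      apply le_of_eq
      rw [mul_assoc, ← mul_div_assoc (1 + (n : ℝ) / N), mul_comm (1 + (n : ℝ) / N) ‖co F n‖,
        mul_div_mul_right _ _ h3]
    have h3 := Finset.sum_mul_sq_le_sq_mul_sq (Finset.Icc 1 M) (fun n => |g n| * (1 + (n : ℝ) / N))
      (fun n => ‖co F n‖ / (Real.sqrt n * (1 + (n : ℝ) / N)))
    have h4 : ∑ n ∈ Finset.Icc 1 M, (|g n| * (1 + (n : ℝ) / N)) ^ 2 =
        ∑ n ∈ Finset.Icc 1 M, g n ^ 2 * (1 + (n : ℝ) / N) ^ 2 := by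
      apply Finset.sum_congr rfl
      intro n _
      rw [mul_pow, sq_abs]
    calc S ^ 2 ≤ (∑ n ∈ Finset.Icc 1 M, (|g n| * (1 + (n : ℝ) / N)) *
        (‖co F n‖ / (Real.sqrt n * (1 + (n : ℝ) / N)))) ^ 2 := pow_le_pow_left₀ hS0 h1 2
      _ ≤ _ := h3
      _ ≤ _ := by
          rw [h4]
          exact mul_le_mul_of_nonneg_left hW hB0
  generalize (∑ n ∈ Finset.Icc 1 M, g n ^ 2 * (1 + (n : ℝ) / N) ^ 2) = B at hB0 hCS ⊢
  generalize S = T at hS0 hCS ⊢
  exact LSD_dual hS0 (by positivity) hB0 hCS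

theorem ls_inf_pr : ∃ C : ℝ, 0 < C ∧ ∀ (N : ℕ) [Fact N.Prime] {ι : Type} [Fintype ι]
    (f : ι → S2 N), (∀ i, f i ≠ 0) → (∀ i j, i ≠ j → pet (f i) (f j) = 0) →
    ∀ (g : ℕ → ℝ), Summable (fun n : ℕ => g n ^ 2 * (1 + (n : ℝ)) ^ 4) →
      ∑ i, 1 / nr (f i) * ‖∑' n : ℕ, (g n : ℂ) * (co (f i) n / (Real.sqrt n : ℂ))‖ ^ 2 ≤
        C * ∑' n : ℕ, g n ^ 2 * (1 + (n : ℝ) / N) ^ 2 := by
  refine ⟨4 * Real.pi * (1 + 16 * Real.pi), by positivity, ?_⟩
  intro N _ ι _ f hf ho g hg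
  have hN1 : (1 : ℝ) ≤ N := by exact_mod_cast (Fact.out : N.Prime).one_le
  have hN : (0 : ℝ) < N := by linarith
  -- summability of the right side
  have hR : Summable (fun n : ℕ => g n ^ 2 * (1 + (n : ℝ) / N) ^ 2) := by
    refine Summable.of_nonneg_of_le (fun n => by positivity) (fun n => ?_) hg
    apply mul_le_mul_of_nonneg_left _ (sq_nonneg _)
    have h1 : (n : ℝ) / N ≤ n := div_le_self (Nat.cast_nonneg n) hN1
    have h2 : (0 : ℝ) ≤ (n : ℝ) / N := by positivity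
    calc (1 + (n : ℝ) / N) ^ 2 ≤ (1 + (n : ℝ)) ^ 2 := by
          apply pow_le_pow_left₀ (by positivity); linarith
      _ ≤ (1 + (n : ℝ)) ^ 4 := by
          apply pow_le_pow_right₀ _ (by norm_num)
          have : (0 : ℝ) ≤ n := Nat.cast_nonneg n
          linarith
  -- summability of the left side
  have hL : ∀ i, Summable (fun n : ℕ => (g n : ℂ) * (co (f i) n / (Real.sqrt n : ℂ))) := by
    intro i
    obtain ⟨C, hC⟩ := co_bound (f i)
    have hC0 : 0 ≤ C := by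
      have := (norm_nonneg _).trans (hC 1)
      simpa using this
    have hz : Summable (fun n : ℕ => 1 / ((n : ℝ) + 1) ^ 2) := by
      have h1 := (summable_nat_add_iff 1).mpr (Real.summable_one_div_nat_pow.mpr (by norm_num : 1 < 2))
      simpa using h1
    refine Summable.of_norm_bounded (g := fun n : ℕ => C * (g n ^ 2 * (1 + (n : ℝ)) ^ 4 +
      1 / ((n : ℝ) + 1) ^ 2)) ((hg.add hz).mul_left C) (fun n => ?_)
    rw [norm_mul, norm_div, Complex.norm_real, Complex.norm_real,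
      Real.norm_of_nonneg (Real.sqrt_nonneg _), Real.norm_eq_abs]
    have hn0 : (0 : ℝ) ≤ n := Nat.cast_nonneg n
    have h1 : ‖co (f i) n‖ / Real.sqrt n ≤ C * Real.sqrt n := by
      rcases hn0.eq_or_lt with h0 | h0
      · rw [← h0]; simp
      · rw [div_le_iff₀ (Real.sqrt_pos.mpr h0), mul_assoc, Real.mul_self_sqrt hn0]
        exact hC n
    have h2 : |g n| * Real.sqrt n ≤ g n ^ 2 * (1 + (n : ℝ)) ^ 4 + 1 / ((n : ℝ) + 1) ^ 2 := by
      have h3 : (0 : ℝ) < 1 + n := by linarith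
      have h4 : Real.sqrt n ≤ 1 + n := by
        rw [Real.sqrt_le_left h3.le]
        nlinarith
      have h5 : |g n| * Real.sqrt n ≤ |g n| * (1 + n) := mul_le_mul_of_nonneg_left h4 (abs_nonneg _)
      have h6 : 2 * ((|g n| * (1 + (n : ℝ)) ^ 2) * (1 / (1 + (n : ℝ)))) ≤
          (|g n| * (1 + (n : ℝ)) ^ 2) ^ 2 + (1 / (1 + (n : ℝ))) ^ 2 := by
        have := two_mul_le_add_sq (|g n| * (1 + (n : ℝ)) ^ 2) (1 / (1 + (n : ℝ)))
        linarith
      have h7 : (|g n| * (1 + (n : ℝ)) ^ 2) * (1 / (1 + (n : ℝ))) = |g n| * (1 + n) := by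
        field_simp
      have h8 : (|g n| * (1 + (n : ℝ)) ^ 2) ^ 2 = g n ^ 2 * (1 + (n : ℝ)) ^ 4 := by
        rw [mul_pow, sq_abs, ← pow_mul]
      have h9 : (1 / (1 + (n : ℝ))) ^ 2 = 1 / ((n : ℝ) + 1) ^ 2 := by
        rw [div_pow, one_pow, add_comm]
      rw [h7, h8, h9] at h6
      have h10 : 0 ≤ |g n| * (1 + (n : ℝ)) := by positivity
      linarith
    calc |g n| * (‖co (f i) n‖ / Real.sqrt n) ≤ |g n| * (C * Real.sqrt n) :=
          mul_le_mul_of_nonneg_left h1 (abs_nonneg _)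
      _ = C * (|g n| * Real.sqrt n) := by ring
      _ ≤ _ := mul_le_mul_of_nonneg_left h2 hC0
  -- the limit
  have hlim : ∀ i, Tendsto (fun M : ℕ => ∑ n ∈ Finset.Icc 1 M,
      (g n : ℂ) * (co (f i) n / (Real.sqrt n : ℂ))) atTop
      (𝓝 (∑' n : ℕ, (g n : ℂ) * (co (f i) n / (Real.sqrt n : ℂ)))) := by
    intro i
    have h1 := ((hL i).hasSum.tendsto_sum_nat).comp (tendsto_add_atTop_nat 1)
    refine h1.congr (fun M => ?_)
    have h2 : Finset.range (M + 1) = insert 0 (Finset.Icc 1 M) := by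
      ext k; simp only [Finset.mem_range, Finset.mem_insert, Finset.mem_Icc]; omega
    rw [Function.comp_apply, h2, Finset.sum_insert (by simp)]
    simp
  have hT : Tendsto (fun M : ℕ => ∑ i, 1 / nr (f i) * ‖∑ n ∈ Finset.Icc 1 M,
      (g n : ℂ) * (co (f i) n / (Real.sqrt n : ℂ))‖ ^ 2) atTop
      (𝓝 (∑ i, 1 / nr (f i) * ‖∑' n : ℕ, (g n : ℂ) * (co (f i) n / (Real.sqrt n : ℂ))‖ ^ 2)) :=
    tendsto_finsetSum _ (fun i _ => ((hlim i).norm.pow 2).const_mul _)
  refine le_of_tendsto hT (Eventually.of_forall (fun M => ?_))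
  refine (LSB_fin f hf ho g M).trans ?_
  apply mul_le_mul_of_nonneg_left _ (by positivity)
  exact hR.sum_le_tsum _ (fun n _ => by positivity)

theorem bessel_strip : type_of% @bessel_strip_pr := @bessel_strip_pr
theorem ls_inf : type_of% @ls_inf_pr := @ls_inf_pr

end Pool.Agent.LEV
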