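import Pool.Agent.Lib_helper68.LEV.DefsC
import Pool.Agent.Lib_helper68.LEV.EIA
import Pool.Agent.Lib_helper68.LEV.FAM
import Pool.Agent.Lib_helper68.LEV.FRK
import Pool.Agent.Lib_helper68.LEV.QEX

/-! Block GID: folding of the vertical geodesics. -/

namespace Pool.Agent.LEV

open Complex MeasureTheory Filter Topology UpperHalfPlane ModularGroup
open scoped MatrixGroups Modular ENNReal ModularForm ComplexConjugate ContDiff

section
variable {N : ℕ} [Fact N.Prime]

theorem GID_im (x v : ℝ) : ((x : ℂ) + (v : ℂ) * Complex.I).im = v := by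
  simp

theorem GID_ev (f : S2 N) (x : ℝ) {v : ℝ} (hv : 0 < v) :
    ev f x v = f ⟨(x : ℂ) + (v : ℂ) * Complex.I, by rw [GID_im]; exact hv⟩ := by
  unfold ev
  rw [UpperHalfPlane.ofComplex_apply_of_im_pos]

theorem GID_cont (f : S2 N) (x : ℝ) : ContinuousOn (fun v : ℝ => ev f x v) (Set.Ioi 0) := by
  have hf : Continuous (f : ℍ → ℂ) := by
    have h := fam_cont f OnePoint.infty
    rwa [fam_inf] at h
  have h1 : ContinuousOn (fun v : ℝ => UpperHalfPlane.ofComplex ((x : ℂ) + (v : ℂ) * Complex.I))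
      (Set.Ioi 0) := by
    intro v hv
    apply ContinuousAt.continuousWithinAt
    have h2 : ContinuousAt (UpperHalfPlane.ofComplex) ((x : ℂ) + (v : ℂ) * Complex.I) := by
      have h3 : 0 < ((x : ℂ) + (v : ℂ) * Complex.I).im := by
        rw [GID_im]
        exact hv
      exact (UpperHalfPlane.mdifferentiableAt_ofComplex h3).continuousAt
    have h4 : ContinuousAt (fun v : ℝ => (x : ℂ) + (v : ℂ) * Complex.I) v := by fun_prop
    exact ContinuousAt.comp (f := fun v : ℝ => (x : ℂ) + (v : ℂ) * Complex.I) h2 h4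
  exact hf.comp_continuousOn h1

/-- exponential decay and integrability away from zero -/
theorem GID_int (f : S2 N) (x : ℝ) {c : ℝ} (hc : 0 < c) :
    IntegrableOn (fun v : ℝ => ev f x v) (Set.Ioi c) := by
  have h1 : (1 : ℝ) ∈ (G0 N).strictPeriods := by
    simp [CongruenceSubgroup.strictPeriods_Gamma0]
  have ho := CuspFormClass.exp_decay_atImInfty (h := 1) f one_pos h1
  have ht : Tendsto (fun v : ℝ => UpperHalfPlane.ofComplex ((x : ℂ) + (v : ℂ) * Complex.I)) atTop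
      UpperHalfPlane.atImInfty := by
    rw [UpperHalfPlane.atImInfty, tendsto_comap_iff]
    refine tendsto_id.congr' ?_
    filter_upwards [eventually_gt_atTop 0] with t ht
    have h3 : 0 < ((x : ℂ) + (t : ℂ) * Complex.I).im := by
      rw [GID_im]
      exact ht
    rw [Function.comp_apply, UpperHalfPlane.ofComplex_apply_of_im_pos h3]
    show t = ((x : ℂ) + (t : ℂ) * Complex.I).im
    rw [GID_im]
  have ho2 := ho.comp_tendsto ht
  have ho3 : (fun v : ℝ => ev f x v) =O[atTop] fun v : ℝ => Real.exp (-(2 * Real.pi) * v) := by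
    refine ho2.trans (EventuallyEq.isBigO ?_)
    filter_upwards [eventually_gt_atTop 0] with t ht
    have h3 : 0 < ((x : ℂ) + (t : ℂ) * Complex.I).im := by
      rw [GID_im]
      exact ht
    rw [Function.comp_apply, UpperHalfPlane.ofComplex_apply_of_im_pos h3]
    congr 1
    show -2 * Real.pi * ((x : ℂ) + (t : ℂ) * Complex.I).im / 1 = _
    rw [GID_im]
    ring
  have hcont : ContinuousOn (fun v : ℝ => ev f x v) (Set.Ici c) :=
    (GID_cont f x).mono (fun v hv => lt_of_lt_of_le hc hv)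
  exact (integrableOn_Ici_iff_integrableOn_Ioi (by finiteness)).mp <|
    (hcont.locallyIntegrableOn measurableSet_Ici).integrableOn_of_isBigO_atTop
    ho3 ⟨Set.Ioi c, Ioi_mem_atTop c, exp_neg_integrableOn_Ioi c (by positivity)⟩

/-- periodicity -/
theorem GID_per (f : S2 N) (x : ℝ) (n : ℤ) {v : ℝ} (hv : 0 < v) : ev f (x + n) v = ev f x v := by
  have h1 : 0 < ((x : ℂ) + (v : ℂ) * Complex.I).im := by
    rw [GID_im]
    exact hv
  have e1 := qex f (⟨(x : ℂ) + (v : ℂ) * Complex.I, h1⟩ : ℍ)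
  have h2 : 0 < (((x + n : ℝ) : ℂ) + (v : ℂ) * Complex.I).im := by
    rw [GID_im]
    exact hv
  have e2 := qex f (⟨((x + n : ℝ) : ℂ) + (v : ℂ) * Complex.I, h2⟩ : ℍ)
  rw [GID_ev f _ hv, GID_ev f _ hv]
  have h3 : (fun n' : ℕ => co f n' * cexp (2 * Real.pi * Complex.I * n' *
      ((⟨((x + n : ℝ) : ℂ) + (v : ℂ) * Complex.I, h2⟩ : ℍ) : ℂ))) =
      (fun n' : ℕ => co f n' * cexp (2 * Real.pi * Complex.I * n' *
      ((⟨(x : ℂ) + (v : ℂ) * Complex.I, h1⟩ : ℍ) : ℂ))) := by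
    funext n'
    congr 1
    have h4 : 2 * (Real.pi : ℂ) * Complex.I * n' *
        ((⟨((x + n : ℝ) : ℂ) + (v : ℂ) * Complex.I, h2⟩ : ℍ) : ℂ) =
        2 * (Real.pi : ℂ) * Complex.I * n' * ((⟨(x : ℂ) + (v : ℂ) * Complex.I, h1⟩ : ℍ) : ℂ) +
          ((n' * n : ℤ) : ℂ) * (2 * Real.pi * Complex.I) := by
      show 2 * (Real.pi : ℂ) * Complex.I * n' * (((x + n : ℝ) : ℂ) + (v : ℂ) * Complex.I) =
        2 * (Real.pi : ℂ) * Complex.I * n' * ((x : ℂ) + (v : ℂ) * Complex.I) + _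
      push_cast
      ring
    rw [h4, Complex.exp_add, Complex.exp_int_mul_two_pi_mul_I, mul_one]
  rw [h3] at e2
  exact HasSum.unique e2 e1

/-- the transformation formula -/
theorem GID_trans {f : S2 N} (hf : IsNew f) (h1 : co f N = 1) {e j α : ℕ} (he : 0 < e)
    (hα : ∃ b : ℤ, (N : ℤ) * α * j + 1 = e * b) {u : ℝ} (hu : 0 < u) :
    ev f ((α : ℝ) / e) u = ((N : ℂ) * (e : ℂ) ^ 2 * (u : ℂ) ^ 2)⁻¹ *
      ev f ((j : ℝ) / e) (1 / (N * (e : ℝ) ^ 2 * u)) := by
  obtain ⟨b, hb⟩ := hα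
  have hN : (0 : ℝ) < N := by exact_mod_cast (Fact.out : N.Prime).pos
  have heR : (0 : ℝ) < e := by exact_mod_cast he
  obtain ⟨W, hW⟩ := fricke_exists (N := N)
  have hWf : W f = -f := by
    rw [(new_fricke hf hW).1, h1]
    simp
  set v : ℝ := 1 / (N * (e : ℝ) ^ 2 * u) with hv_def
  have hv : 0 < v := by positivity
  have hzim : 0 < (((((j : ℝ) / e : ℝ)) : ℂ) + (v : ℂ) * Complex.I).im := by
    rw [GID_im]
    exact hv
  set z : ℍ := ⟨((((j : ℝ) / e : ℝ)) : ℂ) + (v : ℂ) * Complex.I, hzim⟩ with hz_def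
  have hzc : (z : ℂ) = ((((j : ℝ) / e : ℝ)) : ℂ) + (v : ℂ) * Complex.I := rfl
  -- the matrix
  have hdet : (e : ℤ) * b - (-(j : ℤ)) * (-((N : ℤ) * α)) = 1 := by
    rw [← hb]
    ring
  set g : SL(2, ℤ) := ⟨!![(e : ℤ), -(j : ℤ); -((N : ℤ) * α), b], by
    rw [Matrix.det_fin_two_of]
    exact hdet⟩ with hg_def
  have g00 : g 0 0 = (e : ℤ) := rfl
  have g01 : g 0 1 = -(j : ℤ) := rfl
  have g10 : g 1 0 = -((N : ℤ) * α) := rfl
  have g11 : g 1 1 = b := rfl
  have hg0 : g ∈ CongruenceSubgroup.Gamma0 N := by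
    rw [CongruenceSubgroup.Gamma0_mem, g10]
    push_cast
    simp
  -- equivariance
  have heq := fam_equi f g OnePoint.infty z
  rw [(pa_inf_iff g).mpr hg0, fam_inf] at heq
  have hfr := hW f (g • z)
  rw [hWf] at hfr
  have hneg : (-f : S2 N) (g • z) = -(f (g • z)) := rfl
  rw [hneg, heq] at hfr
  -- the points
  have hjd : jd g z = (b : ℂ) - (N : ℂ) * α * z := by
    unfold jd
    rw [g10, g11]
    push_cast
    ring
  have hgz : ((g • z : ℍ) : ℂ) = ((e : ℂ) * z - j) / jd g z := by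
    rw [Pool.Agent.GL2.RSA_coe_smul, g00, g01]
    unfold jd
    push_cast
    ring
  have hjd0 : jd g z ≠ 0 := Pool.Agent.GL2.RSA_denom_ne g z
  have heC : (e : ℂ) ≠ 0 := by exact_mod_cast he.ne'
  have hNC : (N : ℂ) ≠ 0 := by exact_mod_cast hN.ne'
  have huC : (u : ℂ) ≠ 0 := by exact_mod_cast hu.ne'
  have hvC : (v : ℂ) = 1 / ((N : ℂ) * (e : ℂ) ^ 2 * (u : ℂ)) := by
    rw [hv_def]
    push_cast
    ring
  have hezj : (e : ℂ) * z - j = (e : ℂ) * (v : ℂ) * Complex.I := by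
    rw [hzc]
    push_cast
    have : (e : ℂ) ≠ 0 := by exact_mod_cast he.ne'
    field_simp
    ring
  have hwz : wz N (g • z) = ⟨((((α : ℝ) / e : ℝ)) : ℂ) + (u : ℂ) * Complex.I, by
      rw [GID_im]; exact hu⟩ := by
    apply UpperHalfPlane.ext
    show -1 / ((N : ℂ) * ((g • z : ℍ) : ℂ)) = ((((α : ℝ) / e : ℝ)) : ℂ) + (u : ℂ) * Complex.I
    rw [hgz, hezj]
    have h5 : jd g z = (e : ℂ)⁻¹ - (N : ℂ) * α * (v : ℂ) * Complex.I := by
      rw [hjd, hzc]
      have h6 : (b : ℂ) = ((N : ℂ) * α * j + 1) / e := by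
        rw [eq_div_iff heC]
        have h7 := congrArg (fun t : ℤ => (t : ℂ)) hb
        push_cast at h7
        rw [h7]
        ring
      rw [h6]
      push_cast
      field_simp
      ring
    have h8 : -1 / ((N : ℂ) * ((e : ℂ) * (v : ℂ) * Complex.I / jd g z)) =
        -(jd g z) / ((N : ℂ) * ((e : ℂ) * (v : ℂ) * Complex.I)) := by
      field_simp
    rw [h8, h5, hvC]
    push_cast
    have hI : Complex.I ≠ 0 := Complex.I_ne_zero
    field_simp
    ring_nf
    rw [Complex.I_sq]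
    ring
  rw [hwz] at hfr
  rw [GID_ev f _ hu, GID_ev f _ hv]
  have h9 : ((g • z : ℍ) : ℂ) ≠ 0 := (g • z : ℍ).ne_zero
  have h10 : f (⟨((((α : ℝ) / e : ℝ)) : ℂ) + (u : ℂ) * Complex.I, by rw [GID_im]; exact hu⟩ : ℍ) =
      -((N : ℂ) * ((g • z : ℍ) : ℂ) ^ 2 * (jd g z ^ 2 * f z)) := by
    have h11 : (N : ℂ) * ((g • z : ℍ) : ℂ) ^ 2 ≠ 0 := by positivity
    field_simp at hfr
    rw [← hfr]
    ring
  rw [h10, hgz]
  have h12 : (N : ℂ) * (((e : ℂ) * z - j) / jd g z) ^ 2 * (jd g z ^ 2 * f z) =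
      (N : ℂ) * ((e : ℂ) * z - j) ^ 2 * f z := by
    field_simp
  rw [h12, hezj]
  have h13 : (Complex.I) ^ 2 = -1 := Complex.I_sq
  show _ = _ * f z
  generalize f z = w
  rw [hvC]
  have h14 : ((e : ℂ) * (1 / ((N : ℂ) * (e : ℂ) ^ 2 * (u : ℂ))) * Complex.I) ^ 2 =
      -((e : ℂ) * (1 / ((N : ℂ) * (e : ℂ) ^ 2 * (u : ℂ)))) ^ 2 := by
    rw [mul_pow _ Complex.I, h13]
    ring
  rw [h14]
  field_simp


/-- the substitution `v = 1 / (N e² u)` -/
theorem GID_image {c κ : ℝ} (hc : 0 < c) (hκ : 0 < κ) (hcκ : κ * c * c = 1) :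
    (fun u : ℝ => 1 / (κ * u)) '' Set.Ioi c = Set.Ioo 0 c := by
  ext v
  constructor
  · rintro ⟨u, hu, rfl⟩
    have hu' : c < u := hu
    have hu0 : 0 < u := hc.trans hu'
    refine ⟨by positivity, ?_⟩
    show 1 / (κ * u) < c
    rw [div_lt_iff₀ (by positivity), ← hcκ]
    nlinarith [mul_pos hκ hc]
  · rintro ⟨h0, h1⟩
    refine ⟨1 / (κ * v), ?_, ?_⟩
    · show c < 1 / (κ * v)
      rw [lt_div_iff₀ (by positivity)]
      nlinarith [mul_pos hκ hc]
    · show 1 / (κ * (1 / (κ * v))) = v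
      field_simp

theorem GID_deriv {κ u : ℝ} (hκ : 0 < κ) (hu : 0 < u) :
    HasDerivAt (fun u : ℝ => 1 / (κ * u)) (-(1 / (κ * u ^ 2))) u := by
  have h1 : HasDerivAt (fun u : ℝ => κ * u) κ u := by
    simpa using (hasDerivAt_id u).const_mul κ
  have h2 := h1.inv (by positivity)
  have h3 : (fun u : ℝ => 1 / (κ * u)) = (fun u : ℝ => (κ * u)⁻¹) := by
    funext t
    rw [one_div]
  rw [h3]
  have h4 : -(1 / (κ * u ^ 2)) = -κ / (κ * u) ^ 2 := by
    have hκ' := hκ.ne'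
    have hu' := hu.ne'
    rw [mul_pow, neg_div, neg_inj, div_eq_div_iff (by positivity) (by positivity)]
    ring
  rw [h4]
  exact h2

theorem GID_inj {κ c : ℝ} (hκ : 0 < κ) (hc : 0 < c) :
    Set.InjOn (fun u : ℝ => 1 / (κ * u)) (Set.Ioi c) := by
  intro a ha b hb hab
  have ha' : 0 < a := hc.trans ha
  have hb' : 0 < b := hc.trans hb
  have h : 1 / (κ * a) = 1 / (κ * b) := hab
  rw [div_eq_div_iff (by positivity) (by positivity)] at h
  have h2 : κ * b = κ * a := by linarith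
  exact (mul_left_cancel₀ hκ.ne' h2).symm

/-- the part near zero -/
theorem GID_near {f : S2 N} (hf : IsNew f) (h1 : co f N = 1) {e j α : ℕ} (he : 0 < e)
    (hα : ∃ b : ℤ, (N : ℤ) * α * j + 1 = e * b) :
    IntegrableOn (fun v : ℝ => ev f ((j : ℝ) / e) v)
      (Set.Ioo 0 (1 / ((e : ℝ) * Real.sqrt N))) ∧
    ∫ v in Set.Ioo 0 (1 / ((e : ℝ) * Real.sqrt N)), ev f ((j : ℝ) / e) v =
      ∫ v in Set.Ioi (1 / ((e : ℝ) * Real.sqrt N)), ev f ((α : ℝ) / e) v := by
  have hN : (0 : ℝ) < N := by exact_mod_cast (Fact.out : N.Prime).pos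
  have heR : (0 : ℝ) < e := by exact_mod_cast he
  have hsN : 0 < Real.sqrt N := Real.sqrt_pos.mpr hN
  set c : ℝ := 1 / ((e : ℝ) * Real.sqrt N) with hc_def
  have hc : 0 < c := by positivity
  set κ : ℝ := N * (e : ℝ) ^ 2 with hκ_def
  have hκ : 0 < κ := by positivity
  have hcκ : κ * c * c = 1 := by
    have hs : Real.sqrt N * Real.sqrt N = N := Real.mul_self_sqrt hN.le
    rw [hκ_def, hc_def]
    field_simp
    nlinarith
  have himg := GID_image hc hκ hcκ
  have hder : ∀ u ∈ Set.Ioi c, HasDerivWithinAt (fun u : ℝ => 1 / (κ * u))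
      (-(1 / (κ * u ^ 2))) (Set.Ioi c) u := by
    intro u hu
    exact (GID_deriv hκ (hc.trans hu)).hasDerivWithinAt
  have hfun : Set.EqOn (fun u : ℝ => |(-(1 / (κ * u ^ 2)))| • ev f ((j : ℝ) / e) (1 / (κ * u)))
      (fun u : ℝ => ev f ((α : ℝ) / e) u) (Set.Ioi c) := by
    intro u hu
    have hu0 : 0 < u := hc.trans hu
    show |(-(1 / (κ * u ^ 2)))| • ev f ((j : ℝ) / e) (1 / (κ * u)) = ev f ((α : ℝ) / e) u
    rw [GID_trans hf h1 he hα hu0, abs_neg, abs_of_pos (by positivity), Complex.real_smul]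
    rw [hκ_def]
    push_cast
    rw [one_div]
  constructor
  · rw [← himg, integrableOn_image_iff_integrableOn_abs_deriv_smul measurableSet_Ioi hder
      (GID_inj hκ hc)]
    exact (integrableOn_congr_fun hfun measurableSet_Ioi).mpr (GID_int f _ hc)
  · rw [← himg, integral_image_eq_integral_abs_deriv_smul measurableSet_Ioi hder
      (GID_inj hκ hc)]
    exact setIntegral_congr_fun measurableSet_Ioi hfun

/-- the partner of a residue -/
noncomputable def GID_al (N e j : ℕ) : ℕ := (-(((N * j : ℕ) : ZMod e))⁻¹).val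

theorem GID_al_mul {e j : ℕ} (he : 0 < e) (h : (N * j).Coprime e) :
    ((N : ZMod e) * (GID_al N e j : ZMod e) * (j : ZMod e)) = -1 := by
  have : NeZero e := ⟨he.ne'⟩
  have h1 := ZMod.coe_mul_inv_eq_one (N * j) h
  unfold GID_al
  rw [ZMod.natCast_zmod_val]
  calc (N : ZMod e) * -(((N * j : ℕ) : ZMod e))⁻¹ * (j : ZMod e)
      = -(((N * j : ℕ) : ZMod e) * (((N * j : ℕ) : ZMod e))⁻¹) := by
        push_cast
        ring
    _ = -1 := by rw [h1]

theorem GID_al_lt {e j : ℕ} (he : 0 < e) : GID_al N e j < e := by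
  have : NeZero e := ⟨he.ne'⟩
  exact ZMod.val_lt _

theorem GID_al_ex {e j : ℕ} (he : 0 < e) (h : (N * j).Coprime e) :
    ∃ b : ℤ, (N : ℤ) * (GID_al N e j) * j + 1 = e * b := by
  have h1 := GID_al_mul (N := N) he h
  have h2 : (((N : ℤ) * (GID_al N e j) * j + 1 : ℤ) : ZMod e) = 0 := by
    push_cast
    rw [h1]
    ring
  obtain ⟨b, hb⟩ := (ZMod.intCast_zmod_eq_zero_iff_dvd _ _).mp h2
  exact ⟨b, hb⟩

theorem GID_al_coprime {e j : ℕ} (he : 0 < e) (h : (N * j).Coprime e) :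
    e.Coprime (GID_al N e j) := by
  obtain ⟨b, hb⟩ := GID_al_ex (N := N) he h
  rw [← Nat.isCoprime_iff_coprime]
  refine ⟨b, -((N : ℤ) * j), ?_⟩
  linarith

theorem GID_al_inv {e j : ℕ} (he : 0 < e) (hN : e.Coprime N) (hj : e.Coprime j) (hje : j < e) :
    GID_al N e (GID_al N e j) = j := by
  have : NeZero e := ⟨he.ne'⟩
  have h1 : (N * j).Coprime e := (Nat.Coprime.mul_left hN.symm hj.symm)
  have h2 : (N * GID_al N e j).Coprime e :=
    (Nat.Coprime.mul_left hN.symm (GID_al_coprime he h1).symm)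
  have e1 := GID_al_mul (N := N) he h1
  have e2 := GID_al_mul (N := N) he h2
  have h3 : (GID_al N e (GID_al N e j) : ZMod e) = (j : ZMod e) := by
    calc (GID_al N e (GID_al N e j) : ZMod e)
        = (GID_al N e (GID_al N e j) : ZMod e) * -(-1) := by ring
      _ = (GID_al N e (GID_al N e j) : ZMod e) *
            -((N : ZMod e) * (GID_al N e j : ZMod e) * (j : ZMod e)) := by rw [e1]
      _ = -((N : ZMod e) * (GID_al N e (GID_al N e j) : ZMod e) * (GID_al N e j : ZMod e)) *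
            (j : ZMod e) := by ring
      _ = (j : ZMod e) := by rw [e2]; ring
  have h4 := congrArg ZMod.val h3
  rwa [ZMod.val_natCast_of_lt (GID_al_lt he), ZMod.val_natCast_of_lt hje] at h4

theorem geo_fold_pr {N : ℕ} [Fact N.Prime] {f : S2 N} (hf : IsNew f) (h1 : co f N = 1) {e : ℕ}
    (he : 0 < e) (heN : e.Coprime N) :
    (∀ j : ℕ, e.Coprime j → IntegrableOn (fun v : ℝ => ev f ((j : ℝ) / e) v) (Set.Ioi 0)) ∧
    ∑ j ∈ (Finset.range e).filter (fun j => e.Coprime j),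
        ∫ v in Set.Ioi (0 : ℝ), ev f ((j : ℝ) / e) v =
      2 * ∑ j ∈ (Finset.range e).filter (fun j => e.Coprime j),
        ∫ v in Set.Ioi (1 / ((e : ℝ) * Real.sqrt N)), ev f ((j : ℝ) / e) v := by
  have hN : (0 : ℝ) < N := by exact_mod_cast (Fact.out : N.Prime).pos
  have heR : (0 : ℝ) < e := by exact_mod_cast he
  have hsN : 0 < Real.sqrt N := Real.sqrt_pos.mpr hN
  set c : ℝ := 1 / ((e : ℝ) * Real.sqrt N) with hc_def
  have hc : 0 < c := by positivity
  have hun : Set.Ioc 0 c ∪ Set.Ioi c = Set.Ioi 0 := Set.Ioc_union_Ioi_eq_Ioi hc.le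
  have hcop : ∀ j : ℕ, e.Coprime j → (N * j).Coprime e := fun j hj =>
    Nat.Coprime.mul_left heN.symm hj.symm
  have hI1 : ∀ j : ℕ, e.Coprime j → IntegrableOn (fun v : ℝ => ev f ((j : ℝ) / e) v)
      (Set.Ioc 0 c) := by
    intro j hj
    rw [integrableOn_Ioc_iff_integrableOn_Ioo]
    exact (GID_near hf h1 he (GID_al_ex he (hcop j hj))).1
  have hI2 : ∀ j : ℕ, IntegrableOn (fun v : ℝ => ev f ((j : ℝ) / e) v) (Set.Ioi c) :=
    fun j => GID_int f _ hc
  refine ⟨fun j hj => ?_, ?_⟩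
  · rw [← hun]
    exact (hI1 j hj).union (hI2 j)
  · have hsplit : ∀ j : ℕ, e.Coprime j → ∫ v in Set.Ioi (0 : ℝ), ev f ((j : ℝ) / e) v =
        (∫ v in Set.Ioi c, ev f ((GID_al N e j : ℝ) / e) v) +
          ∫ v in Set.Ioi c, ev f ((j : ℝ) / e) v := by
      intro j hj
      rw [← hun, setIntegral_union (Set.Ioc_disjoint_Ioi le_rfl) measurableSet_Ioi (hI1 j hj)
        (hI2 j), integral_Ioc_eq_integral_Ioo,
        (GID_near hf h1 he (GID_al_ex he (hcop j hj))).2]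
    rw [Finset.sum_congr rfl (fun j hj => hsplit j (Finset.mem_filter.mp hj).2),
      Finset.sum_add_distrib, two_mul]
    congr 1
    refine Finset.sum_nbij' (fun j => GID_al N e j) (fun j => GID_al N e j) ?_ ?_ ?_ ?_ ?_
    · intro j hj
      rw [Finset.mem_filter, Finset.mem_range] at hj ⊢
      exact ⟨GID_al_lt he, GID_al_coprime he (hcop j hj.2)⟩
    · intro j hj
      rw [Finset.mem_filter, Finset.mem_range] at hj ⊢
      exact ⟨GID_al_lt he, GID_al_coprime he (hcop j hj.2)⟩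
    · intro j hj
      rw [Finset.mem_filter, Finset.mem_range] at hj
      exact GID_al_inv he heN hj.2 hj.1
    · intro j hj
      rw [Finset.mem_filter, Finset.mem_range] at hj
      exact GID_al_inv he heN hj.2 hj.1
    · intro j hj
      rfl

end

theorem geo_fold : type_of% @geo_fold_pr := @geo_fold_pr

end Pool.Agent.LEV
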