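import Pool.Agent.Lib_helper68.LEV.DefsC

/-! Block LHI: the central value as an integral along the imaginary axis. -/

namespace Pool.Agent.LEV

open Complex MeasureTheory Filter Topology UpperHalfPlane ModularGroup
open scoped MatrixGroups Modular ENNReal ModularForm ComplexConjugate ContDiff

theorem LHI_ev {N : ℕ} (f : S2 N) (t : ℝ) :
    ev f 0 t = f (UpperHalfPlane.ofComplex (Complex.I * (t : ℂ))) := by
  unfold ev
  congr 2
  push_cast
  ring

theorem lh_int_pr {N : ℕ} [Fact N.Prime] (f : S2 N) :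
    IntegrableOn (fun v : ℝ => ev f 0 v) (Set.Ioi 0) ∧
    Lh f = 2 * Real.pi * ∫ v in Set.Ioi (0 : ℝ), ev f 0 v := by
  have hs := CuspForm.isStrongFEPair (k := 2) two_pos f
  have hm := hs.hasMellin 1
  have h1 : MellinConvergent (fun t : ℝ => f (UpperHalfPlane.ofComplex (Complex.I * (t : ℂ)))) 1 := hm.1
  have h2 : mellin (fun t : ℝ => f (UpperHalfPlane.ofComplex (Complex.I * (t : ℂ)))) 1 =
      ModularForm.Λ (k := 2) two_pos f 1 := hm.2
  constructor
  · have h3 : IntegrableOn (fun t : ℝ => (t : ℂ) ^ ((1 : ℂ) - 1) •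
        f (UpperHalfPlane.ofComplex (Complex.I * (t : ℂ)))) (Set.Ioi 0) := h1
    refine h3.congr_fun ?_ measurableSet_Ioi
    intro t _
    simp [LHI_ev]
  · have h3 : ∫ v in Set.Ioi (0 : ℝ), ev f 0 v =
        mellin (fun t : ℝ => f (UpperHalfPlane.ofComplex (Complex.I * (t : ℂ)))) 1 := by
      unfold mellin
      refine setIntegral_congr_fun measurableSet_Ioi ?_
      intro t _
      simp [LHI_ev]
    rw [h3, h2]
    unfold Lh ModularForm.L
    have hG : Complex.Gammaℂ 1 = 1 / Real.pi := by
      rw [Complex.Gammaℂ_def]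
      simp [Complex.cpow_neg_one]
      field_simp
    rw [hG]
    have hpi : (Real.pi : ℂ) ≠ 0 := by
      exact_mod_cast Real.pi_ne_zero
    field_simp

theorem lh_int : type_of% @lh_int_pr := @lh_int_pr

end Pool.Agent.LEV
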