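import Pool.Agent.Lib_helper68.LEV.DefsC
import Pool.Agent.Lib_helper23.BG4F.MER
import Pool.Agent.Lib_helper68.LEV.MRT

set_option autoImplicit false

namespace Pool.Agent.LEV

open Filter

theorem PRM_tendsto : Tendsto (fun N : ℕ => Real.log (Real.log (N : ℝ))) atTop atTop :=
  Real.tendsto_log_atTop.comp (Real.tendsto_log_atTop.comp tendsto_natCast_atTop_atTop)

theorem PRM_ge (a : ℝ) : ∃ N₀ : ℕ, ∀ N : ℕ, N₀ ≤ N → a ≤ Real.log (Real.log (N : ℝ)) :=
  eventually_atTop.mp (PRM_tendsto.eventually_ge_atTop a)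

/-- basic facts when `L₂ ≥ 808` -/
theorem PRM_basic {N : ℕ} (h : 808 ≤ Real.log (Real.log (N : ℝ))) :
    0 < (N : ℝ) ∧ 0 < Real.log (N : ℝ) ∧
    Real.log (Real.log (N : ℝ)) ^ 3 / 6 ≤ Real.log (N : ℝ) ∧
    134 ≤ Real.log (N : ℝ) / Real.log (Real.log (N : ℝ)) ^ 2 := by
  set L2 := Real.log (Real.log (N : ℝ)) with hL2
  have hN : 0 < (N : ℝ) := by
    rcases Nat.eq_zero_or_pos N with h0 | h0
    · exfalso
      rw [hL2, h0] at h
      norm_num at h
    · exact_mod_cast h0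
  have hN1 : (1 : ℝ) ≤ N := by exact_mod_cast (Nat.cast_pos.mp hN)
  have hl0 : 0 ≤ Real.log (N : ℝ) := Real.log_nonneg hN1
  have hl : 0 < Real.log (N : ℝ) := by
    rcases hl0.eq_or_lt with h0 | h0
    · exfalso
      rw [hL2, ← h0] at h
      norm_num at h
    · exact h0
  have he : Real.exp L2 = Real.log (N : ℝ) := Real.exp_log hl
  have h3 : L2 ^ 3 / 6 ≤ Real.log (N : ℝ) := by
    have := Real.pow_div_factorial_le_exp L2 (by linarith) 3
    rw [he] at this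
    norm_num [Nat.factorial] at this
    exact this
  refine ⟨hN, hl, h3, ?_⟩
  rw [le_div_iff₀ (by positivity)]
  nlinarith [sq_nonneg L2, mul_nonneg (sq_nonneg L2) (sub_nonneg.mpr h)]

theorem PRM_params {N : ℕ} (h : 808 ≤ Real.log (Real.log (N : ℝ))) :
    16 ≤ Real.log (Real.log N) ∧ 1 ≤ DN N ∧ 16 * DN N ^ 4 ≤ N ∧ zN N ≤ DN N ∧
    Real.log (DN N) ≤ 101 * Real.log N / Real.log (Real.log N) ∧
    (∀ B ∈ SB (IN N) (KN N), 1 ≤ mB B ∧ mB B ≤ DN N) ∧ zN N ^ 2 < N ∧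
    (∀ p ∈ IN N, p.Prime ∧ p < N) := by
  obtain ⟨hN, hL1, h3, h134⟩ := PRM_basic h
  have hz : zN N = Real.exp (Real.log N / Real.log (Real.log N) ^ 2) := rfl
  have hKd : KN N = ⌈100 * Real.log (Real.log N)⌉₊ := rfl
  set L1 := Real.log (N : ℝ) with hL1d
  set L2 := Real.log L1 with hL2d
  have hL2 : 0 < L2 := by linarith
  have hz0 : 0 < zN N := Real.exp_pos _
  have hz2 : 2 ≤ zN N := by
    rw [hz]
    have := Real.add_one_le_exp (L1 / L2 ^ 2)
    linarith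
  have hK1 : 100 * L2 ≤ KN N := Nat.le_ceil _
  have hK2 : (KN N : ℝ) < 100 * L2 + 1 := by
    rw [hKd]; exact Nat.ceil_lt_add_one (by positivity)
  have hKge2 : 2 ≤ KN N := by
    have : (2 : ℝ) ≤ KN N := by linarith
    exact_mod_cast this
  have hzK : zN N ^ KN N = Real.exp (KN N * (L1 / L2 ^ 2)) := by
    rw [hz, ← Real.exp_nat_mul]
  have hlogK : (KN N : ℝ) * (L1 / L2 ^ 2) ≤ 101 * L1 / L2 := by
    rw [mul_div_assoc', div_le_div_iff₀ (by positivity) hL2]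
    have : (KN N : ℝ) ≤ 101 * L2 := by linarith
    calc (KN N : ℝ) * L1 * L2 ≤ (101 * L2) * L1 * L2 := by
          apply mul_le_mul_of_nonneg_right _ hL2.le
          exact mul_le_mul_of_nonneg_right this hL1.le
      _ = 101 * L1 * L2 ^ 2 := by ring
  have hzKle : zN N ^ KN N ≤ Real.exp (101 * L1 / L2) := by
    rw [hzK]; exact Real.exp_le_exp.mpr hlogK
  have hsq : zN N ^ 2 ≤ zN N ^ KN N := pow_le_pow_right₀ (by linarith) hKge2
  have hDle : (DN N : ℝ) ≤ zN N ^ KN N := Nat.floor_le (by positivity)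
  have hDge : zN N ≤ DN N := by
    have h1 : zN N ^ KN N < DN N + 1 := Nat.lt_floor_add_one _
    nlinarith
  have hD1 : 1 ≤ DN N := by
    have : (1 : ℝ) ≤ DN N := by linarith
    exact_mod_cast this
  have hD0 : (0 : ℝ) < DN N := by exact_mod_cast hD1
  have hNe : Real.exp L1 = N := Real.exp_log hN
  have hL1big : 808 ≤ L1 := by
    nlinarith [sq_nonneg L2, mul_nonneg (sq_nonneg L2) (sub_nonneg.mpr h)]
  have h16 : 16 * DN N ^ 4 ≤ N := by
    have h1 : (16 : ℝ) * (DN N : ℝ) ^ 4 ≤ N := by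
      calc (16 : ℝ) * (DN N : ℝ) ^ 4 ≤ Real.exp 15 * (Real.exp (101 * L1 / L2)) ^ 4 := by
            apply mul_le_mul _ _ (by positivity) (by positivity)
            · have := Real.add_one_le_exp (15 : ℝ)
              linarith
            · exact pow_le_pow_left₀ hD0.le (hDle.trans hzKle) 4
        _ = Real.exp (15 + 4 * (101 * L1 / L2)) := by
            rw [← Real.exp_nat_mul, ← Real.exp_add]
            norm_num
        _ ≤ Real.exp L1 := by
            apply Real.exp_le_exp.mpr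
            have : 101 * L1 / L2 ≤ L1 / 8 := by
              rw [div_le_div_iff₀ hL2 (by norm_num)]
              nlinarith
            linarith
        _ = N := hNe
    exact_mod_cast h1
  have hz2N : zN N ^ 2 < N := by
    rw [hz, ← Real.exp_nat_mul, ← hNe]
    apply Real.exp_lt_exp.mpr
    rw [mul_div_assoc', div_lt_iff₀ (by positivity)]
    push_cast
    have h5 : (2 : ℝ) < L2 ^ 2 := by nlinarith
    nlinarith
  have hIN : ∀ p ∈ IN N, p.Prime ∧ (p : ℝ) ≤ zN N := by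
    intro p hp
    have h1 := Finset.mem_filter.mp hp
    refine ⟨h1.2.1, ?_⟩
    have h2 := (Finset.mem_Icc.mp h1.1).2
    exact (Nat.le_floor_iff hz0.le).mp h2
  refine ⟨by linarith, hD1, h16, hDge, ?_, ?_, hz2N, ?_⟩
  · calc Real.log (DN N) ≤ Real.log (Real.exp (101 * L1 / L2)) :=
        Real.log_le_log hD0 (hDle.trans hzKle)
      _ = 101 * L1 / L2 := Real.log_exp _
  · intro B hB
    have hB1 := Finset.mem_filter.mp hB
    have hB2 := Finset.mem_powerset.mp hB1.1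
    have hpos : ∀ p ∈ B, 1 ≤ p := fun p hp => (hIN p (hB2 hp)).1.one_le
    refine ⟨Nat.succ_le_of_lt (Finset.prod_pos hpos), ?_⟩
    unfold DN
    apply Nat.le_floor
    unfold mB
    push_cast
    calc ∏ p ∈ B, (p : ℝ) ≤ ∏ _p ∈ B, zN N :=
          Finset.prod_le_prod (fun p _ => Nat.cast_nonneg p) (fun p hp => (hIN p (hB2 hp)).2)
      _ = zN N ^ B.card := by rw [Finset.prod_const]
      _ ≤ zN N ^ KN N := pow_le_pow_right₀ (by linarith) hB1.2
  · intro p hp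
    refine ⟨(hIN p hp).1, ?_⟩
    have h1 := (hIN p hp).2
    have h2 : zN N ≤ zN N ^ 2 := by nlinarith
    exact_mod_cast (h1.trans h2).trans_lt hz2N

theorem params_pr : ∃ N₀ : ℕ, ∀ N : ℕ, N₀ ≤ N →
    16 ≤ Real.log (Real.log N) ∧ 1 ≤ DN N ∧ 16 * DN N ^ 4 ≤ N ∧ zN N ≤ DN N ∧
    Real.log (DN N) ≤ 101 * Real.log N / Real.log (Real.log N) ∧
    (∀ B ∈ SB (IN N) (KN N), 1 ≤ mB B ∧ mB B ≤ DN N) ∧ zN N ^ 2 < N ∧
    (∀ p ∈ IN N, p.Prime ∧ p < N) := by
  obtain ⟨N₀, h⟩ := PRM_ge 808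
  exact ⟨N₀, fun N hN => PRM_params (h N hN)⟩

/-- the sum over `IN N` as a difference -/
theorem PRM_split {N : ℕ} (h : 808 ≤ Real.log (Real.log (N : ℝ))) :
    ∑ p ∈ IN N, 1 / (p : ℝ) = ∑ p ∈ (Finset.Icc 1 ⌊zN N⌋₊).filter Nat.Prime, 1 / (p : ℝ) -
      ∑ p ∈ (Finset.Icc 1 ⌊Real.log (Real.log (N : ℝ))⌋₊).filter Nat.Prime, 1 / (p : ℝ) ∧
    Real.log (Real.log (N : ℝ)) ≤ zN N := by
  obtain ⟨hN, hL1, h3, h134⟩ := PRM_basic h
  have hz : zN N = Real.exp (Real.log N / Real.log (Real.log N) ^ 2) := rfl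
  set L1 := Real.log (N : ℝ) with hL1d
  set L2 := Real.log L1 with hL2d
  have hL2 : 0 < L2 := by linarith
  have he : Real.exp L2 = L1 := Real.exp_log hL1
  have hle : L2 ≤ zN N := by
    rw [hz]
    have h1 := Real.add_one_le_exp (L1 / L2 ^ 2)
    have h2 : L2 ≤ L1 / L2 ^ 2 := by
      rw [le_div_iff₀ (by positivity)]
      have := Real.pow_div_factorial_le_exp L2 hL2.le 4
      rw [he] at this
      norm_num [Nat.factorial] at this
      nlinarith [pow_pos hL2 3]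
    linarith
  refine ⟨?_, hle⟩
  have hsplit : (Finset.Icc 1 ⌊zN N⌋₊).filter Nat.Prime =
      IN N ∪ (Finset.Icc 1 ⌊L2⌋₊).filter Nat.Prime := by
    ext p
    simp only [IN, Finset.mem_union, Finset.mem_filter, Finset.mem_Icc]
    constructor
    · rintro ⟨⟨h1, h2⟩, h4⟩
      by_cases h5 : L2 < p
      · exact Or.inl ⟨⟨h1, h2⟩, h4, h5⟩
      · exact Or.inr ⟨⟨h1, Nat.le_floor (not_lt.mp h5)⟩, h4⟩
    · rintro (⟨⟨h1, h2⟩, h4, _⟩ | ⟨⟨h1, h2⟩, h4⟩)
      · exact ⟨⟨h1, h2⟩, h4⟩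
      · exact ⟨⟨h1, h2.trans (Nat.floor_le_floor hle)⟩, h4⟩
  have hdis : Disjoint (IN N) ((Finset.Icc 1 ⌊L2⌋₊).filter Nat.Prime) := by
    rw [Finset.disjoint_left]
    intro p hp hq
    have h1 := (Finset.mem_filter.mp hp).2.2
    have h2 := (Finset.mem_Icc.mp (Finset.mem_filter.mp hq).1).2
    have h4 := (Nat.le_floor_iff hL2.le).mp h2
    exact absurd h4 (not_le.mpr h1)
  rw [hsplit, Finset.sum_union hdis]
  ring

theorem in_sum_pr : ∃ N₀ : ℕ, ∀ N : ℕ, N₀ ≤ N →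
    Real.log (Real.log N) - 7 / 3 * Real.log (Real.log (Real.log N)) ≤ ∑ p ∈ IN N, 1 / (p : ℝ) ∧
    ∑ p ∈ IN N, 1 / (p : ℝ) ≤ Real.log (Real.log N) := by
  obtain ⟨C0, hC0⟩ := mertens_two
  set C := max C0 0 with hCd
  have hC : 0 ≤ C := le_max_right _ _
  -- eventually the inequalities between `L₃` and `L₄`
  have hT3 : Tendsto (fun N : ℕ => Real.log (Real.log (Real.log (N : ℝ)))) atTop atTop :=
    Real.tendsto_log_atTop.comp PRM_tendsto
  obtain ⟨N1, hN1⟩ := eventually_atTop.mp (hT3.eventually_ge_atTop (12 * C + 144))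
  obtain ⟨N2, hN2⟩ := PRM_ge 808
  refine ⟨max N1 N2, fun N hN => ?_⟩
  have hL3 := hN1 N ((le_max_left _ _).trans hN)
  have h := hN2 N ((le_max_right _ _).trans hN)
  obtain ⟨hN0, hL1, h3, h134⟩ := PRM_basic h
  obtain ⟨hs, hle⟩ := PRM_split h
  have hz : zN N = Real.exp (Real.log N / Real.log (Real.log N) ^ 2) := rfl
  have m1 := (hC0 (zN N) (by linarith)).trans (le_max_left C0 0)
  have m2 := (hC0 (Real.log (Real.log (N : ℝ))) (by linarith)).trans (le_max_left C0 0)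
  rw [← hCd] at m1 m2
  set L1 := Real.log (N : ℝ) with hL1d
  set L2 := Real.log L1 with hL2d
  set L3 := Real.log L2 with hL3d
  have hL2 : 0 < L2 := by linarith
  have hL3p : 0 < L3 := by linarith
  have hlz : Real.log (Real.log (zN N)) = L2 - 2 * L3 := by
    rw [hz, Real.log_exp, Real.log_div hL1.ne' (by positivity), Real.log_pow]
    push_cast
    rfl
  rw [hlz] at m1
  have hL4 : Real.log L3 ≤ L3 / 6 := by
    -- `log x ≤ x / 6` for `x ≥ 144`
    have h1 : Real.log L3 ≤ 2 * (Real.sqrt L3 - 1) := by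
      have h2 : Real.log (Real.sqrt L3) ≤ Real.sqrt L3 - 1 :=
        Real.log_le_sub_one_of_pos (Real.sqrt_pos.mpr hL3p)
      rw [Real.log_sqrt hL3p.le] at h2
      linarith
    have h3 : 12 ≤ Real.sqrt L3 := by
      apply Real.le_sqrt_of_sq_le
      linarith
    have h4 : Real.sqrt L3 * Real.sqrt L3 = L3 := Real.mul_self_sqrt hL3p.le
    nlinarith
  have hL4' : 0 ≤ Real.log L3 := Real.log_nonneg (by linarith)
  have a1 := abs_le.mp m1
  have a2 := abs_le.mp m2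
  rw [hs]
  constructor
  · linarith [a1.1, a2.2]
  · linarith [a1.2, a2.1]

theorem in_sigma_pr : ∃ (C : ℝ) (N₀ : ℕ), ∀ N : ℕ, N₀ ≤ N → ∀ σ : ℝ, 0 ≤ σ →
    σ * (Real.log N / Real.log (Real.log N) ^ 2) ≤ 1 →
    ∑ p ∈ IN N, 1 / (p : ℝ) - C ≤ ∑ p ∈ IN N, (p : ℝ) ^ (-1 - σ) := by
  obtain ⟨C0, hC0⟩ := Pool.Agent.BG4.mertens_one
  set C := max C0 0 with hCd
  have hC : 0 ≤ C := le_max_right _ _
  obtain ⟨N2, hN2⟩ := PRM_ge 808
  refine ⟨1 + C, N2, fun N hN σ hσ hσ1 => ?_⟩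
  have h := hN2 N hN
  obtain ⟨hN0, hL1, h3, h134⟩ := PRM_basic h
  have hz : zN N = Real.exp (Real.log N / Real.log (Real.log N) ^ 2) := rfl
  set L1 := Real.log (N : ℝ) with hL1d
  set L2 := Real.log L1 with hL2d
  have hL2 : 0 < L2 := by linarith
  have hz1 : 1 ≤ zN N := by
    rw [hz]; exact Real.one_le_exp (by positivity)
  have hfl1 : 1 ≤ ⌊zN N⌋₊ := Nat.le_floor (by exact_mod_cast hz1)
  have m := (hC0 ⌊zN N⌋₊ hfl1).trans (le_max_left C0 0)
  rw [← hCd] at m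
  have m2 := (abs_le.mp m).2
  have hfl0 : (0 : ℝ) < ⌊zN N⌋₊ := by exact_mod_cast hfl1
  have hlogfl : Real.log (⌊zN N⌋₊ : ℝ) ≤ L1 / L2 ^ 2 := by
    have : Real.log (⌊zN N⌋₊ : ℝ) ≤ Real.log (zN N) :=
      Real.log_le_log hfl0 (Nat.floor_le (by linarith))
    rwa [hz, Real.log_exp] at this
  have hσ2 : σ ≤ 1 := by nlinarith
  -- the sum of `log p / p` over `IN N`
  have hlogsum : ∑ p ∈ IN N, Real.log p / p ≤ L1 / L2 ^ 2 + C := by
    have h1 : ∑ p ∈ IN N, Real.log p / p ≤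
        ∑ p ∈ (Finset.Icc 1 ⌊zN N⌋₊).filter Nat.Prime, Real.log p / p := by
      apply Finset.sum_le_sum_of_subset_of_nonneg
      · intro p hp
        have h1 := Finset.mem_filter.mp hp
        exact Finset.mem_filter.mpr ⟨h1.1, h1.2.1⟩
      · intro p hp _
        have h1 := (Finset.mem_filter.mp hp).2.one_le
        exact div_nonneg (Real.log_nonneg (by exact_mod_cast h1)) (Nat.cast_nonneg p)
    linarith
  have hterm : ∀ p ∈ IN N, 1 / (p : ℝ) - σ * (Real.log p / p) ≤ (p : ℝ) ^ (-1 - σ) := by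
    intro p hp
    have hp1 := (Finset.mem_filter.mp hp).2.1
    have hp0 : (0 : ℝ) < p := by exact_mod_cast hp1.pos
    have e0 : (p : ℝ) ^ (-1 - σ) = (p : ℝ)⁻¹ * Real.exp (-(Real.log p * σ)) := by
      rw [Real.rpow_sub hp0, Real.rpow_neg_one, Real.rpow_def_of_pos hp0, Real.exp_neg,
        div_eq_mul_inv]
    rw [e0]
    have h1 := Real.add_one_le_exp (-(Real.log p * σ))
    have e : 1 / (p : ℝ) - σ * (Real.log p / p) = (p : ℝ)⁻¹ * (-(Real.log p * σ) + 1) := by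
      field_simp
      ring
    rw [e]
    exact mul_le_mul_of_nonneg_left h1 (by positivity)
  calc ∑ p ∈ IN N, 1 / (p : ℝ) - (1 + C)
      ≤ ∑ p ∈ IN N, 1 / (p : ℝ) - σ * ∑ p ∈ IN N, Real.log p / p := by
        have h5 : σ * ∑ p ∈ IN N, Real.log p / p ≤ σ * (L1 / L2 ^ 2 + C) :=
          mul_le_mul_of_nonneg_left hlogsum hσ
        have h6 : σ * C ≤ C := mul_le_of_le_one_left hC hσ2
        nlinarith
    _ = ∑ p ∈ IN N, (1 / (p : ℝ) - σ * (Real.log p / p)) := by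
        rw [Finset.sum_sub_distrib, Finset.mul_sum]
    _ ≤ ∑ p ∈ IN N, (p : ℝ) ^ (-1 - σ) := Finset.sum_le_sum hterm

theorem in_sum : type_of% @in_sum_pr := @in_sum_pr
theorem in_sigma : type_of% @in_sigma_pr := @in_sigma_pr
theorem params : type_of% @params_pr := @params_pr

end Pool.Agent.LEV
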