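import Pool.Agent.Lib_helper68.LEV.DefsC
import Pool.Agent.Lib_helper68.LEV.EIA
import Pool.Agent.Lib_helper68.LEV.LSD
import Pool.Agent.Lib_helper68.LEV.PET
import Pool.Agent.Lib_helper68.LEV.PRM

/-! Block HMO (helper8): moments of the prime sums. -/

namespace Pool.Agent.LEV

open Complex MeasureTheory Filter Topology UpperHalfPlane ModularGroup
open scoped MatrixGroups Modular ENNReal ModularForm ComplexConjugate ContDiff

/-- the large sieve inequality for sums over a subset of `[1, N]` -/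
theorem HMO_ls : ∃ C : ℝ, 0 < C ∧ ∀ (N : ℕ) [Fact N.Prime] {ι : Type} [Fintype ι]
    (f : ι → S2 N), Function.Injective f → (∀ i, IsNew (f i)) →
    ∀ (T : Finset ℕ) (c : ℕ → ℂ), T ⊆ Finset.Icc 1 N →
      ∑ i, 1 / nr (f i) * ‖∑ n ∈ T, c n * (co (f i) n / (Real.sqrt n : ℂ))‖ ^ 2 ≤
        C * ∑ n ∈ T, ‖c n‖ ^ 2 := by
  classical
  obtain ⟨C, hC, h⟩ := large_sieve
  refine ⟨2 * C, by linarith, fun N _ ι _ f hinj hnew T c hT => ?_⟩
  have hN : (0 : ℝ) < N := by exact_mod_cast (Fact.out : N.Prime).pos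
  have h1 := h N f (fun i => new_ne_zero (hnew i))
    (fun i j hij => new_orth (hnew i) (hnew j) (fun he => hij (hinj he))) N
    (fun n => if n ∈ T then c n else 0)
  have h2 : ∀ g : ℕ → ℂ, ∑ n ∈ Finset.Icc 1 N, (if n ∈ T then c n else 0) * g n =
      ∑ n ∈ T, c n * g n := by
    intro g
    rw [← Finset.sum_subset hT]
    · refine Finset.sum_congr rfl fun n hn => ?_
      rw [if_pos hn]
    · intro n _ hn
      rw [if_neg hn, zero_mul]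
  have h3 : ∑ n ∈ Finset.Icc 1 N, ‖(if n ∈ T then c n else 0)‖ ^ 2 = ∑ n ∈ T, ‖c n‖ ^ 2 := by
    rw [← Finset.sum_subset hT]
    · refine Finset.sum_congr rfl fun n hn => ?_
      rw [if_pos hn]
    · intro n _ hn
      rw [if_neg hn]
      simp
  simp only [h2, h3] at h1
  have h4 : C * (1 + (N : ℝ) / N) = 2 * C := by
    rw [div_self hN.ne']; ring
  rw [h4] at h1
  exact h1

theorem HMO_real {N : ℕ} [Fact N.Prime] {f : S2 N} (hf : IsNew f) (n : ℕ) :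
    co f n = ((co f n).re : ℂ) := by
  apply Complex.ext
  · simp
  · simp [new_real hf n]

theorem mass_le_pr : ∃ C : ℝ, 0 < C ∧ ∀ (N : ℕ) [Fact N.Prime] {ι : Type} [Fintype ι]
    (f : ι → S2 N), Function.Injective f → (∀ i, IsNew (f i)) → ∑ i, 1 / nr (f i) ≤ C := by
  obtain ⟨C, hC, h⟩ := HMO_ls
  refine ⟨C, hC, fun N _ ι _ f hinj hnew => ?_⟩
  have h1 := h N f hinj hnew {1} (fun _ => 1) (by
    rw [Finset.singleton_subset_iff, Finset.mem_Icc]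
    exact ⟨le_rfl, (Fact.out : N.Prime).one_lt.le⟩)
  simpa [(hnew _).one] using h1

/-- sums of inverse squares of the mollifying primes -/
theorem HMO_tail {N : ℕ} (h : 16 ≤ Real.log (Real.log N)) :
    ∑ p ∈ IN N, 1 / (p : ℝ) ^ 2 ≤ 2 / Real.log (Real.log N) := by
  set y := Real.log (Real.log N) with hy
  have hk : 1 ≤ ⌊y⌋₊ := Nat.le_floor (by push_cast; linarith)
  set M := max ⌊zN N⌋₊ ⌊y⌋₊ with hM
  have hsub : IN N ⊆ Finset.Ioc ⌊y⌋₊ M := by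
    intro p hp
    rw [IN, Finset.mem_filter, Finset.mem_Icc] at hp
    rw [Finset.mem_Ioc]
    refine ⟨?_, hp.1.2.trans (le_max_left _ _)⟩
    exact (Nat.floor_lt (by linarith)).2 hp.2.2
  have h1 : ∑ p ∈ IN N, 1 / (p : ℝ) ^ 2 ≤ ∑ n ∈ Finset.Ioc ⌊y⌋₊ M, ((n : ℝ) ^ 2)⁻¹ := by
    simp only [one_div]
    exact Finset.sum_le_sum_of_subset_of_nonneg hsub (fun _ _ _ => by positivity)
  have h2 := sum_Ioc_inv_sq_le_sub (α := ℝ) (k := ⌊y⌋₊) (n := M) (by omega)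
    (le_max_right _ _)
  have h3 : (0 : ℝ) ≤ ((M : ℝ))⁻¹ := by positivity
  have h4 : y / 2 ≤ (⌊y⌋₊ : ℝ) := by
    have := Nat.lt_floor_add_one y
    linarith
  have h5 : ((⌊y⌋₊ : ℝ))⁻¹ ≤ 2 / y := by
    rw [inv_eq_one_div, div_le_div_iff₀ (by linarith) (by linarith)]
    linarith
  linarith

theorem mom_p_pr : ∃ (C : ℝ) (N₀ : ℕ), ∀ (N : ℕ) [Fact N.Prime], N₀ ≤ N → ∀ {ι : Type} [Fintype ι]
    (f : ι → S2 N), Function.Injective f → (∀ i, IsNew (f i)) →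
    ∑ i, 1 / nr (f i) * Pf (f i) ^ 2 ≤ C * Real.log (Real.log N) := by
  obtain ⟨C, hC, h⟩ := HMO_ls
  obtain ⟨N1, h1⟩ := params
  obtain ⟨N2, h2⟩ := in_sum
  refine ⟨C, max N1 N2, fun N _ hN ι _ f hinj hnew => ?_⟩
  have hp := h1 N (le_of_max_le_left hN)
  have hs := h2 N (le_of_max_le_right hN)
  have hT : IN N ⊆ Finset.Icc 1 N := by
    intro p hpp
    have h3 := hp.2.2.2.2.2.2.2 p hpp
    rw [Finset.mem_Icc]
    exact ⟨h3.1.one_lt.le, h3.2.le⟩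
  have h3 := h N f hinj hnew (IN N) (fun n => ((1 / Real.sqrt n : ℝ) : ℂ)) hT
  have h4 : ∀ i, ∑ n ∈ IN N, ((1 / Real.sqrt n : ℝ) : ℂ) * (co (f i) n / (Real.sqrt n : ℂ)) =
      ((Pf (f i) : ℝ) : ℂ) := by
    intro i
    rw [Pf, ofReal_sum]
    refine Finset.sum_congr rfl fun p hpp => ?_
    have hp0 : (0 : ℝ) < p := by exact_mod_cast (hp.2.2.2.2.2.2.2 p hpp).1.pos
    have hsq : (Real.sqrt p : ℂ) * (Real.sqrt p : ℂ) = (p : ℂ) := by
      rw [← ofReal_mul, Real.mul_self_sqrt hp0.le, ofReal_natCast]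
    have e1 : (((co (f i) p).re / p : ℝ) : ℂ) = co (f i) p / (p : ℂ) := by
      rw [ofReal_div, ofReal_natCast, ← HMO_real (hnew i)]
    rw [e1, ofReal_div, ofReal_one, div_mul_div_comm, one_mul, hsq]
  have h5 : ∑ n ∈ IN N, ‖((1 / Real.sqrt n : ℝ) : ℂ)‖ ^ 2 = ∑ p ∈ IN N, 1 / (p : ℝ) := by
    refine Finset.sum_congr rfl fun p hpp => ?_
    have hp0 : (0 : ℝ) < p := by exact_mod_cast (hp.2.2.2.2.2.2.2 p hpp).1.pos
    rw [Complex.norm_real, Real.norm_eq_abs, sq_abs, div_pow, one_pow, Real.sq_sqrt hp0.le]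
  rw [h5] at h3
  simp only [h4, Complex.norm_real, Real.norm_eq_abs, sq_abs] at h3
  exact h3.trans (mul_le_mul_of_nonneg_left hs.2 hC.le)

theorem HMO_sq {N : ℕ} [Fact N.Prime] {f : S2 N} (hf : IsNew f) {p : ℕ} (hp : p.Prime)
    (hpN : p ≠ N) : ((co f p).re / p) ^ 2 - 1 / (p : ℝ) = (co f (p ^ 2)).re / (p : ℝ) ^ 2 := by
  have h1 := hf.hecke p 0 hp hpN
  rw [zero_add, zero_add, pow_one, pow_zero, hf.one, mul_one] at h1
  have h2 : (co f (p ^ 2)).re = (co f p).re ^ 2 - p := by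
    rw [h1, sub_re, mul_re, new_real hf p, natCast_re]
    ring
  have hp0 : (p : ℝ) ≠ 0 := by exact_mod_cast hp.ne_zero
  rw [h2]
  field_simp

theorem HMO_image {N : ℕ} (hz : zN N ^ 2 < N) (hp : ∀ p ∈ IN N, p.Prime ∧ p < N) :
    (IN N).image (fun p => p ^ 2) ⊆ Finset.Icc 1 N := by
  intro n hn
  rw [Finset.mem_image] at hn
  obtain ⟨p, hpp, rfl⟩ := hn
  rw [Finset.mem_Icc]
  refine ⟨Nat.pos_of_ne_zero (pow_ne_zero _ (hp p hpp).1.ne_zero), ?_⟩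
  rw [IN, Finset.mem_filter, Finset.mem_Icc] at hpp
  have h1 : (p : ℝ) ≤ zN N := (Nat.le_floor_iff (Real.exp_pos _).le).1 hpp.1.2
  have h2 : (p : ℝ) ^ 2 ≤ zN N ^ 2 := pow_le_pow_left₀ (Nat.cast_nonneg _) h1 2
  have h3 : ((p ^ 2 : ℕ) : ℝ) ≤ (N : ℝ) := by push_cast; linarith
  exact_mod_cast h3

theorem mom_q_pr : ∃ (C : ℝ) (N₀ : ℕ), ∀ (N : ℕ) [Fact N.Prime], N₀ ≤ N → ∀ {ι : Type} [Fintype ι]
    (f : ι → S2 N), Function.Injective f → (∀ i, IsNew (f i)) →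
    ∑ i, 1 / nr (f i) * (∑ p ∈ IN N, ((co (f i) p).re / p) ^ 2 - ∑ p ∈ IN N, 1 / (p : ℝ)) ^ 2 ≤
      C / Real.log (Real.log N) := by
  obtain ⟨C, hC, h⟩ := HMO_ls
  obtain ⟨N1, h1⟩ := params
  refine ⟨C * 2, N1, fun N _ hN ι _ f hinj hnew => ?_⟩
  have hp := h1 N hN
  have hpp := hp.2.2.2.2.2.2.2
  have hinj2 : Set.InjOn (fun p : ℕ => p ^ 2) (IN N : Set ℕ) := by
    intro a _ b _ hab
    exact (Nat.pow_left_injective (n := 2) two_ne_zero) hab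
  have h3 := h N f hinj hnew ((IN N).image (fun p => p ^ 2))
    (fun n => ((1 / Real.sqrt n : ℝ) : ℂ)) (HMO_image hp.2.2.2.2.2.2.1 hpp)
  have hsqrt : ∀ p : ℕ, Real.sqrt ((p ^ 2 : ℕ) : ℝ) = p := by
    intro p
    push_cast
    exact Real.sqrt_sq (Nat.cast_nonneg _)
  simp only [Finset.sum_image hinj2, hsqrt] at h3
  have h4 : ∀ i, ∑ p ∈ IN N, ((1 / (p : ℝ) : ℝ) : ℂ) * (co (f i) (p ^ 2) / ((p : ℝ) : ℂ)) =
      ((∑ p ∈ IN N, ((co (f i) p).re / p) ^ 2 - ∑ p ∈ IN N, 1 / (p : ℝ) : ℝ) : ℂ) := by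
    intro i
    rw [← Finset.sum_sub_distrib, ofReal_sum]
    refine Finset.sum_congr rfl fun p hq => ?_
    have hp0 : (p : ℂ) ≠ 0 := by exact_mod_cast (hpp p hq).1.ne_zero
    have e1 : (((co (f i) (p ^ 2)).re / (p : ℝ) ^ 2 : ℝ) : ℂ) = co (f i) (p ^ 2) / (p : ℂ) ^ 2 := by
      rw [ofReal_div, ← HMO_real (hnew i), ofReal_pow, ofReal_natCast]
    rw [HMO_sq (hnew i) (hpp p hq).1 (hpp p hq).2.ne, e1]
    push_cast
    field_simp
  have h5 : ∑ p ∈ IN N, ‖((1 / (p : ℝ) : ℝ) : ℂ)‖ ^ 2 = ∑ p ∈ IN N, 1 / (p : ℝ) ^ 2 := by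
    refine Finset.sum_congr rfl fun p hq => ?_
    rw [Complex.norm_real, Real.norm_eq_abs, sq_abs, div_pow, one_pow]
  rw [h5] at h3
  simp only [h4, Complex.norm_real, Real.norm_eq_abs, sq_abs] at h3
  refine h3.trans ((mul_le_mul_of_nonneg_left (HMO_tail hp.1) hC.le).trans (le_of_eq ?_))
  ring

theorem mom_r_pr : ∃ (C : ℝ) (N₀ : ℕ), ∀ (N : ℕ) [Fact N.Prime], N₀ ≤ N → ∀ {ι : Type} [Fintype ι]
    (f : ι → S2 N), Function.Injective f → (∀ i, IsNew (f i)) →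
    ∑ i, 1 / nr (f i) * ∑ p ∈ IN N, ((co (f i) p).re / p) ^ 4 ≤
      C / Real.log (Real.log N) := by
  obtain ⟨C, hC, h⟩ := HMO_ls
  obtain ⟨N1, h1⟩ := params
  obtain ⟨D, hD, h2⟩ := mass_le_pr
  refine ⟨(2 * D + 2 * C) * 2, N1, fun N _ hN ι _ f hinj hnew => ?_⟩
  have hp := h1 N hN
  have hpp := hp.2.2.2.2.2.2.2
  have hnr : ∀ i, 0 < nr (f i) := fun i => nr_pos (new_ne_zero (hnew i))
  have hsqrt : ∀ p : ℕ, Real.sqrt ((p ^ 2 : ℕ) : ℝ) = p := by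
    intro p
    push_cast
    exact Real.sqrt_sq (Nat.cast_nonneg _)
  -- one prime
  have h3 : ∀ p ∈ IN N, ∑ i, 1 / nr (f i) * ((co (f i) p).re / p) ^ 4 ≤
      (2 * D + 2 * C) * (1 / (p : ℝ) ^ 2) := by
    intro p hq
    have hp0 : (0 : ℝ) < p := by exact_mod_cast (hpp p hq).1.pos
    have hT : ({p ^ 2} : Finset ℕ) ⊆ Finset.Icc 1 N :=
      (Finset.singleton_subset_iff.2 (Finset.mem_image_of_mem (fun p => p ^ 2) hq)).trans
        (HMO_image hp.2.2.2.2.2.2.1 hpp)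
    have h4 := h N f hinj hnew {p ^ 2} (fun _ => 1) hT
    simp only [Finset.sum_singleton, hsqrt, one_mul, norm_one, one_pow, mul_one] at h4
    have h5 : ∀ i, 1 / nr (f i) * ((co (f i) p).re / p) ^ 4 ≤
        2 * (1 / (p : ℝ) ^ 2) * (1 / nr (f i)) +
        2 * (1 / (p : ℝ) ^ 2) * (1 / nr (f i) * ‖co (f i) (p ^ 2) / ((p : ℝ) : ℂ)‖ ^ 2) := by
      intro i
      have h6 := HMO_sq (hnew i) (hpp p hq).1 (hpp p hq).2.ne
      have h7 : ‖co (f i) (p ^ 2) / ((p : ℝ) : ℂ)‖ ^ 2 = (co (f i) (p ^ 2)).re ^ 2 / (p : ℝ) ^ 2 := by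
        rw [HMO_real (hnew i) (p ^ 2), ← ofReal_div, Complex.norm_real, Real.norm_eq_abs, sq_abs,
          div_pow, ofReal_re]
      rw [h7]
      have h8 : ((co (f i) p).re / p) ^ 4 ≤ 2 * (1 / (p : ℝ) ^ 2) +
          2 * (1 / (p : ℝ) ^ 2) * ((co (f i) (p ^ 2)).re ^ 2 / (p : ℝ) ^ 2) := by
        have h9 : ((co (f i) p).re / p) ^ 2 = 1 / (p : ℝ) + (co (f i) (p ^ 2)).re / (p : ℝ) ^ 2 := by
          linarith
        have h10 : ((co (f i) p).re / p) ^ 4 =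
            (1 / (p : ℝ) + (co (f i) (p ^ 2)).re / (p : ℝ) ^ 2) ^ 2 := by
          rw [← h9]; ring
        have h11 : 2 * (1 / (p : ℝ) ^ 2) +
          2 * (1 / (p : ℝ) ^ 2) * ((co (f i) (p ^ 2)).re ^ 2 / (p : ℝ) ^ 2) =
          2 * (1 / (p : ℝ)) ^ 2 + 2 * ((co (f i) (p ^ 2)).re / (p : ℝ) ^ 2) ^ 2 := by
          field_simp
        rw [h10, h11]
        nlinarith [sq_nonneg (1 / (p : ℝ) - (co (f i) (p ^ 2)).re / (p : ℝ) ^ 2)]
      have h12 : 0 ≤ 1 / nr (f i) := by have := hnr i; positivity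
      calc 1 / nr (f i) * ((co (f i) p).re / p) ^ 4 ≤ 1 / nr (f i) * (2 * (1 / (p : ℝ) ^ 2) +
          2 * (1 / (p : ℝ) ^ 2) * ((co (f i) (p ^ 2)).re ^ 2 / (p : ℝ) ^ 2)) :=
            mul_le_mul_of_nonneg_left h8 h12
        _ = _ := by ring
    calc ∑ i, 1 / nr (f i) * ((co (f i) p).re / p) ^ 4 ≤ ∑ i, (2 * (1 / (p : ℝ) ^ 2) * (1 / nr (f i)) +
        2 * (1 / (p : ℝ) ^ 2) * (1 / nr (f i) * ‖co (f i) (p ^ 2) / ((p : ℝ) : ℂ)‖ ^ 2)) :=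
          Finset.sum_le_sum fun i _ => h5 i
      _ = 2 * (1 / (p : ℝ) ^ 2) * ∑ i, 1 / nr (f i) + 2 * (1 / (p : ℝ) ^ 2) *
          ∑ i, 1 / nr (f i) * ‖co (f i) (p ^ 2) / ((p : ℝ) : ℂ)‖ ^ 2 := by
        rw [Finset.sum_add_distrib, ← Finset.mul_sum, ← Finset.mul_sum]
      _ ≤ 2 * (1 / (p : ℝ) ^ 2) * D + 2 * (1 / (p : ℝ) ^ 2) * C := by
        have h13 : 0 ≤ 2 * (1 / (p : ℝ) ^ 2) := by positivity
        exact add_le_add (mul_le_mul_of_nonneg_left (h2 N f hinj hnew) h13)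
          (mul_le_mul_of_nonneg_left h4 h13)
      _ = _ := by ring
  have h14 : ∑ i, 1 / nr (f i) * ∑ p ∈ IN N, ((co (f i) p).re / p) ^ 4 =
      ∑ p ∈ IN N, ∑ i, 1 / nr (f i) * ((co (f i) p).re / p) ^ 4 := by
    simp only [Finset.mul_sum]
    exact Finset.sum_comm
  rw [h14]
  calc ∑ p ∈ IN N, ∑ i, 1 / nr (f i) * ((co (f i) p).re / p) ^ 4 ≤
      ∑ p ∈ IN N, (2 * D + 2 * C) * (1 / (p : ℝ) ^ 2) := Finset.sum_le_sum h3
    _ = (2 * D + 2 * C) * ∑ p ∈ IN N, 1 / (p : ℝ) ^ 2 := by rw [Finset.mul_sum]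
    _ ≤ (2 * D + 2 * C) * (2 / Real.log (Real.log N)) :=
        mul_le_mul_of_nonneg_left (HMO_tail hp.1) (by linarith)
    _ = _ := by ring

theorem mass_le : type_of% @mass_le_pr := @mass_le_pr
theorem mom_p : type_of% @mom_p_pr := @mom_p_pr
theorem mom_q : type_of% @mom_q_pr := @mom_q_pr
theorem mom_r : type_of% @mom_r_pr := @mom_r_pr

end Pool.Agent.LEV
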