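import Pool.Agent.Lib_helper68.LEV.DefsC
import Pool.Agent.Lib_helper68.LEV.FAM
import Pool.Agent.Lib_helper68.LEV.FRK
import Pool.Agent.Lib_helper68.LEV.LSC
import Pool.Agent.Lib_helper68.LEV.PET
import Pool.Agent.Lib_helper68.LEV.QEX

/-! Block NUB: upper bounds for the norm in terms of the coefficients. -/

namespace Pool.Agent.LEV

open Complex MeasureTheory Filter Topology UpperHalfPlane ModularGroup
open scoped MatrixGroups Modular ENNReal ModularForm ComplexConjugate ContDiff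

section
variable {N : ℕ} [Fact N.Prime]

/-- the density of the norm -/
noncomputable def NUB_h (f : S2 N) (z : ℍ) : ℝ≥0∞ := ‖f z‖ₑ ^ 2 * ENNReal.ofReal (z.im ^ 2)

theorem NUB_cont (f : S2 N) : Continuous (f : ℍ → ℂ) := by
  have h := fam_cont f OnePoint.infty
  rwa [fam_inf] at h

theorem NUB_meas (f : S2 N) : Measurable (NUB_h f) := by
  have h1 : Measurable (fun z : ℍ => ‖f z‖ₑ ^ 2) :=
    (NUB_cont f).measurable.enorm.pow_const 2
  have h2 : Measurable (fun z : ℍ => ENNReal.ofReal (z.im ^ 2)) :=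
    (UpperHalfPlane.continuous_im.measurable.pow_const 2).ennreal_ofReal
  exact h1.mul h2

theorem NUB_T (f : S2 N) (z : ℍ) : NUB_h f (T • z) = NUB_h f z := by
  have h1 : T • z = (1 : ℝ) +ᵥ z := modular_T_smul z
  have h2 : ((T • z : ℍ) : ℂ) = (z : ℂ) + 1 := by
    rw [h1, UpperHalfPlane.coe_vadd]
    push_cast
    ring
  have h3 : (T • z : ℍ).im = z.im := by
    rw [h1, UpperHalfPlane.vadd_im]
  have h4 : f (T • z) = f z := by
    have a1 := qex f (T • z)
    have a2 := qex f z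
    have a3 : (fun n : ℕ => co f n * cexp (2 * Real.pi * Complex.I * n * ((T • z : ℍ) : ℂ))) =
        fun n : ℕ => co f n * cexp (2 * Real.pi * Complex.I * n * (z : ℂ)) := by
      funext n
      rw [h2, mul_add, Complex.exp_add, mul_one]
      have : cexp (2 * Real.pi * Complex.I * n) = 1 := by
        rw [show (2 * Real.pi * Complex.I * n : ℂ) = (n : ℤ) * (2 * Real.pi * Complex.I) by
          push_cast; ring]
        exact Complex.exp_int_mul_two_pi_mul_I n
      rw [this, mul_one]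
    rw [a3] at a1
    exact a1.unique a2
  unfold NUB_h
  rw [h3, h4]

/-- a vertical strip above height `y` -/
def NUB_st (a b y : ℝ) : Set ℍ := {z : ℍ | a ≤ z.re ∧ z.re < b ∧ y ≤ z.im}

theorem NUB_st_meas (a b y : ℝ) : MeasurableSet (NUB_st a b y) := by
  have h1 : Measurable (fun z : ℍ => z.re) := UpperHalfPlane.continuous_re.measurable
  have h2 : Measurable (fun z : ℍ => z.im) := UpperHalfPlane.continuous_im.measurable
  exact (measurableSet_le measurable_const h1).inter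
    ((measurableSet_lt h1 measurable_const).inter (measurableSet_le measurable_const h2))

theorem NUB_split (f : S2 N) {a b c y : ℝ} (hab : a ≤ b) (hbc : b ≤ c) :
    ∫⁻ z in NUB_st a c y, NUB_h f z =
      (∫⁻ z in NUB_st a b y, NUB_h f z) + ∫⁻ z in NUB_st b c y, NUB_h f z := by
  rw [← lintegral_union (NUB_st_meas b c y)]
  · congr 2
    ext z
    constructor
    · rintro ⟨h1, h2, h3⟩
      rcases lt_or_ge z.re b with h | h
      · exact Or.inl ⟨h1, h, h3⟩
      · exact Or.inr ⟨h, h2, h3⟩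
    · rintro (⟨h1, h2, h3⟩ | ⟨h1, h2, h3⟩)
      · exact ⟨h1, lt_of_lt_of_le h2 hbc, h3⟩
      · exact ⟨le_trans hab h1, h2, h3⟩
  · rw [Set.disjoint_left]
    rintro z ⟨_, h2, _⟩ ⟨h3, _, _⟩
    exact absurd h3 (not_le.mpr h2)

theorem NUB_shift (f : S2 N) (a b y : ℝ) :
    ∫⁻ z in NUB_st a b y, NUB_h f z = ∫⁻ z in NUB_st (a + 1) (b + 1) y, NUB_h f z := by
  rw [← (Pool.Agent.GL2.RSA_mp T).setLIntegral_comp_preimage (NUB_st_meas (a + 1) (b + 1) y)
    (NUB_meas f)]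
  have h1 : (fun z : ℍ => T • z) ⁻¹' NUB_st (a + 1) (b + 1) y = NUB_st a b y := by
    ext z
    rw [Set.mem_preimage]
    have h2 : T • z = (1 : ℝ) +ᵥ z := modular_T_smul z
    unfold NUB_st
    rw [Set.mem_ofPred_eq, Set.mem_ofPred_eq, h2, UpperHalfPlane.vadd_im, UpperHalfPlane.vadd_re]
    constructor
    · rintro ⟨h1, h2, h3⟩
      exact ⟨by linarith, by linarith, h3⟩
    · rintro ⟨h1, h2, h3⟩
      exact ⟨by linarith, by linarith, h3⟩
  rw [h1]
  apply lintegral_congr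
  intro z
  exact (NUB_T f z).symm

theorem NUB_period (f : S2 N) {α y : ℝ} (h0 : -1 ≤ α) (h1 : α ≤ 0) :
    ∫⁻ z in NUB_st α (α + 1) y, NUB_h f z = ∫⁻ z in NUB_st 0 1 y, NUB_h f z := by
  rw [NUB_split f (b := 0) h1 (by linarith), NUB_split f (a := 0) (b := α + 1) (c := 1)
    (by linarith) (by linarith), NUB_shift f α 0 y, zero_add, add_comm]

/-- the matrix of `zsc` -/
noncomputable def NUB_g (N : ℕ) [Fact N.Prime] (j : ℝ) : GL (Fin 2) ℝ :=
  Matrix.GeneralLinearGroup.mkOfDetNeZero !![1, -j; 0, (N : ℝ)] (by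
    have hN : (N : ℝ) ≠ 0 := by exact_mod_cast (Fact.out : N.Prime).ne_zero
    rw [Matrix.det_fin_two_of]
    simpa using hN)

theorem NUB_g_smul (j : ℝ) (z : ℍ) : NUB_g N j • z = zsc N j z := by
  have hN : (0 : ℝ) < N := by exact_mod_cast (Fact.out : N.Prime).pos
  apply UpperHalfPlane.ext
  have hdet : 0 < (NUB_g N j).det.val := by
    show 0 < Matrix.det !![1, -j; 0, (N : ℝ)]
    rw [Matrix.det_fin_two_of]
    simpa using hN
  rw [UpperHalfPlane.coe_smul_of_det_pos hdet]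
  show num (NUB_g N j) z / denom (NUB_g N j) z = ((z : ℂ) - j) / (N : ℂ)
  unfold num denom NUB_g
  simp [Matrix.GeneralLinearGroup.mkOfDetNeZero, sub_eq_add_neg]

theorem NUB_zsc_mp (j : ℝ) : MeasurePreserving (fun z : ℍ => zsc N j z) volume volume := by
  have h := measurePreserving_smul (NUB_g N j) (volume : Measure ℍ)
  have h2 : (fun z : ℍ => NUB_g N j • z) = fun z : ℍ => zsc N j z :=
    funext fun z => NUB_g_smul j z
  rwa [h2] at h

/-- the part above height `Y` of the fundamental domain -/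
def NUB_U (Y : ℝ) : Set ℍ := 𝒟ᵒ ∩ {z : ℍ | Y < z.im}

theorem NUB_inf (f : S2 N) {Y : ℝ} (hY : 0 < Y) :
    ∫⁻ z in NUB_U Y, ‖fam f OnePoint.infty z‖ₑ ^ 2 * ENNReal.ofReal (z.im ^ 2) ≤
      ENNReal.ofReal (∑' n : ℕ, ‖co f n‖ ^ 2 / (4 * Real.pi * n) *
        Real.exp (-4 * Real.pi * n * Y)) := by
  rw [← (strip_sum f hY).2, fam_inf]
  show ∫⁻ z in NUB_U Y, NUB_h f z ≤ ∫⁻ z in NUB_st 0 1 Y, NUB_h f z
  rw [← NUB_period f (α := -(1 / 2)) (by norm_num) (by norm_num)]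
  apply lintegral_mono_set
  rintro z ⟨⟨_, h1⟩, h2⟩
  rw [abs_lt] at h1
  exact ⟨h1.1.le, by linarith [h1.2], le_of_lt h2⟩

theorem NUB_fin {W : S2 N →ₗ[ℂ] S2 N} (hW : IsFricke W) (f : S2 N) {Y : ℝ} (hY : 0 < Y) :
    ∑ j : ZMod N, ∫⁻ z in NUB_U Y, ‖fam f (some j) z‖ₑ ^ 2 * ENNReal.ofReal (z.im ^ 2) ≤
      ENNReal.ofReal (∑' n : ℕ, ‖co (W f) n‖ ^ 2 / (4 * Real.pi * n) *
        Real.exp (-4 * Real.pi * n * (Y / N))) := by
  have hN : (0 : ℝ) < N := by exact_mod_cast (Fact.out : N.Prime).pos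
  have : NeZero N := ⟨(Fact.out : N.Prime).ne_zero⟩
  rw [← (strip_sum (W f) (div_pos hY hN)).2]
  show _ ≤ ∫⁻ z in NUB_st 0 1 (Y / N), NUB_h (W f) z
  rw [← NUB_period (W f) (α := -1 + 1 / (2 * N)) (by
      have : 0 ≤ 1 / (2 * (N : ℝ)) := by positivity
      linarith) (by
      have h1 : (1 : ℝ) ≤ N := by exact_mod_cast (Fact.out : N.Prime).one_lt.le
      have : 1 / (2 * (N : ℝ)) ≤ 1 := by rw [div_le_one (by positivity)]; linarith
      linarith)]
  set P : ZMod N → Set ℍ := fun j => {z : ℍ | (-(1 / 2) - (j.val : ℝ)) < N * z.re ∧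
    N * z.re < 1 / 2 - (j.val : ℝ) ∧ Y / N ≤ z.im} with hP
  have hPm : ∀ j, MeasurableSet (P j) := by
    intro j
    have h1 : Measurable (fun z : ℍ => (N : ℝ) * z.re) :=
      UpperHalfPlane.continuous_re.measurable.const_mul _
    have h2 : Measurable (fun z : ℍ => z.im) := UpperHalfPlane.continuous_im.measurable
    exact (measurableSet_lt measurable_const h1).inter
      ((measurableSet_lt h1 measurable_const).inter (measurableSet_le measurable_const h2))
  have h1 : ∀ j : ZMod N, ∫⁻ z in NUB_U Y, ‖fam f (some j) z‖ₑ ^ 2 * ENNReal.ofReal (z.im ^ 2) ≤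
      ∫⁻ z in P j, NUB_h (W f) z := by
    intro j
    rw [← (NUB_zsc_mp (N := N) (j.val : ℝ)).setLIntegral_comp_preimage (hPm j) (NUB_meas (W f))]
    have h2 : ∀ z : ℍ, (zsc N (j.val : ℝ) z).im = z.im / N := by
      intro z
      show (((z : ℂ) - ((j.val : ℝ) : ℂ)) / (N : ℂ)).im = z.im / N
      rw [Complex.div_natCast_im, Complex.sub_im, Complex.ofReal_im, sub_zero]
      rfl
    have h3 : ∀ z : ℍ, (zsc N (j.val : ℝ) z).re = (z.re - j.val) / N := by
      intro z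
      show (((z : ℂ) - ((j.val : ℝ) : ℂ)) / (N : ℂ)).re = (z.re - j.val) / N
      rw [Complex.div_natCast_re, Complex.sub_re, Complex.ofReal_re]
      rfl
    have h4 : ∀ z : ℍ, ‖fam f (some j) z‖ₑ ^ 2 * ENNReal.ofReal (z.im ^ 2) =
        NUB_h (W f) (zsc N (j.val : ℝ) z) := by
      intro z
      unfold NUB_h
      rw [fricke_fam hW f j z, enorm_mul, mul_pow, h2]
      have e1 : ENNReal.ofReal ((z.im / N) ^ 2) =
          ‖((N : ℂ))⁻¹‖ₑ ^ 2 * ENNReal.ofReal (z.im ^ 2) := by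
        rw [← ofReal_norm, ← ENNReal.ofReal_pow (norm_nonneg _), ← ENNReal.ofReal_mul (by positivity)]
        congr 1
        rw [norm_inv, Complex.norm_natCast]
        ring
      rw [e1]
      ring
    simp only [h4]
    apply lintegral_mono_set
    rintro z ⟨⟨_, h5⟩, h6⟩
    rw [abs_lt] at h5
    rw [Set.mem_preimage]
    refine ⟨?_, ?_, ?_⟩
    · rw [h3, mul_div_cancel₀ _ hN.ne']
      linarith [h5.1]
    · rw [h3, mul_div_cancel₀ _ hN.ne']
      linarith [h5.2]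
    · rw [h2]
      exact div_le_div_of_nonneg_right (le_of_lt h6) hN.le
  refine le_trans (Finset.sum_le_sum fun j _ => h1 j) ?_
  have hd : Pairwise (Function.onFun Disjoint P) := by
    intro i j hij
    rw [Function.onFun, Set.disjoint_left]
    rintro z ⟨a1, a2, _⟩ ⟨b1, b2, _⟩
    apply hij
    apply ZMod.val_injective N
    have c1 : (i.val : ℝ) < j.val + 1 := by linarith
    have c2 : (j.val : ℝ) < i.val + 1 := by linarith
    have c3 : i.val < j.val + 1 := by exact_mod_cast c1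
    have c4 : j.val < i.val + 1 := by exact_mod_cast c2
    omega
  rw [← tsum_fintype (L := .unconditional _), ← lintegral_iUnion hPm hd]
  apply lintegral_mono_set
  intro z hz
  rw [Set.mem_iUnion] at hz
  obtain ⟨j, a1, a2, a3⟩ := hz
  have hj : (j.val : ℝ) ≤ N - 1 := by
    have : j.val + 1 ≤ N := ZMod.val_lt j
    have h : ((j.val + 1 : ℕ) : ℝ) ≤ N := by exact_mod_cast this
    push_cast at h
    linarith
  have hj0 : (0 : ℝ) ≤ j.val := Nat.cast_nonneg _
  refine ⟨?_, ?_, a3⟩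
  · have : -1 + 1 / (2 * (N : ℝ)) = (-(N : ℝ) + 1 / 2) / N := by field_simp
    rw [this, div_le_iff₀ hN]
    linarith
  · have : -1 + 1 / (2 * (N : ℝ)) + 1 = (1 / 2) / N := by field_simp; ring
    rw [this, lt_div_iff₀ hN]
    linarith

theorem NUB_main {W : S2 N →ₗ[ℂ] S2 N} (hW : IsFricke W) (f : S2 N) {Y : ℝ} (hY : 0 < Y) :
    ∑ q : PX N, ∫⁻ z in NUB_U Y, ‖fam f q z‖ₑ ^ 2 * ENNReal.ofReal (z.im ^ 2) ≤
      ENNReal.ofReal ((∑' n : ℕ, ‖co f n‖ ^ 2 / (4 * Real.pi * n) *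
        Real.exp (-4 * Real.pi * n * Y)) + ∑' n : ℕ, ‖co (W f) n‖ ^ 2 / (4 * Real.pi * n) *
        Real.exp (-4 * Real.pi * n * (Y / N))) := by
  have h1 : ∑ q : PX N, ∫⁻ z in NUB_U Y, ‖fam f q z‖ₑ ^ 2 * ENNReal.ofReal (z.im ^ 2) =
      (∫⁻ z in NUB_U Y, ‖fam f OnePoint.infty z‖ₑ ^ 2 * ENNReal.ofReal (z.im ^ 2)) +
      ∑ j : ZMod N, ∫⁻ z in NUB_U Y, ‖fam f (some j) z‖ₑ ^ 2 * ENNReal.ofReal (z.im ^ 2) :=
    Fintype.sum_option _
  rw [h1, ENNReal.ofReal_add (tsum_nonneg fun n => by positivity)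
    (tsum_nonneg fun n => by positivity)]
  exact add_le_add (NUB_inf f hY) (NUB_fin hW f hY)

/-- comparison of the series -/
theorem NUB_series (f : S2 N) {Y t : ℝ} (ht : 0 < t) (h : 10 * t ≤ 4 * Real.pi * Y) :
    Summable (fun n : ℕ => ‖co f n‖ ^ 2 / n * Real.exp (-10 * n * t)) ∧
    ∑' n : ℕ, ‖co f n‖ ^ 2 / (4 * Real.pi * n) * Real.exp (-4 * Real.pi * n * Y) ≤
      1 / 2 * ∑' n : ℕ, ‖co f n‖ ^ 2 / n * Real.exp (-10 * n * t) := by
  have hpi := Real.pi_gt_three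
  have hpi0 : (0 : ℝ) < Real.pi := Real.pi_pos
  have hy : 0 < 10 * t / (4 * Real.pi) := by positivity
  have hs : Summable (fun n : ℕ => ‖co f n‖ ^ 2 / n * Real.exp (-10 * n * t)) := by
    have h1 := (strip_sum f hy).1.mul_left (4 * Real.pi)
    refine h1.congr fun n => ?_
    rcases Nat.eq_zero_or_pos n with rfl | hn
    · simp
    · have hn' : (n : ℝ) ≠ 0 := by exact_mod_cast hn.ne'
      rw [show -4 * Real.pi * n * (10 * t / (4 * Real.pi)) = -10 * n * t by field_simp]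
      field_simp
  refine ⟨hs, ?_⟩
  rw [← tsum_mul_left]
  have hY : 0 < Y := by
    by_contra hc
    push Not at hc
    have : 4 * Real.pi * Y ≤ 0 := mul_nonpos_of_nonneg_of_nonpos (by positivity) hc
    linarith
  apply Summable.tsum_le_tsum _ (strip_sum f hY).1 (hs.mul_left _)
  intro n
  rcases Nat.eq_zero_or_pos n with rfl | hn
  · simp
  · have hn' : (0 : ℝ) < n := by exact_mod_cast hn
    have h2 : Real.exp (-4 * Real.pi * n * Y) ≤ Real.exp (-10 * n * t) := by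
      apply Real.exp_le_exp.mpr
      nlinarith
    have h3 : ‖co f n‖ ^ 2 / (4 * Real.pi * n) ≤ 1 / 2 * (‖co f n‖ ^ 2 / n) := by
      rw [show ‖co f n‖ ^ 2 / (4 * Real.pi * n) = 1 / (4 * Real.pi) * (‖co f n‖ ^ 2 / n) by
        field_simp]
      apply mul_le_mul_of_nonneg_right _ (by positivity)
      apply one_div_le_one_div_of_le (by norm_num)
      linarith
    calc _ ≤ (1 / 2 * (‖co f n‖ ^ 2 / n)) * Real.exp (-10 * n * t) :=
          mul_le_mul h3 h2 (Real.exp_pos _).le (by positivity)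
      _ = _ := by ring

theorem nr_le_pr {W : S2 N →ₗ[ℂ] S2 N} (hW : IsFricke W) (f : S2 N) (hf : W f = f ∨ W f = -f) :
    Summable (fun n : ℕ => ‖co f n‖ ^ 2 / n * Real.exp (-10 * n / N)) ∧
    nr f ≤ ∑' n : ℕ, ‖co f n‖ ^ 2 / n * Real.exp (-10 * n / N) := by
  have hN : (0 : ℝ) < N := by exact_mod_cast (Fact.out : N.Prime).pos
  have hN1 : (1 : ℝ) ≤ N := by exact_mod_cast (Fact.out : N.Prime).one_lt.le
  have hpi : 3.14 < Real.pi := Real.pi_gt_d2
  have e1 : ∀ n : ℕ, Real.exp (-10 * n / N) = Real.exp (-10 * n * (1 / N)) := fun n => by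
    rw [mul_one_div]
  simp only [e1]
  have hinv : 1 / (N : ℝ) ≤ 1 := by rw [div_le_one hN]; exact hN1
  have hinv0 : 0 < 1 / (N : ℝ) := by positivity
  obtain ⟨hs, hA⟩ := NUB_series f (Y := 4 / 5) (t := 1 / N) hinv0 (by nlinarith)
  refine ⟨hs, ?_⟩
  have hB := (NUB_series (W f) (Y := 4 / 5 / N) (t := 1 / N) hinv0 (by
    rw [show 10 * (1 / (N : ℝ)) = 10 / N by ring,
      show 4 * Real.pi * (4 / 5 / (N : ℝ)) = (4 * Real.pi * (4 / 5)) / N by ring]
    exact div_le_div_of_nonneg_right (by linarith) hN.le)).2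
  have hco : ∀ n, ‖co (W f) n‖ = ‖co f n‖ := by
    intro n
    rcases hf with h | h
    · rw [h]
    · have e : (-f : S2 N) = (-1 : ℂ) • f := (neg_one_smul ℂ f).symm
      rw [h, e, co_smul, norm_mul, norm_neg, norm_one, one_mul]
  simp only [hco] at hB
  have hm := NUB_main hW f (Y := 4 / 5) (by norm_num)
  have hU : NUB_U (4 / 5) = 𝒟ᵒ := by
    unfold NUB_U
    apply Set.inter_eq_left.mpr
    rintro z ⟨h1, h2⟩
    show 4 / 5 < z.im
    have h3 : z.re ^ 2 < 1 / 4 := by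
      rw [abs_lt] at h2
      nlinarith [h2.1, h2.2]
    have h4 : Complex.normSq (z : ℂ) = z.re ^ 2 + z.im ^ 2 := by
      rw [Complex.normSq_apply]
      show z.re * z.re + z.im * z.im = _
      ring
    have h5 := z.im_pos
    by_contra hc
    push Not at hc
    nlinarith
  rw [hU] at hm
  have hen : ENNReal.ofReal (nr f) ≤ ENNReal.ofReal ((∑' n : ℕ, ‖co f n‖ ^ 2 / (4 * Real.pi * n) *
        Real.exp (-4 * Real.pi * n * (4 / 5))) + ∑' n : ℕ, ‖co f n‖ ^ 2 / (4 * Real.pi * n) *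
        Real.exp (-4 * Real.pi * n * (4 / 5 / N))) := by
    rw [nr_en]
    simp only [hco] at hm
    exact hm
  rw [ENNReal.ofReal_le_ofReal_iff (add_nonneg (tsum_nonneg fun n => by positivity)
    (tsum_nonneg fun n => by positivity))] at hen
  linarith

/-- for all `f`, the part of the energy above height `Y` -/
theorem cusp_mass_pr {W : S2 N →ₗ[ℂ] S2 N} (hW : IsFricke W) (f : S2 N) {Y : ℝ} (hY : 1 ≤ Y) :
    ∑ q : PX N, ∫⁻ z in 𝒟ᵒ ∩ {z : ℍ | Y < z.im}, ‖fam f q z‖ₑ ^ 2 * ENNReal.ofReal (z.im ^ 2) ≤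
      ENNReal.ofReal (∑' n : ℕ, ‖co f n‖ ^ 2 / n * Real.exp (-10 * n * Y) +
        ∑' n : ℕ, ‖co (W f) n‖ ^ 2 / n * Real.exp (-10 * n * Y / N)) := by
  have hN : (0 : ℝ) < N := by exact_mod_cast (Fact.out : N.Prime).pos
  have hpi : 3.14 < Real.pi := Real.pi_gt_d2
  refine le_trans (NUB_main hW f (Y := Y) (by linarith)) ?_
  apply ENNReal.ofReal_le_ofReal
  have hA := (NUB_series f (Y := Y) (t := Y) (by linarith) (by nlinarith)).2
  have hB := (NUB_series (W f) (Y := Y / N) (t := Y / N) (by positivity) (by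
    have : 0 < Y / N := by positivity
    nlinarith)).2
  have hA0 : 0 ≤ ∑' n : ℕ, ‖co f n‖ ^ 2 / n * Real.exp (-10 * n * Y) :=
    tsum_nonneg fun n => by positivity
  have hB0 : 0 ≤ ∑' n : ℕ, ‖co (W f) n‖ ^ 2 / n * Real.exp (-10 * n * (Y / N)) :=
    tsum_nonneg fun n => by positivity
  have e1 : ∀ n : ℕ, Real.exp (-10 * n * Y / N) = Real.exp (-10 * n * (Y / N)) := fun n => by
    rw [mul_div_assoc]
  simp only [e1]
  linarith

end

theorem nr_le : type_of% @nr_le_pr := @nr_le_pr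
theorem cusp_mass : type_of% @cusp_mass_pr := @cusp_mass_pr

end Pool.Agent.LEV
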