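import Pool.Agent.Lib_helper68.LEV.DefsC
import Pool.Agent.Lib_helper68.LEV.EIA
import Pool.Agent.Lib_helper68.LEV.FRK
import Pool.Agent.Lib_helper68.LEV.LSD
import Pool.Agent.Lib_helper68.LEV.NUB
import Pool.Agent.Lib_helper68.LEV.PET
import Pool.Agent.Lib_helper68.LEV.QEX
import Pool.Agent.Lib_helper68.LEV.TRC

/-! Block INV: the sum of the norms of the newforms is at most `C N ^ 2`. -/

namespace Pool.Agent.LEV

open Complex MeasureTheory Filter Topology UpperHalfPlane ModularGroup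
open scoped MatrixGroups Modular ENNReal ModularForm ComplexConjugate ContDiff

/-- the real sequence of the coefficients of a newform -/
structure INV_seq (N : ℕ) (a : ℕ → ℝ) : Prop where
  one : a 1 = 1
  mul : ∀ m n : ℕ, m.Coprime n → a (m * n) = a m * a n
  hecke : ∀ p r : ℕ, p.Prime → p ≠ N →
    a (p ^ (r + 2)) = a p * a (p ^ (r + 1)) - (p : ℝ) * a (p ^ r)
  level : ∀ n : ℕ, a (N * n) ^ 2 = a n ^ 2

section seq
variable {N : ℕ} {a : ℕ → ℝ}

theorem INV_cheb (h : INV_seq N a) {p : ℕ} (hp : p.Prime) (hpN : p ≠ N) (m : ℕ) : ∀ n : ℕ,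
    a (p ^ (m + n + 2)) = a (p ^ (m + 1)) * a (p ^ (n + 1)) - (p : ℝ) * (a (p ^ m) * a (p ^ n)) := by
  have h0 : a (p ^ 0) = 1 := by simpa using h.one
  have hh : ∀ r, a (p ^ (r + 2)) = a p * a (p ^ (r + 1)) - (p : ℝ) * a (p ^ r) :=
    fun r => h.hecke p r hp hpN
  have key : ∀ n : ℕ,
      (a (p ^ (m + n + 2)) = a (p ^ (m + 1)) * a (p ^ (n + 1)) - (p : ℝ) * (a (p ^ m) * a (p ^ n))) ∧
      (a (p ^ (m + (n + 1) + 2)) = a (p ^ (m + 1)) * a (p ^ ((n + 1) + 1)) -
        (p : ℝ) * (a (p ^ m) * a (p ^ (n + 1)))) := by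
    intro n
    induction n with
    | zero =>
      constructor
      · have := hh m
        rw [show m + 0 + 2 = m + 2 by ring, this, h0]
        simp only [zero_add, pow_one]
        ring
      · have e1 := hh (m + 1)
        have e2 := hh m
        have e3 := hh 0
        rw [show m + (0 + 1) + 2 = m + 1 + 2 by ring, e1, show m + 1 + 1 = m + 2 by ring, e2]
        rw [show (0 + 1) + 1 = 0 + 2 by ring, e3, h0]
        simp only [zero_add, pow_one]
        ring
    | succ n ih =>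
      refine ⟨ih.2, ?_⟩
      have e1 := hh (m + n + 2)
      have e2 := hh (n + 1)
      have e3 := hh n
      have i1 := ih.1
      have i2 := ih.2
      rw [show m + (n + 1 + 1) + 2 = (m + n + 2) + 2 by ring, e1,
        show m + n + 2 + 1 = m + (n + 1) + 2 by ring, i2, i1,
        show n + 1 + 1 + 1 = (n + 1) + 2 by ring, e2,
        show n + 1 + 1 = n + 2 by ring, e3]
      ring
  exact fun n => (key n).1

theorem INV_pp (h : INV_seq N a) {p : ℕ} (hp : p.Prime) (hpN : p ≠ N) (r : ℕ) :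
    a (p ^ r) ^ 2 = ∑ j ∈ Finset.range (r + 1), a ((p ^ j) ^ 2) * (p : ℝ) ^ (r - j) := by
  induction r with
  | zero => simp [h.one]
  | succ r ih =>
    rw [Finset.sum_range_succ]
    have e : ∑ j ∈ Finset.range (r + 1), a ((p ^ j) ^ 2) * (p : ℝ) ^ (r + 1 - j) =
        (p : ℝ) * ∑ j ∈ Finset.range (r + 1), a ((p ^ j) ^ 2) * (p : ℝ) ^ (r - j) := by
      rw [Finset.mul_sum]
      apply Finset.sum_congr rfl
      intro j hj
      have hj' : j ≤ r := Nat.lt_succ_iff.mp (Finset.mem_range.mp hj)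
      rw [show r + 1 - j = (r - j) + 1 by omega, pow_succ]
      ring
    rw [e, ← ih]
    have c := INV_cheb h hp hpN r r
    rw [show (p ^ (r + 1)) ^ 2 = p ^ (r + r + 2) by rw [← pow_mul]; ring_nf, c]
    simp only [Nat.sub_self, pow_zero, mul_one]
    ring

open ArithmeticFunction in
/-- the divisor identity -/
theorem INV_div [hN : Fact N.Prime] (h : INV_seq N a) (m : ℕ) (hm : ¬ N ∣ m) :
    a m ^ 2 = ∑ x ∈ m.divisorsAntidiagonal, a (x.1 ^ 2) * (x.2 : ℝ) := by
  classical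
  have hNp : N.Prime := hN.out
  let F : ArithmeticFunction ℝ := ⟨fun d => if N ∣ d then 0 else a (d ^ 2), by simp⟩
  let G : ArithmeticFunction ℝ := ⟨fun d => if N ∣ d then 0 else (d : ℝ), by simp⟩
  let H : ArithmeticFunction ℝ := ⟨fun d => if N ∣ d then 0 else a d ^ 2, by simp⟩
  have hF : ∀ d, F d = if N ∣ d then 0 else a (d ^ 2) := fun _ => rfl
  have hG : ∀ d, G d = if N ∣ d then 0 else (d : ℝ) := fun _ => rfl
  have hH : ∀ d, H d = if N ∣ d then 0 else a d ^ 2 := fun _ => rfl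
  have hN1 : ¬ N ∣ 1 := fun h1 => hNp.one_lt.ne' (Nat.dvd_one.mp h1)
  have mF : F.IsMultiplicative := by
    refine ⟨by rw [hF, if_neg hN1]; simpa using h.one, ?_⟩
    intro u v huv
    rw [hF, hF, hF]
    by_cases hu : N ∣ u
    · rw [if_pos (dvd_mul_of_dvd_left hu v), if_pos hu, zero_mul]
    by_cases hv : N ∣ v
    · rw [if_pos (dvd_mul_of_dvd_right hv u), if_pos hv, mul_zero]
    rw [if_neg (fun h' => ((Nat.Prime.dvd_mul hNp).mp h').elim hu hv), if_neg hu, if_neg hv,
      mul_pow, h.mul _ _ (Nat.Coprime.pow 2 2 huv)]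
  have mG : G.IsMultiplicative := by
    refine ⟨by rw [hG, if_neg hN1]; simp, ?_⟩
    intro u v huv
    rw [hG, hG, hG]
    by_cases hu : N ∣ u
    · rw [if_pos (dvd_mul_of_dvd_left hu v), if_pos hu, zero_mul]
    by_cases hv : N ∣ v
    · rw [if_pos (dvd_mul_of_dvd_right hv u), if_pos hv, mul_zero]
    rw [if_neg (fun h' => ((Nat.Prime.dvd_mul hNp).mp h').elim hu hv), if_neg hu, if_neg hv,
      Nat.cast_mul]
  have mH : H.IsMultiplicative := by
    refine ⟨by rw [hH, if_neg hN1, h.one, one_pow], ?_⟩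
    intro u v huv
    rw [hH, hH, hH]
    by_cases hu : N ∣ u
    · rw [if_pos (dvd_mul_of_dvd_left hu v), if_pos hu, zero_mul]
    by_cases hv : N ∣ v
    · rw [if_pos (dvd_mul_of_dvd_right hv u), if_pos hv, mul_zero]
    rw [if_neg (fun h' => ((Nat.Prime.dvd_mul hNp).mp h').elim hu hv), if_neg hu, if_neg hv,
      h.mul _ _ huv, mul_pow]
  have key : H = F * G := by
    rw [IsMultiplicative.eq_iff_eq_on_prime_powers H mH (F * G) (mF.mul mG)]
    intro p i hp
    rw [ArithmeticFunction.mul_apply, Nat.sum_divisorsAntidiagonal (fun x y => F x * G y),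
      Nat.sum_divisors_prime_pow hp]
    by_cases hpN : p = N
    · subst hpN
      rw [hH]
      by_cases hi : i = 0
      · subst hi
        simp [hF, hG, h.one, hp.ne_one]
      · rw [if_pos (dvd_pow_self p hi)]
        symm
        apply Finset.sum_eq_zero
        intro j hj
        rw [Nat.pow_div (Nat.lt_succ_iff.mp (Finset.mem_range.mp hj)) hp.pos, hF, hG]
        by_cases hj0 : j = 0
        · subst hj0
          rw [if_pos (c := p ∣ p ^ (i - 0)) (dvd_pow_self p (by omega)), mul_zero]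
        · rw [if_pos (dvd_pow_self p hj0), zero_mul]
    · have hnd : ∀ k, ¬ N ∣ p ^ k := fun k hk =>
        hpN ((Nat.prime_dvd_prime_iff_eq hNp hp).mp (hNp.dvd_of_dvd_pow hk)).symm
      rw [hH, if_neg (hnd i), INV_pp h hp hpN i]
      apply Finset.sum_congr rfl
      intro j hj
      rw [Nat.pow_div (Nat.lt_succ_iff.mp (Finset.mem_range.mp hj)) hp.pos, hF, hG,
        if_neg (hnd j), if_neg (hnd (i - j)), Nat.cast_pow]
  have k2 : H m = (F * G) m := by rw [key]
  rw [hH, if_neg hm, ArithmeticFunction.mul_apply] at k2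
  rw [k2]
  apply Finset.sum_congr rfl
  intro x hx
  have hx1 := (Nat.mem_divisorsAntidiagonal.mp hx).1
  rw [hF, hG, if_neg (fun h' => hm (hx1 ▸ dvd_mul_of_dvd_left h' x.2)),
    if_neg (fun h' => hm (hx1 ▸ dvd_mul_of_dvd_right h' x.1))]

/-- the elements prime to `N` carry at least half of the sum -/
theorem INV_half [hN : Fact N.Prime] (h : INV_seq N a) (M : ℕ) :
    ∑ n ∈ Finset.Icc 1 M, a n ^ 2 / n * Real.exp (-10 * n / N) ≤
      2 * ∑ n ∈ (Finset.Icc 1 M).filter (fun n => ¬ N ∣ n), a n ^ 2 / n * Real.exp (-10 * n / N) := by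
  have hNp : N.Prime := hN.out
  have hN2 : (2 : ℝ) ≤ N := by exact_mod_cast hNp.two_le
  have hN0 : (0 : ℝ) < N := by linarith
  set F : ℕ → ℝ := fun n => a n ^ 2 / n * Real.exp (-10 * n / N) with hF
  have hF0 : ∀ n, 0 ≤ F n := fun n => by
    simp only [hF]; positivity
  have h1 : ∑ n ∈ (Finset.Icc 1 M).filter (fun n => N ∣ n), F n ≤
      (1 / 2) * ∑ n ∈ Finset.Icc 1 M, F n := by
    have h2 : ∀ n ∈ (Finset.Icc 1 M).filter (fun n => N ∣ n), F n ≤ (1 / 2) * F (n / N) := by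
      intro n hn
      obtain ⟨hn1, hn2⟩ := Finset.mem_filter.mp hn
      obtain ⟨k, rfl⟩ := hn2
      rw [Nat.mul_div_cancel_left k hNp.pos]
      have hk : 0 < k := by
        rcases Nat.eq_zero_or_pos k with h0 | h0
        · subst h0; simp at hn1
        · exact h0
      have hk' : (0 : ℝ) < k := by exact_mod_cast hk
      simp only [hF]
      rw [h.level k]
      push_cast
      have e1 : Real.exp (-10 * (N * k) / N) ≤ Real.exp (-10 * k / N) := by
        apply Real.exp_le_exp.mpr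
        rw [div_le_div_iff_of_pos_right hN0]
        nlinarith
      have e2 : a k ^ 2 / (N * k) ≤ (1 / 2) * (a k ^ 2 / k) := by
        rw [div_le_iff₀ (by positivity)]
        have : (1 / 2) * (a k ^ 2 / k) * (N * k) = a k ^ 2 * (N / 2) := by
          field_simp
        rw [this]
        nlinarith [sq_nonneg (a k)]
      calc a k ^ 2 / (N * k) * Real.exp (-10 * (N * k) / N)
          ≤ (1 / 2) * (a k ^ 2 / k) * Real.exp (-10 * k / N) :=
            mul_le_mul e2 e1 (Real.exp_nonneg _) (by positivity)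
        _ = _ := by ring
    refine (Finset.sum_le_sum h2).trans ?_
    rw [← Finset.mul_sum]
    apply mul_le_mul_of_nonneg_left _ (by norm_num)
    have h3 : ∑ n ∈ (Finset.Icc 1 M).filter (fun n => N ∣ n), F (n / N) =
        ∑ k ∈ ((Finset.Icc 1 M).filter (fun n => N ∣ n)).image (fun n => n / N), F k := by
      rw [Finset.sum_image]
      intro x hx y hy hxy
      have hx2 := (Finset.mem_filter.mp (Finset.mem_coe.mp hx)).2
      have hy2 := (Finset.mem_filter.mp (Finset.mem_coe.mp hy)).2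
      simp only at hxy
      rw [← Nat.div_mul_cancel hx2, ← Nat.div_mul_cancel hy2, hxy]
    rw [h3]
    apply Finset.sum_le_sum_of_subset_of_nonneg
    · intro k hk
      obtain ⟨n, hn, rfl⟩ := Finset.mem_image.mp hk
      obtain ⟨hn1, hn2⟩ := Finset.mem_filter.mp hn
      obtain ⟨k, rfl⟩ := hn2
      rw [Nat.mul_div_cancel_left k hNp.pos]
      have := Finset.mem_Icc.mp hn1
      refine Finset.mem_Icc.mpr ⟨?_, ?_⟩
      · rcases Nat.eq_zero_or_pos k with h0 | h0
        · subst h0; simp at this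
        · exact h0
      · exact le_trans (Nat.le_mul_of_pos_left k hNp.pos) this.2
    · intro k _ _; exact hF0 k
  have h4 := Finset.sum_filter_add_sum_filter_not (Finset.Icc 1 M) (fun n => N ∣ n) F
  linarith

/-- the cut-off Lambert sum -/
noncomputable def INV_g (N M d : ℕ) : ℝ :=
  ∑ l ∈ (Finset.Icc 1 M).filter (fun l => ¬ N ∣ l ∧ d * l ≤ M), Real.exp (-10 * (d * l) / N)

/-- the coefficients at the squares -/
noncomputable def INV_b (N : ℕ) (a : ℕ → ℝ) (d : ℕ) : ℝ := if N ∣ d then 0 else a (d ^ 2) / d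

theorem INV_T [hN : Fact N.Prime] (h : INV_seq N a) (M : ℕ) :
    ∑ n ∈ (Finset.Icc 1 M).filter (fun n => ¬ N ∣ n), a n ^ 2 / n * Real.exp (-10 * n / N) =
      ∑ d ∈ Finset.Icc 1 M, INV_b N a d * INV_g N M d := by
  classical
  have hNp : N.Prime := hN.out
  set P := (Finset.Icc 1 M ×ˢ Finset.Icc 1 M).filter
    (fun x : ℕ × ℕ => x.1 * x.2 ≤ M ∧ ¬ N ∣ x.1 * x.2) with hP
  set f : ℕ × ℕ → ℝ := fun x => a (x.1 ^ 2) / x.1 * Real.exp (-10 * (x.1 * x.2) / N) with hf
  have h1 : ∑ n ∈ (Finset.Icc 1 M).filter (fun n => ¬ N ∣ n), a n ^ 2 / n * Real.exp (-10 * n / N) =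
      ∑ x ∈ P, f x := by
    rw [← Finset.sum_fiberwise_of_maps_to (s := P) (t := (Finset.Icc 1 M).filter (fun n => ¬ N ∣ n))
      (g := fun x : ℕ × ℕ => x.1 * x.2)]
    · apply Finset.sum_congr rfl
      intro n hn
      obtain ⟨hn1, hn2⟩ := Finset.mem_filter.mp hn
      have hn3 := Finset.mem_Icc.mp hn1
      have e1 : P.filter (fun x : ℕ × ℕ => x.1 * x.2 = n) = n.divisorsAntidiagonal := by
        ext x
        rw [Nat.mem_divisorsAntidiagonal, Finset.mem_filter, hP, Finset.mem_filter,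
          Finset.mem_product, Finset.mem_Icc, Finset.mem_Icc]
        constructor
        · intro hx
          exact ⟨hx.2, by omega⟩
        · rintro ⟨hx1, hx2⟩
          have p1 : 0 < x.1 := Nat.pos_of_ne_zero (fun h0 => by rw [h0, zero_mul] at hx1; omega)
          have p2 : 0 < x.2 := Nat.pos_of_ne_zero (fun h0 => by rw [h0, mul_zero] at hx1; omega)
          have q1 : x.1 ≤ n := hx1 ▸ Nat.le_mul_of_pos_right x.1 p2
          have q2 : x.2 ≤ n := hx1 ▸ Nat.le_mul_of_pos_left x.2 p1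
          refine ⟨⟨⟨⟨p1, by omega⟩, ⟨p2, by omega⟩⟩, by omega, ?_⟩, hx1⟩
          rw [hx1]; exact hn2
      rw [e1, INV_div h n hn2, Finset.sum_div, Finset.sum_mul]
      apply Finset.sum_congr rfl
      intro x hx
      have hx1 := (Nat.mem_divisorsAntidiagonal.mp hx).1
      have hx2 := (Nat.mem_divisorsAntidiagonal.mp hx).2
      have p1 : (x.1 : ℝ) ≠ 0 := by
        rw [Nat.cast_ne_zero]; intro h0; rw [h0, zero_mul] at hx1; exact hx2 hx1.symm
      have p2 : (x.2 : ℝ) ≠ 0 := by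
        rw [Nat.cast_ne_zero]; intro h0; rw [h0, mul_zero] at hx1; exact hx2 hx1.symm
      simp only [hf]
      rw [← hx1, Nat.cast_mul]
      congr 1
      field_simp
    · intro x hx
      obtain ⟨hx1, hx2⟩ := Finset.mem_filter.mp hx
      obtain ⟨hx3, hx4⟩ := Finset.mem_product.mp hx1
      have := Finset.mem_Icc.mp hx3
      have := Finset.mem_Icc.mp hx4
      refine Finset.mem_filter.mpr ⟨Finset.mem_Icc.mpr ⟨?_, hx2.1⟩, hx2.2⟩
      exact Nat.mul_pos (by omega) (by omega)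
  rw [h1, hP, Finset.sum_filter, Finset.sum_product]
  apply Finset.sum_congr rfl
  intro d _
  rw [INV_g, Finset.sum_filter, Finset.mul_sum]
  apply Finset.sum_congr rfl
  intro l _
  simp only [hf, INV_b]
  by_cases hd : N ∣ d
  · rw [if_neg (fun h' => h'.2 (dvd_mul_of_dvd_left hd l)), if_pos hd, zero_mul]
  by_cases hl : N ∣ l
  · rw [if_neg (fun h' => h'.2 (dvd_mul_of_dvd_right hl d)), if_neg (c := ¬ N ∣ l ∧ d * l ≤ M)
      (fun h' => h'.1 hl), mul_zero]
  by_cases hM : d * l ≤ M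
  · rw [if_pos ⟨hM, fun h' => ((Nat.Prime.dvd_mul hNp).mp h').elim hd hl⟩, if_neg hd, if_pos ⟨hl, hM⟩]
  · rw [if_neg (fun h' => hM h'.1), if_neg (c := ¬ N ∣ l ∧ d * l ≤ M) (fun h' => hM h'.2), mul_zero]

end seq

theorem INV_abel (b g : ℕ → ℝ) (M : ℕ) :
    ∑ d ∈ Finset.Icc 1 M, b d * g d =
      ∑ D ∈ Finset.Icc 1 M, (g D - g (D + 1)) * ∑ d ∈ Finset.Icc 1 D, b d
        + g (M + 1) * ∑ d ∈ Finset.Icc 1 M, b d := by
  induction M with
  | zero => simp
  | succ M ih =>
    rw [Finset.sum_Icc_succ_top (by omega), ih, Finset.sum_Icc_succ_top (by omega),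
      Finset.sum_Icc_succ_top (by omega)]
    ring

theorem INV_g_zero (N M : ℕ) : INV_g N M (M + 1) = 0 := by
  unfold INV_g
  rw [Finset.sum_eq_zero]
  intro l hl
  obtain ⟨h1, h2, h3⟩ := Finset.mem_filter.mp hl
  have := Finset.mem_Icc.mp h1
  exfalso
  have : (M + 1) * 1 ≤ (M + 1) * l := Nat.mul_le_mul_left _ this.1
  omega

theorem INV_g_nonneg (N M d : ℕ) : 0 ≤ INV_g N M d :=
  Finset.sum_nonneg (fun _ _ => Real.exp_nonneg _)

theorem INV_g_anti {N : ℕ} (hN : 0 < N) (M d : ℕ) : INV_g N M (d + 1) ≤ INV_g N M d := by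
  unfold INV_g
  have hN0 : (0 : ℝ) < N := by exact_mod_cast hN
  calc ∑ l ∈ (Finset.Icc 1 M).filter (fun l => ¬ N ∣ l ∧ (d + 1) * l ≤ M),
        Real.exp (-10 * (((d + 1 : ℕ) : ℝ) * l) / N)
      ≤ ∑ l ∈ (Finset.Icc 1 M).filter (fun l => ¬ N ∣ l ∧ (d + 1) * l ≤ M),
        Real.exp (-10 * ((d : ℝ) * l) / N) := by
        apply Finset.sum_le_sum
        intro l _
        apply Real.exp_le_exp.mpr
        rw [div_le_div_iff_of_pos_right hN0]
        push_cast
        nlinarith [(Nat.cast_nonneg l : (0 : ℝ) ≤ l)]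
    _ ≤ _ := by
        apply Finset.sum_le_sum_of_subset_of_nonneg
        · intro l hl
          obtain ⟨h1, h2, h3⟩ := Finset.mem_filter.mp hl
          refine Finset.mem_filter.mpr ⟨h1, h2, le_trans ?_ h3⟩
          exact Nat.mul_le_mul_right l (Nat.le_succ d)
        · intro l _ _; exact Real.exp_nonneg _

theorem INV_geom {x : ℝ} (hx : 0 < x) (M : ℕ) :
    ∑ l ∈ Finset.Icc 1 M, Real.exp (-(x * l)) ≤ Real.exp (-(x / 2)) / x := by
  have h1 : ∑ l ∈ Finset.Icc 1 M, Real.exp (-(x * l)) * (Real.exp x - 1) =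
      1 - Real.exp (-(x * M)) := by
    induction M with
    | zero => simp
    | succ M ih =>
      rw [Finset.sum_Icc_succ_top (by omega), ih]
      push_cast
      have : Real.exp (-(x * (M + 1))) * Real.exp x = Real.exp (-(x * M)) := by
        rw [← Real.exp_add]; congr 1; ring
      linear_combination this
  rw [← Finset.sum_mul] at h1
  have h2 : x * Real.exp (x / 2) ≤ Real.exp x - 1 := by
    have h3 : x / 2 ≤ Real.sinh (x / 2) := Real.self_le_sinh_iff.mpr (by linarith)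
    rw [Real.sinh_eq] at h3
    have h4 : Real.exp (x / 2) * Real.exp (x / 2) = Real.exp x := by
      rw [← Real.exp_add]; congr 1; ring
    have h5 : Real.exp (x / 2) * Real.exp (-(x / 2)) = 1 := by
      rw [← Real.exp_add]; simp
    nlinarith [Real.exp_pos (x / 2)]
  set s := ∑ l ∈ Finset.Icc 1 M, Real.exp (-(x * l)) with hs
  have hs0 : 0 ≤ s := Finset.sum_nonneg (fun _ _ => Real.exp_nonneg _)
  have h6 : s * (x * Real.exp (x / 2)) ≤ 1 := by
    calc s * (x * Real.exp (x / 2)) ≤ s * (Real.exp x - 1) := mul_le_mul_of_nonneg_left h2 hs0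
      _ ≤ 1 := by rw [h1]; linarith [Real.exp_pos (-(x * M))]
  rw [le_div_iff₀ hx, Real.exp_neg, ← one_div, le_div_iff₀ (Real.exp_pos _)]
  linarith

theorem INV_g_le {N : ℕ} (hN : 0 < N) (M d : ℕ) (hd : 0 < d) :
    INV_g N M d ≤ N / (10 * d) * Real.exp (-(5 * d / N)) := by
  have hN0 : (0 : ℝ) < N := by exact_mod_cast hN
  have hd0 : (0 : ℝ) < d := by exact_mod_cast hd
  have h1 := INV_geom (x := 10 * d / N) (by positivity) M
  have h2 : INV_g N M d ≤ ∑ l ∈ Finset.Icc 1 M, Real.exp (-(10 * d / N * l)) := by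
    unfold INV_g
    calc _ = ∑ l ∈ (Finset.Icc 1 M).filter (fun l => ¬ N ∣ l ∧ d * l ≤ M),
          Real.exp (-(10 * d / N * l)) := by
          apply Finset.sum_congr rfl
          intro l _
          congr 1
          ring
      _ ≤ _ := Finset.sum_le_sum_of_subset_of_nonneg (Finset.filter_subset _ _)
          (fun l _ _ => Real.exp_nonneg _)
  refine h2.trans (h1.trans (le_of_eq ?_))
  rw [show -(10 * (d : ℝ) / N / 2) = -(5 * d / N) by ring]
  field_simp

theorem INV_s1 (M : ℕ) : ∑ k ∈ Finset.Icc 1 M, 1 / ((k : ℝ) * Real.sqrt k) ≤ 3 := by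
  have h : ∀ M : ℕ, ∑ k ∈ Finset.Icc 1 (M + 1), 1 / ((k : ℝ) * Real.sqrt k) ≤
      3 - 2 / Real.sqrt (M + 1) := by
    intro M
    induction M with
    | zero => norm_num
    | succ M ih =>
      rw [Finset.sum_Icc_succ_top (by omega)]
      push_cast
      set u := Real.sqrt (M + 1) with hu
      set v := Real.sqrt (M + 1 + 1) with hv
      have hu0 : 0 < u := Real.sqrt_pos.mpr (by positivity)
      have hv0 : 0 < v := Real.sqrt_pos.mpr (by positivity)
      have hu2 : u ^ 2 = M + 1 := Real.sq_sqrt (by positivity)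
      have hv2 : v ^ 2 = M + 1 + 1 := Real.sq_sqrt (by positivity)
      have huv : u ≤ v := Real.sqrt_le_sqrt (by linarith)
      have key : 1 / (((M : ℝ) + 1 + 1) * v) ≤ 2 / u - 2 / v := by
        rw [← hv2, div_sub_div _ _ hu0.ne' hv0.ne', div_le_div_iff₀ (by positivity) (by positivity)]
        have e : (v - u) * (v + u) = 1 := by nlinarith
        have e1 : (2 * v - u * 2) * (v ^ 2 * v) * (v + u) = 2 * v ^ 3 := by
          linear_combination 2 * v ^ 3 * e
        have e2 : 1 * (u * v) * (v + u) ≤ 2 * v ^ 3 := by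
          nlinarith [mul_pos hu0 hv0, mul_nonneg hv0.le (mul_nonneg hv0.le (sub_nonneg.mpr huv)),
            mul_nonneg hv0.le (mul_nonneg hu0.le (sub_nonneg.mpr huv)),
            mul_nonneg hv0.le (mul_nonneg (sub_nonneg.mpr huv) (sub_nonneg.mpr huv))]
        have e3 : 1 * (u * v) * (v + u) ≤ (2 * v - u * 2) * (v ^ 2 * v) * (v + u) := by
          rw [e1]; exact e2
        exact le_of_mul_le_mul_right e3 (by positivity)
      linarith
  rcases M with _ | M
  · simp
  · have := h M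
    have h2 : 0 ≤ 2 / Real.sqrt ((M : ℝ) + 1) := by positivity
    linarith

theorem INV_s2 (M : ℕ) : ∑ k ∈ Finset.Icc 1 M, 1 / Real.sqrt k ≤ 2 * Real.sqrt M := by
  induction M with
  | zero => simp
  | succ M ih =>
    rw [Finset.sum_Icc_succ_top (by omega)]
    push_cast
    set u := Real.sqrt M with hu
    set v := Real.sqrt (M + 1) with hv
    have hu0 : 0 ≤ u := Real.sqrt_nonneg _
    have hv0 : 0 < v := Real.sqrt_pos.mpr (by positivity)
    have hu2 : u ^ 2 = M := Real.sq_sqrt (by positivity)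
    have hv2 : v ^ 2 = M + 1 := Real.sq_sqrt (by positivity)
    have huv : u ≤ v := Real.sqrt_le_sqrt (by linarith)
    have key : 1 / v ≤ 2 * v - 2 * u := by
      rw [div_le_iff₀ hv0]
      nlinarith
    linarith

theorem INV_s3 {N : ℕ} (hN : 0 < N) (M : ℕ) :
    ∑ k ∈ Finset.Icc 1 M, Real.exp (-(5 * k / N)) / Real.sqrt k ≤ 3 * Real.sqrt N := by
  have hN0 : (0 : ℝ) < N := by exact_mod_cast hN
  have hs : 0 < Real.sqrt N := Real.sqrt_pos.mpr hN0
  have h1 : ∀ k ∈ Finset.Icc 1 M, Real.exp (-(5 * k / N)) / Real.sqrt k ≤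
      (if k ≤ N then 1 / Real.sqrt k else 0) + Real.exp (-(5 / N * k)) / Real.sqrt N := by
    intro k hk
    have hk0 : (0 : ℝ) < k := by
      have := (Finset.mem_Icc.mp hk).1
      exact_mod_cast this
    have hsk : 0 < Real.sqrt k := Real.sqrt_pos.mpr hk0
    split_ifs with hkN
    · have e1 : Real.exp (-(5 * k / N)) ≤ 1 := by
        rw [← Real.exp_zero]
        exact Real.exp_le_exp.mpr (by
          have : 0 ≤ 5 * (k : ℝ) / N := by positivity
          linarith)
      have e2 : Real.exp (-(5 * k / N)) / Real.sqrt k ≤ 1 / Real.sqrt k :=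
        div_le_div_of_nonneg_right e1 hsk.le
      have e3 : 0 ≤ Real.exp (-(5 / N * k)) / Real.sqrt N := by positivity
      linarith
    · rw [zero_add, show -(5 / (N : ℝ) * k) = -(5 * k / N) by ring]
      apply div_le_div_of_nonneg_left (Real.exp_nonneg _) hs
      exact Real.sqrt_le_sqrt (by exact_mod_cast (not_le.mp hkN).le)
  refine (Finset.sum_le_sum h1).trans ?_
  rw [Finset.sum_add_distrib, ← Finset.sum_div]
  have h2 : ∑ k ∈ Finset.Icc 1 M, (if k ≤ N then 1 / Real.sqrt k else 0) ≤ 2 * Real.sqrt N := by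
    refine le_trans ?_ (INV_s2 N)
    rw [← Finset.sum_filter]
    apply Finset.sum_le_sum_of_subset_of_nonneg
    · intro k hk
      obtain ⟨hk1, hk2⟩ := Finset.mem_filter.mp hk
      exact Finset.mem_Icc.mpr ⟨(Finset.mem_Icc.mp hk1).1, hk2⟩
    · intro k _ _; positivity
  have h3 := INV_geom (x := 5 / N) (by positivity) M
  have h4 : Real.exp (-(5 / (N : ℝ) / 2)) / (5 / N) ≤ N := by
    rw [div_le_iff₀ (by positivity)]
    have : Real.exp (-(5 / (N : ℝ) / 2)) ≤ 1 := by
      rw [← Real.exp_zero]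
      exact Real.exp_le_exp.mpr (by
        have : 0 ≤ 5 / (N : ℝ) / 2 := by positivity
        linarith)
    have e : (N : ℝ) * (5 / N) = 5 := by field_simp
    rw [e]; linarith
  have h5 : (∑ k ∈ Finset.Icc 1 M, Real.exp (-(5 / (N : ℝ) * k))) / Real.sqrt N ≤ Real.sqrt N := by
    rw [div_le_iff₀ hs, Real.mul_self_sqrt hN0.le]
    exact h3.trans h4
  linarith

/-- the increments of the size function -/
noncomputable def INV_psi (N k : ℕ) : ℝ := 1 / Real.sqrt k + 2 * Real.sqrt k / Real.sqrt N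

theorem INV_total {N : ℕ} (hN : 0 < N) (M : ℕ) :
    ∑ k ∈ Finset.Icc 1 M, INV_psi N k * INV_g N M k ≤ N := by
  have hN0 : (0 : ℝ) < N := by exact_mod_cast hN
  have hs : 0 < Real.sqrt N := Real.sqrt_pos.mpr hN0
  have hs2 : Real.sqrt N ^ 2 = N := Real.sq_sqrt hN0.le
  have h1 : ∀ k ∈ Finset.Icc 1 M, INV_psi N k * INV_g N M k ≤
      N / 10 * (1 / ((k : ℝ) * Real.sqrt k)) +
        Real.sqrt N / 5 * (Real.exp (-(5 * k / N)) / Real.sqrt k) := by
    intro k hk
    have hk1 := (Finset.mem_Icc.mp hk).1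
    have hk0 : (0 : ℝ) < k := by exact_mod_cast hk1
    have hsk : 0 < Real.sqrt k := Real.sqrt_pos.mpr hk0
    have hsk2 : Real.sqrt k ^ 2 = k := Real.sq_sqrt hk0.le
    have hg := INV_g_le hN M k hk1
    have hpsi : 0 ≤ INV_psi N k := by unfold INV_psi; positivity
    have e1 : Real.exp (-(5 * (k : ℝ) / N)) ≤ 1 := by
      rw [← Real.exp_zero]
      exact Real.exp_le_exp.mpr (by
        have : 0 ≤ 5 * (k : ℝ) / N := by positivity
        linarith)
    calc INV_psi N k * INV_g N M k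
        ≤ INV_psi N k * (N / (10 * k) * Real.exp (-(5 * k / N))) :=
          mul_le_mul_of_nonneg_left hg hpsi
      _ = N / 10 * (1 / ((k : ℝ) * Real.sqrt k)) * Real.exp (-(5 * k / N)) +
        Real.sqrt N / 5 * (Real.exp (-(5 * k / N)) / Real.sqrt k) := by
          unfold INV_psi
          have e2 : 2 * Real.sqrt k / Real.sqrt N * (N / (10 * k)) = Real.sqrt N / 5 / Real.sqrt k := by
            nth_rewrite 2 [← hs2]
            nth_rewrite 2 [← hsk2]
            field_simp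
            ring
          have e3 : 1 / Real.sqrt k * (N / (10 * k)) = N / 10 * (1 / ((k : ℝ) * Real.sqrt k)) := by
            field_simp
          linear_combination Real.exp (-(5 * (k : ℝ) / N)) * e2 + Real.exp (-(5 * (k : ℝ) / N)) * e3
      _ ≤ _ := by
          have : N / 10 * (1 / ((k : ℝ) * Real.sqrt k)) * Real.exp (-(5 * k / N)) ≤
            N / 10 * (1 / ((k : ℝ) * Real.sqrt k)) * 1 :=
            mul_le_mul_of_nonneg_left e1 (by positivity)
          linarith
  refine (Finset.sum_le_sum h1).trans ?_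
  rw [Finset.sum_add_distrib, ← Finset.mul_sum, ← Finset.mul_sum]
  have h2 := INV_s1 M
  have h3 := INV_s3 hN M
  have h4 : N / 10 * ∑ k ∈ Finset.Icc 1 M, 1 / ((k : ℝ) * Real.sqrt k) ≤ N / 10 * 3 :=
    mul_le_mul_of_nonneg_left h2 (by positivity)
  have h5 : Real.sqrt N / 5 * ∑ k ∈ Finset.Icc 1 M, Real.exp (-(5 * k / N)) / Real.sqrt k ≤
      Real.sqrt N / 5 * (3 * Real.sqrt N) := mul_le_mul_of_nonneg_left h3 (by positivity)
  nlinarith

/-- the size function -/
noncomputable def INV_phi (N D : ℕ) : ℝ := ∑ k ∈ Finset.Icc 1 D, INV_psi N k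

theorem INV_phi_pos {N : ℕ} (hN : 0 < N) {D : ℕ} (hD : 0 < D) : 0 < INV_phi N D := by
  unfold INV_phi
  apply Finset.sum_pos
  · intro k hk
    have hk0 : (0 : ℝ) < k := by exact_mod_cast (Finset.mem_Icc.mp hk).1
    have hN0 : (0 : ℝ) < N := by exact_mod_cast hN
    have h1 : 0 < Real.sqrt k := Real.sqrt_pos.mpr hk0
    have h2 : 0 < Real.sqrt N := Real.sqrt_pos.mpr hN0
    unfold INV_psi
    positivity
  · exact ⟨1, Finset.mem_Icc.mpr ⟨le_refl 1, hD⟩⟩

theorem INV_phi_sq {N : ℕ} (hN : 0 < N) (D : ℕ) :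
    (1 + (D : ℝ) ^ 2 / N) * D ≤ INV_phi N D ^ 2 := by
  rcases Nat.eq_zero_or_pos D with h0 | hD
  · subst h0; simp [INV_phi]
  have hN0 : (0 : ℝ) < N := by exact_mod_cast hN
  have hD0 : (0 : ℝ) < D := by exact_mod_cast hD
  have hsN : 0 < Real.sqrt N := Real.sqrt_pos.mpr hN0
  have hsD : 0 < Real.sqrt D := Real.sqrt_pos.mpr hD0
  have hsN2 : Real.sqrt N ^ 2 = N := Real.sq_sqrt hN0.le
  have hsD2 : Real.sqrt D ^ 2 = D := Real.sq_sqrt hD0.le
  have h1 : Real.sqrt D ≤ ∑ k ∈ Finset.Icc 1 D, 1 / Real.sqrt k := by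
    calc Real.sqrt D = ∑ k ∈ Finset.Icc 1 D, 1 / Real.sqrt D := by
          rw [Finset.sum_const, Nat.card_Icc, nsmul_eq_mul]
          simp only [Nat.add_sub_cancel]
          rw [mul_one_div, eq_div_iff hsD.ne', ← sq, hsD2]
      _ ≤ _ := by
          apply Finset.sum_le_sum
          intro k hk
          obtain ⟨hk1, hk2⟩ := Finset.mem_Icc.mp hk
          have hk0 : (0 : ℝ) < k := by exact_mod_cast hk1
          apply div_le_div_of_nonneg_left (by norm_num) (Real.sqrt_pos.mpr hk0)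
          exact Real.sqrt_le_sqrt (by exact_mod_cast hk2)
  have h2 : D * Real.sqrt D / Real.sqrt N ≤
      ∑ k ∈ Finset.Icc 1 D, 2 * Real.sqrt k / Real.sqrt N := by
    rw [← Finset.sum_div]
    apply div_le_div_of_nonneg_right _ hsN.le
    have h3 : ∀ k ∈ Finset.Icc 1 D, 2 * (k : ℝ) / Real.sqrt D ≤ 2 * Real.sqrt k := by
      intro k hk
      obtain ⟨hk1, hk2⟩ := Finset.mem_Icc.mp hk
      have hk0 : (0 : ℝ) < k := by exact_mod_cast hk1
      rw [div_le_iff₀ hsD]
      have e1 : Real.sqrt k * Real.sqrt k = k := Real.mul_self_sqrt hk0.le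
      have e2 : Real.sqrt k ≤ Real.sqrt D := Real.sqrt_le_sqrt (by exact_mod_cast hk2)
      nlinarith [Real.sqrt_nonneg (k : ℝ)]
    refine le_trans ?_ (Finset.sum_le_sum h3)
    rw [← Finset.sum_div, ← Finset.mul_sum, le_div_iff₀ hsD]
    have h4 : ∀ D : ℕ, 2 * ∑ k ∈ Finset.Icc 1 D, (k : ℝ) = D * (D + 1) := by
      intro D
      induction D with
      | zero => simp
      | succ D ih =>
        rw [Finset.sum_Icc_succ_top (by omega), mul_add, ih]
        push_cast
        ring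
    rw [h4 D]
    nlinarith
  have h5 : Real.sqrt D + D * Real.sqrt D / Real.sqrt N ≤ INV_phi N D := by
    unfold INV_phi INV_psi
    rw [Finset.sum_add_distrib]
    linarith
  have h6 : 0 ≤ D * Real.sqrt D / Real.sqrt N := by positivity
  have h7 : (D * Real.sqrt D / Real.sqrt N) ^ 2 = (D : ℝ) ^ 2 / N * D := by
    rw [div_pow, mul_pow, hsN2, hsD2]
    ring
  have h8 : (Real.sqrt D + D * Real.sqrt D / Real.sqrt N) ^ 2 ≤ INV_phi N D ^ 2 :=
    pow_le_pow_left₀ (by positivity) h5 2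
  nlinarith [mul_nonneg hsD.le h6]

/-- the second moment of the cut-off norms -/
theorem INV_main {N : ℕ} [hN : Fact N.Prime] {ι : Type} [Fintype ι] (a : ι → ℕ → ℝ)
    (ha : ∀ i, INV_seq N (a i)) (w : ι → ℝ) (hw : ∀ i, 0 ≤ w i) (C : ℝ) (hC : 0 ≤ C)
    (hLS : ∀ D : ℕ, ∑ i, w i * (∑ d ∈ Finset.Icc 1 D, INV_b N (a i) d) ^ 2 ≤
      C * ((1 + (D : ℝ) ^ 2 / N) * D)) (M : ℕ) :
    ∑ i, w i * (∑ n ∈ Finset.Icc 1 M, a i n ^ 2 / n * Real.exp (-10 * n / N)) ^ 2 ≤
      4 * (C * (N : ℝ) ^ 2) := by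
  have hNp : 0 < N := hN.out.pos
  set c : ℕ → ℝ := fun D => INV_g N M D - INV_g N M (D + 1) with hc
  have hc0 : ∀ D, 0 ≤ c D := fun D => sub_nonneg.mpr (INV_g_anti hNp M D)
  set T : ι → ℝ := fun i => ∑ d ∈ Finset.Icc 1 M, INV_b N (a i) d * INV_g N M d with hT
  set V : ι → ℕ → ℝ := fun i D => ∑ d ∈ Finset.Icc 1 D, INV_b N (a i) d with hV
  set A : ℝ := ∑ D ∈ Finset.Icc 1 M, c D * INV_phi N D with hA
  have hA0 : 0 ≤ A := Finset.sum_nonneg (fun D hD => mul_nonneg (hc0 D)
    (INV_phi_pos hNp (Finset.mem_Icc.mp hD).1).le)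
  have hAN : A ≤ N := by
    have h1 := INV_abel (INV_psi N) (INV_g N M) M
    rw [INV_g_zero, zero_mul, add_zero] at h1
    have h2 : A = ∑ d ∈ Finset.Icc 1 M, INV_psi N d * INV_g N M d := by rw [h1]; rfl
    rw [h2]
    exact INV_total hNp M
  have hTV : ∀ i, T i = ∑ D ∈ Finset.Icc 1 M, c D * V i D := by
    intro i
    have h1 := INV_abel (INV_b N (a i)) (INV_g N M) M
    rw [INV_g_zero, zero_mul, add_zero] at h1
    exact h1
  have hTi : ∀ i, T i ^ 2 ≤ A * ∑ D ∈ Finset.Icc 1 M, c D / INV_phi N D * V i D ^ 2 := by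
    intro i
    rw [hTV i]
    apply Finset.sum_sq_le_sum_mul_sum_of_sq_le_mul
    · intro D hD
      exact mul_nonneg (hc0 D) (INV_phi_pos hNp (Finset.mem_Icc.mp hD).1).le
    · intro D hD
      exact mul_nonneg (div_nonneg (hc0 D) (INV_phi_pos hNp (Finset.mem_Icc.mp hD).1).le) (sq_nonneg _)
    · intro D hD
      have hp := INV_phi_pos hNp (Finset.mem_Icc.mp hD).1
      apply le_of_eq
      field_simp
  have hsum : ∑ i, w i * T i ^ 2 ≤ C * (N : ℝ) ^ 2 := by
    calc ∑ i, w i * T i ^ 2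
        ≤ ∑ i, w i * (A * ∑ D ∈ Finset.Icc 1 M, c D / INV_phi N D * V i D ^ 2) :=
          Finset.sum_le_sum (fun i _ => mul_le_mul_of_nonneg_left (hTi i) (hw i))
      _ = A * ∑ D ∈ Finset.Icc 1 M, c D / INV_phi N D * ∑ i, w i * V i D ^ 2 := by
          simp only [Finset.mul_sum]
          rw [Finset.sum_comm]
          apply Finset.sum_congr rfl
          intro D _
          apply Finset.sum_congr rfl
          intro i _
          ring
      _ ≤ A * ∑ D ∈ Finset.Icc 1 M, c D / INV_phi N D * (C * INV_phi N D ^ 2) := by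
          apply mul_le_mul_of_nonneg_left _ hA0
          apply Finset.sum_le_sum
          intro D hD
          have hp := INV_phi_pos hNp (Finset.mem_Icc.mp hD).1
          apply mul_le_mul_of_nonneg_left _ (div_nonneg (hc0 D) hp.le)
          exact (hLS D).trans (mul_le_mul_of_nonneg_left (INV_phi_sq hNp D) hC)
      _ = C * A ^ 2 := by
          have : ∑ D ∈ Finset.Icc 1 M, c D / INV_phi N D * (C * INV_phi N D ^ 2) = C * A := by
            rw [hA, Finset.mul_sum]
            apply Finset.sum_congr rfl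
            intro D hD
            have hp := INV_phi_pos hNp (Finset.mem_Icc.mp hD).1
            field_simp
          rw [this]; ring
      _ ≤ C * (N : ℝ) ^ 2 := by
          apply mul_le_mul_of_nonneg_left _ hC
          exact pow_le_pow_left₀ hA0 hAN 2
  have hS : ∀ i, (∑ n ∈ Finset.Icc 1 M, a i n ^ 2 / n * Real.exp (-10 * n / N)) ^ 2 ≤ 4 * T i ^ 2 := by
    intro i
    have h1 := INV_half (ha i) M
    rw [INV_T (ha i) M] at h1
    have h2 : 0 ≤ ∑ n ∈ Finset.Icc 1 M, a i n ^ 2 / n * Real.exp (-10 * n / N) :=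
      Finset.sum_nonneg (fun n _ => by positivity)
    calc _ ≤ (2 * T i) ^ 2 := pow_le_pow_left₀ h2 h1 2
      _ = _ := by ring
  calc _ ≤ ∑ i, w i * (4 * T i ^ 2) :=
        Finset.sum_le_sum (fun i _ => mul_le_mul_of_nonneg_left (hS i) (hw i))
    _ = 4 * ∑ i, w i * T i ^ 2 := by
        rw [Finset.mul_sum]
        apply Finset.sum_congr rfl
        intro i _
        ring
    _ ≤ _ := by linarith

theorem INV_seq_of_new {N : ℕ} [hN : Fact N.Prime] {f : S2 N} (hf : IsNew f) :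
    INV_seq N (fun n => (co f n).re) := by
  have hr : ∀ n, ((co f n).re : ℂ) = co f n := fun n =>
    Complex.ext (by simp) (by simp [new_real hf n])
  refine ⟨?_, ?_, ?_, ?_⟩
  · simp [hf.one]
  · intro m n hmn
    have h1 := hf.mul m n hmn
    rw [← hr m, ← hr n, ← hr (m * n), ← Complex.ofReal_mul] at h1
    exact Complex.ofReal_injective h1
  · intro p r hp hpN
    have h1 := hf.hecke p r hp hpN
    rw [← hr (p ^ (r + 2)), ← hr p, ← hr (p ^ (r + 1)), ← hr (p ^ r)] at h1
    exact_mod_cast h1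
  · intro n
    obtain ⟨W, hW⟩ := fricke_exists (N := N)
    obtain ⟨h1, h2⟩ := new_fricke hf hW
    have h3 := fricke_coeff hW f n
    rw [h1, co_smul] at h3
    have h4 : co f (N * n) = co f N * co f n := by linear_combination h3
    rcases h2 with h2 | h2
    · rw [h4, h2, one_mul]
    · rw [h4, h2, neg_one_mul, Complex.neg_re, neg_sq]

theorem INV_LS : ∃ C : ℝ, 0 < C ∧ ∀ (N : ℕ) [Fact N.Prime] {ι : Type} [Fintype ι]
    (f : ι → S2 N), Function.Injective f → (∀ i, IsNew (f i)) → ∀ D : ℕ,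
      ∑ i, 1 / nr (f i) * (∑ d ∈ Finset.Icc 1 D, INV_b N (fun n => (co (f i) n).re) d) ^ 2 ≤
        C * ((1 + (D : ℝ) ^ 2 / N) * D) := by
  classical
  obtain ⟨C, hC, hls⟩ := large_sieve
  refine ⟨C, hC, ?_⟩
  intro N hN ι _ f hinj hnew D
  set Q : Finset ℕ := ((Finset.Icc 1 D).filter (fun d => ¬ N ∣ d)).image (fun d => d ^ 2) with hQ
  have h1 := hls N f (fun i => new_ne_zero (hnew i))
    (fun i j hij => new_orth (hnew i) (hnew j) (fun h => hij (hinj h))) (D ^ 2)
    (fun n => if n ∈ Q then 1 else 0)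
  have hinjsq : Set.InjOn (fun d : ℕ => d ^ 2) ((Finset.Icc 1 D).filter (fun d => ¬ N ∣ d)) := by
    intro x _ y _ hxy
    exact Nat.pow_left_injective (by norm_num : (2 : ℕ) ≠ 0) hxy
  have hQs : Q ⊆ Finset.Icc 1 (D ^ 2) := by
    intro n hn
    obtain ⟨d, hd, rfl⟩ := Finset.mem_image.mp hn
    have := Finset.mem_Icc.mp (Finset.mem_filter.mp hd).1
    exact Finset.mem_Icc.mpr ⟨Nat.one_le_pow _ _ this.1, Nat.pow_le_pow_left this.2 2⟩
  have e1 : ∀ i, ∑ n ∈ Finset.Icc 1 (D ^ 2), (if n ∈ Q then (1 : ℂ) else 0) *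
      (co (f i) n / (Real.sqrt n : ℂ)) =
      ((∑ d ∈ Finset.Icc 1 D, INV_b N (fun n => (co (f i) n).re) d : ℝ) : ℂ) := by
    intro i
    have hr : ∀ n, ((co (f i) n).re : ℂ) = co (f i) n := fun n =>
      Complex.ext (by simp) (by simp [new_real (hnew i) n])
    calc ∑ n ∈ Finset.Icc 1 (D ^ 2), (if n ∈ Q then (1 : ℂ) else 0) *
          (co (f i) n / (Real.sqrt n : ℂ))
        = ∑ n ∈ Finset.Icc 1 (D ^ 2), (if n ∈ Q then co (f i) n / (Real.sqrt n : ℂ) else 0) := by
          apply Finset.sum_congr rfl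
          intro n _
          split_ifs <;> simp
      _ = ∑ n ∈ Q, co (f i) n / (Real.sqrt n : ℂ) := by
          rw [← Finset.sum_filter, Finset.filter_mem_eq_inter, Finset.inter_eq_right.mpr hQs]
      _ = ∑ d ∈ (Finset.Icc 1 D).filter (fun d => ¬ N ∣ d),
            co (f i) (d ^ 2) / (Real.sqrt ((d ^ 2 : ℕ) : ℝ) : ℂ) := by
          rw [hQ, Finset.sum_image hinjsq]
      _ = _ := by
          rw [Finset.sum_filter, Complex.ofReal_sum]
          apply Finset.sum_congr rfl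
          intro d _
          unfold INV_b
          by_cases hd : N ∣ d
          · rw [if_neg (by simpa using hd), if_pos hd]; simp
          · rw [if_pos hd, if_neg hd, Complex.ofReal_div, hr (d ^ 2)]
            congr 1
            rw [Nat.cast_pow, Real.sqrt_sq (Nat.cast_nonneg d)]
  have e2 : ∑ n ∈ Finset.Icc 1 (D ^ 2), ‖(if n ∈ Q then (1 : ℂ) else 0)‖ ^ 2 ≤ (D : ℝ) := by
    calc ∑ n ∈ Finset.Icc 1 (D ^ 2), ‖(if n ∈ Q then (1 : ℂ) else 0)‖ ^ 2
        = ∑ n ∈ Finset.Icc 1 (D ^ 2), (if n ∈ Q then (1 : ℝ) else 0) := by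
          apply Finset.sum_congr rfl
          intro n _
          split_ifs <;> simp
      _ = (Q.card : ℝ) := by
          rw [← Finset.sum_filter, Finset.filter_mem_eq_inter, Finset.inter_eq_right.mpr hQs]
          simp
      _ ≤ D := by
          have : Q.card ≤ D := by
            calc Q.card ≤ ((Finset.Icc 1 D).filter (fun d => ¬ N ∣ d)).card := Finset.card_image_le
              _ ≤ (Finset.Icc 1 D).card := Finset.card_filter_le _ _
              _ = D := by rw [Nat.card_Icc]; omega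
          exact_mod_cast this
  have e3 : ∑ i, 1 / nr (f i) * (∑ d ∈ Finset.Icc 1 D, INV_b N (fun n => (co (f i) n).re) d) ^ 2 =
      ∑ i, 1 / nr (f i) * ‖∑ n ∈ Finset.Icc 1 (D ^ 2), (if n ∈ Q then (1 : ℂ) else 0) *
      (co (f i) n / (Real.sqrt n : ℂ))‖ ^ 2 := by
    apply Finset.sum_congr rfl
    intro i _
    rw [e1 i, Complex.norm_real, Real.norm_eq_abs, sq_abs]
  rw [e3]
  refine h1.trans ?_
  have hN0 : (0 : ℝ) < N := by exact_mod_cast hN.out.pos
  push_cast
  calc C * (1 + (D : ℝ) ^ 2 / N) * ∑ n ∈ Finset.Icc 1 (D ^ 2), ‖(if n ∈ Q then (1 : ℂ) else 0)‖ ^ 2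
      ≤ C * (1 + (D : ℝ) ^ 2 / N) * D := mul_le_mul_of_nonneg_left e2 (by positivity)
    _ = _ := by ring

theorem nr_sum_pr : ∃ C : ℝ, 0 < C ∧ ∀ (N : ℕ) [Fact N.Prime] {ι : Type} [Fintype ι]
    (f : ι → S2 N), Function.Injective f → (∀ i, IsNew (f i)) →
      ∑ i, nr (f i) ≤ C * N ^ 2 := by
  obtain ⟨C, hC, hls⟩ := INV_LS
  refine ⟨16 * C, by positivity, ?_⟩
  intro N hN ι _ f hinj hnew
  have hN0 : (0 : ℝ) < N := by exact_mod_cast hN.out.pos
  obtain ⟨W, hW⟩ := fricke_exists (N := N)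
  have hpos : ∀ i, 0 < nr (f i) := fun i => nr_pos (new_ne_zero (hnew i))
  have hWf : ∀ i, W (f i) = f i ∨ W (f i) = -(f i) := by
    intro i
    obtain ⟨h1, h2⟩ := new_fricke (hnew i) hW
    rcases h2 with h2 | h2
    · right; rw [h1, h2]; exact neg_one_smul ℂ (f i)
    · left; rw [h1, h2, neg_neg, one_smul]
  have hev : ∀ i, ∀ᶠ M : ℕ in atTop, nr (f i) / 2 ≤
      ∑ n ∈ Finset.Icc 1 M, (co (f i) n).re ^ 2 / n * Real.exp (-10 * n / N) := by
    intro i
    obtain ⟨hs, hle⟩ := nr_le hW (f i) (hWf i)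
    have hr : ∀ n, ‖co (f i) n‖ ^ 2 = (co (f i) n).re ^ 2 := by
      intro n
      rw [← Complex.normSq_eq_norm_sq, Complex.normSq_apply, new_real (hnew i) n]
      ring
    have h1 := hs.hasSum.tendsto_sum_nat
    have h2 : Tendsto (fun M : ℕ => ∑ n ∈ Finset.range (M + 1),
        ‖co (f i) n‖ ^ 2 / n * Real.exp (-10 * n / N)) atTop
        (𝓝 (∑' n : ℕ, ‖co (f i) n‖ ^ 2 / n * Real.exp (-10 * n / N))) :=
      h1.comp (tendsto_add_atTop_nat 1)
    have h3 : nr (f i) / 2 < ∑' n : ℕ, ‖co (f i) n‖ ^ 2 / n * Real.exp (-10 * n / N) := by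
      have := hpos i
      linarith
    filter_upwards [h2.eventually (eventually_gt_nhds h3)] with M hM
    have e : ∑ n ∈ Finset.range (M + 1), ‖co (f i) n‖ ^ 2 / n * Real.exp (-10 * n / N) =
        ∑ n ∈ Finset.Icc 1 M, (co (f i) n).re ^ 2 / n * Real.exp (-10 * n / N) := by
      rw [Finset.sum_range_succ']
      simp only [Nat.cast_zero, div_zero, zero_mul, add_zero, hr]
      rw [Finset.sum_bij (fun n _ => n + 1)]
      · intro n hn
        have := Finset.mem_range.mp hn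
        exact Finset.mem_Icc.mpr ⟨by omega, by omega⟩
      · intro x _ y _ h; omega
      · intro n hn
        have := Finset.mem_Icc.mp hn
        exact ⟨n - 1, Finset.mem_range.mpr (by omega), by omega⟩
      · intro n _; rfl
    rw [← e]
    exact hM.le
  obtain ⟨M, hM⟩ := (Filter.eventually_all.mpr hev).exists
  have h1 := INV_main (fun i n => (co (f i) n).re) (fun i => INV_seq_of_new (hnew i))
    (fun i => 1 / nr (f i)) (fun i => (one_div_pos.mpr (hpos i)).le) C hC.le
    (hls N f hinj hnew) M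
  have h2 : ∀ i, nr (f i) ≤ 4 * (1 / nr (f i) *
      (∑ n ∈ Finset.Icc 1 M, (co (f i) n).re ^ 2 / n * Real.exp (-10 * n / N)) ^ 2) := by
    intro i
    have hp := hpos i
    have h3 := pow_le_pow_left₀ (by positivity) (hM i) 2
    have h4 : nr (f i) = 4 * (1 / nr (f i) * (nr (f i) / 2) ^ 2) := by
      field_simp
      ring
    calc nr (f i) = 4 * (1 / nr (f i) * (nr (f i) / 2) ^ 2) := h4
      _ ≤ _ := by
        apply mul_le_mul_of_nonneg_left _ (by norm_num)
        exact mul_le_mul_of_nonneg_left h3 (one_div_pos.mpr hp).le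
  calc ∑ i, nr (f i) ≤ ∑ i, 4 * (1 / nr (f i) *
      (∑ n ∈ Finset.Icc 1 M, (co (f i) n).re ^ 2 / n * Real.exp (-10 * n / N)) ^ 2) :=
        Finset.sum_le_sum (fun i _ => h2 i)
    _ = 4 * ∑ i, (1 / nr (f i) *
      (∑ n ∈ Finset.Icc 1 M, (co (f i) n).re ^ 2 / n * Real.exp (-10 * n / N)) ^ 2) := by
        rw [Finset.mul_sum]
    _ ≤ 4 * (4 * (C * (N : ℝ) ^ 2)) := mul_le_mul_of_nonneg_left h1 (by norm_num)
    _ = _ := by ring

theorem nr_sum : type_of% @nr_sum_pr := @nr_sum_pr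

end Pool.Agent.LEV
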