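import Pool.Agent.Lib_helper68.LEV.DefsC
import Pool.Agent.Lib_helper68.LEV.EIA
import Pool.Agent.Lib_helper68.LEV.HMO
import Pool.Agent.Lib_helper68.LEV.INV
import Pool.Agent.Lib_helper68.LEV.PET

set_option autoImplicit false

namespace Pool.Agent.LEV

open Complex MeasureTheory Filter Topology UpperHalfPlane ModularGroup
open scoped MatrixGroups Modular ENNReal ModularForm ComplexConjugate ContDiff

theorem nat_of_harm_pr : ∃ C : ℝ, 0 < C ∧ ∀ (N : ℕ) [Fact N.Prime] {ι : Type} [Fintype ι]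
    [DecidableEq ι] (f : ι → S2 N), Function.Injective f → (∀ i, IsNew (f i)) →
    ∀ s : Finset ι, (s.card : ℝ) ≤ C * N * Real.sqrt (∑ i ∈ s, 1 / nr (f i)) := by
  obtain ⟨C, hC, h⟩ := nr_sum
  refine ⟨Real.sqrt C, Real.sqrt_pos.mpr hC, ?_⟩
  intro N _ ι _ _ f hinj hnew s
  have hnr : ∀ i, 0 < nr (f i) := fun i => nr_pos (new_ne_zero (hnew i))
  have h1 := h N f hinj hnew
  have h2 : ∑ i ∈ s, nr (f i) ≤ C * N ^ 2 :=
    (Finset.sum_le_univ_sum_of_nonneg (fun i => (hnr i).le)).trans h1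
  have h3 : (s.card : ℝ) = ∑ i ∈ s, Real.sqrt (1 / nr (f i)) * Real.sqrt (nr (f i)) := by
    rw [Finset.card_eq_sum_ones]
    push_cast
    apply Finset.sum_congr rfl
    intro i _
    rw [← Real.sqrt_mul (by have := hnr i; positivity), one_div_mul_cancel (hnr i).ne',
      Real.sqrt_one]
  have h4 := Finset.sum_mul_sq_le_sq_mul_sq s (fun i => Real.sqrt (1 / nr (f i)))
    (fun i => Real.sqrt (nr (f i)))
  have h5 : ∑ i ∈ s, Real.sqrt (1 / nr (f i)) ^ 2 = ∑ i ∈ s, 1 / nr (f i) :=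
    Finset.sum_congr rfl (fun i _ => Real.sq_sqrt (by have := hnr i; positivity))
  have h6 : ∑ i ∈ s, Real.sqrt (nr (f i)) ^ 2 = ∑ i ∈ s, nr (f i) :=
    Finset.sum_congr rfl (fun i _ => Real.sq_sqrt (hnr i).le)
  rw [← h3, h5, h6] at h4
  have hm0 : 0 ≤ ∑ i ∈ s, 1 / nr (f i) :=
    Finset.sum_nonneg (fun i _ => by have := hnr i; positivity)
  have h7 : (s.card : ℝ) ^ 2 ≤ (∑ i ∈ s, 1 / nr (f i)) * (C * N ^ 2) :=
    h4.trans (mul_le_mul_of_nonneg_left h2 hm0)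
  have h8 : (s.card : ℝ) ≤ Real.sqrt ((∑ i ∈ s, 1 / nr (f i)) * (C * N ^ 2)) :=
    Real.le_sqrt_of_sq_le h7
  refine h8.trans (le_of_eq ?_)
  rw [Real.sqrt_mul hm0, Real.sqrt_mul hC.le, Real.sqrt_sq (Nat.cast_nonneg N)]
  ring

/-- the size of a finite set of newforms -/
theorem NAT_fin {C C' : ℝ} (hC : 0 < C)
    (h1 : ∀ (N : ℕ) [Fact N.Prime] {ι : Type} [Fintype ι]
      [DecidableEq ι] (f : ι → S2 N), Function.Injective f → (∀ i, IsNew (f i)) →
      ∀ s : Finset ι, (s.card : ℝ) ≤ C * N * Real.sqrt (∑ i ∈ s, 1 / nr (f i)))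
    (h2 : ∀ (N : ℕ) [Fact N.Prime] {ι : Type} [Fintype ι]
      (f : ι → S2 N), Function.Injective f → (∀ i, IsNew (f i)) → ∑ i, 1 / nr (f i) ≤ C')
    (N : ℕ) [Fact N.Prime] (T : Finset (S2 N)) (hT : ∀ f ∈ T, IsNew f) :
    (T.card : ℝ) ≤ C * N * Real.sqrt C' := by
  classical
  have a1 := h1 N (ι := T) (fun i => (i : S2 N)) Subtype.val_injective (fun i => hT i i.2)
    Finset.univ
  have a2 := h2 N (ι := T) (fun i => (i : S2 N)) Subtype.val_injective (fun i => hT i i.2)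
  rw [Finset.card_univ, Fintype.card_coe] at a1
  exact a1.trans (mul_le_mul_of_nonneg_left (Real.sqrt_le_sqrt a2) (by positivity))

theorem new_fin_pr : ∃ C : ℝ, 0 < C ∧ ∀ (N : ℕ) [Fact N.Prime], {f : S2 N | IsNew f}.Finite ∧
    ({f : S2 N | IsNew f}.ncard : ℝ) ≤ C * N := by
  obtain ⟨C, hC, h1⟩ := nat_of_harm_pr
  obtain ⟨C', hC', h2⟩ := mass_le
  have key := NAT_fin hC h1 h2
  refine ⟨C * Real.sqrt C', mul_pos hC (Real.sqrt_pos.mpr hC'), ?_⟩
  intro N _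
  have hfin : {f : S2 N | IsNew f}.Finite := by
    by_contra hinf
    obtain ⟨T, hT, hcard⟩ := Set.Infinite.exists_subset_card_eq hinf
      (⌊C * N * Real.sqrt C'⌋₊ + 1)
    have h3 := key N T (fun f hf => hT hf)
    rw [hcard] at h3
    have h4 := Nat.lt_floor_add_one (C * N * Real.sqrt C')
    push_cast at h3
    linarith
  refine ⟨hfin, ?_⟩
  have h3 := key N hfin.toFinset (fun f hf => (hfin.mem_toFinset.mp hf : IsNew f))
  rw [Set.ncard_eq_toFinset_card _ hfin]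
  calc (hfin.toFinset.card : ℝ) ≤ C * N * Real.sqrt C' := h3
    _ = C * Real.sqrt C' * N := by ring

theorem nat_of_harm : type_of% @nat_of_harm_pr := @nat_of_harm_pr
theorem new_fin : type_of% @new_fin_pr := @new_fin_pr

end Pool.Agent.LEV
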