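import Pool.Agent.Lib_helper68.LEV.DefsG
import Pool.Agent.Lib_helper68.SEL.Z1

/-! # Block MEX: the Plancherel measures and the model -/

namespace Pool.Agent.LEV

open MeasureTheory Filter Topology ProbabilityTheory
open scoped ENNReal

theorem MEX_Uu (x : ℝ) (i : ℕ) : Uu x i = SEL.Uc x i := by
  induction i using Nat.twoStepInduction with
  | zero => simp [SEL.Uc, Uu]
  | one => simp [SEL.Uc, Uu]
  | more n h0 h1 => simp only [SEL.Uc, Uu, h0, h1]

theorem MEX_le {x : ℝ} (hx : |x| ≤ 2) (i : ℕ) : |Uu x i| ≤ i + 1 := by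
  have h1 : x ^ 2 ≤ 4 := by
    have := abs_le.1 hx
    nlinarith
  have h3 : ‖SEL.rt x‖ = 1 := by
    rw [SEL.rt, if_pos h1]
    have h2 : ‖(⟨x / 2, √(4 - x ^ 2) / 2⟩ : ℂ)‖ ^ 2 = 1 := by
      rw [Complex.sq_norm, Complex.normSq_mk]
      have := Real.mul_self_sqrt (show 0 ≤ 4 - x ^ 2 by linarith)
      nlinarith
    exact (pow_eq_one_iff_of_nonneg (norm_nonneg _) two_ne_zero).1 h2
  have h := SEL.Uc_le_pr x i
  rwa [h3, one_pow, mul_one, ← MEX_Uu] at h

theorem MEX_cont (i : ℕ) : Continuous (fun x : ℝ => Uu x i) := by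
  induction i using Nat.twoStepInduction with
  | zero => simp only [Uu]; fun_prop
  | one => simp only [Uu]; fun_prop
  | more n h0 h1 =>
    simp only [Uu]
    fun_prop

theorem MEX_sinU (x : ℝ) (i : ℕ) :
    Real.sin x * Uu (2 * Real.cos x) i = Real.sin (((i : ℝ) + 1) * x) := by
  induction i using Nat.twoStepInduction with
  | zero => simp [Uu]
  | one =>
    simp only [Uu, Nat.cast_one]
    rw [show ((1 : ℝ) + 1) * x = 2 * x by ring, Real.sin_two_mul]
    ring
  | more n h0 h1 =>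
    have e : Real.sin x * Uu (2 * Real.cos x) (n + 2) =
        2 * Real.cos x * (Real.sin x * Uu (2 * Real.cos x) (n + 1)) -
          Real.sin x * Uu (2 * Real.cos x) n := by
      simp only [Uu]
      ring
    rw [e, h0, h1]
    push_cast
    have h2 : ((n : ℝ) + 2 + 1) * x = ((n : ℝ) + 1 + 1) * x + x := by ring
    have h3 : ((n : ℝ) + 1) * x = ((n : ℝ) + 1 + 1) * x - x := by ring
    rw [h2, h3, Real.sin_add, Real.sin_sub]
    ring

theorem MEX_cosint (n : ℤ) (hn : n ≠ 0) : ∫ x in (0 : ℝ)..Real.pi, Real.cos ((n : ℝ) * x) = 0 := by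
  have hn' : (n : ℝ) ≠ 0 := by exact_mod_cast hn
  rw [intervalIntegral.integral_comp_mul_left (fun x => Real.cos x) hn', integral_cos]
  simp [Real.sin_int_mul_pi]

theorem MEX_sinint (i j : ℕ) :
    ∫ x in (0 : ℝ)..Real.pi, Real.sin (((i : ℝ) + 1) * x) * Real.sin (((j : ℝ) + 1) * x) =
      if i = j then Real.pi / 2 else 0 := by
  have e : ∀ x : ℝ, Real.sin (((i : ℝ) + 1) * x) * Real.sin (((j : ℝ) + 1) * x) =
      (1 / 2) * Real.cos ((((i : ℤ) - j : ℤ) : ℝ) * x) -
        (1 / 2) * Real.cos ((((i : ℤ) + j + 2 : ℤ) : ℝ) * x) := by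
    intro x
    push_cast
    have h1 : ((i : ℝ) - j) * x = ((i : ℝ) + 1) * x - ((j : ℝ) + 1) * x := by ring
    have h2 : ((i : ℝ) + j + 2) * x = ((i : ℝ) + 1) * x + ((j : ℝ) + 1) * x := by ring
    rw [h1, h2, Real.cos_sub, Real.cos_add]
    ring
  simp_rw [e]
  rw [intervalIntegral.integral_sub, intervalIntegral.integral_const_mul,
    intervalIntegral.integral_const_mul, MEX_cosint ((i : ℤ) + j + 2) (by omega)]
  · by_cases hij : i = j
    · subst hij
      simp
      ring
    · rw [MEX_cosint ((i : ℤ) - j) (by omega), if_neg hij]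
      simp
  · exact Continuous.intervalIntegrable (by fun_prop) _ _
  · exact Continuous.intervalIntegrable (by fun_prop) _ _

/-- the Sato-Tate measure -/
noncomputable def MEX_st : Measure ℝ :=
  (volume.restrict (Set.Icc 0 Real.pi)).withDensity
    (fun x => ENNReal.ofReal (2 / Real.pi * Real.sin x ^ 2))

theorem MEX_int (g : ℝ → ℝ) :
    ∫ x, g x ∂MEX_st = ∫ x in (0 : ℝ)..Real.pi, (2 / Real.pi * Real.sin x ^ 2) • g x := by
  unfold MEX_st
  rw [integral_withDensity_eq_integral_toReal_smul (by fun_prop)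
    (Filter.Eventually.of_forall fun x => ENNReal.ofReal_lt_top)]
  rw [intervalIntegral.integral_of_le Real.pi_pos.le, ← integral_Icc_eq_integral_Ioc]
  refine integral_congr_ae (Filter.Eventually.of_forall fun x => ?_)
  simp only
  rw [ENNReal.toReal_ofReal]
  have := Real.pi_pos
  positivity

theorem MEX_prob : IsProbabilityMeasure MEX_st := by
  constructor
  unfold MEX_st
  rw [withDensity_apply _ MeasurableSet.univ, Measure.restrict_univ]
  have h1 : ∫ x in Set.Icc (0 : ℝ) Real.pi, (2 / Real.pi * Real.sin x ^ 2) = 1 := by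
    rw [integral_Icc_eq_integral_Ioc, ← intervalIntegral.integral_of_le Real.pi_pos.le,
      intervalIntegral.integral_const_mul, integral_sin_sq]
    have := Real.pi_ne_zero
    simp
  rw [← ofReal_integral_eq_lintegral_ofReal, h1, ENNReal.ofReal_one]
  · exact (Continuous.continuousOn (by fun_prop)).integrableOn_Icc
  · refine Filter.Eventually.of_forall fun x => ?_
    have := Real.pi_pos
    positivity

theorem MEX_orth (i j : ℕ) :
    ∫ x, Uu (2 * Real.cos x) i * Uu (2 * Real.cos x) j ∂MEX_st = if i = j then 1 else 0 := by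
  rw [MEX_int]
  have e : ∀ x : ℝ, (2 / Real.pi * Real.sin x ^ 2) •
      (Uu (2 * Real.cos x) i * Uu (2 * Real.cos x) j) =
      2 / Real.pi * (Real.sin (((i : ℝ) + 1) * x) * Real.sin (((j : ℝ) + 1) * x)) := by
    intro x
    rw [← MEX_sinU, ← MEX_sinU, smul_eq_mul]
    ring
  simp_rw [e]
  rw [intervalIntegral.integral_const_mul, MEX_sinint]
  have := Real.pi_ne_zero
  split_ifs
  · field_simp
  · simp

/-- the Plancherel density -/
noncomputable def MEX_H (t x : ℝ) : ℝ := (1 + t) / ((1 + t) ^ 2 - x ^ 2 * t)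

theorem MEX_den {t x : ℝ} (h1 : t < 1) (ht : 0 < t) (hx : |x| ≤ 2) :
    0 < (1 + t) ^ 2 - x ^ 2 * t := by
  have h2 : x ^ 2 ≤ 4 := by
    have := abs_le.1 hx
    nlinarith
  nlinarith [mul_le_mul_of_nonneg_right h2 ht.le, sq_nonneg (1 - t), sub_pos.2 h1]

theorem MEX_sumn {t : ℝ} (ht : 0 < t) (h1 : t < 1) :
    Summable (fun j : ℕ => t ^ j * (2 * (j : ℝ) + 1)) := by
  have h2 := summable_pow_mul_geometric_of_norm_lt_one 1 (r := t)
    (by rw [Real.norm_eq_abs, abs_of_pos ht]; exact h1)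
  have h3 := summable_geometric_of_lt_one ht.le h1
  refine ((h2.mul_left 2).add h3).congr fun j => by ring

theorem MEX_series {t x : ℝ} (ht : 0 < t) (h1 : t < 1) (hx : |x| ≤ 2) :
    HasSum (fun j : ℕ => t ^ j * Uu x (2 * j)) (MEX_H t x) := by
  have hs : Summable (fun j : ℕ => t ^ j * Uu x (2 * j)) := by
    refine Summable.of_norm_bounded (MEX_sumn ht h1) fun j => ?_
    rw [norm_mul, Real.norm_eq_abs, Real.norm_eq_abs, abs_of_pos (pow_pos ht j)]
    refine mul_le_mul_of_nonneg_left ?_ (pow_pos ht j).le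
    have := MEX_le hx (2 * j)
    push_cast at this
    exact this
  have hrec : ∀ j : ℕ, Uu x (2 * (j + 2)) = (x ^ 2 - 2) * Uu x (2 * (j + 1)) - Uu x (2 * j) := by
    intro j
    have e1 : 2 * (j + 2) = (2 * j + 2) + 2 := by ring
    have e2 : 2 * (j + 1) = 2 * j + 2 := by ring
    have a1 : Uu x (2 * j + 2 + 2) = x * Uu x (2 * j + 2 + 1) - Uu x (2 * j + 2) := by
      simp only [Uu]
    have a2 : Uu x (2 * j + 2 + 1) = x * Uu x (2 * j + 2) - Uu x (2 * j + 1) := by
      simp only [Uu]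
    have a3 : Uu x (2 * j + 2) = x * Uu x (2 * j + 1) - Uu x (2 * j) := by
      simp only [Uu]
    rw [e1, e2, a1, a2]
    linear_combination a3
  have hs1 : Summable (fun j : ℕ => t ^ (j + 1) * Uu x (2 * (j + 1))) :=
    (summable_nat_add_iff 1).2 hs
  have hs2 : Summable (fun j : ℕ => t ^ (j + 2) * Uu x (2 * (j + 2))) :=
    (summable_nat_add_iff 2).2 hs
  set S := ∑' j : ℕ, t ^ j * Uu x (2 * j) with hS
  have e1 : S = 1 + ∑' j : ℕ, t ^ (j + 1) * Uu x (2 * (j + 1)) := by
    rw [hS, hs.tsum_eq_zero_add]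
    simp [Uu]
  have e2 : ∑' j : ℕ, t ^ (j + 1) * Uu x (2 * (j + 1)) =
      t * (x ^ 2 - 1) + ∑' j : ℕ, t ^ (j + 2) * Uu x (2 * (j + 2)) := by
    rw [hs1.tsum_eq_zero_add]
    simp [Uu]
    left
    ring
  have e3 : ∑' j : ℕ, t ^ (j + 2) * Uu x (2 * (j + 2)) =
      (x ^ 2 - 2) * t * ∑' j : ℕ, t ^ (j + 1) * Uu x (2 * (j + 1)) - t ^ 2 * S := by
    rw [hS, ← tsum_mul_left, ← tsum_mul_left,
      ← (hs1.mul_left ((x ^ 2 - 2) * t)).tsum_sub (hs.mul_left (t ^ 2))]
    refine tsum_congr fun j => ?_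
    rw [hrec]
    ring
  have h2 : S = MEX_H t x := by
    unfold MEX_H
    rw [eq_div_iff (MEX_den h1 ht hx).ne']
    set R := ∑' j : ℕ, t ^ (j + 1) * Uu x (2 * (j + 1))
    set Q := ∑' j : ℕ, t ^ (j + 2) * Uu x (2 * (j + 2))
    linear_combination (1 - (x ^ 2 - 2) * t) * e1 + e2 + e3
  rw [← h2]
  exact hs.hasSum

theorem MEX_cos (y : ℝ) : |2 * Real.cos y| ≤ 2 := by
  rw [abs_mul, abs_two]
  linarith [Real.abs_cos_le_one y]

theorem MEX_moment {t : ℝ} (ht : 0 < t) (h1 : t < 1) (k : ℕ) :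
    ∫ y, MEX_H t (2 * Real.cos y) * Uu (2 * Real.cos y) k ∂MEX_st =
      if Even k then t ^ (k / 2) else 0 := by
  have := MEX_prob
  have hc : ∀ i, Continuous (fun y : ℝ => Uu (2 * Real.cos y) i) := fun i =>
    (MEX_cont i).comp (by fun_prop)
  have hle : ∀ (j : ℕ) (y : ℝ), ‖t ^ j * (Uu (2 * Real.cos y) (2 * j) * Uu (2 * Real.cos y) k)‖ ≤
      t ^ j * (2 * (j : ℝ) + 1) * ((k : ℝ) + 1) := by
    intro j y
    rw [norm_mul, norm_mul, Real.norm_eq_abs, Real.norm_eq_abs, Real.norm_eq_abs,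
      abs_of_pos (pow_pos ht j), mul_assoc]
    have a1 := MEX_le (MEX_cos y) (2 * j)
    have a2 := MEX_le (MEX_cos y) k
    push_cast at a1
    have := pow_pos ht j
    gcongr
  have hint : ∀ j : ℕ, Integrable (fun y : ℝ => t ^ j * (Uu (2 * Real.cos y) (2 * j) *
      Uu (2 * Real.cos y) k)) MEX_st := fun j =>
    Integrable.of_bound (((hc _).mul (hc _)).const_mul _ |>.aestronglyMeasurable) _
      (Eventually.of_forall (hle j))
  have hsum : Summable (fun j : ℕ => ∫ y, ‖t ^ j * (Uu (2 * Real.cos y) (2 * j) *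
      Uu (2 * Real.cos y) k)‖ ∂MEX_st) := by
    refine Summable.of_nonneg_of_le (fun j => integral_nonneg fun y => norm_nonneg _) (fun j => ?_)
      ((MEX_sumn ht h1).mul_right ((k : ℝ) + 1))
    have h2 : ∫ y, ‖t ^ j * (Uu (2 * Real.cos y) (2 * j) * Uu (2 * Real.cos y) k)‖ ∂MEX_st ≤
        ∫ y, t ^ j * (2 * (j : ℝ) + 1) * ((k : ℝ) + 1) ∂MEX_st :=
      integral_mono (hint j).norm (integrable_const _) (hle j)
    simpa using h2
  have h := hasSum_integral_of_summable_integral_norm hint hsum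
  have h2 : ∀ y : ℝ, ∑' j : ℕ, t ^ j * (Uu (2 * Real.cos y) (2 * j) * Uu (2 * Real.cos y) k) =
      MEX_H t (2 * Real.cos y) * Uu (2 * Real.cos y) k := by
    intro y
    rw [← (MEX_series ht h1 (MEX_cos y)).tsum_eq, ← tsum_mul_right]
    exact tsum_congr fun j => by ring
  simp_rw [h2, integral_const_mul, MEX_orth] at h
  refine h.unique ?_
  split_ifs with hk
  · obtain ⟨m, hm⟩ := hk
    have hm2 : k / 2 = m := by omega
    rw [hm2]
    have h3 := hasSum_ite_eq m (t ^ m)
    have h4 : (fun j : ℕ => t ^ j * if 2 * j = k then (1 : ℝ) else 0) =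
        fun j => if j = m then t ^ m else 0 := by
      funext j
      by_cases hj : j = m
      · rw [if_pos hj, if_pos (by omega), mul_one, hj]
      · rw [if_neg hj, if_neg (by omega), mul_zero]
    rw [h4]
    exact h3
  · have h4 : (fun j : ℕ => t ^ j * if 2 * j = k then (1 : ℝ) else 0) = fun _ => 0 := by
      funext j
      rw [if_neg (fun hj => hk ⟨j, by omega⟩), mul_zero]
    rw [h4]
    exact hasSum_zero

theorem MEX_Hcont {t : ℝ} (ht : 0 < t) (h1 : t < 1) :
    Continuous (fun y : ℝ => MEX_H t (2 * Real.cos y)) := by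
  unfold MEX_H
  exact Continuous.div (by fun_prop) (by fun_prop) fun y => (MEX_den h1 ht (MEX_cos y)).ne'

theorem MEX_Hpos {t : ℝ} (ht : 0 < t) (h1 : t < 1) (y : ℝ) : 0 ≤ MEX_H t (2 * Real.cos y) := by
  unfold MEX_H
  have := MEX_den h1 ht (MEX_cos y)
  positivity

theorem plan_exists_pr {p : ℝ} (hp : 1 < p) : ∃ μ : Measure ℝ, IsProbabilityMeasure μ ∧
    (∀ᵐ x ∂μ, |x| ≤ 2) ∧ ∀ k : ℕ, ∫ x, Uu x k ∂μ = if Even k then 1 / p ^ (k / 2) else 0 := by
  have := MEX_prob
  set t : ℝ := 1 / p with ht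
  have ht0 : 0 < t := by positivity
  have ht1 : t < 1 := by
    rw [ht, div_lt_one (by linarith)]
    exact hp
  set ν : Measure ℝ := MEX_st.withDensity (fun y => ENNReal.ofReal (MEX_H t (2 * Real.cos y)))
    with hν
  have hm : Measurable (fun y : ℝ => ENNReal.ofReal (MEX_H t (2 * Real.cos y))) :=
    (MEX_Hcont ht0 ht1).measurable.ennreal_ofReal
  have hνint : ∀ g : ℝ → ℝ, ∫ y, g y ∂ν = ∫ y, MEX_H t (2 * Real.cos y) * g y ∂MEX_st := by
    intro g
    rw [hν, integral_withDensity_eq_integral_toReal_smul hm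
      (Filter.Eventually.of_forall fun x => ENNReal.ofReal_lt_top)]
    refine integral_congr_ae (Filter.Eventually.of_forall fun y => ?_)
    simp only
    rw [ENNReal.toReal_ofReal (MEX_Hpos ht0 ht1 y), smul_eq_mul]
  have hHint : Integrable (fun y : ℝ => MEX_H t (2 * Real.cos y)) MEX_st := by
    obtain ⟨C, hC⟩ := isCompact_Icc.exists_bound_of_continuousOn (s := Set.Icc (-2 : ℝ) 2)
      (f := MEX_H t) (by
        unfold MEX_H
        refine ContinuousOn.div (by fun_prop) (by fun_prop) fun x hx => ?_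
        exact (MEX_den ht1 ht0 (abs_le.2 hx)).ne')
    refine Integrable.of_bound (C := C) (MEX_Hcont ht0 ht1).aestronglyMeasurable
      (Eventually.of_forall fun y => ?_)
    exact hC (2 * Real.cos y) (abs_le.1 (MEX_cos y))
  have hνp : IsProbabilityMeasure ν := by
    constructor
    rw [hν, withDensity_apply _ MeasurableSet.univ, Measure.restrict_univ,
      ← ofReal_integral_eq_lintegral_ofReal hHint (Eventually.of_forall (MEX_Hpos ht0 ht1))]
    have h1 := MEX_moment ht0 ht1 0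
    simp only [Uu, mul_one] at h1
    rw [h1]
    simp
  have hcm : Measurable (fun y : ℝ => 2 * Real.cos y) := by fun_prop
  refine ⟨ν.map (fun y => 2 * Real.cos y), Measure.isProbabilityMeasure_map hcm.aemeasurable, ?_,
    fun k => ?_⟩
  · rw [ae_map_iff hcm.aemeasurable (measurableSet_le (by fun_prop) (by fun_prop))]
    exact Eventually.of_forall fun y => MEX_cos y
  · rw [integral_map hcm.aemeasurable (MEX_cont k).aestronglyMeasurable, hνint,
      MEX_moment ht0 ht1 k, ht]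
    simp only [one_div, inv_pow]

theorem model_exists_pr (I : Finset ℕ) (hI : ∀ p ∈ I, p.Prime) :
    ∃ P : Measure (ℕ → ℝ), IsModel I P := by
  classical
  have hex : ∀ n : ℕ, ∃ μ : Measure ℝ, IsProbabilityMeasure μ ∧ (n ∈ I → (∀ᵐ x ∂μ, |x| ≤ 2) ∧
      ∀ k : ℕ, ∫ x, Uu x k ∂μ = if Even k then 1 / (n : ℝ) ^ (k / 2) else 0) := by
    intro n
    by_cases hn : n ∈ I
    · obtain ⟨μ, h1, h2, h3⟩ := plan_exists_pr (p := (n : ℝ))
        (by exact_mod_cast (hI n hn).one_lt)
      exact ⟨μ, h1, fun _ => ⟨h2, h3⟩⟩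
    · exact ⟨Measure.dirac 0, inferInstance, fun h => absurd h hn⟩
  choose μ hμ1 hμ2 using hex
  refine ⟨Measure.infinitePi μ, ?_, ?_, ?_, ?_⟩
  · infer_instance
  · have h1 : ∀ p ∈ I, ∀ᵐ x ∂(Measure.infinitePi μ), |x p| ≤ 2 := by
      intro p hp
      have h2 := (hμ2 p hp).1
      have h3 := (measurePreserving_eval_infinitePi μ p).quasiMeasurePreserving.ae h2
      exact h3
    exact (Finset.eventually_all I).2 h1
  · have h1 : iIndepFun (fun n (x : ℕ → ℝ) => x n) (Measure.infinitePi μ) :=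
      iIndepFun_infinitePi (X := fun _ (x : ℝ) => x) (fun _ => measurable_id)
    exact h1.precomp Subtype.val_injective
  · intro p hp k
    rw [← (hμ2 p hp).2 k]
    have h1 := (measurePreserving_eval_infinitePi μ p).map_eq
    conv_rhs => rw [← h1]
    rw [integral_map (measurePreserving_eval_infinitePi μ p).measurable.aemeasurable
      (MEX_cont k).aestronglyMeasurable]

theorem plan_exists : type_of% @plan_exists_pr := @plan_exists_pr
theorem model_exists : type_of% @model_exists_pr := @model_exists_pr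

end Pool.Agent.LEV
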