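import Pool.Agent.Lib_helper68.LEV.DefsG

/-! # Block PSI: the number of primitive classes -/

namespace Pool.Agent.LEV

open Finset

/-- the number of `b` for given `a`, `d` -/
def PSI_G (a d : ℕ) : ℕ := d / Nat.gcd a d * Nat.totient (Nat.gcd a d)

theorem PSI_count (g k : ℕ) :
    ((range (g * k)).filter (fun b => g.Coprime b)).card = k * g.totient := by
  induction k with
  | zero => simp
  | succ k ih =>
    have h1 : range (g * (k + 1)) = range (g * k) ∪ Ico (g * k) (g * k + g) := by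
      ext x
      simp only [mem_range, mem_union, mem_Ico]
      have : g * (k + 1) = g * k + g := by ring
      omega
    have h2 : Disjoint ((range (g * k)).filter (fun b => g.Coprime b))
        ((Ico (g * k) (g * k + g)).filter (fun b => g.Coprime b)) := by
      refine disjoint_filter_filter ?_
      rw [Finset.disjoint_left]
      intro x hx hx2
      have h3 := mem_range.1 hx
      have h4 := mem_Ico.1 hx2
      omega
    rw [h1, filter_union, card_union_of_disjoint h2, ih, Nat.filter_coprime_Ico_eq_totient]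
    ring

theorem PSI_fib {a d : ℕ} (hd : 0 < d) :
    ((range d).filter (fun b => Nat.gcd (Nat.gcd a b) d = 1)).card = PSI_G a d := by
  set g := Nat.gcd a d with hg
  have hgd : g ∣ d := Nat.gcd_dvd_right _ _
  have h1 : ∀ b, Nat.gcd (Nat.gcd a b) d = 1 ↔ g.Coprime b := by
    intro b
    have : Nat.gcd (Nat.gcd a b) d = Nat.gcd g b := by
      rw [hg, Nat.gcd_assoc, Nat.gcd_comm b d, ← Nat.gcd_assoc]
    rw [this]
  have h2 : (range d).filter (fun b => Nat.gcd (Nat.gcd a b) d = 1) =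
      (range d).filter (fun b => g.Coprime b) := by
    refine filter_congr fun b _ => h1 b
  rw [h2]
  conv_lhs => rw [← Nat.mul_div_cancel' hgd]
  rw [PSI_count, PSI_G]

theorem PSI_card {n : ℕ} (hn : 0 < n) : (PMat n).card = ∑ d ∈ n.divisors, PSI_G (n / d) d := by
  have hmap : ∀ t ∈ PMat n, t.2.2 ∈ n.divisors := by
    intro t ht
    unfold PMat at ht
    rw [mem_filter] at ht
    exact Nat.mem_divisors.2 ⟨Dvd.intro_left _ ht.2.1, hn.ne'⟩
  rw [card_eq_sum_card_fiberwise hmap]
  refine sum_congr rfl fun d hd => ?_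
  have hdn := Nat.dvd_of_mem_divisors hd
  have hd0 : 0 < d := Nat.pos_of_mem_divisors hd
  rw [← PSI_fib hd0]
  refine card_bij' (fun t _ => t.2.1) (fun b _ => (n / d, b, d)) ?_ ?_ ?_ ?_
  · intro t ht
    rw [mem_filter] at ht
    obtain ⟨ht1, ht2⟩ := ht
    unfold PMat at ht1
    rw [mem_filter] at ht1
    obtain ⟨-, h1, h2, h3⟩ := ht1
    have h4 : t.1 = n / d := by
      rw [← h1, ht2]
      exact (Nat.mul_div_cancel _ hd0).symm
    rw [mem_filter, mem_range]
    refine ⟨by rw [← ht2]; exact h2, ?_⟩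
    rw [← h4, ← ht2]
    exact h3
  · intro b hb
    rw [mem_filter, mem_range] at hb
    have hdle : d ≤ n := Nat.le_of_dvd hn hdn
    have hq : n / d ≤ n := Nat.div_le_self _ _
    rw [mem_filter]
    refine ⟨?_, rfl⟩
    unfold PMat
    rw [mem_filter]
    refine ⟨?_, Nat.div_mul_cancel hdn, hb.1, hb.2⟩
    simp only [mem_product, mem_range]
    omega
  · intro t ht
    rw [mem_filter] at ht
    obtain ⟨ht1, ht2⟩ := ht
    unfold PMat at ht1
    rw [mem_filter] at ht1
    obtain ⟨-, h1, h2, h3⟩ := ht1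
    have h4 : t.1 = n / d := by
      rw [← h1, ht2]
      exact (Nat.mul_div_cancel _ hd0).symm
    refine Prod.ext h4.symm (Prod.ext rfl ht2.symm)
  · intro b hb
    rfl

theorem PSI_G_mul {a a' d d' : ℕ} (h : (a * d).Coprime (a' * d')) :
    PSI_G (a * a') (d * d') = PSI_G a d * PSI_G a' d' := by
  have h1 : Nat.gcd (a * a') (d * d') = Nat.gcd a d * Nat.gcd a' d' := by
    have ha : a.Coprime a' := (h.coprime_dvd_left (dvd_mul_right _ _)).coprime_dvd_right
      (dvd_mul_right _ _)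
    have hd' : a.Coprime d' := (h.coprime_dvd_left (dvd_mul_right _ _)).coprime_dvd_right
      (dvd_mul_left _ _)
    have hd : d.Coprime a' := (h.coprime_dvd_left (dvd_mul_left _ _)).coprime_dvd_right
      (dvd_mul_right _ _)
    have hdd : d.Coprime d' := (h.coprime_dvd_left (dvd_mul_left _ _)).coprime_dvd_right
      (dvd_mul_left _ _)
    rw [Nat.Coprime.gcd_mul _ hdd]
    congr 1
    · exact Nat.Coprime.gcd_mul_right_cancel _ hd.symm
    · exact Nat.Coprime.gcd_mul_left_cancel _ hd'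
  have h2 : (Nat.gcd a d).Coprime (Nat.gcd a' d') :=
    (h.coprime_dvd_left ((Nat.gcd_dvd_left _ _).trans (dvd_mul_right _ _))).coprime_dvd_right
      ((Nat.gcd_dvd_left _ _).trans (dvd_mul_right _ _))
  unfold PSI_G
  rw [h1, Nat.totient_mul h2, Nat.mul_div_mul_comm (Nat.gcd_dvd_right _ _) (Nat.gcd_dvd_right _ _)]
  ring

theorem PSI_one : (PMat 1).card = 1 := by
  rw [PSI_card one_pos]
  simp [PSI_G]

theorem PSI_zero : (PMat 0).card = 0 := by
  rw [card_eq_zero]
  unfold PMat
  rw [filter_eq_empty_iff]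
  rintro ⟨a, b, d⟩ h ⟨-, h2, -⟩
  simp only [zero_add, range_one, mem_product, mem_singleton] at h h2
  omega

theorem pmat_mul_pr {m n : ℕ} (h : m.Coprime n) :
    (PMat (m * n)).card = (PMat m).card * (PMat n).card := by
  rcases Nat.eq_zero_or_pos m with rfl | hm
  · rw [Nat.coprime_zero_left] at h
    rw [h, mul_one, PSI_one, mul_one]
  rcases Nat.eq_zero_or_pos n with rfl | hn
  · rw [Nat.coprime_zero_right] at h
    rw [h, one_mul, PSI_one, one_mul]
  rw [PSI_card (Nat.mul_pos hm hn), PSI_card hm, PSI_card hn, Nat.divisors_mul, Finset.mul_def,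
    sum_image h.mul_injOn_divisors, sum_product, sum_mul_sum]
  refine sum_congr rfl fun x hx => sum_congr rfl fun y hy => ?_
  have hx' := Nat.dvd_of_mem_divisors hx
  have hy' := Nat.dvd_of_mem_divisors hy
  dsimp only
  rw [← PSI_G_mul, Nat.mul_div_mul_comm hx' hy']
  rw [Nat.div_mul_cancel hx', Nat.div_mul_cancel hy']
  exact h

theorem pmat_pow_pr {p : ℕ} (hp : p.Prime) (e : ℕ) :
    (PMat 1).card = 1 ∧ (PMat (p ^ (e + 1))).card = p ^ (e + 1) + p ^ e := by
  refine ⟨PSI_one, ?_⟩
  have hp0 := hp.pos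
  rw [PSI_card (pow_pos hp0 _), Nat.sum_divisors_prime_pow hp, sum_range_succ, sum_range_succ']
  have h1 : PSI_G (p ^ (e + 1) / p ^ (e + 1)) (p ^ (e + 1)) = p ^ (e + 1) := by
    rw [Nat.div_self (pow_pos hp0 _)]
    simp [PSI_G]
  have h0 : PSI_G (p ^ (e + 1) / p ^ 0) (p ^ 0) = 1 := by simp [PSI_G]
  rw [h1, h0]
  have h2 : ∀ j ∈ range e, PSI_G (p ^ (e + 1) / p ^ (j + 1)) (p ^ (j + 1)) =
      p ^ (j + 1) - p ^ j := by
    intro j hj
    have hj' := mem_range.1 hj
    have e1 : p ^ (e + 1) / p ^ (j + 1) = p ^ (e - j) := by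
      rw [Nat.pow_div (by omega) hp0]
      congr 1
      omega
    rw [e1]
    unfold PSI_G
    obtain ⟨m, hm⟩ : ∃ m, Nat.gcd (p ^ (e - j)) (p ^ (j + 1)) = p ^ (m + 1) ∧ m ≤ j := by
      rcases le_total (e - j) (j + 1) with h | h
      · refine ⟨e - j - 1, ?_, by omega⟩
        rw [Nat.gcd_eq_left (pow_dvd_pow p h)]
        congr 1
        omega
      · refine ⟨j, ?_, le_rfl⟩
        rw [Nat.gcd_eq_right (pow_dvd_pow p h)]
    rw [hm.1, Nat.totient_prime_pow_succ hp, Nat.pow_div (by omega) hp0, ← mul_assoc, ← pow_add]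
    have e2 : j + 1 - (m + 1) + m = j := by omega
    rw [e2, pow_succ, Nat.mul_sub, mul_one]
  rw [sum_congr rfl h2]
  have h3 : ∀ k : ℕ, ∑ j ∈ range k, (p ^ (j + 1) - p ^ j) = p ^ k - 1 := by
    intro k
    induction k with
    | zero => simp
    | succ k ih =>
      rw [sum_range_succ, ih]
      have a1 : 1 ≤ p ^ k := Nat.one_le_pow _ _ hp0
      have a2 : p ^ k ≤ p ^ (k + 1) := Nat.pow_le_pow_right hp0 (Nat.le_succ k)
      omega
  rw [h3]
  have a1 : 1 ≤ p ^ e := Nat.one_le_pow _ _ hp0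
  omega

theorem pmat_mul : type_of% @pmat_mul_pr := @pmat_mul_pr
theorem pmat_pow : type_of% @pmat_pow_pr := @pmat_pow_pr

end Pool.Agent.LEV
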