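import Pool.Agent.Lib_helper68.LEV.DefsG
import Pool.Agent.Lib_helper68.LEV.PSI

/-! block EQS -/

set_option autoImplicit false

namespace Pool.Agent.LEV

open Complex MeasureTheory Filter Topology UpperHalfPlane ModularGroup ProbabilityTheory
open scoped MatrixGroups Modular ENNReal ModularForm ComplexConjugate ContDiff

/-- the Chebyshev product rule -/
theorem EQS_uu (x : ℝ) (a b : ℕ) :
    Uu x (a + 1) * Uu x (b + 1) = Uu x a * Uu x b + Uu x (a + b + 2) := by
  induction b using Nat.strong_induction_on with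
  | _ b ih =>
    match b with
    | 0 => simp only [Uu]; ring
    | 1 =>
      simp only [Uu]
      ring
    | (n + 2) =>
      have h1 : Uu x (a + 1) * Uu x (n + 2) = Uu x a * Uu x (n + 1) + Uu x (a + (n + 1) + 2) :=
        ih (n + 1) (by omega)
      have h2 := ih n (by omega)
      have e1 : Uu x (n + 2 + 1) = x * Uu x (n + 2) - Uu x (n + 1) := by
        have : n + 2 + 1 = (n + 1) + 2 := by ring
        rw [this]
        rfl
      have e2 : Uu x (n + 2) = x * Uu x (n + 1) - Uu x n := by simp only [Uu]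
      have e3 : Uu x (a + (n + 2) + 2) = x * Uu x (a + (n + 1) + 2) - Uu x (a + n + 2) := by
        have : a + (n + 2) + 2 = (a + n + 2) + 2 := by ring
        rw [this]
        have h3 : a + (n + 1) + 2 = (a + n + 2) + 1 := by ring
        rw [h3]
        simp only [Uu]
      linear_combination x * h1 - h2 + Uu x (a + 1) * e1 - Uu x a * e2 - e3

/-- orthogonal polynomials of the Plancherel measure at `p` -/
noncomputable def EQSt (p : ℝ) (x : ℝ) : ℕ → ℝ
  | 0 => 1
  | 1 => x
  | (n + 2) => Uu x (n + 2) - Uu x n / p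

theorem EQS_ucont (k : ℕ) : Continuous (fun x : ℝ => Uu x k) := by
  induction k using Nat.strong_induction_on with
  | _ k ih =>
    match k with
    | 0 => simp only [Uu]; exact continuous_const
    | 1 => simp only [Uu]; exact continuous_id
    | (n + 2) =>
      simp only [Uu]
      exact (continuous_id.mul (ih (n + 1) (by omega))).sub (ih n (by omega))

theorem EQS_tcont (p : ℝ) (k : ℕ) : Continuous (fun x : ℝ => EQSt p x k) := by
  match k with
  | 0 => simp only [EQSt]; exact continuous_const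
  | 1 => simp only [EQSt]; exact continuous_id
  | (n + 2) =>
    simp only [EQSt]
    exact (EQS_ucont (n + 2)).sub ((EQS_ucont n).div_const p)

/-- abstract orthogonality -/
theorem EQS_orth {p : ℝ} {M : ℕ → ℝ} {E : ℕ → ℕ → ℝ} (hM0 : M 0 = 1) (hM1 : M 1 = 0)
    (hM : ∀ k, M (k + 2) = M k / p) (hs : ∀ a b, E a b = E b a) (h0 : ∀ a, E a 0 = M a)
    (hE : ∀ a b, E (a + 1) (b + 1) = E a b + M (a + b + 2)) :
    (∀ b a, b < a + 2 → E (a + 2) b - E a b / p = 0) ∧
    (∀ a, E (a + 2) (a + 2) - E a (a + 2) / p = 1 + 1 / p) := by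
  have key : ∀ b a, b < a + 2 → E (a + 2) b - E a b / p = 0 := by
    intro b
    induction b with
    | zero =>
      intro a _
      rw [h0, h0, hM]
      ring
    | succ b ih =>
      intro a hab
      match a with
      | 0 =>
        have hb : b = 0 := by omega
        subst hb
        have h3 : M 3 = 0 := by rw [hM 1, hM1]; ring
        have e1 := hE 1 0
        have e2 := h0 1
        have e3 := hs 0 1
        norm_num at e1 e3 ⊢
        rw [e1, e2, e3, e2, h3, hM1]
        ring
      | (c + 1) =>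
        have e1 := hE (c + 2) b
        have e2 := hE c b
        have e3 := hM (c + b + 2)
        have e4 := ih c (by omega)
        have e5 : c + 2 + b + 2 = c + b + 2 + 2 := by ring
        rw [e5] at e1
        have e6 : c + 1 + 2 = c + 2 + 1 := by ring
        rw [e6, e1, e2, e3]
        linear_combination e4
  refine ⟨key, ?_⟩
  intro a
  induction a with
  | zero =>
    have e1 := hE 1 1
    have e2 := hE 0 0
    have e3 := hs 0 2
    have e4 := h0 2
    have e5 := h0 0
    have e6 := hM 0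
    have e7 := hM 2
    norm_num at e1 e2 e3 e4 e5 e6 e7 ⊢
    rw [e1, e2, e5, e3, e4, e7, e6, hM0]
    ring
  | succ a ih =>
    have e1 := hE (a + 2) (a + 2)
    have e2 := hE a (a + 2)
    have e3 := hM (a + (a + 2) + 2)
    have e5 : a + 2 + (a + 2) + 2 = a + (a + 2) + 2 + 2 := by ring
    rw [e5] at e1
    have e6 : a + 1 + 2 = a + 2 + 1 := by ring
    rw [e6, e1, e2, e3]
    linear_combination ih

/-! multiplicative functions given by values at prime powers -/

/-- the multiplicative function with value `g p e` at `p ^ e` -/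
noncomputable def EQSw (g : ℕ → ℕ → ℝ) (m : ℕ) : ℝ := ∏ p ∈ m.primeFactors, g p (m.factorization p)

theorem EQS_w_mul (g : ℕ → ℕ → ℝ) {m n : ℕ} (h : m.Coprime n) :
    EQSw g (m * n) = EQSw g m * EQSw g n := by
  unfold EQSw
  rw [h.primeFactors_mul, Finset.prod_union h.disjoint_primeFactors]
  congr 1
  · refine Finset.prod_congr rfl fun p hp => ?_
    rw [Nat.factorization_eq_of_coprime_left h (Nat.mem_primeFactors_iff_mem_primeFactorsList.mp hp)]
  · refine Finset.prod_congr rfl fun p hp => ?_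
    rw [Nat.factorization_eq_of_coprime_right h (Nat.mem_primeFactors_iff_mem_primeFactorsList.mp hp)]

theorem EQS_w_pow {g : ℕ → ℕ → ℝ} (hg : ∀ p, g p 0 = 1) {p : ℕ} (hp : p.Prime) (e : ℕ) :
    EQSw g (p ^ e) = g p e := by
  unfold EQSw
  rcases Nat.eq_zero_or_pos e with h | h
  · subst h
    rw [pow_zero, Nat.primeFactors_one, Finset.prod_empty, hg]
  · rw [Nat.primeFactors_prime_pow h.ne' hp, Finset.prod_singleton, hp.factorization_pow,
      Finsupp.single_eq_same]

theorem EQS_w_one (g : ℕ → ℕ → ℝ) : EQSw g 1 = 1 := by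
  unfold EQSw
  rw [Nat.primeFactors_one, Finset.prod_empty]

/-- as an arithmetic function -/
noncomputable def EQSa (g : ℕ → ℕ → ℝ) : ArithmeticFunction ℝ :=
  ⟨fun m => if m = 0 then 0 else EQSw g m, by simp⟩

theorem EQS_a_mult (g : ℕ → ℕ → ℝ) : (EQSa g).IsMultiplicative := by
  rw [ArithmeticFunction.IsMultiplicative.iff_ne_zero]
  constructor
  · simp [EQSa, EQS_w_one]
  · intro m n hm hn h
    simp only [EQSa, ArithmeticFunction.coe_mk, hm, hn, if_false, mul_eq_zero, or_self]
    exact EQS_w_mul g h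

theorem EQS_w_conv {g g1 g2 : ℕ → ℕ → ℝ} (hg : ∀ p, g p 0 = 1) (hg1 : ∀ p, g1 p 0 = 1)
    (hg2 : ∀ p, g2 p 0 = 1) (h : ∀ p, p.Prime → ∀ e,
      g p e = ∑ i ∈ Finset.range (e + 1), g1 p i * g2 p (e - i)) {m : ℕ} (hm : m ≠ 0) :
    EQSw g m = ∑ x ∈ m.divisorsAntidiagonal, EQSw g1 x.1 * EQSw g2 x.2 := by
  have h1 : EQSa g = EQSa g1 * EQSa g2 := by
    rw [ArithmeticFunction.IsMultiplicative.eq_iff_eq_on_prime_powers _ (EQS_a_mult g) _
      ((EQS_a_mult g1).mul (EQS_a_mult g2))]
    intro p e hp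
    rw [ArithmeticFunction.mul_apply,
      Nat.sum_divisorsAntidiagonal (fun i j => EQSa g1 i * EQSa g2 j), Nat.divisors_prime_pow hp,
      Finset.sum_map]
    simp only [EQSa, ArithmeticFunction.coe_mk, Function.Embedding.coeFn_mk]
    rw [if_neg (pow_pos hp.pos e).ne', EQS_w_pow hg hp, h p hp e]
    refine Finset.sum_congr rfl fun i hi => ?_
    rw [Finset.mem_range] at hi
    rw [Nat.pow_div (by omega) hp.pos, if_neg (pow_pos hp.pos _).ne', if_neg (pow_pos hp.pos _).ne',
      EQS_w_pow hg1 hp, EQS_w_pow hg2 hp]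
  have h2 := congrArg (fun a : ArithmeticFunction ℝ => a m) h1
  simp only [ArithmeticFunction.mul_apply] at h2
  simp only [EQSa, ArithmeticFunction.coe_mk, hm, if_false] at h2
  rw [h2]
  refine Finset.sum_congr rfl fun x hx => ?_
  rw [Nat.mem_divisorsAntidiagonal] at hx
  have h3 : x.1 ≠ 0 := by
    rintro h
    rw [h, zero_mul] at hx
    exact hx.2 hx.1.symm
  have h4 : x.2 ≠ 0 := by
    rintro h
    rw [h, mul_zero] at hx
    exact hx.2 hx.1.symm
  rw [if_neg h3, if_neg h4]

/-- the function `1 / k` at `k ^ 2` -/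
noncomputable def EQSs (p i : ℕ) : ℝ := if Even i then 1 / (p : ℝ) ^ (i / 2) else 0

theorem EQS_s_two (p i : ℕ) : EQSs p (i + 2) = EQSs p i / p := by
  unfold EQSs
  by_cases h : Even i
  · have h2 : Even (i + 2) := by
      rw [Nat.even_add]
      simp [h]
    rw [if_pos h, if_pos h2, Nat.add_div_right _ (by norm_num), pow_succ, div_div]
  · have h2 : ¬ Even (i + 2) := by
      rw [Nat.even_add]
      simp [h]
    rw [if_neg h, if_neg h2, zero_div]

theorem EQS_s_zero (p : ℕ) : EQSs p 0 = 1 := by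
  simp [EQSs]

theorem EQS_s_one (p : ℕ) : EQSs p 1 = 0 := by
  simp [EQSs]

theorem EQS_exp (p : ℕ) (x : ℝ) (e : ℕ) :
    Uu x e = ∑ i ∈ Finset.range (e + 1), EQSs p i * EQSt p x (e - i) := by
  induction e using Nat.strong_induction_on with
  | _ e ih =>
    match e with
    | 0 => simp [Uu, EQSt, EQS_s_zero]
    | 1 =>
      rw [Finset.sum_range_succ, Finset.sum_range_one, EQS_s_zero, EQS_s_one]
      simp [Uu, EQSt]
    | (n + 2) =>
      have h1 := ih n (by omega)
      rw [Finset.sum_range_succ', Finset.sum_range_succ', EQS_s_zero]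
      have h2 : EQSs p (0 + 1) = 0 := EQS_s_one p
      rw [h2, zero_mul, add_zero, one_mul, Nat.sub_zero]
      have h3 : ∑ k ∈ Finset.range (n + 1), EQSs p (k + 1 + 1) * EQSt p x (n + 2 - (k + 1 + 1)) =
          Uu x n / p := by
        rw [h1, Finset.sum_div]
        refine Finset.sum_congr rfl fun k _ => ?_
        have e1 : n + 2 - (k + 1 + 1) = n - k := by omega
        have e2 : EQSs p (k + 1 + 1) = EQSs p k / p := EQS_s_two p k
        rw [e1, e2]
        ring
      rw [h3]
      simp only [EQSt]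
      ring

theorem EQS_sq {k : ℕ} (hk : k ≠ 0) : EQSw EQSs (k ^ 2) = 1 / (k : ℝ) := by
  unfold EQSw
  have h1 : ∀ p ∈ (k ^ 2).primeFactors, EQSs p ((k ^ 2).factorization p) =
      1 / (p : ℝ) ^ (k.factorization p) := by
    intro p _
    have h2 : (k ^ 2).factorization p = 2 * k.factorization p := by
      rw [Nat.factorization_pow, Finsupp.smul_apply, smul_eq_mul]
    unfold EQSs
    rw [h2, if_pos (even_two_mul _), Nat.mul_div_cancel_left _ (by norm_num)]
  rw [Finset.prod_congr rfl h1, Finset.prod_div_distrib, Finset.prod_const_one]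
  congr 1
  have h3 : ∏ p ∈ k.primeFactors, (p : ℝ) ^ (k.factorization p) = k := by
    have := Nat.prod_factorization_pow_eq_self hk
    rw [Finsupp.prod, Nat.support_factorization] at this
    exact_mod_cast congrArg (fun n : ℕ => (n : ℝ)) this
  rw [Nat.primeFactors_pow k (by norm_num)]
  exact h3

theorem EQS_nsq {m : ℕ} (hm : m ≠ 0) (hs : ¬ ∃ k : ℕ, k ^ 2 = m) : EQSw EQSs m = 0 := by
  unfold EQSw
  by_contra hne
  apply hs
  have hall : ∀ p ∈ m.primeFactors, Even (m.factorization p) := by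
    intro p hp
    by_contra ho
    exact hne (Finset.prod_eq_zero hp (if_neg ho))
  refine ⟨∏ p ∈ m.primeFactors, p ^ (m.factorization p / 2), ?_⟩
  have h := Nat.prod_factorization_pow_eq_self hm
  rw [Finsupp.prod, Nat.support_factorization] at h
  rw [← Finset.prod_pow]
  conv_rhs => rw [← h]
  refine Finset.prod_congr rfl fun p hp => ?_
  rw [← pow_mul, Nat.div_mul_cancel (hall p hp).two_dvd]

/-- the value of `EQSw EQSs` as a sum over square roots -/
theorem EQS_s_sum {X j : ℕ} (hj : j ≠ 0) (hjX : j ≤ X) :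
    EQSw EQSs j = ∑ k ∈ Finset.Icc 1 X, if k ^ 2 = j then 1 / (k : ℝ) else 0 := by
  by_cases h : ∃ k : ℕ, k ^ 2 = j
  · obtain ⟨k, rfl⟩ := h
    have hk : k ≠ 0 := by
      rintro rfl
      exact hj (by norm_num)
    have h1 : ∀ k' : ℕ, (k' ^ 2 = k ^ 2) ↔ k' = k := fun k' =>
      ⟨fun h => Nat.pow_left_injective (n := 2) (by norm_num) h, fun h => by rw [h]⟩
    simp only [h1]
    rw [Finset.sum_ite_eq', if_pos, EQS_sq hk]
    rw [Finset.mem_Icc]
    have h2 : 1 ≤ k := Nat.one_le_iff_ne_zero.mpr hk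
    exact ⟨h2, by nlinarith⟩
  · rw [EQS_nsq hj h]
    refine (Finset.sum_eq_zero fun k _ => ?_).symm
    rw [if_neg]
    exact fun h' => h ⟨k, h'⟩

/-- expansion of `Um` in the orthogonal polynomials -/
theorem EQS_um {X m : ℕ} (hm : 1 ≤ m) (hmX : m ≤ X) (x : ℕ → ℝ) :
    Um m x = ∑ n ∈ Finset.Icc 1 X, ∑ k ∈ Finset.Icc 1 X,
      if n * k ^ 2 = m then (1 / (k : ℝ)) * EQSw (fun p e => EQSt p (x p) e) n else 0 := by
  have h1 : Um m x = EQSw (fun p e => Uu (x p) e) m := rfl
  rw [h1, EQS_w_conv (g1 := EQSs) (g2 := fun p e => EQSt p (x p) e) (fun p => rfl)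
    (fun p => EQS_s_zero p) (fun p => rfl) (fun p _ e => EQS_exp p (x p) e) (by omega)]
  have h2 : ∀ y ∈ m.divisorsAntidiagonal, EQSw EQSs y.1 * EQSw (fun p e => EQSt p (x p) e) y.2 =
      ∑ k ∈ Finset.Icc 1 X, if k ^ 2 = y.1 then
        (1 / (k : ℝ)) * EQSw (fun p e => EQSt p (x p) e) y.2 else 0 := by
    intro y hy
    rw [Nat.mem_divisorsAntidiagonal] at hy
    have h3 : y.1 ≠ 0 := by
      intro h
      rw [h, zero_mul] at hy
      exact hy.2 hy.1.symm
    have h4 : y.1 ≤ X := (Nat.le_of_dvd (by omega) ⟨y.2, hy.1.symm⟩).trans hmX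
    rw [EQS_s_sum h3 h4, Finset.sum_mul]
    refine Finset.sum_congr rfl fun k _ => ?_
    rw [ite_mul, zero_mul]
  rw [Finset.sum_congr rfl h2, Finset.sum_comm]
  conv_rhs => rw [Finset.sum_comm]
  refine Finset.sum_congr rfl fun k hk => ?_
  rw [Finset.mem_Icc] at hk
  rw [← Finset.sum_filter, ← Finset.sum_filter]
  refine Finset.sum_bij' (fun y _ => y.2) (fun n _ => (k ^ 2, n)) ?_ ?_ ?_ ?_ ?_
  · intro y hy
    rw [Finset.mem_filter, Nat.mem_divisorsAntidiagonal] at hy
    rw [Finset.mem_filter, Finset.mem_Icc]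
    obtain ⟨⟨h3, h4⟩, h5⟩ := hy
    have h6 : y.2 ≠ 0 := by
      intro h
      rw [h, mul_zero] at h3
      exact h4 h3.symm
    have h7 : y.2 ≤ m := Nat.le_of_dvd (by omega) ⟨y.1, by rw [← h3]; ring⟩
    refine ⟨⟨by omega, by omega⟩, ?_⟩
    rw [h5, mul_comm]
    exact h3
  · intro n hn
    rw [Finset.mem_filter, Finset.mem_Icc] at hn
    rw [Finset.mem_filter, Nat.mem_divisorsAntidiagonal]
    refine ⟨⟨?_, by omega⟩, rfl⟩
    rw [mul_comm]
    exact hn.2
  · intro y hy
    rw [Finset.mem_filter] at hy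
    exact Prod.ext hy.2 rfl
  · intro n _
    rfl
  · intro y _
    rfl

/-! the size of the set of primitive classes -/

theorem EQS_psi {n : ℕ} (hn : n ≠ 0) :
    ((PMat n).card : ℝ) / n = EQSw (fun p e => if e = 0 then 1 else 1 + 1 / (p : ℝ)) n := by
  revert hn
  induction n using Nat.recOnPosPrimePosCoprime with
  | prime_pow p e hp he =>
    intro _
    rw [EQS_w_pow (fun p => rfl) hp]
    obtain ⟨e', rfl⟩ : ∃ e', e = e' + 1 := ⟨e - 1, by omega⟩
    rw [(pmat_pow hp e').2, if_neg (by omega)]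
    have hp0 : (p : ℝ) ≠ 0 := by exact_mod_cast hp.ne_zero
    push_cast
    field_simp
    ring
  | zero => intro h; exact absurd rfl h
  | one =>
    intro _
    rw [EQS_w_one, (pmat_pow Nat.prime_two 0).1]
    norm_num
  | coprime a b ha hb hab iha ihb =>
    intro _
    rw [EQS_w_mul _ hab, pmat_mul hab, ← iha (by omega), ← ihb (by omega)]
    push_cast
    rw [mul_div_mul_comm]

theorem EQS_w_sub {g : ℕ → ℕ → ℝ} (hg : ∀ p, g p 0 = 1) {I : Finset ℕ} {n : ℕ}
    (h : n.primeFactors ⊆ I) : EQSw g n = ∏ p ∈ I, g p (n.factorization p) := by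
  unfold EQSw
  refine Finset.prod_subset h fun p _ hp => ?_
  have : n.factorization p = 0 := by
    rw [← Finsupp.notMem_support_iff, Nat.support_factorization]
    exact hp
  rw [this, hg]

/-! one variable -/

section
variable {I : Finset ℕ} {P : Measure (ℕ → ℝ)}

theorem EQS_intf (hP : IsModel I P) {p : ℕ} (hp : p ∈ I) {φ : ℝ → ℝ} (hφ : Continuous φ) :
    Integrable (fun x : ℕ → ℝ => φ (x p)) P := by
  have := hP.prob
  obtain ⟨C, hC⟩ := (isCompact_Icc (a := (-2 : ℝ)) (b := 2)).exists_bound_of_continuousOn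
    hφ.continuousOn
  refine Integrable.of_bound (hφ.measurable.comp (measurable_pi_apply p)).aestronglyMeasurable C ?_
  filter_upwards [hP.bdd] with x hx
  exact hC _ (abs_le.mp (hx p hp))

theorem EQS_lin (hP : IsModel I P) {p : ℕ} (hp : p ∈ I) {φ ψ : ℝ → ℝ} (hφ : Continuous φ)
    (hψ : Continuous ψ) (r : ℝ) :
    ∫ x, (φ (x p) - ψ (x p) / r) ∂P = ∫ x, φ (x p) ∂P - (∫ x, ψ (x p) ∂P) / r := by
  rw [integral_sub (EQS_intf hP hp hφ) ((EQS_intf hP hp hψ).div_const r), integral_div]

theorem EQS_F (hP : IsModel I P) {p : ℕ} (hp : p ∈ I) :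
    (∀ b a, b < a → ∫ x, EQSt p (x p) a * Uu (x p) b ∂P = 0) ∧
    (∀ a, ∫ x, EQSt p (x p) a * Uu (x p) a ∂P = if a = 0 then 1 else 1 + 1 / (p : ℝ)) := by
  have := hP.prob
  have hM : ∀ k, ∫ x, Uu (x p) k ∂P = EQSs p k := fun k => hP.mom p hp k
  have hE0 : ∀ a, ∫ x, Uu (x p) a * Uu (x p) 0 ∂P = EQSs p a := by
    intro a
    simp only [Uu, mul_one]
    exact hM a
  have hE1 : ∀ a b, ∫ x, Uu (x p) (a + 1) * Uu (x p) (b + 1) ∂P =
      ∫ x, Uu (x p) a * Uu (x p) b ∂P + EQSs p (a + b + 2) := by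
    intro a b
    simp_rw [EQS_uu]
    rw [integral_add (EQS_intf hP hp (φ := fun y => Uu y a * Uu y b)
      ((EQS_ucont a).mul (EQS_ucont b))) (EQS_intf hP hp (EQS_ucont _)), hM]
  have ho := EQS_orth (p := (p : ℝ)) (M := EQSs p)
    (E := fun a b => ∫ x, Uu (x p) a * Uu (x p) b ∂P) (EQS_s_zero p) (EQS_s_one p)
    (EQS_s_two p) (fun a b => by simp_rw [mul_comm]) hE0 hE1
  have hF : ∀ a b, ∫ x, EQSt p (x p) (a + 2) * Uu (x p) b ∂P =
      ∫ x, Uu (x p) (a + 2) * Uu (x p) b ∂P - (∫ x, Uu (x p) a * Uu (x p) b ∂P) / p := by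
    intro a b
    rw [← EQS_lin hP hp (φ := fun y => Uu y (a + 2) * Uu y b) (ψ := fun y => Uu y a * Uu y b)
      ((EQS_ucont _).mul (EQS_ucont _)) ((EQS_ucont _).mul (EQS_ucont _))]
    refine integral_congr_ae (Eventually.of_forall fun x => ?_)
    simp only [EQSt]
    ring
  constructor
  · intro b a hab
    match a with
    | 0 => omega
    | 1 =>
      have hb : b = 0 := by omega
      subst hb
      simp only [EQSt, Uu, mul_one]
      have := hM 1
      simp only [Uu] at this
      rw [this, EQS_s_one]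
    | (n + 2) =>
      rw [hF]
      exact ho.1 b n hab
  · intro a
    match a with
    | 0 =>
      simp [EQSt, Uu]
    | 1 =>
      have h1 := hE1 0 0
      rw [hE0 0] at h1
      have h2 : EQSs p (0 + 0 + 2) = EQSs p 0 / p := EQS_s_two p 0
      rw [h2, EQS_s_zero] at h1
      rw [if_neg (by norm_num), ← h1]
      rfl
    | (n + 2) =>
      rw [hF, if_neg (by omega)]
      exact ho.2 n

theorem EQS_G (hP : IsModel I P) {p : ℕ} (hp : p ∈ I) (a b : ℕ) :
    ∫ x, EQSt p (x p) a * EQSt p (x p) b ∂P =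
      if a = b then (if a = 0 then 1 else 1 + 1 / (p : ℝ)) else 0 := by
  have hlin : ∀ a b, ∫ x, EQSt p (x p) a * EQSt p (x p) (b + 2) ∂P =
      ∫ x, EQSt p (x p) a * Uu (x p) (b + 2) ∂P - (∫ x, EQSt p (x p) a * Uu (x p) b ∂P) / p := by
    intro a b
    rw [← EQS_lin hP hp (φ := fun y => EQSt p y a * Uu y (b + 2))
      (ψ := fun y => EQSt p y a * Uu y b)
      ((EQS_tcont _ _).mul (EQS_ucont _)) ((EQS_tcont _ _).mul (EQS_ucont _))]
    refine integral_congr_ae (Eventually.of_forall fun x => ?_)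
    simp only [EQSt]
    ring
  obtain ⟨h1, h2⟩ := EQS_F hP hp
  have hlt : ∀ a b, b < a → ∫ x, EQSt p (x p) a * EQSt p (x p) b ∂P = 0 := by
    intro a b hab
    match b with
    | 0 => exact h1 0 a hab
    | 1 => exact h1 1 a hab
    | (n + 2) =>
      rw [hlin, h1 _ _ hab, h1 _ _ (by omega)]
      ring
  rcases lt_trichotomy a b with h | h | h
  · rw [if_neg h.ne]
    have := hlt b a h
    simp_rw [mul_comm] at this ⊢
    exact this
  · subst h
    rw [if_pos rfl]
    match a with
    | 0 => exact h2 0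
    | 1 => exact h2 1
    | (n + 2) =>
      rw [hlin, h2 (n + 2), h1 n (n + 2) (by omega)]
      ring
  · rw [if_neg h.ne']
    exact hlt a b h

/-! many variables -/

theorem EQS_orthT (hP : IsModel I P) {n n' : ℕ} (hn : n ≠ 0) (hn' : n' ≠ 0)
    (h : n.primeFactors ⊆ I) (h' : n'.primeFactors ⊆ I) :
    ∫ x, EQSw (fun p e => EQSt p (x p) e) n * EQSw (fun p e => EQSt p (x p) e) n' ∂P =
      if n = n' then ((PMat n).card : ℝ) / n else 0 := by
  have := hP.prob
  have h1 : ∀ x : ℕ → ℝ, EQSw (fun p e => EQSt p (x p) e) n *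
      EQSw (fun p e => EQSt p (x p) e) n' = ∏ p : I,
        (fun y : ℝ => EQSt (p : ℕ) y (n.factorization p) * EQSt (p : ℕ) y (n'.factorization p))
          (x p) := by
    intro x
    rw [EQS_w_sub (fun p => rfl) h, EQS_w_sub (fun p => rfl) h', ← Finset.prod_mul_distrib,
      Finset.prod_coe_sort I (fun p => EQSt p (x p) (n.factorization p) *
        EQSt p (x p) (n'.factorization p))]
  simp_rw [h1]
  rw [hP.ind.integral_fun_prod_comp (f := fun p : I => fun y : ℝ =>
      EQSt (p : ℕ) y (n.factorization p) * EQSt (p : ℕ) y (n'.factorization p))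
    (fun p => (measurable_pi_apply (p : ℕ)).aemeasurable)
    (fun p => ((EQS_tcont _ _).mul (EQS_tcont _ _)).aestronglyMeasurable)]
  rw [Finset.prod_congr rfl fun (p : I) _ =>
    EQS_G hP p.2 (n.factorization p) (n'.factorization p)]
  rw [Finset.prod_coe_sort I (fun p => if n.factorization p = n'.factorization p then
    (if n.factorization p = 0 then 1 else 1 + 1 / (p : ℝ)) else 0)]
  by_cases hnn : n = n'
  · subst hnn
    rw [if_pos rfl, EQS_psi hn, EQS_w_sub (fun p => rfl) h]
    exact Finset.prod_congr rfl fun p _ => if_pos rfl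
  · rw [if_neg hnn]
    obtain ⟨p, hp⟩ : ∃ p, n.factorization p ≠ n'.factorization p := by
      by_contra hcon
      push Not at hcon
      exact hnn (Nat.eq_of_factorization_eq hn hn' hcon)
    have hpI : p ∈ I := by
      by_contra hpI
      apply hp
      have e1 : n.factorization p = 0 := by
        rw [← Finsupp.notMem_support_iff, Nat.support_factorization]
        exact fun hh => hpI (h hh)
      have e2 : n'.factorization p = 0 := by
        rw [← Finsupp.notMem_support_iff, Nat.support_factorization]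
        exact fun hh => hpI (h' hh)
      rw [e1, e2]
    exact Finset.prod_eq_zero hpI (if_neg hp)

theorem EQS_intT (hP : IsModel I P) {n n' : ℕ} (h : n.primeFactors ⊆ I)
    (h' : n'.primeFactors ⊆ I) :
    Integrable (fun x => EQSw (fun p e => EQSt p (x p) e) n *
      EQSw (fun p e => EQSt p (x p) e) n') P := by
  have := hP.prob
  have hb : ∀ p e : ℕ, ∃ C : ℝ, ∀ y : ℝ, |y| ≤ 2 → ‖EQSt p y e‖ ≤ C := by
    intro p e
    obtain ⟨C, hC⟩ := (isCompact_Icc (a := (-2 : ℝ)) (b := 2)).exists_bound_of_continuousOn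
      (EQS_tcont p e).continuousOn
    exact ⟨C, fun y hy => hC y (abs_le.mp hy)⟩
  choose C hC using hb
  have hm : ∀ n : ℕ, Measurable (fun x : ℕ → ℝ => EQSw (fun p e => EQSt p (x p) e) n) := by
    intro n
    unfold EQSw
    exact Finset.measurable_fun_prod _ fun p _ =>
      (EQS_tcont _ _).measurable.comp (measurable_pi_apply p)
  refine Integrable.of_bound ((hm n).mul (hm n')).aestronglyMeasurable
    ((∏ p ∈ n.primeFactors, C p (n.factorization p)) *
      (∏ p ∈ n'.primeFactors, C p (n'.factorization p))) ?_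
  filter_upwards [hP.bdd] with x hx
  unfold EQSw
  rw [norm_mul, norm_prod, norm_prod]
  have e1 : ∏ p ∈ n.primeFactors, ‖EQSt p (x p) (n.factorization p)‖ ≤
      ∏ p ∈ n.primeFactors, C p (n.factorization p) :=
    Finset.prod_le_prod (fun p _ => norm_nonneg _) fun p hp => hC _ _ _ (hx p (h hp))
  have e2 : ∏ p ∈ n'.primeFactors, ‖EQSt p (x p) (n'.factorization p)‖ ≤
      ∏ p ∈ n'.primeFactors, C p (n'.factorization p) :=
    Finset.prod_le_prod (fun p _ => norm_nonneg _) fun p hp => hC _ _ _ (hx p (h' hp))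
  exact mul_le_mul e1 e2 (Finset.prod_nonneg fun p _ => norm_nonneg _)
    ((Finset.prod_nonneg fun p _ => norm_nonneg _).trans e1)

theorem model_sq_pr {I : Finset ℕ} (hI : ∀ p ∈ I, p.Prime) {P : Measure (ℕ → ℝ)} (hP : IsModel I P)
    {X : ℕ} {c : ℕ → ℝ} (hc : ∀ m, c m ≠ 0 → 1 ≤ m ∧ m ≤ X ∧ m.primeFactors ⊆ I) :
    ∫ x, (∑ m ∈ Finset.Icc 1 X, c m * Um m x) ^ 2 ∂P = QP X c := by
  set d : ℕ → ℝ := fun n => ∑ k ∈ (Finset.Icc 1 X).filter (fun k => n * k ^ 2 ≤ X),
    c (n * k ^ 2) / k with hd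
  have hdI : ∀ n, d n ≠ 0 → n.primeFactors ⊆ I := by
    intro n hn
    obtain ⟨k, hk, hk2⟩ := Finset.exists_ne_zero_of_sum_ne_zero hn
    have hck : c (n * k ^ 2) ≠ 0 := by
      intro h
      rw [h, zero_div] at hk2
      exact hk2 rfl
    obtain ⟨h1, _, h3⟩ := hc _ hck
    exact (Nat.primeFactors_mono (Dvd.intro _ rfl) (by omega)).trans h3
  have h1 : ∀ x : ℕ → ℝ, ∑ m ∈ Finset.Icc 1 X, c m * Um m x =
      ∑ n ∈ Finset.Icc 1 X, d n * EQSw (fun p e => EQSt p (x p) e) n := by
    intro x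
    have h2 : ∀ m ∈ Finset.Icc 1 X, c m * Um m x = ∑ n ∈ Finset.Icc 1 X, ∑ k ∈ Finset.Icc 1 X,
        if n * k ^ 2 = m then c m * ((1 / (k : ℝ)) * EQSw (fun p e => EQSt p (x p) e) n)
          else 0 := by
      intro m hm
      rw [Finset.mem_Icc] at hm
      rw [EQS_um hm.1 hm.2, Finset.mul_sum]
      refine Finset.sum_congr rfl fun n _ => ?_
      rw [Finset.mul_sum]
      refine Finset.sum_congr rfl fun k _ => ?_
      rw [mul_ite, mul_zero]
    rw [Finset.sum_congr rfl h2, Finset.sum_comm]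
    refine Finset.sum_congr rfl fun n hn => ?_
    rw [Finset.mem_Icc] at hn
    rw [Finset.sum_comm, hd]
    simp only
    rw [Finset.sum_filter, Finset.sum_mul]
    refine Finset.sum_congr rfl fun k hk => ?_
    rw [Finset.mem_Icc] at hk
    rw [Finset.sum_ite_eq]
    have h3 : 1 ≤ n * k ^ 2 := Nat.mul_pos (by omega) (pow_pos (by omega) 2)
    by_cases h4 : n * k ^ 2 ≤ X
    · rw [if_pos (Finset.mem_Icc.mpr ⟨h3, h4⟩), if_pos h4]
      ring
    · rw [if_neg (fun h => h4 (Finset.mem_Icc.mp h).2), if_neg h4, zero_mul]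
  simp_rw [h1, sq, Finset.sum_mul_sum]
  have hint : ∀ n ∈ Finset.Icc 1 X, ∀ n' ∈ Finset.Icc 1 X, Integrable (fun x : ℕ → ℝ =>
      d n * EQSw (fun p e => EQSt p (x p) e) n * (d n' * EQSw (fun p e => EQSt p (x p) e) n')) P := by
    intro n _ n' _
    have := hP.prob
    by_cases h2 : d n = 0
    · simp only [h2, zero_mul]
      exact integrable_const 0
    by_cases h3 : d n' = 0
    · simp only [h3, zero_mul, mul_zero]
      exact integrable_const 0
    have h4 := (EQS_intT hP (hdI n h2) (hdI n' h3)).const_mul (d n * d n')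
    refine h4.congr (Eventually.of_forall fun x => ?_)
    simp only
    ring
  rw [integral_finsetSum _ fun n hn => integrable_finsetSum _ (hint n hn)]
  unfold QP
  refine Finset.sum_congr rfl fun n hn => ?_
  rw [integral_finsetSum _ (hint n hn)]
  have h5 : ∀ n' ∈ Finset.Icc 1 X, ∫ x, d n * EQSw (fun p e => EQSt p (x p) e) n *
      (d n' * EQSw (fun p e => EQSt p (x p) e) n') ∂P =
      if n = n' then ((PMat n).card : ℝ) / n * (d n * d n') else 0 := by
    intro n' hn'
    rw [Finset.mem_Icc] at hn hn'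
    by_cases h2 : d n = 0
    · simp only [h2, zero_mul, mul_zero, integral_zero, ite_self]
    by_cases h3 : d n' = 0
    · simp only [h3, zero_mul, mul_zero, integral_zero, ite_self]
    have h4 := EQS_orthT hP (n := n) (n' := n') (by omega) (by omega) (hdI n h2) (hdI n' h3)
    have h6 : ∀ x : ℕ → ℝ, d n * EQSw (fun p e => EQSt p (x p) e) n *
        (d n' * EQSw (fun p e => EQSt p (x p) e) n') = (d n * d n') *
        (EQSw (fun p e => EQSt p (x p) e) n * EQSw (fun p e => EQSt p (x p) e) n') := by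
      intro x
      ring
    simp_rw [h6]
    rw [integral_const_mul, h4, mul_ite, mul_zero]
    refine if_congr Iff.rfl ?_ rfl
    ring
  rw [Finset.sum_congr rfl h5, Finset.sum_ite_eq, if_pos hn, ← sq]

end

theorem model_sq : type_of% @model_sq_pr := @model_sq_pr

end Pool.Agent.LEV
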