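import Pool.Agent.Lib_helper68.LEV.DefsG
import Pool.Agent.Lib_helper68.LEV.FAM
import Pool.Agent.Lib_helper68.LEV.FRK

/-! block FPT -/

set_option autoImplicit false

namespace Pool.Agent.LEV

open Complex MeasureTheory Filter Topology UpperHalfPlane ModularGroup
open scoped MatrixGroups Modular ENNReal ModularForm ComplexConjugate ContDiff

section
variable {N : ℕ} [Fact N.Prime]

/-- a matrix of determinant `N` acts on families as the Fricke involution -/
theorem fricke_point_pr {W : S2 N →ₗ[ℂ] S2 N} (hW : IsFricke W) (g : S2 N)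
    (hg : W g = g ∨ W g = -g) (q : PX N) :
    ∃ (q' : PX N) (a b c d : ℤ), a * d - b * c = N ∧ kerq q a b c d ∧ kerq q' d (-b) (-c) a ∧
      ∀ z z' : ℍ, (z' : ℂ) * ((c : ℂ) * (z : ℂ) + (d : ℂ)) = (a : ℂ) * (z : ℂ) + (b : ℂ) →
        ‖fam g q z‖ ^ 2 * z.im ^ 2 = ‖fam g q' z'‖ ^ 2 * z'.im ^ 2 := by
  have hNp : 0 < N := (Fact.out : N.Prime).pos
  have hN : (0 : ℝ) < N := by exact_mod_cast hNp
  have hNC : (N : ℂ) ≠ 0 := by exact_mod_cast hNp.ne'
  have hWn : ∀ z : ℍ, ‖W g z‖ = ‖g z‖ := by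
    intro z
    rcases hg with h | h
    · rw [h]
    · rw [h]
      exact norm_neg _
  cases q with
  | none =>
    refine ⟨OnePoint.infty, 0, -1, N, 0, by ring, ?_, ?_, ?_⟩
    · show ((0 : ℤ) : ZMod N) = 0 ∧ (((N : ℕ) : ℤ) : ZMod N) = 0
      refine ⟨by simp, by simp⟩
    · show ((0 : ℤ) : ZMod N) = 0 ∧ ((-((N : ℕ) : ℤ) : ℤ) : ZMod N) = 0
      refine ⟨by simp, by simp⟩
    · intro z z' hzz
      have hz0 : (z : ℂ) ≠ 0 := z.ne_zero
      have e1 : (z' : ℂ) = (wz N z : ℂ) := by
        show (z' : ℂ) = -1 / ((N : ℂ) * (z : ℂ))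
        rw [eq_div_iff (mul_ne_zero hNC hz0)]
        push_cast at hzz
        linear_combination hzz
      have e2 : z' = wz N z := UpperHalfPlane.ext e1
      have hns : 0 < Complex.normSq z := Complex.normSq_pos.mpr hz0
      have him : (wz N z).im = z.im / (N * Complex.normSq z) := by
        show (-1 / ((N : ℂ) * (z : ℂ))).im = _
        rw [neg_div, Complex.neg_im, one_div, Complex.inv_im, Complex.normSq_mul,
          Complex.normSq_natCast, Complex.mul_im, Complex.natCast_re, Complex.natCast_im, zero_mul,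
          add_zero, neg_div, neg_neg]
        have h4 : (z : ℂ).im = z.im := rfl
        rw [h4]
        field_simp
      have hv : ‖g z‖ = (N * Complex.normSq z)⁻¹ * ‖g (wz N z)‖ := by
        rw [← hWn z, hW g z, norm_mul, norm_inv, norm_mul, norm_pow, Complex.norm_natCast,
          Complex.normSq_eq_norm_sq]
      have hv0 : fam g (none : PX N) = g := fam_inf g
      have hv1 : fam g (OnePoint.infty : PX N) = g := fam_inf g
      rw [hv0, hv1, e2, him, hv]
      field_simp
  | some j =>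
    refine ⟨OnePoint.infty, 1, -(j.val : ℤ), 0, N, by ring, ?_, ?_, ?_⟩
    · show ((1 : ℤ) : ZMod N) * j + ((-(j.val : ℤ) : ℤ) : ZMod N) = 0 ∧
        ((0 : ℤ) : ZMod N) * j + (((N : ℕ) : ℤ) : ZMod N) = 0
      refine ⟨?_, by simp⟩
      push_cast
      rw [ZMod.natCast_zmod_val]
      ring
    · show (((N : ℕ) : ℤ) : ZMod N) = 0 ∧ ((-(0 : ℤ) : ℤ) : ZMod N) = 0
      refine ⟨by simp, by simp⟩
    · intro z z' hzz
      have e1 : (z' : ℂ) = (zsc N j.val z : ℂ) := by
        show (z' : ℂ) = ((z : ℂ) - ((j.val : ℝ) : ℂ)) / (N : ℂ)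
        rw [eq_div_iff hNC]
        push_cast at hzz ⊢
        linear_combination hzz
      have e2 : z' = zsc N j.val z := UpperHalfPlane.ext e1
      have him : (zsc N j.val z).im = z.im / N := by
        show (((z : ℂ) - ((j.val : ℝ) : ℂ)) / (N : ℂ)).im = _
        rw [Complex.div_natCast_im, Complex.sub_im, Complex.ofReal_im, sub_zero]
        rfl
      have hv : ‖fam g (some j) z‖ = (N : ℝ)⁻¹ * ‖g (zsc N j.val z)‖ := by
        rw [fricke_fam hW g j z, norm_mul, norm_inv, Complex.norm_natCast, hWn]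
      have hv1 : fam g (OnePoint.infty : PX N) = g := fam_inf g
      rw [hv, e2, hv1, him]
      field_simp

end

theorem fricke_point : type_of% @fricke_point_pr := @fricke_point_pr

end Pool.Agent.LEV
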