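import Pool.Agent.Lib_helper68.LEV.DefsG
import Pool.Agent.Lib_helper98.WAF.A2

/-! Block MVP (helper8): mean value inequality on hyperbolic discs. `MVP_mean`, `MVP_area0` are copied
from helper83's block GEK. -/

namespace Pool.Agent.LEV

open Complex MeasureTheory Filter Topology UpperHalfPlane ModularGroup ProbabilityTheory
open scoped MatrixGroups Modular ENNReal ModularForm ComplexConjugate ContDiff
open Pool.Agent.WA

theorem MVP_mean {G : ℂ → ℂ} {ρ : ℝ} (hG : DifferentiableOn ℂ G (Metric.closedBall (0 : ℂ) ρ)) {r : ℝ}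
    (hr0 : 0 < r) (hr1 : r ≤ ρ) :
    ∫ θ in Set.Ioo (-Real.pi) Real.pi, G (circleMap 0 r θ) = 2 * Real.pi * G 0 := by
  have h1 : Real.circleAverage G 0 r = G 0 := by
    apply DiffContOnCl.circleAverage
    rw [abs_of_pos hr0]
    apply DifferentiableOn.diffContOnCl
    apply hG.mono
    rw [closure_ball _ hr0.ne']
    exact Metric.closedBall_subset_closedBall hr1
  rw [Real.circleAverage_def] at h1
  have h2 : ∫ θ in (-Real.pi)..(-Real.pi + 2 * Real.pi), G (circleMap 0 r θ) =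
      ∫ θ in (0 : ℝ)..(0 + 2 * Real.pi), G (circleMap 0 r θ) := by
    apply Function.Periodic.intervalIntegral_add_eq
    intro θ
    simp only []
    rw [periodic_circleMap]
  rw [← integral_Ioc_eq_integral_Ioo, ← intervalIntegral.integral_of_le (by linarith [Real.pi_pos])]
  have h3 : -Real.pi + 2 * Real.pi = Real.pi := by ring
  rw [h3, zero_add] at h2
  rw [h2, ← h1]
  rw [Complex.real_smul]
  push_cast
  have := Real.pi_ne_zero
  field_simp

theorem MVP_area0 {G : ℂ → ℂ} {ρ : ℝ} (hρ : 0 < ρ)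
    (hG : DifferentiableOn ℂ G (Metric.closedBall (0 : ℂ) ρ)) :
    ∫ ζ in Metric.ball (0 : ℂ) ρ, G ζ = ((Real.pi * ρ ^ 2 : ℝ) : ℂ) * G 0 := by
  have hcont : ContinuousOn G (Metric.closedBall (0 : ℂ) ρ) := hG.continuousOn
  obtain ⟨C, hC⟩ := (isCompact_closedBall (0 : ℂ) ρ).exists_bound_of_continuousOn hcont
  rw [← integral_indicator measurableSet_ball, ← Complex.integral_comp_polarCoord_symm]
  have hsymm : ∀ p : ℝ × ℝ, Complex.polarCoord.symm p = circleMap 0 p.1 p.2 := by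
    intro p
    rw [Complex.polarCoord_symm_apply, circleMap, zero_add, Complex.exp_mul_I]
    push_cast
    rfl
  have h1 : ∫ p in polarCoord.target, p.1 • (Metric.ball (0 : ℂ) ρ).indicator G
      (Complex.polarCoord.symm p) =
      ∫ p in Set.Ioo (0 : ℝ) ρ ×ˢ Set.Ioo (-Real.pi) Real.pi, p.1 • G (circleMap 0 p.1 p.2) := by
    have h2 : ∀ p ∈ polarCoord.target, p.1 • (Metric.ball (0 : ℂ) ρ).indicator G
        (Complex.polarCoord.symm p) =
        ({p : ℝ × ℝ | p.1 < ρ}).indicator (fun p => p.1 • G (circleMap 0 p.1 p.2)) p := by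
      intro p hp
      have hp1 : 0 < p.1 := hp.1
      rw [hsymm]
      by_cases h : p.1 < ρ
      · rw [Set.indicator_of_mem, Set.indicator_of_mem]
        · exact h
        · rw [mem_ball_zero_iff, norm_circleMap_zero, abs_of_pos hp1]
          exact h
      · rw [Set.indicator_of_notMem, Set.indicator_of_notMem, smul_zero]
        · exact h
        · rw [mem_ball_zero_iff, norm_circleMap_zero, abs_of_pos hp1]
          exact h
    rw [setIntegral_congr_fun (polarCoord.open_target.measurableSet) h2,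
      setIntegral_indicator (measurableSet_lt measurable_fst measurable_const)]
    congr 2
    ext p
    constructor
    · rintro ⟨⟨h3, h4⟩, h5⟩
      exact ⟨⟨h3, h5⟩, h4⟩
    · rintro ⟨⟨h3, h5⟩, h4⟩
      exact ⟨⟨h3, h4⟩, h5⟩
  rw [h1]
  have hmem : ∀ p ∈ Set.Ioo (0 : ℝ) ρ ×ˢ Set.Ioo (-Real.pi) Real.pi,
      circleMap 0 p.1 p.2 ∈ Metric.closedBall (0 : ℂ) ρ := by
    intro p hp
    rw [mem_closedBall_zero_iff, norm_circleMap_zero, abs_of_pos hp.1.1]
    exact hp.1.2.le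
  have hI : IntegrableOn (fun p : ℝ × ℝ => p.1 • G (circleMap 0 p.1 p.2))
      (Set.Ioo (0 : ℝ) ρ ×ˢ Set.Ioo (-Real.pi) Real.pi) := by
    refine IntegrableOn.of_bound ?_ ?_ (ρ * C) ?_
    · rw [Measure.volume_eq_prod, Measure.prod_prod, Real.volume_Ioo, Real.volume_Ioo]
      exact ENNReal.mul_lt_top ENNReal.ofReal_lt_top ENNReal.ofReal_lt_top
    · apply ContinuousOn.aestronglyMeasurable _ (measurableSet_Ioo.prod measurableSet_Ioo)
      apply continuousOn_fst.smul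
      apply hcont.comp _ hmem
      unfold circleMap
      fun_prop
    · refine (ae_restrict_iff' (measurableSet_Ioo.prod measurableSet_Ioo)).mpr
        (Eventually.of_forall fun p hp => ?_)
      rw [norm_smul, Real.norm_eq_abs, abs_of_pos hp.1.1]
      exact mul_le_mul hp.1.2.le (hC _ (hmem p hp)) (norm_nonneg _) hρ.le
  rw [Measure.volume_eq_prod] at hI ⊢
  rw [setIntegral_prod _ hI]
  have h5 : ∀ r ∈ Set.Ioo (0 : ℝ) ρ,
      ∫ θ in Set.Ioo (-Real.pi) Real.pi, r • G (circleMap 0 r θ) =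
        ((r : ℝ) : ℂ) * (2 * Real.pi * G 0) := by
    intro r hr
    rw [← MVP_mean hG hr.1 hr.2.le, ← integral_const_mul]
    apply integral_congr_ae
    refine Eventually.of_forall fun θ => ?_
    simp only [Complex.real_smul]
  simp only []
  have h6 : ∫ a in Set.Ioo (0 : ℝ) ρ, ((a : ℝ) : ℂ) =
      ((∫ a in Set.Ioo (0 : ℝ) ρ, a : ℝ) : ℂ) := integral_ofReal
  have h7 : ∫ a in Set.Ioo (0 : ℝ) ρ, a = ρ ^ 2 / 2 := by
    rw [← integral_Ioc_eq_integral_Ioo, ← intervalIntegral.integral_of_le hρ.le, integral_id]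
    ring
  rw [setIntegral_congr_fun measurableSet_Ioo h5, integral_mul_const, h6, h7]
  push_cast
  ring


/-- the image of the disc of radius `ρ` -/
theorem MVP_image {z : ℂ} (hz : 0 < z.im) {ρ : ℝ} (h1 : ρ < 1) :
    A2_Phi z '' Metric.ball (0 : ℂ) ρ =
      {w : ℂ | 0 < w.im} ∩ {w : ℂ | ‖w - z‖ < ρ * ‖w - conj z‖} := by
  have hne : ∀ w : ℂ, 0 < w.im → w - conj z ≠ 0 := by
    intro w hw h
    have := congrArg Complex.im h
    simp at this
    linarith
  have hsub : Metric.ball (0 : ℂ) ρ ⊆ Metric.ball (0 : ℂ) 1 := Metric.ball_subset_ball h1.le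
  have hu : ∀ u ∈ Metric.ball (0 : ℂ) 1, A2_Phi z u - z = u * (A2_Phi z u - conj z) := by
    intro u hu
    have h := A2_one_sub_ne hu
    rw [A2_Phi]
    field_simp
    ring
  ext w
  constructor
  · rintro ⟨u, hu1, rfl⟩
    have hpos := A2_Phi_im_pos hz (hsub hu1)
    refine ⟨hpos, ?_⟩
    rw [Set.mem_ofPred_eq, hu u (hsub hu1), norm_mul]
    rw [mem_ball_zero_iff] at hu1
    exact mul_lt_mul_of_pos_right hu1 (norm_pos_iff.mpr (hne _ hpos))
  · rintro ⟨hw, hw2⟩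
    rw [Set.mem_ofPred_eq] at hw hw2
    have himg : w ∈ A2_Phi z '' Metric.ball (0 : ℂ) 1 := by
      rw [A2_Phi_image hz]; exact hw
    obtain ⟨u, hu1, rfl⟩ := himg
    refine ⟨u, ?_, rfl⟩
    rw [hu u hu1, norm_mul] at hw2
    rw [mem_ball_zero_iff]
    exact lt_of_mul_lt_mul_right hw2 (norm_nonneg _)

/-- change of variables -/
theorem MVP_change {z : ℂ} (hz : 0 < z.im) {ρ : ℝ} (h1 : ρ < 1) (G : ℂ → ℝ≥0∞) :
    ∫⁻ w in A2_Phi z '' Metric.ball (0 : ℂ) ρ, G w =
      ∫⁻ u in Metric.ball (0 : ℂ) ρ,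
        ENNReal.ofReal (‖2 * Complex.I * z.im / (1 - u) ^ 2‖ ^ 2) * G (A2_Phi z u) := by
  have hsub : Metric.ball (0 : ℂ) ρ ⊆ Metric.ball (0 : ℂ) 1 := Metric.ball_subset_ball h1.le
  have hD : ∀ ζ ∈ Metric.ball (0 : ℂ) ρ,
      HasFDerivWithinAt (A2_Phi z) (A2_D z ζ) (Metric.ball (0 : ℂ) ρ) ζ := by
    intro ζ hζ
    exact ((A2_Phi_deriv z (hsub hζ)).hasFDerivAt.restrictScalars ℝ).hasFDerivWithinAt
  have hdet : ∀ ζ, |(A2_D z ζ).det| = ‖2 * Complex.I * z.im / (1 - ζ) ^ 2‖ ^ 2 := by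
    intro ζ
    rw [A2_D, A2_det, abs_of_nonneg (by positivity)]
  have := lintegral_image_eq_lintegral_abs_det_fderiv_mul volume
    (measurableSet_ball (x := (0 : ℂ)) (ε := ρ)) hD ((A2_Phi_inj hz).mono hsub) G
  rw [this]
  simp only [hdet]

theorem MVP_hball (z : ℍ) (ρ : ℝ) (g : ℂ → ℝ≥0∞) :
    ∫⁻ w in hball z ρ, g w * ENNReal.ofReal ((w : ℂ).im ^ 2) =
      ∫⁻ w in {w : ℂ | 0 < w.im} ∩ {w : ℂ | ‖w - (z : ℂ)‖ < ρ * ‖w - conj (z : ℂ)‖}, g w := by
  have hms : MeasurableSet {w : ℂ | ‖w - (z : ℂ)‖ < ρ * ‖w - conj (z : ℂ)‖} :=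
    measurableSet_lt (by fun_prop) (by fun_prop)
  have hmh : MeasurableSet {w : ℂ | 0 < w.im} :=
    measurableSet_lt measurable_const Complex.measurable_im
  have hmb : MeasurableSet (hball z ρ) := measurableEmbedding_coe.measurable hms
  rw [← lintegral_indicator hmb]
  have h1 := Pool.Agent.GL2.RSA_lint ({w : ℂ | ‖w - (z : ℂ)‖ < ρ * ‖w - conj (z : ℂ)‖}.indicator
    (fun w => g w * ENNReal.ofReal (w.im ^ 2)))
  have h2 : ∀ w : ℍ, (hball z ρ).indicator (fun w => g w * ENNReal.ofReal ((w : ℂ).im ^ 2)) w =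
      {w : ℂ | ‖w - (z : ℂ)‖ < ρ * ‖w - conj (z : ℂ)‖}.indicator
        (fun w => g w * ENNReal.ofReal (w.im ^ 2)) (w : ℂ) := by
    intro w
    rfl
  simp only [h2]
  rw [h1, Set.inter_comm, ← setLIntegral_indicator hms]
  refine setLIntegral_congr_fun hmh fun w hw => ?_
  by_cases hw2 : w ∈ {w : ℂ | ‖w - (z : ℂ)‖ < ρ * ‖w - conj (z : ℂ)‖}
  · rw [Set.indicator_of_mem hw2, Set.indicator_of_mem hw2, mul_assoc,
      ← ENNReal.ofReal_mul (by positivity), mul_one_div_cancel (pow_ne_zero 2 (ne_of_gt hw)),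
      ENNReal.ofReal_one, mul_one]
  · rw [Set.indicator_of_notMem hw2, Set.indicator_of_notMem hw2, zero_mul]

theorem mean_value_pr {f : ℍ → ℂ} (hf : Hol f) (z : ℍ) {ρ : ℝ} (h0 : 0 < ρ) (h1 : ρ < 1) :
    ENNReal.ofReal (‖f z‖ ^ 2 * z.im ^ 2) ≤ ENNReal.ofReal (1 / (4 * Real.pi * ρ ^ 2)) *
      ∫⁻ w in hball z ρ, ‖f w‖ₑ ^ 2 * ENNReal.ofReal (w.im ^ 2) := by
  have hz : 0 < (z : ℂ).im := z.im_pos
  have hsub : Metric.closedBall (0 : ℂ) ρ ⊆ Metric.ball (0 : ℂ) 1 :=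
    Metric.closedBall_subset_ball h1
  -- the holomorphic function in the disc
  set g : ℂ → ℂ := fun u => f (UpperHalfPlane.ofComplex (A2_Phi z u)) *
    (2 * Complex.I * (z : ℂ).im / (1 - u) ^ 2) with hg
  have hgd : DifferentiableOn ℂ (fun u => g u ^ 2) (Metric.closedBall (0 : ℂ) ρ) := by
    apply DifferentiableOn.pow
    apply DifferentiableOn.mul
    · have hPhi : DifferentiableOn ℂ (A2_Phi z) (Metric.closedBall (0 : ℂ) ρ) := fun u hu =>
        (A2_Phi_deriv z (hsub hu)).differentiableAt.differentiableWithinAt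
      exact hf.comp hPhi fun u hu => A2_Phi_im_pos hz (hsub hu)
    · intro u hu
      have := A2_one_sub_ne (hsub hu)
      apply DifferentiableAt.differentiableWithinAt
      apply DifferentiableAt.div
      · fun_prop
      · fun_prop
      · exact pow_ne_zero 2 this
  have harea := MVP_area0 h0 hgd
  have hineq : ‖((Real.pi * ρ ^ 2 : ℝ) : ℂ) * g 0 ^ 2‖ₑ ≤
      ∫⁻ u in Metric.ball (0 : ℂ) ρ, ‖g u‖ₑ ^ 2 := by
    rw [← harea]
    refine (enorm_integral_le_lintegral_enorm _).trans (le_of_eq ?_)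
    refine lintegral_congr fun u => ?_
    rw [enorm_pow]
  -- the integral
  have hint : ∫⁻ u in Metric.ball (0 : ℂ) ρ, ‖g u‖ₑ ^ 2 =
      ∫⁻ w in hball z ρ, ‖f w‖ₑ ^ 2 * ENNReal.ofReal (w.im ^ 2) := by
    have h2 := MVP_hball z ρ (fun w => ‖f (UpperHalfPlane.ofComplex w)‖ₑ ^ 2)
    simp only [UpperHalfPlane.ofComplex_apply] at h2
    change ∫⁻ w in hball z ρ, ‖f w‖ₑ ^ 2 * ENNReal.ofReal (w.im ^ 2) = _ at h2
    rw [h2, ← MVP_image hz h1, MVP_change hz h1]
    refine lintegral_congr fun u => ?_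
    simp only [hg]
    rw [enorm_mul, mul_pow, mul_comm]
    congr 1
    rw [← ofReal_norm, ENNReal.ofReal_pow (norm_nonneg _)]
  have hg0 : ‖g 0‖ = ‖f z‖ * (2 * z.im) := by
    simp only [hg]
    have h3 : A2_Phi z 0 = z := by simp [A2_Phi]
    rw [h3, UpperHalfPlane.ofComplex_apply, norm_mul]
    congr 1
    simp
    exact z.im_pos.le
  rw [hint] at hineq
  have hpi := Real.pi_pos
  calc ENNReal.ofReal (‖f z‖ ^ 2 * z.im ^ 2) =
      ENNReal.ofReal (1 / (4 * Real.pi * ρ ^ 2)) * ‖((Real.pi * ρ ^ 2 : ℝ) : ℂ) * g 0 ^ 2‖ₑ := by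
        rw [← ofReal_norm, ← ENNReal.ofReal_mul (by positivity)]
        congr 1
        rw [norm_mul, norm_pow, hg0, Complex.norm_real, Real.norm_eq_abs,
          abs_of_pos (by positivity)]
        field_simp
        ring
    _ ≤ _ := mul_le_mul_right hineq _

theorem mean_value : type_of% @mean_value_pr := @mean_value_pr

end Pool.Agent.LEV
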