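import Pool.Agent.Lib_helper68.LEV.DefsG
import Pool.Agent.Lib_helper68.LEV.FAM
import Pool.Agent.Lib_helper68.LEV.FPT
import Pool.Agent.Lib_helper68.LEV.MVP
import Pool.Agent.Lib_helper68.LEV.PET

namespace Pool.Agent.LEV

open Complex MeasureTheory Filter Topology UpperHalfPlane ModularGroup ProbabilityTheory
open scoped MatrixGroups Modular ENNReal ModularForm ComplexConjugate ContDiff

/-- the Moebius action of integral matrices as a relation -/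
def GTD_Mob (A : Matrix (Fin 2) (Fin 2) ℤ) (u v : ℍ) : Prop :=
  (v : ℂ) * (((A 1 0 : ℤ) : ℂ) * (u : ℂ) + ((A 1 1 : ℤ) : ℂ)) =
    ((A 0 0 : ℤ) : ℂ) * (u : ℂ) + ((A 0 1 : ℤ) : ℂ)

theorem GTD_Mob_comp {A B : Matrix (Fin 2) (Fin 2) ℤ} {u v w : ℍ} (h1 : GTD_Mob A u v)
    (h2 : GTD_Mob B v w) : GTD_Mob (B * A) u w := by
  unfold GTD_Mob at *
  simp only [Matrix.mul_apply, Fin.sum_univ_two]
  push_cast
  linear_combination
    (((B 0 0 : ℤ) : ℂ) - (w : ℂ) * ((B 1 0 : ℤ) : ℂ)) * h1 +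
      (((A 1 0 : ℤ) : ℂ) * (u : ℂ) + ((A 1 1 : ℤ) : ℂ)) * h2

theorem GTD_Mob_adj {A : Matrix (Fin 2) (Fin 2) ℤ} {u v : ℍ} (h : GTD_Mob A u v) :
    GTD_Mob A.adjugate v u := by
  unfold GTD_Mob at *
  rw [Matrix.adjugate_fin_two]
  simp only [Matrix.of_apply, Matrix.cons_val', Matrix.cons_val_zero, Matrix.cons_val_one,
    Matrix.cons_val_fin_one]
  push_cast
  linear_combination -h

theorem GTD_denom_ne {A : Matrix (Fin 2) (Fin 2) ℤ} (hA : 0 < A.det) (u : ℍ) :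
    ((A 1 0 : ℤ) : ℂ) * (u : ℂ) + ((A 1 1 : ℤ) : ℂ) ≠ 0 := by
  intro h
  have him := congrArg Complex.im h
  have hre := congrArg Complex.re h
  simp only [Complex.add_im, Complex.mul_im, Complex.intCast_re, Complex.intCast_im, Complex.zero_im,
    Complex.add_re, Complex.mul_re, Complex.zero_re, zero_mul, add_zero, sub_zero] at him hre
  have hu : (u : ℂ).im ≠ 0 := u.im_pos.ne'
  have h1 : ((A 1 0 : ℤ) : ℝ) = 0 := by
    rcases mul_eq_zero.mp him with h | h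
    · exact h
    · exact absurd h hu
  rw [h1, zero_mul, zero_add] at hre
  have h2 : A 1 0 = 0 := by exact_mod_cast h1
  have h3 : A 1 1 = 0 := by exact_mod_cast hre
  rw [Matrix.det_fin_two, h2, h3] at hA
  simp at hA

theorem GTD_Mob_ball {A : Matrix (Fin 2) (Fin 2) ℤ} (hA : 0 < A.det) {u v z z' : ℍ}
    (h1 : GTD_Mob A u v) (h2 : GTD_Mob A z z') (ρ : ℝ) : v ∈ hball z' ρ ↔ u ∈ hball z ρ := by
  have hD := GTD_denom_ne hA u
  have hE := GTD_denom_ne hA z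
  set D : ℂ := ((A 1 0 : ℤ) : ℂ) * (u : ℂ) + ((A 1 1 : ℤ) : ℂ) with hDdef
  set E : ℂ := ((A 1 0 : ℤ) : ℂ) * (z : ℂ) + ((A 1 1 : ℤ) : ℂ) with hEdef
  have hdet : ((A.det : ℤ) : ℂ) = ((A 0 0 : ℤ) : ℂ) * ((A 1 1 : ℤ) : ℂ) -
      ((A 0 1 : ℤ) : ℂ) * ((A 1 0 : ℤ) : ℂ) := by
    rw [Matrix.det_fin_two]; push_cast; ring
  have e1 : ((v : ℂ) - (z' : ℂ)) * (D * E) = ((A.det : ℤ) : ℂ) * ((u : ℂ) - (z : ℂ)) := by
    have h1' : (v : ℂ) * D = ((A 0 0 : ℤ) : ℂ) * (u : ℂ) + ((A 0 1 : ℤ) : ℂ) := h1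
    have h2' : (z' : ℂ) * E = ((A 0 0 : ℤ) : ℂ) * (z : ℂ) + ((A 0 1 : ℤ) : ℂ) := h2
    have : ((v : ℂ) - (z' : ℂ)) * (D * E) = ((v : ℂ) * D) * E - ((z' : ℂ) * E) * D := by ring
    rw [this, h1', h2', hDdef, hEdef, hdet]
    ring
  have h2c : conj (z' : ℂ) * conj E = ((A 0 0 : ℤ) : ℂ) * conj (z : ℂ) + ((A 0 1 : ℤ) : ℂ) := by
    have h2' : (z' : ℂ) * E = ((A 0 0 : ℤ) : ℂ) * (z : ℂ) + ((A 0 1 : ℤ) : ℂ) := h2
    have := congrArg conj h2'
    simpa using this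
  have hEc : conj E = ((A 1 0 : ℤ) : ℂ) * conj (z : ℂ) + ((A 1 1 : ℤ) : ℂ) := by
    rw [hEdef]; simp
  have e2 : ((v : ℂ) - conj (z' : ℂ)) * (D * conj E) =
      ((A.det : ℤ) : ℂ) * ((u : ℂ) - conj (z : ℂ)) := by
    have h1' : (v : ℂ) * D = ((A 0 0 : ℤ) : ℂ) * (u : ℂ) + ((A 0 1 : ℤ) : ℂ) := h1
    have : ((v : ℂ) - conj (z' : ℂ)) * (D * conj E) =
        ((v : ℂ) * D) * conj E - (conj (z' : ℂ) * conj E) * D := by ring
    rw [this, h1', h2c, hEc, hDdef, hdet]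
    ring
  have n1 := congrArg norm e1
  have n2 := congrArg norm e2
  rw [norm_mul, norm_mul, norm_mul] at n1 n2
  rw [Complex.norm_conj] at n2
  have hdpos : 0 < ‖((A.det : ℤ) : ℂ)‖ := by
    rw [norm_pos_iff]; exact_mod_cast hA.ne'
  have hDE : 0 < ‖D‖ * ‖E‖ := mul_pos (norm_pos_iff.mpr hD) (norm_pos_iff.mpr hE)
  unfold hball
  simp only [Set.mem_ofPred_eq]
  constructor
  · intro h
    have h3 : ‖(v : ℂ) - (z' : ℂ)‖ * (‖D‖ * ‖E‖) < ρ * ‖(v : ℂ) - conj (z' : ℂ)‖ * (‖D‖ * ‖E‖) :=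
      mul_lt_mul_of_pos_right h hDE
    rw [n1, mul_assoc ρ, n2] at h3
    have h4 : ‖((A.det : ℤ) : ℂ)‖ * ‖(u : ℂ) - (z : ℂ)‖ <
        ‖((A.det : ℤ) : ℂ)‖ * (ρ * ‖(u : ℂ) - conj (z : ℂ)‖) := by linarith
    exact lt_of_mul_lt_mul_left h4 hdpos.le
  · intro h
    have h3 : ‖((A.det : ℤ) : ℂ)‖ * ‖(u : ℂ) - (z : ℂ)‖ <
        ‖((A.det : ℤ) : ℂ)‖ * (ρ * ‖(u : ℂ) - conj (z : ℂ)‖) := mul_lt_mul_of_pos_left h hdpos
    have h4 : ‖((A.det : ℤ) : ℂ)‖ * (ρ * ‖(u : ℂ) - conj (z : ℂ)‖) =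
        ρ * (‖(v : ℂ) - conj (z' : ℂ)‖ * (‖D‖ * ‖E‖)) := by rw [n2]; ring
    rw [← n1, h4, ← mul_assoc ρ] at h3
    exact lt_of_mul_lt_mul_right h3 hDE.le

/-- the matrix of a triple -/
def GTD_mat (t : ℕ × ℕ × ℕ) : Matrix (Fin 2) (Fin 2) ℤ := !![(t.1 : ℤ), (t.2.1 : ℤ); 0, (t.2.2 : ℤ)]

theorem GTD_mat_det (t : ℕ × ℕ × ℕ) : (GTD_mat t).det = (t.1 : ℤ) * (t.2.2 : ℤ) := by
  rw [GTD_mat, Matrix.det_fin_two_of]; ring

theorem GTD_hz {t : ℕ × ℕ × ℕ} (h1 : 0 < t.1) (h2 : 0 < t.2.2) (w : ℍ) :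
    GTD_Mob (GTD_mat t) w (hz t w) := by
  have hd : ((t.2.2 : ℕ) : ℂ) ≠ 0 := by exact_mod_cast h2.ne'
  have him : 0 < ((((t.1 : ℂ) * (w : ℂ) + (t.2.1 : ℂ)) / (t.2.2 : ℂ))).im := by
    rw [Complex.div_natCast_im]
    simp only [Complex.add_im, Complex.mul_im, Complex.natCast_re, Complex.natCast_im, zero_mul,
      add_zero]
    have h3 : (0 : ℝ) < t.1 := by exact_mod_cast h1
    have h4 : (0 : ℝ) < t.2.2 := by exact_mod_cast h2
    exact div_pos (mul_pos h3 w.im_pos) h4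
  unfold GTD_Mob GTD_mat hz
  rw [ofComplex_apply_of_im_pos him]
  simp only [Matrix.of_apply, Matrix.cons_val', Matrix.cons_val_zero, Matrix.cons_val_one,
    Matrix.cons_val_fin_one]
  push_cast
  field_simp
  ring

/-- the admissible triples -/
structure GTD_adm (X : ℕ) (t : ℕ × ℕ × ℕ) : Prop where
  a : 0 < t.1
  d : 0 < t.2.2
  n : t.1 * t.2.2 ≤ X
  b : t.2.1 < t.2.2
  g : Nat.gcd (Nat.gcd t.1 t.2.1) t.2.2 = 1

theorem GTD_bez {X : ℕ} {t : ℕ × ℕ × ℕ} (h : GTD_adm X t) :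
    ∃ x y z : ℤ, x * t.1 + y * t.2.1 + z * t.2.2 = 1 := by
  have h1 : ((Nat.gcd t.1 t.2.1 : ℕ) : ℤ) = t.1 * Nat.gcdA t.1 t.2.1 + t.2.1 * Nat.gcdB t.1 t.2.1 :=
    Nat.gcd_eq_gcd_ab _ _
  have h2 := Nat.gcd_eq_gcd_ab (Nat.gcd t.1 t.2.1) t.2.2
  rw [h.g] at h2
  refine ⟨Nat.gcdA t.1 t.2.1 * Nat.gcdA (Nat.gcd t.1 t.2.1) t.2.2,
    Nat.gcdB t.1 t.2.1 * Nat.gcdA (Nat.gcd t.1 t.2.1) t.2.2,
    Nat.gcdB (Nat.gcd t.1 t.2.1) t.2.2, ?_⟩
  push_cast at h2
  rw [h1] at h2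
  linear_combination -h2

/-- Hermite normal form -/
theorem GTD_hnf {X : ℕ} {t s : ℕ × ℕ × ℕ} (ht : GTD_adm X t) (hs : GTD_adm X s)
    (g : SL(2, ℤ)) (k : ℤ)
    (h : (GTD_mat s).adjugate * ((g : Matrix (Fin 2) (Fin 2) ℤ) * GTD_mat t) = k • (1 : Matrix (Fin 2) (Fin 2) ℤ)) :
    t = s ∧ (g = 1 ∨ g = -1) := by
  have h1 : GTD_mat s * ((GTD_mat s).adjugate * ((g : Matrix (Fin 2) (Fin 2) ℤ) * GTD_mat t)) =
      GTD_mat s * (k • (1 : Matrix (Fin 2) (Fin 2) ℤ)) := by rw [h]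
  rw [← Matrix.mul_assoc, Matrix.mul_adjugate, GTD_mat_det, Matrix.mul_smul, Matrix.mul_one,
    Matrix.smul_mul, Matrix.one_mul] at h1
  have e00 := congrFun (congrFun h1 0) 0
  have e01 := congrFun (congrFun h1 0) 1
  have e10 := congrFun (congrFun h1 1) 0
  have e11 := congrFun (congrFun h1 1) 1
  simp only [Matrix.smul_apply, Matrix.mul_apply, Fin.sum_univ_two, GTD_mat, Matrix.of_apply,
    Matrix.cons_val', Matrix.cons_val_zero, Matrix.cons_val_one, Matrix.cons_val_fin_one,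
    smul_eq_mul, mul_zero, add_zero] at e00 e01 e10 e11
  have hdet := g.det_coe
  rw [Matrix.det_fin_two] at hdet
  set α := (g : Matrix (Fin 2) (Fin 2) ℤ) 0 0 with hα
  set β := (g : Matrix (Fin 2) (Fin 2) ℤ) 0 1 with hβ
  set γ := (g : Matrix (Fin 2) (Fin 2) ℤ) 1 0 with hγ
  set δ := (g : Matrix (Fin 2) (Fin 2) ℤ) 1 1 with hδ
  obtain ⟨x, y, z, hb⟩ := GTD_bez ht
  obtain ⟨x', y', z', hb'⟩ := GTD_bez hs
  have ha0 : (0 : ℤ) < t.1 := by exact_mod_cast ht.a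
  have hd0 : (0 : ℤ) < t.2.2 := by exact_mod_cast ht.d
  have ha1 : (0 : ℤ) < s.1 := by exact_mod_cast hs.a
  have hd1 : (0 : ℤ) < s.2.2 := by exact_mod_cast hs.d
  have hbt : (t.2.1 : ℤ) < t.2.2 := by exact_mod_cast ht.b
  have hbs : (s.2.1 : ℤ) < s.2.2 := by exact_mod_cast hs.b
  have hbt0 : (0 : ℤ) ≤ t.2.1 := Int.natCast_nonneg _
  have hbs0 : (0 : ℤ) ≤ s.2.1 := Int.natCast_nonneg _
  have hn : (0 : ℤ) < (s.1 : ℤ) * s.2.2 := mul_pos ha1 hd1
  set n : ℤ := (s.1 : ℤ) * s.2.2 with hndef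
  have hγ0 : γ = 0 := by
    rcases mul_eq_zero.mp e10 with h | h
    · exact absurd h hn.ne'
    · rcases mul_eq_zero.mp h with h | h
      · exact h
      · exact absurd h ha0.ne'
  rw [hγ0, mul_zero, sub_zero] at hdet
  rw [hγ0, zero_mul, zero_add] at e11
  have hk1 : k ∣ n := by
    refine ⟨δ * x * s.1 + y * (δ * s.2.1 - β * s.2.2) + α * z * s.2.2, ?_⟩
    have f1 : n * t.1 = k * (δ * s.1) := by linear_combination δ * e00 - n * t.1 * hdet
    have f2 : n * t.2.2 = k * (α * s.2.2) := by linear_combination α * e11 - n * t.2.2 * hdet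
    have f3 : n * t.2.1 = k * (δ * s.2.1 - β * s.2.2) := by
      linear_combination δ * e01 - n * t.2.1 * hdet - β * e11
    linear_combination x * f1 + y * f3 + z * f2 - n * hb
  have hk2 : n ∣ k := by
    refine ⟨x' * α * t.1 + y' * (α * t.2.1 + β * t.2.2) + z' * δ * t.2.2, ?_⟩
    linear_combination -k * hb' - x' * e00 - y' * e01 - z' * e11
  have hcases : k = n ∨ k = -n := by
    rcases Int.natAbs_eq_natAbs_iff.mp (Nat.dvd_antisymm (Int.natAbs_dvd_natAbs.mpr hk1)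
      (Int.natAbs_dvd_natAbs.mpr hk2)) with h | h
    · left; exact h
    · right; exact h
  have hαδ : (α = 1 ∧ δ = 1) ∨ (α = -1 ∧ δ = -1) := by
    rcases Int.mul_eq_one_iff_eq_one_or_neg_one.mp hdet with h | h
    · left; exact h
    · right; exact h
  have hβ0 : ∀ b1 b2 dd m : ℤ, 0 ≤ b1 → b1 < dd → 0 ≤ b2 → b2 < dd → b1 + m * dd = b2 → m = 0 := by
    intro b1 b2 dd m h1 h2 h3 h4 h5
    by_contra hm
    rcases lt_or_gt_of_ne hm with h | h
    · have : m * dd ≤ (-1) * dd := by nlinarith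
      linarith
    · have : 1 * dd ≤ m * dd := by nlinarith
      linarith
  have hfin : ∀ e : ℤ, (e = 1 ∨ e = -1) → k = e * n → α = e → δ = e → t = s ∧ (g = 1 ∨ g = -1) := by
    intro e he hke hαe hδe
    have hee : e * e = 1 := by rcases he with h | h <;> rw [h] <;> norm_num
    rw [hke, hαe] at e00 e01
    rw [hke, hδe] at e11
    have g1 : (t.1 : ℤ) = s.1 := by
      have : n * t.1 = n * s.1 := by linear_combination e * e00 + (n * s.1 - n * t.1) * hee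
      exact mul_left_cancel₀ hn.ne' this
    have g2 : (t.2.2 : ℤ) = s.2.2 := by
      have : n * t.2.2 = n * s.2.2 := by linear_combination e * e11 + (n * s.2.2 - n * t.2.2) * hee
      exact mul_left_cancel₀ hn.ne' this
    have g3 : (t.2.1 : ℤ) + (e * β) * t.2.2 = s.2.1 := by
      have : n * ((t.2.1 : ℤ) + (e * β) * t.2.2) = n * s.2.1 := by
        linear_combination e * e01 + (n * s.2.1 - n * t.2.1) * hee
      exact mul_left_cancel₀ hn.ne' this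
    have g4 : e * β = 0 := hβ0 _ _ _ _ hbt0 hbt hbs0 (by rw [g2]; exact hbs) g3
    have g5 : β = 0 := by
      have : β = e * (e * β) := by linear_combination (-β) * hee
      rw [this, g4, mul_zero]
    rw [g4, zero_mul, add_zero] at g3
    refine ⟨?_, ?_⟩
    · have g1' : t.1 = s.1 := by exact_mod_cast g1
      have g2' : t.2.2 = s.2.2 := by exact_mod_cast g2
      have g3' : t.2.1 = s.2.1 := by exact_mod_cast g3
      exact Prod.ext g1' (Prod.ext g3' g2')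
    · rcases he with he | he
      · left
        ext i j
        fin_cases i <;> fin_cases j
        · change α = 1; rw [hαe, he]
        · change β = 0; exact g5
        · change γ = 0; exact hγ0
        · change δ = 1; rw [hδe, he]
      · right
        ext i j
        fin_cases i <;> fin_cases j
        · change α = -1; rw [hαe, he]
        · change β = -0; rw [g5, neg_zero]
        · change γ = -0; rw [hγ0, neg_zero]
        · change δ = -1; rw [hδe, he]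
  have hnosign : ∀ e : ℤ, (e = 1 ∨ e = -1) → k = -e * n → α = e → False := by
    intro e he hke hαe
    have hee : e * e = 1 := by rcases he with h | h <;> rw [h] <;> norm_num
    rw [hke, hαe] at e00
    have : n * t.1 = n * (-s.1) := by linear_combination e * e00 + (-n * s.1 - n * t.1) * hee
    have := mul_left_cancel₀ hn.ne' this
    linarith
  rcases hαδ with ⟨h1, h2⟩ | ⟨h1, h2⟩
  · rcases hcases with h3 | h3
    · exact hfin 1 (Or.inl rfl) (by rw [h3]; ring) h1 h2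
    · exact (hnosign 1 (Or.inl rfl) (by rw [h3]; ring) h1).elim
  · rcases hcases with h3 | h3
    · exact (hnosign (-1) (Or.inr rfl) (by rw [h3]; ring) h1).elim
    · exact hfin (-1) (Or.inr rfl) (by rw [h3]; ring) h1 h2

section
variable {N : ℕ} [Fact N.Prime]

/-- reduction modulo `N` -/
abbrev GTD_red (N : ℕ) : Matrix (Fin 2) (Fin 2) ℤ →+* Matrix (Fin 2) (Fin 2) (ZMod N) :=
  (Int.castRingHom (ZMod N)).mapMatrix

/-- a vector on the line -/
def GTD_vec : PX N → Fin 2 → ZMod N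
  | none => ![1, 0]
  | some x => ![x, 1]

theorem GTD_vec_none : GTD_vec (none : PX N) = ![1, 0] := rfl

theorem GTD_vec_inf : GTD_vec (OnePoint.infty : PX N) = ![1, 0] := rfl

theorem GTD_vec_some (x : ZMod N) : GTD_vec (some x : PX N) = ![x, 1] := rfl

theorem GTD_vec_ne (q : PX N) : GTD_vec q ≠ 0 := by
  intro h
  cases q with
  | none =>
    have := congrFun h 0
    simp [GTD_vec] at this
  | some x =>
    have := congrFun h 1
    simp [GTD_vec] at this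

theorem GTD_mulVec (A : Matrix (Fin 2) (Fin 2) ℤ) (v : Fin 2 → ZMod N) :
    (GTD_red N A).mulVec v = ![((A 0 0 : ℤ) : ZMod N) * v 0 + ((A 0 1 : ℤ) : ZMod N) * v 1,
      ((A 1 0 : ℤ) : ZMod N) * v 0 + ((A 1 1 : ℤ) : ZMod N) * v 1] := by
  ext i
  fin_cases i <;> simp [Matrix.mulVec, dotProduct, Fin.sum_univ_two, GTD_red]

theorem GTD_fixq {q : PX N} {A : Matrix (Fin 2) (Fin 2) ℤ} {l : ZMod N}
    (h : (GTD_red N A).mulVec (GTD_vec q) = l • GTD_vec q) :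
    fixq q (A 0 0) (A 0 1) (A 1 0) (A 1 1) := by
  rw [GTD_mulVec] at h
  have h0 := congrFun h 0
  have h1 := congrFun h 1
  cases q with
  | none =>
    simp [GTD_vec] at h0 h1
    exact h1
  | some x =>
    simp [GTD_vec] at h0 h1
    change _ * x + _ = x * (_ * x + _)
    rw [h0, h1]
    ring

theorem GTD_kerq {q : PX N} {A : Matrix (Fin 2) (Fin 2) ℤ} :
    (GTD_red N A).mulVec (GTD_vec q) = 0 ↔ kerq q (A 0 0) (A 0 1) (A 1 0) (A 1 1) := by
  rw [GTD_mulVec]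
  cases q with
  | none =>
    change _ ↔ (_ = (0 : ZMod N)) ∧ (_ = (0 : ZMod N))
    simp [GTD_vec]
  | some x =>
    change _ ↔ (_ * x + _ = (0 : ZMod N)) ∧ (_ * x + _ = (0 : ZMod N))
    simp [GTD_vec]

theorem GTD_pa (g : SL(2, ℤ)) (q : PX N) : ∃ l : ZMod N, l ≠ 0 ∧
    (GTD_red N (g : Matrix (Fin 2) (Fin 2) ℤ)).mulVec (GTD_vec q) = l • GTD_vec (pa g q) := by
  have hdet := g.det_coe
  rw [Matrix.det_fin_two] at hdet
  have hdet' : ((g 0 0 : ℤ) : ZMod N) * ((g 1 1 : ℤ) : ZMod N) -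
      ((g 0 1 : ℤ) : ZMod N) * ((g 1 0 : ℤ) : ZMod N) = 1 := by
    have := congrArg (fun x : ℤ => (x : ZMod N)) hdet
    push_cast at this
    exact this
  rw [GTD_mulVec]
  cases q with
  | none =>
    by_cases h1 : ((g 1 0 : ℤ) : ZMod N) = 0
    · have h : pa g (none : PX N) = OnePoint.infty := (pa_inf (N := N) g).trans (if_pos h1)
      rw [h]
      refine ⟨((g 0 0 : ℤ) : ZMod N), ?_, ?_⟩
      · intro h2
        rw [h1, h2] at hdet'
        simp at hdet'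
      · rw [GTD_vec_inf, GTD_vec_none]
        ext i
        fin_cases i
        · simp
        · simp [h1]
    · have h : pa g (none : PX N) = some (((g 0 0 : ℤ) : ZMod N) / ((g 1 0 : ℤ) : ZMod N)) :=
        (pa_inf (N := N) g).trans (if_neg h1)
      rw [h]
      refine ⟨((g 1 0 : ℤ) : ZMod N), h1, ?_⟩
      rw [GTD_vec_none, GTD_vec_some]
      ext i
      fin_cases i
      · simp
        field_simp
      · simp
  | some x =>
    by_cases h1 : ((g 1 0 : ℤ) : ZMod N) * x + ((g 1 1 : ℤ) : ZMod N) = 0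
    · have h : pa g (some x : PX N) = OnePoint.infty := (pa_some g x).trans (if_pos h1)
      rw [h]
      refine ⟨((g 0 0 : ℤ) : ZMod N) * x + ((g 0 1 : ℤ) : ZMod N), ?_, ?_⟩
      · intro h2
        have : (1 : ZMod N) = 0 := by
          linear_combination (-1 : ZMod N) * hdet' + ((g 0 0 : ℤ) : ZMod N) * h1 - ((g 1 0 : ℤ) : ZMod N) * h2
        exact one_ne_zero this
      · rw [GTD_vec_inf, GTD_vec_some]
        ext i
        fin_cases i
        · simp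
        · simp [h1]
    · have h : pa g (some x : PX N) = some ((((g 0 0 : ℤ) : ZMod N) * x + ((g 0 1 : ℤ) : ZMod N)) /
          (((g 1 0 : ℤ) : ZMod N) * x + ((g 1 1 : ℤ) : ZMod N))) :=
        (pa_some g x).trans (if_neg h1)
      rw [h]
      refine ⟨((g 1 0 : ℤ) : ZMod N) * x + ((g 1 1 : ℤ) : ZMod N), h1, ?_⟩
      rw [GTD_vec_some, GTD_vec_some]
      ext i
      fin_cases i
      · simp only [Fin.zero_eta, Matrix.cons_val_zero, Matrix.cons_val_one, Matrix.cons_val_fin_one,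
          mul_one, Pi.smul_apply, smul_eq_mul]
        rw [mul_div_cancel₀ _ h1]
      · simp

theorem GTD_pm {X : ℕ} (hX : X < N) {t : ℕ × ℕ × ℕ} (ht : GTD_adm X t) (q : PX N) :
    ∃ l : ZMod N, l ≠ 0 ∧ (GTD_red N (GTD_mat t)).mulVec (GTD_vec q) = l • GTD_vec (pm t q) := by
  have ha : (t.1 : ZMod N) ≠ 0 := by
    rw [Ne, ZMod.natCast_eq_zero_iff]
    intro h
    have := Nat.le_of_dvd ht.a h
    have h2 := Nat.le_mul_of_pos_right t.1 ht.d
    have h3 := ht.n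
    omega
  have hd : (t.2.2 : ZMod N) ≠ 0 := by
    rw [Ne, ZMod.natCast_eq_zero_iff]
    intro h
    have := Nat.le_of_dvd ht.d h
    have h2 := Nat.le_mul_of_pos_left t.2.2 ht.a
    have h3 := ht.n
    omega
  rw [GTD_mulVec]
  cases q with
  | none =>
    refine ⟨(t.1 : ZMod N), ha, ?_⟩
    ext i
    fin_cases i
    · simp [GTD_vec, GTD_mat, pm]
    · simp [GTD_vec, GTD_mat, pm]
  | some x =>
    refine ⟨(t.2.2 : ZMod N), hd, ?_⟩
    ext i
    fin_cases i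
    · simp [GTD_vec, GTD_mat, pm]
      field_simp
    · simp [GTD_vec, GTD_mat, pm]

theorem GTD_Mob_adj' {A : Matrix (Fin 2) (Fin 2) ℤ} {u v : ℍ} (h : GTD_Mob A.adjugate v u) :
    GTD_Mob A u v := by
  unfold GTD_Mob at *
  rw [Matrix.adjugate_fin_two] at h
  simp only [Matrix.of_apply, Matrix.cons_val', Matrix.cons_val_zero, Matrix.cons_val_one,
    Matrix.cons_val_fin_one] at h
  push_cast at h
  linear_combination -h

/-- the real matrix -/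
noncomputable def GTD_gl (A : Matrix (Fin 2) (Fin 2) ℤ) (hA : 0 < A.det) : GL (Fin 2) ℝ :=
  Matrix.GeneralLinearGroup.mkOfDetNeZero (A.map (Int.castRingHom ℝ)) (by
    have h : (A.map (Int.castRingHom ℝ)).det = ((A.det : ℤ) : ℝ) := by
      have := (RingHom.map_det (Int.castRingHom ℝ) A).symm
      simpa using this
    rw [h]
    exact_mod_cast hA.ne')

theorem GTD_gl_det (A : Matrix (Fin 2) (Fin 2) ℤ) (hA : 0 < A.det) :
    0 < (GTD_gl A hA).det.val := by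
  have h : (A.map (Int.castRingHom ℝ)).det = ((A.det : ℤ) : ℝ) := by
    have := (RingHom.map_det (Int.castRingHom ℝ) A).symm
    simpa using this
  have h2 : (GTD_gl A hA).det.val = (A.map (Int.castRingHom ℝ)).det := rfl
  rw [h2, h]
  exact_mod_cast hA

theorem GTD_gl_Mob (A : Matrix (Fin 2) (Fin 2) ℤ) (hA : 0 < A.det) (u : ℍ) :
    GTD_Mob A u (GTD_gl A hA • u) := by
  unfold GTD_Mob
  rw [coe_smul_of_det_pos (GTD_gl_det A hA)]
  have h1 : num (GTD_gl A hA) u = ((A 0 0 : ℤ) : ℂ) * (u : ℂ) + ((A 0 1 : ℤ) : ℂ) := by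
    unfold num
    change ((((A 0 0 : ℤ) : ℝ)) : ℂ) * (u : ℂ) + ((((A 0 1 : ℤ) : ℝ)) : ℂ) = _
    push_cast
    rfl
  have h2 : denom (GTD_gl A hA) u = ((A 1 0 : ℤ) : ℂ) * (u : ℂ) + ((A 1 1 : ℤ) : ℂ) := by
    unfold denom
    change ((((A 1 0 : ℤ) : ℝ)) : ℂ) * (u : ℂ) + ((((A 1 1 : ℤ) : ℝ)) : ℂ) = _
    push_cast
    rfl
  rw [h1, h2, div_mul_cancel₀ _ (GTD_denom_ne hA u)]

theorem GTD_Mob_unique {A : Matrix (Fin 2) (Fin 2) ℤ} (hA : 0 < A.det) {u v v' : ℍ}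
    (h : GTD_Mob A u v) (h' : GTD_Mob A u v') : v = v' := by
  unfold GTD_Mob at *
  apply UpperHalfPlane.ext
  exact mul_right_cancel₀ (GTD_denom_ne hA u) (h.trans h'.symm)

theorem GTD_Mob_exists {A : Matrix (Fin 2) (Fin 2) ℤ} (hA : 0 < A.det) (u : ℍ) :
    ∃ v, GTD_Mob A u v := ⟨_, GTD_gl_Mob A hA u⟩

theorem GTD_adj_det (A : Matrix (Fin 2) (Fin 2) ℤ) : A.adjugate.det = A.det := by
  rw [Matrix.det_adjugate]; simp

theorem GTD_Mob_back {A : Matrix (Fin 2) (Fin 2) ℤ} (hA : 0 < A.det) (v : ℍ) :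
    ∃ u, GTD_Mob A u v := by
  obtain ⟨u, hu⟩ := GTD_Mob_exists (A := A.adjugate) (by rwa [GTD_adj_det]) v
  exact ⟨u, GTD_Mob_adj' hu⟩

theorem GTD_SL_Mob (g : SL(2, ℤ)) (z : ℍ) : GTD_Mob (g : Matrix (Fin 2) (Fin 2) ℤ) z (g • z) := by
  unfold GTD_Mob
  rw [GL2.RSA_coe_smul, div_mul_cancel₀ _ (GL2.RSA_denom_ne g z)]

theorem GTD_adj_vec {X : ℕ} (hX : X < N) {t : ℕ × ℕ × ℕ} (ht : GTD_adm X t) (q : PX N) :
    ∃ l : ZMod N, (GTD_red N (GTD_mat t).adjugate).mulVec (GTD_vec (pm t q)) = l • GTD_vec q := by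
  obtain ⟨l, hl, h⟩ := GTD_pm hX ht q
  refine ⟨l⁻¹ * (((GTD_mat t).det : ℤ) : ZMod N), ?_⟩
  have h1 : GTD_vec (pm t q) = l⁻¹ • (GTD_red N (GTD_mat t)).mulVec (GTD_vec q) := by
    rw [h, smul_smul, inv_mul_cancel₀ hl, one_smul]
  rw [h1, Matrix.mulVec_smul, Matrix.mulVec_mulVec, ← map_mul, Matrix.adjugate_mul, mul_smul]
  congr 1
  have h2 : GTD_red N ((GTD_mat t).det • (1 : Matrix (Fin 2) (Fin 2) ℤ)) =
      (((GTD_mat t).det : ℤ) : ZMod N) • (1 : Matrix (Fin 2) (Fin 2) (ZMod N)) := by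
    rw [map_zsmul, map_one, ← Int.cast_smul_eq_zsmul (ZMod N)]
  rw [h2, Matrix.smul_mulVec, Matrix.one_mulVec]

theorem GTD_C1 {X : ℕ} (hX : X < N) {q : PX N} {w : ℍ} {ρ : ℝ} (hgood : Good X ρ q w)
    {t s : ℕ × ℕ × ℕ} (ht : GTD_adm X t) (hs : GTD_adm X s) (g : SL(2, ℤ)) {l : ZMod N}
    (hl : (GTD_red N (g : Matrix (Fin 2) (Fin 2) ℤ)).mulVec (GTD_vec (pm t q)) =
      l • GTD_vec (pm s q)) {z₁ z₂ : ℍ} (h1 : z₁ ∈ hball (hz t w) ρ) (h2 : z₂ ∈ hball (hz s w) ρ)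
    (h3 : GTD_Mob (g : Matrix (Fin 2) (Fin 2) ℤ) z₁ z₂) : t = s ∧ (g = 1 ∨ g = -1) := by
  have hdt : 0 < (GTD_mat t).det := by
    rw [GTD_mat_det]
    exact mul_pos (by exact_mod_cast ht.a) (by exact_mod_cast ht.d)
  have hds : 0 < (GTD_mat s).det := by
    rw [GTD_mat_det]
    exact mul_pos (by exact_mod_cast hs.a) (by exact_mod_cast hs.d)
  have hdt2 : (GTD_mat t).det ≤ X := by rw [GTD_mat_det]; exact_mod_cast ht.n
  have hds2 : (GTD_mat s).det ≤ X := by rw [GTD_mat_det]; exact_mod_cast hs.n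
  obtain ⟨u, hu⟩ := GTD_Mob_back hdt z₁
  obtain ⟨v, hv⟩ := GTD_Mob_back hds z₂
  set A : Matrix (Fin 2) (Fin 2) ℤ := (GTD_mat s).adjugate *
    ((g : Matrix (Fin 2) (Fin 2) ℤ) * GTD_mat t) with hA
  have hAdet : A.det = (GTD_mat s).det * (GTD_mat t).det := by
    rw [hA, Matrix.det_mul, Matrix.det_mul, GTD_adj_det, g.det_coe, one_mul]
  have hAuv : GTD_Mob A u v := GTD_Mob_comp (GTD_Mob_comp hu h3) (GTD_Mob_adj hv)
  have hub : u ∈ hball w ρ := (GTD_Mob_ball hdt hu (GTD_hz ht.a ht.d w) ρ).mp h1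
  have hvb : v ∈ hball w ρ := (GTD_Mob_ball hds hv (GTD_hz hs.a hs.d w) ρ).mp h2
  have hfix : ∃ m : ZMod N, (GTD_red N A).mulVec (GTD_vec q) = m • GTD_vec q := by
    obtain ⟨l1, _, e1⟩ := GTD_pm hX ht q
    obtain ⟨l2, e2⟩ := GTD_adj_vec hX hs q
    refine ⟨l1 * (l * l2), ?_⟩
    rw [hA, map_mul, map_mul, ← Matrix.mulVec_mulVec, ← Matrix.mulVec_mulVec, e1,
      Matrix.mulVec_smul, hl, Matrix.mulVec_smul, Matrix.mulVec_smul, e2, smul_smul, smul_smul,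
      mul_assoc]
  obtain ⟨m, hm⟩ := hfix
  have hd2 : A 0 0 * A 1 1 - A 0 1 * A 1 0 = (GTD_mat s).det * (GTD_mat t).det := by
    rw [← hAdet, Matrix.det_fin_two]
  have h4 := hgood.1 (A 0 0) (A 0 1) (A 1 0) (A 1 1) (by rw [hd2]; exact mul_pos hds hdt)
    (by rw [hd2, pow_two]; exact mul_le_mul hds2 hdt2 hdt.le (Int.natCast_nonneg _))
    (GTD_fixq hm) ⟨u, v, hub, hvb, hAuv⟩
  refine GTD_hnf ht hs g (A 0 0) ?_
  change A = _
  ext i j
  fin_cases i <;> fin_cases j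
  · simp
  · simpa using h4.1
  · simpa using h4.2.1
  · simpa using h4.2.2.symm

theorem GTD_C2 {X : ℕ} (hX : X < N) {q : PX N} {w : ℍ} {ρ : ℝ} (hgood : Good X ρ q w)
    {t s : ℕ × ℕ × ℕ} (ht : GTD_adm X t) (hs : GTD_adm X s) (B : Matrix (Fin 2) (Fin 2) ℤ)
    (hB : B.det = N) (hk : (GTD_red N B).mulVec (GTD_vec (pm t q)) = 0)
    (him : ∀ x : Fin 2 → ZMod N, ∃ m : ZMod N, (GTD_red N B).mulVec x = m • GTD_vec (pm s q))
    {z₁ z₂ : ℍ} (h1 : z₁ ∈ hball (hz t w) ρ) (h2 : z₂ ∈ hball (hz s w) ρ)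
    (h3 : GTD_Mob B z₁ z₂) : False := by
  have hdt : 0 < (GTD_mat t).det := by
    rw [GTD_mat_det]
    exact mul_pos (by exact_mod_cast ht.a) (by exact_mod_cast ht.d)
  have hds : 0 < (GTD_mat s).det := by
    rw [GTD_mat_det]
    exact mul_pos (by exact_mod_cast hs.a) (by exact_mod_cast hs.d)
  have hdt2 : (GTD_mat t).det ≤ X := by rw [GTD_mat_det]; exact_mod_cast ht.n
  have hds2 : (GTD_mat s).det ≤ X := by rw [GTD_mat_det]; exact_mod_cast hs.n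
  obtain ⟨u, hu⟩ := GTD_Mob_back hdt z₁
  obtain ⟨v, hv⟩ := GTD_Mob_back hds z₂
  set A : Matrix (Fin 2) (Fin 2) ℤ := (GTD_mat s).adjugate * (B * GTD_mat t) with hA
  have hAdet : A.det = N * ((GTD_mat s).det * (GTD_mat t).det) := by
    rw [hA, Matrix.det_mul, Matrix.det_mul, GTD_adj_det, hB]; ring
  have hAuv : GTD_Mob A u v := GTD_Mob_comp (GTD_Mob_comp hu h3) (GTD_Mob_adj hv)
  have hub : u ∈ hball w ρ := (GTD_Mob_ball hdt hu (GTD_hz ht.a ht.d w) ρ).mp h1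
  have hvb : v ∈ hball w ρ := (GTD_Mob_ball hds hv (GTD_hz hs.a hs.d w) ρ).mp h2
  have hker : (GTD_red N A).mulVec (GTD_vec q) = 0 := by
    obtain ⟨l1, _, e1⟩ := GTD_pm hX ht q
    rw [hA, map_mul, map_mul, ← Matrix.mulVec_mulVec, ← Matrix.mulVec_mulVec, e1,
      Matrix.mulVec_smul, hk, smul_zero, Matrix.mulVec_zero]
  have himA : ∀ x : Fin 2 → ZMod N, ∃ m : ZMod N, (GTD_red N A).mulVec x = m • GTD_vec q := by
    intro x
    obtain ⟨l2, e2⟩ := GTD_adj_vec hX hs q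
    obtain ⟨m, e3⟩ := him ((GTD_red N (GTD_mat t)).mulVec x)
    refine ⟨m * l2, ?_⟩
    rw [hA, map_mul, map_mul, ← Matrix.mulVec_mulVec, ← Matrix.mulVec_mulVec, e3,
      Matrix.mulVec_smul, e2, smul_smul]
  have htr : (N : ℤ) ∣ A 0 0 + A 1 1 := by
    rw [← ZMod.intCast_zmod_eq_zero_iff_dvd]
    obtain ⟨p1, e1⟩ := himA ![1, 0]
    obtain ⟨p2, e2⟩ := himA ![0, 1]
    rw [GTD_mulVec] at e1 e2 hker
    have a1 := congrFun e1 0
    have a2 := congrFun e1 1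
    have a3 := congrFun e2 0
    have a4 := congrFun e2 1
    have a5 := congrFun hker 0
    have a6 := congrFun hker 1
    simp only [Matrix.cons_val_zero, Matrix.cons_val_one, Matrix.cons_val_fin_one, mul_one,
      mul_zero, add_zero, zero_add, Pi.smul_apply, smul_eq_mul, Pi.zero_apply] at a1 a2 a3 a4 a5 a6
    push_cast
    rw [a1, a4]
    rw [a1, a3] at a5
    rw [a2, a4] at a6
    have hne := GTD_vec_ne q
    by_contra h
    apply hne
    ext i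
    fin_cases i
    · have : (p1 * GTD_vec q 0 + p2 * GTD_vec q 1) * GTD_vec q 0 = 0 := by
        linear_combination a5
      exact (mul_eq_zero.mp this).resolve_left h
    · have : (p1 * GTD_vec q 0 + p2 * GTD_vec q 1) * GTD_vec q 1 = 0 := by
        linear_combination a6
      exact (mul_eq_zero.mp this).resolve_left h
  have hd2 : A 0 0 * A 1 1 - A 0 1 * A 1 0 = N * ((GTD_mat s).det * (GTD_mat t).det) := by
    rw [← hAdet, Matrix.det_fin_two]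
  exact hgood.2 (A 0 0) (A 0 1) (A 1 0) (A 1 1) ((GTD_mat s).det * (GTD_mat t).det)
    (mul_pos hds hdt) (by rw [pow_two]; exact mul_le_mul hds2 hdt2 hdt.le (Int.natCast_nonneg _))
    hd2 htr (GTD_kerq.mp hker) ⟨u, v, hub, hvb, hAuv⟩

/-- the kernel modulo `N` of a matrix of determinant `N` is a line -/
theorem GTD_K {A : Matrix (Fin 2) (Fin 2) ℤ} (hA : A.det = N) {q : PX N}
    (hk : (GTD_red N A).mulVec (GTD_vec q) = 0) {y : Fin 2 → ZMod N}
    (hy : (GTD_red N A).mulVec y = 0) : ∃ m : ZMod N, y = m • GTD_vec q := by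
  by_cases hD : GTD_vec q 0 * y 1 - GTD_vec q 1 * y 0 = 0
  · cases q with
    | none =>
      rw [GTD_vec_none] at hD ⊢
      simp only [Matrix.cons_val_zero, Matrix.cons_val_one, Matrix.cons_val_fin_one, one_mul,
        zero_mul, sub_zero] at hD
      refine ⟨y 0, ?_⟩
      ext i
      fin_cases i
      · simp
      · simp [hD]
    | some x =>
      rw [GTD_vec_some] at hD ⊢
      simp only [Matrix.cons_val_zero, Matrix.cons_val_one, Matrix.cons_val_fin_one, one_mul] at hD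
      refine ⟨y 1, ?_⟩
      ext i
      fin_cases i
      · simp
        linear_combination -hD
      · simp
  · exfalso
    rw [GTD_mulVec] at hk hy
    have a1 := congrFun hk 0
    have a2 := congrFun hk 1
    have a3 := congrFun hy 0
    have a4 := congrFun hy 1
    simp only [Matrix.cons_val_zero, Matrix.cons_val_one, Matrix.cons_val_fin_one,
      Pi.zero_apply] at a1 a2 a3 a4
    have b00 : ((A 0 0 : ℤ) : ZMod N) = 0 := by
      have : ((A 0 0 : ℤ) : ZMod N) * (GTD_vec q 0 * y 1 - GTD_vec q 1 * y 0) = 0 := by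
        linear_combination y 1 * a1 - GTD_vec q 1 * a3
      exact (mul_eq_zero.mp this).resolve_right hD
    have b01 : ((A 0 1 : ℤ) : ZMod N) = 0 := by
      have : ((A 0 1 : ℤ) : ZMod N) * (GTD_vec q 0 * y 1 - GTD_vec q 1 * y 0) = 0 := by
        linear_combination GTD_vec q 0 * a3 - y 0 * a1
      exact (mul_eq_zero.mp this).resolve_right hD
    have b10 : ((A 1 0 : ℤ) : ZMod N) = 0 := by
      have : ((A 1 0 : ℤ) : ZMod N) * (GTD_vec q 0 * y 1 - GTD_vec q 1 * y 0) = 0 := by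
        linear_combination y 1 * a2 - GTD_vec q 1 * a4
      exact (mul_eq_zero.mp this).resolve_right hD
    have b11 : ((A 1 1 : ℤ) : ZMod N) = 0 := by
      have : ((A 1 1 : ℤ) : ZMod N) * (GTD_vec q 0 * y 1 - GTD_vec q 1 * y 0) = 0 := by
        linear_combination GTD_vec q 0 * a4 - y 0 * a2
      exact (mul_eq_zero.mp this).resolve_right hD
    rw [ZMod.intCast_zmod_eq_zero_iff_dvd] at b00 b01 b10 b11
    obtain ⟨c00, e00⟩ := b00
    obtain ⟨c01, e01⟩ := b01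
    obtain ⟨c10, e10⟩ := b10
    obtain ⟨c11, e11⟩ := b11
    rw [Matrix.det_fin_two, e00, e01, e10, e11] at hA
    have hN0 : (N : ℤ) ≠ 0 := by exact_mod_cast (Fact.out : N.Prime).ne_zero
    have h1 : (N : ℤ) * (c00 * c11 - c01 * c10) = 1 := by
      apply mul_left_cancel₀ hN0
      linear_combination hA
    have h2 : (N : ℤ) ∣ 1 := ⟨_, h1.symm⟩
    have h3 := Int.natAbs_dvd_natAbs.mpr h2
    simp only [Int.natAbs_natCast, Int.natAbs_one, Nat.dvd_one] at h3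
    exact (Fact.out : N.Prime).one_lt.ne' h3

theorem GTD_red_det {A : Matrix (Fin 2) (Fin 2) ℤ} (hA : A.det = N) (y : Fin 2 → ZMod N) :
    (GTD_red N A).mulVec ((GTD_red N A.adjugate).mulVec y) = 0 := by
  rw [Matrix.mulVec_mulVec, ← map_mul, Matrix.mul_adjugate, hA, map_zsmul, map_one,
    ← Int.cast_smul_eq_zsmul (ZMod N), Matrix.smul_mulVec]
  simp

theorem GTD_red_det' {A : Matrix (Fin 2) (Fin 2) ℤ} (hA : A.det = N) (y : Fin 2 → ZMod N) :
    (GTD_red N A.adjugate).mulVec ((GTD_red N A).mulVec y) = 0 := by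
  rw [Matrix.mulVec_mulVec, ← map_mul, Matrix.adjugate_mul, hA, map_zsmul, map_one,
    ← Int.cast_smul_eq_zsmul (ZMod N), Matrix.smul_mulVec]
  simp

theorem GTD_adj_adj (A : Matrix (Fin 2) (Fin 2) ℤ) : A.adjugate.adjugate = A := by
  rw [Matrix.adjugate_fin_two, Matrix.adjugate_fin_two]
  ext i j
  fin_cases i <;> fin_cases j <;> simp

/-- a matrix acting as zero on all vectors is divisible by `N` -/
theorem GTD_div {C : Matrix (Fin 2) (Fin 2) ℤ}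
    (h : ∀ y : Fin 2 → ZMod N, (GTD_red N C).mulVec y = 0) :
    ∃ g : Matrix (Fin 2) (Fin 2) ℤ, C = (N : ℤ) • g := by
  have h1 := h ![1, 0]
  have h2 := h ![0, 1]
  rw [GTD_mulVec] at h1 h2
  have a1 := congrFun h1 0
  have a2 := congrFun h1 1
  have a3 := congrFun h2 0
  have a4 := congrFun h2 1
  simp only [Matrix.cons_val_zero, Matrix.cons_val_one, Matrix.cons_val_fin_one, mul_one,
    mul_zero, add_zero, zero_add, Pi.zero_apply] at a1 a2 a3 a4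
  rw [ZMod.intCast_zmod_eq_zero_iff_dvd] at a1 a2 a3 a4
  obtain ⟨c00, e00⟩ := a1
  obtain ⟨c10, e10⟩ := a2
  obtain ⟨c01, e01⟩ := a3
  obtain ⟨c11, e11⟩ := a4
  refine ⟨!![c00, c01; c10, c11], ?_⟩
  ext i j
  fin_cases i <;> fin_cases j
  · simpa using e00
  · simpa using e01
  · simpa using e10
  · simpa using e11

theorem GTD_rel {γ δ : SL(2, ℤ)} {q₀ q₁ q₂ : PX N} (h1 : pa γ q₀ = q₁) (h2 : pa δ q₀ = q₂) :
    ∃ l : ZMod N, (GTD_red N ((δ * γ⁻¹ : SL(2, ℤ)) : Matrix (Fin 2) (Fin 2) ℤ)).mulVec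
      (GTD_vec q₁) = l • GTD_vec q₂ := by
  obtain ⟨l, _, h⟩ := GTD_pa (δ * γ⁻¹) q₁
  refine ⟨l, ?_⟩
  have h3 : pa (δ * γ⁻¹) q₁ = q₂ := by
    rw [← h1, ← pa_mul, inv_mul_cancel_right, h2]
  rw [h, h3]

theorem GTD_relz (γ δ : SL(2, ℤ)) (z₀ : ℍ) :
    GTD_Mob ((δ * γ⁻¹ : SL(2, ℤ)) : Matrix (Fin 2) (Fin 2) ℤ) (γ • z₀) (δ • z₀) := by
  have h := GTD_SL_Mob (δ * γ⁻¹) (γ • z₀)
  rwa [← mul_smul, inv_mul_cancel_right] at h

theorem GTD_pm1 {γ δ : SL(2, ℤ)} (h : δ * γ⁻¹ = 1 ∨ δ * γ⁻¹ = -1) : δ = γ ∨ δ = -γ := by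
  rcases h with h | h
  · left
    exact mul_inv_eq_one.mp h
  · right
    rw [← inv_mul_cancel_right δ γ, h]
    simp

theorem GTD_TT {X : ℕ} (hX : X < N) {q : PX N} {w : ℍ} {ρ : ℝ} (hgood : Good X ρ q w)
    {t s : ℕ × ℕ × ℕ} (ht : GTD_adm X t) (hs : GTD_adm X s) {q₀ : PX N} {z₀ : ℍ}
    {γ δ : SL(2, ℤ)} (h1 : pa γ q₀ = pm t q) (h2 : γ • z₀ ∈ hball (hz t w) ρ)
    (h3 : pa δ q₀ = pm s q) (h4 : δ • z₀ ∈ hball (hz s w) ρ) :
    t = s ∧ (δ = γ ∨ δ = -γ) := by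
  obtain ⟨l, hl⟩ := GTD_rel h1 h3
  obtain ⟨h5, h6⟩ := GTD_C1 hX hgood ht hs (δ * γ⁻¹) hl h2 h4 (GTD_relz γ δ z₀)
  exact ⟨h5, GTD_pm1 h6⟩

theorem GTD_TF {X : ℕ} (hX : X < N) {q : PX N} {w : ℍ} {ρ : ℝ} (hgood : Good X ρ q w)
    {t s : ℕ × ℕ × ℕ} (ht : GTD_adm X t) (hs : GTD_adm X s) {q₀ : PX N} {z₀ : ℍ}
    {γ δ : SL(2, ℤ)} (h1 : pa γ q₀ = pm t q) (h2 : γ • z₀ ∈ hball (hz t w) ρ)
    {qs : PX N} {As : Matrix (Fin 2) (Fin 2) ℤ} (hAs : As.det = N)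
    (hk : (GTD_red N As).mulVec (GTD_vec (pm s q)) = 0)
    (hk' : (GTD_red N As.adjugate).mulVec (GTD_vec qs) = 0)
    (h3 : pa δ q₀ = qs) {z₂ : ℍ} (h4 : z₂ ∈ hball (hz s w) ρ)
    (h5 : GTD_Mob As.adjugate (δ • z₀) z₂) : False := by
  obtain ⟨l, hl⟩ := GTD_rel h1 h3
  refine GTD_C2 hX hgood ht hs (As.adjugate * ((δ * γ⁻¹ : SL(2, ℤ)) : Matrix (Fin 2) (Fin 2) ℤ))
    ?_ ?_ ?_ h2 h4 (GTD_Mob_comp (GTD_relz γ δ z₀) h5)
  · rw [Matrix.det_mul, GTD_adj_det, hAs, Matrix.SpecialLinearGroup.det_coe, mul_one]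
  · rw [map_mul, ← Matrix.mulVec_mulVec, hl, Matrix.mulVec_smul, hk', smul_zero]
  · intro x
    rw [map_mul, ← Matrix.mulVec_mulVec]
    exact GTD_K hAs hk (GTD_red_det hAs _)

theorem GTD_FF {X : ℕ} (hX : X < N) {q : PX N} {w : ℍ} {ρ : ℝ} (hgood : Good X ρ q w)
    {t s : ℕ × ℕ × ℕ} (ht : GTD_adm X t) (hs : GTD_adm X s) {q₀ : PX N} {z₀ : ℍ}
    {γ δ : SL(2, ℤ)}
    {Q : ℕ × ℕ × ℕ → PX N} {A : ℕ × ℕ × ℕ → Matrix (Fin 2) (Fin 2) ℤ} (hA : ∀ t, (A t).det = N)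
    (hk : ∀ t, (GTD_red N (A t)).mulVec (GTD_vec (pm t q)) = 0)
    (hk' : ∀ t, (GTD_red N (A t).adjugate).mulVec (GTD_vec (Q t)) = 0)
    (h1 : pa γ q₀ = Q t) {z₁ : ℍ} (h2 : z₁ ∈ hball (hz t w) ρ)
    (h3 : GTD_Mob (A t).adjugate (γ • z₀) z₁)
    (h4 : pa δ q₀ = Q s) {z₂ : ℍ} (h5 : z₂ ∈ hball (hz s w) ρ)
    (h6 : GTD_Mob (A s).adjugate (δ • z₀) z₂) :
    t = s ∧ (δ = γ ∨ δ = -γ) := by
  have hN0 : (N : ℤ) ≠ 0 := by exact_mod_cast (Fact.out : N.Prime).ne_zero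
  have hNp : (0 : ℤ) < N := by exact_mod_cast (Fact.out : N.Prime).pos
  set r : SL(2, ℤ) := δ * γ⁻¹ with hr
  have hrγ : (r : Matrix (Fin 2) (Fin 2) ℤ) * (γ : Matrix (Fin 2) (Fin 2) ℤ) =
      (δ : Matrix (Fin 2) (Fin 2) ℤ) := by
    rw [← Matrix.SpecialLinearGroup.coe_mul, hr, inv_mul_cancel_right]
  obtain ⟨l, hl⟩ := GTD_rel h1 h4
  set C : Matrix (Fin 2) (Fin 2) ℤ := (A s).adjugate * ((r : Matrix (Fin 2) (Fin 2) ℤ) * A t)
    with hC
  have hC0 : ∀ y : Fin 2 → ZMod N, (GTD_red N C).mulVec y = 0 := by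
    intro y
    rw [hC, map_mul, map_mul, ← Matrix.mulVec_mulVec, ← Matrix.mulVec_mulVec]
    have hB : ((A t).adjugate).det = N := by rw [GTD_adj_det, hA]
    obtain ⟨m, hm⟩ := GTD_K hB (hk' t) (y := (GTD_red N (A t)).mulVec y) (GTD_red_det' (hA t) y)
    rw [hm, Matrix.mulVec_smul, hl, Matrix.mulVec_smul, Matrix.mulVec_smul, hk', smul_zero,
      smul_zero]
  obtain ⟨g, hg⟩ := GTD_div hC0
  have hgdet : g.det = 1 := by
    have h7 : C.det = (N : ℤ) * N := by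
      rw [hC, Matrix.det_mul, Matrix.det_mul, GTD_adj_det, hA, hA,
        Matrix.SpecialLinearGroup.det_coe, one_mul]
    rw [hg, Matrix.det_smul, Fintype.card_fin, pow_two] at h7
    have h8 : ((N : ℤ) * N) * g.det = ((N : ℤ) * N) * 1 := by rw [h7, mul_one]
    exact mul_left_cancel₀ (mul_ne_zero hN0 hN0) h8
  -- `g` as an element of the modular group
  set G : SL(2, ℤ) := ⟨g, hgdet⟩ with hG
  have hGc : (G : Matrix (Fin 2) (Fin 2) ℤ) = g := rfl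
  -- `g B_t = B_s`
  have hgB : g * ((A t).adjugate * (γ : Matrix (Fin 2) (Fin 2) ℤ)) =
      (A s).adjugate * (δ : Matrix (Fin 2) (Fin 2) ℤ) := by
    have h7 : (N : ℤ) • (g * ((A t).adjugate * (γ : Matrix (Fin 2) (Fin 2) ℤ))) =
        (N : ℤ) • ((A s).adjugate * (δ : Matrix (Fin 2) (Fin 2) ℤ)) := by
      rw [← Matrix.smul_mul, ← hg, hC]
      calc (A s).adjugate * ((r : Matrix (Fin 2) (Fin 2) ℤ) * A t) *
            ((A t).adjugate * (γ : Matrix (Fin 2) (Fin 2) ℤ))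
          = (A s).adjugate * ((r : Matrix (Fin 2) (Fin 2) ℤ) * ((A t * (A t).adjugate) *
            (γ : Matrix (Fin 2) (Fin 2) ℤ))) := by
            simp only [Matrix.mul_assoc]
        _ = (N : ℤ) • ((A s).adjugate * ((r : Matrix (Fin 2) (Fin 2) ℤ) *
            (γ : Matrix (Fin 2) (Fin 2) ℤ))) := by
            rw [Matrix.mul_adjugate, hA, Matrix.smul_mul, Matrix.one_mul, Matrix.mul_smul,
              Matrix.mul_smul]
        _ = _ := by rw [hrγ]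
    ext i j
    have h8 := congrFun (congrFun h7 i) j
    rw [Matrix.smul_apply, Matrix.smul_apply, smul_eq_mul, smul_eq_mul] at h8
    exact mul_left_cancel₀ hN0 h8
  -- vectors
  have hvec : ∃ m : ZMod N, (GTD_red N (G : Matrix (Fin 2) (Fin 2) ℤ)).mulVec
      (GTD_vec (pm t q)) = m • GTD_vec (pm s q) := by
    -- a vector with nonzero image
    have hex : ∃ x : Fin 2 → ZMod N, (GTD_red N (A t).adjugate).mulVec x ≠ 0 := by
      by_contra hcon
      push Not at hcon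
      obtain ⟨g', hg'⟩ := GTD_div hcon
      have h7 : ((A t).adjugate).det = N := by rw [GTD_adj_det, hA]
      rw [hg', Matrix.det_smul, Fintype.card_fin, pow_two] at h7
      have h8 : (N : ℤ) * g'.det = 1 := by
        apply mul_left_cancel₀ hN0
        linear_combination h7
      have h9 : (N : ℤ) ∣ 1 := ⟨_, h8.symm⟩
      have h10 := Int.natAbs_dvd_natAbs.mpr h9
      simp only [Int.natAbs_natCast, Int.natAbs_one, Nat.dvd_one] at h10
      exact (Fact.out : N.Prime).one_lt.ne' h10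
    obtain ⟨x, hx⟩ := hex
    obtain ⟨m, hm⟩ := GTD_K (hA t) (hk t) (GTD_red_det (hA t) x)
    have hm0 : m ≠ 0 := by
      rintro rfl
      rw [zero_smul] at hm
      exact hx hm
    have hγγ : (γ : Matrix (Fin 2) (Fin 2) ℤ) * ((γ⁻¹ : SL(2, ℤ)) : Matrix (Fin 2) (Fin 2) ℤ) = 1 := by
      rw [← Matrix.SpecialLinearGroup.coe_mul, mul_inv_cancel, Matrix.SpecialLinearGroup.coe_one]
    have h7 : GTD_vec (pm t q) = m⁻¹ • (GTD_red N ((A t).adjugate *
        (γ : Matrix (Fin 2) (Fin 2) ℤ))).mulVec ((GTD_red N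
          ((γ⁻¹ : SL(2, ℤ)) : Matrix (Fin 2) (Fin 2) ℤ)).mulVec x) := by
      rw [Matrix.mulVec_mulVec, ← map_mul, Matrix.mul_assoc, hγγ, Matrix.mul_one, hm, smul_smul,
        inv_mul_cancel₀ hm0, one_smul]
    obtain ⟨m', hm'⟩ := GTD_K (hA s) (hk s) (GTD_red_det (hA s)
      ((GTD_red N (δ : Matrix (Fin 2) (Fin 2) ℤ)).mulVec ((GTD_red N
          ((γ⁻¹ : SL(2, ℤ)) : Matrix (Fin 2) (Fin 2) ℤ)).mulVec x)))
    refine ⟨m⁻¹ * m', ?_⟩
    rw [h7, Matrix.mulVec_smul, hGc, Matrix.mulVec_mulVec _ (GTD_red N g), ← map_mul, hgB, map_mul,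
      ← Matrix.mulVec_mulVec, hm', smul_smul]
  obtain ⟨m, hm⟩ := hvec
  -- points
  have hpt : GTD_Mob (G : Matrix (Fin 2) (Fin 2) ℤ) z₁ z₂ := by
    have h7 : GTD_Mob ((A t).adjugate * (γ : Matrix (Fin 2) (Fin 2) ℤ)) z₀ z₁ :=
      GTD_Mob_comp (GTD_SL_Mob γ z₀) h3
    have h8 : GTD_Mob ((A s).adjugate * (δ : Matrix (Fin 2) (Fin 2) ℤ)) z₀ z₂ :=
      GTD_Mob_comp (GTD_SL_Mob δ z₀) h6
    have h9 : GTD_Mob (g * ((A t).adjugate * (γ : Matrix (Fin 2) (Fin 2) ℤ))) z₀ (G • z₁) :=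
      GTD_Mob_comp h7 (GTD_SL_Mob G z₁)
    rw [hgB] at h9
    have h10 : z₂ = G • z₁ := GTD_Mob_unique (by
      rw [Matrix.det_mul, GTD_adj_det, hA, Matrix.SpecialLinearGroup.det_coe, mul_one]
      exact hNp) h8 h9
    rw [h10]
    exact GTD_SL_Mob G z₁
  obtain ⟨h11, h12⟩ := GTD_C1 hX hgood ht hs G hm h2 h5 hpt
  refine ⟨h11, ?_⟩
  subst h11
  have key : ∀ e : ℤ, (G : Matrix (Fin 2) (Fin 2) ℤ) = e • (1 : Matrix (Fin 2) (Fin 2) ℤ) →
      (δ : Matrix (Fin 2) (Fin 2) ℤ) = e • (γ : Matrix (Fin 2) (Fin 2) ℤ) := by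
    intro e he
    rw [hGc] at he
    rw [he, Matrix.smul_mul, Matrix.one_mul] at hgB
    have h7 : A t * (e • ((A t).adjugate * (γ : Matrix (Fin 2) (Fin 2) ℤ))) =
        A t * ((A t).adjugate * (δ : Matrix (Fin 2) (Fin 2) ℤ)) := by rw [hgB]
    rw [Matrix.mul_smul, ← Matrix.mul_assoc, ← Matrix.mul_assoc, Matrix.mul_adjugate, hA,
      Matrix.smul_mul, Matrix.one_mul, Matrix.smul_mul, Matrix.one_mul] at h7
    ext i j
    have h8 := congrFun (congrFun h7 i) j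
    simp only [Matrix.smul_apply, smul_eq_mul] at h8 ⊢
    apply mul_left_cancel₀ hN0
    linear_combination -h8
  rcases h12 with h12 | h12
  · left
    have h7 := key 1 (by rw [h12, Matrix.SpecialLinearGroup.coe_one, one_smul])
    rw [one_smul] at h7
    exact Subtype.ext h7
  · right
    have h7 := key (-1) (by rw [h12]; simp)
    apply Subtype.ext
    refine h7.trans ?_
    rw [_root_.neg_smul, one_smul]
    exact (Matrix.SpecialLinearGroup.coe_neg γ).symm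

open Classical in
theorem GTD_comb {ι : Type} (J : Finset ι) (P : Bool → ι → SL(2, ℤ) → Prop)
    [∀ κ t γ, Decidable (P κ t γ)]
    (h : ∀ κ t γ κ' s δ, t ∈ J → s ∈ J → P κ t γ → P κ' s δ → κ = κ' ∧ t = s ∧ (δ = γ ∨ δ = -γ)) :
    ∑ κ : Bool, ∑ t ∈ J, ∑' γ : SL(2, ℤ), (if P κ t γ then (1 : ℝ≥0∞) else 0) ≤ 2 := by
  by_cases hex : ∃ κ t γ, t ∈ J ∧ P κ t γ
  · obtain ⟨κ₀, t₀, γ₀, ht₀, hP⟩ := hex
    have hsum : ∑' γ : SL(2, ℤ), (if γ ∈ ({γ₀, -γ₀} : Finset SL(2, ℤ)) then (1 : ℝ≥0∞) else 0) ≤ 2 := by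
      rw [tsum_eq_sum (s := {γ₀, -γ₀}) (by intro b hb; rw [if_neg hb])]
      rw [Finset.sum_congr rfl (g := fun _ => (1 : ℝ≥0∞)) (by intro x hx; rw [if_pos hx])]
      rw [Finset.sum_const, nsmul_eq_mul, mul_one]
      have h1 : ({γ₀, -γ₀} : Finset SL(2, ℤ)).card ≤ 2 := Finset.card_le_two
      exact_mod_cast h1
    calc ∑ κ : Bool, ∑ t ∈ J, ∑' γ : SL(2, ℤ), (if P κ t γ then (1 : ℝ≥0∞) else 0)
        ≤ ∑ κ : Bool, ∑ t ∈ J, (if κ = κ₀ then (if t = t₀ then (2 : ℝ≥0∞) else 0) else 0) := by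
          refine Finset.sum_le_sum fun κ _ => Finset.sum_le_sum fun t ht => ?_
          by_cases hκ : κ = κ₀
          · by_cases htt : t = t₀
            · rw [if_pos hκ, if_pos htt]
              refine le_trans (ENNReal.tsum_le_tsum fun γ => ?_) hsum
              by_cases hPP : P κ t γ
              · rw [if_pos hPP, if_pos]
                have := (h κ₀ t₀ γ₀ κ t γ ht₀ ht hP hPP).2.2
                simpa using this
              · rw [if_neg hPP]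
                exact zero_le
            · rw [if_pos hκ, if_neg htt]
              refine le_of_eq ?_
              rw [ENNReal.tsum_eq_zero]
              intro γ
              rw [if_neg]
              intro hPP
              exact htt (h κ₀ t₀ γ₀ κ t γ ht₀ ht hP hPP).2.1.symm
          · rw [if_neg hκ]
            refine le_of_eq ?_
            rw [ENNReal.tsum_eq_zero]
            intro γ
            rw [if_neg]
            intro hPP
            exact hκ (h κ₀ t₀ γ₀ κ t γ ht₀ ht hP hPP).1.symm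
      _ = 2 := by
          rw [Finset.sum_eq_single κ₀]
          · simp [ht₀]
          · intro b _ hb
            simp [hb]
          · intro hb
            exact absurd (Finset.mem_univ _) hb
  · push Not at hex
    refine le_trans (le_of_eq ?_) zero_le
    refine Finset.sum_eq_zero fun κ _ => Finset.sum_eq_zero fun t ht => ?_
    rw [ENNReal.tsum_eq_zero]
    intro γ
    rw [if_neg (hex κ t γ ht)]

/-- the invariant density -/
noncomputable def GTD_h (g : S2 N) (q : PX N) (z : ℍ) : ℝ≥0∞ :=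
  ‖fam g q z‖ₑ ^ 2 * ENNReal.ofReal (z.im ^ 2)

theorem GTD_h_meas (g : S2 N) (q : PX N) : Measurable (GTD_h g q) := by
  unfold GTD_h
  have h1 : Measurable (fam g q) := (fam_cont g q).measurable
  have h2 : Measurable (fun z : ℍ => z.im) := UpperHalfPlane.continuous_im.measurable
  fun_prop

omit [Fact N.Prime] in
theorem GTD_h_eq (g : S2 N) (q : PX N) (z : ℍ) :
    GTD_h g q z = ENNReal.ofReal (‖fam g q z‖ ^ 2 * z.im ^ 2) := by
  unfold GTD_h
  rw [ENNReal.ofReal_mul (by positivity)]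
  congr 1
  rw [← ofReal_norm, ENNReal.ofReal_pow (norm_nonneg _)]

theorem GTD_h_inv (g : S2 N) (q : PX N) (γ : SL(2, ℤ)) (z : ℍ) :
    GTD_h g (pa γ q) (γ • z) = GTD_h g q z := by
  unfold GTD_h
  rw [fam_equi g γ q z, GL2.RSA_im_smul]
  have hj : jd γ z = ((γ 1 0 : ℤ) * (z : ℂ) + (γ 1 1 : ℤ)) := rfl
  have hne : ‖((γ 1 0 : ℤ) * (z : ℂ) + (γ 1 1 : ℤ))‖ ≠ 0 := norm_ne_zero_iff.mpr (GL2.RSA_denom_ne γ z)
  rw [hj]
  set D : ℂ := ((γ 1 0 : ℤ) * (z : ℂ) + (γ 1 1 : ℤ)) with hD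
  rw [enorm_mul, enorm_pow, mul_pow]
  have h1 : ‖D‖ₑ = ENNReal.ofReal ‖D‖ := (ofReal_norm D).symm
  have h2 : (‖D‖ₑ ^ 2) ^ 2 * ENNReal.ofReal ((z.im / ‖D‖ ^ 2) ^ 2) = ENNReal.ofReal (z.im ^ 2) := by
    rw [h1, ← ENNReal.ofReal_pow (norm_nonneg _), ← ENNReal.ofReal_pow (by positivity),
      ← ENNReal.ofReal_mul (by positivity)]
    congr 1
    field_simp
  calc (‖D‖ₑ ^ 2) ^ 2 * ‖fam g q z‖ₑ ^ 2 * ENNReal.ofReal ((z.im / ‖D‖ ^ 2) ^ 2)
      = ‖fam g q z‖ₑ ^ 2 * ((‖D‖ₑ ^ 2) ^ 2 * ENNReal.ofReal ((z.im / ‖D‖ ^ 2) ^ 2)) := by ring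
    _ = _ := by rw [h2]

open Classical in
theorem GTD_unf (g : S2 N) (q₁ : PX N) {S : Set ℍ} (hS : MeasurableSet S) :
    2 * ∫⁻ z in S, GTD_h g q₁ z = ∑ q₀ : PX N, ∫⁻ z in 𝒟ᵒ, GTD_h g q₀ z *
      ∑' γ : SL(2, ℤ), (if pa γ q₀ = q₁ ∧ γ • z ∈ S then (1 : ℝ≥0∞) else 0) := by
  have hms : ∀ g : SL(2, ℤ), Measurable (fun z : ℍ => g • z) := fun g => (GL2.RSA_mp g).measurable
  have hG : Measurable (S.indicator (GTD_h g q₁)) := (GTD_h_meas g q₁).indicator hS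
  have h1 := GL2.RSA_unfold _ hG
  rw [← lintegral_indicator hS, ← h1]
  have hmeas : ∀ q₀ : PX N, Measurable (fun z : ℍ => GTD_h g q₀ z *
      ∑' γ : SL(2, ℤ), (if pa γ q₀ = q₁ ∧ γ • z ∈ S then (1 : ℝ≥0∞) else 0)) := by
    intro q₀
    refine (GTD_h_meas g q₀).mul (Measurable.tsum fun γ => ?_)
    by_cases hq : pa γ q₀ = q₁
    · simp only [hq, true_and]
      exact Measurable.ite ((hms γ) hS) measurable_const measurable_const
    · simp only [hq, false_and, if_false]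
      exact measurable_const
  rw [← lintegral_finsetSum _ (fun q₀ _ => hmeas q₀)]
  refine lintegral_congr fun z => ?_
  have h2 : ∀ γ : SL(2, ℤ), S.indicator (GTD_h g q₁) (γ • z) =
      ∑ q₀ : PX N, GTD_h g q₀ z * (if pa γ q₀ = q₁ ∧ γ • z ∈ S then (1 : ℝ≥0∞) else 0) := by
    intro γ
    have hq : pa γ (pa γ⁻¹ q₁) = q₁ := by rw [← pa_mul, mul_inv_cancel, pa_one]
    rw [Finset.sum_eq_single (pa γ⁻¹ q₁)]
    · by_cases hz : γ • z ∈ S
      · rw [Set.indicator_of_mem hz, if_pos ⟨hq, hz⟩, mul_one]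
        have := GTD_h_inv g (pa γ⁻¹ q₁) γ z
        rw [hq] at this
        exact this
      · rw [Set.indicator_of_notMem hz, if_neg (fun h => hz h.2), mul_zero]
    · intro b _ hb
      rw [if_neg, mul_zero]
      rintro ⟨h, _⟩
      apply hb
      rw [← h, ← pa_mul, inv_mul_cancel, pa_one]
    · intro h
      exact absurd (Finset.mem_univ _) h
  rw [tsum_congr h2, Summable.tsum_finsetSum (fun _ _ => ENNReal.summable)]
  refine Finset.sum_congr rfl fun q₀ _ => ?_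
  rw [ENNReal.tsum_mul_left]

theorem GTD_ball_meas (z : ℍ) (ρ : ℝ) : MeasurableSet (hball z ρ) := by
  apply IsOpen.measurableSet
  unfold hball
  apply isOpen_lt <;> fun_prop

theorem GTD_fr (g : S2 N) {q q' : PX N} {A : Matrix (Fin 2) (Fin 2) ℤ} (hA : 0 < A.det)
    (hval : ∀ z z' : ℍ, GTD_Mob A z z' →
      ‖fam g q z‖ ^ 2 * z.im ^ 2 = ‖fam g q' z'‖ ^ 2 * z'.im ^ 2) {B : Set ℍ}
    (hB : MeasurableSet B) :
    MeasurableSet {z : ℍ | (GTD_gl A hA)⁻¹ • z ∈ B} ∧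
    ∫⁻ z in B, GTD_h g q z = ∫⁻ z in {z : ℍ | (GTD_gl A hA)⁻¹ • z ∈ B}, GTD_h g q' z := by
  have hmp : MeasurePreserving (fun z : ℍ => GTD_gl A hA • z) volume volume :=
    measurePreserving_smul (GTD_gl A hA) (volume : Measure ℍ)
  have hmp' : MeasurePreserving (fun z : ℍ => (GTD_gl A hA)⁻¹ • z) volume volume :=
    measurePreserving_smul (GTD_gl A hA)⁻¹ (volume : Measure ℍ)
  have hS : MeasurableSet {z : ℍ | (GTD_gl A hA)⁻¹ • z ∈ B} := hmp'.measurable hB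
  refine ⟨hS, ?_⟩
  rw [← lintegral_indicator hB, ← lintegral_indicator hS,
    ← hmp.lintegral_comp ((GTD_h_meas g q').indicator hS)]
  refine lintegral_congr fun z => ?_
  have h1 : (GTD_gl A hA • z ∈ {z : ℍ | (GTD_gl A hA)⁻¹ • z ∈ B}) ↔ z ∈ B := by
    rw [Set.mem_ofPred_eq, inv_smul_smul]
  by_cases hz : z ∈ B
  · rw [Set.indicator_of_mem hz, Set.indicator_of_mem (h1.mpr hz)]
    have h2 := hval z _ (GTD_gl_Mob A hA z)
    rw [GTD_h_eq, GTD_h_eq, h2]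
  · rw [Set.indicator_of_notMem hz, Set.indicator_of_notMem (fun h => hz (h1.mp h))]

/-- the mean value inequality for disjoint discs around Hecke points -/
theorem good_discs_pr {W : S2 N →ₗ[ℂ] S2 N} (hW : IsFricke W) (g : S2 N)
    (hg : W g = g ∨ W g = -g) (w : ℍ) (q : PX N) {ρ : ℝ} (h0 : 0 < ρ) (h1 : ρ < 1) {X : ℕ}
    (hX : X < N) (hgood : Good X ρ q w) :
    2 * ∑ n ∈ Finset.Icc 1 X, ∑ t ∈ PMat n, ‖fam g (pm t q) (hz t w)‖ ^ 2 * (hz t w).im ^ 2 ≤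
      1 / (4 * Real.pi * ρ ^ 2) * nr g := by
  classical
  have hNp : (0 : ℤ) < N := by exact_mod_cast (Fact.out : N.Prime).pos
  choose Q' a b c d hdet hk hk' hval using fricke_point hW g hg
  -- the matrices
  let A : PX N → Matrix (Fin 2) (Fin 2) ℤ := fun q => !![a q, b q; c q, d q]
  have hAdet : ∀ q, (A q).det = N := by
    intro q
    rw [Matrix.det_fin_two_of]
    exact hdet q
  have hApos : ∀ q, 0 < (A q).det := by intro q; rw [hAdet]; exact hNp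
  have hAk : ∀ q, (GTD_red N (A q)).mulVec (GTD_vec q) = 0 := fun q => GTD_kerq.mpr (hk q)
  have hAk' : ∀ q, (GTD_red N (A q).adjugate).mulVec (GTD_vec (Q' q)) = 0 := by
    intro q
    apply GTD_kerq.mpr
    have h2 := hk' q
    rw [Matrix.adjugate_fin_two_of]
    exact h2
  have hAval : ∀ q (z z' : ℍ), GTD_Mob (A q) z z' →
      ‖fam g q z‖ ^ 2 * z.im ^ 2 = ‖fam g (Q' q) z'‖ ^ 2 * z'.im ^ 2 := fun q z z' h => hval q z z' h
  -- the index set
  let J : Finset (Σ _ : ℕ, ℕ × ℕ × ℕ) := (Finset.Icc 1 X).sigma PMat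
  have hJ : ∀ x ∈ J, GTD_adm X x.2 ∧ x.2.1 * x.2.2.2 = x.1 := by
    rintro ⟨n, t⟩ hx
    obtain ⟨hn, ht⟩ := Finset.mem_sigma.mp hx
    obtain ⟨hn1, hn2⟩ := Finset.mem_Icc.mp hn
    change 1 ≤ n at hn1
    change n ≤ X at hn2
    obtain ⟨-, ht1, ht2, ht3⟩ := Finset.mem_filter.mp ht
    have hpos : 0 < t.1 * t.2.2 := by
      change t.1 * t.2.2 = n at ht1
      omega
    refine ⟨⟨Nat.pos_of_mul_pos_right hpos, Nat.pos_of_mul_pos_left hpos, ?_, ht2, ht3⟩, ht1⟩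
    change t.1 * t.2.2 = n at ht1
    change t.1 * t.2.2 ≤ X
    omega
  have hJeq : ∀ x ∈ J, ∀ y ∈ J, x.2 = y.2 → x = y := by
    rintro ⟨n, t⟩ hx ⟨m, s⟩ hy h
    change t = s at h
    subst h
    have h2 := (hJ _ hx).2
    have h3 := (hJ _ hy).2
    change t.1 * t.2.2 = n at h2
    change t.1 * t.2.2 = m at h3
    rw [← h2, ← h3]
  -- the discs and their images
  let qq : Bool → (Σ _ : ℕ, ℕ × ℕ × ℕ) → PX N := fun κ x =>
    if κ then pm x.2 q else Q' (pm x.2 q)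
  let SS : Bool → (Σ _ : ℕ, ℕ × ℕ × ℕ) → Set ℍ := fun κ x =>
    if κ then hball (hz x.2 w) ρ else
      {z : ℍ | (GTD_gl (A (pm x.2 q)) (hApos _))⁻¹ • z ∈ hball (hz x.2 w) ρ}
  have hfr : ∀ x : (Σ _ : ℕ, ℕ × ℕ × ℕ), MeasurableSet (SS false x) ∧
      ∫⁻ z in hball (hz x.2 w) ρ, GTD_h g (pm x.2 q) z =
        ∫⁻ z in SS false x, GTD_h g (qq false x) z := by
    intro x
    exact GTD_fr g (hApos _) (hAval _) (GTD_ball_meas _ _)
  have hSS : ∀ κ x, MeasurableSet (SS κ x) := by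
    intro κ x
    cases κ with
    | false => exact (hfr x).1
    | true => exact GTD_ball_meas _ _
  have hint : ∀ κ x, ∫⁻ z in SS κ x, GTD_h g (qq κ x) z =
      ∫⁻ z in hball (hz x.2 w) ρ, GTD_h g (pm x.2 q) z := by
    intro κ x
    cases κ with
    | false => exact (hfr x).2.symm
    | true => rfl
  -- the property
  let P : PX N → ℍ → Bool → (Σ _ : ℕ, ℕ × ℕ × ℕ) → SL(2, ℤ) → Prop := fun q₀ z κ x γ =>
    pa γ q₀ = qq κ x ∧ γ • z ∈ SS κ x
  have hfalse : ∀ (q₀ : PX N) (z : ℍ) (x : Σ _ : ℕ, ℕ × ℕ × ℕ) (γ : SL(2, ℤ)),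
      P q₀ z false x γ → pa γ q₀ = Q' (pm x.2 q) ∧ ∃ z₁, z₁ ∈ hball (hz x.2 w) ρ ∧
        GTD_Mob (A (pm x.2 q)).adjugate (γ • z) z₁ := by
    rintro q₀ z x γ ⟨hp1, hp2⟩
    refine ⟨hp1, _, hp2, ?_⟩
    have h2 := GTD_gl_Mob (A (pm x.2 q)) (hApos _)
      ((GTD_gl (A (pm x.2 q)) (hApos _))⁻¹ • (γ • z))
    rw [smul_inv_smul] at h2
    exact GTD_Mob_adj h2
  have hcomb : ∀ (q₀ : PX N) (z : ℍ), ∑ κ : Bool, ∑ x ∈ J, ∑' γ : SL(2, ℤ),
      (if P q₀ z κ x γ then (1 : ℝ≥0∞) else 0) ≤ 2 := by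
    intro q₀ z
    refine GTD_comb J (P q₀ z) ?_
    intro κ x γ κ' y δ hx hy hp hp'
    have hax := (hJ x hx).1
    have hay := (hJ y hy).1
    cases κ with
    | true =>
      cases κ' with
      | true =>
        obtain ⟨h2, h3⟩ := GTD_TT hX hgood hax hay hp.1 hp.2 hp'.1 hp'.2
        exact ⟨rfl, hJeq x hx y hy h2, h3⟩
      | false =>
        obtain ⟨h2, z₂, h3, h4⟩ := hfalse q₀ z y δ hp'
        exact (GTD_TF hX hgood hax hay hp.1 hp.2 (hAdet _) (hAk _) (hAk' _) h2 h3 h4).elim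
    | false =>
      cases κ' with
      | true =>
        obtain ⟨h2, z₂, h3, h4⟩ := hfalse q₀ z x γ hp
        exact (GTD_TF hX hgood hay hax hp'.1 hp'.2 (hAdet _) (hAk _) (hAk' _) h2 h3 h4).elim
      | false =>
        obtain ⟨h2, z₁, h3, h4⟩ := hfalse q₀ z x γ hp
        obtain ⟨h5, z₂, h6, h7⟩ := hfalse q₀ z y δ hp'
        obtain ⟨h8, h9⟩ := GTD_FF hX hgood hax hay (Q := fun t => Q' (pm t q))
          (A := fun t => A (pm t q)) (fun _ => hAdet _) (fun _ => hAk _) (fun _ => hAk' _)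
          h2 h3 h4 h5 h6 h7
        exact ⟨rfl, hJeq x hx y hy h8, h9⟩
  -- the energy bound
  have hms : ∀ g : SL(2, ℤ), Measurable (fun z : ℍ => g • z) := fun g => (GL2.RSA_mp g).measurable
  have hmeas : ∀ (q₀ : PX N) κ x, Measurable (fun z : ℍ => GTD_h g q₀ z *
      ∑' γ : SL(2, ℤ), (if P q₀ z κ x γ then (1 : ℝ≥0∞) else 0)) := by
    intro q₀ κ x
    refine (GTD_h_meas g q₀).mul (Measurable.tsum fun γ => ?_)
    by_cases hq : pa γ q₀ = qq κ x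
    · simp only [P, hq, true_and]
      exact Measurable.ite ((hms γ) (hSS κ x)) measurable_const measurable_const
    · simp only [P, hq, false_and, if_false]
      exact measurable_const
  have hen : en (fam g) = ∑ q₀ : PX N, ∫⁻ z in 𝒟ᵒ, GTD_h g q₀ z := rfl
  have h4 : ∑ κ : Bool, ∑ x ∈ J, 2 * ∫⁻ z in hball (hz x.2 w) ρ, GTD_h g (pm x.2 q) z ≤
      2 * en (fam g) := by
    calc ∑ κ : Bool, ∑ x ∈ J, 2 * ∫⁻ z in hball (hz x.2 w) ρ, GTD_h g (pm x.2 q) z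
        = ∑ κ : Bool, ∑ x ∈ J, ∑ q₀ : PX N, ∫⁻ z in 𝒟ᵒ, GTD_h g q₀ z *
          ∑' γ : SL(2, ℤ), (if P q₀ z κ x γ then (1 : ℝ≥0∞) else 0) := by
          refine Finset.sum_congr rfl fun κ _ => Finset.sum_congr rfl fun x _ => ?_
          rw [← hint κ x, GTD_unf g _ (hSS κ x)]
      _ = ∑ q₀ : PX N, ∑ κ : Bool, ∑ x ∈ J, ∫⁻ z in 𝒟ᵒ, GTD_h g q₀ z *
          ∑' γ : SL(2, ℤ), (if P q₀ z κ x γ then (1 : ℝ≥0∞) else 0) := by
          rw [Finset.sum_comm (s := (Finset.univ : Finset (PX N)))]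
          refine Finset.sum_congr rfl fun κ _ => ?_
          rw [Finset.sum_comm]
      _ = ∑ q₀ : PX N, ∫⁻ z in 𝒟ᵒ, GTD_h g q₀ z * ∑ κ : Bool, ∑ x ∈ J,
          ∑' γ : SL(2, ℤ), (if P q₀ z κ x γ then (1 : ℝ≥0∞) else 0) := by
          refine Finset.sum_congr rfl fun q₀ _ => ?_
          simp_rw [Finset.mul_sum]
          rw [lintegral_finsetSum _ (fun κ _ => Finset.measurable_sum _ (fun x _ => hmeas q₀ κ x))]
          refine Finset.sum_congr rfl fun κ _ => ?_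
          rw [lintegral_finsetSum _ (fun x _ => hmeas q₀ κ x)]
      _ ≤ ∑ q₀ : PX N, ∫⁻ z in 𝒟ᵒ, GTD_h g q₀ z * 2 := by
          refine Finset.sum_le_sum fun q₀ _ => lintegral_mono fun z => ?_
          exact mul_le_mul_right (hcomb q₀ z) _
      _ = 2 * en (fam g) := by
          rw [hen, Finset.mul_sum]
          refine Finset.sum_congr rfl fun q₀ _ => ?_
          rw [lintegral_mul_const _ (GTD_h_meas g q₀), mul_comm]
  have h5 : 2 * ∑ x ∈ J, ∫⁻ z in hball (hz x.2 w) ρ, GTD_h g (pm x.2 q) z ≤ en (fam g) := by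
    rw [Fintype.sum_bool, ← two_mul, ← Finset.mul_sum] at h4
    exact (ENNReal.mul_le_mul_iff_right two_ne_zero ENNReal.ofNat_ne_top).mp h4
  -- conclusion
  have hc0 : 0 ≤ 1 / (4 * Real.pi * ρ ^ 2) := by positivity
  have hsum : ∑ n ∈ Finset.Icc 1 X, ∑ t ∈ PMat n, ‖fam g (pm t q) (hz t w)‖ ^ 2 * (hz t w).im ^ 2 =
      ∑ x ∈ J, ‖fam g (pm x.2 q) (hz x.2 w)‖ ^ 2 * (hz x.2 w).im ^ 2 := by
    rw [Finset.sum_sigma]
  rw [hsum]
  have hnr0 : 0 ≤ nr g := by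
    by_cases hg0 : g = 0
    · have h6 := pet_smul (0 : ℂ) (0 : S2 N) (0 : S2 N)
      rw [zero_smul, zero_mul] at h6
      rw [hg0, nr, h6, Complex.zero_re]
    · exact (nr_pos hg0).le
  rw [← ENNReal.ofReal_le_ofReal_iff (mul_nonneg hc0 hnr0), ENNReal.ofReal_mul (by norm_num),
    ENNReal.ofReal_mul hc0, nr_en, ENNReal.ofReal_sum_of_nonneg (fun _ _ => by positivity)]
  calc ENNReal.ofReal 2 * ∑ x ∈ J, ENNReal.ofReal (‖fam g (pm x.2 q) (hz x.2 w)‖ ^ 2 * (hz x.2 w).im ^ 2)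
      ≤ ENNReal.ofReal 2 * ∑ x ∈ J, ENNReal.ofReal (1 / (4 * Real.pi * ρ ^ 2)) *
        ∫⁻ z in hball (hz x.2 w) ρ, GTD_h g (pm x.2 q) z := by
        refine mul_le_mul_right (Finset.sum_le_sum fun x _ => ?_) _
        exact mean_value (fam_hol g _) _ h0 h1
    _ = ENNReal.ofReal (1 / (4 * Real.pi * ρ ^ 2)) *
        (2 * ∑ x ∈ J, ∫⁻ z in hball (hz x.2 w) ρ, GTD_h g (pm x.2 q) z) := by
        rw [← Finset.mul_sum, ENNReal.ofReal_ofNat]
        ring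
    _ ≤ _ := mul_le_mul_right h5 _

end

theorem good_discs : type_of% @good_discs_pr := @good_discs_pr

end Pool.Agent.LEV
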