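import Pool.Agent.Lib_helper68.LEV.DefsG
import Pool.Agent.Lib_helper68.LEV.PET

/-! LEVG block KRN: Bessel's inequality for a linear functional -/

namespace Pool.Agent.LEV

open Complex MeasureTheory Filter Topology UpperHalfPlane ModularGroup
open scoped MatrixGroups Modular ENNReal ModularForm ComplexConjugate

section
variable {N : ℕ} [Fact N.Prime]

/-- `pet f` as a linear map -/
noncomputable def KRN_pet (f : S2 N) : S2 N →ₗ[ℂ] ℂ where
  toFun := pet f
  map_add' := pet_add f
  map_smul' := fun c g => by rw [pet_smul, RingHom.id_apply, smul_eq_mul]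

theorem kern_gen_pr {ι : Type} [Fintype ι] (f : ι → S2 N) (hf : ∀ i, f i ≠ 0)
    (ho : ∀ i j, i ≠ j → pet (f i) (f j) = 0) (l : S2 N →ₗ[ℂ] ℂ) {B : ℝ} (hB : 0 ≤ B)
    (h : ∀ g ∈ Submodule.span ℂ (Set.range f), ‖l g‖ ^ 2 ≤ B * nr g) :
    ∑ i, ‖l (f i)‖ ^ 2 / nr (f i) ≤ B := by
  classical
  have hn : ∀ i, 0 < nr (f i) := fun i => nr_pos (hf i)
  set c : ι → ℂ := fun i => conj (l (f i)) / (nr (f i) : ℂ) with hc
  set g : S2 N := ∑ i, c i • f i with hg
  set S : ℝ := ∑ i, ‖l (f i)‖ ^ 2 / nr (f i) with hS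
  have hS0 : 0 ≤ S := Finset.sum_nonneg fun i _ => div_nonneg (sq_nonneg _) (hn i).le
  have hmem : g ∈ Submodule.span ℂ (Set.range f) :=
    Submodule.sum_mem _ fun i _ => Submodule.smul_mem _ _ (Submodule.subset_span ⟨i, rfl⟩)
  have hlg : l g = (S : ℂ) := by
    rw [hg, map_sum, hS]
    push_cast
    refine Finset.sum_congr rfl fun i _ => ?_
    rw [map_smul, smul_eq_mul, hc]
    simp only
    rw [div_mul_eq_mul_div, Complex.conj_mul']
  have hpet : ∀ j, pet (f j) g = c j * (nr (f j) : ℂ) := by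
    intro j
    have h1 : KRN_pet (f j) g = ∑ i, c i * pet (f j) (f i) := by
      rw [hg, map_sum]
      refine Finset.sum_congr rfl fun i _ => ?_
      rw [map_smul, smul_eq_mul]
      rfl
    have h2 : KRN_pet (f j) g = pet (f j) g := rfl
    rw [← h2, h1, Finset.sum_eq_single j]
    · rw [pet_self]
    · intro i _ hij
      rw [ho j i (Ne.symm hij), mul_zero]
    · intro hj
      exact absurd (Finset.mem_univ j) hj
  have hgg : pet g g = (S : ℂ) := by
    have h1 : KRN_pet g g = ∑ i, c i * pet g (f i) := by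
      conv_lhs => rw [show (KRN_pet g) g = (KRN_pet g) (∑ i, c i • f i) from by rw [← hg]]
      rw [map_sum]
      refine Finset.sum_congr rfl fun i _ => ?_
      rw [map_smul, smul_eq_mul]
      rfl
    have h2 : KRN_pet g g = pet g g := rfl
    rw [← h2, h1, hS]
    push_cast
    refine Finset.sum_congr rfl fun i _ => ?_
    rw [pet_conj (f i) g, hpet i, map_mul, Complex.conj_ofReal]
    have h3 : ((nr (f i) : ℝ) : ℂ) ≠ 0 := by
      exact_mod_cast (hn i).ne'
    simp only [hc]
    rw [map_div₀, Complex.conj_conj, Complex.conj_ofReal, div_mul_cancel₀ _ h3,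
      div_mul_eq_mul_div, Complex.conj_mul']
  have hnr : nr g = S := by
    rw [nr, hgg, Complex.ofReal_re]
  have h4 := h g hmem
  rw [hlg, hnr, Complex.norm_real, Real.norm_of_nonneg hS0] at h4
  rcases hS0.eq_or_lt with h5 | h5
  · rw [← h5]
    exact hB
  · have h6 : S * S ≤ B * S := by rw [← sq]; exact h4
    exact le_of_mul_le_mul_right h6 h5

end

theorem kern_gen : type_of% @kern_gen_pr := @kern_gen_pr

end Pool.Agent.LEV
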