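import Pool.Agent.Lib_helper68.LEV.DefsG
import Pool.Agent.Lib_helper68.LEV.CNT
import Pool.Agent.Lib_helper68.LEV.FAM
import Pool.Agent.Lib_helper68.LEV.MVP
import Pool.Agent.Lib_helper68.LEV.PET

/-! Block SUP (helper8): sup norm bound. -/

namespace Pool.Agent.LEV

open Complex MeasureTheory Filter Topology UpperHalfPlane ModularGroup ProbabilityTheory
open scoped MatrixGroups Modular ENNReal ModularForm ComplexConjugate ContDiff

/-- the strip above `1/R`, shifted by `k` -/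
def SUP_S (w : ℍ) (R : ℝ) (k : ℤ) : Set SL(2, ℤ) :=
  {g | (k : ℝ) ≤ (g • w).re ∧ (g • w).re < k + 1 ∧ 1 / R ≤ (g • w).im}

theorem SUP_zero (w : ℍ) {R : ℝ} (hR : 0 < R) :
    (SUP_S w R 0).Finite ∧ ((SUP_S w R 0).ncard : ℝ) ≤ 6 + 12 * R := by
  classical
  have : Fact (Nat.Prime 2) := ⟨Nat.prime_two⟩
  have h := count_strip (N := 2) w hR
  have hsub : SUP_S w R 0 = ⋃ q : PX 2, {g : SL(2, ℤ) | pa g⁻¹ (OnePoint.infty : PX 2) = q ∧
      0 ≤ (g • w).re ∧ (g • w).re < 1 ∧ 1 / R ≤ (g • w).im} := by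
    ext g
    simp [SUP_S]
  have hfin : (SUP_S w R 0).Finite := by
    rw [hsub]
    exact Set.finite_iUnion fun q => (h q).1
  refine ⟨hfin, ?_⟩
  have h1 : (SUP_S w R 0).ncard ≤ ∑ q : PX 2, {g : SL(2, ℤ) | pa g⁻¹ (OnePoint.infty : PX 2) = q ∧
      0 ≤ (g • w).re ∧ (g • w).re < 1 ∧ 1 / R ≤ (g • w).im}.ncard := by
    rw [Set.ncard_eq_toFinset_card _ hfin]
    have h2 : hfin.toFinset ⊆ Finset.univ.biUnion (fun q : PX 2 => (h q).1.toFinset) := by
      intro g hg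
      rw [Set.Finite.mem_toFinset, hsub, Set.mem_iUnion] at hg
      obtain ⟨q, hq⟩ := hg
      rw [Finset.mem_biUnion]
      exact ⟨q, Finset.mem_univ _, (Set.Finite.mem_toFinset _).2 hq⟩
    refine (Finset.card_le_card h2).trans (Finset.card_biUnion_le.trans (le_of_eq ?_))
    exact Finset.sum_congr rfl fun q _ => (Set.ncard_eq_toFinset_card _ (h q).1).symm
  have h3 : ((∑ q : PX 2, {g : SL(2, ℤ) | pa g⁻¹ (OnePoint.infty : PX 2) = q ∧
      0 ≤ (g • w).re ∧ (g • w).re < 1 ∧ 1 / R ≤ (g • w).im}.ncard : ℕ) : ℝ) ≤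
      ∑ q : PX 2, 2 * (1 + 4 * R / (2 : ℕ)) := by
    push_cast
    refine Finset.sum_le_sum fun q _ => ?_
    have := (h q).2
    push_cast at this
    exact this
  have h4 : ((SUP_S w R 0).ncard : ℝ) ≤ _ := (Nat.cast_le.2 h1).trans h3
  rw [Finset.sum_const, Finset.card_univ, card_PX] at h4
  refine h4.trans (le_of_eq ?_)
  push_cast
  ring

theorem SUP_shift (w : ℍ) (R : ℝ) (k : ℤ) :
    SUP_S w R k = (fun g => ModularGroup.T ^ k * g) '' SUP_S w R 0 := by
  have hact : ∀ (n : ℤ) (g : SL(2, ℤ)), ((ModularGroup.T ^ n * g) • w).re = (g • w).re + n ∧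
      ((ModularGroup.T ^ n * g) • w).im = (g • w).im := by
    intro n g
    rw [mul_smul, UpperHalfPlane.modular_T_zpow_smul]
    refine ⟨?_, ?_⟩
    · rw [UpperHalfPlane.vadd_re]; ring
    · rw [UpperHalfPlane.vadd_im]
  ext g
  constructor
  · rintro ⟨h1, h2, h3⟩
    refine ⟨ModularGroup.T ^ (-k) * g, ?_, ?_⟩
    · have h4 := hact (-k) g
      refine ⟨?_, ?_, ?_⟩
      · rw [h4.1]; push_cast; linarith
      · rw [h4.1]; push_cast; linarith
      · rw [h4.2]; exact h3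
    · simp only []
      rw [← mul_assoc, ← zpow_add]
      simp
  · rintro ⟨g', ⟨h1, h2, h3⟩, rfl⟩
    have h4 := hact k g'
    simp only []
    push_cast at h1 h2
    refine ⟨?_, ?_, ?_⟩
    · rw [h4.1]; linarith
    · rw [h4.1]; linarith
    · rw [h4.2]; exact h3

theorem SUP_k (w : ℍ) {R : ℝ} (hR : 0 < R) (k : ℤ) :
    (SUP_S w R k).Finite ∧ ((SUP_S w R k).ncard : ℝ) ≤ 6 + 12 * R := by
  obtain ⟨h1, h2⟩ := SUP_zero w hR
  rw [SUP_shift]
  refine ⟨h1.image _, ?_⟩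
  rw [Set.ncard_image_of_injective _ (mul_right_injective _)]
  exact h2

/-- the disc of radius `1/2` -/
theorem SUP_disc {z w : ℍ} (h : w ∈ hball z (1 / 2)) :
    z.im / 3 ≤ w.im ∧ |w.re - z.re| ≤ 4 * z.im / 3 := by
  have hy := z.im_pos
  have hb := w.im_pos
  change ‖(w : ℂ) - (z : ℂ)‖ < 1 / 2 * ‖(w : ℂ) - conj (z : ℂ)‖ at h
  have h1 : ‖(w : ℂ) - (z : ℂ)‖ ^ 2 < (1 / 2 * ‖(w : ℂ) - conj (z : ℂ)‖) ^ 2 :=
    pow_lt_pow_left₀ h (norm_nonneg _) two_ne_zero
  rw [mul_pow, ← Complex.normSq_eq_norm_sq, ← Complex.normSq_eq_norm_sq, Complex.normSq_apply,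
    Complex.normSq_apply] at h1
  simp only [sub_re, sub_im, conj_re, conj_im, UpperHalfPlane.coe_re, UpperHalfPlane.coe_im] at h1
  have h2 : (w.re - z.re) ^ 2 + (w.im - 5 * z.im / 3) ^ 2 < (4 * z.im / 3) ^ 2 := by
    nlinarith
  constructor
  · have h3 : (w.im - 5 * z.im / 3) ^ 2 < (4 * z.im / 3) ^ 2 := by
      nlinarith [sq_nonneg (w.re - z.re)]
    have h4 := (abs_lt.1 (abs_lt_of_sq_lt_sq h3 (by positivity))).1
    linarith
  · have h3 : (w.re - z.re) ^ 2 < (4 * z.im / 3) ^ 2 := by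
      nlinarith [sq_nonneg (w.im - 5 * z.im / 3)]
    exact (abs_lt_of_sq_lt_sq h3 (by positivity)).le

theorem SUP_count (z w : ℍ) : {g : SL(2, ℤ) | g • w ∈ hball z (1 / 2)}.Finite ∧
    ({g : SL(2, ℤ) | g • w ∈ hball z (1 / 2)}.ncard : ℝ) ≤ 126 * (z.im + 1 / z.im) := by
  classical
  have hy := z.im_pos
  set R : ℝ := 3 / z.im with hRd
  have hR : 0 < R := by positivity
  have h1R : 1 / R = z.im / 3 := by rw [hRd]; field_simp
  set k0 : ℤ := ⌊z.re - 4 * z.im / 3⌋ with hk0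
  set k1 : ℤ := ⌊z.re + 4 * z.im / 3⌋ with hk1
  have hsub : {g : SL(2, ℤ) | g • w ∈ hball z (1 / 2)} ⊆
      ⋃ k ∈ Finset.Icc k0 k1, SUP_S w R k := by
    intro g hg
    obtain ⟨h1, h2⟩ := SUP_disc hg
    rw [abs_le] at h2
    rw [Set.mem_iUnion₂]
    refine ⟨⌊(g • w).re⌋, ?_, Int.floor_le _, Int.lt_floor_add_one _, ?_⟩
    · rw [Finset.mem_Icc]
      exact ⟨Int.floor_le_floor (by linarith [h2.1]), Int.floor_le_floor (by linarith [h2.2])⟩
    · rw [h1R]; exact h1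
  have hfin : {g : SL(2, ℤ) | g • w ∈ hball z (1 / 2)}.Finite := by
    refine Set.Finite.subset ?_ hsub
    exact (Finset.Icc k0 k1).finite_toSet.biUnion fun k _ => (SUP_k w hR k).1
  refine ⟨hfin, ?_⟩
  rw [Set.ncard_eq_toFinset_card _ hfin]
  have h2 : hfin.toFinset ⊆ (Finset.Icc k0 k1).biUnion (fun k => (SUP_k w hR k).1.toFinset) := by
    intro g hg
    rw [Set.Finite.mem_toFinset] at hg
    have := hsub hg
    rw [Set.mem_iUnion₂] at this
    obtain ⟨k, hk, hgk⟩ := this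
    rw [Finset.mem_biUnion]
    exact ⟨k, hk, (Set.Finite.mem_toFinset _).2 hgk⟩
  have h3 : (hfin.toFinset.card : ℝ) ≤ ∑ k ∈ Finset.Icc k0 k1, (6 + 12 * R) := by
    have h4 : (hfin.toFinset.card : ℝ) ≤
        ((∑ k ∈ Finset.Icc k0 k1, (SUP_k w hR k).1.toFinset.card : ℕ) : ℝ) :=
      Nat.cast_le.2 ((Finset.card_le_card h2).trans Finset.card_biUnion_le)
    refine h4.trans ?_
    push_cast
    refine Finset.sum_le_sum fun k _ => ?_
    have := (SUP_k w hR k).2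
    rwa [Set.ncard_eq_toFinset_card _ (SUP_k w hR k).1] at this
  rw [Finset.sum_const, Int.card_Icc, nsmul_eq_mul] at h3
  have h5 : (((k1 + 1 - k0).toNat : ℕ) : ℝ) ≤ 8 * z.im / 3 + 2 := by
    have h6 : ((k1 + 1 - k0 : ℤ) : ℝ) ≤ 8 * z.im / 3 + 2 := by
      push_cast
      have h7 := Int.floor_le (z.re + 4 * z.im / 3)
      have h8 := Int.lt_floor_add_one (z.re - 4 * z.im / 3)
      rw [← hk1] at h7
      rw [← hk0] at h8
      linarith
    have h9 : (((k1 + 1 - k0).toNat : ℤ) : ℝ) = max ((k1 + 1 - k0 : ℤ) : ℝ) 0 := by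
      rw [Int.toNat_eq_max]
      push_cast
      rfl
    have h10 : (((k1 + 1 - k0).toNat : ℕ) : ℝ) = (((k1 + 1 - k0).toNat : ℤ) : ℝ) := by
      push_cast; rfl
    rw [h10, h9]
    exact max_le h6 (by positivity)
  refine h3.trans ?_
  calc (((k1 + 1 - k0).toNat : ℕ) : ℝ) * (6 + 12 * R) ≤ (8 * z.im / 3 + 2) * (6 + 12 * R) :=
        mul_le_mul_of_nonneg_right h5 (by positivity)
    _ = 16 * z.im + 108 + 72 * (1 / z.im) := by
      rw [hRd]
      field_simp
      ring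
    _ ≤ 126 * (z.im + 1 / z.im) := by
      have h11 : 2 ≤ z.im + 1 / z.im := by
        have h12 : z.im * (1 / z.im) = 1 := by field_simp
        have h13 : 0 < 1 / z.im := by positivity
        nlinarith [sq_nonneg (z.im - 1 / z.im)]
      have h13 : 0 < 1 / z.im := by positivity
      linarith

section
variable {N : ℕ} [Fact N.Prime]

/-- invariance of the pointwise norm -/
theorem SUP_inv (f : S2 N) (g : SL(2, ℤ)) (q : PX N) (w : ℍ) :
    ‖fam f q (g • w)‖ₑ ^ 2 * ENNReal.ofReal ((g • w).im ^ 2) =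
      ‖fam f (pa g⁻¹ q) w‖ₑ ^ 2 * ENNReal.ofReal (w.im ^ 2) := by
  have h1 := fam_equi f g (pa g⁻¹ q) w
  rw [← pa_mul, mul_inv_cancel, pa_one] at h1
  have h2 := Pool.Agent.GL2.RSA_im_smul g w
  have hne := Pool.Agent.GL2.RSA_denom_ne g w
  have hj : jd g w = (g 1 0 : ℤ) * (w : ℂ) + (g 1 1 : ℤ) := rfl
  rw [← hj] at h2 hne
  have hn : ‖jd g w‖ ≠ 0 := norm_ne_zero_iff.2 hne
  rw [h1, h2, ← ofReal_norm, ← ofReal_norm, ← ENNReal.ofReal_pow (norm_nonneg _),
    ← ENNReal.ofReal_pow (norm_nonneg _), ← ENNReal.ofReal_mul (by positivity),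
    ← ENNReal.ofReal_mul (by positivity)]
  congr 1
  rw [norm_mul, norm_pow]
  field_simp

theorem SUP_int (f : S2 N) (q : PX N) (z : ℍ) :
    2 * ∫⁻ w in hball z (1 / 2), ‖fam f q w‖ₑ ^ 2 * ENNReal.ofReal (w.im ^ 2) ≤
      ENNReal.ofReal (126 * (z.im + 1 / z.im)) * ENNReal.ofReal (nr f) := by
  have hmb : MeasurableSet (hball z (1 / 2)) :=
    measurableSet_lt (by fun_prop) (by fun_prop)
  have hmeas : ∀ q : PX N, Measurable (fun w : ℍ => ‖fam f q w‖ₑ ^ 2 * ENNReal.ofReal (w.im ^ 2)) := by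
    intro q
    refine ((fam_cont f q).measurable.enorm.pow_const 2).mul ?_
    exact (UpperHalfPlane.continuous_im.pow 2).measurable.ennreal_ofReal
  set G : ℍ → ℝ≥0∞ := (hball z (1 / 2)).indicator
    (fun w => ‖fam f q w‖ₑ ^ 2 * ENNReal.ofReal (w.im ^ 2)) with hG
  have hGm : Measurable G := (hmeas q).indicator hmb
  have hunf := Pool.Agent.GL2.RSA_unfold G hGm
  rw [← lintegral_indicator hmb, ← hG, ← hunf]
  set H : ℍ → ℝ≥0∞ := fun w => ∑ q' : PX N, ‖fam f q' w‖ₑ ^ 2 * ENNReal.ofReal (w.im ^ 2) with hH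
  have hHm : Measurable H := Finset.measurable_sum _ fun q' _ => hmeas q'
  have hpt : ∀ w : ℍ, ∑' g : SL(2, ℤ), G (g • w) ≤
      ENNReal.ofReal (126 * (z.im + 1 / z.im)) * H w := by
    intro w
    obtain ⟨hfin, hcard⟩ := SUP_count z w
    have h1 : ∀ g : SL(2, ℤ), G (g • w) ≤
        {g : SL(2, ℤ) | g • w ∈ hball z (1 / 2)}.indicator (fun _ => H w) g := by
      intro g
      by_cases hg : g • w ∈ hball z (1 / 2)
      · rw [hG, Set.indicator_of_mem hg, Set.indicator_of_mem (by exact hg), SUP_inv]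
        exact Finset.single_le_sum
          (f := fun q' : PX N => ‖fam f q' w‖ₑ ^ 2 * ENNReal.ofReal (w.im ^ 2))
          (fun _ _ => zero_le) (Finset.mem_univ (pa g⁻¹ q))
      · rw [hG, Set.indicator_of_notMem hg]
        exact zero_le
    refine (ENNReal.tsum_le_tsum h1).trans ?_
    rw [tsum_eq_sum (s := hfin.toFinset)]
    · rw [Finset.sum_congr rfl (g := fun _ => H w)]
      · rw [Finset.sum_const, nsmul_eq_mul]
        refine mul_le_mul_left ?_ _
        rw [← ENNReal.ofReal_natCast]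
        apply ENNReal.ofReal_le_ofReal
        rwa [← Set.ncard_eq_toFinset_card _ hfin]
      · intro g hg
        rw [Set.Finite.mem_toFinset] at hg
        exact Set.indicator_of_mem hg _
    · intro g hg
      rw [Set.Finite.mem_toFinset] at hg
      exact Set.indicator_of_notMem hg _
  calc ∫⁻ w in 𝒟ᵒ, ∑' g : SL(2, ℤ), G (g • w) ≤
      ∫⁻ w in 𝒟ᵒ, ENNReal.ofReal (126 * (z.im + 1 / z.im)) * H w := lintegral_mono hpt
    _ = ENNReal.ofReal (126 * (z.im + 1 / z.im)) * ∫⁻ w in 𝒟ᵒ, H w := by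
      rw [lintegral_const_mul _ hHm]
    _ = ENNReal.ofReal (126 * (z.im + 1 / z.im)) * ENNReal.ofReal (nr f) := by
      rw [nr_en, en, hH, lintegral_finsetSum _ fun q' _ => hmeas q']

end

theorem sup_le_nr_pr : ∃ C : ℝ, 0 < C ∧ ∀ (N : ℕ) [Fact N.Prime] (f : S2 N) (q : PX N) (z : ℍ),
    ‖fam f q z‖ ^ 2 * z.im ^ 2 ≤ C * (z.im + 1 / z.im) * nr f := by
  refine ⟨126, by norm_num, fun N _ f q z => ?_⟩
  have hy := z.im_pos
  have hpi := Real.pi_gt_three
  have hnr : 0 ≤ nr f := by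
    by_cases hf : f = 0
    · rw [nr, hf]
      have : pet (0 : S2 N) 0 = 0 := by
        have h := pet_smul 0 (0 : S2 N) 0
        rwa [zero_smul, zero_mul] at h
      rw [this]
      simp
    · exact (nr_pos hf).le
  have h1 := mean_value (fam_hol f q) z (ρ := 1 / 2) (by norm_num) (by norm_num)
  have h2 := SUP_int f q z
  have h3 : ENNReal.ofReal (‖fam f q z‖ ^ 2 * z.im ^ 2) ≤
      ENNReal.ofReal (1 * (126 * (z.im + 1 / z.im)) * nr f) := by
    refine h1.trans ?_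
    calc ENNReal.ofReal (1 / (4 * Real.pi * (1 / 2) ^ 2)) *
        ∫⁻ w in hball z (1 / 2), ‖fam f q w‖ₑ ^ 2 * ENNReal.ofReal (w.im ^ 2) ≤
        ENNReal.ofReal 1 *
        ∫⁻ w in hball z (1 / 2), ‖fam f q w‖ₑ ^ 2 * ENNReal.ofReal (w.im ^ 2) := by
          refine mul_le_mul_left (ENNReal.ofReal_le_ofReal ?_) _
          rw [div_le_one (by positivity)]
          nlinarith
      _ ≤ ENNReal.ofReal 1 *
        (2 * ∫⁻ w in hball z (1 / 2), ‖fam f q w‖ₑ ^ 2 * ENNReal.ofReal (w.im ^ 2)) := by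
          refine mul_le_mul_right ?_ _
          calc _ = 1 * ∫⁻ w in hball z (1 / 2), ‖fam f q w‖ₑ ^ 2 * ENNReal.ofReal (w.im ^ 2) := by
                rw [one_mul]
            _ ≤ _ := mul_le_mul_left (by norm_num) _
      _ ≤ ENNReal.ofReal 1 * (ENNReal.ofReal (126 * (z.im + 1 / z.im)) * ENNReal.ofReal (nr f)) :=
          mul_le_mul_right h2 _
      _ = _ := by
        rw [← ENNReal.ofReal_mul (by positivity), ← ENNReal.ofReal_mul zero_le_one]
        congr 1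
        ring
  have h4 : 0 ≤ 1 * (126 * (z.im + 1 / z.im)) * nr f := by positivity
  rw [ENNReal.ofReal_le_ofReal_iff h4, one_mul] at h3
  exact h3

theorem sup_le_nr : type_of% @sup_le_nr_pr := @sup_le_nr_pr

end Pool.Agent.LEV
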