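import Pool.Agent.Lib_helper68.LEV.DefsG
import Pool.Agent.Lib_helper68.LEV.FAM
import Pool.Agent.Lib_helper68.LEV.QEX

/-!
# Block HFM: the Hecke relation for families
-/

set_option linter.unusedSectionVars false

namespace Pool.Agent.LEV

open Complex MeasureTheory Filter Topology UpperHalfPlane ModularGroup ProbabilityTheory
open scoped MatrixGroups Modular ENNReal ModularForm ComplexConjugate ContDiff

/-! ### arithmetic of the coefficients -/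

section arith
variable {N : ℕ} [Fact N.Prime]

theorem HFM_pp {f : S2 N} (hf : IsNew f) {p : ℕ} (hp : p.Prime) (hpN : p ≠ N) (r : ℕ) : ∀ s : ℕ,
    co f (p ^ (r + 1)) * co f (p ^ (s + 1)) =
      co f (p ^ (r + s + 2)) + p * (co f (p ^ r) * co f (p ^ s)) := by
  induction r with
  | zero =>
    intro s
    have h1 := hf.hecke p s hp hpN
    have h0 : co f (p ^ 0) = 1 := by rw [pow_zero]; exact hf.one
    rw [h0, zero_add, zero_add, pow_one, h1]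
    ring
  | succ r ih =>
    intro s
    have h1 := hf.hecke p s hp hpN
    have h2 := hf.hecke p r hp hpN
    have h3 := ih (s + 1)
    have e1 : r + 1 + 1 = r + 2 := rfl
    have e2 : s + 1 + 1 = s + 2 := rfl
    have e3 : r + (s + 1) + 2 = r + 1 + s + 2 := by ring
    rw [e2, e3] at h3
    rw [e1]
    linear_combination h3 + co f (p ^ (s + 1)) * h2 - co f (p ^ (r + 1)) * h1

theorem HFM_pps {f : S2 N} (hf : IsNew f) {p : ℕ} (hp : p.Prime) (hpN : p ≠ N) (r : ℕ) : ∀ s : ℕ,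
    co f (p ^ r) * co f (p ^ s) =
      ∑ i ∈ Finset.range (min r s + 1), (p : ℂ) ^ i * co f (p ^ (r + s - 2 * i)) := by
  have h0 : co f (p ^ 0) = 1 := by rw [pow_zero]; exact hf.one
  induction r with
  | zero =>
    intro s
    rw [h0]
    simp
  | succ r ih =>
    intro s
    cases s with
    | zero =>
      rw [h0]
      simp
    | succ s =>
      rw [HFM_pp hf hp hpN, ih s]
      have hmin : min (r + 1) (s + 1) + 1 = (min r s + 1) + 1 := by omega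
      rw [hmin, Finset.sum_range_succ' (fun i => (p : ℂ) ^ i * co f (p ^ (r + 1 + (s + 1) - 2 * i)))
        (min r s + 1), Finset.mul_sum, add_comm]
      congr 1
      · refine Finset.sum_congr rfl fun i _ => ?_
        have e : r + 1 + (s + 1) - 2 * (i + 1) = r + s - 2 * i := by omega
        rw [e, pow_succ]
        ring
      · rw [pow_zero, one_mul]
        congr 2
        omega

/-- the Hecke relation for coefficients -/
def HFM_Rel (f : S2 N) (m : ℕ) : Prop :=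
  ∀ n : ℕ, co f m * co f n = ∑ d ∈ (Nat.gcd m n).divisors, (d : ℂ) * co f (m * n / d ^ 2)

theorem HFM_rel_zero (f : S2 N) (m : ℕ) :
    co f m * co f 0 = ∑ d ∈ (Nat.gcd m 0).divisors, (d : ℂ) * co f (m * 0 / d ^ 2) := by
  rw [co_zero, mul_zero, Finset.sum_eq_zero]
  intro d _
  rw [mul_zero, Nat.zero_div, co_zero, mul_zero]

theorem HFM_rel_pp {f : S2 N} (hf : IsNew f) {p : ℕ} (hp : p.Prime) (hpN : p ≠ N) (r : ℕ) :
    HFM_Rel f (p ^ r) := by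
  intro n
  rcases Nat.eq_zero_or_pos n with rfl | hn
  · exact HFM_rel_zero f _
  obtain ⟨s, n', hn', rfl⟩ := Nat.exists_eq_pow_mul_and_not_dvd hn.ne' p hp.ne_one
  have hcop : ∀ k : ℕ, (p ^ k).Coprime n' := fun k =>
    Nat.Coprime.pow_left k ((Nat.Prime.coprime_iff_not_dvd hp).2 hn')
  have hg : Nat.gcd (p ^ r) (p ^ s * n') = p ^ (min r s) := by
    rw [Nat.Coprime.gcd_mul _ (hcop s), (hcop r), mul_one]
    rcases le_total r s with h | h
    · rw [min_eq_left h, Nat.gcd_eq_left (pow_dvd_pow p h)]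
    · rw [min_eq_right h, Nat.gcd_eq_right (pow_dvd_pow p h)]
  rw [hg, Nat.sum_divisors_prime_pow hp, hf.mul _ _ (hcop s), ← mul_assoc, HFM_pps hf hp hpN,
    Finset.sum_mul]
  refine Finset.sum_congr rfl fun i hi => ?_
  have hi' : i ≤ min r s := by
    have := Finset.mem_range.1 hi
    omega
  have e : p ^ r * (p ^ s * n') / (p ^ i) ^ 2 = p ^ (r + s - 2 * i) * n' := by
    apply Nat.div_eq_of_eq_mul_right (by positivity [hp.pos])
    rw [← pow_mul, ← mul_assoc, ← mul_assoc, ← pow_add, ← pow_add]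
    congr 2
    omega
  rw [e, hf.mul _ _ (hcop _)]
  push_cast
  ring

theorem HFM_divsum {a b : ℕ} (h : a.Coprime b) (F : ℕ → ℂ) :
    ∑ x ∈ (a * b).divisors, F x = ∑ y ∈ b.divisors, ∑ x ∈ a.divisors, F (x * y) := by
  rw [Nat.Coprime.divisors_mul h, Finset.sum_map]
  exact (Finset.sum_attach (a.divisors ×ˢ b.divisors) (fun x => F (x.1 * x.2))).trans
    (Finset.sum_product_right _ _ _)

theorem HFM_rel_mul {f : S2 N} (hf : IsNew f) {a b : ℕ} (_ha : 0 < a) (_hb : 0 < b)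
    (hab : a.Coprime b) (h1 : HFM_Rel f a) (h2 : HFM_Rel f b) : HFM_Rel f (a * b) := by
  intro n
  rcases Nat.eq_zero_or_pos n with rfl | hn
  · exact HFM_rel_zero f _
  have hg : Nat.gcd (a * b) n = Nat.gcd a n * Nat.gcd b n := by
    rw [Nat.gcd_comm, Nat.Coprime.gcd_mul _ hab, Nat.gcd_comm n a, Nat.gcd_comm n b]
  have hgc : (Nat.gcd a n).Coprime (Nat.gcd b n) :=
    Nat.Coprime.coprime_dvd_left (Nat.gcd_dvd_left _ _)
      (Nat.Coprime.coprime_dvd_right (Nat.gcd_dvd_left _ _) hab)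
  rw [hg, hf.mul _ _ hab, mul_assoc, h2 n, Finset.mul_sum, HFM_divsum hgc]
  refine Finset.sum_congr rfl fun d hd => ?_
  have hdg : d ∣ Nat.gcd b n := Nat.dvd_of_mem_divisors hd
  have hdb : d ∣ b := hdg.trans (Nat.gcd_dvd_left _ _)
  have hdn : d ∣ n := hdg.trans (Nat.gcd_dvd_right _ _)
  obtain ⟨b', rfl⟩ := hdb
  obtain ⟨n', rfl⟩ := hdn
  have hd0 : 0 < d := Nat.pos_of_ne_zero (by rintro rfl; simp at hn)
  have e1 : d * b' * (d * n') / d ^ 2 = b' * n' :=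
    Nat.div_eq_of_eq_mul_right (by positivity) (by ring)
  have had : a.Coprime d := Nat.Coprime.coprime_dvd_right (Dvd.intro _ rfl) hab
  have hab' : a.Coprime b' := Nat.Coprime.coprime_dvd_right (Dvd.intro_left _ rfl) hab
  have e2 : Nat.gcd a (b' * n') = Nat.gcd a (d * n') := by
    rw [Nat.Coprime.gcd_mul_left_cancel_right _ hab'.symm,
      Nat.Coprime.gcd_mul_left_cancel_right _ had.symm]
  rw [e1]
  have h3 := h1 (b' * n')
  rw [e2] at h3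
  rw [mul_left_comm, h3, Finset.mul_sum]
  refine Finset.sum_congr rfl fun x hx => ?_
  have hxg : x ∣ Nat.gcd a (d * n') := Nat.dvd_of_mem_divisors hx
  have hxa : x ∣ a := hxg.trans (Nat.gcd_dvd_left _ _)
  have hxg' : x ∣ Nat.gcd a (b' * n') := by rw [e2]; exact hxg
  have hxn : x ∣ b' * n' := hxg'.trans (Nat.gcd_dvd_right _ _)
  have e3 : a * (d * b') * (d * n') / (x * d) ^ 2 = a * (b' * n') / x ^ 2 := by
    have e4 : a * (d * b') * (d * n') = (a * (b' * n')) * d ^ 2 := by ring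
    rw [e4, mul_pow, Nat.mul_div_mul_right _ _ (by positivity)]
  rw [e3]
  push_cast
  ring

theorem HFM_rel {f : S2 N} (hf : IsNew f) {m : ℕ} (hm : 0 < m) (hmN : m.Coprime N) :
    HFM_Rel f m := by
  induction m using Nat.recOnPosPrimePosCoprime with
  | prime_pow p n hp hn =>
    apply HFM_rel_pp hf hp
    rintro rfl
    have h1 : p ∣ Nat.gcd (p ^ n) p := Nat.dvd_gcd (dvd_pow_self p hn.ne') dvd_rfl
    rw [hmN] at h1
    exact hp.one_lt.ne' (Nat.dvd_one.1 h1)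
  | zero => exact absurd hm (lt_irrefl 0)
  | one =>
    intro n
    simp [hf.one]
  | coprime a b ha hb hab iha ihb =>
    have ha0 : 0 < a := by omega
    have hb0 : 0 < b := by omega
    exact HFM_rel_mul hf ha0 hb0 hab (iha ha0 (Nat.Coprime.coprime_mul_right hmN))
      (ihb hb0 (Nat.Coprime.coprime_mul_left hmN))

end arith

/-! ### upper triangular matrices -/

/-- all upper triangular matrices `(a b; 0 d)` of determinant `n`, `0 ≤ b < d` -/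
def HFM_AM (n : ℕ) : Finset (ℕ × ℕ × ℕ) :=
  (Finset.range (n + 1) ×ˢ Finset.range (n + 1) ×ˢ Finset.range (n + 1)).filter
    (fun t => t.1 * t.2.2 = n ∧ t.2.1 < t.2.2)

theorem HFM_cube {n a b d : ℕ} (hn : 0 < n) (h1 : a * d = n) (h2 : b < d) :
    0 < a ∧ 0 < d ∧ (a, b, d) ∈ Finset.range (n + 1) ×ˢ Finset.range (n + 1) ×ˢ
      Finset.range (n + 1) := by
  have hd : 0 < d := by omega
  have ha : 0 < a := Nat.pos_of_ne_zero (by rintro rfl; simp at h1; omega)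
  have h3 : a ≤ n := by nlinarith
  have h4 : d ≤ n := by nlinarith
  refine ⟨ha, hd, ?_⟩
  simp only [Finset.mem_product, Finset.mem_range]
  omega

theorem HFM_mem_AM {n : ℕ} (hn : 0 < n) (t : ℕ × ℕ × ℕ) :
    t ∈ HFM_AM n ↔ t.1 * t.2.2 = n ∧ t.2.1 < t.2.2 := by
  obtain ⟨a, b, d⟩ := t
  constructor
  · intro h
    exact (Finset.mem_filter.1 h).2
  · rintro ⟨h1, h2⟩
    exact Finset.mem_filter.2 ⟨(HFM_cube hn h1 h2).2.2, h1, h2⟩

theorem HFM_mem_PMat {n : ℕ} (hn : 0 < n) (t : ℕ × ℕ × ℕ) :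
    t ∈ PMat n ↔ t.1 * t.2.2 = n ∧ t.2.1 < t.2.2 ∧ Nat.gcd (Nat.gcd t.1 t.2.1) t.2.2 = 1 := by
  obtain ⟨a, b, d⟩ := t
  constructor
  · intro h
    exact (Finset.mem_filter.1 h).2
  · rintro ⟨h1, h2, h3⟩
    exact Finset.mem_filter.2 ⟨(HFM_cube hn h1 h2).2.2, h1, h2, h3⟩

theorem HFM_group {m : ℕ} (hm : 0 < m) (g : ℕ × ℕ × ℕ → ℂ) :
    ∑ t ∈ HFM_AM m, g t = ∑ k ∈ (Finset.Icc 1 m).filter (fun k => k ^ 2 ∣ m),
      ∑ t ∈ PMat (m / k ^ 2), g (k * t.1, k * t.2.1, k * t.2.2) := by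
  rw [Finset.sum_sigma']
  symm
  refine Finset.sum_nbij' (i := fun x => (x.1 * x.2.1, x.1 * x.2.2.1, x.1 * x.2.2.2))
    (j := fun t => ⟨Nat.gcd (Nat.gcd t.1 t.2.1) t.2.2,
      (t.1 / Nat.gcd (Nat.gcd t.1 t.2.1) t.2.2, t.2.1 / Nat.gcd (Nat.gcd t.1 t.2.1) t.2.2,
        t.2.2 / Nat.gcd (Nat.gcd t.1 t.2.1) t.2.2)⟩) ?_ ?_ ?_ ?_ ?_
  · rintro ⟨k, a, b, d⟩ hx
    rw [Finset.mem_sigma, Finset.mem_filter, Finset.mem_Icc] at hx
    obtain ⟨⟨⟨hk1, hk2⟩, hk3⟩, hx⟩ := hx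
    dsimp only at hx hk1 hk2 hk3 ⊢
    have h0 : 0 < m / k ^ 2 := Nat.div_pos (Nat.le_of_dvd hm hk3) (by positivity)
    rw [HFM_mem_PMat h0] at hx
    dsimp only at hx
    rw [HFM_mem_AM hm]
    dsimp only
    refine ⟨?_, Nat.mul_lt_mul_of_pos_left hx.2.1 (by omega)⟩
    calc k * a * (k * d) = k ^ 2 * (a * d) := by ring
      _ = m := by rw [hx.1, Nat.mul_div_cancel' hk3]
  · rintro ⟨a, b, d⟩ ht
    rw [HFM_mem_AM hm] at ht
    dsimp only at ht ⊢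
    obtain ⟨ha, hd, -⟩ := HFM_cube hm ht.1 ht.2
    set k := Nat.gcd (Nat.gcd a b) d with hk
    have hk0 : 0 < k := Nat.gcd_pos_of_pos_right _ hd
    have hka : k ∣ a := (Nat.gcd_dvd_left _ _).trans (Nat.gcd_dvd_left _ _)
    have hkb : k ∣ b := (Nat.gcd_dvd_left _ _).trans (Nat.gcd_dvd_right _ _)
    have hkd : k ∣ d := Nat.gcd_dvd_right _ _
    have hk2 : k ^ 2 ∣ m := by
      rw [← ht.1, sq]
      exact mul_dvd_mul hka hkd
    have hkm : k ≤ m := (Nat.le_of_dvd hd hkd).trans (by nlinarith [ht.1])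
    have h0 : 0 < m / k ^ 2 := Nat.div_pos (Nat.le_of_dvd hm hk2) (by positivity)
    rw [Finset.mem_sigma, Finset.mem_filter, Finset.mem_Icc]
    refine ⟨⟨⟨hk0, hkm⟩, hk2⟩, ?_⟩
    dsimp only
    rw [HFM_mem_PMat h0]
    dsimp only
    refine ⟨?_, ?_, ?_⟩
    · rw [Nat.div_mul_div_comm hka hkd, ht.1, sq]
    · exact Nat.div_lt_div_of_lt_of_dvd hkd ht.2
    · rw [Nat.gcd_div hka hkb, Nat.gcd_div (Nat.gcd_dvd_left _ _) hkd, ← hk, Nat.div_self hk0]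
  · rintro ⟨k, a, b, d⟩ hx
    rw [Finset.mem_sigma, Finset.mem_filter, Finset.mem_Icc] at hx
    obtain ⟨⟨⟨hk1, hk2⟩, hk3⟩, hx⟩ := hx
    dsimp only at hx hk1 hk2 hk3 ⊢
    have h0 : 0 < m / k ^ 2 := Nat.div_pos (Nat.le_of_dvd hm hk3) (by positivity)
    rw [HFM_mem_PMat h0] at hx
    dsimp only at hx
    have hg : Nat.gcd (Nat.gcd (k * a) (k * b)) (k * d) = k := by
      rw [Nat.gcd_mul_left, Nat.gcd_mul_left, hx.2.2, mul_one]
    rw [hg, Nat.mul_div_cancel_left _ (by omega), Nat.mul_div_cancel_left _ (by omega),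
      Nat.mul_div_cancel_left _ (by omega)]
  · rintro ⟨a, b, d⟩ ht
    dsimp only
    rw [Nat.mul_div_cancel' ((Nat.gcd_dvd_left _ _).trans (Nat.gcd_dvd_left _ _)),
      Nat.mul_div_cancel' ((Nat.gcd_dvd_left _ _).trans (Nat.gcd_dvd_right _ _)),
      Nat.mul_div_cancel' (Nat.gcd_dvd_right _ _)]
  · rintro ⟨k, a, b, d⟩ hx
    rfl

theorem HFM_AM_sum {m : ℕ} (hm : 0 < m) (g : ℕ × ℕ × ℕ → ℂ) :
    ∑ t ∈ HFM_AM m, g t = ∑ a ∈ m.divisors, ∑ b ∈ Finset.range (m / a), g (a, b, m / a) := by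
  rw [Finset.sum_sigma']
  symm
  refine Finset.sum_nbij' (i := fun x => (x.1, x.2, m / x.1)) (j := fun t => ⟨t.1, t.2.1⟩)
    ?_ ?_ ?_ ?_ ?_
  · rintro ⟨a, b⟩ hx
    rw [Finset.mem_sigma, Nat.mem_divisors, Finset.mem_range] at hx
    rw [HFM_mem_AM hm]
    exact ⟨Nat.mul_div_cancel' hx.1.1, hx.2⟩
  · rintro ⟨a, b, d⟩ ht
    rw [HFM_mem_AM hm] at ht
    dsimp only at ht ⊢
    obtain ⟨ha, hd, -⟩ := HFM_cube hm ht.1 ht.2
    rw [Finset.mem_sigma, Nat.mem_divisors, Finset.mem_range]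
    refine ⟨⟨Dvd.intro _ ht.1, hm.ne'⟩, ?_⟩
    dsimp only
    rw [← ht.1, Nat.mul_div_cancel_left _ ha]
    exact ht.2
  · rintro ⟨a, b⟩ hx
    rfl
  · rintro ⟨a, b, d⟩ ht
    rw [HFM_mem_AM hm] at ht
    dsimp only at ht ⊢
    obtain ⟨ha, hd, -⟩ := HFM_cube hm ht.1 ht.2
    rw [← ht.1, Nat.mul_div_cancel_left _ ha]
  · rintro ⟨a, b⟩ hx
    rfl

/-! ### the points -/

theorem HFM_hz {t : ℕ × ℕ × ℕ} (ha : 0 < t.1) (hd : 0 < t.2.2) (z : ℍ) :
    ((hz t z : ℍ) : ℂ) = ((t.1 : ℂ) * (z : ℂ) + (t.2.1 : ℂ)) / (t.2.2 : ℂ) := by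
  rw [hz, UpperHalfPlane.ofComplex_apply_of_im_pos]
  rw [Complex.div_natCast_im, Complex.add_im, Complex.natCast_im, add_zero, Complex.mul_im,
    Complex.natCast_re, Complex.natCast_im, zero_mul, add_zero]
  have h1 : (0 : ℝ) < t.1 := by exact_mod_cast ha
  have h2 : (0 : ℝ) < t.2.2 := by exact_mod_cast hd
  exact div_pos (mul_pos h1 z.im_pos) h2

theorem HFM_hz_smul {k : ℕ} (hk : 0 < k) {t : ℕ × ℕ × ℕ} (ha : 0 < t.1) (hd : 0 < t.2.2) (z : ℍ) :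
    hz (k * t.1, k * t.2.1, k * t.2.2) z = hz t z := by
  apply UpperHalfPlane.ext
  rw [HFM_hz (t := (k * t.1, k * t.2.1, k * t.2.2)) (Nat.mul_pos hk ha) (Nat.mul_pos hk hd),
    HFM_hz ha hd]
  have h1 : (k : ℂ) ≠ 0 := by exact_mod_cast hk.ne'
  have h2 : (t.2.2 : ℂ) ≠ 0 := by exact_mod_cast hd.ne'
  push_cast
  field_simp

section
variable {N : ℕ} [Fact N.Prime]

theorem HFM_pm_smul {k : ℕ} (hk : (k : ZMod N) ≠ 0) (t : ℕ × ℕ × ℕ) (q : PX N) :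
    pm (k * t.1, k * t.2.1, k * t.2.2) q = pm t q := by
  cases q with
  | none => rfl
  | some x =>
    simp only [pm]
    congr 1
    push_cast
    have e : (k : ZMod N) * (t.1 : ZMod N) * x + (k : ZMod N) * (t.2.1 : ZMod N) =
        (k : ZMod N) * ((t.1 : ZMod N) * x + (t.2.1 : ZMod N)) := by ring
    rw [e, mul_div_mul_left _ _ hk]

theorem HFM_cast_ne {k m : ℕ} (hmN : m.Coprime N) (hk : k ∣ m) : (k : ZMod N) ≠ 0 := by
  rw [Ne, ZMod.natCast_eq_zero_iff]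
  intro h
  have h1 : N ∣ m := h.trans hk
  have h2 : N ∣ 1 := by
    rw [← hmN]
    exact Nat.dvd_gcd h1 dvd_rfl
  exact (Fact.out : N.Prime).one_lt.ne' (Nat.dvd_one.1 h2)

/-- the matrix of `t` over `ℤ/N` -/
noncomputable def HFM_gl (t : ℕ × ℕ × ℕ) (h : (t.1 : ZMod N) * (t.2.2 : ZMod N) ≠ 0) :
    GL (Fin 2) (ZMod N) :=
  Matrix.GeneralLinearGroup.mkOfDetNeZero !![(t.1 : ZMod N), (t.2.1 : ZMod N); 0, (t.2.2 : ZMod N)]
    (by rw [Matrix.det_fin_two_of]; simpa using h)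

theorem HFM_gl_coe (t : ℕ × ℕ × ℕ) (h : (t.1 : ZMod N) * (t.2.2 : ZMod N) ≠ 0) :
    ((HFM_gl t h : GL (Fin 2) (ZMod N)) : Matrix (Fin 2) (Fin 2) (ZMod N)) =
      !![(t.1 : ZMod N), (t.2.1 : ZMod N); 0, (t.2.2 : ZMod N)] := rfl

theorem HFM_pm_eq (t : ℕ × ℕ × ℕ) (h : (t.1 : ZMod N) * (t.2.2 : ZMod N) ≠ 0) (q : PX N) :
    pm t q = HFM_gl t h • q := by
  have hd : (t.2.2 : ZMod N) ≠ 0 := right_ne_zero_of_mul h
  cases q with
  | none =>
    have h1 := OnePoint.smul_infty_eq_ite (HFM_gl t h)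
    rw [HFM_gl_coe] at h1
    simp only [Matrix.of_apply, Matrix.cons_val_zero, Matrix.cons_val_one, Matrix.cons_val',
      Matrix.cons_val_fin_one, if_true] at h1
    exact h1.symm
  | some x =>
    have h1 := OnePoint.smul_some_eq_ite (g := HFM_gl t h) (k := x)
    rw [HFM_gl_coe] at h1
    simp only [Matrix.of_apply, Matrix.cons_val_zero, Matrix.cons_val_one, Matrix.cons_val',
      Matrix.cons_val_fin_one, zero_mul, zero_add, if_neg hd] at h1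
    exact h1.symm

/-- the relation `t g = g' t'` of integral matrices -/
def HFM_R (t : ℕ × ℕ × ℕ) (g g' : SL(2, ℤ)) (t' : ℕ × ℕ × ℕ) : Prop :=
  !![(t.1 : ℤ), (t.2.1 : ℤ); 0, (t.2.2 : ℤ)] * (g : Matrix (Fin 2) (Fin 2) ℤ) =
    (g' : Matrix (Fin 2) (Fin 2) ℤ) * !![(t'.1 : ℤ), (t'.2.1 : ℤ); 0, (t'.2.2 : ℤ)]

theorem HFM_R_pm {m : ℕ} (hmN : m.Coprime N) {t t' : ℕ × ℕ × ℕ} {g g' : SL(2, ℤ)}
    (ht : t.1 * t.2.2 = m) (ht' : t'.1 * t'.2.2 = m) (h : HFM_R t g g' t') (q : PX N) :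
    pm t (pa g q) = pa g' (pm t' q) := by
  have h0 : (m : ZMod N) ≠ 0 := HFM_cast_ne hmN dvd_rfl
  have h1 : (t.1 : ZMod N) * (t.2.2 : ZMod N) ≠ 0 := by
    rw [← Nat.cast_mul, ht]; exact h0
  have h2 : (t'.1 : ZMod N) * (t'.2.2 : ZMod N) ≠ 0 := by
    rw [← Nat.cast_mul, ht']; exact h0
  rw [HFM_pm_eq t h1, HFM_pm_eq t' h2, pa, pa, ← mul_smul, ← mul_smul]
  congr 1
  apply Units.ext
  have h3 : ∀ g : SL(2, ℤ), ((Matrix.SpecialLinearGroup.mapGL (ZMod N) g : GL (Fin 2) (ZMod N)) :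
      Matrix (Fin 2) (Fin 2) (ZMod N)) = (g : Matrix (Fin 2) (Fin 2) ℤ).map (Int.castRingHom _) := by
    intro g
    ext i j
    simp
  have h4 : ∀ t : ℕ × ℕ × ℕ, !![(t.1 : ZMod N), (t.2.1 : ZMod N); 0, (t.2.2 : ZMod N)] =
      (!![(t.1 : ℤ), (t.2.1 : ℤ); 0, (t.2.2 : ℤ)] : Matrix (Fin 2) (Fin 2) ℤ).map
        (Int.castRingHom (ZMod N)) := by
    intro t
    ext i j
    fin_cases i <;> fin_cases j <;> simp
  rw [Matrix.GeneralLinearGroup.coe_mul, Matrix.GeneralLinearGroup.coe_mul, HFM_gl_coe, HFM_gl_coe,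
    h3, h3, h4, h4, ← Matrix.map_mul, ← Matrix.map_mul]
  rw [HFM_R] at h
  rw [h]

end

theorem HFM_jd_ne (g : SL(2, ℤ)) (z : ℍ) : jd g z ≠ 0 := by
  have h : denom g z = jd g z := by rw [denom_apply, jd]
  rw [← h]
  exact denom_ne_zero _ _

theorem HFM_smul_coe (g : SL(2, ℤ)) (z : ℍ) :
    ((g • z : ℍ) : ℂ) = (((g 0 0 : ℤ) : ℂ) * z + ((g 0 1 : ℤ) : ℂ)) / jd g z := by
  rw [UpperHalfPlane.specialLinearGroup_apply, jd]
  simp

theorem HFM_R_hz {t t' : ℕ × ℕ × ℕ} {g g' : SL(2, ℤ)} (ha : 0 < t.1) (hd : 0 < t.2.2)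
    (ha' : 0 < t'.1) (hd' : 0 < t'.2.2) (h : HFM_R t g g' t') (z : ℍ) :
    hz t (g • z) = g' • hz t' z ∧ (t.2.2 : ℂ) * jd g z = (t'.2.2 : ℂ) * jd g' (hz t' z) := by
  have hC : ∀ i j : Fin 2, (((!![(t.1 : ℤ), (t.2.1 : ℤ); 0, (t.2.2 : ℤ)] *
      (g : Matrix (Fin 2) (Fin 2) ℤ)) i j : ℤ) : ℂ) = ((((g' : Matrix (Fin 2) (Fin 2) ℤ) *
        !![(t'.1 : ℤ), (t'.2.1 : ℤ); 0, (t'.2.2 : ℤ)]) i j : ℤ) : ℂ) := by
    intro i j
    rw [HFM_R] at h
    rw [h]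
  have h00 := hC 0 0
  have h01 := hC 0 1
  have h10 := hC 1 0
  have h11 := hC 1 1
  simp only [Matrix.mul_apply, Fin.sum_univ_two, Matrix.of_apply, Matrix.cons_val_zero,
    Matrix.cons_val_one, Matrix.cons_val', Matrix.cons_val_fin_one, zero_mul, mul_zero, zero_add,
    add_zero] at h00 h01 h10 h11
  push_cast at h00 h01 h10 h11
  have hdC : (t.2.2 : ℂ) ≠ 0 := by exact_mod_cast hd.ne'
  have hdC' : (t'.2.2 : ℂ) ≠ 0 := by exact_mod_cast hd'.ne'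
  have hu := HFM_hz ha' hd' z
  set u : ℍ := hz t' z with hudef
  have hu' : (t'.2.2 : ℂ) * (u : ℂ) = (t'.1 : ℂ) * (z : ℂ) + (t'.2.1 : ℂ) := by
    rw [hu]; field_simp
  have hj := HFM_jd_ne g z
  have hj' := HFM_jd_ne g' u
  have key : (t.2.2 : ℂ) * jd g z = (t'.2.2 : ℂ) * jd g' u := by
    rw [jd, jd]
    linear_combination (z : ℂ) * h10 + h11 - ((g' 1 0 : ℤ) : ℂ) * hu'
  refine ⟨?_, key⟩
  apply UpperHalfPlane.ext
  rw [HFM_hz ha hd, HFM_smul_coe, HFM_smul_coe]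
  have key2 : (t.1 : ℂ) * (((g 0 0 : ℤ) : ℂ) * z + ((g 0 1 : ℤ) : ℂ)) + (t.2.1 : ℂ) * jd g z =
      (t'.2.2 : ℂ) * (((g' 0 0 : ℤ) : ℂ) * u + ((g' 0 1 : ℤ) : ℂ)) := by
    rw [jd]
    linear_combination (z : ℂ) * h00 + h01 - ((g' 0 0 : ℤ) : ℂ) * hu'
  have e1 : ((t.1 : ℂ) * ((((g 0 0 : ℤ) : ℂ) * z + ((g 0 1 : ℤ) : ℂ)) / jd g z) + (t.2.1 : ℂ)) /
      (t.2.2 : ℂ) = ((t.1 : ℂ) * (((g 0 0 : ℤ) : ℂ) * z + ((g 0 1 : ℤ) : ℂ)) +
        (t.2.1 : ℂ) * jd g z) / ((t.2.2 : ℂ) * jd g z) := by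
    field_simp
  rw [e1, key2, key, mul_div_mul_left _ _ hdC']


/-! ### Hermite normal form -/

theorem HFM_exists {m : ℕ} (hm : 0 < m) (A : Matrix (Fin 2) (Fin 2) ℤ) (hA : A.det = m) :
    ∃ (g : SL(2, ℤ)) (t : ℕ × ℕ × ℕ), t ∈ HFM_AM m ∧
      A = (g : Matrix (Fin 2) (Fin 2) ℤ) * !![(t.1 : ℤ), (t.2.1 : ℤ); 0, (t.2.2 : ℤ)] := by
  have hm' : (m : ℤ) ≠ 0 := by exact_mod_cast hm.ne'
  suffices h : ∀ A : FixedDetMatrix (Fin 2) ℤ (m : ℤ), ∃ (g : SL(2, ℤ)) (t : ℕ × ℕ × ℕ),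
      t ∈ HFM_AM m ∧
      A.1 = (g : Matrix (Fin 2) (Fin 2) ℤ) * !![(t.1 : ℤ), (t.2.1 : ℤ); 0, (t.2.2 : ℤ)] from
    h ⟨A, hA⟩
  intro A
  induction A using (FixedDetMatrices.induction_on hm') with
  | h0 A h1 h2 h3 h4 =>
    have hdet := A.2
    rw [Matrix.det_fin_two, h1, mul_zero, sub_zero] at hdet
    have hd : 0 < A.1 1 1 := by
      by_contra hcon
      have hm0 : (0 : ℤ) < m := by exact_mod_cast hm
      nlinarith
    rw [abs_of_nonneg h3, abs_of_pos hd] at h4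
    obtain ⟨a, ha⟩ := Int.eq_ofNat_of_zero_le h2.le
    obtain ⟨b, hb⟩ := Int.eq_ofNat_of_zero_le h3
    obtain ⟨d, hd'⟩ := Int.eq_ofNat_of_zero_le hd.le
    refine ⟨1, (a, b, d), ?_, ?_⟩
    · rw [HFM_mem_AM hm]
      rw [ha, hd'] at hdet
      rw [hb, hd'] at h4
      exact ⟨by exact_mod_cast hdet, by exact_mod_cast h4⟩
    · rw [Matrix.SpecialLinearGroup.coe_one, one_mul]
      ext i j
      fin_cases i <;> fin_cases j
      · exact ha
      · exact hb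
      · exact h1
      · exact hd'
  | hS B hB =>
    obtain ⟨g, t, h1, h2⟩ := hB
    refine ⟨S * g, t, h1, ?_⟩
    rw [FixedDetMatrices.smul_coe, h2, Matrix.SpecialLinearGroup.coe_mul, Matrix.mul_assoc]
  | hT B hB =>
    obtain ⟨g, t, h1, h2⟩ := hB
    refine ⟨T * g, t, h1, ?_⟩
    rw [FixedDetMatrices.smul_coe, h2, Matrix.SpecialLinearGroup.coe_mul, Matrix.mul_assoc]

theorem HFM_unique {m : ℕ} (hm : 0 < m) {t t' : ℕ × ℕ × ℕ} (ht : t ∈ HFM_AM m)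
    (ht' : t' ∈ HFM_AM m) (g : SL(2, ℤ))
    (h : !![(t.1 : ℤ), (t.2.1 : ℤ); 0, (t.2.2 : ℤ)] =
      (g : Matrix (Fin 2) (Fin 2) ℤ) * !![(t'.1 : ℤ), (t'.2.1 : ℤ); 0, (t'.2.2 : ℤ)]) : t = t' := by
  obtain ⟨a, b, d⟩ := t
  obtain ⟨a', b', d'⟩ := t'
  rw [HFM_mem_AM hm] at ht ht'
  dsimp only at ht ht' h
  obtain ⟨ha, hd, -⟩ := HFM_cube hm ht.1 ht.2
  obtain ⟨ha', hd', -⟩ := HFM_cube hm ht'.1 ht'.2
  have hC : ∀ i j : Fin 2, (!![(a : ℤ), (b : ℤ); 0, (d : ℤ)] : Matrix (Fin 2) (Fin 2) ℤ) i j =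
      ((g : Matrix (Fin 2) (Fin 2) ℤ) * !![(a' : ℤ), (b' : ℤ); 0, (d' : ℤ)]) i j := by
    intro i j
    rw [h]
  have h00 := hC 0 0
  have h01 := hC 0 1
  have h10 := hC 1 0
  have h11 := hC 1 1
  simp only [Matrix.mul_apply, Fin.sum_univ_two, Matrix.of_apply, Matrix.cons_val_zero,
    Matrix.cons_val_one, Matrix.cons_val', Matrix.cons_val_fin_one, mul_zero,
    add_zero] at h00 h01 h10 h11
  have hdet : g 0 0 * g 1 1 - g 0 1 * g 1 0 = 1 := by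
    have := g.2
    rw [Matrix.det_fin_two] at this
    exact this
  have g10 : g 1 0 = 0 := by
    rcases mul_eq_zero.1 h10.symm with h | h
    · exact h
    · have : (a' : ℤ) ≠ 0 := by exact_mod_cast ha'.ne'
      exact absurd h this
  rw [g10, mul_zero, sub_zero] at hdet
  have haZ : (0 : ℤ) < a := by exact_mod_cast ha
  have haZ' : (0 : ℤ) < a' := by exact_mod_cast ha'
  have hdZ : (0 : ℤ) < d := by exact_mod_cast hd
  have hdZ' : (0 : ℤ) < d' := by exact_mod_cast hd'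
  have g00p : 0 < g 0 0 := by
    by_contra hcon
    nlinarith
  have g00 : g 0 0 = 1 ∧ g 1 1 = 1 := by
    rcases Int.mul_eq_one_iff_eq_one_or_neg_one.1 hdet with h | h
    · exact h
    · exact absurd h.1 (by intro h'; rw [h'] at g00p; omega)
  rw [g00.1, one_mul] at h00
  rw [g10, g00.2, zero_mul, zero_add, one_mul] at h11
  rw [g00.1, one_mul] at h01
  have hb : (b : ℤ) < d := by exact_mod_cast ht.2
  have hb' : (b' : ℤ) < d' := by exact_mod_cast ht'.2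
  have hb0 : (0 : ℤ) ≤ b := by positivity
  have hb0' : (0 : ℤ) ≤ b' := by positivity
  have g01 : g 0 1 = 0 := by
    rw [← h11] at h01 hb'
    have h5 : g 0 1 < 1 := by
      by_contra hcon
      nlinarith
    have h6 : -1 < g 0 1 := by
      by_contra hcon
      nlinarith
    omega
  rw [g01, zero_mul, add_zero] at h01
  have e1 : a = a' := by exact_mod_cast h00
  have e2 : b = b' := by exact_mod_cast h01
  have e3 : d = d' := by exact_mod_cast h11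
  rw [e1, e2, e3]

/-! ### the Hecke operator on families -/

section
variable {N : ℕ} [Fact N.Prime]

/-- the Hecke operator on families -/
noncomputable def HFM_T (m : ℕ) (F : PX N → ℍ → ℂ) (q : PX N) (z : ℍ) : ℂ :=
  ∑ t ∈ HFM_AM m, ((m : ℂ) / (t.2.2 : ℂ) ^ 2) * F (pm t q) (hz t z)

theorem HFM_T_equi {m : ℕ} (hm : 0 < m) (hmN : m.Coprime N) {F : PX N → ℍ → ℂ} (hF : Equi F) :
    Equi (HFM_T m F) := by
  intro g q z
  have hex : ∀ t : ℕ × ℕ × ℕ, t ∈ HFM_AM m → ∃ x : SL(2, ℤ) × (ℕ × ℕ × ℕ),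
      x.2 ∈ HFM_AM m ∧ HFM_R t g x.1 x.2 := by
    intro t ht
    rw [HFM_mem_AM hm] at ht
    obtain ⟨g', t', h1, h2⟩ := HFM_exists hm
      (!![(t.1 : ℤ), (t.2.1 : ℤ); 0, (t.2.2 : ℤ)] * (g : Matrix (Fin 2) (Fin 2) ℤ)) (by
        rw [Matrix.det_mul, Matrix.det_fin_two_of, mul_zero, sub_zero,
          Matrix.SpecialLinearGroup.det_coe, mul_one]
        exact_mod_cast ht.1)
    exact ⟨(g', t'), h1, h2⟩
  choose! φ hφ1 hφ2 using hex
  have hinj : Set.InjOn (fun t => (φ t).2) (HFM_AM m : Set (ℕ × ℕ × ℕ)) := by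
    intro t ht s hs hts
    have h1 := hφ2 t ht
    have h2 := hφ2 s hs
    dsimp only at hts
    rw [HFM_R] at h1 h2
    rw [hts] at h1
    refine HFM_unique hm ht hs ((φ t).1 * (φ s).1⁻¹) ?_
    have hgg : (g : Matrix (Fin 2) (Fin 2) ℤ) * ((g⁻¹ : SL(2, ℤ)) : Matrix (Fin 2) (Fin 2) ℤ) = 1 := by
      rw [← Matrix.SpecialLinearGroup.coe_mul, mul_inv_cancel, Matrix.SpecialLinearGroup.coe_one]
    have hss : (((φ s).1⁻¹ : SL(2, ℤ)) : Matrix (Fin 2) (Fin 2) ℤ) *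
        ((φ s).1 : Matrix (Fin 2) (Fin 2) ℤ) = 1 := by
      rw [← Matrix.SpecialLinearGroup.coe_mul, inv_mul_cancel, Matrix.SpecialLinearGroup.coe_one]
    have h3 : !![((φ s).2.1 : ℤ), ((φ s).2.2.1 : ℤ); 0, ((φ s).2.2.2 : ℤ)] =
        (((φ s).1⁻¹ : SL(2, ℤ)) : Matrix (Fin 2) (Fin 2) ℤ) *
          (!![(s.1 : ℤ), (s.2.1 : ℤ); 0, (s.2.2 : ℤ)] * (g : Matrix (Fin 2) (Fin 2) ℤ)) := by
      rw [h2, ← Matrix.mul_assoc, hss, Matrix.one_mul]
    rw [h3] at h1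
    calc !![(t.1 : ℤ), (t.2.1 : ℤ); 0, (t.2.2 : ℤ)]
        = (!![(t.1 : ℤ), (t.2.1 : ℤ); 0, (t.2.2 : ℤ)] * (g : Matrix (Fin 2) (Fin 2) ℤ)) *
          ((g⁻¹ : SL(2, ℤ)) : Matrix (Fin 2) (Fin 2) ℤ) := by
          rw [Matrix.mul_assoc, hgg, Matrix.mul_one]
      _ = _ := by
          rw [h1, Matrix.SpecialLinearGroup.coe_mul]
          simp only [Matrix.mul_assoc]
          rw [hgg, Matrix.mul_one]
  have hmaps : Set.MapsTo (fun t => (φ t).2) (HFM_AM m : Set (ℕ × ℕ × ℕ))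
      (HFM_AM m : Set (ℕ × ℕ × ℕ)) := fun t ht => hφ1 t ht
  have hsurj : Set.SurjOn (fun t => (φ t).2) (HFM_AM m : Set (ℕ × ℕ × ℕ))
      (HFM_AM m : Set (ℕ × ℕ × ℕ)) :=
    Finset.surjOn_of_injOn_of_card_le _ hmaps hinj le_rfl
  rw [HFM_T, HFM_T, Finset.mul_sum]
  refine Finset.sum_nbij (fun t => (φ t).2) (fun t ht => hφ1 t ht) hinj hsurj ?_
  intro t ht
  have hR := hφ2 t ht
  have ht1 := (HFM_mem_AM hm t).1 ht
  have ht2 := (HFM_mem_AM hm _).1 (hφ1 t ht)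
  obtain ⟨ha, hd, -⟩ := HFM_cube hm ht1.1 ht1.2
  obtain ⟨ha', hd', -⟩ := HFM_cube hm ht2.1 ht2.2
  obtain ⟨h1, h2⟩ := HFM_R_hz ha hd ha' hd' hR z
  rw [h1, HFM_R_pm hmN ht1.1 ht2.1 hR, hF]
  have hdC : (t.2.2 : ℂ) ≠ 0 := by exact_mod_cast hd.ne'
  have hdC' : ((φ t).2.2.2 : ℂ) ≠ 0 := by exact_mod_cast hd'.ne'
  have h3 : jd (φ t).1 (hz (φ t).2 z) = (t.2.2 : ℂ) * jd g z / ((φ t).2.2.2 : ℂ) := by
    rw [h2]; field_simp
  rw [h3]
  field_simp

/-! ### the formula at infinity -/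

theorem HFM_orth {e : ℕ} (he : 0 < e) (n : ℕ) :
    ∑ j ∈ Finset.range e, cexp (2 * Real.pi * Complex.I * n * ((j : ℂ) / e)) =
      if e ∣ n then (e : ℂ) else 0 := by
  have heC : (e : ℂ) ≠ 0 := by exact_mod_cast he.ne'
  set ζ : ℂ := cexp (2 * Real.pi * Complex.I * n / e) with hζ
  have h1 : ∀ j : ℕ, cexp (2 * Real.pi * Complex.I * n * ((j : ℂ) / e)) = ζ ^ j := by
    intro j
    rw [hζ, ← Complex.exp_nat_mul]
    congr 1
    field_simp
  rw [Finset.sum_congr rfl (fun j _ => h1 j)]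
  have h2 : ζ ^ e = 1 := by
    rw [hζ, ← Complex.exp_nat_mul]
    have : (e : ℂ) * (2 * Real.pi * Complex.I * n / e) = (n : ℤ) * (2 * Real.pi * Complex.I) := by
      push_cast
      field_simp
    rw [this, Complex.exp_int_mul_two_pi_mul_I]
  by_cases hd : e ∣ n
  · rw [if_pos hd]
    obtain ⟨k, rfl⟩ := hd
    have h3 : ζ = 1 := by
      rw [hζ]
      have : 2 * (Real.pi : ℂ) * Complex.I * ((e * k : ℕ) : ℂ) / e =
          (k : ℤ) * (2 * Real.pi * Complex.I) := by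
        push_cast
        field_simp
      rw [this, Complex.exp_int_mul_two_pi_mul_I]
    rw [h3]
    simp
  · rw [if_neg hd]
    have h3 : ζ ≠ 1 := by
      intro h4
      rw [hζ, Complex.exp_eq_one_iff] at h4
      obtain ⟨k, hk⟩ := h4
      have h5 : (n : ℂ) = k * e := by
        have h6 : (2 * (Real.pi : ℂ) * Complex.I) ≠ 0 := Complex.two_pi_I_ne_zero
        field_simp at hk
        have h7 : (2 * (Real.pi : ℂ) * Complex.I) * n = (2 * (Real.pi : ℂ) * Complex.I) * (k * e) := by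
          linear_combination (2 * (Real.pi : ℂ) * Complex.I) * hk
        exact mul_left_cancel₀ h6 h7
      have h6 : (n : ℤ) = k * e := by exact_mod_cast h5
      apply hd
      rw [← Int.natCast_dvd_natCast]
      exact ⟨k, by rw [h6]; ring⟩
    rw [geom_sum_eq h3, h2, sub_self, zero_div]

theorem HFM_inf_a (f : S2 N) {a d : ℕ} (ha : 0 < a) (hd : 0 < d) (z : ℍ) :
    HasSum (fun n : ℕ => (if a ∣ n then (a : ℂ) * co f (d * (n / a)) else 0) *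
      cexp (2 * Real.pi * Complex.I * n * (z : ℂ)))
      (∑ b ∈ Finset.range d, (((a * d : ℕ) : ℂ) / (d : ℂ) ^ 2) * f (hz (a, b, d) z)) := by
  have hdC : (d : ℂ) ≠ 0 := by exact_mod_cast hd.ne'
  have haC : (a : ℂ) ≠ 0 := by exact_mod_cast ha.ne'
  have h1 : HasSum (fun n : ℕ => ∑ b ∈ Finset.range d, (((a * d : ℕ) : ℂ) / (d : ℂ) ^ 2) *
      (co f n * cexp (2 * Real.pi * Complex.I * n * ((hz (a, b, d) z : ℍ) : ℂ))))
      (∑ b ∈ Finset.range d, (((a * d : ℕ) : ℂ) / (d : ℂ) ^ 2) * f (hz (a, b, d) z)) :=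
    hasSum_sum fun b _ => (qex f (hz (a, b, d) z)).mul_left _
  have h2 : ∀ n : ℕ, ∑ b ∈ Finset.range d, (((a * d : ℕ) : ℂ) / (d : ℂ) ^ 2) *
      (co f n * cexp (2 * Real.pi * Complex.I * n * ((hz (a, b, d) z : ℍ) : ℂ))) =
      (if d ∣ n then (a : ℂ) * co f n else 0) *
        cexp (2 * Real.pi * Complex.I * n * ((a : ℂ) * (z : ℂ) / d)) := by
    intro n
    have h3 : ∀ b : ℕ, (((a * d : ℕ) : ℂ) / (d : ℂ) ^ 2) *
        (co f n * cexp (2 * Real.pi * Complex.I * n * ((hz (a, b, d) z : ℍ) : ℂ))) =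
        ((a : ℂ) / d * co f n * cexp (2 * Real.pi * Complex.I * n * ((a : ℂ) * (z : ℂ) / d))) *
          cexp (2 * Real.pi * Complex.I * n * ((b : ℂ) / d)) := by
      intro b
      rw [HFM_hz (t := (a, b, d)) ha hd]
      have e1 : 2 * Real.pi * Complex.I * n * (((a : ℂ) * (z : ℂ) + (b : ℂ)) / (d : ℂ)) =
          2 * Real.pi * Complex.I * n * ((a : ℂ) * (z : ℂ) / d) +
            2 * Real.pi * Complex.I * n * ((b : ℂ) / d) := by ring
      dsimp only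
      rw [e1, Complex.exp_add]
      push_cast
      field_simp
    rw [Finset.sum_congr rfl fun b _ => h3 b, ← Finset.mul_sum, HFM_orth hd]
    split_ifs with h
    · field_simp
    · simp
  rw [funext h2] at h1
  have h4 : Function.Injective (fun n' : ℕ => d * n') := fun x y h =>
    Nat.eq_of_mul_eq_mul_left hd h
  have h5 := (h4.hasSum_iff (f := fun n : ℕ => (if d ∣ n then (a : ℂ) * co f n else 0) *
    cexp (2 * Real.pi * Complex.I * n * ((a : ℂ) * (z : ℂ) / d))) (a := ∑ b ∈ Finset.range d,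
      (((a * d : ℕ) : ℂ) / (d : ℂ) ^ 2) * f (hz (a, b, d) z)) (by
      intro n hn
      rw [if_neg, zero_mul]
      rintro ⟨k, rfl⟩
      exact hn ⟨k, rfl⟩)).2 h1
  have h6 : Function.Injective (fun n' : ℕ => a * n') := fun x y h =>
    Nat.eq_of_mul_eq_mul_left ha h
  refine (h6.hasSum_iff (f := fun n : ℕ => (if a ∣ n then (a : ℂ) * co f (d * (n / a)) else 0) *
      cexp (2 * Real.pi * Complex.I * n * (z : ℂ))) (by
      intro n hn
      rw [if_neg, zero_mul]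
      rintro ⟨k, rfl⟩
      exact hn ⟨k, rfl⟩)).1 ?_
  refine Eq.mp (congrArg (fun F => HasSum F _) ?_) h5
  funext n
  simp only [Function.comp]
  rw [if_pos (Dvd.intro _ rfl), if_pos (Dvd.intro _ rfl), Nat.mul_div_cancel_left _ ha]
  congr 2
  push_cast
  field_simp

theorem HFM_inf {f : S2 N} (hf : IsNew f) {m : ℕ} (hm : 0 < m) (hmN : m.Coprime N) (z : ℍ) :
    co f m * f z = HFM_T m (fam f) OnePoint.infty z := by
  have h1 : HFM_T m (fam f) OnePoint.infty z =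
      ∑ t ∈ HFM_AM m, ((m : ℂ) / (t.2.2 : ℂ) ^ 2) * f (hz t z) := by
    rw [HFM_T]
    refine Finset.sum_congr rfl fun t _ => ?_
    have e : pm t (OnePoint.infty : PX N) = OnePoint.infty := rfl
    rw [e, fam_inf]
  rw [h1, HFM_AM_sum hm]
  have h2 : HasSum (fun n : ℕ => ∑ a ∈ m.divisors, (if a ∣ n then (a : ℂ) *
      co f (m / a * (n / a)) else 0) * cexp (2 * Real.pi * Complex.I * n * (z : ℂ)))
      (∑ a ∈ m.divisors, ∑ b ∈ Finset.range (m / a), ((m : ℂ) / ((m / a : ℕ) : ℂ) ^ 2) *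
        f (hz (a, b, m / a) z)) := by
    refine hasSum_sum fun a ha => ?_
    have ha' := Nat.dvd_of_mem_divisors ha
    have ha0 : 0 < a := Nat.pos_of_dvd_of_pos ha' hm
    have h3 := HFM_inf_a f ha0 (Nat.div_pos (Nat.le_of_dvd hm ha') ha0) z
    rw [Nat.mul_div_cancel' ha'] at h3
    exact h3
  have h4 := (qex f z).mul_left (co f m)
  refine h4.unique (Eq.mp (congrArg (fun F => HasSum F _) ?_) h2)
  funext n
  rw [← Finset.sum_mul, ← mul_assoc, HFM_rel hf hm hmN n, ← Finset.sum_filter]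
  congr 1
  have e1 : m.divisors.filter (fun a => a ∣ n) = (Nat.gcd m n).divisors := by
    ext a
    rw [Finset.mem_filter, Nat.mem_divisors, Nat.mem_divisors, Nat.dvd_gcd_iff]
    have h5 : Nat.gcd m n ≠ 0 := (Nat.gcd_pos_of_pos_left _ hm).ne'
    exact ⟨fun h => ⟨⟨h.1.1, h.2⟩, h5⟩, fun h => ⟨⟨h.1.1, hm.ne'⟩, h.1.2⟩⟩
  rw [e1]
  refine Finset.sum_congr rfl fun a ha => ?_
  have hag : a ∣ Nat.gcd m n := Nat.dvd_of_mem_divisors ha
  rw [Nat.div_mul_div_comm (hag.trans (Nat.gcd_dvd_left _ _)) (hag.trans (Nat.gcd_dvd_right _ _)),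
    sq]

theorem hecke_fam_pr {f : S2 N} (hf : IsNew f) {m : ℕ} (hm : 0 < m) (hmN : m.Coprime N) (q : PX N)
    (z : ℍ) :
    co f m * fam f q z = ∑ k ∈ (Finset.Icc 1 m).filter (fun k => k ^ 2 ∣ m),
      ∑ t ∈ PMat (m / k ^ 2), (((m / k ^ 2 : ℕ) : ℂ) / (t.2.2 : ℂ) ^ 2) *
        fam f (pm t q) (hz t z) := by
  have h1 : co f m * fam f q z = HFM_T m (fam f) q z := by
    have h2 := fam_equi f (sg q) OnePoint.infty ((sg q)⁻¹ • z)
    have h3 := HFM_T_equi hm hmN (fam_equi f) (sg q) OnePoint.infty ((sg q)⁻¹ • z)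
    rw [pa_sg, smul_inv_smul] at h2 h3
    rw [h2, h3, ← HFM_inf hf hm hmN, fam_inf]
    ring
  rw [h1, HFM_T, HFM_group hm]
  refine Finset.sum_congr rfl fun k hk => Finset.sum_congr rfl fun t ht => ?_
  rw [Finset.mem_filter, Finset.mem_Icc] at hk
  obtain ⟨⟨hk1, hk2⟩, hk3⟩ := hk
  have h0 : 0 < m / k ^ 2 := Nat.div_pos (Nat.le_of_dvd hm hk3) (by positivity)
  rw [HFM_mem_PMat h0] at ht
  obtain ⟨ha, hd, -⟩ := HFM_cube h0 ht.1 ht.2.1
  have hkm : k ∣ m := (dvd_pow_self k two_ne_zero).trans hk3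
  rw [HFM_pm_smul (HFM_cast_ne hmN hkm), HFM_hz_smul hk1 ha hd]
  congr 1
  have hkC : (k : ℂ) ≠ 0 := by exact_mod_cast (by omega : k ≠ 0)
  have hdC : (t.2.2 : ℂ) ≠ 0 := by exact_mod_cast hd.ne'
  rw [Nat.cast_div hk3 (by push_cast; exact pow_ne_zero 2 hkC)]
  push_cast
  field_simp

end

theorem hecke_fam : type_of% @hecke_fam_pr := @hecke_fam_pr

end Pool.Agent.LEV
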