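import Pool.Agent.Lib_helper68.LEV.DefsG
import Pool.Agent.Lib_helper68.LEV.EIA
import Pool.Agent.Lib_helper68.LEV.HFM

/-! Level aspect, block TFM: the Hecke relation for Hecke polynomials. -/

namespace Pool.Agent.LEV

open Complex MeasureTheory Filter Topology UpperHalfPlane ModularGroup ProbabilityTheory
open scoped MatrixGroups Modular ENNReal ModularForm ComplexConjugate ContDiff

section
variable {N : ℕ} [Fact N.Prime]

omit [Fact N.Prime] in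
theorem tfm_mem {n : ℕ} {t : ℕ × ℕ × ℕ} (ht : t ∈ PMat n) :
    t.1 * t.2.2 = n ∧ t.2.1 < t.2.2 := by
  unfold PMat at ht
  rw [Finset.mem_filter] at ht
  exact ⟨ht.2.1, ht.2.2.1⟩

omit [Fact N.Prime] in
theorem tfm_im {n : ℕ} (hn : 0 < n) {t : ℕ × ℕ × ℕ} (ht : t ∈ PMat n) (z : ℍ) :
    (n : ℂ) / (t.2.2 : ℂ) ^ 2 * (z.im : ℂ) = ((hz t z).im : ℂ) := by
  obtain ⟨h1, h2⟩ := tfm_mem ht
  have hd : 0 < t.2.2 := lt_of_le_of_lt (Nat.zero_le _) h2
  have ha : 0 < t.1 := by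
    rcases Nat.eq_zero_or_pos t.1 with h | h
    · rw [h, zero_mul] at h1
      omega
    · exact h
  have hd' : (0 : ℝ) < t.2.2 := by exact_mod_cast hd
  have ha' : (0 : ℝ) < t.1 := by exact_mod_cast ha
  have him : (((t.1 : ℂ) * (z : ℂ) + (t.2.1 : ℂ)) / (t.2.2 : ℂ)).im = t.1 * z.im / t.2.2 := by
    rw [Complex.div_natCast_im, Complex.add_im, Complex.natCast_im, add_zero, Complex.mul_im,
      Complex.natCast_re, Complex.natCast_im, zero_mul, add_zero]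
    rfl
  have hpos : 0 < (((t.1 : ℂ) * (z : ℂ) + (t.2.1 : ℂ)) / (t.2.2 : ℂ)).im := by
    rw [him]
    exact div_pos (mul_pos ha' z.im_pos) hd'
  have h3 : (hz t z).im = t.1 * z.im / t.2.2 := by
    unfold hz
    rw [UpperHalfPlane.ofComplex_apply_of_im_pos hpos]
    exact him
  rw [h3, ← h1]
  have hd3 : (t.2.2 : ℂ) ≠ 0 := by exact_mod_cast hd.ne'
  push_cast
  field_simp

theorem tau_fam_pr {f : S2 N} (hf : IsNew f) {X : ℕ} (hX : X < N) (c : ℕ → ℝ) (q : PX N) (z : ℍ) :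
    (tau f X c : ℂ) * (fam f q z * (z.im : ℂ)) =
      ∑ n ∈ Finset.Icc 1 X, ∑ t ∈ PMat n,
        (((∑ k ∈ (Finset.Icc 1 X).filter (fun k => n * k ^ 2 ≤ X), c (n * k ^ 2) / k) /
          Real.sqrt n : ℝ) : ℂ) * (fam f (pm t q) (hz t z) * ((hz t z).im : ℂ)) := by
  have hNp : N.Prime := Fact.out
  set G : ℕ → ℂ := fun n => ∑ t ∈ PMat n, fam f (pm t q) (hz t z) * ((hz t z).im : ℂ) with hG
  have h1 : ∀ m ∈ Finset.Icc 1 X, ((c m * la f m : ℝ) : ℂ) * (fam f q z * (z.im : ℂ)) =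
      ∑ k ∈ (Finset.Icc 1 m).filter (fun k => k ^ 2 ∣ m),
        ((c m / Real.sqrt m : ℝ) : ℂ) * G (m / k ^ 2) := by
    intro m hm
    rw [Finset.mem_Icc] at hm
    have hm0 : 0 < m := hm.1
    have hmN : m.Coprime N := by
      rw [Nat.coprime_comm]
      exact (Nat.Prime.coprime_iff_not_dvd hNp).mpr
        (fun h => absurd (Nat.le_of_dvd hm0 h) (by omega))
    have h2 := hecke_fam hf hm0 hmN q z
    have h3 : ((la f m : ℝ) : ℂ) = co f m / (Real.sqrt m : ℂ) := by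
      unfold la
      rw [Complex.ofReal_div]
      congr 1
      apply Complex.ext
      · rw [Complex.ofReal_re]
      · rw [Complex.ofReal_im, new_real hf m]
    rw [Complex.ofReal_mul, h3]
    have h4 : (c m : ℂ) * (co f m / (Real.sqrt m : ℂ)) * (fam f q z * (z.im : ℂ)) =
        ((c m / Real.sqrt m : ℝ) : ℂ) * ((co f m * fam f q z) * (z.im : ℂ)) := by
      push_cast
      ring
    rw [h4, h2, Finset.sum_mul, Finset.mul_sum]
    refine Finset.sum_congr rfl (fun k hk => ?_)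
    rw [Finset.mem_filter, Finset.mem_Icc] at hk
    congr 1
    rw [hG, Finset.sum_mul]
    refine Finset.sum_congr rfl (fun t ht => ?_)
    have hn : 0 < m / k ^ 2 :=
      Nat.div_pos (Nat.le_of_dvd hm0 hk.2) (pow_pos (by omega) 2)
    rw [← tfm_im hn ht z]
    ring
  have hL : (tau f X c : ℂ) * (fam f q z * (z.im : ℂ)) =
      ∑ m ∈ Finset.Icc 1 X, ∑ k ∈ (Finset.Icc 1 m).filter (fun k => k ^ 2 ∣ m),
        ((c m / Real.sqrt m : ℝ) : ℂ) * G (m / k ^ 2) := by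
    unfold tau
    rw [Complex.ofReal_sum, Finset.sum_mul]
    exact Finset.sum_congr rfl h1
  have hR : ∑ n ∈ Finset.Icc 1 X, ∑ t ∈ PMat n,
        (((∑ k ∈ (Finset.Icc 1 X).filter (fun k => n * k ^ 2 ≤ X), c (n * k ^ 2) / k) /
          Real.sqrt n : ℝ) : ℂ) * (fam f (pm t q) (hz t z) * ((hz t z).im : ℂ)) =
      ∑ n ∈ Finset.Icc 1 X, ∑ k ∈ (Finset.Icc 1 X).filter (fun k => n * k ^ 2 ≤ X),
        ((c (n * k ^ 2) / k / Real.sqrt n : ℝ) : ℂ) * G n := by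
    refine Finset.sum_congr rfl (fun n _ => ?_)
    rw [← Finset.mul_sum, Finset.sum_div, Complex.ofReal_sum, Finset.sum_mul]
  rw [hL, hR, Finset.sum_sigma', Finset.sum_sigma']
  refine Finset.sum_bij' (fun x _ => (⟨x.1 / x.2 ^ 2, x.2⟩ : (_ : ℕ) × ℕ))
    (fun x _ => (⟨x.1 * x.2 ^ 2, x.2⟩ : (_ : ℕ) × ℕ)) ?_ ?_ ?_ ?_ ?_
  · rintro ⟨m, k⟩ h
    simp only [Finset.mem_sigma, Finset.mem_Icc, Finset.mem_filter] at h ⊢
    obtain ⟨⟨hm1, hmX⟩, ⟨hk1, hkm⟩, hdvd⟩ := h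
    have hk2 : 0 < k ^ 2 := pow_pos (by omega) 2
    have hpos : 0 < m / k ^ 2 := Nat.div_pos (Nat.le_of_dvd hm1 hdvd) hk2
    have hle : m / k ^ 2 ≤ m := Nat.div_le_self _ _
    have hmul : m / k ^ 2 * k ^ 2 = m := Nat.div_mul_cancel hdvd
    exact ⟨⟨hpos, by omega⟩, ⟨hk1, by omega⟩, by omega⟩
  · rintro ⟨n, k⟩ h
    simp only [Finset.mem_sigma, Finset.mem_Icc, Finset.mem_filter] at h ⊢
    obtain ⟨⟨hn1, hnX⟩, ⟨hk1, hkX⟩, hle⟩ := h
    have hk2 : 0 < k ^ 2 := pow_pos (by omega) 2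
    have h5 : 1 ≤ n * k ^ 2 := Nat.mul_pos hn1 hk2
    have h6 : k ≤ n * k ^ 2 := by
      calc k = 1 * k := (one_mul k).symm
        _ ≤ n * (k * k) := by
            rw [← mul_assoc]
            exact Nat.mul_le_mul_right k (Nat.mul_pos hn1 hk1)
        _ = n * k ^ 2 := by ring
    exact ⟨⟨h5, hle⟩, ⟨hk1, h6⟩, Dvd.intro_left n rfl⟩
  · rintro ⟨m, k⟩ h
    simp only [Finset.mem_sigma, Finset.mem_Icc, Finset.mem_filter] at h
    obtain ⟨⟨hm1, hmX⟩, ⟨hk1, hkm⟩, hdvd⟩ := h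
    have hmul : m / k ^ 2 * k ^ 2 = m := Nat.div_mul_cancel hdvd
    simp only [hmul]
  · rintro ⟨n, k⟩ h
    simp only [Finset.mem_sigma, Finset.mem_Icc, Finset.mem_filter] at h
    obtain ⟨⟨hn1, hnX⟩, ⟨hk1, hkX⟩, hle⟩ := h
    have hk2 : 0 < k ^ 2 := pow_pos (by omega) 2
    have h7 : n * k ^ 2 / k ^ 2 = n := Nat.mul_div_cancel n hk2
    simp only [h7]
  · rintro ⟨m, k⟩ h
    simp only [Finset.mem_sigma, Finset.mem_Icc, Finset.mem_filter] at h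
    obtain ⟨⟨hm1, hmX⟩, ⟨hk1, hkm⟩, hdvd⟩ := h
    have hk0 : (0 : ℝ) < k := by exact_mod_cast hk1
    have hmul : m / k ^ 2 * k ^ 2 = m := Nat.div_mul_cancel hdvd
    simp only [hmul]
    congr 2
    have h8 : (m : ℝ) = ((m / k ^ 2 : ℕ) : ℝ) * (k : ℝ) ^ 2 := by
      have := congrArg (fun x : ℕ => (x : ℝ)) hmul
      push_cast at this
      exact this.symm
    have h9 : Real.sqrt m = k * Real.sqrt ((m / k ^ 2 : ℕ) : ℝ) := by
      rw [h8, Real.sqrt_mul (Nat.cast_nonneg _), Real.sqrt_sq hk0.le, mul_comm]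
    rw [h9, div_div]

end

theorem tau_fam : type_of% @tau_fam_pr := @tau_fam_pr

end Pool.Agent.LEV
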