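import Pool.Agent.Lib_helper68.LEV.DefsG
import Pool.Agent.Lib_helper68.LEV.EIA
import Pool.Agent.Lib_helper68.LEV.FRK
import Pool.Agent.Lib_helper68.LEV.GTD
import Pool.Agent.Lib_helper68.LEV.KRN
import Pool.Agent.Lib_helper68.LEV.PET
import Pool.Agent.Lib_helper68.LEV.SUP
import Pool.Agent.Lib_helper68.LEV.TFM

set_option autoImplicit false

namespace Pool.Agent.LEV

open Complex MeasureTheory Filter Topology UpperHalfPlane ModularGroup ProbabilityTheory
open scoped MatrixGroups Modular ENNReal ModularForm ComplexConjugate ContDiff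

section
variable {N : ℕ} [Fact N.Prime]

theorem KGB_fam_add (f g : S2 N) (q : PX N) (z : ℍ) : fam (f + g) q z = fam f q z + fam g q z := by
  unfold fam
  have h : ((f + g : S2 N) : ℍ → ℂ) = (f : ℍ → ℂ) + (g : ℍ → ℂ) := FunLike.coe_add f g
  rw [h, SlashAction.add_slash]
  rfl

theorem KGB_fam_smul (c : ℂ) (f : S2 N) (q : PX N) (z : ℍ) : fam (c • f) q z = c * fam f q z := by
  unfold fam
  have h : ((c • f : S2 N) : ℍ → ℂ) = c • (f : ℍ → ℂ) := rfl
  rw [h, ModularForm.SL_smul_slash]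
  rfl

/-- the coefficients -/
noncomputable def KGB_b (X : ℕ) (c : ℕ → ℝ) (n : ℕ) : ℝ :=
  (∑ k ∈ (Finset.Icc 1 X).filter (fun k => n * k ^ 2 ≤ X), c (n * k ^ 2) / k) / Real.sqrt n

/-- the linear functional -/
noncomputable def KGB_l (X : ℕ) (c : ℕ → ℝ) (q : PX N) (w : ℍ) : S2 N →ₗ[ℂ] ℂ where
  toFun g := ∑ n ∈ Finset.Icc 1 X, ∑ t ∈ PMat n,
    (KGB_b X c n : ℂ) * (fam g (pm t q) (hz t w) * ((hz t w).im : ℂ))
  map_add' g g' := by
    rw [← Finset.sum_add_distrib]
    refine Finset.sum_congr rfl fun n _ => ?_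
    rw [← Finset.sum_add_distrib]
    refine Finset.sum_congr rfl fun t _ => ?_
    rw [KGB_fam_add]
    ring
  map_smul' a g := by
    rw [RingHom.id_apply, smul_eq_mul, Finset.mul_sum]
    refine Finset.sum_congr rfl fun n _ => ?_
    rw [Finset.mul_sum]
    refine Finset.sum_congr rfl fun t _ => ?_
    rw [KGB_fam_smul]
    ring

theorem KGB_l_new {f : S2 N} (hf : IsNew f) {X : ℕ} (hX : X < N) (c : ℕ → ℝ) (q : PX N) (w : ℍ) :
    KGB_l X c q w f = (tau f X c : ℂ) * (fam f q w * (w.im : ℂ)) := by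
  rw [tau_fam hf hX c q w]
  rfl

theorem KGB_norm_new {f : S2 N} (hf : IsNew f) {X : ℕ} (hX : X < N) (c : ℕ → ℝ) (q : PX N) (w : ℍ) :
    ‖KGB_l X c q w f‖ ^ 2 = tau f X c ^ 2 * (‖fam f q w‖ ^ 2 * w.im ^ 2) := by
  rw [KGB_l_new hf hX, norm_mul, norm_mul, mul_pow, mul_pow, Complex.norm_real, Complex.norm_real,
    Real.norm_eq_abs, Real.norm_eq_abs, sq_abs, sq_abs]

theorem KGB_qp (X : ℕ) (c : ℕ → ℝ) :
    QP X c = ∑ n ∈ Finset.Icc 1 X, ∑ _t ∈ PMat n, KGB_b X c n ^ 2 := by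
  unfold QP
  refine Finset.sum_congr rfl fun n _ => ?_
  rw [Finset.sum_const, nsmul_eq_mul]
  unfold KGB_b
  rw [div_pow, Real.sq_sqrt (Nat.cast_nonneg n)]
  ring

theorem KGB_qp_nonneg (X : ℕ) (c : ℕ → ℝ) : 0 ≤ QP X c := by
  rw [KGB_qp]
  exact Finset.sum_nonneg fun n _ => Finset.sum_nonneg fun t _ => sq_nonneg _

theorem KGB_cs {X : ℕ} (c : ℕ → ℝ) (q : PX N) (w : ℍ) (g : S2 N) :
    ‖KGB_l X c q w g‖ ^ 2 ≤ QP X c *
      ∑ n ∈ Finset.Icc 1 X, ∑ t ∈ PMat n, ‖fam g (pm t q) (hz t w)‖ ^ 2 * (hz t w).im ^ 2 := by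
  have h1 : ‖KGB_l X c q w g‖ ≤ ∑ n ∈ Finset.Icc 1 X, ∑ t ∈ PMat n,
      |KGB_b X c n| * (‖fam g (pm t q) (hz t w)‖ * (hz t w).im) := by
    have h0 : KGB_l X c q w g = ∑ n ∈ Finset.Icc 1 X, ∑ t ∈ PMat n,
      (KGB_b X c n : ℂ) * (fam g (pm t q) (hz t w) * ((hz t w).im : ℂ)) := rfl
    rw [h0]
    refine (norm_sum_le _ _).trans (Finset.sum_le_sum fun n _ => ?_)
    refine (norm_sum_le _ _).trans (Finset.sum_le_sum fun t _ => ?_)
    rw [norm_mul, norm_mul, Complex.norm_real, Complex.norm_real, Real.norm_eq_abs,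
      Real.norm_eq_abs, abs_of_pos (hz t w).im_pos]
  have h2 : ∀ F : ℕ → ℕ × ℕ × ℕ → ℝ, ∑ n ∈ Finset.Icc 1 X, ∑ t ∈ PMat n, F n t =
      ∑ x ∈ (Finset.Icc 1 X).sigma PMat, F x.1 x.2 := by
    intro F
    rw [Finset.sum_sigma]
  rw [h2] at h1
  rw [KGB_qp, h2, h2]
  calc ‖KGB_l X c q w g‖ ^ 2 ≤ (∑ x ∈ (Finset.Icc 1 X).sigma PMat,
        |KGB_b X c x.1| * (‖fam g (pm x.2 q) (hz x.2 w)‖ * (hz x.2 w).im)) ^ 2 :=
        pow_le_pow_left₀ (norm_nonneg _) h1 2
    _ ≤ (∑ x ∈ (Finset.Icc 1 X).sigma PMat, |KGB_b X c x.1| ^ 2) *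
        ∑ x ∈ (Finset.Icc 1 X).sigma PMat, (‖fam g (pm x.2 q) (hz x.2 w)‖ * (hz x.2 w).im) ^ 2 :=
        Finset.sum_mul_sq_le_sq_mul_sq _ _ _
    _ = _ := by
        congr 1
        · refine Finset.sum_congr rfl fun x _ => ?_
          rw [sq_abs]
        · refine Finset.sum_congr rfl fun x _ => ?_
          rw [mul_pow]

/-! block KGB -/

theorem kern_good_pr {ι : Type} [Fintype ι] (f : ι → S2 N) (hi : Function.Injective f)
    (hn : ∀ i, IsNew (f i)) (h1 : ∀ i, co (f i) N = 1) {X : ℕ} (hX : X < N) (c : ℕ → ℝ) (q : PX N)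
    (w : ℍ) {ρ : ℝ} (hρ0 : 0 < ρ) (hρ1 : ρ < 1) (hgood : Good X ρ q w) :
    ∑ i, tau (f i) X c ^ 2 * (‖fam (f i) q w‖ ^ 2 * w.im ^ 2) / nr (f i) ≤
      1 / (8 * Real.pi * ρ ^ 2) * QP X c := by
  obtain ⟨W, hW⟩ := fricke_exists (N := N)
  have hB : 0 ≤ 1 / (8 * Real.pi * ρ ^ 2) * QP X c := by
    have := KGB_qp_nonneg X c
    positivity
  have key := kern_gen f (fun i => new_ne_zero (hn i))
    (fun i j hij => new_orth (hn i) (hn j) (fun h => hij (hi h))) (KGB_l X c q w) hB ?_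
  · refine le_trans (le_of_eq ?_) key
    refine Finset.sum_congr rfl fun i _ => ?_
    rw [KGB_norm_new (hn i) hX]
  · intro g hg
    have hWg : W g = -g := by
      refine Submodule.span_induction (p := fun g _ => W g = -g) ?_ ?_ ?_ ?_ hg
      · rintro _ ⟨i, rfl⟩
        have h2 := (new_fricke (hn i) hW).1
        rw [h1 i] at h2
        rw [h2, _root_.neg_smul, one_smul]
      · rw [map_zero, neg_zero]
      · intro a b _ _ ha hb
        rw [map_add, ha, hb, neg_add]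
      · intro a b _ hb
        rw [map_smul, hb, smul_neg]
    have h2 := good_discs hW g (Or.inr hWg) w q hρ0 hρ1 hX hgood
    refine (KGB_cs c q w g).trans ?_
    have h3 : ∑ n ∈ Finset.Icc 1 X, ∑ t ∈ PMat n, ‖fam g (pm t q) (hz t w)‖ ^ 2 * (hz t w).im ^ 2 ≤
        1 / (8 * Real.pi * ρ ^ 2) * nr g := by
      have h4 : 1 / (4 * Real.pi * ρ ^ 2) * nr g = 2 * (1 / (8 * Real.pi * ρ ^ 2) * nr g) := by
        have : Real.pi ≠ 0 := Real.pi_ne_zero
        have : ρ ≠ 0 := hρ0.ne'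
        field_simp
        ring
      rw [h4] at h2
      linarith
    calc QP X c * ∑ n ∈ Finset.Icc 1 X, ∑ t ∈ PMat n,
          ‖fam g (pm t q) (hz t w)‖ ^ 2 * (hz t w).im ^ 2
        ≤ QP X c * (1 / (8 * Real.pi * ρ ^ 2) * nr g) :=
          mul_le_mul_of_nonneg_left h3 (KGB_qp_nonneg X c)
      _ = 1 / (8 * Real.pi * ρ ^ 2) * QP X c * nr g := by ring

end

theorem KGB_mem {n : ℕ} {t : ℕ × ℕ × ℕ} (ht : t ∈ PMat n) : t.1 * t.2.2 = n ∧ t.2.1 < t.2.2 := by
  unfold PMat at ht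
  rw [Finset.mem_filter] at ht
  exact ⟨ht.2.1, ht.2.2.1⟩

theorem KGB_im {n : ℕ} (hn : 1 ≤ n) {t : ℕ × ℕ × ℕ} (ht : t ∈ PMat n) (z : ℍ) :
    (hz t z).im = (t.1 : ℝ) / t.2.2 * z.im := by
  obtain ⟨h1, h2⟩ := KGB_mem ht
  have ha : 0 < t.1 := by
    rcases Nat.eq_zero_or_pos t.1 with h | h
    · rw [h, zero_mul] at h1; omega
    · exact h
  have hd : 0 < t.2.2 := by omega
  have ha' : (0 : ℝ) < t.1 := by exact_mod_cast ha
  have hd' : (0 : ℝ) < t.2.2 := by exact_mod_cast hd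
  have him : (((t.1 : ℂ) * (z : ℂ) + (t.2.1 : ℂ)) / (t.2.2 : ℂ)).im = (t.1 : ℝ) / t.2.2 * z.im := by
    rw [Complex.div_natCast_im, Complex.add_im, Complex.mul_im, Complex.natCast_re,
      Complex.natCast_im, Complex.natCast_im, zero_mul, add_zero, add_zero]
    have : (z : ℂ).im = z.im := rfl
    rw [this]
    ring
  have hpos : 0 < (((t.1 : ℂ) * (z : ℂ) + (t.2.1 : ℂ)) / (t.2.2 : ℂ)).im := by
    rw [him]
    exact mul_pos (div_pos ha' hd') z.im_pos
  unfold hz
  rw [UpperHalfPlane.ofComplex_apply_of_im_pos hpos]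
  exact him

theorem KGB_card {n : ℕ} (hn : 1 ≤ n) : (PMat n).card ≤ n ^ 2 := by
  have h : (PMat n).card ≤ ((Finset.Icc 1 n) ×ˢ (Finset.range n)).card := by
    apply Finset.card_le_card_of_injOn (fun t => (t.2.2, t.2.1))
    · intro t ht
      obtain ⟨h1, h2⟩ := KGB_mem ht
      have hd : t.2.2 ≤ n := Nat.le_of_dvd (by omega) ⟨t.1, by rw [← h1, mul_comm]⟩
      simp only [Finset.coe_product, Set.mem_prod, Finset.mem_coe, Finset.mem_Icc, Finset.mem_range]
      omega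
    · intro t ht t' ht' h
      obtain ⟨h1, h2⟩ := KGB_mem ht
      obtain ⟨h1', h2'⟩ := KGB_mem ht'
      simp only [Prod.mk.injEq] at h
      have h3 : t.1 = t'.1 := by
        have hd : 0 < t.2.2 := by omega
        have : t.1 * t.2.2 = t'.1 * t.2.2 := by rw [h1, h.1, h1']
        exact Nat.eq_of_mul_eq_mul_right hd this
      exact Prod.ext h3 (Prod.ext h.2 h.1)
  refine h.trans ?_
  rw [Finset.card_product, Nat.card_Icc, Finset.card_range, Nat.add_sub_cancel, sq]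

theorem kern_bad_pr : ∃ C : ℝ, 0 < C ∧ ∀ (N : ℕ) [Fact N.Prime] {ι : Type} [Fintype ι]
    (f : ι → S2 N), Function.Injective f → (∀ i, IsNew (f i)) → ∀ {X : ℕ}, X < N → ∀ (c : ℕ → ℝ)
    (q : PX N) (w : ℍ), w ∈ 𝒟 →
    ∑ i, tau (f i) X c ^ 2 * (‖fam (f i) q w‖ ^ 2 * w.im ^ 2) / nr (f i) ≤
      C * (X : ℝ) ^ 5 * w.im * QP X c := by
  obtain ⟨C, hC, hsup⟩ := sup_le_nr
  refine ⟨3 * C, by positivity, ?_⟩
  intro N _ ι _ f hi hn X hX c q w hw
  have hwim : 3 / 4 ≤ w.im ^ 2 := by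
    have := ModularGroup.three_le_four_mul_im_sq_of_mem_fd hw
    linarith
  have hwpos : 0 < w.im := w.im_pos
  have hB : 0 ≤ 3 * C * (X : ℝ) ^ 5 * w.im * QP X c := by
    have := KGB_qp_nonneg X c
    positivity
  have key := kern_gen f (fun i => new_ne_zero (hn i))
    (fun i j hij => new_orth (hn i) (hn j) (fun h => hij (hi h))) (KGB_l X c q w) hB ?_
  · refine le_trans (le_of_eq ?_) key
    refine Finset.sum_congr rfl fun i _ => ?_
    rw [KGB_norm_new (hn i) hX]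
  · intro g _
    refine (KGB_cs c q w g).trans ?_
    have hnr : 0 ≤ nr g := by
      rcases eq_or_ne g 0 with h | h
      · have h1 := pet_self g
        have h2 := pet_smul (0 : ℂ) g g
        rw [zero_smul, zero_mul] at h2
        rw [h] at h1 h2 ⊢
        rw [h2] at h1
        have : nr (0 : S2 N) = 0 := by exact_mod_cast h1.symm
        rw [this]
      · exact (nr_pos h).le
    have h3 : ∑ n ∈ Finset.Icc 1 X, ∑ t ∈ PMat n, ‖fam g (pm t q) (hz t w)‖ ^ 2 * (hz t w).im ^ 2 ≤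
        3 * C * (X : ℝ) ^ 5 * w.im * nr g := by
      calc ∑ n ∈ Finset.Icc 1 X, ∑ t ∈ PMat n, ‖fam g (pm t q) (hz t w)‖ ^ 2 * (hz t w).im ^ 2
          ≤ ∑ n ∈ Finset.Icc 1 X, ∑ t ∈ PMat n, 3 * C * X * w.im * nr g := by
            refine Finset.sum_le_sum fun n hn' => Finset.sum_le_sum fun t ht => ?_
            rw [Finset.mem_Icc] at hn'
            refine (hsup N g (pm t q) (hz t w)).trans ?_
            rw [KGB_im hn'.1 ht]
            obtain ⟨h1, h2⟩ := KGB_mem ht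
            have ha : 0 < t.1 := by
              rcases Nat.eq_zero_or_pos t.1 with h | h
              · rw [h, zero_mul] at h1; omega
              · exact h
            have hd : 0 < t.2.2 := by omega
            have ha2 : t.1 ≤ X := (Nat.le_of_dvd (by omega) ⟨t.2.2, h1.symm⟩).trans hn'.2
            have hd2 : t.2.2 ≤ X := (Nat.le_of_dvd (by omega) ⟨t.1, by rw [← h1, mul_comm]⟩).trans hn'.2
            have ha' : (1 : ℝ) ≤ t.1 := by exact_mod_cast ha
            have hd' : (1 : ℝ) ≤ t.2.2 := by exact_mod_cast hd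
            have ha3 : (t.1 : ℝ) ≤ X := by exact_mod_cast ha2
            have hd3 : (t.2.2 : ℝ) ≤ X := by exact_mod_cast hd2
            have e1 : (t.1 : ℝ) / t.2.2 * w.im ≤ X * w.im := by
              apply mul_le_mul_of_nonneg_right _ hwpos.le
              rw [div_le_iff₀ (by linarith)]
              nlinarith
            have e2 : 1 / ((t.1 : ℝ) / t.2.2 * w.im) ≤ X * (4 / 3 * w.im) := by
              rw [div_le_iff₀ (by positivity)]
              have e3 : (X : ℝ) * (4 / 3 * w.im) * ((t.1 : ℝ) / t.2.2 * w.im) =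
                  (X / t.2.2) * t.1 * (4 / 3 * w.im ^ 2) := by
                field_simp
              rw [e3]
              have e4 : (1 : ℝ) ≤ X / t.2.2 := by
                rw [le_div_iff₀ (by linarith)]
                linarith
              have e5 : (1 : ℝ) ≤ X / t.2.2 * t.1 := by nlinarith
              nlinarith
            have e6 : (t.1 : ℝ) / t.2.2 * w.im + 1 / ((t.1 : ℝ) / t.2.2 * w.im) ≤ 3 * (X * w.im) := by
              have : 0 ≤ (X : ℝ) * w.im := by positivity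
              linarith
            calc C * ((t.1 : ℝ) / t.2.2 * w.im + 1 / ((t.1 : ℝ) / t.2.2 * w.im)) * nr g
                ≤ C * (3 * (X * w.im)) * nr g :=
                  mul_le_mul_of_nonneg_right (mul_le_mul_of_nonneg_left e6 hC.le) hnr
              _ = 3 * C * X * w.im * nr g := by ring
        _ ≤ ∑ n ∈ Finset.Icc 1 X, (X : ℝ) ^ 2 * (3 * C * X * w.im * nr g) := by
            refine Finset.sum_le_sum fun n hn' => ?_
            rw [Finset.mem_Icc] at hn'
            rw [Finset.sum_const, nsmul_eq_mul]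
            apply mul_le_mul_of_nonneg_right _ (by positivity)
            have h5 : (PMat n).card ≤ X ^ 2 :=
              (KGB_card hn'.1).trans (Nat.pow_le_pow_left hn'.2 2)
            exact_mod_cast h5
        _ = 3 * C * (X : ℝ) ^ 4 * w.im * nr g := by
            rw [Finset.sum_const, Nat.card_Icc, nsmul_eq_mul, Nat.add_sub_cancel]
            ring
        _ ≤ 3 * C * (X : ℝ) ^ 5 * w.im * nr g := by
            have h6 : (X : ℝ) ^ 4 ≤ (X : ℝ) ^ 5 := by
              exact_mod_cast (show X ^ 4 ≤ X ^ 5 by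
                rcases Nat.eq_zero_or_pos X with h | h
                · rw [h]; simp
                · exact Nat.pow_le_pow_right h (by norm_num))
            apply mul_le_mul_of_nonneg_right _ hnr
            apply mul_le_mul_of_nonneg_right _ hwpos.le
            exact mul_le_mul_of_nonneg_left h6 (by positivity)
    calc QP X c * ∑ n ∈ Finset.Icc 1 X, ∑ t ∈ PMat n,
          ‖fam g (pm t q) (hz t w)‖ ^ 2 * (hz t w).im ^ 2
        ≤ QP X c * (3 * C * (X : ℝ) ^ 5 * w.im * nr g) :=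
          mul_le_mul_of_nonneg_left h3 (KGB_qp_nonneg X c)
      _ = 3 * C * (X : ℝ) ^ 5 * w.im * QP X c * nr g := by ring

theorem kern_good : type_of% @kern_good_pr := @kern_good_pr
theorem kern_bad : type_of% @kern_bad_pr := @kern_bad_pr

end Pool.Agent.LEV
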