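import Pool.Agent.Lib_helper68.LEV.DefsC
import Pool.Agent.Lib_helper68.LEV.EIA
import Pool.Agent.Lib_helper68.LEV.FRK
import Pool.Agent.Lib_helper68.LEV.FRU
import Pool.Agent.Lib_helper68.LEV.HKA
import Pool.Agent.Lib_helper68.LEV.HKB
import Pool.Agent.Lib_helper68.LEV.PET
import Pool.Agent.Lib_helper68.LEV.QEX
import Pool.Agent.Lib_helper68.LEV.TRC

/-! Block EIB (MP_cc4f83_nt): the number of newforms of prime level is the dimension. -/

namespace Pool.Agent.LEV

open Complex MeasureTheory Filter Topology UpperHalfPlane ModularGroup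
open scoped MatrixGroups Modular ENNReal ModularForm ComplexConjugate ContDiff Function

/-! ### Linear algebra -/

/-- commuting self-adjoint operators: the joint eigenspaces span -/
theorem EIB_joint {V : Type} [AddCommGroup V] [Module ℂ V] [FiniteDimensional ℂ V]
    (B : V → V → ℂ) (hsymm : ∀ x y, starRingEnd ℂ (B y x) = B x y)
    (hadd : ∀ x y z, B (x + y) z = B x z + B y z)
    (hsmul : ∀ x y (r : ℂ), B (r • x) y = starRingEnd ℂ r * B x y)
    (hpos : ∀ x, x ≠ 0 → 0 < (B x x).re) {ι : Type} (T : ι → V →ₗ[ℂ] V)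
    (hT : ∀ i x y, B (T i x) y = B x (T i y)) (hc : Pairwise (Commute on T)) :
    ⨆ χ : ι → ℂ, ⨅ i, Module.End.eigenspace (T i) (χ i) = ⊤ := by
  have h00 : ∀ y, B 0 y = 0 := by
    intro y
    have := hsmul 0 y 0
    simpa using this
  let core : InnerProductSpace.Core ℂ V :=
    { inner := B
      conj_inner_symm := hsymm
      re_inner_nonneg := by
        intro x
        rcases eq_or_ne x 0 with rfl | hx
        · change 0 ≤ (B 0 0).re
          rw [h00]; simp
        · exact (hpos x hx).le
      add_left := hadd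
      smul_left := hsmul
      definite := by
        intro x hx
        by_contra hne
        have h1 := hpos x hne
        have h2 : B x x = 0 := hx
        rw [h2] at h1
        simp at h1 }
  let _ : NormedAddCommGroup V := core.toNormedAddCommGroup
  let _ : InnerProductSpace ℂ V := InnerProductSpace.ofCore core.toCore
  exact LinearMap.IsSymmetric.iSup_iInf_eq_top_of_commute (T := T) (fun i x y => hT i x y) hc

/-- orthogonal vectors are linearly independent -/
theorem EIB_indep {V : Type} [AddCommGroup V] [Module ℂ V]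
    (B : V → V → ℂ) (hsymm : ∀ x y, starRingEnd ℂ (B y x) = B x y)
    (hadd : ∀ x y z, B (x + y) z = B x z + B y z)
    (hsmul : ∀ x y (r : ℂ), B (r • x) y = starRingEnd ℂ r * B x y)
    (hpos : ∀ x, x ≠ 0 → 0 < (B x x).re) {ι : Type} (v : ι → V) (hz : ∀ i, v i ≠ 0)
    (ho : Pairwise fun i j => B (v i) (v j) = 0) : LinearIndependent ℂ v := by
  have h00 : ∀ y, B 0 y = 0 := by
    intro y
    have := hsmul 0 y 0
    simpa using this
  let core : InnerProductSpace.Core ℂ V :=
    { inner := B
      conj_inner_symm := hsymm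
      re_inner_nonneg := by
        intro x
        rcases eq_or_ne x 0 with rfl | hx
        · change 0 ≤ (B 0 0).re
          rw [h00]; simp
        · exact (hpos x hx).le
      add_left := hadd
      smul_left := hsmul
      definite := by
        intro x hx
        by_contra hne
        have h1 := hpos x hne
        have h2 : B x x = 0 := hx
        rw [h2] at h1
        simp at h1 }
  let _ : NormedAddCommGroup V := core.toNormedAddCommGroup
  let _ : InnerProductSpace ℂ V := InnerProductSpace.ofCore core.toCore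
  exact linearIndependent_of_ne_zero_of_inner_eq_zero (𝕜 := ℂ) hz ho

section
variable {N : ℕ} [Fact N.Prime]

/-! ### Hecke operators -/

theorem EIB_comm {p q : ℕ} (hp : p.Prime) (hq : q.Prime) (hpq : p ≠ q)
    {T S : S2 N →ₗ[ℂ] S2 N} (hT : IsHecke p T) (hS : IsHecke q S) :
    Commute T S := by
  have hc : p.Coprime q := (Nat.coprime_primes hp hq).2 hpq
  apply LinearMap.ext
  intro f
  refine co_ext fun n => ?_
  rw [Module.End.mul_apply, Module.End.mul_apply, hT, hS, hS, hS, hT, hT]
  have h1 : q ∣ p * n ↔ q ∣ n := Nat.Coprime.dvd_mul_left hc.symm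
  have h2 : p ∣ q * n ↔ p ∣ n := Nat.Coprime.dvd_mul_left hc
  by_cases hpn : p ∣ n
  · obtain ⟨m, rfl⟩ := hpn
    have e1 : p * m / p = m := Nat.mul_div_cancel_left _ hp.pos
    have h3 : q ∣ p * m ↔ q ∣ m := Nat.Coprime.dvd_mul_left hc.symm
    rw [e1]
    by_cases hqm : q ∣ m
    · obtain ⟨l, rfl⟩ := hqm
      have e2 : q * l / q = l := Nat.mul_div_cancel_left _ hq.pos
      have e3 : p * (q * l) / q = p * l := by
        rw [show p * (q * l) = q * (p * l) by ring]; exact Nat.mul_div_cancel_left _ hq.pos
      have e4 : p * (p * (q * l)) / q = p * (p * l) := by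
        rw [show p * (p * (q * l)) = q * (p * (p * l)) by ring]
        exact Nat.mul_div_cancel_left _ hq.pos
      have e5 : q * (p * (q * l)) / p = q * (q * l) := by
        rw [show q * (p * (q * l)) = p * (q * (q * l)) by ring]
        exact Nat.mul_div_cancel_left _ hp.pos
      have e6 : p * l / p = l := Nat.mul_div_cancel_left _ hp.pos
      have d1 : q ∣ p * (p * (q * l)) := ⟨p * (p * l), by ring⟩
      have d2 : p ∣ p * (q * l) := ⟨_, rfl⟩
      have d3 : q ∣ q * l := ⟨_, rfl⟩
      have d4 : p ∣ q * (p * (q * l)) := ⟨q * (q * l), by ring⟩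
      have d5 : q ∣ p * (q * l) := ⟨p * l, by ring⟩
      have d6 : p ∣ p * l := ⟨_, rfl⟩
      rw [if_pos d1, if_pos d2, if_pos d3, if_pos d4, if_pos d5, e3, if_pos d6, e2, e4, e5, e6]
      rw [show q * (p * (p * (q * l))) = p * (q * (p * (q * l))) by ring,
        show q * (q * l) = q * (q * l) from rfl]
      ring
    · have n1 : ¬ q ∣ p * m := fun h => hqm (h3.1 h)
      have n2 : ¬ q ∣ p * (p * m) := fun h => n1 ((Nat.Coprime.dvd_mul_left hc.symm).1 h)
      have d2 : p ∣ p * m := ⟨_, rfl⟩
      have d4 : p ∣ q * (p * m) := ⟨q * m, by ring⟩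
      have e5 : q * (p * m) / p = q * m := by
        rw [show q * (p * m) = p * (q * m) by ring]
        exact Nat.mul_div_cancel_left _ hp.pos
      rw [if_neg n2, if_pos d2, if_neg hqm, if_pos d4, if_neg n1, e5,
        show q * (p * (p * m)) = p * (q * (p * m)) by ring]
      ring
  · have n1 : ¬ p ∣ q * n := fun h => hpn (h2.1 h)
    rw [if_neg hpn, if_neg n1]
    by_cases hqn : q ∣ n
    · obtain ⟨l, rfl⟩ := hqn
      have e2 : q * l / q = l := Nat.mul_div_cancel_left _ hq.pos
      have e3 : p * (q * l) / q = p * l := by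
        rw [show p * (q * l) = q * (p * l) by ring]; exact Nat.mul_div_cancel_left _ hq.pos
      have d1 : q ∣ p * (q * l) := ⟨p * l, by ring⟩
      have d3 : q ∣ q * l := ⟨_, rfl⟩
      have n3 : ¬ p ∣ l := fun h => hpn (h.mul_left q)
      rw [if_pos d1, if_pos d3, e2, e3, if_neg n3,
        show q * (p * (q * l)) = p * (q * (q * l)) by ring]
      ring
    · have n2 : ¬ q ∣ p * n := fun h => hqn (h1.1 h)
      rw [if_neg n2, if_neg hqn, show q * (p * n) = p * (q * n) by ring]

theorem EIB_comm_fricke {p : ℕ} (hp : p.Prime) (hpN : p ≠ N)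
    {T W : S2 N →ₗ[ℂ] S2 N} (hT : IsHecke p T) (hW : IsFricke W) : Commute T W := by
  have hN : N.Prime := Fact.out
  have hc : p.Coprime N := (Nat.coprime_primes hp hN).2 hpN
  apply LinearMap.ext
  intro f
  refine co_ext fun n => ?_
  rw [Module.End.mul_apply, Module.End.mul_apply, hT, fricke_coeff hW, fricke_coeff hW,
    fricke_coeff hW, hT]
  have h1 : p ∣ N * n ↔ p ∣ n := Nat.Coprime.dvd_mul_left hc
  by_cases hpn : p ∣ n
  · obtain ⟨m, rfl⟩ := hpn
    have e1 : p * m / p = m := Nat.mul_div_cancel_left _ hp.pos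
    have e2 : N * (p * m) / p = N * m := by
      rw [show N * (p * m) = p * (N * m) by ring]; exact Nat.mul_div_cancel_left _ hp.pos
    rw [if_pos ⟨m, rfl⟩, if_pos (h1.2 ⟨m, rfl⟩), e1, e2,
      show N * (p * (p * m)) = p * (N * (p * m)) by ring]
    ring
  · rw [if_neg hpn, if_neg (fun h => hpn (h1.1 h)), show N * (p * n) = p * (N * n) by ring]
    ring

/-- if `f` is a joint eigenvector with `a(1) = 1` then `f` is a newform -/
theorem EIB_new {f : S2 N} (h1 : co f 1 = 1)
    (h : ∀ p : ℕ, p.Prime → p ≠ N → ∀ n : ℕ,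
      co f (p * n) + (if p ∣ n then (p : ℂ) * co f (n / p) else 0) = co f p * co f n)
    (hl : ∀ n : ℕ, co f (N * n) = co f N * co f n) : IsNew f := by
  have hmul : ∀ m n : ℕ, m.Coprime n → co f (m * n) = co f m * co f n := by
    intro m
    induction m using Nat.strong_induction_on with
    | _ m ih =>
      intro n hmn
      rcases Nat.eq_zero_or_pos m with rfl | hm
      · have hn : n = 1 := by simpa using hmn
        subst hn
        rw [zero_mul, co_zero, zero_mul]
      rcases Nat.lt_or_ge m 2 with hm2 | hm2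
      · have hm1 : m = 1 := by omega
        subst hm1
        rw [one_mul, h1, one_mul]
      obtain ⟨p, hp, hpm⟩ := Nat.exists_prime_and_dvd (show m ≠ 1 by omega)
      obtain ⟨m', rfl⟩ := hpm
      have hm'0 : 0 < m' := by
        rcases Nat.eq_zero_or_pos m' with h' | h'
        · simp [h'] at hm
        · exact h'
      have hlt : m' < p * m' := by
        have := hp.two_le
        nlinarith
      have hc' : m'.Coprime n := Nat.Coprime.coprime_dvd_left ⟨p, by ring⟩ hmn
      have hpn : p.Coprime n := Nat.Coprime.coprime_dvd_left ⟨m', rfl⟩ hmn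
      have e3 := ih m' hlt n hc'
      by_cases hpN : p = N
      · subst hpN
        rw [show p * m' * n = p * (m' * n) by ring, hl, hl, e3]
        ring
      have e1 := h p hp hpN (m' * n)
      have e2 := h p hp hpN m'
      have hd : p ∣ m' * n ↔ p ∣ m' := Nat.Coprime.dvd_mul_right hpn
      by_cases hpm' : p ∣ m'
      · obtain ⟨l, rfl⟩ := hpm'
        have hl : l < p * (p * l) := by
          have := hp.two_le
          rcases Nat.eq_zero_or_pos l with h' | h'
          · simp [h'] at hm'0
          · nlinarith [Nat.mul_le_mul this (Nat.le_refl l)]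
        have hcl : l.Coprime n := Nat.Coprime.coprime_dvd_left ⟨p * p, by ring⟩ hmn
        have e4 := ih l hl n hcl
        have d1 : p * l * n / p = l * n := by
          rw [show p * l * n = p * (l * n) by ring]
          exact Nat.mul_div_cancel_left _ hp.pos
        have d2 : p * l / p = l := Nat.mul_div_cancel_left _ hp.pos
        rw [if_pos (hd.2 ⟨l, rfl⟩), d1, e3, e4] at e1
        rw [if_pos ⟨l, rfl⟩, d2] at e2
        rw [show p * (p * l) * n = p * (p * l * n) by ring]
        linear_combination e1 - co f n * e2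
      · rw [if_neg (fun h => hpm' (hd.1 h)), e3] at e1
        rw [if_neg hpm'] at e2
        rw [show p * m' * n = p * (m' * n) by ring]
        linear_combination e1 - co f n * e2
  refine ⟨h1, hmul, ?_, ?_⟩
  · intro p r hp hpN
    have e1 := h p hp hpN (p ^ (r + 1))
    have d1 : p ^ (r + 1) / p = p ^ r := by
      rw [pow_succ]; exact Nat.mul_div_cancel _ hp.pos
    rw [if_pos ⟨p ^ r, by ring⟩, d1, show p * p ^ (r + 1) = p ^ (r + 2) by ring] at e1
    linear_combination e1
  · intro r
    induction r with
    | zero => rw [zero_add, pow_one, pow_one]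
    | succ r ih =>
      rw [show N ^ (r + 1 + 1) = N * N ^ (r + 1) by ring, hl, ih]
      ring

/-- a joint eigenvector with `a(1) = 0` vanishes -/
theorem EIB_van {f : S2 N} {χ : ℕ → ℂ} (h1 : co f 1 = 0)
    (h : ∀ p : ℕ, p.Prime → p ≠ N → ∀ n : ℕ,
      co f (p * n) + (if p ∣ n then (p : ℂ) * co f (n / p) else 0) = χ p * co f n)
    (hl : ∀ n : ℕ, co f (N * n) = χ N * co f n) : f = 0 := by
  have h0 : ∀ n, co f n = 0 := by
    intro n
    induction n using Nat.strong_induction_on with
    | _ n ih =>
      rcases Nat.eq_zero_or_pos n with rfl | hn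
      · exact co_zero f
      rcases Nat.lt_or_ge n 2 with hn2 | hn2
      · have hn1 : n = 1 := by omega
        subst hn1
        exact h1
      obtain ⟨p, hp, m, rfl⟩ := Nat.exists_prime_and_dvd (show n ≠ 1 by omega)
      have hm0 : 0 < m := by
        rcases Nat.eq_zero_or_pos m with h' | h'
        · simp [h'] at hn
        · exact h'
      have hlt : m < p * m := by
        have := hp.two_le
        nlinarith
      by_cases hpN : p = N
      · subst hpN
        rw [hl, ih m hlt, mul_zero]
      have e := h p hp hpN m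
      rw [ih m hlt, mul_zero] at e
      have hz : (if p ∣ m then (p : ℂ) * co f (m / p) else 0) = 0 := by
        split_ifs with hd
        · rw [ih (m / p) (lt_of_le_of_lt (Nat.div_le_self _ _) hlt), mul_zero]
        · rfl
      rw [hz, add_zero] at e
      exact e
  refine co_ext fun n => ?_
  have h2 := co_smul (0 : ℂ) (0 : S2 N) n
  rw [zero_smul, zero_mul] at h2
  rw [h0 n, h2]

/-! ### The count -/

/-- the Hecke operators away from the level and the Fricke operator -/
noncomputable def EIB_T (N : ℕ) [Fact N.Prime] :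
    Option {p : ℕ // p.Prime ∧ p ≠ N} → S2 N →ₗ[ℂ] S2 N
  | none => Classical.choose (fricke_exists (N := N))
  | some p => Classical.choose (hecke_exists (N := N) p.2.1 p.2.2)

theorem EIB_T_none (N : ℕ) [Fact N.Prime] : IsFricke (EIB_T N none) :=
  Classical.choose_spec (fricke_exists (N := N))

theorem EIB_T_some (N : ℕ) [Fact N.Prime] (p : {p : ℕ // p.Prime ∧ p ≠ N}) :
    IsHecke (p : ℕ) (EIB_T N (some p)) :=
  Classical.choose_spec (hecke_exists (N := N) p.2.1 p.2.2)

theorem EIB_symm (x y : S2 N) : starRingEnd ℂ (pet y x) = pet x y := (pet_conj y x).symm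

theorem EIB_add (x y z : S2 N) : pet (x + y) z = pet x z + pet y z := by
  rw [pet_conj z (x + y), pet_add, map_add, ← pet_conj z x, ← pet_conj z y]

theorem EIB_pos (x : S2 N) (hx : x ≠ 0) : 0 < (pet x x).re := nr_pos hx

theorem EIB_adj (i : Option {p : ℕ // p.Prime ∧ p ≠ N}) (x y : S2 N) :
    pet (EIB_T N i x) y = pet x (EIB_T N i y) := by
  cases i with
  | none =>
    have h1 := fricke_pet (EIB_T_none N) x (EIB_T N none y)
    rw [fricke_sq (EIB_T_none N)] at h1
    exact h1
  | some p => exact hecke_adj p.2.1 p.2.2 (EIB_T_some N p) x y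

theorem EIB_pair : Pairwise (Commute on (EIB_T N)) := by
  intro i j hij
  cases i with
  | none =>
    cases j with
    | none => exact absurd rfl hij
    | some q => exact (EIB_comm_fricke q.2.1 q.2.2 (EIB_T_some N q) (EIB_T_none N)).symm
  | some p =>
    cases j with
    | none => exact EIB_comm_fricke p.2.1 p.2.2 (EIB_T_some N p) (EIB_T_none N)
    | some q =>
      refine EIB_comm p.2.1 q.2.1 (fun h => hij ?_) (EIB_T_some N p) (EIB_T_some N q)
      rw [Subtype.ext h]

theorem EIB_span [FiniteDimensional ℂ (S2 N)] :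
    Submodule.span ℂ {f : S2 N | IsNew f} = ⊤ := by
  have hN : N.Prime := Fact.out
  have hj := EIB_joint (V := S2 N) pet EIB_symm EIB_add
    (fun x y r => EIA_pet_smul_left r x y) EIB_pos (EIB_T N) EIB_adj EIB_pair
  rw [eq_top_iff, ← hj]
  refine iSup_le fun χ => ?_
  intro f hf
  rw [Submodule.mem_iInf] at hf
  have hrel : ∀ p : ℕ, ∀ hp : p.Prime, ∀ hpN : p ≠ N, ∀ n : ℕ,
      co f (p * n) + (if p ∣ n then (p : ℂ) * co f (n / p) else 0) =
        χ (some ⟨p, hp, hpN⟩) * co f n := by
    intro p hp hpN n
    have h1 := Module.End.mem_eigenspace_iff.1 (hf (some ⟨p, hp, hpN⟩))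
    have h2 := EIB_T_some N ⟨p, hp, hpN⟩ f n
    rw [h1, co_smul] at h2
    exact h2.symm
  have hlev : ∀ n : ℕ, co f (N * n) = -χ none * co f n := by
    intro n
    have h1 := Module.End.mem_eigenspace_iff.1 (hf none)
    have h2 := fricke_coeff (EIB_T_none N) f n
    rw [h1, co_smul] at h2
    linear_combination h2
  by_cases h1 : co f 1 = 0
  · have : f = 0 := by
      refine EIB_van (χ := fun p => if hp : p.Prime ∧ p ≠ N then χ (some ⟨p, hp⟩) else -χ none)
        h1 ?_ ?_
      · intro p hp hpN n
        rw [dif_pos ⟨hp, hpN⟩]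
        exact hrel p hp hpN n
      · intro n
        rw [dif_neg (fun h => h.2 rfl)]
        exact hlev n
    rw [this]
    exact Submodule.zero_mem _
  · set g : S2 N := (co f 1)⁻¹ • f with hg
    have hgc : ∀ n, co g n = (co f 1)⁻¹ * co f n := fun n => co_smul _ _ n
    have hg1 : co g 1 = 1 := by rw [hgc]; exact inv_mul_cancel₀ h1
    have hE : IsNew g := by
      refine EIB_new hg1 ?_ ?_
      · intro p hp hpN n
        have e1 := hrel p hp hpN n
        have e2 := hrel p hp hpN 1
        have hnd : ¬ p ∣ 1 := fun h => hp.one_lt.ne' (Nat.dvd_one.1 h)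
        rw [if_neg hnd, mul_one, add_zero] at e2
        have e3 : co g p = χ (some ⟨p, hp, hpN⟩) := by
          rw [hgc, e2]; field_simp
        rw [e3, hgc, hgc n, hgc (n / p)]
        have e4 : (if p ∣ n then (p : ℂ) * ((co f 1)⁻¹ * co f (n / p)) else 0) =
            (co f 1)⁻¹ * (if p ∣ n then (p : ℂ) * co f (n / p) else 0) := by
          split_ifs
          · ring
          · ring
        rw [e4, ← mul_add, e1]
        ring
      · intro n
        have e2 := hlev 1
        rw [mul_one] at e2
        have e3 : co g N = -χ none := by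
          rw [hgc, e2]; field_simp
        rw [e3, hgc, hgc, hlev n]
        ring
    have hfg : f = co f 1 • g := by
      rw [hg, smul_smul, mul_inv_cancel₀ h1, one_smul]
    rw [hfg]
    exact Submodule.smul_mem _ _ (Submodule.subset_span hE)

theorem EIB_li : LinearIndependent ℂ (fun f : {f : S2 N | IsNew f} => (f : S2 N)) :=
  EIB_indep (V := S2 N) pet EIB_symm EIB_add
    (fun x y r => EIA_pet_smul_left r x y) EIB_pos _ (fun f => new_ne_zero_pr f.2)
    (fun f g hfg => new_orth_pr f.2 g.2 (fun h => hfg (Subtype.ext h)))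

theorem new_count_pr [FiniteDimensional ℂ (S2 N)] : {f : S2 N | IsNew f}.Finite ∧
    {f : S2 N | IsNew f}.ncard = Module.finrank ℂ (S2 N) := by
  have hs : ⊤ ≤ Submodule.span ℂ (Set.range (fun f : {f : S2 N | IsNew f} => (f : S2 N))) := by
    rw [Subtype.range_coe, EIB_span]
  let b := Module.Basis.mk (EIB_li (N := N)) hs
  have hfin : Finite {f : S2 N | IsNew f} := Module.Finite.finite_basis b
  refine ⟨Set.toFinite _, ?_⟩
  rw [Module.finrank_eq_nat_card_basis b]
  exact (Nat.card_coe_set_eq _).symm

end

theorem new_count : type_of% @new_count_pr := @new_count_pr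

end Pool.Agent.LEV
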