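import Pool.Agent.Lib_helper68.LEV.EIB
import Pool.Agent.Lib_helper68.LEV.EIA

/-! Block EVN (MP_cc4f83_nt): the number of even newforms is at least the dimension of the
`-1`-eigenspace of the Fricke operator. -/

namespace Pool.Agent.LEV

open Complex MeasureTheory Filter Topology UpperHalfPlane ModularGroup
open scoped MatrixGroups Modular ENNReal ModularForm ComplexConjugate ContDiff Function

theorem even_count_pr {N : ℕ} [Fact N.Prime] [FiniteDimensional ℂ (S2 N)]
    {W : S2 N →ₗ[ℂ] S2 N} (hW : IsFricke W) :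
    Module.finrank ℂ (LinearMap.ker (W - (-1 : ℂ) • (1 : S2 N →ₗ[ℂ] S2 N))) ≤
      {f : S2 N | IsNew f ∧ co f N = 1}.ncard := by
  classical
  obtain ⟨hfin, hcard⟩ := new_count_pr (N := N)
  set A : Set (S2 N) := {f : S2 N | IsNew f ∧ co f N = 1} with hA
  set B : Set (S2 N) := {f : S2 N | IsNew f ∧ co f N = -1} with hB
  have hAf : A.Finite := hfin.subset fun f hf => hf.1
  have hBf : B.Finite := hfin.subset fun f hf => hf.1
  have hAB : {f : S2 N | IsNew f} = A ∪ B := by
    ext f
    constructor
    · intro hf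
      rcases (new_fricke_pr hf hW).2 with h | h
      · exact Or.inl ⟨hf, h⟩
      · exact Or.inr ⟨hf, h⟩
    · rintro (hf | hf)
      · exact hf.1
      · exact hf.1
  have hle : {f : S2 N | IsNew f}.ncard ≤ A.ncard + B.ncard := by
    rw [hAB]
    exact Set.ncard_union_le A B
  -- the newforms with eigenvalue `1` of `W`
  have hB2 : B.ncard ≤ Module.finrank ℂ (LinearMap.ker (W - (1 : S2 N →ₗ[ℂ] S2 N))) := by
    have hli : LinearIndependent ℂ (fun f : B => (f : S2 N)) := by
      have h1 := (EIB_li (N := N)).comp (fun f : B => (⟨f.1, f.2.1⟩ : {f : S2 N | IsNew f}))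
        (fun f g hfg => Subtype.ext (Subtype.mk.inj hfg))
      exact h1
    have hfinB : Finite B := hBf
    have : Fintype B := Fintype.ofFinite B
    have h2 := finrank_span_eq_card hli
    have h3 : Submodule.span ℂ (Set.range fun f : B => (f : S2 N)) ≤
        LinearMap.ker (W - (1 : S2 N →ₗ[ℂ] S2 N)) := by
      rw [Submodule.span_le]
      rintro _ ⟨f, rfl⟩
      change (f : S2 N) ∈ LinearMap.ker (W - (1 : S2 N →ₗ[ℂ] S2 N))
      rw [LinearMap.mem_ker, LinearMap.sub_apply, Module.End.one_apply, sub_eq_zero]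
      have h4 := (new_fricke_pr f.2.1 hW).1
      rw [h4, f.2.2, neg_neg, one_smul]
    have h5 := Submodule.finrank_mono h3
    rw [h2] at h5
    rw [← Nat.card_coe_set_eq, Nat.card_eq_fintype_card]
    exact h5
  -- the two eigenspaces are independent
  have hdis : Disjoint (LinearMap.ker (W - (1 : S2 N →ₗ[ℂ] S2 N)))
      (LinearMap.ker (W - (-1 : ℂ) • (1 : S2 N →ₗ[ℂ] S2 N))) := by
    rw [Submodule.disjoint_def]
    intro f h1 h2
    rw [LinearMap.mem_ker, LinearMap.sub_apply, Module.End.one_apply, sub_eq_zero] at h1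
    rw [LinearMap.mem_ker, LinearMap.sub_apply, LinearMap.smul_apply, Module.End.one_apply,
      sub_eq_zero, h1] at h2
    have h3 : (2 : ℂ) • f = 0 := by
      have h4 : (2 : ℂ) • f = f + f := two_smul ℂ f
      rw [h4]
      nth_rewrite 2 [h2]
      rw [← one_smul ℂ f, smul_smul, ← add_smul]
      simp
    exact (smul_eq_zero.1 h3).resolve_left two_ne_zero
  have hsum := Submodule.finrank_add_finrank_le_of_disjoint hdis
  omega

end Pool.Agent.LEV
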