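import Pool.Agent.Lib_helper68.LEV.FE
import Pool.Agent.Lib_helper68.LEV.EVN
import Pool.Agent.Lib_helper68.LEV.FRK
import Pool.Agent.Lib_helper41.DIMF.FIN

/-! the lower bound for the number of even newforms -/

namespace Pool.Agent.LEV

open Complex MeasureTheory Filter Topology UpperHalfPlane ModularGroup
open scoped MatrixGroups Modular ENNReal ModularForm ComplexConjugate ContDiff

theorem even_low (δ : ℝ) (hδ : 0 < δ) : ∃ N₀ : ℕ, ∀ (N : ℕ) [Fact N.Prime], N₀ ≤ N →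
      (1 / 24 - δ) * N ≤ ({f : S2 N | IsNew f ∧ co f N = 1}.ncard : ℝ) := by
  obtain ⟨N₀, h⟩ := DIMK.dim_pm hδ
  refine ⟨N₀, fun N _ hN => ?_⟩
  obtain ⟨W, hW⟩ := fricke_exists (N := N)
  haveI : FiniteDimensional ℂ (S2 N) := DIMK.fin_dim
  refine (h N hN W hW (-1) (Or.inr rfl)).trans ?_
  exact_mod_cast even_count_pr hW

end Pool.Agent.LEV
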