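import Pool.Agent.Lib_helper68.LEV.DefsG

/-! Block SIZ -/

namespace Pool.Agent.LEV

open Complex MeasureTheory Filter Topology UpperHalfPlane ModularGroup
open scoped MatrixGroups Modular ENNReal ModularForm ComplexConjugate ContDiff

theorem SIZ_ball {w u : ℍ} {ρ : ℝ} (h0 : 0 < ρ) (h1 : ρ < 1) (hu : u ∈ hball w ρ) :
    ‖(u : ℂ) - w‖ ≤ 2 / (1 - ρ) * w.im ∧ (1 - ρ) / 2 * w.im ≤ u.im := by
  have ht : 0 < 1 - ρ := by linarith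
  have hu' : ‖(u : ℂ) - (w : ℂ)‖ < ρ * ‖(u : ℂ) - conj (w : ℂ)‖ := hu
  have hw : 0 < w.im := w.im_pos
  have hui : 0 < u.im := u.im_pos
  have e1 : ‖(w : ℂ) - conj (w : ℂ)‖ = 2 * w.im := by
    have : (w : ℂ) - conj (w : ℂ) = ((2 * w.im : ℝ) : ℂ) * Complex.I := by
      apply Complex.ext
      · simp
      · simp; ring
    rw [this, norm_mul, Complex.norm_I, mul_one, Complex.norm_real, Real.norm_of_nonneg (by positivity)]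
  have e2 : ‖(u : ℂ) - conj (w : ℂ)‖ ≤ ‖(u : ℂ) - w‖ + 2 * w.im := by
    rw [← e1]
    calc ‖(u : ℂ) - conj (w : ℂ)‖ = ‖((u : ℂ) - w) + ((w : ℂ) - conj (w : ℂ))‖ := by ring_nf
      _ ≤ _ := norm_add_le _ _
  have e3 : ‖(u : ℂ) - conj (u : ℂ)‖ = 2 * u.im := by
    have : (u : ℂ) - conj (u : ℂ) = ((2 * u.im : ℝ) : ℂ) * Complex.I := by
      apply Complex.ext
      · simp
      · simp; ring
    rw [this, norm_mul, Complex.norm_I, mul_one, Complex.norm_real, Real.norm_of_nonneg (by positivity)]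
  have e4 : ‖(u : ℂ) - conj (w : ℂ)‖ ≤ ‖(u : ℂ) - w‖ + 2 * u.im := by
    rw [← e3]
    calc ‖(u : ℂ) - conj (w : ℂ)‖ = ‖(conj ((u : ℂ) - w)) + ((u : ℂ) - conj (u : ℂ))‖ := by
          rw [map_sub]; ring_nf
      _ ≤ ‖conj ((u : ℂ) - w)‖ + ‖(u : ℂ) - conj (u : ℂ)‖ := norm_add_le _ _
      _ = _ := by rw [Complex.norm_conj]
  have e5 : w.im ≤ ‖(u : ℂ) - conj (w : ℂ)‖ := by
    have h5 := Complex.abs_im_le_norm ((u : ℂ) - conj (w : ℂ))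
    have h6 : ((u : ℂ) - conj (w : ℂ)).im = u.im + w.im := by simp
    rw [h6, abs_of_pos (by positivity)] at h5
    linarith
  have hb : ‖(u : ℂ) - conj (w : ℂ)‖ * (1 - ρ) ≤ 2 * w.im := by nlinarith
  have hb2 : ‖(u : ℂ) - conj (w : ℂ)‖ * (1 - ρ) ≤ 2 * u.im := by nlinarith
  constructor
  · have h7 : ‖(u : ℂ) - w‖ ≤ ‖(u : ℂ) - conj (w : ℂ)‖ := by
      have := norm_nonneg ((u : ℂ) - conj (w : ℂ))
      nlinarith
    rw [div_mul_eq_mul_div, le_div_iff₀ ht]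
    calc ‖(u : ℂ) - w‖ * (1 - ρ) ≤ ‖(u : ℂ) - conj (w : ℂ)‖ * (1 - ρ) := by gcongr
      _ ≤ _ := hb
  · nlinarith

theorem SIZ_norm {w u : ℍ} {ρ : ℝ} (h0 : 0 < ρ) (h1 : ρ < 1) (hu : u ∈ hball w ρ) (hw : w ∈ 𝒟) :
    ‖(u : ℂ)‖ ≤ 6 / (1 - ρ) * w.im ∧ 1 / 2 ≤ w.im := by
  have ht : 0 < 1 - ρ := by linarith
  obtain ⟨h2, h3⟩ := SIZ_ball h0 h1 hu
  have hw3 : 3 ≤ 4 * w.im ^ 2 := ModularGroup.three_le_four_mul_im_sq_of_mem_fd hw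
  have hwp := w.im_pos
  have hw2 : 1 / 2 ≤ w.im := by nlinarith
  refine ⟨?_, hw2⟩
  have hre : |w.re| ≤ 1 / 2 := hw.2
  have h4 : ‖(w : ℂ)‖ ≤ 1 / 2 + w.im := by
    have := Complex.norm_le_abs_re_add_abs_im (w : ℂ)
    have e : |(w : ℂ).im| = w.im := abs_of_pos w.im_pos
    have e' : |(w : ℂ).re| = |w.re| := rfl
    rw [e, e'] at this
    linarith
  have h5 : ‖(u : ℂ)‖ ≤ ‖(u : ℂ) - w‖ + ‖(w : ℂ)‖ := by
    calc ‖(u : ℂ)‖ = ‖((u : ℂ) - w) + w‖ := by ring_nf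
      _ ≤ _ := norm_add_le _ _
  have h6 : 1 ≤ 1 / (1 - ρ) := by
    rw [le_div_iff₀ ht]; linarith
  have h7 : 1 / 2 + w.im ≤ 2 / (1 - ρ) * w.im := by
    have : 2 * w.im ≤ 2 / (1 - ρ) * w.im := by
      have : (2 : ℝ) ≤ 2 / (1 - ρ) := by
        rw [le_div_iff₀ ht]; linarith
      gcongr
    linarith
  have h8 : 2 / (1 - ρ) * w.im + 2 / (1 - ρ) * w.im ≤ 6 / (1 - ρ) * w.im := by
    have : 0 ≤ w.im / (1 - ρ) := by positivity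
    have e : 6 / (1 - ρ) * w.im - (2 / (1 - ρ) * w.im + 2 / (1 - ρ) * w.im) =
        2 * (w.im / (1 - ρ)) := by ring
    linarith
  linarith

theorem meet_size_pr {ρ : ℝ} (h0 : 0 < ρ) (h1 : ρ < 1) : ∃ C : ℝ, 1 ≤ C ∧ ∀ (w : ℍ) (Y : ℝ),
    w ∈ 𝒟 → w.im ≤ Y → 1 ≤ Y → ∀ a b c d : ℤ, 0 < a * d - b * c → meet w ρ a b c d →
      |(a : ℝ)| ≤ C * Y * Real.sqrt ((a * d - b * c : ℤ) : ℝ) ∧
      |(b : ℝ)| ≤ C * Y * Real.sqrt ((a * d - b * c : ℤ) : ℝ) ∧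
      |(c : ℝ)| ≤ C * Y * Real.sqrt ((a * d - b * c : ℤ) : ℝ) ∧
      |(d : ℝ)| ≤ C * Y * Real.sqrt ((a * d - b * c : ℤ) : ℝ) := by
  have ht : 0 < 1 - ρ := by linarith
  have ht1 : 1 - ρ ≤ 1 := by linarith
  set t := 1 - ρ with htd
  have hit : 1 ≤ 1 / t := by rw [le_div_iff₀ ht]; linarith
  have hit2 : 1 ≤ (1 / t) ^ 2 := one_le_pow₀ hit
  have hit3 : 1 ≤ (1 / t) ^ 3 := one_le_pow₀ hit
  have hit4 : 1 ≤ (1 / t) ^ 4 := one_le_pow₀ hit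
  set τ := 1 / t with hτ
  have hτ0 : 0 < τ := by positivity
  refine ⟨312 * τ ^ 4, by nlinarith, ?_⟩
  intro w Y hw hwY hY a b c d hdet ⟨u, v, hu, hv, huv⟩
  obtain ⟨hu1, hu2⟩ := SIZ_ball h0 h1 hu
  obtain ⟨hv1, hv2⟩ := SIZ_ball h0 h1 hv
  obtain ⟨hu3, hy⟩ := SIZ_norm h0 h1 hu hw
  obtain ⟨hv3, _⟩ := SIZ_norm h0 h1 hv hw
  rw [← htd] at hu1 hu2 hv1 hv2 hu3 hv3
  set y := w.im with hyd
  set s := Real.sqrt ((a * d - b * c : ℤ) : ℝ) with hs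
  have hdetR : (0 : ℝ) < ((a * d - b * c : ℤ) : ℝ) := by exact_mod_cast hdet
  have hs0 : 0 < s := Real.sqrt_pos.mpr hdetR
  have hs2 : s ^ 2 = ((a * d - b * c : ℤ) : ℝ) := Real.sq_sqrt hdetR.le
  have hup := u.im_pos
  have hvp := v.im_pos
  have e6 : 6 / t * y = 6 * τ * y := by rw [hτ]; ring
  have e2 : 2 / t * y = 2 * τ * y := by rw [hτ]; ring
  rw [e6] at hu3 hv3
  have hti : t * τ = 1 := by rw [hτ]; field_simp
  -- imaginary part identity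
  set j : ℂ := (c : ℂ) * (u : ℂ) + (d : ℂ) with hj
  have him : v.im * ‖j‖ ^ 2 = s ^ 2 * u.im := by
    have h5 : (v : ℂ) * (j * conj j) = ((a : ℂ) * (u : ℂ) + (b : ℂ)) * conj j := by
      rw [← mul_assoc, huv]
    have h6 := congrArg Complex.im h5
    rw [Complex.mul_conj, Complex.im_mul_ofReal, Complex.normSq_eq_norm_sq] at h6
    have h7 : (((a : ℂ) * (u : ℂ) + (b : ℂ)) * conj j).im = ((a * d - b * c : ℤ) : ℝ) * u.im := by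
      rw [hj]
      simp [Complex.mul_im, Complex.add_im, Complex.mul_re, Complex.add_re]
      ring
    rw [h7, ← hs2] at h6
    have h8 : (v : ℂ).im = v.im := rfl
    rw [h8] at h6
    exact h6
  have huim : u.im ≤ 6 * τ * y := by
    have := Complex.abs_im_le_norm (u : ℂ)
    have e : |(u : ℂ).im| = u.im := abs_of_pos u.im_pos
    rw [e] at this
    linarith
  -- |j| ≤ 4 τ s
  have hj1 : ‖j‖ ≤ 4 * τ * s := by
    have h5 : t / 2 * y * ‖j‖ ^ 2 ≤ s ^ 2 * (6 * τ * y) := by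
      calc t / 2 * y * ‖j‖ ^ 2 ≤ v.im * ‖j‖ ^ 2 := by gcongr
        _ = s ^ 2 * u.im := him
        _ ≤ _ := by gcongr
    have hy0 : 0 < y := by linarith
    have h6 : ‖j‖ ^ 2 ≤ 12 * τ ^ 2 * s ^ 2 := by
      have h7 : t / 2 * y * ‖j‖ ^ 2 ≤ t / 2 * y * (12 * τ ^ 2 * s ^ 2) := by
        calc t / 2 * y * ‖j‖ ^ 2 ≤ s ^ 2 * (6 * τ * y) := h5
          _ = (t * τ) * (6 * τ * y * s ^ 2) := by rw [hti]; ring
          _ = _ := by ring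
      exact le_of_mul_le_mul_left h7 (by positivity)
    have h8 : ‖j‖ ^ 2 ≤ (4 * τ * s) ^ 2 := by
      have : 0 ≤ τ ^ 2 * s ^ 2 := by positivity
      nlinarith
    exact le_of_sq_le_sq h8 (by positivity)
  have hy0 : 0 < y := by linarith
  -- c
  have hc1 : |(c : ℝ)| * (t / 2 * y) ≤ 4 * τ * s := by
    have h5 : |(c : ℝ)| * u.im ≤ ‖j‖ := by
      have h6 := Complex.abs_im_le_norm j
      have h7 : j.im = c * u.im := by rw [hj]; simp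
      rw [h7, abs_mul, abs_of_pos hup] at h6
      exact h6
    calc |(c : ℝ)| * (t / 2 * y) ≤ |(c : ℝ)| * u.im := by gcongr
      _ ≤ ‖j‖ := h5
      _ ≤ _ := hj1
  have hcy : |(c : ℝ)| * y ≤ 8 * τ ^ 2 * s := by
    have h5 : t / 2 * (|(c : ℝ)| * y) ≤ t / 2 * (8 * τ ^ 2 * s) := by
      calc t / 2 * (|(c : ℝ)| * y) = |(c : ℝ)| * (t / 2 * y) := by ring
        _ ≤ 4 * τ * s := hc1
        _ = (t * τ) * (4 * τ * s) := by rw [hti]; ring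
        _ = _ := by ring
    exact le_of_mul_le_mul_left h5 (by positivity)
  have hc : |(c : ℝ)| ≤ 16 * τ ^ 2 * s := by
    have := abs_nonneg (c : ℝ)
    nlinarith
  -- d
  have hd : |(d : ℝ)| ≤ (4 * τ + 48 * τ ^ 3) * s := by
    have h5 : |(d : ℝ)| ≤ ‖j‖ + |(c : ℝ)| * ‖(u : ℂ)‖ := by
      have h6 : (d : ℂ) = j - (c : ℂ) * (u : ℂ) := by rw [hj]; ring
      have h7 : ‖(d : ℂ)‖ = |(d : ℝ)| := by
        rw [show (d : ℂ) = (((d : ℤ) : ℝ) : ℂ) by push_cast; rfl, Complex.norm_real, Real.norm_eq_abs]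
      have h8 : ‖(c : ℂ)‖ = |(c : ℝ)| := by
        rw [show (c : ℂ) = (((c : ℤ) : ℝ) : ℂ) by push_cast; rfl, Complex.norm_real, Real.norm_eq_abs]
      rw [← h7, h6]
      calc ‖j - (c : ℂ) * (u : ℂ)‖ ≤ ‖j‖ + ‖(c : ℂ) * (u : ℂ)‖ := norm_sub_le _ _
        _ = _ := by rw [norm_mul, h8]
    calc |(d : ℝ)| ≤ ‖j‖ + |(c : ℝ)| * ‖(u : ℂ)‖ := h5
      _ ≤ 4 * τ * s + |(c : ℝ)| * (6 * τ * y) := by gcongr
      _ = 4 * τ * s + 6 * τ * (|(c : ℝ)| * y) := by ring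
      _ ≤ 4 * τ * s + 6 * τ * (8 * τ ^ 2 * s) := by gcongr
      _ = _ := by ring
  -- a, b
  have hab : ‖(a : ℂ) * (u : ℂ) + (b : ℂ)‖ ≤ 24 * τ ^ 2 * s * y := by
    rw [← huv, norm_mul]
    calc ‖(v : ℂ)‖ * ‖j‖ ≤ (6 * τ * y) * (4 * τ * s) := by gcongr
      _ = _ := by ring
  have ha1 : |(a : ℝ)| * (t / 2 * y) ≤ 24 * τ ^ 2 * s * y := by
    have h5 : |(a : ℝ)| * u.im ≤ ‖(a : ℂ) * (u : ℂ) + (b : ℂ)‖ := by
      have h6 := Complex.abs_im_le_norm ((a : ℂ) * (u : ℂ) + (b : ℂ))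
      have h7 : ((a : ℂ) * (u : ℂ) + (b : ℂ)).im = a * u.im := by simp
      rw [h7, abs_mul, abs_of_pos hup] at h6
      exact h6
    calc |(a : ℝ)| * (t / 2 * y) ≤ |(a : ℝ)| * u.im := by gcongr
      _ ≤ _ := h5
      _ ≤ _ := hab
  have ha : |(a : ℝ)| ≤ 48 * τ ^ 3 * s := by
    have h5 : t / 2 * y * |(a : ℝ)| ≤ t / 2 * y * (48 * τ ^ 3 * s) := by
      calc t / 2 * y * |(a : ℝ)| = |(a : ℝ)| * (t / 2 * y) := by ring
        _ ≤ 24 * τ ^ 2 * s * y := ha1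
        _ = (t * τ) * (24 * τ ^ 2 * s * y) := by rw [hti]; ring
        _ = _ := by ring
    exact le_of_mul_le_mul_left h5 (by positivity)
  have hb : |(b : ℝ)| ≤ (24 * τ ^ 2 + 288 * τ ^ 4) * s * y := by
    have h5 : |(b : ℝ)| ≤ ‖(a : ℂ) * (u : ℂ) + (b : ℂ)‖ + |(a : ℝ)| * ‖(u : ℂ)‖ := by
      have h6 : (b : ℂ) = ((a : ℂ) * (u : ℂ) + (b : ℂ)) - (a : ℂ) * (u : ℂ) := by ring
      have h7 : ‖(b : ℂ)‖ = |(b : ℝ)| := by
        rw [show (b : ℂ) = (((b : ℤ) : ℝ) : ℂ) by push_cast; rfl, Complex.norm_real, Real.norm_eq_abs]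
      have h8 : ‖(a : ℂ)‖ = |(a : ℝ)| := by
        rw [show (a : ℂ) = (((a : ℤ) : ℝ) : ℂ) by push_cast; rfl, Complex.norm_real, Real.norm_eq_abs]
      calc |(b : ℝ)| = ‖((a : ℂ) * (u : ℂ) + (b : ℂ)) - (a : ℂ) * (u : ℂ)‖ := by rw [← h7, ← h6]
        _ ≤ _ := norm_sub_le _ _
        _ = _ := by rw [norm_mul, h8]
    calc |(b : ℝ)| ≤ ‖(a : ℂ) * (u : ℂ) + (b : ℂ)‖ + |(a : ℝ)| * ‖(u : ℂ)‖ := h5
      _ ≤ 24 * τ ^ 2 * s * y + (48 * τ ^ 3 * s) * (6 * τ * y) := by gcongr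
      _ = _ := by ring
  have hτ1 : τ ≤ τ ^ 4 := by nlinarith [mul_le_mul_of_nonneg_left hit3 hτ0.le]
  have hτ2 : τ ^ 2 ≤ τ ^ 4 := by nlinarith [mul_le_mul_of_nonneg_left hit2 (by positivity : (0:ℝ) ≤ τ ^ 2)]
  have hτ3 : τ ^ 3 ≤ τ ^ 4 := by nlinarith [mul_le_mul_of_nonneg_left hit (by positivity : (0:ℝ) ≤ τ ^ 3)]
  have hfin : ∀ r : ℝ, r ≤ 312 * τ ^ 4 * s → r ≤ 312 * τ ^ 4 * Y * s := by
    intro r hr
    calc r ≤ 312 * τ ^ 4 * s := hr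
      _ = 312 * τ ^ 4 * 1 * s := by ring
      _ ≤ _ := by gcongr
  refine ⟨hfin _ ?_, ?_, hfin _ ?_, hfin _ ?_⟩
  · calc |(a : ℝ)| ≤ 48 * τ ^ 3 * s := ha
      _ ≤ 48 * τ ^ 4 * s := by gcongr
      _ ≤ 312 * τ ^ 4 * s := by gcongr; norm_num
  · calc |(b : ℝ)| ≤ (24 * τ ^ 2 + 288 * τ ^ 4) * s * y := hb
      _ ≤ (24 * τ ^ 4 + 288 * τ ^ 4) * s * Y := by gcongr
      _ = _ := by ring
  · calc |(c : ℝ)| ≤ 16 * τ ^ 2 * s := hc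
      _ ≤ 16 * τ ^ 4 * s := by gcongr
      _ ≤ 312 * τ ^ 4 * s := by gcongr; norm_num
  · calc |(d : ℝ)| ≤ (4 * τ + 48 * τ ^ 3) * s := hd
      _ ≤ (4 * τ ^ 4 + 48 * τ ^ 4) * s := by gcongr
      _ = 52 * τ ^ 4 * s := by ring
      _ ≤ 312 * τ ^ 4 * s := by gcongr; norm_num

theorem meet_size : type_of% @meet_size_pr := @meet_size_pr

end Pool.Agent.LEV
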