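import Pool.Agent.Lib_helper68.LEV.DefsG
import Pool.Agent.Lib_helper68.SEL.KA
import Pool.Agent.Lib_helper68.LEV.SIZ

/-! Block BAD: counting the matrices for which the discs meet. -/

namespace Pool.Agent.LEV

open Complex MeasureTheory Filter Topology UpperHalfPlane ModularGroup ProbabilityTheory
open scoped MatrixGroups Modular ENNReal ModularForm ComplexConjugate ContDiff

theorem BAD_small {N : ℕ} {a : ℤ} (h : |a| < N) (h0 : (a : ZMod N) = 0) : a = 0 := by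
  have h1 : (N : ℤ) ∣ a := (ZMod.intCast_zmod_eq_zero_iff_dvd _ _).mp h0
  exact Int.eq_zero_of_abs_lt_dvd h1 h

section
variable {N : ℕ} [Fact N.Prime]

/-- a finite point -/
def BAD_pt (x : ZMod N) : PX N := some x

open Classical in
theorem BAD_quad (α β γ : ZMod N) (h : ¬ (α = 0 ∧ β = 0 ∧ γ = 0)) :
    (Finset.univ.filter (fun x : ZMod N => α * x ^ 2 + β * x + γ = 0)).card ≤ 2 := by
  set P : Polynomial (ZMod N) := Polynomial.C α * Polynomial.X ^ 2 +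
    Polynomial.C β * Polynomial.X + Polynomial.C γ with hP
  have hP0 : P ≠ 0 := by
    intro h0
    have e2 : P.coeff 2 = α := by
      rw [hP]
      simp [Polynomial.coeff_X, Polynomial.coeff_C]
    have e1 : P.coeff 1 = β := by
      rw [hP]
      simp [Polynomial.coeff_X, Polynomial.coeff_C]
    have e0 : P.coeff 0 = γ := by
      rw [hP]
      simp
    rw [h0] at e0 e1 e2
    simp only [Polynomial.coeff_zero] at e0 e1 e2
    exact h ⟨e2.symm, e1.symm, e0.symm⟩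
  have hdeg : P.natDegree ≤ 2 := by
    rw [hP]
    compute_degree
  have hsub : (Finset.univ.filter (fun x : ZMod N => α * x ^ 2 + β * x + γ = 0)) ⊆
      P.roots.toFinset := by
    intro x hx
    rw [Finset.mem_filter] at hx
    rw [Multiset.mem_toFinset, Polynomial.mem_roots hP0, Polynomial.IsRoot.def, hP]
    simpa using hx.2
  calc (Finset.univ.filter (fun x : ZMod N => α * x ^ 2 + β * x + γ = 0)).card
      ≤ P.roots.toFinset.card := Finset.card_le_card hsub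
    _ ≤ Multiset.card P.roots := Multiset.toFinset_card_le _
    _ ≤ P.natDegree := Polynomial.card_roots' P
    _ ≤ 2 := hdeg

open Classical in
/-- at most three fixed lines -/
theorem BAD_fix {a b c d : ℤ} (hb : |b| < N) (hc : |c| < N) (hda : |d - a| < N)
    (h : ¬ (b = 0 ∧ c = 0 ∧ a = d)) :
    (Finset.univ.filter (fun q : PX N => fixq q a b c d)).card ≤ 3 := by
  have hq := BAD_quad (c : ZMod N) (((d - a : ℤ)) : ZMod N) (-(b : ZMod N)) (by
    rintro ⟨e2, e1, e0⟩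
    have c0 := BAD_small hc e2
    have da0 := BAD_small hda e1
    have b0 := BAD_small hb (neg_eq_zero.mp e0)
    exact h ⟨b0, c0, by omega⟩)
  have hsub : (Finset.univ.filter (fun q : PX N => fixq q a b c d)) ⊆
      insert (OnePoint.infty : PX N) ((Finset.univ.filter (fun x : ZMod N =>
        (c : ZMod N) * x ^ 2 + (((d - a : ℤ)) : ZMod N) * x + -(b : ZMod N) = 0)).image
          BAD_pt) := by
    intro q hq
    rw [Finset.mem_filter] at hq
    rw [Finset.mem_insert, Finset.mem_image]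
    rcases q with _ | x
    · left
      rfl
    · right
      refine ⟨x, ?_, rfl⟩
      rw [Finset.mem_filter]
      refine ⟨Finset.mem_univ _, ?_⟩
      have h1 : (a : ZMod N) * x + (b : ZMod N) = x * ((c : ZMod N) * x + (d : ZMod N)) := hq.2
      push_cast
      linear_combination -h1
  refine (Finset.card_le_card hsub).trans ((Finset.card_insert_le _ _).trans ?_)
  have h3 := Finset.card_image_le (s := (Finset.univ.filter (fun x : ZMod N =>
        (c : ZMod N) * x ^ 2 + (((d - a : ℤ)) : ZMod N) * x + -(b : ZMod N) = 0)))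
        (f := BAD_pt (N := N))
  omega

open Classical in
/-- at most one kernel -/
theorem BAD_ker {a b c d Δ : ℤ} (hΔ : 0 < Δ) (hΔN : Δ < N) (hdet : a * d - b * c = N * Δ) :
    (Finset.univ.filter (fun q : PX N => kerq q a b c d)).card ≤ 1 := by
  have hnot : ¬ (((a : ZMod N) = 0 ∧ (c : ZMod N) = 0) ∧ ((b : ZMod N) = 0 ∧ (d : ZMod N) = 0)) := by
    rintro ⟨⟨ha, hc⟩, hb, hd⟩
    obtain ⟨a', ha'⟩ := (ZMod.intCast_zmod_eq_zero_iff_dvd _ _).mp ha
    obtain ⟨b', hb'⟩ := (ZMod.intCast_zmod_eq_zero_iff_dvd _ _).mp hb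
    obtain ⟨c', hc'⟩ := (ZMod.intCast_zmod_eq_zero_iff_dvd _ _).mp hc
    obtain ⟨d', hd'⟩ := (ZMod.intCast_zmod_eq_zero_iff_dvd _ _).mp hd
    have hN : (N : ℤ) ≠ 0 := by exact_mod_cast (Fact.out : N.Prime).ne_zero
    have h1 : (N : ℤ) * Δ = N * (N * (a' * d' - b' * c')) := by
      rw [← hdet, ha', hb', hc', hd']
      ring
    have h2 := mul_left_cancel₀ hN h1
    have h3 : (N : ℤ) ∣ Δ := ⟨_, h2⟩
    have h4 := Int.le_of_dvd hΔ h3
    omega
  rw [Finset.card_le_one]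
  intro q hq q' hq'
  rw [Finset.mem_filter] at hq hq'
  rcases q with _ | x <;> rcases q' with _ | x'
  · rfl
  · exfalso
    have h1 : (a : ZMod N) = 0 ∧ (c : ZMod N) = 0 := hq.2
    have h2 : (a : ZMod N) * x' + (b : ZMod N) = 0 ∧ (c : ZMod N) * x' + (d : ZMod N) = 0 := hq'.2
    rw [h1.1, h1.2, zero_mul, zero_add, zero_add] at h2
    exact hnot ⟨h1, h2⟩
  · exfalso
    have h1 : (a : ZMod N) = 0 ∧ (c : ZMod N) = 0 := hq'.2
    have h2 : (a : ZMod N) * x + (b : ZMod N) = 0 ∧ (c : ZMod N) * x + (d : ZMod N) = 0 := hq.2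
    rw [h1.1, h1.2, zero_mul, zero_add, zero_add] at h2
    exact hnot ⟨h1, h2⟩
  · by_contra hne
    have hxx : x - x' ≠ 0 := by
      intro h
      exact hne (by rw [sub_eq_zero.mp h])
    have h1 : (a : ZMod N) * x + (b : ZMod N) = 0 ∧ (c : ZMod N) * x + (d : ZMod N) = 0 := hq.2
    have h2 : (a : ZMod N) * x' + (b : ZMod N) = 0 ∧ (c : ZMod N) * x' + (d : ZMod N) = 0 := hq'.2
    have ha : (a : ZMod N) * (x - x') = 0 := by linear_combination h1.1 - h2.1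
    have hc : (c : ZMod N) * (x - x') = 0 := by linear_combination h1.2 - h2.2
    have ha' := (mul_eq_zero.mp ha).resolve_right hxx
    have hc' := (mul_eq_zero.mp hc).resolve_right hxx
    rw [ha', hc', zero_mul, zero_add, zero_add] at h1
    exact hnot ⟨⟨ha', hc'⟩, h1⟩


open Classical in
/-- the first family of bad lines -/
noncomputable def BAD_E (N : ℕ) [Fact N.Prime] (M : ℕ) : Finset (PX N) :=
  ((Finset.Icc (-(M : ℤ)) M ×ˢ Finset.Icc (-(M : ℤ)) M ×ˢ Finset.Icc (-(M : ℤ)) M ×ˢ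
    Finset.Icc (-(M : ℤ)) M).filter
      (fun t : ℤ × ℤ × ℤ × ℤ => ¬ (t.2.1 = 0 ∧ t.2.2.1 = 0 ∧ t.1 = t.2.2.2))).biUnion
    (fun t => Finset.univ.filter (fun q : PX N => fixq q t.1 t.2.1 t.2.2.1 t.2.2.2))

open Classical in
theorem BAD_E_card {M : ℕ} (hM : 2 * M < N) : (BAD_E N M).card ≤ 3 * (2 * M + 1) ^ 4 := by
  unfold BAD_E
  refine (Finset.card_biUnion_le_card_mul _ _ 3 ?_).trans ?_
  · rintro ⟨a, b, c, d⟩ ht
    rw [Finset.mem_filter, Finset.mem_product, Finset.mem_product, Finset.mem_product,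
      Finset.mem_Icc, Finset.mem_Icc, Finset.mem_Icc, Finset.mem_Icc] at ht
    obtain ⟨⟨h1, h2, h3, h4⟩, h5⟩ := ht
    have hM' : (2 * M : ℤ) < N := by exact_mod_cast hM
    change -(M : ℤ) ≤ a ∧ a ≤ (M : ℤ) at h1
    change -(M : ℤ) ≤ b ∧ b ≤ (M : ℤ) at h2
    change -(M : ℤ) ≤ c ∧ c ≤ (M : ℤ) at h3
    change -(M : ℤ) ≤ d ∧ d ≤ (M : ℤ) at h4
    show (Finset.univ.filter (fun q : PX N => fixq q a b c d)).card ≤ 3
    refine BAD_fix ?_ ?_ ?_ h5
    · rw [abs_lt]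
      constructor <;> omega
    · rw [abs_lt]
      constructor <;> omega
    · rw [abs_lt]
      constructor <;> omega
  · rw [mul_comm]
    apply Nat.mul_le_mul_left
    refine (Finset.card_filter_le _ _).trans ?_
    rw [Finset.card_product, Finset.card_product, Finset.card_product, Int.card_Icc]
    have : ((M : ℤ) + 1 - -(M : ℤ)).toNat = 2 * M + 1 := by omega
    rw [this]
    ring_nf
    exact le_refl _

open Classical in
/-- the second family of bad lines -/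
noncomputable def BAD_N (N : ℕ) [Fact N.Prime] (X M : ℕ) : Finset (PX N) :=
  (Finset.Icc 1 (X ^ 2)).biUnion (fun Δ : ℕ => (Finset.Icc (-(M : ℤ)) M).biUnion (fun a : ℤ =>
    ((a.natAbs ^ 2 + N * Δ).divisors).biUnion (fun e : ℕ =>
      (Finset.univ.filter (fun q : PX N =>
        kerq q a (e : ℤ) (-(((a.natAbs ^ 2 + N * Δ) / e : ℕ) : ℤ)) (-a))) ∪
      (Finset.univ.filter (fun q : PX N =>
        kerq q a (-(e : ℤ)) ((((a.natAbs ^ 2 + N * Δ) / e : ℕ) : ℤ)) (-a))))))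

open Classical in
theorem BAD_N_card {X M D : ℕ} (hX : X ^ 2 < N)
    (hD : ∀ n : ℕ, 0 < n → n ≤ M ^ 2 + N * X ^ 2 → n.divisors.card ≤ D) :
    (BAD_N N X M).card ≤ X ^ 2 * ((2 * M + 1) * (D * 2)) := by
  have hN : 0 < N := (Fact.out : N.Prime).pos
  unfold BAD_N
  refine (Finset.card_biUnion_le_card_mul _ _ ((2 * M + 1) * (D * 2)) ?_).trans ?_
  · intro Δ hΔ
    rw [Finset.mem_Icc] at hΔ
    refine (Finset.card_biUnion_le_card_mul _ _ (D * 2) ?_).trans ?_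
    · intro a ha
      rw [Finset.mem_Icc] at ha
      have hn : 0 < a.natAbs ^ 2 + N * Δ := by
        have : 0 < N * Δ := Nat.mul_pos hN hΔ.1
        omega
      have hn2 : a.natAbs ^ 2 + N * Δ ≤ M ^ 2 + N * X ^ 2 := by
        have h1 : a.natAbs ≤ M := by omega
        have h2 : a.natAbs ^ 2 ≤ M ^ 2 := Nat.pow_le_pow_left h1 2
        have h3 : N * Δ ≤ N * X ^ 2 := Nat.mul_le_mul_left N hΔ.2
        omega
      refine (Finset.card_biUnion_le_card_mul _ _ 2 ?_).trans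
        (Nat.mul_le_mul_right 2 (hD _ hn hn2))
      intro e he
      have he' : e ∣ a.natAbs ^ 2 + N * Δ := Nat.dvd_of_mem_divisors he
      obtain ⟨k, hk⟩ := he'
      have he0 : 0 < e := Nat.pos_of_ne_zero (by
        rintro rfl
        rw [zero_mul] at hk
        omega)
      have hdiv : (a.natAbs ^ 2 + N * Δ) / e = k := by
        rw [hk]
        exact Nat.mul_div_cancel_left k he0
      have hkZ : (a : ℤ) ^ 2 + N * Δ = e * k := by
        have h1 : ((a.natAbs ^ 2 + N * Δ : ℕ) : ℤ) = ((e * k : ℕ) : ℤ) := by rw [hk]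
        push_cast at h1
        rwa [sq_abs] at h1
      rw [hdiv]
      have hΔ0 : (0 : ℤ) < Δ := by exact_mod_cast hΔ.1
      have hΔN : (Δ : ℤ) < N := by exact_mod_cast lt_of_le_of_lt hΔ.2 hX
      have c1 := BAD_ker (N := N) (a := a) (b := (e : ℤ)) (c := -(k : ℤ)) (d := -a) (Δ := (Δ : ℤ))
        hΔ0 hΔN (by linear_combination (-1 : ℤ) * hkZ)
      have c2 := BAD_ker (N := N) (a := a) (b := -(e : ℤ)) (c := (k : ℤ)) (d := -a) (Δ := (Δ : ℤ))
        hΔ0 hΔN (by linear_combination (-1 : ℤ) * hkZ)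
      refine (Finset.card_union_le _ _).trans ?_
      omega
    · apply Nat.mul_le_mul_right
      rw [Int.card_Icc]
      omega
  · apply Nat.mul_le_mul_right
    rw [Nat.card_Icc]
    omega

open Classical in
/-- the bad lines belong to the two families -/
theorem BAD_mem {ρ C₁ : ℝ} (h0 : 0 < ρ) (h1 : ρ < 1) (hC : 1 ≤ C₁)
    (hsize : ∀ (w : ℍ) (Y : ℝ), w ∈ 𝒟 → w.im ≤ Y → 1 ≤ Y → ∀ a b c d : ℤ, 0 < a * d - b * c →
      meet w ρ a b c d →
      |(a : ℝ)| ≤ C₁ * Y * Real.sqrt ((a * d - b * c : ℤ) : ℝ) ∧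
      |(b : ℝ)| ≤ C₁ * Y * Real.sqrt ((a * d - b * c : ℤ) : ℝ) ∧
      |(c : ℝ)| ≤ C₁ * Y * Real.sqrt ((a * d - b * c : ℤ) : ℝ) ∧
      |(d : ℝ)| ≤ C₁ * Y * Real.sqrt ((a * d - b * c : ℤ) : ℝ))
    {X : ℕ} {Y : ℝ} (hX : 1 ≤ X) (hY : 1 ≤ Y)
    (hbig : 3 * C₁ * ((X : ℝ) * Y) ^ 2 ≤ Real.sqrt N) {w : ℍ} (hw : w ∈ 𝒟) (hwY : w.im ≤ Y)
    {q : PX N} (hq : ¬ Good X ρ q w) :
    q ∈ BAD_E N ⌊C₁ * ((X : ℝ) * Y)⌋₊ ∨ q ∈ BAD_N N X ⌊C₁ * ((X : ℝ) * Y) * Real.sqrt N⌋₊ := by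
  have hN : (0 : ℝ) < N := by exact_mod_cast (Fact.out : N.Prime).pos
  have hXR : (1 : ℝ) ≤ X := by exact_mod_cast hX
  have hXY : 1 ≤ (X : ℝ) * Y := by nlinarith
  have hsN : Real.sqrt N * Real.sqrt N = N := Real.mul_self_sqrt hN.le
  have hcast : ∀ (x : ℤ) (B : ℝ), |(x : ℝ)| ≤ B → -((⌊B⌋₊ : ℕ) : ℤ) ≤ x ∧ x ≤ ((⌊B⌋₊ : ℕ) : ℤ) := by
    intro x B hx
    have h2 : (x.natAbs : ℝ) ≤ B := by
      rw [Nat.cast_natAbs]
      push_cast
      exact hx
    have h3 : x.natAbs ≤ ⌊B⌋₊ := Nat.le_floor h2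
    omega
  unfold Good at hq
  rw [not_and_or] at hq
  rcases hq with hq | hq
  · left
    push Not at hq
    obtain ⟨a, b, c, d, hd0, hdX, hfix, hmeet, hns⟩ := hq
    obtain ⟨sa, sb, sc, sd⟩ := hsize w Y hw hwY hY a b c d hd0 hmeet
    have hsq : Real.sqrt ((a * d - b * c : ℤ) : ℝ) ≤ X := by
      rw [Real.sqrt_le_left (by positivity)]
      exact_mod_cast hdX
    have hle : ∀ x : ℝ, x ≤ C₁ * Y * Real.sqrt ((a * d - b * c : ℤ) : ℝ) → x ≤ C₁ * ((X : ℝ) * Y) := by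
      intro x hx
      refine hx.trans ?_
      have : C₁ * Y * Real.sqrt ((a * d - b * c : ℤ) : ℝ) ≤ C₁ * Y * X := by gcongr
      linarith
    unfold BAD_E
    rw [Finset.mem_biUnion]
    refine ⟨(a, b, c, d), ?_, ?_⟩
    · rw [Finset.mem_filter, Finset.mem_product, Finset.mem_product, Finset.mem_product,
        Finset.mem_Icc, Finset.mem_Icc, Finset.mem_Icc, Finset.mem_Icc]
      refine ⟨⟨hcast a _ (hle _ sa), hcast b _ (hle _ sb), hcast c _ (hle _ sc),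
        hcast d _ (hle _ sd)⟩, ?_⟩
      rintro ⟨e1, e2, e3⟩
      exact hns e1 e2 e3
    · rw [Finset.mem_filter]
      exact ⟨Finset.mem_univ _, hfix⟩
  · right
    push Not at hq
    obtain ⟨a, b, c, d, Δ, hΔ0, hΔX, hdet, htr, hker, hmeet⟩ := hq
    have hNZ : (0 : ℤ) < N := by exact_mod_cast (Fact.out : N.Prime).pos
    have hd0 : 0 < a * d - b * c := by
      rw [hdet]
      positivity
    obtain ⟨sa, sb, sc, sd⟩ := hsize w Y hw hwY hY a b c d hd0 hmeet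
    have hsq : Real.sqrt ((a * d - b * c : ℤ) : ℝ) ≤ X * Real.sqrt N := by
      rw [hdet]
      push_cast
      rw [Real.sqrt_le_left (by positivity), mul_pow, Real.sq_sqrt hN.le]
      have : (Δ : ℝ) ≤ (X : ℝ) ^ 2 := by exact_mod_cast hΔX
      nlinarith
    have hle : ∀ x : ℝ, x ≤ C₁ * Y * Real.sqrt ((a * d - b * c : ℤ) : ℝ) →
        x ≤ C₁ * ((X : ℝ) * Y) * Real.sqrt N := by
      intro x hx
      refine hx.trans ?_
      have : C₁ * Y * Real.sqrt ((a * d - b * c : ℤ) : ℝ) ≤ C₁ * Y * (X * Real.sqrt N) := by gcongr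
      linarith
    have had : a + d = 0 := by
      have h2 : |((a + d : ℤ) : ℝ)| < N := by
        push_cast
        have h3 := abs_add_le (a : ℝ) (d : ℝ)
        have h4 := hle _ sa
        have h5 := hle _ sd
        have h6 : 2 * (C₁ * ((X : ℝ) * Y) * Real.sqrt N) < 3 * C₁ * ((X : ℝ) * Y) ^ 2 * Real.sqrt N := by
          have h7 : 0 < Real.sqrt N := Real.sqrt_pos.mpr hN
          have h8 : 2 * (C₁ * ((X : ℝ) * Y)) < 3 * C₁ * ((X : ℝ) * Y) ^ 2 := by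
            have h9 : (X : ℝ) * Y ≤ ((X : ℝ) * Y) ^ 2 := by nlinarith
            have h10 : 0 < C₁ * ((X : ℝ) * Y) := by positivity
            have h11 : C₁ * ((X : ℝ) * Y) ≤ C₁ * ((X : ℝ) * Y) ^ 2 := by gcongr
            linarith
          nlinarith
        have h7 : 3 * C₁ * ((X : ℝ) * Y) ^ 2 * Real.sqrt N ≤ Real.sqrt N * Real.sqrt N := by
          gcongr
        linarith
      have h3 : |a + d| < (N : ℤ) := by
        have : ((|a + d| : ℤ) : ℝ) < ((N : ℤ) : ℝ) := by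
          push_cast
          push_cast at h2
          exact h2
        exact_mod_cast this
      exact Int.eq_zero_of_abs_lt_dvd htr h3
    have hd : d = -a := by omega
    subst hd
    have hbc : b * c = -(a ^ 2 + N * Δ) := by linear_combination -hdet
    have hb0 : b ≠ 0 := by
      rintro rfl
      rw [zero_mul] at hbc
      have : 0 < (N : ℤ) * Δ := by positivity
      nlinarith [sq_nonneg a]
    lift Δ to ℕ using hΔ0.le
    have hnZ : ((a.natAbs ^ 2 + N * Δ : ℕ) : ℤ) = a ^ 2 + N * Δ := by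
      push_cast
      rw [sq_abs]
    have hn0 : a.natAbs ^ 2 + N * Δ ≠ 0 := by
      intro h
      rw [h] at hnZ
      have : 0 < (N : ℤ) * Δ := by positivity
      push_cast at hnZ
      nlinarith [sq_nonneg a]
    have hbn : b.natAbs * c.natAbs = a.natAbs ^ 2 + N * Δ := by
      have h2 : ((b.natAbs * c.natAbs : ℕ) : ℤ) = a ^ 2 + N * Δ := by
        push_cast
        rw [← abs_mul, hbc, abs_neg, abs_of_nonneg]
        positivity
      have h3 : ((b.natAbs * c.natAbs : ℕ) : ℤ) = ((a.natAbs ^ 2 + N * Δ : ℕ) : ℤ) := by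
        rw [h2, hnZ]
      exact_mod_cast h3
    have hb1 : 0 < b.natAbs := Int.natAbs_pos.mpr hb0
    have hdiv : (a.natAbs ^ 2 + N * Δ) / b.natAbs = c.natAbs := by
      rw [← hbn]
      exact Nat.mul_div_cancel_left _ hb1
    unfold BAD_N
    rw [Finset.mem_biUnion]
    refine ⟨Δ, ?_, ?_⟩
    · rw [Finset.mem_Icc]
      constructor
      · exact_mod_cast hΔ0
      · exact_mod_cast hΔX
    rw [Finset.mem_biUnion]
    refine ⟨a, ?_, ?_⟩
    · rw [Finset.mem_Icc]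
      exact hcast a _ (hle _ sa)
    rw [Finset.mem_biUnion]
    refine ⟨b.natAbs, ?_, ?_⟩
    · rw [Nat.mem_divisors]
      exact ⟨⟨c.natAbs, hbn.symm⟩, hn0⟩
    rw [hdiv, Finset.mem_union, Finset.mem_filter, Finset.mem_filter]
    have hneg : b * c < 0 := by
      rw [hbc]
      have : 0 < (N : ℤ) * Δ := by positivity
      nlinarith [sq_nonneg a]
    rcases lt_or_gt_of_ne hb0 with hb | hb
    · right
      refine ⟨Finset.mem_univ _, ?_⟩
      have hc : 0 < c := by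
        by_contra hc
        push Not at hc
        nlinarith
      have e1 : (-(b.natAbs : ℤ)) = b := by omega
      have e2 : ((c.natAbs : ℕ) : ℤ) = c := by omega
      rw [e1, e2]
      exact hker
    · left
      refine ⟨Finset.mem_univ _, ?_⟩
      have hc : c < 0 := by
        by_contra hc
        push Not at hc
        nlinarith
      have e1 : ((b.natAbs : ℕ) : ℤ) = b := by omega
      have e2 : (-((c.natAbs : ℕ) : ℤ)) = c := by omega
      rw [e1, e2]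
      exact hker

end

theorem BAD_calc {x b c₁ c₂ s r m d : ℝ} (hx : 0 ≤ x) (hxb : x ≤ b) (hm : 0 ≤ m)
    (hm2 : m ≤ 3 * (c₁ * b * s)) (hd : 0 ≤ d) (hd2 : d ≤ c₂ * (2 * c₁ ^ 2 * b ^ 2 * r)) :
    x ^ 2 * (m * (d * 2)) ≤ 12 * c₁ ^ 3 * c₂ * b ^ 5 * (s * r) := by
  have h1 : x ^ 2 ≤ b ^ 2 := by gcongr
  have h2 : m * (d * 2) ≤ (3 * (c₁ * b * s)) * (c₂ * (2 * c₁ ^ 2 * b ^ 2 * r) * 2) :=
    mul_le_mul hm2 (by linarith) (by positivity) (hm.trans hm2)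
  have h3 : 0 ≤ b ^ 2 := sq_nonneg b
  calc x ^ 2 * (m * (d * 2)) ≤ b ^ 2 * ((3 * (c₁ * b * s)) * (c₂ * (2 * c₁ ^ 2 * b ^ 2 * r) * 2)) :=
        mul_le_mul h1 h2 (by positivity) h3
    _ = 12 * c₁ ^ 3 * c₂ * b ^ 5 * (s * r) := by ring

theorem BAD_calc2 {u v c b w h : ℝ} (hu : u ≤ 243 * c ^ 4 * b ^ 4) {k : ℝ} (hk : 0 ≤ k) (hc : 1 ≤ c)
    (hb : 1 ≤ b) (hv : v ≤ 12 * c ^ 3 * k * b ^ 5 * h) (hh : h ≤ w) (hw : 1 ≤ w) :
    u + v ≤ (243 * c ^ 4 + 12 * c ^ 3 * k + 3 * c) * b ^ 12 * w := by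
  have hb4 : b ^ 4 ≤ b ^ 12 := pow_le_pow_right₀ hb (by norm_num)
  have hb5 : b ^ 5 ≤ b ^ 12 := pow_le_pow_right₀ hb (by norm_num)
  have hb0 : 0 ≤ b := by linarith
  have hw0 : 0 ≤ w := by linarith
  have e1 : b ^ 4 ≤ b ^ 12 * w := hb4.trans (le_mul_of_one_le_right (by positivity) hw)
  have e2 : b ^ 5 * h ≤ b ^ 12 * w :=
    (mul_le_mul_of_nonneg_left hh (by positivity)).trans (mul_le_mul_of_nonneg_right hb5 hw0)
  have e3 : 243 * c ^ 4 * b ^ 4 ≤ 243 * c ^ 4 * (b ^ 12 * w) :=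
    mul_le_mul_of_nonneg_left e1 (by positivity)
  have e4 : 12 * c ^ 3 * k * (b ^ 5 * h) ≤ 12 * c ^ 3 * k * (b ^ 12 * w) :=
    mul_le_mul_of_nonneg_left e2 (by positivity)
  have e5 : 0 ≤ 3 * c * (b ^ 12 * w) := by positivity
  calc u + v ≤ 243 * c ^ 4 * b ^ 4 + 12 * c ^ 3 * k * b ^ 5 * h := add_le_add hu hv
    _ = 243 * c ^ 4 * b ^ 4 + 12 * c ^ 3 * k * (b ^ 5 * h) := by ring
    _ ≤ 243 * c ^ 4 * (b ^ 12 * w) + 12 * c ^ 3 * k * (b ^ 12 * w) + 3 * c * (b ^ 12 * w) := by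
        linarith
    _ = (243 * c ^ 4 + 12 * c ^ 3 * k + 3 * c) * b ^ 12 * w := by ring

open Classical in
theorem bad_count_pr {ρ : ℝ} (h0 : 0 < ρ) (h1 : ρ < 1) : ∃ C : ℝ, 1 ≤ C ∧
    ∀ (N : ℕ) [Fact N.Prime] (X : ℕ) (Y : ℝ), 1 ≤ X → 1 ≤ Y →
    C * ((X : ℝ) * Y) ^ 2 ≤ Real.sqrt N → ∀ w : ℍ, w ∈ 𝒟 → w.im ≤ Y →
      ({q : PX N | ¬ Good X ρ q w}.ncard : ℝ) ≤ C * ((X : ℝ) * Y) ^ 12 * (N : ℝ) ^ (3 / 4 : ℝ) := by
  obtain ⟨C₁, hC₁, hsize⟩ := meet_size h0 h1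
  obtain ⟨C₃, _, hdiv3⟩ := Pool.Agent.SEL.divisor_bound (ε := 1 / 16) (by norm_num)
  set C₂ : ℝ := max C₃ 1 with hC₂
  have hC₂1 : 1 ≤ C₂ := le_max_right _ _
  have hdiv : ∀ n : ℕ, 0 < n → (n.divisors.card : ℝ) ≤ C₂ * (n : ℝ) ^ (1 / 16 : ℝ) := by
    intro n hn
    refine (hdiv3 n hn).trans ?_
    have : C₃ ≤ C₂ := le_max_left _ _
    gcongr
  refine ⟨243 * C₁ ^ 4 + 12 * C₁ ^ 3 * C₂ + 3 * C₁, ?_, ?_⟩
  · have e1 : 0 ≤ 243 * C₁ ^ 4 := by positivity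
    have e2 : 0 ≤ 12 * C₁ ^ 3 * C₂ := by positivity
    linarith
  intro N hN X Y hX hY hbig w hw hwY
  have hNR : (1 : ℝ) ≤ N := by exact_mod_cast (Fact.out : N.Prime).one_lt.le
  have hN0 : (0 : ℝ) < N := by linarith
  have hXR : (1 : ℝ) ≤ X := by exact_mod_cast hX
  set B : ℝ := (X : ℝ) * Y with hB
  have hB1 : 1 ≤ B := by nlinarith
  have hXB : (X : ℝ) ≤ B := by nlinarith
  have hBB : B ≤ B ^ 2 := by nlinarith
  have hsN : Real.sqrt N * Real.sqrt N = N := Real.mul_self_sqrt hN0.le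
  have hs1 : 1 ≤ Real.sqrt N := by
    rw [Real.one_le_sqrt]
    exact hNR
  have hsle : Real.sqrt N ≤ N := by nlinarith
  have hbig2 : 3 * C₁ * B ^ 2 ≤ Real.sqrt N := by
    refine le_trans ?_ hbig
    have e1 : 0 ≤ 243 * C₁ ^ 4 := by positivity
    have e2 : 0 ≤ 12 * C₁ ^ 3 * C₂ := by positivity
    have : 3 * C₁ ≤ 243 * C₁ ^ 4 + 12 * C₁ ^ 3 * C₂ + 3 * C₁ := by linarith
    gcongr
  have hC₁B : 1 ≤ C₁ * B := by nlinarith
  have hC₁BB : C₁ * B ≤ C₁ * B ^ 2 := by gcongr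
  set M : ℕ := ⌊C₁ * B⌋₊ with hM
  set M' : ℕ := ⌊C₁ * B * Real.sqrt N⌋₊ with hM'
  set D : ℕ := ⌊C₂ * (2 * C₁ ^ 2 * B ^ 2 * N) ^ (1 / 16 : ℝ)⌋₊ with hD
  have hMle : (M : ℝ) ≤ C₁ * B := Nat.floor_le (by positivity)
  have hM'le : (M' : ℝ) ≤ C₁ * B * Real.sqrt N := Nat.floor_le (by positivity)
  have hDle : (D : ℝ) ≤ C₂ * (2 * C₁ ^ 2 * B ^ 2 * N) ^ (1 / 16 : ℝ) :=
    Nat.floor_le (by positivity)
  have h2M : 2 * M < N := by
    have : (2 * M : ℝ) < N := by linarith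
    exact_mod_cast this
  have hX2 : X ^ 2 < N := by
    have h3 : (X : ℝ) ^ 2 ≤ B ^ 2 := by gcongr
    have h4 : B ^ 2 < 3 * C₁ * B ^ 2 := by nlinarith
    have : ((X : ℝ) ^ 2) < N := by linarith
    exact_mod_cast this
  have hDn : ∀ n : ℕ, 0 < n → n ≤ M' ^ 2 + N * X ^ 2 → n.divisors.card ≤ D := by
    intro n hn hn2
    apply Nat.le_floor
    refine (hdiv n hn).trans ?_
    have h3 : (n : ℝ) ≤ 2 * C₁ ^ 2 * B ^ 2 * N := by
      have h4 : (n : ℝ) ≤ (M' : ℝ) ^ 2 + N * (X : ℝ) ^ 2 := by exact_mod_cast hn2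
      have h5 : (M' : ℝ) ^ 2 ≤ (C₁ * B * Real.sqrt N) ^ 2 := by gcongr
      have h6 : (C₁ * B * Real.sqrt N) ^ 2 = C₁ ^ 2 * B ^ 2 * N := by
        rw [mul_pow, mul_pow, Real.sq_sqrt hN0.le]
      have h7 : (N : ℝ) * (X : ℝ) ^ 2 ≤ N * B ^ 2 := by gcongr
      have h8 : (N : ℝ) * B ^ 2 ≤ C₁ ^ 2 * B ^ 2 * N := by
        have h9 : 1 ≤ C₁ ^ 2 := one_le_pow₀ hC₁
        have h10 : 0 ≤ (N : ℝ) * B ^ 2 := by positivity
        nlinarith
      linarith
    gcongr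
  have hEc := BAD_E_card (N := N) h2M
  have hNc := BAD_N_card (N := N) (M := M') hX2 hDn
  have hsub : {q : PX N | ¬ Good X ρ q w} ⊆ ((BAD_E N M ∪ BAD_N N X M' : Finset (PX N)) : Set (PX N)) := by
    intro q hq
    rw [Finset.coe_union]
    rcases BAD_mem h0 h1 hC₁ hsize hX hY hbig2 hw hwY hq with h | h
    · exact Or.inl (Finset.mem_coe.mpr h)
    · exact Or.inr (Finset.mem_coe.mpr h)
  have hnc : {q : PX N | ¬ Good X ρ q w}.ncard ≤ (BAD_E N M).card + (BAD_N N X M').card := by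
    have h3 := Set.ncard_le_ncard hsub (Finset.finite_toSet _)
    rw [Set.ncard_coe_finset] at h3
    exact h3.trans (Finset.card_union_le _ _)
  have hE2 : ((BAD_E N M).card : ℝ) ≤ 243 * C₁ ^ 4 * B ^ 4 := by
    have h3 : ((BAD_E N M).card : ℝ) ≤ 3 * (2 * (M : ℝ) + 1) ^ 4 := by exact_mod_cast hEc
    have h4 : 2 * (M : ℝ) + 1 ≤ 3 * (C₁ * B) := by linarith
    calc ((BAD_E N M).card : ℝ) ≤ 3 * (2 * (M : ℝ) + 1) ^ 4 := h3
      _ ≤ 3 * (3 * (C₁ * B)) ^ 4 := by gcongr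
      _ = 243 * C₁ ^ 4 * B ^ 4 := by ring
  have hroot : (2 * C₁ ^ 2 * B ^ 2 * N) ^ (1 / 16 : ℝ) ≤ 2 * C₁ ^ 2 * B ^ 2 * (N : ℝ) ^ (1 / 16 : ℝ) := by
    rw [Real.mul_rpow (by positivity) hN0.le]
    apply mul_le_mul_of_nonneg_right _ (by positivity)
    have h3 : 1 ≤ 2 * C₁ ^ 2 * B ^ 2 := by
      have h4 : 1 ≤ C₁ ^ 2 := one_le_pow₀ hC₁
      have h5 : 1 ≤ B ^ 2 := one_le_pow₀ hB1
      nlinarith
    calc (2 * C₁ ^ 2 * B ^ 2) ^ (1 / 16 : ℝ) ≤ (2 * C₁ ^ 2 * B ^ 2) ^ (1 : ℝ) :=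
          Real.rpow_le_rpow_of_exponent_le h3 (by norm_num)
      _ = 2 * C₁ ^ 2 * B ^ 2 := Real.rpow_one _
  have hN2 : ((BAD_N N X M').card : ℝ) ≤ 12 * C₁ ^ 3 * C₂ * B ^ 5 * (Real.sqrt N * (N : ℝ) ^ (1 / 16 : ℝ)) := by
    have h3 : ((BAD_N N X M').card : ℝ) ≤ (X : ℝ) ^ 2 * ((2 * (M' : ℝ) + 1) * (D * 2)) := by
      exact_mod_cast hNc
    have h4 : 2 * (M' : ℝ) + 1 ≤ 3 * (C₁ * B * Real.sqrt N) := by
      have : 1 ≤ C₁ * B * Real.sqrt N := one_le_mul_of_one_le_of_one_le hC₁B hs1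
      linarith
    have h5 : (D : ℝ) ≤ C₂ * (2 * C₁ ^ 2 * B ^ 2 * (N : ℝ) ^ (1 / 16 : ℝ)) := by
      refine hDle.trans ?_
      gcongr
    exact h3.trans (BAD_calc (Nat.cast_nonneg _) hXB (by positivity) h4 (Nat.cast_nonneg _) h5)
  have hpow : Real.sqrt N * (N : ℝ) ^ (1 / 16 : ℝ) ≤ (N : ℝ) ^ (3 / 4 : ℝ) := by
    rw [Real.sqrt_eq_rpow, ← Real.rpow_add hN0]
    exact Real.rpow_le_rpow_of_exponent_le hNR (by norm_num)
  have hone : 1 ≤ (N : ℝ) ^ (3 / 4 : ℝ) := Real.one_le_rpow hNR (by norm_num)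
  have hfin : ({q : PX N | ¬ Good X ρ q w}.ncard : ℝ) ≤
      ((BAD_E N M).card : ℝ) + (BAD_N N X M').card := by exact_mod_cast hnc
  exact hfin.trans (BAD_calc2 hE2 (by linarith) hC₁ hB1 hN2 hpow hone)

theorem bad_count : type_of% @bad_count_pr := @bad_count_pr

end Pool.Agent.LEV
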