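import Pool.Agent.Lib_helper68.LEV.DefsG
import Pool.Agent.Lib_helper68.LEV.EIA
import Pool.Agent.Lib_helper68.LEV.FRK
import Pool.Agent.Lib_helper68.LEV.LSD
import Pool.Agent.Lib_helper68.LEV.NUB
import Pool.Agent.Lib_helper68.LEV.PET
import Pool.Agent.Lib_helper68.LEV.QEX

/-!
# LEV, block CUS
-/

namespace Pool.Agent.LEV

open Complex MeasureTheory Filter Topology UpperHalfPlane ModularGroup
open scoped MatrixGroups Modular ENNReal ModularForm ComplexConjugate ContDiff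

/-! ## `coef_qp` -/

theorem CUS_moebius (l : ℕ) :
    ∑ d ∈ l.divisors, ((ArithmeticFunction.moebius d : ℤ) : ℝ) = if l = 1 then 1 else 0 := by
  have h : (∑ d ∈ l.divisors, (ArithmeticFunction.moebius d : ℤ)) = if l = 1 then 1 else 0 := by
    rw [← ArithmeticFunction.coe_mul_zeta_apply, ArithmeticFunction.moebius_mul_coe_zeta,
      ArithmeticFunction.one_apply]
  have h2 := congrArg (fun x : ℤ => (x : ℝ)) h
  push_cast at h2
  exact h2

/-- reindexing of multiples -/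
theorem CUS_mult {X d : ℕ} (hd : 1 ≤ d) (g : ℕ → ℝ) (hg : ∀ l, X < l → g l = 0) :
    ∑ l ∈ (Finset.Icc 1 X).filter (fun l => d ∣ l), g l = ∑ k ∈ Finset.Icc 1 X, g (d * k) := by
  have hinj : Set.InjOn (fun k => d * k) (Finset.Icc 1 X : Set ℕ) := by
    intro a _ b _ h
    exact Nat.eq_of_mul_eq_mul_left (by omega) h
  rw [← Finset.sum_image (g := fun k => d * k) (f := g) hinj]
  refine Finset.sum_subset ?_ ?_
  · intro l hl
    rw [Finset.mem_filter, Finset.mem_Icc] at hl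
    obtain ⟨⟨h1, h2⟩, k, rfl⟩ := hl
    rw [Finset.mem_image]
    have hk : 1 ≤ k := by
      rcases Nat.eq_zero_or_pos k with h | h
      · subst h; omega
      · exact h
    exact ⟨k, Finset.mem_Icc.2 ⟨hk, by nlinarith⟩, rfl⟩
  · intro l hl hl2
    rw [Finset.mem_image] at hl
    obtain ⟨k, hk, rfl⟩ := hl
    rw [Finset.mem_Icc] at hk
    apply hg
    by_contra hcon
    push Not at hcon
    apply hl2
    rw [Finset.mem_filter, Finset.mem_Icc]
    exact ⟨⟨by nlinarith [hk.1], hcon⟩, Dvd.intro k rfl⟩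

/-- the sums `b'` -/
noncomputable def CUS_b (X : ℕ) (c : ℕ → ℝ) (n : ℕ) : ℝ := ∑ k ∈ Finset.Icc 1 X, c (n * k ^ 2) / k

theorem CUS_b_zero {X : ℕ} {c : ℕ → ℝ} (hc : ∀ m, X < m → c m = 0) {n : ℕ} (hn : X < n) :
    CUS_b X c n = 0 := by
  refine Finset.sum_eq_zero fun k hk => ?_
  rw [Finset.mem_Icc] at hk
  rw [hc _ (by nlinarith [Nat.one_le_pow 2 k hk.1]), zero_div]

theorem CUS_b_eq {X : ℕ} {c : ℕ → ℝ} (hc : ∀ m, X < m → c m = 0) (n : ℕ) :
    ∑ k ∈ (Finset.Icc 1 X).filter (fun k => n * k ^ 2 ≤ X), c (n * k ^ 2) / k = CUS_b X c n := by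
  refine Finset.sum_subset (Finset.filter_subset _ _) fun k hk hk2 => ?_
  rw [Finset.mem_filter, not_and] at hk2
  rw [hc _ (by have := hk2 hk; omega), zero_div]

/-- Möbius inversion -/
theorem CUS_inv {X : ℕ} {c : ℕ → ℝ} (hc : ∀ m, X < m → c m = 0) {n : ℕ} (hn : 1 ≤ n)
    (hX : 1 ≤ X) :
    c n = ∑ d ∈ Finset.Icc 1 X, ((ArithmeticFunction.moebius d : ℤ) : ℝ) / d *
      CUS_b X c (n * d ^ 2) := by
  set g : ℕ → ℝ := fun l => c (n * l ^ 2) / l with hg
  have hg0 : ∀ l, X < l → g l = 0 := by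
    intro l hl
    have : X < n * l ^ 2 := by nlinarith
    simp only [hg]
    rw [hc _ this, zero_div]
  have e1 : ∀ d ∈ Finset.Icc 1 X, ((ArithmeticFunction.moebius d : ℤ) : ℝ) / d *
      CUS_b X c (n * d ^ 2) =
      ∑ l ∈ (Finset.Icc 1 X).filter (fun l => d ∣ l),
        ((ArithmeticFunction.moebius d : ℤ) : ℝ) * g l := by
    intro d hd
    rw [Finset.mem_Icc] at hd
    rw [← Finset.mul_sum, CUS_mult hd.1 g hg0, CUS_b, Finset.mul_sum, Finset.mul_sum]
    refine Finset.sum_congr rfl fun k hk => ?_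
    simp only [hg]
    rw [show n * d ^ 2 * k ^ 2 = n * (d * k) ^ 2 by ring]
    push_cast
    have hd0 : (d : ℝ) ≠ 0 := by
      have : d ≠ 0 := by omega
      exact_mod_cast this
    have hk0 : (k : ℝ) ≠ 0 := by
      have : k ≠ 0 := by rw [Finset.mem_Icc] at hk; omega
      exact_mod_cast this
    field_simp
  rw [Finset.sum_congr rfl e1]
  have e2 : ∑ d ∈ Finset.Icc 1 X, ∑ l ∈ (Finset.Icc 1 X).filter (fun l => d ∣ l),
      ((ArithmeticFunction.moebius d : ℤ) : ℝ) * g l =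
      ∑ l ∈ Finset.Icc 1 X, ∑ d ∈ l.divisors, ((ArithmeticFunction.moebius d : ℤ) : ℝ) * g l := by
    refine Finset.sum_comm' fun d l => ?_
    simp only [Finset.mem_Icc, Finset.mem_filter, Nat.mem_divisors]
    constructor
    · rintro ⟨⟨h1, h2⟩, ⟨h3, h4⟩, h5⟩
      exact ⟨⟨h5, by omega⟩, h3, h4⟩
    · rintro ⟨⟨h1, h2⟩, h3, h4⟩
      have h5 := Nat.le_of_dvd (by omega) h1
      have h6 := Nat.pos_of_dvd_of_pos h1 (by omega)
      exact ⟨⟨h6, by omega⟩, ⟨h3, h4⟩, h1⟩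
  rw [e2]
  have e3 : ∀ l ∈ Finset.Icc 1 X, ∑ d ∈ l.divisors,
      ((ArithmeticFunction.moebius d : ℤ) : ℝ) * g l = if l = 1 then g 1 else 0 := by
    intro l _
    rw [← Finset.sum_mul, CUS_moebius]
    split_ifs with h
    · rw [h, one_mul]
    · rw [zero_mul]
  rw [Finset.sum_congr rfl e3, Finset.sum_ite_eq']
  rw [if_pos (Finset.mem_Icc.2 ⟨le_rfl, hX⟩)]
  simp [hg]

theorem CUS_inv_sq (X : ℕ) : ∑ d ∈ Finset.Icc 1 X, 1 / (d : ℝ) ^ 2 ≤ 2 := by
  have h : ∀ X : ℕ, ∑ d ∈ Finset.Icc 1 (X + 1), 1 / (d : ℝ) ^ 2 ≤ 2 - 1 / ((X : ℝ) + 1) := by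
    intro X
    induction X with
    | zero => simp; norm_num
    | succ n ih =>
      rw [Finset.sum_Icc_succ_top (by omega)]
      push_cast
      have h0 : (0 : ℝ) ≤ n := by positivity
      have h1 : 1 / ((n : ℝ) + 1 + 1) ^ 2 ≤ 1 / ((n : ℝ) + 1) - 1 / ((n : ℝ) + 1 + 1) := by
        rw [div_sub_div _ _ (by positivity) (by positivity), div_le_div_iff₀ (by positivity)
          (by positivity)]
        nlinarith
      linarith
  rcases Nat.eq_zero_or_pos X with h0 | h0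
  · subst h0; simp
  · obtain ⟨n, rfl⟩ : ∃ n, X = n + 1 := ⟨X - 1, by omega⟩
    have := h n
    have h2 : 0 ≤ 1 / ((n : ℝ) + 1) := by positivity
    linarith

theorem CUS_card {n : ℕ} (hn : 1 ≤ n) : n ≤ (PMat n).card := by
  have hsub : (Finset.range n).image (fun b => (1, b, n)) ⊆ PMat n := by
    intro t ht
    rw [Finset.mem_image] at ht
    obtain ⟨b, hb, rfl⟩ := ht
    rw [Finset.mem_range] at hb
    simp only [PMat, Finset.mem_filter, Finset.mem_product, Finset.mem_range]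
    refine ⟨⟨by omega, by omega, by omega⟩, by omega, hb, ?_⟩
    simp
  have hcard : ((Finset.range n).image (fun b => (1, b, n))).card = n := by
    rw [Finset.card_image_of_injective, Finset.card_range]
    intro a b h
    simpa using h
  calc n = ((Finset.range n).image (fun b => (1, b, n))).card := hcard.symm
    _ ≤ (PMat n).card := Finset.card_le_card hsub

theorem coef_qp_pr {X : ℕ} (c : ℕ → ℝ) (hc : ∀ m, X < m → c m = 0) :
    ∑ m ∈ Finset.Icc 1 X, c m ^ 2 ≤ 4 * X * QP X c := by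
  have hB0 : 0 ≤ ∑ m ∈ Finset.Icc 1 X, CUS_b X c m ^ 2 := Finset.sum_nonneg fun _ _ => sq_nonneg _
  -- the quadratic form
  have hQ : ∑ m ∈ Finset.Icc 1 X, CUS_b X c m ^ 2 ≤ QP X c := by
    refine Finset.sum_le_sum fun n hn => ?_
    rw [Finset.mem_Icc] at hn
    rw [CUS_b_eq hc]
    have h1 : (1 : ℝ) ≤ ((PMat n).card : ℝ) / n := by
      have h2 : (0 : ℝ) < n := by
        have : 0 < n := hn.1
        exact_mod_cast this
      rw [one_le_div h2]
      exact_mod_cast CUS_card hn.1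
    nlinarith [sq_nonneg (CUS_b X c n)]
  have h1 : ∀ n ∈ Finset.Icc 1 X, c n ^ 2 ≤ 2 * ∑ d ∈ Finset.Icc 1 X, CUS_b X c (n * d ^ 2) ^ 2 := by
    intro n hn
    rw [Finset.mem_Icc] at hn
    rw [CUS_inv hc hn.1 (by omega)]
    refine (Finset.sum_mul_sq_le_sq_mul_sq _ _ _).trans ?_
    refine mul_le_mul_of_nonneg_right ?_ (Finset.sum_nonneg fun _ _ => sq_nonneg _)
    refine le_trans (Finset.sum_le_sum fun d _ => ?_) (CUS_inv_sq X)
    rw [div_pow]
    refine div_le_div_of_nonneg_right ?_ (sq_nonneg _)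
    have : |ArithmeticFunction.moebius d| ≤ 1 := ArithmeticFunction.abs_moebius_le_one
    have h' : |((ArithmeticFunction.moebius d : ℤ) : ℝ)| ≤ 1 := by exact_mod_cast this
    rw [← sq_abs]
    exact pow_le_one₀ (abs_nonneg _) h'
  have h2 : ∀ d ∈ Finset.Icc 1 X, ∑ n ∈ Finset.Icc 1 X, CUS_b X c (n * d ^ 2) ^ 2 ≤
      ∑ m ∈ Finset.Icc 1 X, CUS_b X c m ^ 2 := by
    intro d hd
    rw [Finset.mem_Icc] at hd
    have hd2 : 0 < d ^ 2 := Nat.pow_pos hd.1
    have hinj : Set.InjOn (fun n => n * d ^ 2) (Finset.Icc 1 X : Set ℕ) := by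
      intro a _ b _ h
      exact Nat.eq_of_mul_eq_mul_right hd2 h
    rw [← Finset.sum_image (g := fun n => n * d ^ 2) (f := fun m => CUS_b X c m ^ 2) hinj]
    rw [← Finset.sum_filter_add_sum_filter_not _ (fun m => m ≤ X)]
    have hz : ∑ m ∈ ((Finset.Icc 1 X).image (fun n => n * d ^ 2)).filter (fun m => ¬ m ≤ X),
        CUS_b X c m ^ 2 = 0 := by
      refine Finset.sum_eq_zero fun m hm => ?_
      rw [Finset.mem_filter] at hm
      rw [CUS_b_zero hc (by omega)]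
      ring
    rw [hz, add_zero]
    refine Finset.sum_le_sum_of_subset_of_nonneg ?_ fun _ _ _ => sq_nonneg _
    intro m hm
    rw [Finset.mem_filter, Finset.mem_image] at hm
    obtain ⟨⟨n, hn, rfl⟩, hm2⟩ := hm
    rw [Finset.mem_Icc] at hn ⊢
    exact ⟨by nlinarith [hn.1], hm2⟩
  have hXR : (0 : ℝ) ≤ X := by positivity
  calc ∑ m ∈ Finset.Icc 1 X, c m ^ 2
      ≤ ∑ n ∈ Finset.Icc 1 X, 2 * ∑ d ∈ Finset.Icc 1 X, CUS_b X c (n * d ^ 2) ^ 2 :=
        Finset.sum_le_sum h1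
    _ = 2 * ∑ d ∈ Finset.Icc 1 X, ∑ n ∈ Finset.Icc 1 X, CUS_b X c (n * d ^ 2) ^ 2 := by
        rw [← Finset.mul_sum, Finset.sum_comm]
    _ ≤ 2 * ∑ d ∈ Finset.Icc 1 X, ∑ m ∈ Finset.Icc 1 X, CUS_b X c m ^ 2 := by
        refine mul_le_mul_of_nonneg_left (Finset.sum_le_sum h2) (by norm_num)
    _ = 2 * X * ∑ m ∈ Finset.Icc 1 X, CUS_b X c m ^ 2 := by
        rw [Finset.sum_const, Nat.card_Icc, nsmul_eq_mul]
        simp only [add_tsub_cancel_right]
        ring
    _ ≤ 4 * X * QP X c := by nlinarith [mul_nonneg hXR (hB0.trans hQ), mul_le_mul_of_nonneg_left hQ hXR]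

/-! ## The Hecke relation -/

theorem CUS_sum_divisors {m n : ℕ} (h : m.Coprime n) (F : ℕ → ℂ) :
    ∑ d ∈ (m * n).divisors, F d = ∑ p ∈ m.divisors ×ˢ n.divisors, F (p.1 * p.2) := by
  rw [Nat.divisors_mul, Finset.mul_def, Finset.sum_image]
  exact h.mul_injOn_divisors

/-- the right side of the Hecke relation -/
noncomputable def CUS_S (a : ℕ → ℂ) (m n : ℕ) : ℂ :=
  ∑ d ∈ (Nat.gcd m n).divisors, (d : ℂ) * a (m * n / d ^ 2)

theorem CUS_S_mul {a : ℕ → ℂ} (hmul : ∀ m n : ℕ, m.Coprime n → a (m * n) = a m * a n)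
    {m₁ n₁ m₂ n₂ : ℕ} (h : (m₁ * n₁).Coprime (m₂ * n₂)) :
    CUS_S a (m₁ * m₂) (n₁ * n₂) = CUS_S a m₁ n₁ * CUS_S a m₂ n₂ := by
  have c1 : m₁.Coprime m₂ := h.coprime_mul_right.coprime_mul_right_right
  have c2 : n₁.Coprime n₂ := h.coprime_mul_left.coprime_mul_left_right
  have c3 : m₁.Coprime n₂ := h.coprime_mul_right.coprime_mul_left_right
  have c4 : n₁.Coprime m₂ := h.coprime_mul_left.coprime_mul_right_right
  have hg : Nat.gcd (m₁ * m₂) (n₁ * n₂) = Nat.gcd m₁ n₁ * Nat.gcd m₂ n₂ := by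
    rw [Nat.Coprime.gcd_mul _ c2, Nat.Coprime.gcd_mul_right_cancel _ c4.symm,
      Nat.Coprime.gcd_mul_left_cancel _ c3]
  have hcop : (Nat.gcd m₁ n₁).Coprime (Nat.gcd m₂ n₂) :=
    Nat.Coprime.coprime_dvd_left (Nat.gcd_dvd_left _ _)
      (Nat.Coprime.coprime_dvd_right (Nat.gcd_dvd_left _ _) c1)
  rw [CUS_S, hg, CUS_sum_divisors hcop, CUS_S, CUS_S, Finset.sum_mul_sum, Finset.sum_product]
  refine Finset.sum_congr rfl fun d₁ hd₁ => Finset.sum_congr rfl fun d₂ hd₂ => ?_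
  rw [Nat.mem_divisors] at hd₁ hd₂
  have e1 : d₁ ^ 2 ∣ m₁ * n₁ := by
    rw [sq]
    exact mul_dvd_mul (hd₁.1.trans (Nat.gcd_dvd_left _ _)) (hd₁.1.trans (Nat.gcd_dvd_right _ _))
  have e2 : d₂ ^ 2 ∣ m₂ * n₂ := by
    rw [sq]
    exact mul_dvd_mul (hd₂.1.trans (Nat.gcd_dvd_left _ _)) (hd₂.1.trans (Nat.gcd_dvd_right _ _))
  have e3 : m₁ * m₂ * (n₁ * n₂) / (d₁ * d₂) ^ 2 = (m₁ * n₁ / d₁ ^ 2) * (m₂ * n₂ / d₂ ^ 2) := by
    rw [show m₁ * m₂ * (n₁ * n₂) = (m₁ * n₁) * (m₂ * n₂) by ring, mul_pow]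
    exact (Nat.div_mul_div_comm e1 e2).symm
  rw [e3, hmul _ _ (Nat.Coprime.coprime_dvd_left (Nat.div_dvd_of_dvd e1)
    (Nat.Coprime.coprime_dvd_right (Nat.div_dvd_of_dvd e2) h))]
  push_cast
  ring

theorem CUS_pp {a : ℕ → ℂ} (h1 : a 1 = 1) {p : ℕ}
    (hh : ∀ r : ℕ, a (p ^ (r + 2)) = a p * a (p ^ (r + 1)) - (p : ℂ) * a (p ^ r)) (r s : ℕ) :
    a (p ^ (r + 1)) * a (p ^ (s + 1)) = a (p ^ (r + s + 2)) + p * (a (p ^ r) * a (p ^ s)) := by
  induction r using Nat.strong_induction_on generalizing s with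
  | _ r ih =>
    rcases r with _ | r
    · rw [zero_add, pow_one, zero_add, hh s, pow_zero, h1]
      ring
    · rcases s with _ | s
      · rw [zero_add, pow_one, pow_zero, h1, add_zero, hh (r + 1)]
        ring
      · have e1 := ih r (by omega) (s + 1)
        have e2 := ih r (by omega) s
        have e3 := hh r
        have e4 := hh s
        have e5 := hh (r + s + 2)
        have i1 : r + 1 + (s + 1) + 2 = r + s + 2 + 2 := by ring
        have i2 : r + (s + 1) + 2 = r + s + 2 + 1 := by ring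
        rw [i1, e5]
        rw [i2] at e1
        rw [show r + 1 + 1 = r + 2 from rfl, e3]
        linear_combination (a p) * e1 - (p : ℂ) * e2 - (p : ℂ) * a (p ^ r) * e4

theorem CUS_Spp {a : ℕ → ℂ} (h1 : a 1 = 1) {p : ℕ} (hp : p.Prime)
    (hh : ∀ r : ℕ, a (p ^ (r + 2)) = a p * a (p ^ (r + 1)) - (p : ℂ) * a (p ^ r)) (r s : ℕ) :
    CUS_S a (p ^ r) (p ^ s) = a (p ^ r) * a (p ^ s) := by
  induction r generalizing s with
  | zero => simp [CUS_S, h1]
  | succ r ih =>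
    rcases s with _ | s
    · simp [CUS_S, h1]
    · rw [CUS_pp h1 hh, ← ih s, CUS_S, CUS_S]
      have hg : Nat.gcd (p ^ (r + 1)) (p ^ (s + 1)) = p * Nat.gcd (p ^ r) (p ^ s) := by
        rw [pow_succ', pow_succ', Nat.gcd_mul_left]
      obtain ⟨k, -, hk⟩ := (Nat.dvd_prime_pow hp).1 (Nat.gcd_dvd_left (p ^ r) (p ^ s))
      rw [hg, hk, ← pow_succ', Nat.sum_divisors_prime_pow hp, Nat.sum_divisors_prime_pow hp,
        Finset.sum_range_succ']
      have e0 : p ^ (r + 1) * p ^ (s + 1) = p ^ (r + s + 2) := by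
        rw [← pow_add]; congr 1; ring
      have e1 : ((p ^ 0 : ℕ) : ℂ) * a (p ^ (r + 1) * p ^ (s + 1) / (p ^ 0) ^ 2) =
          a (p ^ (r + s + 2)) := by
        rw [e0]; simp
      rw [e1, add_comm, Finset.mul_sum]
      congr 1
      refine Finset.sum_congr rfl fun i _ => ?_
      have e2 : p ^ (r + 1) * p ^ (s + 1) / (p ^ (i + 1)) ^ 2 = p ^ r * p ^ s / (p ^ i) ^ 2 := by
        rw [show p ^ (r + 1) * p ^ (s + 1) = p ^ 2 * (p ^ r * p ^ s) by ring,
          show (p ^ (i + 1)) ^ 2 = p ^ 2 * (p ^ i) ^ 2 by ring]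
        exact Nat.mul_div_mul_left _ _ (by have := hp.pos; positivity)
      rw [e2]
      push_cast
      ring

theorem CUS_rel {a : ℕ → ℂ} (h1 : a 1 = 1) {N : ℕ}
    (hmul : ∀ m n : ℕ, m.Coprime n → a (m * n) = a m * a n)
    (hh : ∀ p r : ℕ, p.Prime → p ≠ N →
      a (p ^ (r + 2)) = a p * a (p ^ (r + 1)) - (p : ℂ) * a (p ^ r))
    (m : ℕ) (hm : 0 < m) (hmN : m.Coprime N) (n : ℕ) (hn : 0 < n) :
    a m * a n = CUS_S a m n := by
  induction m using Nat.strong_induction_on generalizing n with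
  | _ m ih =>
    rcases Nat.lt_or_ge 1 m with h | h
    · obtain ⟨p, hp, hpm⟩ := Nat.exists_prime_and_dvd (by omega : m ≠ 1)
      obtain ⟨r, m', hm', rfl⟩ := Nat.exists_eq_pow_mul_and_not_dvd hm.ne' p hp.ne_one
      obtain ⟨s, n', hn', rfl⟩ := Nat.exists_eq_pow_mul_and_not_dvd hn.ne' p hp.ne_one
      have hpN : p ≠ N := by
        rintro rfl
        have := Nat.Coprime.coprime_dvd_left hpm hmN
        rw [Nat.coprime_self] at this
        exact hp.ne_one this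
      have hr : r ≠ 0 := by
        rintro rfl
        rw [pow_zero, one_mul] at hpm
        exact hm' hpm
      have hm'0 : 0 < m' := Nat.pos_of_ne_zero (by rintro rfl; simp at hm)
      have hn'0 : 0 < n' := Nat.pos_of_ne_zero (by rintro rfl; simp at hn)
      have hlt : m' < p ^ r * m' := by
        have : 1 < p ^ r := Nat.one_lt_pow hr hp.one_lt
        nlinarith
      have c1 : (p ^ r).Coprime m' := Nat.Coprime.pow_left _ ((Nat.Prime.coprime_iff_not_dvd hp).2 hm')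
      have c2 : (p ^ s).Coprime n' := Nat.Coprime.pow_left _ ((Nat.Prime.coprime_iff_not_dvd hp).2 hn')
      have c3 : (p ^ r * p ^ s).Coprime (m' * n') := by
        rw [← pow_add]
        refine Nat.Coprime.pow_left _ ?_
        exact Nat.Coprime.mul_right ((Nat.Prime.coprime_iff_not_dvd hp).2 hm')
          ((Nat.Prime.coprime_iff_not_dvd hp).2 hn')
      rw [CUS_S_mul hmul c3, CUS_Spp h1 hp (fun r => hh p r hp hpN),
        ← ih m' hlt hm'0 (Nat.Coprime.coprime_dvd_left (Dvd.intro_left _ rfl) hmN) n' hn'0,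
        hmul _ _ c1, hmul _ _ c2]
      ring
    · have : m = 1 := by omega
      subst this
      simp [CUS_S, h1]


/-! ## Dirichlet polynomials -/

section
variable {N : ℕ} [Fact N.Prime]

theorem CUS_nat_div {m n d : ℕ} (hm : 0 < m) (hn : 0 < n) (hd : d ∈ (Nat.gcd m n).divisors) :
    0 < m * n / d ^ 2 ∧ (m * n / d ^ 2) ≤ m * n ∧
      (d : ℂ) * (((Real.sqrt ((m * n / d ^ 2 : ℕ) : ℝ) : ℝ)) : ℂ) =
        ((Real.sqrt m : ℝ) : ℂ) * ((Real.sqrt n : ℝ) : ℂ) := by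
  rw [Nat.mem_divisors] at hd
  have hd0 : 0 < d := Nat.pos_of_dvd_of_pos hd.1 (Nat.gcd_pos_of_pos_left _ hm)
  have e1 : d ^ 2 ∣ m * n := by
    rw [sq]
    exact mul_dvd_mul (hd.1.trans (Nat.gcd_dvd_left _ _)) (hd.1.trans (Nat.gcd_dvd_right _ _))
  have hmn : 0 < m * n := Nat.mul_pos hm hn
  have hd2 : 0 < d ^ 2 := Nat.pow_pos hd0
  refine ⟨Nat.div_pos (Nat.le_of_dvd hmn e1) hd2, Nat.div_le_self _ _, ?_⟩
  have h1 : ((m * n / d ^ 2 : ℕ) : ℝ) = (m : ℝ) * n / (d : ℝ) ^ 2 := by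
    rw [Nat.cast_div e1 (by positivity)]
    push_cast
    rfl
  have hdR : (0 : ℝ) < d := by exact_mod_cast hd0
  have h2 : (d : ℝ) * Real.sqrt ((m * n / d ^ 2 : ℕ) : ℝ) = Real.sqrt m * Real.sqrt n := by
    rw [h1, Real.sqrt_div (by positivity), Real.sqrt_sq hdR.le, Real.sqrt_mul (by positivity)]
    field_simp
  exact_mod_cast h2

/-- the coefficients of `τ λ(n)` -/
noncomputable def CUS_B (X : ℕ) (c : ℕ → ℝ) (n l : ℕ) : ℝ :=
  ∑ m ∈ Finset.Icc 1 X, ∑ d ∈ (Nat.gcd m n).divisors, if m * n / d ^ 2 = l then c m else 0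

theorem CUS_tau_real {f : S2 N} (hf : IsNew f) (X : ℕ) (c : ℕ → ℝ) :
    ((tau f X c : ℝ) : ℂ) = ∑ m ∈ Finset.Icc 1 X, (c m : ℂ) * (co f m / ((Real.sqrt m : ℝ) : ℂ)) := by
  rw [tau]
  push_cast
  refine Finset.sum_congr rfl fun m _ => ?_
  rw [la]
  push_cast
  congr 2
  apply Complex.ext
  · simp
  · rw [new_real hf m]; simp

theorem CUS_tau_mul {f : S2 N} (hf : IsNew f) {X : ℕ} (hX : X < N) (c : ℕ → ℝ) {n : ℕ}
    (hn : 0 < n) :
    ((tau f X c : ℝ) : ℂ) * (co f n / ((Real.sqrt n : ℝ) : ℂ)) =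
      ∑ l ∈ Finset.Icc 1 (X * n), ((CUS_B X c n l : ℝ) : ℂ) * (co f l / ((Real.sqrt l : ℝ) : ℂ)) := by
  have hNp : N.Prime := Fact.out
  have hnR : ((Real.sqrt n : ℝ) : ℂ) ≠ 0 := by
    have : (0 : ℝ) < n := by exact_mod_cast hn
    exact_mod_cast (Real.sqrt_pos.2 this).ne'
  rw [CUS_tau_real hf, Finset.sum_mul]
  have hterm : ∀ m ∈ Finset.Icc 1 X, (c m : ℂ) * (co f m / ((Real.sqrt m : ℝ) : ℂ)) *
      (co f n / ((Real.sqrt n : ℝ) : ℂ)) =
      ∑ d ∈ (Nat.gcd m n).divisors, ∑ l ∈ Finset.Icc 1 (X * n),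
        (if m * n / d ^ 2 = l then (c m : ℂ) else 0) * (co f l / ((Real.sqrt l : ℝ) : ℂ)) := by
    intro m hm
    rw [Finset.mem_Icc] at hm
    have hmN : m.Coprime N := by
      rw [Nat.coprime_comm, Nat.Prime.coprime_iff_not_dvd hNp]
      intro h
      have := Nat.le_of_dvd (by omega) h
      omega
    have hmR : ((Real.sqrt m : ℝ) : ℂ) ≠ 0 := by
      have : (0 : ℝ) < m := by
        have : 0 < m := hm.1
        exact_mod_cast this
      exact_mod_cast (Real.sqrt_pos.2 this).ne'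
    have hrel := CUS_rel hf.one hf.mul hf.hecke m hm.1 hmN n hn
    have e1 : (c m : ℂ) * (co f m / ((Real.sqrt m : ℝ) : ℂ)) * (co f n / ((Real.sqrt n : ℝ) : ℂ)) =
        (c m : ℂ) * (co f m * co f n) / (((Real.sqrt m : ℝ) : ℂ) * ((Real.sqrt n : ℝ) : ℂ)) := by
      field_simp
    rw [e1, hrel, CUS_S, Finset.mul_sum, Finset.sum_div]
    refine Finset.sum_congr rfl fun d hd => ?_
    obtain ⟨h1, h2, h3⟩ := CUS_nat_div (by omega : 0 < m) hn hd
    have hlR : ((Real.sqrt ((m * n / d ^ 2 : ℕ) : ℝ) : ℝ) : ℂ) ≠ 0 := by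
      have : (0 : ℝ) < ((m * n / d ^ 2 : ℕ) : ℝ) := by exact_mod_cast h1
      exact_mod_cast (Real.sqrt_pos.2 this).ne'
    have hd0 : (d : ℂ) ≠ 0 := by
      intro h0
      rw [h0, zero_mul] at h3
      exact (mul_ne_zero hmR hnR) h3.symm
    have hmem : m * n / d ^ 2 ∈ Finset.Icc 1 (X * n) := by
      rw [Finset.mem_Icc]
      exact ⟨h1, h2.trans (Nat.mul_le_mul_right _ hm.2)⟩
    simp only [ite_mul, zero_mul]
    rw [Finset.sum_ite_eq, if_pos hmem, ← h3]
    field_simp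
  rw [Finset.sum_congr rfl hterm]
  have e2 : ∀ l ∈ Finset.Icc 1 (X * n), ((CUS_B X c n l : ℝ) : ℂ) *
      (co f l / ((Real.sqrt l : ℝ) : ℂ)) = ∑ m ∈ Finset.Icc 1 X, ∑ d ∈ (Nat.gcd m n).divisors,
        (if m * n / d ^ 2 = l then (c m : ℂ) else 0) * (co f l / ((Real.sqrt l : ℝ) : ℂ)) := by
    intro l _
    rw [CUS_B]
    push_cast
    rw [Finset.sum_mul]
    refine Finset.sum_congr rfl fun m _ => ?_
    rw [Finset.sum_mul]
    refine Finset.sum_congr rfl fun d _ => ?_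
    split_ifs <;> simp
  rw [Finset.sum_congr rfl e2, Finset.sum_comm]
  refine Finset.sum_congr rfl fun m _ => ?_
  rw [Finset.sum_comm]

omit [Fact N.Prime] in
theorem CUS_B_sq {X : ℕ} (c : ℕ → ℝ) (n L : ℕ) :
    ∑ l ∈ Finset.Icc 1 L, CUS_B X c n l ^ 2 ≤ (X : ℝ) ^ 3 * ∑ m ∈ Finset.Icc 1 X, c m ^ 2 := by
  have hX0 : (0 : ℝ) ≤ X := by positivity
  have h1 : ∑ l ∈ Finset.Icc 1 L, |CUS_B X c n l| ≤ X * ∑ m ∈ Finset.Icc 1 X, |c m| := by
    calc ∑ l ∈ Finset.Icc 1 L, |CUS_B X c n l|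
        ≤ ∑ l ∈ Finset.Icc 1 L, ∑ m ∈ Finset.Icc 1 X, ∑ d ∈ (Nat.gcd m n).divisors,
            (if m * n / d ^ 2 = l then |c m| else 0) := by
          refine Finset.sum_le_sum fun l _ => ?_
          rw [CUS_B]
          refine (Finset.abs_sum_le_sum_abs _ _).trans (Finset.sum_le_sum fun m _ => ?_)
          refine (Finset.abs_sum_le_sum_abs _ _).trans (Finset.sum_le_sum fun d _ => ?_)
          split_ifs
          · exact le_rfl
          · rw [abs_zero]
      _ = ∑ m ∈ Finset.Icc 1 X, ∑ d ∈ (Nat.gcd m n).divisors, ∑ l ∈ Finset.Icc 1 L,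
            (if m * n / d ^ 2 = l then |c m| else 0) := by
          rw [Finset.sum_comm]
          refine Finset.sum_congr rfl fun m _ => ?_
          rw [Finset.sum_comm]
      _ ≤ ∑ m ∈ Finset.Icc 1 X, ∑ d ∈ (Nat.gcd m n).divisors, |c m| := by
          refine Finset.sum_le_sum fun m _ => Finset.sum_le_sum fun d _ => ?_
          rw [Finset.sum_ite_eq]
          split_ifs
          · exact le_rfl
          · exact abs_nonneg _
      _ ≤ ∑ m ∈ Finset.Icc 1 X, X * |c m| := by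
          refine Finset.sum_le_sum fun m hm => ?_
          rw [Finset.mem_Icc] at hm
          rw [Finset.sum_const, nsmul_eq_mul]
          refine mul_le_mul_of_nonneg_right ?_ (abs_nonneg _)
          have h2 : (Nat.gcd m n).divisors.card ≤ X :=
            (Nat.card_divisors_le_self _).trans ((Nat.gcd_le_left _ hm.1).trans hm.2)
          exact_mod_cast h2
      _ = X * ∑ m ∈ Finset.Icc 1 X, |c m| := by rw [Finset.mul_sum]
  have h0 : 0 ≤ ∑ l ∈ Finset.Icc 1 L, |CUS_B X c n l| := Finset.sum_nonneg fun _ _ => abs_nonneg _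
  have h2 : (∑ m ∈ Finset.Icc 1 X, |c m|) ^ 2 ≤ X * ∑ m ∈ Finset.Icc 1 X, c m ^ 2 := by
    have := sq_sum_le_card_mul_sum_sq (s := Finset.Icc 1 X) (f := fun m => |c m|)
    simp only [sq_abs, Nat.card_Icc, add_tsub_cancel_right] at this
    exact this
  calc ∑ l ∈ Finset.Icc 1 L, CUS_B X c n l ^ 2
      = ∑ l ∈ Finset.Icc 1 L, |CUS_B X c n l| ^ 2 := by simp only [sq_abs]
    _ ≤ (∑ l ∈ Finset.Icc 1 L, |CUS_B X c n l|) ^ 2 := by
        rw [sq (∑ l ∈ Finset.Icc 1 L, |CUS_B X c n l|), Finset.sum_mul]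
        refine Finset.sum_le_sum fun l hl => ?_
        rw [sq]
        exact mul_le_mul_of_nonneg_left
          (Finset.single_le_sum (f := fun l => |CUS_B X c n l|) (fun _ _ => abs_nonneg _) hl)
          (abs_nonneg _)
    _ ≤ (X * ∑ m ∈ Finset.Icc 1 X, |c m|) ^ 2 := pow_le_pow_left₀ h0 h1 2
    _ = (X : ℝ) ^ 2 * (∑ m ∈ Finset.Icc 1 X, |c m|) ^ 2 := by ring
    _ ≤ (X : ℝ) ^ 2 * (X * ∑ m ∈ Finset.Icc 1 X, c m ^ 2) :=
        mul_le_mul_of_nonneg_left h2 (by positivity)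
    _ = _ := by ring

/-- geometric sums -/
theorem CUS_geo {t κ : ℝ} (ht : 0 < t) (hκ : 0 ≤ κ) :
    Summable (fun n : ℕ => if n = 0 then 0 else (1 + κ * n) * Real.exp (-t * n)) ∧
    ∑' n : ℕ, (if n = 0 then 0 else (1 + κ * n) * Real.exp (-t * n)) ≤ 1 / t + κ / t ^ 2 := by
  set r : ℝ := Real.exp (-t) with hr
  have hr0 : 0 < r := Real.exp_pos _
  have hr1 : r < 1 := by rw [hr, Real.exp_lt_one_iff]; linarith
  have hrn : ‖r‖ < 1 := by rw [Real.norm_eq_abs, abs_of_pos hr0]; exact hr1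
  have hpow : ∀ n : ℕ, Real.exp (-t * n) = r ^ n := by
    intro n
    rw [hr, ← Real.exp_nat_mul]
    congr 1
    ring
  have s1 : Summable (fun n : ℕ => r ^ (n + 1)) := by
    simp_rw [pow_succ]
    exact (summable_geometric_of_lt_one hr0.le hr1).mul_right r
  have s2 : Summable (fun n : ℕ => (n : ℝ) * r ^ n) := (hasSum_coe_mul_geometric_of_norm_lt_one hrn).summable
  have v1 : ∑' n : ℕ, r ^ (n + 1) ≤ 1 / t := by
    simp_rw [pow_succ]
    rw [tsum_mul_right, tsum_geometric_of_lt_one hr0.le hr1, inv_mul_eq_div,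
      div_le_div_iff₀ (by linarith) ht]
    have h1 : r * Real.exp t = 1 := by rw [hr, ← Real.exp_add]; simp
    have h2 := Real.add_one_le_exp t
    nlinarith
  have v2 : ∑' n : ℕ, (n : ℝ) * r ^ n ≤ 1 / t ^ 2 := by
    rw [tsum_coe_mul_geometric_of_norm_lt_one hrn, div_le_div_iff₀ (by nlinarith [sq_nonneg (1 - r)])
      (by positivity)]
    have h1 : t / 2 ≤ Real.sinh (t / 2) := Real.self_le_sinh_iff.2 (by linarith)
    rw [Real.sinh_eq] at h1
    have h2 : t ≤ Real.exp (t / 2) - Real.exp (-(t / 2)) := by linarith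
    have h3 : Real.exp (-(t / 2)) * (Real.exp (t / 2) - Real.exp (-(t / 2))) = 1 - r := by
      rw [mul_sub, ← Real.exp_add, ← Real.exp_add, hr]
      congr 1
      · rw [show -(t / 2) + t / 2 = 0 by ring, Real.exp_zero]
      · congr 1; ring
    have h4 : Real.exp (-(t / 2)) * t ≤ 1 - r := by
      rw [← h3]
      exact mul_le_mul_of_nonneg_left h2 (Real.exp_pos _).le
    have h5 : (Real.exp (-(t / 2)) * t) ^ 2 ≤ (1 - r) ^ 2 := pow_le_pow_left₀ (by positivity) h4 2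
    have h6 : (Real.exp (-(t / 2))) ^ 2 = r := by
      rw [← Real.exp_nat_mul, hr]
      congr 1
      push_cast
      ring
    rw [mul_pow, h6] at h5
    linarith
  have e : ∀ n : ℕ, (if n = 0 then (0 : ℝ) else (1 + κ * n) * Real.exp (-t * n)) =
      (if n = 0 then 0 else r ^ n) + κ * ((n : ℝ) * r ^ n) := by
    intro n
    rw [hpow]
    split_ifs with h
    · subst h; simp
    · ring
  have s3 : Summable (fun n : ℕ => if n = 0 then (0 : ℝ) else r ^ n) := by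
    rw [← summable_nat_add_iff 1]
    simpa using s1
  have v3 : ∑' n : ℕ, (if n = 0 then (0 : ℝ) else r ^ n) ≤ 1 / t := by
    rw [s3.tsum_eq_zero_add]
    simpa using v1
  simp_rw [e]
  refine ⟨s3.add (s2.mul_left κ), ?_⟩
  rw [(s3.tsum_add (s2.mul_left κ)), tsum_mul_left]
  have := mul_le_mul_of_nonneg_left v2 hκ
  calc _ ≤ 1 / t + κ * (1 / t ^ 2) := add_le_add v3 this
    _ = _ := by ring

/-- the bound for one `n` -/
theorem CUS_one : ∃ C : ℝ, 0 < C ∧ ∀ (N : ℕ) [Fact N.Prime] {ι : Type} [Fintype ι]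
    (f : ι → S2 N), Function.Injective f → (∀ i, IsNew (f i)) → ∀ {X : ℕ}, X < N → ∀ (c : ℕ → ℝ),
    (∀ m, X < m → c m = 0) → ∀ n : ℕ, 0 < n →
      ∑ i, tau (f i) X c ^ 2 / nr (f i) * (‖co (f i) n‖ ^ 2 / n) ≤
        C * (1 + (X : ℝ) / N * n) * ((X : ℝ) ^ 4 * QP X c) := by
  obtain ⟨C, hC, hls⟩ := large_sieve
  refine ⟨4 * C, by positivity, ?_⟩
  intro N _ ι _ f hinj hnew X hX c hc n hn
  have hNp : N.Prime := Fact.out
  have hN0 : (0 : ℝ) < N := by exact_mod_cast hNp.pos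
  have hne : ∀ i, f i ≠ 0 := fun i => new_ne_zero (hnew i)
  have horth : ∀ i j, i ≠ j → pet (f i) (f j) = 0 := fun i j hij =>
    new_orth (hnew i) (hnew j) fun h => hij (hinj h)
  have hQ := coef_qp_pr c hc
  have hX0 : (0 : ℝ) ≤ X := by positivity
  -- coprime case
  have main : ∀ n' : ℕ, 0 < n' →
      ∑ i, tau (f i) X c ^ 2 / nr (f i) * (‖co (f i) n'‖ ^ 2 / n') ≤
        4 * C * (1 + (X : ℝ) / N * n') * ((X : ℝ) ^ 4 * QP X c) := by
    intro n' hn'
    have h1 := hls N f hne horth (X * n') (fun l => ((CUS_B X c n' l : ℝ) : ℂ))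
    have hn'R : (0 : ℝ) < n' := by exact_mod_cast hn'
    have e1 : ∀ i, tau (f i) X c ^ 2 / nr (f i) * (‖co (f i) n'‖ ^ 2 / n') =
        1 / nr (f i) * ‖∑ l ∈ Finset.Icc 1 (X * n'), ((CUS_B X c n' l : ℝ) : ℂ) *
          (co (f i) l / ((Real.sqrt l : ℝ) : ℂ))‖ ^ 2 := by
      intro i
      rw [← CUS_tau_mul (hnew i) hX c hn', norm_mul, norm_div, Complex.norm_real,
        Complex.norm_real, Real.norm_eq_abs, Real.norm_eq_abs, mul_pow, div_pow, sq_abs, sq_abs,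
        Real.sq_sqrt hn'R.le]
      ring
    rw [Finset.sum_congr rfl fun i _ => e1 i]
    refine h1.trans ?_
    have h2 : ∑ l ∈ Finset.Icc 1 (X * n'), ‖((CUS_B X c n' l : ℝ) : ℂ)‖ ^ 2 =
        ∑ l ∈ Finset.Icc 1 (X * n'), CUS_B X c n' l ^ 2 := by
      refine Finset.sum_congr rfl fun l _ => ?_
      rw [Complex.norm_real, Real.norm_eq_abs, sq_abs]
    rw [h2]
    have h3 := CUS_B_sq (X := X) c n' (X * n')
    have h4 : (0 : ℝ) ≤ C * (1 + ((X * n' : ℕ) : ℝ) / N) := by positivity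
    calc C * (1 + ((X * n' : ℕ) : ℝ) / N) * ∑ l ∈ Finset.Icc 1 (X * n'), CUS_B X c n' l ^ 2
        ≤ C * (1 + ((X * n' : ℕ) : ℝ) / N) * ((X : ℝ) ^ 3 * (4 * X * QP X c)) :=
          mul_le_mul_of_nonneg_left (h3.trans (mul_le_mul_of_nonneg_left hQ (by positivity))) h4
      _ = _ := by
          push_cast
          ring
  -- general case
  obtain ⟨a, n', hn', rfl⟩ := Nat.exists_eq_pow_mul_and_not_dvd hn.ne' N hNp.ne_one
  have hn'0 : 0 < n' := Nat.pos_of_ne_zero (by rintro rfl; simp at hn)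
  have hNa : 1 ≤ N ^ a := Nat.one_le_pow _ _ hNp.pos
  have hNaR : (1 : ℝ) ≤ ((N ^ a : ℕ) : ℝ) := by exact_mod_cast hNa
  have hcop : (N ^ a).Coprime n' := Nat.Coprime.pow_left _ ((Nat.Prime.coprime_iff_not_dvd hNp).2 hn')
  have hn'R : (0 : ℝ) < n' := by exact_mod_cast hn'0
  have hle : ∀ i, ‖co (f i) (N ^ a * n')‖ ^ 2 / ((N ^ a * n' : ℕ) : ℝ) ≤ ‖co (f i) n'‖ ^ 2 / n' := by
    intro i
    have hN1 : ‖co (f i) N‖ = 1 := by
      obtain ⟨W, hW⟩ := fricke_exists (N := N)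
      rcases (new_fricke (hnew i) hW).2 with h | h <;> rw [h] <;> simp
    have hNa1 : ‖co (f i) (N ^ a)‖ = 1 := by
      rcases a with _ | a
      · rw [pow_zero, (hnew i).one]; simp
      · rw [(hnew i).level, norm_pow, hN1, one_pow]
    rw [(hnew i).mul _ _ hcop, norm_mul, hNa1, one_mul, Nat.cast_mul]
    refine div_le_div_of_nonneg_left (sq_nonneg _) hn'R ?_
    nlinarith
  have hnrpos : ∀ i, 0 < nr (f i) := fun i => nr_pos (hne i)
  calc ∑ i, tau (f i) X c ^ 2 / nr (f i) * (‖co (f i) (N ^ a * n')‖ ^ 2 / ((N ^ a * n' : ℕ) : ℝ))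
      ≤ ∑ i, tau (f i) X c ^ 2 / nr (f i) * (‖co (f i) n'‖ ^ 2 / n') := by
        refine Finset.sum_le_sum fun i _ => ?_
        refine mul_le_mul_of_nonneg_left (hle i) ?_
        have := hnrpos i
        positivity
    _ ≤ 4 * C * (1 + (X : ℝ) / N * n') * ((X : ℝ) ^ 4 * QP X c) := main n' hn'0
    _ ≤ 4 * C * (1 + (X : ℝ) / N * ((N ^ a * n' : ℕ) : ℝ)) * ((X : ℝ) ^ 4 * QP X c) := by
        have hQ0 : 0 ≤ (X : ℝ) ^ 4 * QP X c := by
          have h5 : 0 ≤ 4 * (X : ℝ) * QP X c :=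
            le_trans (Finset.sum_nonneg fun _ _ => sq_nonneg _) hQ
          nlinarith [mul_nonneg (by positivity : (0 : ℝ) ≤ (X : ℝ) ^ 3) h5]
        refine mul_le_mul_of_nonneg_right ?_ hQ0
        have h6 : (n' : ℝ) ≤ ((N ^ a * n' : ℕ) : ℝ) := by
          rw [Nat.cast_mul]
          nlinarith
        have h7 : (0 : ℝ) ≤ (X : ℝ) / N := by positivity
        have h8 := mul_le_mul_of_nonneg_left h6 h7
        nlinarith

end

theorem cusp_part_pr : ∃ C : ℝ, 0 < C ∧ ∀ (N : ℕ) [Fact N.Prime] {ι : Type} [Fintype ι]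
    (f : ι → S2 N), Function.Injective f → (∀ i, IsNew (f i)) → ∀ {X : ℕ}, X < N → ∀ (c : ℕ → ℝ),
    (∀ m, X < m → c m = 0) → ∀ (Y : ℝ), (X : ℝ) ≤ Y → 1 ≤ Y → Y ≤ N →
    ∑ i, ENNReal.ofReal (tau (f i) X c ^ 2 / nr (f i)) *
      ∑ q : PX N, ∫⁻ z in 𝒟ᵒ ∩ {z : ℍ | Y < z.im}, ‖fam (f i) q z‖ₑ ^ 2 * ENNReal.ofReal (z.im ^ 2) ≤
      ENNReal.ofReal (C * (X : ℝ) ^ 4 * (N / Y) * QP X c) := by
  obtain ⟨C, hC, hone⟩ := CUS_one
  refine ⟨2 * C, by positivity, ?_⟩
  intro N _ ι _ f hinj hnew X hX c hc Y hXY hY1 hYN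
  have hNp : N.Prime := Fact.out
  have hN0 : (0 : ℝ) < N := by exact_mod_cast hNp.pos
  have hN1 : (1 : ℝ) ≤ N := by exact_mod_cast hNp.one_le
  have hY0 : 0 < Y := by linarith
  have hne : ∀ i, f i ≠ 0 := fun i => new_ne_zero (hnew i)
  have hnrpos : ∀ i, 0 < nr (f i) := fun i => nr_pos (hne i)
  obtain ⟨W, hW⟩ := fricke_exists (N := N)
  have hX0 : (0 : ℝ) ≤ X := by positivity
  have hQ := coef_qp_pr c hc
  have hQ0 : 0 ≤ (X : ℝ) ^ 4 * QP X c := by
    have h5 : 0 ≤ 4 * (X : ℝ) * QP X c :=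
      le_trans (Finset.sum_nonneg fun _ _ => sq_nonneg _) hQ
    nlinarith [mul_nonneg (by positivity : (0 : ℝ) ≤ (X : ℝ) ^ 3) h5]
  -- one form
  have hsum : ∀ i, Summable (fun n : ℕ => ‖co (f i) n‖ ^ 2 / n * Real.exp (-10 * n * Y / N)) := by
    intro i
    have hWf : W (f i) = f i ∨ W (f i) = -(f i) := by
      obtain ⟨h1, h2⟩ := new_fricke (hnew i) hW
      rcases h2 with h | h
      · right; rw [h1, h]; simp
      · left; rw [h1, h]; simp
    refine Summable.of_nonneg_of_le (fun n => by positivity) (fun n => ?_) (nr_le hW (f i) hWf).1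
    refine mul_le_mul_of_nonneg_left (Real.exp_le_exp.2 ?_) (by positivity)
    rw [div_le_div_iff_of_pos_right hN0]
    have : (0 : ℝ) ≤ n := by positivity
    nlinarith
  have hmass : ∀ i, ∑ q : PX N, ∫⁻ z in 𝒟ᵒ ∩ {z : ℍ | Y < z.im},
      ‖fam (f i) q z‖ₑ ^ 2 * ENNReal.ofReal (z.im ^ 2) ≤
      ENNReal.ofReal (2 * ∑' n : ℕ, ‖co (f i) n‖ ^ 2 / n * Real.exp (-10 * n * Y / N)) := by
    intro i
    refine (cusp_mass hW (f i) hY1).trans (ENNReal.ofReal_le_ofReal ?_)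
    have hco : ∀ n, ‖co (W (f i)) n‖ = ‖co (f i) n‖ := by
      intro n
      obtain ⟨h1, h2⟩ := new_fricke (hnew i) hW
      rw [h1, co_smul, norm_mul, norm_neg]
      rcases h2 with h | h <;> rw [h] <;> simp
    simp only [hco]
    have h3 : ∑' n : ℕ, ‖co (f i) n‖ ^ 2 / n * Real.exp (-10 * n * Y) ≤
        ∑' n : ℕ, ‖co (f i) n‖ ^ 2 / n * Real.exp (-10 * n * Y / N) := by
      have hle : ∀ n : ℕ, ‖co (f i) n‖ ^ 2 / n * Real.exp (-10 * n * Y) ≤
          ‖co (f i) n‖ ^ 2 / n * Real.exp (-10 * n * Y / N) := by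
        intro n
        refine mul_le_mul_of_nonneg_left (Real.exp_le_exp.2 ?_) (by positivity)
        rw [le_div_iff₀ hN0]
        have : (0 : ℝ) ≤ n * Y := by positivity
        nlinarith
      exact Summable.tsum_le_tsum hle
        (Summable.of_nonneg_of_le (fun n => by positivity) hle (hsum i)) (hsum i)
    linarith
  have hcoef : ∀ i, 0 ≤ tau (f i) X c ^ 2 / nr (f i) := fun i => by
    have := hnrpos i
    positivity
  calc ∑ i, ENNReal.ofReal (tau (f i) X c ^ 2 / nr (f i)) *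
      ∑ q : PX N, ∫⁻ z in 𝒟ᵒ ∩ {z : ℍ | Y < z.im}, ‖fam (f i) q z‖ₑ ^ 2 * ENNReal.ofReal (z.im ^ 2)
      ≤ ∑ i, ENNReal.ofReal (tau (f i) X c ^ 2 / nr (f i)) *
        ENNReal.ofReal (2 * ∑' n : ℕ, ‖co (f i) n‖ ^ 2 / n * Real.exp (-10 * n * Y / N)) :=
        Finset.sum_le_sum fun i _ => mul_le_mul_right (hmass i) _
    _ = ENNReal.ofReal (∑ i, tau (f i) X c ^ 2 / nr (f i) *
        (2 * ∑' n : ℕ, ‖co (f i) n‖ ^ 2 / n * Real.exp (-10 * n * Y / N))) := by
        rw [ENNReal.ofReal_sum_of_nonneg]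
        · refine Finset.sum_congr rfl fun i _ => ?_
          rw [ENNReal.ofReal_mul (hcoef i)]
        · intro i _
          refine mul_nonneg (hcoef i) (mul_nonneg (by norm_num) (tsum_nonneg fun n => by positivity))
    _ ≤ ENNReal.ofReal (2 * C * (X : ℝ) ^ 4 * (N / Y) * QP X c) := by
        refine ENNReal.ofReal_le_ofReal ?_
        have hsw : ∑ i, tau (f i) X c ^ 2 / nr (f i) *
            (2 * ∑' n : ℕ, ‖co (f i) n‖ ^ 2 / n * Real.exp (-10 * n * Y / N)) =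
            2 * ∑' n : ℕ, (∑ i, tau (f i) X c ^ 2 / nr (f i) * (‖co (f i) n‖ ^ 2 / n)) *
              Real.exp (-10 * n * Y / N) := by
          have e1 : ∀ i, tau (f i) X c ^ 2 / nr (f i) *
              (2 * ∑' n : ℕ, ‖co (f i) n‖ ^ 2 / n * Real.exp (-10 * n * Y / N)) =
              2 * ∑' n : ℕ, tau (f i) X c ^ 2 / nr (f i) *
                (‖co (f i) n‖ ^ 2 / n * Real.exp (-10 * n * Y / N)) := by
            intro i
            rw [tsum_mul_left]
            ring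
          rw [Finset.sum_congr rfl fun i _ => e1 i, ← Finset.mul_sum,
            ← Summable.tsum_finsetSum fun i _ => (hsum i).mul_left _]
          congr 1
          refine tsum_congr fun n => ?_
          rw [Finset.sum_mul]
          refine Finset.sum_congr rfl fun i _ => ?_
          ring
        rw [hsw]
        have ht : 0 < 10 * Y / N := by positivity
        obtain ⟨g1, g2⟩ := CUS_geo ht (by positivity : (0 : ℝ) ≤ (X : ℝ) / N)
        have hterm : ∀ n : ℕ, (∑ i, tau (f i) X c ^ 2 / nr (f i) * (‖co (f i) n‖ ^ 2 / n)) *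
            Real.exp (-10 * n * Y / N) ≤ (C * ((X : ℝ) ^ 4 * QP X c)) *
              (if n = 0 then 0 else (1 + (X : ℝ) / N * n) * Real.exp (-(10 * Y / N) * n)) := by
          intro n
          have hex : Real.exp (-10 * n * Y / N) = Real.exp (-(10 * Y / N) * n) := by
            congr 1
            ring
          split_ifs with h0
          · subst h0
            simp
          · rw [hex]
            have := hone N f hinj hnew hX c hc n (Nat.pos_of_ne_zero h0)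
            calc _ ≤ (C * (1 + (X : ℝ) / N * n) * ((X : ℝ) ^ 4 * QP X c)) *
                  Real.exp (-(10 * Y / N) * n) := mul_le_mul_of_nonneg_right this (Real.exp_pos _).le
              _ = _ := by ring
        have hsumL : Summable (fun n : ℕ => (∑ i, tau (f i) X c ^ 2 / nr (f i) *
            (‖co (f i) n‖ ^ 2 / n)) * Real.exp (-10 * n * Y / N)) := by
          refine Summable.of_nonneg_of_le (fun n => ?_) hterm (g1.mul_left _)
          refine mul_nonneg (Finset.sum_nonneg fun i _ => mul_nonneg (hcoef i) (by positivity))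
            (Real.exp_pos _).le
        have h1 := Summable.tsum_le_tsum hterm hsumL (g1.mul_left _)
        rw [tsum_mul_left] at h1
        have h2 : 1 / (10 * Y / N) + (X : ℝ) / N / (10 * Y / N) ^ 2 ≤ N / Y := by
          have e1 : 1 / (10 * Y / N) = (N / Y) * (1 / 10) := by field_simp
          have e2 : (X : ℝ) / N / (10 * Y / N) ^ 2 = (N / Y) * ((X : ℝ) / Y / 100) := by
            field_simp
            ring
          have e3 : (X : ℝ) / Y ≤ 1 := (div_le_one hY0).2 hXY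
          have e4 : 0 ≤ (N : ℝ) / Y := by positivity
          rw [e1, e2]
          nlinarith
        calc 2 * ∑' n : ℕ, (∑ i, tau (f i) X c ^ 2 / nr (f i) * (‖co (f i) n‖ ^ 2 / n)) *
              Real.exp (-10 * n * Y / N)
            ≤ 2 * ((C * ((X : ℝ) ^ 4 * QP X c)) * (N / Y)) := by
              refine mul_le_mul_of_nonneg_left (h1.trans ?_) (by norm_num)
              exact mul_le_mul_of_nonneg_left (g2.trans h2) (by positivity)
          _ = _ := by ring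

theorem coef_qp : type_of% @coef_qp_pr := @coef_qp_pr
theorem cusp_part : type_of% @cusp_part_pr := @cusp_part_pr

end Pool.Agent.LEV
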