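import Pool.Agent.Lib_helper68.LEV.DefsG
import Pool.Agent.Lib_helper68.LEV.BAD
import Pool.Agent.Lib_helper68.LEV.CUS
import Pool.Agent.Lib_helper68.LEV.EIA
import Pool.Agent.Lib_helper68.LEV.FAM
import Pool.Agent.Lib_helper68.LEV.KGB
import Pool.Agent.Lib_helper68.LEV.PET

/-!
# LEV, block UBT
-/

namespace Pool.Agent.LEV

open Complex MeasureTheory Filter Topology UpperHalfPlane ModularGroup
open scoped MatrixGroups Modular ENNReal ModularForm ComplexConjugate ContDiff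

/-! ## Volume of the fundamental domain -/

theorem UBT_int_y {a : ℝ} (ha : 0 < a) :
    ∫⁻ y in Set.Ioi a, ENNReal.ofReal (1 / y ^ 2) = ENNReal.ofReal (1 / a) := by
  have h3 : IntegrableOn (fun y : ℝ => y ^ (-2 : ℝ)) (Set.Ioi a) :=
    integrableOn_Ioi_rpow_of_lt (by norm_num) ha
  have e : ∀ y ∈ Set.Ioi a, y ^ (-2 : ℝ) = 1 / y ^ 2 := by
    intro y hy
    have hy0 : (0 : ℝ) < y := lt_trans ha hy
    rw [Real.rpow_neg hy0.le, one_div]
    norm_cast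
  have h4 : IntegrableOn (fun y : ℝ => 1 / y ^ 2) (Set.Ioi a) := h3.congr_fun e measurableSet_Ioi
  rw [← ofReal_integral_eq_lintegral_ofReal h4 (Eventually.of_forall fun y => by positivity)]
  congr 1
  rw [← setIntegral_congr_fun measurableSet_Ioi e, integral_Ioi_rpow_of_lt (by norm_num) ha]
  norm_num
  rw [Real.rpow_neg_one]

theorem UBT_int_x :
    ∫⁻ x in Set.Ioo (-(1 / 2) : ℝ) (1 / 2), ENNReal.ofReal (1 / Real.sqrt (1 - x ^ 2)) =
      ENNReal.ofReal (Real.pi / 3) := by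
  have hpos : ∀ x ∈ Set.Icc (-(1 / 2) : ℝ) (1 / 2), 0 < 1 - x ^ 2 := by
    intro x hx
    nlinarith [hx.1, hx.2]
  have hcont : ContinuousOn (fun x : ℝ => 1 / Real.sqrt (1 - x ^ 2)) (Set.Icc (-(1 / 2) : ℝ) (1 / 2)) := by
    refine ContinuousOn.div continuousOn_const ?_ fun x hx => (Real.sqrt_pos.2 (hpos x hx)).ne'
    fun_prop
  have hint : IntegrableOn (fun x : ℝ => 1 / Real.sqrt (1 - x ^ 2)) (Set.Ioo (-(1 / 2) : ℝ) (1 / 2)) :=
    (hcont.integrableOn_compact isCompact_Icc).mono_set Set.Ioo_subset_Icc_self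
  rw [← ofReal_integral_eq_lintegral_ofReal hint (Eventually.of_forall fun y => by positivity)]
  congr 1
  rw [← integral_Ioc_eq_integral_Ioo, ← intervalIntegral.integral_of_le (by norm_num)]
  rw [intervalIntegral.integral_eq_sub_of_hasDerivAt (f := Real.arcsin)]
  · have h6 : Real.arcsin (1 / 2) = Real.pi / 6 := by
      rw [← Real.sin_pi_div_six]
      exact Real.arcsin_sin (by linarith [Real.pi_pos]) (by linarith [Real.pi_pos])
    rw [Real.arcsin_neg, h6]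
    ring
  · intro x hx
    rw [Set.uIcc_of_le (by norm_num)] at hx
    have := hpos x hx
    refine Real.hasDerivAt_arcsin ?_ ?_
    · intro h; rw [h] at this; norm_num at this
    · intro h; rw [h] at this; norm_num at this
  · refine ContinuousOn.intervalIntegrable ?_
    rw [Set.uIcc_of_le (by norm_num)]
    exact hcont

theorem UBT_vol : (volume : Measure ℍ) 𝒟ᵒ ≤ ENNReal.ofReal (Real.pi / 3) := by
  have h1 := Pool.Agent.GL2.RSA_lint_fd (fun _ => 1)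
  rw [setLIntegral_one] at h1
  rw [h1]
  set Sx : Set ℝ := Set.Ioo (-(1 / 2) : ℝ) (1 / 2) with hSx
  set A : Set (ℝ × ℝ) := {p | p.1 ∈ Sx ∧ Real.sqrt (1 - p.1 ^ 2) < p.2} with hA
  have hAm : MeasurableSet A := by
    refine MeasurableSet.inter (measurable_fst measurableSet_Ioo) ?_
    exact measurableSet_lt (by fun_prop) measurable_snd
  have hsub : Pool.Agent.GL2.FD ⊆ Complex.measurableEquivRealProd ⁻¹' A := by
    rintro z ⟨hz1, hz2, hz3⟩
    have h3 := abs_lt.mp hz3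
    have h4 : 1 < ‖z‖ ^ 2 := by nlinarith
    rw [← Complex.normSq_eq_norm_sq, Complex.normSq_apply] at h4
    refine ⟨⟨h3.1, h3.2⟩, ?_⟩
    show Real.sqrt (1 - z.re ^ 2) < z.im
    rw [Real.sqrt_lt' hz1]
    nlinarith
  refine (lintegral_mono_set hsub).trans ?_
  have hAm' : MeasurableSet (Complex.measurableEquivRealProd ⁻¹' A) :=
    Complex.measurableEquivRealProd.measurable hAm
  rw [← lintegral_indicator hAm',
    (Complex.volume_preserving_equiv_real_prod.symm).lintegral_map_equiv]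
  have h2 : ∀ p : ℝ × ℝ, (Complex.measurableEquivRealProd ⁻¹' A).indicator
      (fun z : ℂ => 1 * ENNReal.ofReal (1 / z.im ^ 2)) (Complex.measurableEquivRealProd.symm p) =
      A.indicator (fun p : ℝ × ℝ => ENNReal.ofReal (1 / p.2 ^ 2)) p := by
    rintro ⟨x, y⟩
    have e : Complex.measurableEquivRealProd.symm (x, y) = (⟨x, y⟩ : ℂ) := rfl
    rw [e]
    by_cases hx : (x, y) ∈ A
    · rw [Set.indicator_of_mem hx, Set.indicator_of_mem (by exact hx), one_mul]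
    · rw [Set.indicator_of_notMem hx, Set.indicator_of_notMem (by exact hx)]
  rw [lintegral_congr h2, Measure.volume_eq_prod, lintegral_prod _
    (((by fun_prop : Measurable (fun p : ℝ × ℝ => ENNReal.ofReal (1 / p.2 ^ 2))).indicator
      hAm).aemeasurable)]
  have h3 : ∀ x : ℝ, ∫⁻ y : ℝ, A.indicator (fun p : ℝ × ℝ => ENNReal.ofReal (1 / p.2 ^ 2)) (x, y) =
      Sx.indicator (fun x => ENNReal.ofReal (1 / Real.sqrt (1 - x ^ 2))) x := by
    intro x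
    by_cases hx : x ∈ Sx
    · rw [Set.indicator_of_mem hx]
      have hpos : 0 < Real.sqrt (1 - x ^ 2) := by
        refine Real.sqrt_pos.2 ?_
        nlinarith [hx.1, hx.2]
      rw [← UBT_int_y hpos, ← lintegral_indicator measurableSet_Ioi]
      refine lintegral_congr fun y => ?_
      by_cases hy : y ∈ Set.Ioi (Real.sqrt (1 - x ^ 2))
      · rw [Set.indicator_of_mem (by exact ⟨hx, hy⟩), Set.indicator_of_mem hy]
      · rw [Set.indicator_of_notMem (by exact fun h => hy h.2), Set.indicator_of_notMem hy]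
    · rw [Set.indicator_of_notMem hx]
      rw [lintegral_eq_zero_of_ae_eq_zero (Eventually.of_forall fun y => ?_)]
      exact Set.indicator_of_notMem (by exact fun h => hx h.1) _
  rw [lintegral_congr h3, lintegral_indicator measurableSet_Ioo, UBT_int_x]

/-! ## Superadditivity of the lower integral -/

theorem UBT_super {α : Type*} [MeasurableSpace α] (μ : Measure α) {κ : Type*} (s : Finset κ)
    (F : κ → α → ℝ≥0∞) : ∑ k ∈ s, ∫⁻ a, F k a ∂μ ≤ ∫⁻ a, ∑ k ∈ s, F k a ∂μ := by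
  classical
  induction s using Finset.induction_on with
  | empty => simp
  | insert k s hk ih =>
    rw [Finset.sum_insert hk]
    simp_rw [Finset.sum_insert hk]
    exact (add_le_add le_rfl ih).trans (le_lintegral_add _ _)

section
variable {N : ℕ} [Fact N.Prime]

theorem UBT_QP_nonneg (X : ℕ) (c : ℕ → ℝ) : 0 ≤ QP X c :=
  Finset.sum_nonneg fun n _ => by positivity

/-- the part below height `Y` -/
theorem UBT_low {ι : Type} [Fintype ι] (f : ι → S2 N)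
    (hn : ∀ i, IsNew (f i)) {X : ℕ} (c : ℕ → ℝ) {Y g b B : ℝ} (hg : 0 ≤ g) (hb : 0 ≤ b)
    (hB : 0 ≤ B) (ρ : ℝ)
    (hgood : ∀ w : ℍ, w ∈ 𝒟ᵒ → w.im ≤ Y → ∀ q : PX N, Good X ρ q w →
      ∑ i, tau (f i) X c ^ 2 * (‖fam (f i) q w‖ ^ 2 * w.im ^ 2) / nr (f i) ≤ g)
    (hbad : ∀ w : ℍ, w ∈ 𝒟ᵒ → w.im ≤ Y → ∀ q : PX N,
      ∑ i, tau (f i) X c ^ 2 * (‖fam (f i) q w‖ ^ 2 * w.im ^ 2) / nr (f i) ≤ b)
    (hcount : ∀ w : ℍ, w ∈ 𝒟ᵒ → w.im ≤ Y → ({q : PX N | ¬ Good X ρ q w}.ncard : ℝ) ≤ B) :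
    ∑ i, ENNReal.ofReal (tau (f i) X c ^ 2 / nr (f i)) *
      ∑ q : PX N, ∫⁻ z in 𝒟ᵒ ∩ {z : ℍ | z.im ≤ Y},
        ‖fam (f i) q z‖ₑ ^ 2 * ENNReal.ofReal (z.im ^ 2) ≤
      ENNReal.ofReal (((N + 1) * g + B * b) * (Real.pi / 3)) := by
  classical
  have hne : ∀ i, f i ≠ 0 := fun i => new_ne_zero (hn i)
  have hnrpos : ∀ i, 0 < nr (f i) := fun i => nr_pos (hne i)
  have hmo : MeasurableSet (𝒟ᵒ ∩ {z : ℍ | z.im ≤ Y} : Set ℍ) :=
    isOpen_fdo.measurableSet.inter (measurableSet_le UpperHalfPlane.continuous_im.measurable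
      measurable_const)
  have step1 : ∑ i, ENNReal.ofReal (tau (f i) X c ^ 2 / nr (f i)) *
      ∑ q : PX N, ∫⁻ z in 𝒟ᵒ ∩ {z : ℍ | z.im ≤ Y},
        ‖fam (f i) q z‖ₑ ^ 2 * ENNReal.ofReal (z.im ^ 2) ≤
      ∫⁻ z in 𝒟ᵒ ∩ {z : ℍ | z.im ≤ Y}, ∑ i, ENNReal.ofReal (tau (f i) X c ^ 2 / nr (f i)) *
        ∑ q : PX N, ‖fam (f i) q z‖ₑ ^ 2 * ENNReal.ofReal (z.im ^ 2) := by
    refine le_trans (Finset.sum_le_sum fun i _ => ?_) (UBT_super _ _ _)
    refine le_trans (mul_le_mul_right (UBT_super _ _ _) _) ?_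
    exact lintegral_const_mul_le _ _
  refine step1.trans ?_
  have hpt : ∀ z ∈ (𝒟ᵒ ∩ {z : ℍ | z.im ≤ Y} : Set ℍ),
      ∑ i, ENNReal.ofReal (tau (f i) X c ^ 2 / nr (f i)) *
        ∑ q : PX N, ‖fam (f i) q z‖ₑ ^ 2 * ENNReal.ofReal (z.im ^ 2) ≤
      ENNReal.ofReal ((N + 1) * g + B * b) := by
    rintro z ⟨hz1, hz2⟩
    have hz2' : z.im ≤ Y := hz2
    set U : PX N → ℝ := fun q =>
      ∑ i, tau (f i) X c ^ 2 * (‖fam (f i) q z‖ ^ 2 * z.im ^ 2) / nr (f i) with hU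
    have hU0 : ∀ q, 0 ≤ U q := fun q => Finset.sum_nonneg fun i _ => by
      have := hnrpos i
      positivity
    have e1 : ∑ i, ENNReal.ofReal (tau (f i) X c ^ 2 / nr (f i)) *
        ∑ q : PX N, ‖fam (f i) q z‖ₑ ^ 2 * ENNReal.ofReal (z.im ^ 2) =
        ENNReal.ofReal (∑ q : PX N, U q) := by
      rw [ENNReal.ofReal_sum_of_nonneg fun q _ => hU0 q]
      simp_rw [Finset.mul_sum]
      rw [Finset.sum_comm]
      refine Finset.sum_congr rfl fun q _ => ?_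
      simp only [hU]
      rw [ENNReal.ofReal_sum_of_nonneg fun i _ => by have := hnrpos i; positivity]
      refine Finset.sum_congr rfl fun i _ => ?_
      have h0 : 0 ≤ tau (f i) X c ^ 2 / nr (f i) := by have := hnrpos i; positivity
      rw [show tau (f i) X c ^ 2 * (‖fam (f i) q z‖ ^ 2 * z.im ^ 2) / nr (f i) =
        tau (f i) X c ^ 2 / nr (f i) * (‖fam (f i) q z‖ ^ 2 * z.im ^ 2) by ring,
        ENNReal.ofReal_mul h0, ENNReal.ofReal_mul (by positivity), ENNReal.ofReal_pow (norm_nonneg _),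
        ofReal_norm]
    rw [e1]
    refine ENNReal.ofReal_le_ofReal ?_
    have h1 : ∀ q : PX N, U q ≤ g + if ¬ Good X ρ q z then b else 0 := by
      intro q
      by_cases hq : Good X ρ q z
      · simp only [hq, not_true_eq_false, if_false, add_zero]
        exact hgood z hz1 hz2' q hq
      · simp only [hq, not_false_eq_true, if_true]
        exact (hbad z hz1 hz2' q).trans (by linarith)
    refine (Finset.sum_le_sum fun q _ => h1 q).trans ?_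
    rw [Finset.sum_add_distrib, Finset.sum_const, Finset.card_univ, card_PX, nsmul_eq_mul,
      ← Finset.sum_filter, Finset.sum_const, nsmul_eq_mul]
    have h2 : (((Finset.univ : Finset (PX N)).filter (fun q => ¬ Good X ρ q z)).card : ℝ) ≤ B := by
      refine le_trans (le_of_eq ?_) (hcount z hz1 hz2')
      rw [← Set.ncard_coe_finset]
      congr 2
      ext q
      simp
    have h3 := mul_le_mul_of_nonneg_right h2 hb
    push_cast
    linarith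
  refine (setLIntegral_mono' hmo hpt).trans ?_
  rw [setLIntegral_const]
  have hD0 : 0 ≤ (N + 1) * g + B * b := by positivity
  rw [ENNReal.ofReal_mul hD0]
  refine mul_le_mul_right ((measure_mono Set.inter_subset_left).trans UBT_vol) _

theorem UBT_rpow {δ K : ℝ} (hδ : 0 < δ) : ∀ᶠ N : ℕ in atTop, K ≤ (N : ℝ) ^ δ :=
  ((tendsto_rpow_atTop hδ).comp tendsto_natCast_atTop_atTop).eventually_ge_atTop K

theorem UBT_num2 {ε C₁ C₂ N X Y : ℝ} (hε : 0 < ε) (hC₁0 : 0 < C₁) (hC₂ : 0 < C₂)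
    (hN1 : 1 ≤ N) (hX0 : 1 ≤ X) (hY1 : 1 ≤ Y) (hXYp : X * Y ≤ N ^ (11 / 3000 : ℝ))
    (hE2 : 16 * C₁ * C₂ / ε ≤ N ^ (11 / 60 : ℝ)) :
    C₁ * C₂ * ((X * Y) ^ 12 * (X ^ 5 * Y)) * N ^ (3 / 4 : ℝ) * (Real.pi / 3) ≤ ε / 8 * N := by
  have hN0 : 0 < N := by linarith
  have hpi : Real.pi / 3 ≤ 2 := by linarith [Real.pi_lt_four]
  have h3 : X ^ 5 * Y ≤ (X * Y) ^ 5 := by
    rw [mul_pow]
    refine mul_le_mul_of_nonneg_left ?_ (by positivity)
    calc Y = Y ^ 1 := (pow_one Y).symm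
      _ ≤ Y ^ 5 := pow_le_pow_right₀ hY1 (by norm_num)
  have h4 : (X * Y) ^ 12 * (X ^ 5 * Y) ≤ N ^ (1 / 15 : ℝ) := by
    calc (X * Y) ^ 12 * (X ^ 5 * Y) ≤ (X * Y) ^ 12 * (X * Y) ^ 5 :=
          mul_le_mul_of_nonneg_left h3 (by positivity)
      _ = (X * Y) ^ 17 := by ring
      _ ≤ (N ^ (11 / 3000 : ℝ)) ^ 17 := pow_le_pow_left₀ (by positivity) hXYp 17
      _ = N ^ (187 / 3000 : ℝ) := by
          rw [← Real.rpow_natCast, ← Real.rpow_mul hN0.le]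
          norm_num
      _ ≤ N ^ (1 / 15 : ℝ) := Real.rpow_le_rpow_of_exponent_le hN1 (by norm_num)
  have h5 : C₁ * C₂ * 16 ≤ ε * N ^ (11 / 60 : ℝ) := by
    have := mul_le_mul_of_nonneg_left hE2 hε.le
    calc C₁ * C₂ * 16 = ε * (16 * C₁ * C₂ / ε) := by field_simp
      _ ≤ _ := this
  have h6 : N ^ (1 / 15 : ℝ) * N ^ (3 / 4 : ℝ) * N ^ (11 / 60 : ℝ) = N := by
    rw [← Real.rpow_add hN0, ← Real.rpow_add hN0]
    norm_num
  calc C₁ * C₂ * ((X * Y) ^ 12 * (X ^ 5 * Y)) * N ^ (3 / 4 : ℝ) * (Real.pi / 3)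
      ≤ C₁ * C₂ * N ^ (1 / 15 : ℝ) * N ^ (3 / 4 : ℝ) * 2 := by gcongr
    _ = (C₁ * C₂ * 16) * (N ^ (1 / 15 : ℝ) * N ^ (3 / 4 : ℝ) / 8) := by ring
    _ ≤ (ε * N ^ (11 / 60 : ℝ)) * (N ^ (1 / 15 : ℝ) * N ^ (3 / 4 : ℝ) / 8) :=
        mul_le_mul_of_nonneg_right h5 (by positivity)
    _ = ε / 8 * (N ^ (1 / 15 : ℝ) * N ^ (3 / 4 : ℝ) * N ^ (11 / 60 : ℝ)) := by ring
    _ = ε / 8 * N := by rw [h6]

theorem UBT_num3 {ε C₃ N X : ℝ} (hε : 0 < ε) (hC₃ : 0 < C₃)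
    (hN1 : 1 ≤ N) (hX0 : 1 ≤ X) (hXN : X ≤ N ^ (1 / 3000 : ℝ))
    (hE3 : 8 * C₃ / ε ≤ N ^ (1 / 500 : ℝ)) :
    C₃ * X ^ 4 * (N / N ^ (1 / 300 : ℝ)) ≤ ε / 8 * N := by
  have hN0 : 0 < N := by linarith
  have h3 : X ^ 4 ≤ N ^ (4 / 3000 : ℝ) := by
    calc X ^ 4 ≤ (N ^ (1 / 3000 : ℝ)) ^ 4 := pow_le_pow_left₀ (by positivity) hXN 4
      _ = N ^ (4 / 3000 : ℝ) := by
          rw [← Real.rpow_natCast, ← Real.rpow_mul hN0.le]
          norm_num
  have h4 : 8 * C₃ ≤ ε * N ^ (1 / 500 : ℝ) := by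
    have := mul_le_mul_of_nonneg_left hE3 hε.le
    calc 8 * C₃ = ε * (8 * C₃ / ε) := by field_simp
      _ ≤ _ := this
  have h5 : N ^ (1 / 500 : ℝ) * N ^ (4 / 3000 : ℝ) = N ^ (1 / 300 : ℝ) := by
    rw [← Real.rpow_add hN0]
    norm_num
  set Y : ℝ := N ^ (1 / 300 : ℝ) with hY
  have hY0 : 0 < Y := by positivity
  have h6 : X ^ 4 * (N / Y) ≤ N ^ (4 / 3000 : ℝ) * (N / Y) :=
    mul_le_mul_of_nonneg_right h3 (by positivity)
  calc C₃ * X ^ 4 * (N / Y) = C₃ * (X ^ 4 * (N / Y)) := by ring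
    _ ≤ C₃ * (N ^ (4 / 3000 : ℝ) * (N / Y)) := mul_le_mul_of_nonneg_left h6 hC₃.le
    _ = (8 * C₃) * (N ^ (4 / 3000 : ℝ) * (N / Y) / 8) := by ring
    _ ≤ (ε * N ^ (1 / 500 : ℝ)) * (N ^ (4 / 3000 : ℝ) * (N / Y) / 8) :=
        mul_le_mul_of_nonneg_right h4 (by positivity)
    _ = ε / 8 * ((N ^ (1 / 500 : ℝ) * N ^ (4 / 3000 : ℝ)) * (N / Y)) := by ring
    _ = ε / 8 * N := by
        rw [h5]
        field_simp

/-- the sharp inequality for natural averages -/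
theorem nat_upper_pr {ε : ℝ} (hε : 0 < ε) : ∃ N₀ : ℕ, ∀ (N : ℕ) [Fact N.Prime], N₀ ≤ N →
    ∀ {ι : Type} [Fintype ι] (f : ι → S2 N), Function.Injective f → (∀ i, IsNew (f i)) →
    (∀ i, co (f i) N = 1) → ∀ X : ℕ, 1 ≤ X → (X : ℝ) ≤ (N : ℝ) ^ (1 / 3000 : ℝ) → ∀ c : ℕ → ℝ,
    (∀ m, X < m → c m = 0) →
      ∑ i, tau (f i) X c ^ 2 ≤ (1 / 24 + ε) * N * QP X c := by
  set ρ : ℝ := 1 / Real.sqrt (1 + 3 * ε) with hρ
  have hs1 : 1 < Real.sqrt (1 + 3 * ε) := by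
    rw [Real.lt_sqrt (by norm_num)]
    linarith
  have hρ0 : 0 < ρ := by positivity
  have hρ1 : ρ < 1 := (div_lt_one (by linarith)).2 hs1
  have hρ2 : 1 / ρ ^ 2 = 1 + 3 * ε := by
    rw [hρ, div_pow, Real.sq_sqrt (by linarith)]
    field_simp
  obtain ⟨C₁, hC₁, hbc⟩ := bad_count hρ0 hρ1
  obtain ⟨C₂, hC₂, hkb⟩ := kern_bad
  obtain ⟨C₃, hC₃, hcp⟩ := cusp_part
  have hev := (UBT_rpow (K := C₁) (by norm_num : (0 : ℝ) < 1 / 2 - 22 / 3000)).and
    ((UBT_rpow (K := 16 * C₁ * C₂ / ε) (by norm_num : (0 : ℝ) < 11 / 60)).and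
      ((UBT_rpow (K := 8 * C₃ / ε) (by norm_num : (0 : ℝ) < 1 / 500)).and
        (tendsto_natCast_atTop_atTop.eventually_ge_atTop (1 + 1 / (3 * ε)))))
  obtain ⟨N₀, hN₀⟩ := eventually_atTop.1 hev
  refine ⟨N₀, ?_⟩
  intro N _ hN ι _ f hi hn h1 X hX1 hXN c hc
  obtain ⟨hE1, hE2, hE3, hE4⟩ := hN₀ N hN
  have hNp : N.Prime := Fact.out
  have hNR : (2 : ℝ) ≤ N := by exact_mod_cast hNp.two_le
  have hN0 : (0 : ℝ) < N := by linarith
  have hN1 : (1 : ℝ) ≤ N := by linarith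
  have hX0 : (1 : ℝ) ≤ X := by exact_mod_cast hX1
  have hX00 : (0 : ℝ) < X := by linarith
  set Y : ℝ := (N : ℝ) ^ (1 / 300 : ℝ) with hY
  have hY1 : 1 ≤ Y := Real.one_le_rpow hN1 (by norm_num)
  have hY0 : 0 < Y := by linarith
  have hYN : Y ≤ N := by
    calc Y ≤ (N : ℝ) ^ (1 : ℝ) := Real.rpow_le_rpow_of_exponent_le hN1 (by norm_num)
      _ = N := Real.rpow_one _
  have hXY : (X : ℝ) ≤ Y :=
    hXN.trans (Real.rpow_le_rpow_of_exponent_le hN1 (by norm_num))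
  have hXltN : X < N := by
    have h2 : (X : ℝ) < N := by
      calc (X : ℝ) ≤ (N : ℝ) ^ (1 / 3000 : ℝ) := hXN
        _ < (N : ℝ) ^ (1 : ℝ) := Real.rpow_lt_rpow_of_exponent_lt (by linarith) (by norm_num)
        _ = N := Real.rpow_one _
    exact_mod_cast h2
  have hne : ∀ i, f i ≠ 0 := fun i => new_ne_zero (hn i)
  have hnrpos : ∀ i, 0 < nr (f i) := fun i => nr_pos (hne i)
  have hQ0 := UBT_QP_nonneg X c
  -- sizes
  have hXYp : (X : ℝ) * Y ≤ (N : ℝ) ^ (11 / 3000 : ℝ) := by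
    calc (X : ℝ) * Y ≤ (N : ℝ) ^ (1 / 3000 : ℝ) * (N : ℝ) ^ (1 / 300 : ℝ) :=
          mul_le_mul_of_nonneg_right hXN hY0.le
      _ = (N : ℝ) ^ (11 / 3000 : ℝ) := by
          rw [← Real.rpow_add hN0]
          norm_num
  have hXY1 : 1 ≤ (X : ℝ) * Y := by nlinarith
  have hsz1 : C₁ * ((X : ℝ) * Y) ^ 2 ≤ Real.sqrt N := by
    have h2 : ((X : ℝ) * Y) ^ 2 ≤ (N : ℝ) ^ (22 / 3000 : ℝ) := by
      calc ((X : ℝ) * Y) ^ 2 ≤ ((N : ℝ) ^ (11 / 3000 : ℝ)) ^ 2 :=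
            pow_le_pow_left₀ (by positivity) hXYp 2
        _ = (N : ℝ) ^ (22 / 3000 : ℝ) := by
            rw [← Real.rpow_natCast, ← Real.rpow_mul hN0.le]
            norm_num
    calc C₁ * ((X : ℝ) * Y) ^ 2 ≤ (N : ℝ) ^ (1 / 2 - 22 / 3000 : ℝ) * (N : ℝ) ^ (22 / 3000 : ℝ) :=
          mul_le_mul hE1 h2 (by positivity) (by positivity)
      _ = (N : ℝ) ^ (1 / 2 : ℝ) := by
          rw [← Real.rpow_add hN0]
          norm_num
      _ = Real.sqrt N := (Real.sqrt_eq_rpow _).symm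
  have hmemfd : ∀ w : ℍ, w ∈ 𝒟ᵒ → w ∈ 𝒟 := fun w hw => ⟨hw.1.le, hw.2.le⟩
  -- the three parts
  set g : ℝ := 1 / (8 * Real.pi * ρ ^ 2) * QP X c with hg
  set b : ℝ := C₂ * (X : ℝ) ^ 5 * Y * QP X c with hb
  set B : ℝ := C₁ * ((X : ℝ) * Y) ^ 12 * (N : ℝ) ^ (3 / 4 : ℝ) with hB
  have hg0 : 0 ≤ g := by positivity
  have hb0 : 0 ≤ b := by positivity
  have hB0 : 0 ≤ B := by positivity
  have hlow := UBT_low f hn c (Y := Y) hg0 hb0 hB0 ρ
    (fun w _ _ q hgd => kern_good f hi hn h1 hXltN c q w hρ0 hρ1 hgd)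
    (fun w hw hwY q => by
      refine (hkb N f hi hn hXltN c q w (hmemfd w hw)).trans ?_
      rw [hb]
      refine mul_le_mul_of_nonneg_right ?_ hQ0
      exact mul_le_mul_of_nonneg_left hwY (by positivity))
    (fun w hw hwY => hbc N X Y hX1 hY1 hsz1 w (hmemfd w hw) hwY)
  have hcusp := hcp N f hi hn hXltN c hc Y hXY hY1 hYN
  -- splitting
  have hsplit : ENNReal.ofReal (∑ i, tau (f i) X c ^ 2) ≤
      ENNReal.ofReal (((N + 1) * g + B * b) * (Real.pi / 3)) +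
      ENNReal.ofReal (C₃ * (X : ℝ) ^ 4 * (N / Y) * QP X c) := by
    refine le_trans (le_of_eq ?_) (add_le_add hlow hcusp)
    rw [← Finset.sum_add_distrib, ENNReal.ofReal_sum_of_nonneg fun i _ => sq_nonneg _]
    refine Finset.sum_congr rfl fun i _ => ?_
    rw [← mul_add, ← Finset.sum_add_distrib]
    have h2 : ∑ q : PX N, ((∫⁻ z in 𝒟ᵒ ∩ {z : ℍ | z.im ≤ Y},
        ‖fam (f i) q z‖ₑ ^ 2 * ENNReal.ofReal (z.im ^ 2)) +
        ∫⁻ z in 𝒟ᵒ ∩ {z : ℍ | Y < z.im},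
        ‖fam (f i) q z‖ₑ ^ 2 * ENNReal.ofReal (z.im ^ 2)) = ENNReal.ofReal (nr (f i)) := by
      rw [nr_en, en]
      refine Finset.sum_congr rfl fun q _ => ?_
      have hm : MeasurableSet {z : ℍ | z.im ≤ Y} :=
        measurableSet_le UpperHalfPlane.continuous_im.measurable measurable_const
      have hset : (𝒟ᵒ ∩ {z : ℍ | Y < z.im} : Set ℍ) = 𝒟ᵒ \ {z : ℍ | z.im ≤ Y} := by
        ext z
        simp only [Set.mem_inter_iff, Set.mem_ofPred_eq, Set.mem_sdiff, not_le]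
      rw [hset, lintegral_inter_add_sdiff _ (𝒟ᵒ : Set ℍ) hm]
    rw [h2, ← ENNReal.ofReal_mul (by have := hnrpos i; positivity)]
    congr 1
    have := (hnrpos i).ne'
    field_simp
  have hP1 : 0 ≤ ((N + 1) * g + B * b) * (Real.pi / 3) := by positivity
  have hP2 : 0 ≤ C₃ * (X : ℝ) ^ 4 * (N / Y) * QP X c := by positivity
  rw [← ENNReal.ofReal_add hP1 hP2, ENNReal.ofReal_le_ofReal_iff (by positivity)] at hsplit
  refine hsplit.trans ?_
  -- numerical estimates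
  have hm1 : (N + 1) * g * (Real.pi / 3) ≤ (1 / 24 + ε / 4) * N * QP X c := by
    have e1 : (N + 1) * g * (Real.pi / 3) = ((N + 1) * ((1 + 3 * ε) / 24)) * QP X c := by
      have hpi := Real.pi_pos.ne'
      have e2 : 1 / (8 * Real.pi * ρ ^ 2) = (1 + 3 * ε) / (8 * Real.pi) := by
        rw [← hρ2]
        field_simp
      rw [hg, e2]
      field_simp
      ring
    rw [e1]
    refine mul_le_mul_of_nonneg_right ?_ hQ0
    have h3 : 1 + 3 * ε ≤ 3 * ε * N := by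
      have h4 := mul_le_mul_of_nonneg_left hE4 (by positivity : (0 : ℝ) ≤ 3 * ε)
      have h5 : 3 * ε * (1 + 1 / (3 * ε)) = 1 + 3 * ε := by field_simp; ring
      linarith
    nlinarith
  have hm2 : B * b * (Real.pi / 3) ≤ ε / 8 * N * QP X c := by
    have e1 : B * b * (Real.pi / 3) =
        (C₁ * C₂ * (((X : ℝ) * Y) ^ 12 * ((X : ℝ) ^ 5 * Y)) * (N : ℝ) ^ (3 / 4 : ℝ) *
          (Real.pi / 3)) * QP X c := by
      rw [hB, hb]; ring
    rw [e1]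
    refine mul_le_mul_of_nonneg_right ?_ hQ0
    exact UBT_num2 hε (by linarith) hC₂ hN1 hX0 hY1 hXYp hE2
  have hm3 : C₃ * (X : ℝ) ^ 4 * (N / Y) * QP X c ≤ ε / 8 * N * QP X c := by
    refine mul_le_mul_of_nonneg_right ?_ hQ0
    exact UBT_num3 hε hC₃ hN1 hX0 hXN hE3
  have hNQ : 0 ≤ ε * N * QP X c := by positivity
  calc ((N + 1) * g + B * b) * (Real.pi / 3) + C₃ * (X : ℝ) ^ 4 * (N / Y) * QP X c
      = (N + 1) * g * (Real.pi / 3) + B * b * (Real.pi / 3) +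
          C₃ * (X : ℝ) ^ 4 * (N / Y) * QP X c := by ring
    _ ≤ (1 / 24 + ε / 4) * N * QP X c + ε / 8 * N * QP X c + ε / 8 * N * QP X c :=
        add_le_add (add_le_add hm1 hm2) hm3
    _ ≤ (1 / 24 + ε) * N * QP X c := by nlinarith

end

theorem nat_upper : type_of% @nat_upper_pr := @nat_upper_pr

end Pool.Agent.LEV
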