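import Pool.Agent.Lib_helper68.LEV.DefsC
import Pool.Agent.Lib_helper68.LEV.EIA
import Pool.Agent.Lib_helper68.LEV.FRK

namespace Pool.Agent.LEV

open Complex MeasureTheory Filter Topology UpperHalfPlane ModularGroup
open scoped MatrixGroups Modular ENNReal ModularForm ComplexConjugate ContDiff

section
variable {N : ℕ} [Fact N.Prime]

theorem LVL_feq {f : S2 N} (hf : IsNew f) (t : ℝ) (ht : 0 < t) :
    f (ofComplex (Complex.I * (((N : ℝ)⁻¹ * t⁻¹ : ℝ) : ℂ))) =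
      (co f N * N) * ((t : ℂ) ^ (2 : ℂ) * f (ofComplex (Complex.I * t))) := by
  obtain ⟨W, hW⟩ := fricke_exists (N := N)
  have h1 := (new_fricke hf hW).1
  have hN0 : (N : ℂ) ≠ 0 := by exact_mod_cast (Fact.out : N.Prime).ne_zero
  have hNp : (0 : ℝ) < N := by exact_mod_cast (Fact.out : N.Prime).pos
  have ht0 : (t : ℂ) ≠ 0 := by exact_mod_cast ht.ne'
  have him : 0 < (Complex.I * (t : ℂ)).im := by simpa using ht
  have him2 : 0 < (Complex.I * (((N : ℝ)⁻¹ * t⁻¹ : ℝ) : ℂ)).im := by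
    have : 0 < (N : ℝ)⁻¹ * t⁻¹ := by positivity
    simpa using this
  set z : ℍ := ofComplex (Complex.I * t) with hz
  have hzc : (z : ℂ) = Complex.I * t := by
    rw [hz, ofComplex_apply_of_im_pos him]
  have hw : wz N z = ofComplex (Complex.I * (((N : ℝ)⁻¹ * t⁻¹ : ℝ) : ℂ)) := by
    apply UpperHalfPlane.ext
    rw [ofComplex_apply_of_im_pos him2]
    change -1 / ((N : ℂ) * (z : ℂ)) = Complex.I * (((N : ℝ)⁻¹ * t⁻¹ : ℝ) : ℂ)
    rw [hzc]
    push_cast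
    field_simp
    rw [Complex.I_sq]
  have h2 := hW f z
  rw [h1, smul_apply, smul_eq_mul, hw, hzc] at h2
  rw [show ((2 : ℂ)) = (((2 : ℕ)) : ℂ) by norm_num, cpow_natCast]
  have h3 : (N : ℂ) * (Complex.I * t) ^ 2 ≠ 0 :=
    mul_ne_zero hN0 (pow_ne_zero 2 (mul_ne_zero Complex.I_ne_zero ht0))
  rw [eq_comm, inv_mul_eq_iff_eq_mul₀ h3] at h2
  rw [h2, mul_pow, Complex.I_sq]
  ring

theorem LVL_Lam {f : S2 N} (hf : IsNew f) (s : ℂ) :
    (N : ℂ) ^ s * ModularForm.Λ (k := 2) two_pos f s =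
      co f N * N * ModularForm.Λ (k := 2) two_pos f (2 - s) := by
  rw [CuspForm.Λ_eq_mellin]
  set g : ℝ → ℂ := fun t : ℝ => f (ofComplex (Complex.I * t)) with hg
  have hNp : (0 : ℝ) < N := by exact_mod_cast (Fact.out : N.Prime).pos
  have h1 : mellin (fun t : ℝ => g ((N : ℝ)⁻¹ * t)) s = (((N : ℝ)⁻¹ : ℝ) : ℂ) ^ (-s) • mellin g s :=
    mellin_comp_mul_left g s (inv_pos.mpr hNp)
  have h2 := mellin_comp_inv (fun t : ℝ => g ((N : ℝ)⁻¹ * t)) (-s)
  rw [neg_neg, h1] at h2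
  have h3 : mellin (fun t : ℝ => (fun t : ℝ => g ((N : ℝ)⁻¹ * t)) t⁻¹) (-s) =
      mellin (fun t : ℝ => (co f N * N) • ((t : ℂ) ^ (2 : ℂ) • g t)) (-s) := by
    rw [mellin, mellin]
    refine setIntegral_congr_fun measurableSet_Ioi ?_
    intro t ht
    simp only [smul_eq_mul]
    rw [hg]
    simp only
    rw [LVL_feq hf t ht]
  rw [mellin_const_smul, mellin_cpow_smul, h2] at h3
  rw [show -s + 2 = 2 - s by ring] at h3
  rw [smul_eq_mul, smul_eq_mul] at h3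
  rw [← h3]
  congr 1
  push_cast
  rw [cpow_neg, Complex.inv_cpow, inv_inv]
  rw [Complex.natCast_arg]
  exact Real.pi_ne_zero.symm

/-- the functional equation -/
theorem func_eq_pr {f : S2 N} (hf : IsNew f) (s : ℂ) (h0 : 0 < s.re) (h2 : s.re < 2) :
    ((Real.sqrt N / (2 * Real.pi) : ℝ) : ℂ) ^ s * Complex.Gamma s *
      ModularForm.L (k := 2) two_pos f s =
    co f N * (((Real.sqrt N / (2 * Real.pi) : ℝ) : ℂ) ^ (2 - s) * Complex.Gamma (2 - s) *
      ModularForm.L (k := 2) two_pos f (2 - s)) := by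
  have hNp : (0 : ℝ) < N := by exact_mod_cast (Fact.out : N.Prime).pos
  have hs : 0 < Real.sqrt N := Real.sqrt_pos.mpr hNp
  have key : ∀ s : ℂ, 0 < s.re → ((Real.sqrt N / (2 * Real.pi) : ℝ) : ℂ) ^ s * Complex.Gamma s *
      ModularForm.L (k := 2) two_pos f s =
      ((Real.sqrt N : ℝ) : ℂ) ^ s * ModularForm.Λ (k := 2) two_pos f s := by
    intro s hs0
    have hG : Complex.Gamma s ≠ 0 := Complex.Gamma_ne_zero_of_re_pos hs0
    have h2pi : (((2 * Real.pi : ℝ)) : ℂ) ^ s ≠ 0 := by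
      rw [Ne, cpow_eq_zero_iff, not_and_or]
      left
      exact_mod_cast (by positivity : (2 * Real.pi : ℝ) ≠ 0)
    rw [ModularForm.L, Complex.Gammaℂ, Complex.ofReal_div,
      Complex.div_cpow_ofReal_nonneg hs.le (by positivity : (0 : ℝ) ≤ 2 * Real.pi), cpow_neg]
    have h3 : ((2 : ℂ) * (Real.pi : ℂ)) ^ s = (((2 * Real.pi : ℝ)) : ℂ) ^ s := by push_cast; rfl
    rw [h3]
    field_simp
  rw [key s h0, key (2 - s) (by simp; linarith)]
  have h4 := LVL_Lam hf s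
  have hN0 : (N : ℂ) ≠ 0 := by exact_mod_cast (Fact.out : N.Prime).ne_zero
  have hsC : ((Real.sqrt N : ℝ) : ℂ) ≠ 0 := by exact_mod_cast hs.ne'
  have h5 : (N : ℂ) ^ s = ((Real.sqrt N : ℝ) : ℂ) ^ s * ((Real.sqrt N : ℝ) : ℂ) ^ s := by
    rw [← Complex.mul_cpow_ofReal_nonneg hs.le hs.le, ← Complex.ofReal_mul,
      Real.mul_self_sqrt hNp.le]
    rfl
  have h6 : ((Real.sqrt N : ℝ) : ℂ) ^ (2 - s) = (N : ℂ) / ((Real.sqrt N : ℝ) : ℂ) ^ s := by
    rw [Complex.cpow_sub _ _ hsC]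
    congr 1
    rw [show ((2 : ℂ)) = (((2 : ℕ)) : ℂ) by norm_num, cpow_natCast, ← Complex.ofReal_pow,
      Real.sq_sqrt hNp.le]
    rfl
  have h7 : ((Real.sqrt N : ℝ) : ℂ) ^ s ≠ 0 := by
    rw [Ne, cpow_eq_zero_iff, not_and_or]
    left
    exact hsC
  rw [h5] at h4
  rw [h6]
  field_simp
  linear_combination h4

end

theorem func_eq : type_of% @func_eq_pr := @func_eq_pr

end Pool.Agent.LEV
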