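import Pool.Agent.Lib_helper68.LEV.DefsC

/-! block GEK: an averaged point evaluation along a vertical segment -/

namespace Pool.Agent.LEV

open Complex MeasureTheory Filter Topology UpperHalfPlane ModularGroup
open scoped MatrixGroups Modular ENNReal ModularForm ComplexConjugate ContDiff

theorem GEK_mean {G : ℂ → ℂ} {ρ : ℝ} (hG : DifferentiableOn ℂ G (Metric.closedBall (0 : ℂ) ρ)) {r : ℝ}
    (hr0 : 0 < r) (hr1 : r ≤ ρ) :
    ∫ θ in Set.Ioo (-Real.pi) Real.pi, G (circleMap 0 r θ) = 2 * Real.pi * G 0 := by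
  have h1 : Real.circleAverage G 0 r = G 0 := by
    apply DiffContOnCl.circleAverage
    rw [abs_of_pos hr0]
    apply DifferentiableOn.diffContOnCl
    apply hG.mono
    rw [closure_ball _ hr0.ne']
    exact Metric.closedBall_subset_closedBall hr1
  rw [Real.circleAverage_def] at h1
  have h2 : ∫ θ in (-Real.pi)..(-Real.pi + 2 * Real.pi), G (circleMap 0 r θ) =
      ∫ θ in (0 : ℝ)..(0 + 2 * Real.pi), G (circleMap 0 r θ) := by
    apply Function.Periodic.intervalIntegral_add_eq
    intro θ
    simp only []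
    rw [periodic_circleMap]
  rw [← integral_Ioc_eq_integral_Ioo, ← intervalIntegral.integral_of_le (by linarith [Real.pi_pos])]
  have h3 : -Real.pi + 2 * Real.pi = Real.pi := by ring
  rw [h3, zero_add] at h2
  rw [h2, ← h1]
  rw [Complex.real_smul]
  push_cast
  have := Real.pi_ne_zero
  field_simp

theorem GEK_area0 {G : ℂ → ℂ} {ρ : ℝ} (hρ : 0 < ρ)
    (hG : DifferentiableOn ℂ G (Metric.closedBall (0 : ℂ) ρ)) :
    ∫ ζ in Metric.ball (0 : ℂ) ρ, G ζ = ((Real.pi * ρ ^ 2 : ℝ) : ℂ) * G 0 := by
  have hcont : ContinuousOn G (Metric.closedBall (0 : ℂ) ρ) := hG.continuousOn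
  obtain ⟨C, hC⟩ := (isCompact_closedBall (0 : ℂ) ρ).exists_bound_of_continuousOn hcont
  rw [← integral_indicator measurableSet_ball, ← Complex.integral_comp_polarCoord_symm]
  have hsymm : ∀ p : ℝ × ℝ, Complex.polarCoord.symm p = circleMap 0 p.1 p.2 := by
    intro p
    rw [Complex.polarCoord_symm_apply, circleMap, zero_add, Complex.exp_mul_I]
    push_cast
    rfl
  have h1 : ∫ p in polarCoord.target, p.1 • (Metric.ball (0 : ℂ) ρ).indicator G
      (Complex.polarCoord.symm p) =
      ∫ p in Set.Ioo (0 : ℝ) ρ ×ˢ Set.Ioo (-Real.pi) Real.pi, p.1 • G (circleMap 0 p.1 p.2) := by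
    have h2 : ∀ p ∈ polarCoord.target, p.1 • (Metric.ball (0 : ℂ) ρ).indicator G
        (Complex.polarCoord.symm p) =
        ({p : ℝ × ℝ | p.1 < ρ}).indicator (fun p => p.1 • G (circleMap 0 p.1 p.2)) p := by
      intro p hp
      have hp1 : 0 < p.1 := hp.1
      rw [hsymm]
      by_cases h : p.1 < ρ
      · rw [Set.indicator_of_mem, Set.indicator_of_mem]
        · exact h
        · rw [mem_ball_zero_iff, norm_circleMap_zero, abs_of_pos hp1]
          exact h
      · rw [Set.indicator_of_notMem, Set.indicator_of_notMem, smul_zero]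
        · exact h
        · rw [mem_ball_zero_iff, norm_circleMap_zero, abs_of_pos hp1]
          exact h
    rw [setIntegral_congr_fun (polarCoord.open_target.measurableSet) h2,
      setIntegral_indicator (measurableSet_lt measurable_fst measurable_const)]
    congr 2
    ext p
    constructor
    · rintro ⟨⟨h3, h4⟩, h5⟩
      exact ⟨⟨h3, h5⟩, h4⟩
    · rintro ⟨⟨h3, h5⟩, h4⟩
      exact ⟨⟨h3, h4⟩, h5⟩
  rw [h1]
  have hmem : ∀ p ∈ Set.Ioo (0 : ℝ) ρ ×ˢ Set.Ioo (-Real.pi) Real.pi,
      circleMap 0 p.1 p.2 ∈ Metric.closedBall (0 : ℂ) ρ := by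
    intro p hp
    rw [mem_closedBall_zero_iff, norm_circleMap_zero, abs_of_pos hp.1.1]
    exact hp.1.2.le
  have hI : IntegrableOn (fun p : ℝ × ℝ => p.1 • G (circleMap 0 p.1 p.2))
      (Set.Ioo (0 : ℝ) ρ ×ˢ Set.Ioo (-Real.pi) Real.pi) := by
    refine IntegrableOn.of_bound ?_ ?_ (ρ * C) ?_
    · rw [Measure.volume_eq_prod, Measure.prod_prod, Real.volume_Ioo, Real.volume_Ioo]
      exact ENNReal.mul_lt_top ENNReal.ofReal_lt_top ENNReal.ofReal_lt_top
    · apply ContinuousOn.aestronglyMeasurable _ (measurableSet_Ioo.prod measurableSet_Ioo)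
      apply continuousOn_fst.smul
      apply hcont.comp _ hmem
      unfold circleMap
      fun_prop
    · refine (ae_restrict_iff' (measurableSet_Ioo.prod measurableSet_Ioo)).mpr
        (Eventually.of_forall fun p hp => ?_)
      rw [norm_smul, Real.norm_eq_abs, abs_of_pos hp.1.1]
      exact mul_le_mul hp.1.2.le (hC _ (hmem p hp)) (norm_nonneg _) hρ.le
  rw [Measure.volume_eq_prod] at hI ⊢
  rw [setIntegral_prod _ hI]
  have h5 : ∀ r ∈ Set.Ioo (0 : ℝ) ρ,
      ∫ θ in Set.Ioo (-Real.pi) Real.pi, r • G (circleMap 0 r θ) =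
        ((r : ℝ) : ℂ) * (2 * Real.pi * G 0) := by
    intro r hr
    rw [← GEK_mean hG hr.1 hr.2.le, ← integral_const_mul]
    apply integral_congr_ae
    refine Eventually.of_forall fun θ => ?_
    simp only [Complex.real_smul]
  simp only []
  have h6 : ∫ a in Set.Ioo (0 : ℝ) ρ, ((a : ℝ) : ℂ) =
      ((∫ a in Set.Ioo (0 : ℝ) ρ, a : ℝ) : ℂ) := integral_ofReal
  have h7 : ∫ a in Set.Ioo (0 : ℝ) ρ, a = ρ ^ 2 / 2 := by
    rw [← integral_Ioc_eq_integral_Ioo, ← intervalIntegral.integral_of_le hρ.le, integral_id]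
    ring
  rw [setIntegral_congr_fun measurableSet_Ioo h5, integral_mul_const, h6, h7]
  push_cast
  ring

theorem GEK_area {F : ℂ → ℂ} {c : ℂ} {ρ : ℝ} (hρ : 0 < ρ)
    (hF : DifferentiableOn ℂ F (Metric.closedBall c ρ)) :
    ∫ z in Metric.ball c ρ, F z = ((Real.pi * ρ ^ 2 : ℝ) : ℂ) * F c := by
  have hG : DifferentiableOn ℂ (fun ζ => F (c + ζ)) (Metric.closedBall (0 : ℂ) ρ) := by
    apply hF.comp
    · fun_prop
    · intro ζ hζ
      rw [mem_closedBall_zero_iff] at hζ
      rw [Metric.mem_closedBall, dist_eq_norm, add_sub_cancel_left]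
      exact hζ
  have h := GEK_area0 hρ hG
  rw [add_zero] at h
  rw [← h, ← integral_indicator measurableSet_ball, ← integral_indicator measurableSet_ball,
    ← integral_add_left_eq_self _ c]
  congr 1
  ext ζ
  by_cases hζ : ζ ∈ Metric.ball (0 : ℂ) ρ
  · rw [Set.indicator_of_mem, Set.indicator_of_mem hζ]
    rw [mem_ball_zero_iff] at hζ
    rw [Metric.mem_ball, dist_eq_norm, add_sub_cancel_left]
    exact hζ
  · rw [Set.indicator_of_notMem, Set.indicator_of_notMem hζ]
    rw [mem_ball_zero_iff] at hζ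
    rw [Metric.mem_ball, dist_eq_norm, add_sub_cancel_left]
    exact hζ

/-- the kernel -/
noncomputable def GEK_k (r : ℝ) (z : ℂ) (v : ℝ) : ℝ :=
  if ‖z - ((r : ℂ) + (v : ℂ) * Complex.I)‖ < v / 2 then 4 / (Real.pi * v ^ 2) else 0

theorem GEK_meas (r : ℝ) : Measurable (fun p : ℂ × ℝ => GEK_k r p.1 p.2) := by
  unfold GEK_k
  apply Measurable.ite
  · apply measurableSet_lt
    · fun_prop
    · fun_prop
  · fun_prop
  · exact measurable_const

theorem GEK_nonneg (r : ℝ) (z : ℂ) (v : ℝ) : 0 ≤ GEK_k r z v := by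
  unfold GEK_k
  split_ifs
  · have := Real.pi_pos
    positivity
  · exact le_rfl

theorem GEK_supp {r : ℝ} {z : ℂ} {v : ℝ} (h : GEK_k r z v ≠ 0) :
    |z.re - r| < v / 2 ∧ v / 2 < z.im ∧ z.im < 3 * v / 2 := by
  unfold GEK_k at h
  split_ifs at h with h1
  · have h2 := Complex.abs_re_le_norm (z - ((r : ℂ) + (v : ℂ) * Complex.I))
    have h3 := Complex.abs_im_le_norm (z - ((r : ℂ) + (v : ℂ) * Complex.I))
    simp only [Complex.sub_re, Complex.add_re, Complex.ofReal_re, Complex.mul_re, Complex.I_re,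
      mul_zero, Complex.ofReal_im, Complex.I_im, mul_one, sub_self, add_zero, Complex.sub_im,
      Complex.add_im, Complex.mul_im, zero_add] at h2 h3
    have h4 := lt_of_le_of_lt h2 h1
    have h5 := abs_lt.mp (lt_of_le_of_lt h3 h1)
    exact ⟨h4, by linarith [h5.1], by linarith [h5.2]⟩
  · exact absurd rfl h

theorem GEK_le {r : ℝ} {z : ℂ} {v a : ℝ} (ha : 0 < a) (hv : a < v) :
    GEK_k r z v ≤ 4 / (Real.pi * a ^ 2) := by
  unfold GEK_k
  have := Real.pi_pos
  split_ifs
  · apply div_le_div_of_nonneg_left (by norm_num) (by positivity)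
    apply mul_le_mul_of_nonneg_left _ this.le
    exact pow_le_pow_left₀ ha.le hv.le 2
  · positivity

theorem GEK_int {y : ℝ} (hy : 0 < y) :
    IntegrableOn (fun v : ℝ => 4 / (Real.pi * v ^ 2)) (Set.Ioc (2 * y / 3) (2 * y)) ∧
    ∫ v in Set.Ioc (2 * y / 3) (2 * y), 4 / (Real.pi * v ^ 2) = 4 / (Real.pi * y) := by
  have hpi := Real.pi_pos
  have hle : 2 * y / 3 ≤ 2 * y := by linarith
  have hc : ContinuousOn (fun v : ℝ => 4 / (Real.pi * v ^ 2)) (Set.uIcc (2 * y / 3) (2 * y)) := by
    rw [Set.uIcc_of_le hle]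
    apply ContinuousOn.div continuousOn_const (by fun_prop)
    intro v hv
    have : 0 < v := by linarith [hv.1]
    positivity
  have hi := hc.intervalIntegrable (μ := volume)
  refine ⟨?_, ?_⟩
  · rw [intervalIntegrable_iff_integrableOn_Ioc_of_le hle] at hi
    exact hi
  · rw [← intervalIntegral.integral_of_le hle]
    have hd : ∀ x ∈ Set.uIcc (2 * y / 3) (2 * y), HasDerivAt (fun v : ℝ => -4 / (Real.pi * v))
        (4 / (Real.pi * x ^ 2)) x := by
      intro x hx
      rw [Set.uIcc_of_le hle] at hx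
      have hx0 : 0 < x := by linarith [hx.1]
      have h1 : HasDerivAt (fun v : ℝ => (Real.pi * v)) (Real.pi * 1) x :=
        (hasDerivAt_id x).const_mul _
      have h2 := (hasDerivAt_const x (-4 : ℝ)).div h1 (by positivity)
      convert! h2 using 1
      rw [zero_mul, zero_sub, mul_one, neg_mul, neg_neg, mul_pow, div_eq_div_iff (by positivity) (by positivity)]
      ring
    rw [intervalIntegral.integral_eq_sub_of_hasDerivAt hd hi]
    field_simp
    ring

theorem vert_kernel_pr (r : ℝ) {a b : ℝ} (ha : 0 < a) (hab : a ≤ b) : ∃ K : ℂ → ℝ, Measurable K ∧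
    (∀ z, 0 ≤ K z) ∧ (∀ z, K z ≠ 0 → |z.re - r| < z.im ∧ a / 2 < z.im ∧ z.im < 3 * b / 2) ∧
    (∀ z, K z ≠ 0 → K z ≤ 4 / (Real.pi * z.im)) ∧
    ∀ F : ℂ → ℂ, DifferentiableOn ℂ F {z : ℂ | 0 < z.im} →
      ∫ v in a..b, F ((r : ℂ) + (v : ℂ) * Complex.I) = ∫ z : ℂ, F z * (K z : ℂ) := by
  have hpi := Real.pi_pos
  set K : ℂ → ℝ := fun z => ∫ v in Set.Ioc a b, GEK_k r z v with hK
  have hsupp : ∀ z, K z ≠ 0 → |z.re - r| < z.im ∧ a / 2 < z.im ∧ z.im < 3 * b / 2 := by
    intro z hz
    by_contra hcon
    apply hz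
    rw [hK]
    simp only []
    apply setIntegral_eq_zero_of_forall_eq_zero
    intro v hv
    by_contra hne
    obtain ⟨h1, h2, h3⟩ := GEK_supp hne
    apply hcon
    exact ⟨by linarith, by linarith [hv.1], by linarith [hv.2]⟩
  refine ⟨K, ?_, ?_, hsupp, ?_, ?_⟩
  · have h1 : StronglyMeasurable (fun p : ℂ × ℝ => GEK_k r p.1 p.2) := (GEK_meas r).stronglyMeasurable
    exact (h1.integral_prod_right' (ν := volume.restrict (Set.Ioc a b))).measurable
  · intro z
    exact setIntegral_nonneg measurableSet_Ioc fun v _ => GEK_nonneg r z v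
  · intro z hz
    obtain ⟨-, h2, -⟩ := hsupp z hz
    have hy : 0 < z.im := by linarith
    obtain ⟨hi, he⟩ := GEK_int hy
    set g : ℝ → ℝ := (Set.Ioc (2 * z.im / 3) (2 * z.im)).indicator (fun v : ℝ => 4 / (Real.pi * v ^ 2)) with hg
    have hgi : Integrable g := by
      rw [hg, integrable_indicator_iff measurableSet_Ioc]
      exact hi
    have hg0 : ∀ v, 0 ≤ g v := by
      intro v
      rw [hg]
      apply Set.indicator_nonneg
      intro v _
      positivity
    have hle : ∀ v, GEK_k r z v ≤ g v := by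
      intro v
      by_cases hne : GEK_k r z v = 0
      · rw [hne]; exact hg0 v
      · obtain ⟨h1, h2, h3⟩ := GEK_supp hne
        rw [hg, Set.indicator_of_mem]
        · unfold GEK_k
          split_ifs
          · exact le_rfl
          · positivity
        · exact ⟨by linarith, by linarith⟩
    calc K z ≤ ∫ v in Set.Ioc a b, g v := by
          rw [hK]
          apply integral_mono_of_nonneg
          · exact Eventually.of_forall fun v => GEK_nonneg r z v
          · exact hgi.integrableOn
          · exact Eventually.of_forall hle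
      _ ≤ ∫ v, g v := setIntegral_le_integral hgi (Eventually.of_forall hg0)
      _ = 4 / (Real.pi * z.im) := by
          rw [hg, integral_indicator measurableSet_Ioc, he]
  · intro F hF
    set S : Set ℂ := Set.Icc (r - b) (r + b) ×ℂ Set.Icc (a / 2) (3 * b / 2) with hS
    have hScomp : IsCompact S := isCompact_Icc.reProdIm isCompact_Icc
    have hSm : MeasurableSet S := hScomp.isClosed.measurableSet
    have hSpos : S ⊆ {z : ℂ | 0 < z.im} := by
      intro z hz
      rw [hS, Complex.mem_reProdIm] at hz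
      have := hz.2.1
      show 0 < z.im
      linarith
    have hFS : ContinuousOn F S := hF.continuousOn.mono hSpos
    obtain ⟨C, hC⟩ := hScomp.exists_bound_of_continuousOn hFS
    have hball : ∀ v ∈ Set.Ioc a b, ∀ z : ℂ, GEK_k r z v ≠ 0 → z ∈ S := by
      intro v hv z hz
      obtain ⟨h1, h2, h3⟩ := GEK_supp hz
      rw [hS, Complex.mem_reProdIm]
      have h4 := abs_lt.mp h1
      have := hv.1
      have := hv.2
      exact ⟨⟨by linarith [h4.1], by linarith [h4.2]⟩, ⟨by linarith, by linarith⟩⟩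
    have h1 : ∫ z : ℂ, F z * (K z : ℂ) = ∫ z in S, F z * (K z : ℂ) := by
      rw [setIntegral_eq_integral_of_forall_compl_eq_zero]
      intro z hz
      have : K z = 0 := by
        rw [hK]
        apply setIntegral_eq_zero_of_forall_eq_zero
        intro v hv
        by_contra hne
        exact hz (hball v hv z hne)
      rw [this, Complex.ofReal_zero, mul_zero]
    have h2 : ∀ z : ℂ, F z * (K z : ℂ) = ∫ v in Set.Ioc a b, F z * (GEK_k r z v : ℂ) := by
      intro z
      rw [integral_const_mul]
      congr 1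
      exact (integral_ofReal (𝕜 := ℂ)).symm
    rw [h1]
    simp_rw [h2]
    have hfin : volume S < ⊤ := hScomp.measure_lt_top
    have : IsFiniteMeasure (volume.restrict S) := ⟨by rw [Measure.restrict_apply_univ]; exact hfin⟩
    have hint : Integrable (Function.uncurry fun (z : ℂ) (v : ℝ) => F z * (GEK_k r z v : ℂ))
        ((volume.restrict S).prod (volume.restrict (Set.Ioc a b))) := by
      refine Integrable.of_bound ?_ (|C| * (4 / (Real.pi * a ^ 2))) ?_
      · apply AEStronglyMeasurable.mul
        · have h3 : AEStronglyMeasurable F (volume.restrict S) := hFS.aestronglyMeasurable hSm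
          exact h3.comp_fst
        · exact (Complex.continuous_ofReal.measurable.comp (GEK_meas r)).aestronglyMeasurable
      · rw [Measure.prod_restrict]
        refine (ae_restrict_iff' (hSm.prod measurableSet_Ioc)).mpr (Eventually.of_forall fun p hp => ?_)
        obtain ⟨hp1, hp2⟩ := hp
        simp only [Function.uncurry]
        rw [norm_mul, Complex.norm_real, Real.norm_eq_abs, abs_of_nonneg (GEK_nonneg _ _ _)]
        apply mul_le_mul ((hC _ hp1).trans (le_abs_self C)) (GEK_le ha hp2.1) (GEK_nonneg _ _ _)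
          (abs_nonneg _)
    rw [integral_integral_swap hint, intervalIntegral.integral_of_le hab]
    apply setIntegral_congr_fun measurableSet_Ioc
    intro v hv
    have hv0 : 0 < v := lt_trans ha hv.1
    simp only []
    have h3 : ∫ z in S, F z * (GEK_k r z v : ℂ) =
        ∫ z in Metric.ball ((r : ℂ) + (v : ℂ) * Complex.I) (v / 2), F z * ((4 / (Real.pi * v ^ 2) : ℝ) : ℂ) := by
      rw [← integral_indicator hSm, ← integral_indicator measurableSet_ball]
      congr 1
      ext z
      by_cases hz : z ∈ Metric.ball ((r : ℂ) + (v : ℂ) * Complex.I) (v / 2)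
      · rw [Set.indicator_of_mem hz]
        rw [Metric.mem_ball, dist_eq_norm] at hz
        have hk : GEK_k r z v = 4 / (Real.pi * v ^ 2) := by
          unfold GEK_k
          rw [if_pos hz]
        have hk0 : GEK_k r z v ≠ 0 := by
          rw [hk]; positivity
        rw [Set.indicator_of_mem (hball v hv z hk0), hk]
      · rw [Set.indicator_of_notMem hz]
        rw [Metric.mem_ball, dist_eq_norm] at hz
        have hk : GEK_k r z v = 0 := by
          unfold GEK_k
          rw [if_neg hz]
        by_cases hzS : z ∈ S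
        · rw [Set.indicator_of_mem hzS, hk, Complex.ofReal_zero, mul_zero]
        · rw [Set.indicator_of_notMem hzS]
    rw [h3, integral_mul_const, GEK_area (by linarith)]
    · push_cast
      have hpi' : (Real.pi : ℂ) ≠ 0 := by exact_mod_cast hpi.ne'
      have hv' : (v : ℂ) ≠ 0 := by exact_mod_cast hv0.ne'
      field_simp
      ring
    · apply hF.mono
      intro z hz
      rw [Metric.mem_closedBall, dist_eq_norm] at hz
      have h4 := (Complex.abs_im_le_norm (z - ((r : ℂ) + (v : ℂ) * Complex.I))).trans hz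
      simp only [Complex.sub_im, Complex.add_im, Complex.ofReal_im, Complex.mul_im, Complex.ofReal_re,
        Complex.I_im, mul_one, Complex.I_re, mul_zero, add_zero, zero_add] at h4
      have h5 := (abs_le.mp h4).1
      show 0 < z.im
      linarith

theorem vert_kernel : type_of% @vert_kernel_pr := @vert_kernel_pr

end Pool.Agent.LEV
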