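import Pool.Agent.Lib_helper68.LEV.DefsC
import Pool.Agent.Lib_helper68.LEV.EIA
import Pool.Agent.Lib_helper68.LEV.GID
import Pool.Agent.Lib_helper68.LEV.HKA
import Pool.Agent.Lib_helper68.LEV.LHI
import Pool.Agent.Lib_helper68.LEV.QEX

/-! Block GIH: the Hecke relation integrated over the imaginary axis. -/

namespace Pool.Agent.LEV

open Complex MeasureTheory Filter Topology UpperHalfPlane ModularGroup
open scoped MatrixGroups Modular ENNReal ModularForm ComplexConjugate ContDiff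

/-! arithmetic of divisors -/

theorem GIH_divisors {p m : ℕ} (hp : p.Prime) (hm : 0 < m) :
    (p * m).divisors = m.divisors ∪ m.divisors.image (fun d => p * d) := by
  ext d
  rw [Finset.mem_union, Finset.mem_image, Nat.mem_divisors, Nat.mem_divisors]
  constructor
  · rintro ⟨h1, h2⟩
    by_cases hpd : p ∣ d
    · obtain ⟨d', rfl⟩ := hpd
      right
      exact ⟨d', Nat.mem_divisors.mpr ⟨Nat.dvd_of_mul_dvd_mul_left hp.pos h1, hm.ne'⟩, rfl⟩
    · left
      exact ⟨Nat.Coprime.dvd_of_dvd_mul_left ((Nat.Prime.coprime_iff_not_dvd hp).mpr hpd).symm h1,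
        hm.ne'⟩
  · rintro (⟨h1, h2⟩ | ⟨d', h1, rfl⟩)
    · exact ⟨h1.mul_left p, (Nat.mul_pos hp.pos hm).ne'⟩
    · exact ⟨Nat.mul_dvd_mul_left p (Nat.dvd_of_mem_divisors h1), (Nat.mul_pos hp.pos hm).ne'⟩

theorem GIH_sum_divisors {p m : ℕ} (hp : p.Prime) (hm : 0 < m) (hpm : ¬ p ∣ m) (F : ℕ → ℂ) :
    ∑ d ∈ (p * m).divisors, F d = ∑ d ∈ m.divisors, F d + ∑ d ∈ m.divisors, F (p * d) := by
  rw [GIH_divisors hp hm, Finset.sum_union]
  · congr 1
    rw [Finset.sum_image]
    intro a _ b _ hab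
    exact Nat.eq_of_mul_eq_mul_left hp.pos hab
  · rw [Finset.disjoint_left]
    intro d hd hd'
    rw [Finset.mem_image] at hd'
    obtain ⟨d', _, rfl⟩ := hd'
    exact hpm (dvd_trans (dvd_mul_right p d') (Nat.dvd_of_mem_divisors hd))

/-- every fraction with denominator `e` in lowest terms -/
theorem GIH_reduced {e : ℕ} (he : 0 < e) (g : ℝ → ℂ) :
    ∑ j ∈ Finset.range e, g ((j : ℝ) / e) =
      ∑ d ∈ e.divisors, ∑ j ∈ (Finset.range d).filter (fun j => d.Coprime j), g ((j : ℝ) / d) := by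
  rw [Finset.sum_sigma']
  symm
  refine Finset.sum_nbij' (fun x : (_ : ℕ) × ℕ => e / x.1 * x.2)
    (fun a : ℕ => (⟨e / e.gcd a, a / e.gcd a⟩ : (_ : ℕ) × ℕ)) ?_ ?_ ?_ ?_ ?_
  · rintro ⟨d, j⟩ hx
    rw [Finset.mem_sigma, Finset.mem_filter, Finset.mem_range] at hx
    obtain ⟨h1, h2, _⟩ := hx
    have h4 : d ∣ e := Nat.dvd_of_mem_divisors h1
    have h5 : 0 < e / d := Nat.div_pos (Nat.le_of_dvd he h4) (Nat.pos_of_dvd_of_pos h4 he)
    rw [Finset.mem_range]
    calc e / d * j < e / d * d := Nat.mul_lt_mul_of_pos_left h2 h5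
      _ = e := Nat.div_mul_cancel h4
  · intro a ha
    rw [Finset.mem_range] at ha
    have hg : 0 < e.gcd a := Nat.gcd_pos_of_pos_left a he
    rw [Finset.mem_sigma, Finset.mem_filter, Finset.mem_range, Nat.mem_divisors]
    refine ⟨⟨Nat.div_dvd_of_dvd (Nat.gcd_dvd_left e a), he.ne'⟩, ?_, ?_⟩
    · exact Nat.div_lt_div_of_lt_of_dvd (Nat.gcd_dvd_left e a) ha
    · exact Nat.coprime_div_gcd_div_gcd hg
  · rintro ⟨d, j⟩ hx
    rw [Finset.mem_sigma, Finset.mem_filter, Finset.mem_range] at hx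
    obtain ⟨h1, h2, h3⟩ := hx
    have h4 : d ∣ e := Nat.dvd_of_mem_divisors h1
    obtain ⟨k, hk⟩ := h4
    have hd : 0 < d := Nat.pos_of_dvd_of_pos ⟨k, hk⟩ he
    have hk0 : 0 < k := by
      rcases Nat.eq_zero_or_pos k with h0 | h0
      · rw [h0, mul_zero] at hk
        omega
      · exact h0
    have h5 : e / d = k := by rw [hk]; exact Nat.mul_div_cancel_left k hd
    have h6 : e.gcd (k * j) = k := by
      rw [hk, mul_comm d k, Nat.gcd_mul_left, h3, mul_one]
    show (⟨e / e.gcd (e / d * j), (e / d * j) / e.gcd (e / d * j)⟩ : (_ : ℕ) × ℕ) = ⟨d, j⟩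
    rw [h5, h6, Nat.mul_div_cancel_left j hk0, hk, Nat.mul_div_cancel d hk0]
  · intro a ha
    show e / (e / e.gcd a) * (a / e.gcd a) = a
    rw [Nat.div_div_self (Nat.gcd_dvd_left e a) he.ne', Nat.mul_div_cancel' (Nat.gcd_dvd_right e a)]
  · rintro ⟨d, j⟩ hx
    rw [Finset.mem_sigma, Finset.mem_filter, Finset.mem_range] at hx
    obtain ⟨h1, h2, h3⟩ := hx
    have h4 : d ∣ e := Nat.dvd_of_mem_divisors h1
    obtain ⟨k, hk⟩ := h4
    have hd : 0 < d := Nat.pos_of_dvd_of_pos ⟨k, hk⟩ he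
    have hk0 : 0 < k := by
      rcases Nat.eq_zero_or_pos k with h0 | h0
      · rw [h0, mul_zero] at hk
        omega
      · exact h0
    have h5 : e / d = k := by rw [hk]; exact Nat.mul_div_cancel_left k hd
    show g ((j : ℝ) / d) = g (((e / d * j : ℕ) : ℝ) / e)
    rw [h5, hk]
    congr 1
    have hdR : (d : ℝ) ≠ 0 := by exact_mod_cast hd.ne'
    have hkR : (k : ℝ) ≠ 0 := by exact_mod_cast hk0.ne'
    push_cast
    field_simp

theorem GIH_swap {m : ℕ} (hm : 0 < m) (F : ℕ → ℂ) :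
    ∑ e ∈ m.divisors, ∑ d ∈ e.divisors, F d = ∑ d ∈ m.divisors, ((m / d).divisors.card : ℂ) * F d := by
  rw [Finset.sum_comm' (s' := fun d => m.divisors.filter (fun e => d ∣ e)) (t' := m.divisors)]
  · apply Finset.sum_congr rfl
    intro d hd
    rw [Finset.sum_const, nsmul_eq_mul]
    congr 2
    have hd' : d ∣ m := Nat.dvd_of_mem_divisors hd
    have hd0 : 0 < d := Nat.pos_of_dvd_of_pos hd' hm
    refine Finset.card_nbij' (fun e => e / d) (fun k => d * k) ?_ ?_ ?_ ?_
    · intro e he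
      rw [Finset.mem_coe, Finset.mem_filter, Nat.mem_divisors] at he
      rw [Finset.mem_coe, Nat.mem_divisors]
      refine ⟨Nat.div_dvd_div he.2 he.1.1, ?_⟩
      exact (Nat.div_pos (Nat.le_of_dvd hm hd') hd0).ne'
    · intro k hk
      rw [Finset.mem_coe, Nat.mem_divisors] at hk
      rw [Finset.mem_coe, Finset.mem_filter, Nat.mem_divisors]
      refine ⟨⟨?_, hm.ne'⟩, dvd_mul_right d k⟩
      have := Nat.mul_dvd_mul_left d hk.1
      rwa [Nat.mul_div_cancel' hd'] at this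
    · intro e he
      rw [Finset.mem_coe, Finset.mem_filter] at he
      exact Nat.mul_div_cancel' he.2
    · intro k hk
      exact Nat.mul_div_cancel_left k hd0
  · intro e d
    rw [Finset.mem_filter, Nat.mem_divisors, Nat.mem_divisors, Nat.mem_divisors]
    constructor
    · rintro ⟨⟨h1, h2⟩, h3, h4⟩
      exact ⟨⟨⟨h1, h2⟩, h3⟩, h3.trans h1, h2⟩
    · rintro ⟨⟨⟨h1, h2⟩, h3⟩, h4, h5⟩
      exact ⟨⟨h1, h2⟩, h3, (Nat.pos_of_dvd_of_pos h1 hm).ne'⟩

/-! orthogonality -/

theorem GIH_orth {e : ℕ} (he : 0 < e) (n : ℕ) :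
    ∑ j ∈ Finset.range e, cexp (2 * Real.pi * Complex.I * n * (((j : ℝ) / e : ℝ) : ℂ)) =
      if e ∣ n then (e : ℂ) else 0 := by
  have heC : (e : ℂ) ≠ 0 := by exact_mod_cast he.ne'
  set ζ : ℂ := cexp (2 * Real.pi * Complex.I * n / e) with hζ
  have h1 : ∀ j : ℕ, cexp (2 * Real.pi * Complex.I * n * (((j : ℝ) / e : ℝ) : ℂ)) = ζ ^ j := by
    intro j
    rw [hζ, ← Complex.exp_nat_mul]
    congr 1
    push_cast
    field_simp
  rw [Finset.sum_congr rfl (fun j _ => h1 j)]
  have h2 : ζ ^ e = 1 := by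
    rw [hζ, ← Complex.exp_nat_mul]
    have : (e : ℂ) * (2 * Real.pi * Complex.I * n / e) = (n : ℤ) * (2 * Real.pi * Complex.I) := by
      push_cast
      field_simp
    rw [this, Complex.exp_int_mul_two_pi_mul_I]
  by_cases hd : e ∣ n
  · rw [if_pos hd]
    obtain ⟨k, rfl⟩ := hd
    have h3 : ζ = 1 := by
      rw [hζ]
      have : 2 * (Real.pi : ℂ) * Complex.I * ((e * k : ℕ) : ℂ) / e = (k : ℤ) * (2 * Real.pi * Complex.I) := by
        push_cast
        field_simp
      rw [this, Complex.exp_int_mul_two_pi_mul_I]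
    rw [h3]
    simp
  · rw [if_neg hd]
    have h3 : ζ ≠ 1 := by
      intro h4
      rw [hζ, Complex.exp_eq_one_iff] at h4
      obtain ⟨k, hk⟩ := h4
      have h5 : (n : ℂ) = k * e := by
        have h6 : (2 * (Real.pi : ℂ) * Complex.I) ≠ 0 := Complex.two_pi_I_ne_zero
        field_simp at hk
        have h7 : (2 * (Real.pi : ℂ) * Complex.I) * n = (2 * (Real.pi : ℂ) * Complex.I) * (k * e) := by
          linear_combination (2 * (Real.pi : ℂ) * Complex.I) * hk
        exact mul_left_cancel₀ h6 h7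
      have h6 : (n : ℤ) = k * e := by exact_mod_cast h5
      apply hd
      rw [← Int.natCast_dvd_natCast]
      exact ⟨k, by rw [h6]; ring⟩
    rw [geom_sum_eq h3, h2, sub_self, zero_div]

section
variable {N : ℕ} [Fact N.Prime]

/-- the Hecke relation -/
theorem GIH_hecke {f : S2 N} (hf : IsNew f) {p : ℕ} (hp : p.Prime) (hpN : p ≠ N) (n : ℕ) :
    co f p * co f n = co f (p * n) + (if p ∣ n then (p : ℂ) * co f (n / p) else 0) := by
  obtain ⟨T, hT⟩ := hecke_exists (N := N) hp hpN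
  have h1 := new_hecke hf hp hpN hT
  have h2 := hT f n
  rw [h1, co_smul] at h2
  exact h2

/-- the sum over all fractions with denominator `e` -/
noncomputable def GIH_H {N : ℕ} (f : S2 N) (e : ℕ) (v : ℝ) : ℂ :=
  ∑ j ∈ Finset.range e, ev f ((j : ℝ) / e) v

theorem GIH_ev_sum (f : S2 N) (x : ℝ) {v : ℝ} (hv : 0 < v) :
    HasSum (fun n : ℕ => co f n * cexp (2 * Real.pi * Complex.I * n * (x : ℂ)) *
      (Real.exp (-2 * Real.pi * n * v) : ℂ)) (ev f x v) := by
  have him : 0 < ((x : ℂ) + (v : ℂ) * Complex.I).im := by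
    simpa using hv
  have h := qex f (⟨(x : ℂ) + (v : ℂ) * Complex.I, him⟩ : ℍ)
  have hev : ev f x v = f (⟨(x : ℂ) + (v : ℂ) * Complex.I, him⟩ : ℍ) := by
    unfold ev
    rw [UpperHalfPlane.ofComplex_apply_of_im_pos him]
  rw [hev]
  convert h using 1
  funext n
  rw [mul_assoc]
  congr 1
  rw [Complex.ofReal_exp, ← Complex.exp_add]
  congr 1
  show _ = 2 * (Real.pi : ℂ) * Complex.I * n * ((x : ℂ) + (v : ℂ) * Complex.I)
  push_cast
  have hI : Complex.I * Complex.I = -1 := Complex.I_mul_I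
  linear_combination (-(2 * (Real.pi : ℂ) * n * v)) * hI

theorem GIH_hasSum (f : S2 N) {e : ℕ} (he : 0 < e) {v : ℝ} (hv : 0 < v) :
    HasSum (fun k : ℕ => (e : ℂ) * co f (e * k) * (Real.exp (-2 * Real.pi * (e * k : ℕ) * v) : ℂ))
      (GIH_H f e v) := by
  have h1 : HasSum (fun n : ℕ => ∑ j ∈ Finset.range e, co f n *
      cexp (2 * Real.pi * Complex.I * n * (((j : ℝ) / e : ℝ) : ℂ)) *
      (Real.exp (-2 * Real.pi * n * v) : ℂ)) (GIH_H f e v) :=
    hasSum_sum (fun j _ => GIH_ev_sum f ((j : ℝ) / e) hv)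
  have h2 : (fun n : ℕ => ∑ j ∈ Finset.range e, co f n *
      cexp (2 * Real.pi * Complex.I * n * (((j : ℝ) / e : ℝ) : ℂ)) *
      (Real.exp (-2 * Real.pi * n * v) : ℂ)) = fun n : ℕ => (if e ∣ n then (e : ℂ) else 0) *
        (co f n * (Real.exp (-2 * Real.pi * n * v) : ℂ)) := by
    funext n
    rw [← GIH_orth he n, Finset.sum_mul]
    apply Finset.sum_congr rfl
    intro j _
    ring
  rw [h2] at h1
  have hinj : Function.Injective (fun k : ℕ => e * k) := fun a b hab =>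
    Nat.eq_of_mul_eq_mul_left he hab
  have h3 := (Function.Injective.hasSum_iff hinj (f := fun n : ℕ => (if e ∣ n then (e : ℂ) else 0) *
        (co f n * (Real.exp (-2 * Real.pi * n * v) : ℂ))) (a := GIH_H f e v) (by
    intro x hx
    have : ¬ e ∣ x := by
      rintro ⟨k, rfl⟩
      exact hx ⟨k, rfl⟩
    simp [this])).mpr h1
  convert h3 using 1
  funext k
  simp only [Function.comp_apply, dvd_mul_right, if_true]
  ring

theorem GIH_congr {F G : ℕ → ℂ} {a : ℂ} (h : ∀ k, F k = G k) (hG : HasSum G a) : HasSum F a := by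
  have : F = G := funext h
  rw [this]
  exact hG

/-- the relation between the denominators `p e` and `e` -/
theorem GIH_rel {f : S2 N} (hf : IsNew f) {p e : ℕ} (hp : p.Prime) (hpN : p ≠ N) (he : 0 < e)
    (hpe : ¬ p ∣ e) {v : ℝ} (hv : 0 < v) :
    GIH_H f (p * e) v + (p : ℂ) ^ 2 * GIH_H f e ((p : ℝ) ^ 2 * v) =
      (p : ℂ) * co f p * GIH_H f e ((p : ℝ) * v) := by
  have hp0 : (0 : ℝ) < p := by exact_mod_cast hp.pos
  have s1 := GIH_hasSum f (Nat.mul_pos hp.pos he) hv
  have s2 := GIH_hasSum f he (v := (p : ℝ) ^ 2 * v) (by positivity)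
  have s3 := GIH_hasSum f he (v := (p : ℝ) * v) (by positivity)
  have hinj : Function.Injective (fun k : ℕ => p * k) := fun a b hab =>
    Nat.eq_of_mul_eq_mul_left hp.pos hab
  have s4 : HasSum (fun k : ℕ => if p ∣ k then (e : ℂ) * co f (e * (k / p)) *
      (Real.exp (-2 * Real.pi * (e * k : ℕ) * ((p : ℝ) * v)) : ℂ) else 0)
      (GIH_H f e ((p : ℝ) ^ 2 * v)) := by
    refine (Function.Injective.hasSum_iff hinj ?_).mp ?_
    · intro x hx
      have : ¬ p ∣ x := by
        rintro ⟨k, rfl⟩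
        exact hx ⟨k, rfl⟩
      rw [if_neg this]
    · convert s2 using 1
      funext k
      simp only [Function.comp_apply, dvd_mul_right, if_true, Nat.mul_div_cancel_left k hp.pos]
      congr 2
      congr 1
      push_cast
      ring
  have s5 := s1.add (s4.mul_left ((p : ℂ) ^ 2))
  have s6 := s3.mul_left ((p : ℂ) * co f p)
  refine HasSum.unique s5 ?_
  refine GIH_congr (fun k => ?_) s6
  have hr := GIH_hecke hf hp hpN (e * k)
  have hiff : p ∣ e * k ↔ p ∣ k := by
    constructor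
    · intro h
      exact (hp.dvd_mul.mp h).resolve_left hpe
    · intro h
      exact h.mul_left e
  have he1 : (Real.exp (-2 * Real.pi * (p * e * k : ℕ) * v) : ℂ) =
      (Real.exp (-2 * Real.pi * (e * k : ℕ) * ((p : ℝ) * v)) : ℂ) := by
    congr 2
    push_cast
    ring
  rw [he1]
  by_cases hk : p ∣ k
  · rw [if_pos hk]
    rw [if_pos (hiff.mpr hk), Nat.mul_div_assoc e hk] at hr
    rw [mul_assoc p e k]
    push_cast
    have : (p : ℂ) * co f p * ((e : ℂ) * co f (e * k) *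
        (Complex.exp (-2 * Real.pi * ((e : ℂ) * k) * ((p : ℂ) * v)))) =
        (p : ℂ) * e * (co f p * co f (e * k)) *
        (Complex.exp (-2 * Real.pi * ((e : ℂ) * k) * ((p : ℂ) * v))) := by ring
    rw [this, hr]
    ring
  · rw [if_neg hk]
    rw [if_neg (fun h => hk (hiff.mp h))] at hr
    rw [mul_assoc p e k]
    push_cast
    have : (p : ℂ) * co f p * ((e : ℂ) * co f (e * k) *
        (Complex.exp (-2 * Real.pi * ((e : ℂ) * k) * ((p : ℂ) * v)))) =
        (p : ℂ) * e * (co f p * co f (e * k)) *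
        (Complex.exp (-2 * Real.pi * ((e : ℂ) * k) * ((p : ℂ) * v))) := by ring
    rw [this, hr]
    ring

/-- integrability for all fractions -/
theorem GIH_int {f : S2 N} (hf : IsNew f) (h1 : co f N = 1) {e : ℕ} (he : 0 < e)
    (heN : e.Coprime N) (j : ℕ) :
    IntegrableOn (fun v : ℝ => ev f ((j : ℝ) / e) v) (Set.Ioi 0) := by
  have hg : 0 < e.gcd j := Nat.gcd_pos_of_pos_left j he
  set d := e / e.gcd j with hd
  set i := j / e.gcd j with hi
  have hde : d ∣ e := Nat.div_dvd_of_dvd (Nat.gcd_dvd_left e j)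
  have hd0 : 0 < d := Nat.pos_of_dvd_of_pos hde he
  have hcop : d.Coprime i := Nat.coprime_div_gcd_div_gcd hg
  have h := (geo_fold hf h1 hd0 (Nat.Coprime.coprime_dvd_left hde heN)).1 i hcop
  have heq : ((j : ℝ) / e) = ((i : ℝ) / d) := by
    have e1 : e = e.gcd j * d := (Nat.mul_div_cancel' (Nat.gcd_dvd_left e j)).symm
    have e2 : j = e.gcd j * i := (Nat.mul_div_cancel' (Nat.gcd_dvd_right e j)).symm
    have e3 : (e : ℝ) = (e.gcd j : ℝ) * d := by exact_mod_cast e1
    have e4 : (j : ℝ) = (e.gcd j : ℝ) * i := by exact_mod_cast e2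
    have hgR : ((e.gcd j : ℕ) : ℝ) ≠ 0 := by exact_mod_cast hg.ne'
    rw [e3, e4, mul_div_mul_left _ _ hgR]
  rw [heq]
  exact h

theorem GIH_intH {f : S2 N} (hf : IsNew f) (h1 : co f N = 1) {e : ℕ} (he : 0 < e)
    (heN : e.Coprime N) : IntegrableOn (fun v : ℝ => GIH_H f e v) (Set.Ioi 0) := by
  unfold GIH_H
  exact MeasureTheory.integrable_finsetSum _ (fun j _ => GIH_int hf h1 he heN j)

/-- the total integral -/
noncomputable def GIH_I {N : ℕ} (f : S2 N) (e : ℕ) : ℂ := ∫ v in Set.Ioi (0 : ℝ), GIH_H f e v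

theorem GIH_step {f : S2 N} (hf : IsNew f) (h1 : co f N = 1) {p e : ℕ} (hp : p.Prime)
    (hpN : p ≠ N) (he : 0 < e) (heN : e.Coprime N) (hpe : ¬ p ∣ e) :
    GIH_I f (p * e) + GIH_I f e = co f p * GIH_I f e := by
  have hp0 : (0 : ℝ) < p := by exact_mod_cast hp.pos
  have hpC : (p : ℂ) ≠ 0 := by exact_mod_cast hp.pos.ne'
  have hpcop : p.Coprime N := (Nat.coprime_primes hp Fact.out).mpr hpN
  have i1 := GIH_intH hf h1 (Nat.mul_pos hp.pos he) (Nat.Coprime.mul_left hpcop heN)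
  have i2 := GIH_intH hf h1 he heN
  have c2 : ∫ v in Set.Ioi (0 : ℝ), GIH_H f e ((p : ℝ) ^ 2 * v) = ((p : ℂ) ^ 2)⁻¹ * GIH_I f e := by
    rw [integral_comp_mul_left_Ioi (fun v => GIH_H f e v) 0 (b := (p : ℝ) ^ 2) (by positivity),
      mul_zero, Complex.real_smul]
    push_cast
    rfl
  have c1 : ∫ v in Set.Ioi (0 : ℝ), GIH_H f e ((p : ℝ) * v) = ((p : ℂ))⁻¹ * GIH_I f e := by
    rw [integral_comp_mul_left_Ioi (fun v => GIH_H f e v) 0 (b := (p : ℝ)) (by positivity),
      mul_zero, Complex.real_smul]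
    push_cast
    rfl
  have i3 : IntegrableOn (fun v : ℝ => GIH_H f e ((p : ℝ) ^ 2 * v)) (Set.Ioi 0) := by
    have := (integrableOn_Ioi_comp_mul_left_iff (fun v => GIH_H f e v) 0
      (a := (p : ℝ) ^ 2) (by positivity)).mpr (by rw [mul_zero]; exact i2)
    exact this
  have h2 : ∫ v in Set.Ioi (0 : ℝ), (GIH_H f (p * e) v +
      (p : ℂ) ^ 2 * GIH_H f e ((p : ℝ) ^ 2 * v)) =
      ∫ v in Set.Ioi (0 : ℝ), (p : ℂ) * co f p * GIH_H f e ((p : ℝ) * v) :=
    setIntegral_congr_fun measurableSet_Ioi (fun v hv => GIH_rel hf hp hpN he hpe hv)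
  rw [integral_add i1 (i3.const_mul _), integral_const_mul, integral_const_mul, c1, c2] at h2
  unfold GIH_I at h2 ⊢
  field_simp at h2
  rw [h2]
  ring

theorem GIH_total {f : S2 N} (hf : IsNew f) (h1 : co f N = 1) :
    ∀ m : ℕ, Squarefree m → m.Coprime N → ∑ e ∈ m.divisors, GIH_I f e = co f m * GIH_I f 1 := by
  intro m
  induction m using Nat.strong_induction_on with
  | _ m ih =>
    intro hm hmN
    have hm0 : 0 < m := Nat.pos_of_ne_zero hm.ne_zero
    rcases Nat.lt_or_ge 1 m with h | h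
    · obtain ⟨p, hp, hpm⟩ := Nat.exists_prime_and_dvd h.ne'
      obtain ⟨k, rfl⟩ := hpm
      have hk0 : 0 < k := Nat.pos_of_mul_pos_left hm0
      have hcop : p.Coprime k := Nat.coprime_of_squarefree_mul hm
      have hpk : ¬ p ∣ k := (Nat.Prime.coprime_iff_not_dvd hp).mp hcop
      have hks : Squarefree k := hm.squarefree_of_dvd (dvd_mul_left k p)
      have hkN : k.Coprime N := Nat.Coprime.coprime_dvd_left (dvd_mul_left k p) hmN
      have hpN' : p.Coprime N := Nat.Coprime.coprime_dvd_left (dvd_mul_right p k) hmN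
      have hpN : p ≠ N := (Nat.coprime_primes hp Fact.out).mp hpN'
      have hlt : k < p * k := by
        have := hp.two_le
        nlinarith
      have h2 := ih k hlt hks hkN
      rw [GIH_sum_divisors hp hk0 hpk, ← Finset.sum_add_distrib]
      have h3 : ∀ d ∈ k.divisors, GIH_I f d + GIH_I f (p * d) = co f p * GIH_I f d := by
        intro d hd
        have hdk : d ∣ k := Nat.dvd_of_mem_divisors hd
        rw [add_comm]
        exact GIH_step hf h1 hp hpN (Nat.pos_of_dvd_of_pos hdk hk0)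
          (Nat.Coprime.coprime_dvd_left hdk hkN) (fun h => hpk (h.trans hdk))
      rw [Finset.sum_congr rfl h3, ← Finset.mul_sum, h2, hf.mul p k hcop]
      ring
    · have hm1 : m = 1 := by omega
      subst hm1
      rw [Nat.divisors_one, Finset.sum_singleton, hf.one, one_mul]

theorem GIH_I_eq {f : S2 N} (hf : IsNew f) (h1 : co f N = 1) {e : ℕ} (he : 0 < e)
    (heN : e.Coprime N) :
    GIH_I f e = ∑ d ∈ e.divisors, 2 * ∑ j ∈ (Finset.range d).filter (fun j => d.Coprime j),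
      ∫ v in Set.Ioi (1 / ((d : ℝ) * Real.sqrt N)), ev f ((j : ℝ) / d) v := by
  unfold GIH_I GIH_H
  rw [integral_finsetSum _ (fun j _ => GIH_int hf h1 he heN j),
    GIH_reduced he (fun x => ∫ v in Set.Ioi (0 : ℝ), ev f x v)]
  apply Finset.sum_congr rfl
  intro d hd
  have hde : d ∣ e := Nat.dvd_of_mem_divisors hd
  exact (geo_fold hf h1 (Nat.pos_of_dvd_of_pos hde he) (Nat.Coprime.coprime_dvd_left hde heN)).2

/-- the Hecke relation integrated over the imaginary axis -/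
theorem geo_hecke_pr {N : ℕ} [Fact N.Prime] {f : S2 N} (hf : IsNew f) (h1 : co f N = 1) {m : ℕ}
    (hm : Squarefree m) (hmN : m.Coprime N) :
    co f m * Lh f = 4 * Real.pi * ∑ e ∈ m.divisors, ((m / e).divisors.card : ℂ) *
      ∑ j ∈ (Finset.range e).filter (fun j => e.Coprime j),
        ∫ v in Set.Ioi (1 / ((e : ℝ) * Real.sqrt N)), ev f ((j : ℝ) / e) v := by
  have hm0 : 0 < m := Nat.pos_of_ne_zero hm.ne_zero
  have h2 := (lh_int f).2
  have h3 : GIH_I f 1 = ∫ v in Set.Ioi (0 : ℝ), ev f 0 v := by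
    unfold GIH_I GIH_H
    simp
  rw [h2, ← h3]
  have h4 := GIH_total hf h1 m hm hmN
  have h5 : ∑ e ∈ m.divisors, GIH_I f e = ∑ e ∈ m.divisors, ∑ d ∈ e.divisors,
      2 * ∑ j ∈ (Finset.range d).filter (fun j => d.Coprime j),
      ∫ v in Set.Ioi (1 / ((d : ℝ) * Real.sqrt N)), ev f ((j : ℝ) / d) v := by
    apply Finset.sum_congr rfl
    intro e he
    have hem : e ∣ m := Nat.dvd_of_mem_divisors he
    exact GIH_I_eq hf h1 (Nat.pos_of_dvd_of_pos hem hm0) (Nat.Coprime.coprime_dvd_left hem hmN)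
  rw [h5, GIH_swap hm0] at h4
  calc co f m * (2 * Real.pi * GIH_I f 1) = 2 * Real.pi * (co f m * GIH_I f 1) := by ring
    _ = 2 * Real.pi * ∑ d ∈ m.divisors, ((m / d).divisors.card : ℂ) *
      (2 * ∑ j ∈ (Finset.range d).filter (fun j => d.Coprime j),
      ∫ v in Set.Ioi (1 / ((d : ℝ) * Real.sqrt N)), ev f ((j : ℝ) / d) v) := by rw [← h4]
    _ = 4 * Real.pi * ∑ e ∈ m.divisors, ((m / e).divisors.card : ℂ) *
      ∑ j ∈ (Finset.range e).filter (fun j => e.Coprime j),
        ∫ v in Set.Ioi (1 / ((e : ℝ) * Real.sqrt N)), ev f ((j : ℝ) / e) v := by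
        rw [Finset.mul_sum, Finset.mul_sum]
        apply Finset.sum_congr rfl
        intro e _
        ring

end

theorem geo_hecke : type_of% @geo_hecke_pr := @geo_hecke_pr

end Pool.Agent.LEV
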