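import Pool.Agent.Lib_helper68.LEV.DefsC
import Pool.Agent.Lib_helper68.LEV.PRM

/-! Block EUW (helper80): the quadratic sum of the weights of the fractions. -/

namespace Pool.Agent.LEV

open Finset

theorem EUW_mB (B : Finset ℕ) : (mB B : ℝ) = ∏ p ∈ B, (p : ℝ) := by
  unfold mB
  push_cast
  rfl

theorem EUW_reidx (I B : Finset ℕ) (hB : B ⊆ I) (F : Finset ℕ → ℝ) :
    ∑ A ∈ I.powerset.filter (fun A => B ⊆ A), F A = ∑ C ∈ (I \ B).powerset, F (B ∪ C) := by
  refine sum_nbij' (fun A => A \ B) (fun C => B ∪ C) ?_ ?_ ?_ ?_ ?_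
  · intro A hA
    rw [mem_filter, mem_powerset] at hA
    rw [mem_powerset]
    exact sdiff_subset_sdiff hA.1 le_rfl
  · intro C hC
    rw [mem_powerset] at hC
    rw [mem_filter, mem_powerset]
    exact ⟨union_subset hB (hC.trans sdiff_subset), subset_union_left⟩
  · intro A hA
    rw [mem_filter] at hA
    exact union_sdiff_of_subset hA.2
  · intro C hC
    rw [mem_powerset] at hC
    have hd : Disjoint B C := by
      rw [disjoint_left]
      intro x hx hx2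
      exact (mem_sdiff.1 (hC hx2)).2 hx
    rw [union_sdiff_cancel_left hd]
  · intro A hA
    rw [mem_filter] at hA
    simp only [union_sdiff_of_subset hA.2]

/-- sums over the supersets of `B` of a multiplicative weight -/
theorem EUW_super (I B : Finset ℕ) (hB : B ⊆ I) (a c : ℝ) :
    ∑ A ∈ I.powerset.filter (fun A => B ⊆ A), a ^ A.card * c ^ (A \ B).card / (mB A : ℝ) =
      a ^ B.card / (mB B : ℝ) * ∏ p ∈ I \ B, (1 + a * c / p) := by
  rw [EUW_reidx I B hB, prod_one_add, mul_sum]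
  refine sum_congr rfl fun C hC => ?_
  rw [mem_powerset] at hC
  have hd : Disjoint B C := by
    rw [disjoint_left]
    intro x hx hx2
    exact (mem_sdiff.1 (hC hx2)).2 hx
  have h1 : (B ∪ C) \ B = C := union_sdiff_cancel_left hd
  rw [h1, card_union_of_disjoint hd, EUW_mB, EUW_mB, prod_union hd, prod_div_distrib, prod_const]
  rw [pow_add, mul_pow, div_mul_div_comm]
  congr 1
  ring

/-- the weight, up to an exponentially small error -/
theorem EUW_w (I B : Finset ℕ) (hB : B ⊆ I) (K : ℕ) :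
    |wB I K B - (-1) ^ B.card / (mB B : ℝ) * ∏ p ∈ I \ B, (1 + -1 * 2 / (p : ℝ))| ≤
      Real.exp (-K) * (Real.exp 1 ^ B.card / (mB B : ℝ) *
        ∏ p ∈ I \ B, (1 + Real.exp 1 * 2 / (p : ℝ))) := by
  rw [← EUW_super I B hB (-1) 2, ← EUW_super I B hB (Real.exp 1) 2]
  have h1 : wB I K B = ∑ A ∈ (I.powerset.filter (fun A => B ⊆ A)).filter (fun A => A.card ≤ K),
      (-1) ^ A.card * 2 ^ (A \ B).card / (mB A : ℝ) := by
    unfold wB SB
    rw [filter_filter, filter_filter]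
    refine sum_congr ?_ fun _ _ => rfl
    ext A
    simp only [mem_filter]
    tauto
  rw [h1, ← sum_filter_add_sum_filter_not (I.powerset.filter (fun A => B ⊆ A))
    (fun A => A.card ≤ K) (fun A => (-1) ^ A.card * 2 ^ (A \ B).card / (mB A : ℝ))]
  have e1 : ∀ u v : ℝ, u - (u + v) = -v := fun u v => by ring
  rw [e1, abs_neg, mul_sum]
  refine (abs_sum_le_sum_abs _ _).trans ?_
  calc ∑ A ∈ (I.powerset.filter (fun A => B ⊆ A)).filter (fun A => ¬ A.card ≤ K),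
        |(-1) ^ A.card * 2 ^ (A \ B).card / (mB A : ℝ)|
      ≤ ∑ A ∈ (I.powerset.filter (fun A => B ⊆ A)).filter (fun A => ¬ A.card ≤ K),
        Real.exp (-K) * (Real.exp 1 ^ A.card * 2 ^ (A \ B).card / (mB A : ℝ)) := by
        refine sum_le_sum fun A hA => ?_
        rw [mem_filter] at hA
        have h2 : |(-1) ^ A.card * 2 ^ (A \ B).card / (mB A : ℝ)| =
            1 * (2 ^ (A \ B).card / (mB A : ℝ)) := by
          rw [abs_div, abs_mul, abs_pow, abs_neg, abs_one, one_pow,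
            abs_of_nonneg (by positivity : (0 : ℝ) ≤ 2 ^ (A \ B).card),
            abs_of_nonneg (by positivity : (0 : ℝ) ≤ (mB A : ℝ))]
          ring
        have h3 : Real.exp (-K) * (Real.exp 1 ^ A.card * 2 ^ (A \ B).card / (mB A : ℝ)) =
            Real.exp (A.card - K) * (2 ^ (A \ B).card / (mB A : ℝ)) := by
          rw [sub_eq_add_neg, Real.exp_add, ← Real.exp_nat_mul, mul_one]
          ring
        rw [h2, h3]
        refine mul_le_mul_of_nonneg_right ?_ (by positivity)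
        apply Real.one_le_exp
        have : K ≤ A.card := by omega
        have : (K : ℝ) ≤ A.card := by exact_mod_cast this
        linarith
    _ ≤ ∑ A ∈ I.powerset.filter (fun A => B ⊆ A),
        Real.exp (-K) * (Real.exp 1 ^ A.card * 2 ^ (A \ B).card / (mB A : ℝ)) :=
        sum_le_sum_of_subset_of_nonneg (filter_subset _ _) fun A _ _ => by positivity

/-- the sum over all subsets of the main parts -/
theorem EUW_sq (I : Finset ℕ) (hI : ∀ p ∈ I, 0 < p) (a : ℝ) (c : ℝ) :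
    ∑ B ∈ I.powerset, (mB B : ℝ) * (a ^ B.card / (mB B : ℝ) * ∏ p ∈ I \ B, (1 + c / (p : ℝ))) ^ 2 =
      ∏ p ∈ I, (a ^ 2 / (p : ℝ) + (1 + c / p) ^ 2) := by
  rw [prod_add]
  refine sum_congr rfl fun B hB => ?_
  rw [mem_powerset] at hB
  have hm : (mB B : ℝ) ≠ 0 := by
    rw [EUW_mB]
    exact prod_ne_zero_iff.2 fun p hp => by
      have := hI p (hB hp)
      positivity
  rw [prod_div_distrib, prod_const, ← EUW_mB, prod_pow, mul_pow, div_pow, ← pow_mul, ← pow_mul,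
    mul_comm 2 B.card]
  field_simp

theorem EUW_invsq (I : Finset ℕ) (hI : ∀ p ∈ I, 2 ≤ p) : ∑ p ∈ I, 1 / (p : ℝ) ^ 2 ≤ 1 := by
  set M := I.sup id with hM
  have hsub : I ⊆ Ioc 1 (max 1 M) := by
    intro p hp
    rw [mem_Ioc]
    have h1 : p ≤ M := le_sup (f := id) hp
    exact ⟨hI p hp, h1.trans (le_max_right _ _)⟩
  calc ∑ p ∈ I, 1 / (p : ℝ) ^ 2 ≤ ∑ p ∈ Ioc 1 (max 1 M), 1 / (p : ℝ) ^ 2 :=
        sum_le_sum_of_subset_of_nonneg hsub fun _ _ _ => by positivity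
    _ = ∑ p ∈ Ioc 1 (max 1 M), ((p : ℝ) ^ 2)⁻¹ := by simp_rw [one_div]
    _ ≤ (((1 : ℕ) : ℝ))⁻¹ - (((max 1 M : ℕ)) : ℝ)⁻¹ :=
        sum_Ioc_inv_sq_le_sub one_ne_zero (le_max_left _ _)
    _ ≤ 1 := by
        have : (0 : ℝ) ≤ (((max 1 M : ℕ)) : ℝ)⁻¹ := by positivity
        simp only [Nat.cast_one, inv_one]
        linarith

/-- block EUW -/
theorem euw_pr : ∃ (C : ℝ) (N₀ : ℕ), ∀ N : ℕ, N₀ ≤ N →
    ∑ B ∈ SB (IN N) (KN N), (mB B : ℝ) * wB (IN N) (KN N) B ^ 2 ≤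
      C * Real.log (Real.log N) ^ 7 / Real.log N ^ 3 := by
  obtain ⟨N₁, h1⟩ := params
  obtain ⟨N₂, h2⟩ := in_sum
  refine ⟨2 * Real.exp 4 + 2, max N₁ N₂, fun N hN => ?_⟩
  obtain ⟨hL2, -, -, -, -, -, -, -⟩ := h1 N ((le_max_left _ _).trans hN)
  obtain ⟨hS1, hS2⟩ := h2 N ((le_max_right _ _).trans hN)
  set L2 := Real.log (Real.log N) with hL2def
  set L1 := Real.log N with hL1def
  set I := IN N with hI
  set K := KN N with hK
  set S := ∑ p ∈ I, 1 / (p : ℝ) with hS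
  have hL1pos : 0 < L1 := by
    by_contra hcon
    have h3 : L2 = Real.log L1 := rfl
    have h4 : 0 ≤ L1 := by
      rw [hL1def]
      exact Real.log_natCast_nonneg N
    have h5 : L1 = 0 := le_antisymm (not_lt.1 hcon) h4
    rw [h5, Real.log_zero] at h3
    linarith
  have hexpL2 : Real.exp L2 = L1 := Real.exp_log hL1pos
  have hL2pos : 0 < L2 := by linarith
  have hK1 : 100 * L2 ≤ K := Nat.le_ceil _
  have hp16 : ∀ p ∈ I, (16 : ℝ) ≤ p := by
    intro p hp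
    have := (mem_filter.1 hp).2.2
    linarith
  have hp0 : ∀ p ∈ I, 0 < p := by
    intro p hp
    have := hp16 p hp
    by_contra hcon
    have h0 : p = 0 := by omega
    rw [h0] at this
    norm_num at this
  have hp2 : ∀ p ∈ I, 2 ≤ p := by
    intro p hp
    have : (2 : ℝ) ≤ p := by linarith [hp16 p hp]
    exact_mod_cast this
  -- pointwise bound
  have hpt : ∀ B ∈ SB I K, (mB B : ℝ) * wB I K B ^ 2 ≤
      2 * ((mB B : ℝ) * ((-1) ^ B.card / (mB B : ℝ) * ∏ p ∈ I \ B, (1 + -1 * 2 / (p : ℝ))) ^ 2) +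
      2 * Real.exp (-K) ^ 2 * ((mB B : ℝ) * (Real.exp 1 ^ B.card / (mB B : ℝ) *
        ∏ p ∈ I \ B, (1 + Real.exp 1 * 2 / (p : ℝ))) ^ 2) := by
    intro B hB
    have hBI : B ⊆ I := mem_powerset.1 (mem_filter.1 hB).1
    have h3 := EUW_w I B hBI K
    set u := (-1) ^ B.card / (mB B : ℝ) * ∏ p ∈ I \ B, (1 + -1 * 2 / (p : ℝ)) with hu
    set v := Real.exp 1 ^ B.card / (mB B : ℝ) * ∏ p ∈ I \ B, (1 + Real.exp 1 * 2 / (p : ℝ)) with hv
    have hv0 : 0 ≤ v := by positivity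
    have h4 : (wB I K B - u) ^ 2 ≤ (Real.exp (-K) * v) ^ 2 := by
      rw [← sq_abs]
      exact pow_le_pow_left₀ (abs_nonneg _) h3 2
    have h5 : wB I K B ^ 2 ≤ 2 * u ^ 2 + 2 * (Real.exp (-K) * v) ^ 2 := by
      nlinarith [sq_nonneg (wB I K B - 2 * u)]
    have hm : (0 : ℝ) ≤ (mB B : ℝ) := by positivity
    calc (mB B : ℝ) * wB I K B ^ 2 ≤ (mB B : ℝ) * (2 * u ^ 2 + 2 * (Real.exp (-K) * v) ^ 2) :=
          mul_le_mul_of_nonneg_left h5 hm
      _ = _ := by ring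
  have hsum : ∑ B ∈ SB I K, (mB B : ℝ) * wB I K B ^ 2 ≤
      2 * ∏ p ∈ I, ((-1) ^ 2 / (p : ℝ) + (1 + -1 * 2 / (p : ℝ)) ^ 2) +
      2 * Real.exp (-K) ^ 2 * ∏ p ∈ I, (Real.exp 1 ^ 2 / (p : ℝ) +
        (1 + Real.exp 1 * 2 / (p : ℝ)) ^ 2) := by
    rw [← EUW_sq I hp0, ← EUW_sq I hp0, mul_sum, mul_sum, ← sum_add_distrib]
    refine (sum_le_sum hpt).trans ?_
    refine sum_le_sum_of_subset_of_nonneg (filter_subset _ _) fun B _ _ => ?_
    positivity
  -- the main product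
  have hm1 : ∏ p ∈ I, ((-1) ^ 2 / (p : ℝ) + (1 + -1 * 2 / (p : ℝ)) ^ 2) ≤
      Real.exp (-3 * S + 4) := by
    have h3 : ∀ p ∈ I, (-1) ^ 2 / (p : ℝ) + (1 + -1 * 2 / (p : ℝ)) ^ 2 ≤
        Real.exp (-3 * (1 / (p : ℝ)) + 4 * (1 / (p : ℝ) ^ 2)) := by
      intro p hp
      have h4 := Real.add_one_le_exp (-3 * (1 / (p : ℝ)) + 4 * (1 / (p : ℝ) ^ 2))
      have hp0' : (p : ℝ) ≠ 0 := by
        have := hp16 p hp
        positivity
      have h5 : (-1) ^ 2 / (p : ℝ) + (1 + -1 * 2 / (p : ℝ)) ^ 2 =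
          -3 * (1 / (p : ℝ)) + 4 * (1 / (p : ℝ) ^ 2) + 1 := by
        field_simp
        ring
      rw [h5]
      exact h4
    refine (prod_le_prod (fun p _ => by positivity) h3).trans ?_
    rw [← Real.exp_sum, sum_add_distrib, ← mul_sum, ← mul_sum]
    apply Real.exp_le_exp.2
    have := EUW_invsq I hp2
    linarith
  have hm2 : ∏ p ∈ I, (Real.exp 1 ^ 2 / (p : ℝ) + (1 + Real.exp 1 * 2 / (p : ℝ)) ^ 2) ≤
      Real.exp (21 * S) := by
    have h3 : ∀ p ∈ I, Real.exp 1 ^ 2 / (p : ℝ) + (1 + Real.exp 1 * 2 / (p : ℝ)) ^ 2 ≤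
        Real.exp (21 * (1 / (p : ℝ))) := by
      intro p hp
      have h4 := Real.add_one_le_exp (21 * (1 / (p : ℝ)))
      have hp' := hp16 p hp
      refine le_trans ?_ h4
      set t := 1 / (p : ℝ) with ht
      have ht0 : 0 ≤ t := by positivity
      have ht1 : t ≤ 1 / 16 := one_div_le_one_div_of_le (by norm_num) hp'
      have e1 : Real.exp 1 ^ 2 / (p : ℝ) = Real.exp 1 ^ 2 * t := by rw [ht]; ring
      have e2 : Real.exp 1 * 2 / (p : ℝ) = Real.exp 1 * 2 * t := by rw [ht]; ring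
      rw [e1, e2]
      have hρ1 : 2.7182818283 < Real.exp 1 := Real.exp_one_gt_d9
      have hρ2 : Real.exp 1 < 2.7182818286 := Real.exp_one_lt_d9
      have h6 : Real.exp 1 ^ 2 ≤ 7.4 := by nlinarith
      have h7 : Real.exp 1 ^ 2 * t ^ 2 ≤ 7.4 / 16 * t := by nlinarith
      nlinarith
    refine (prod_le_prod (fun p _ => by positivity) h3).trans ?_
    rw [← Real.exp_sum, ← mul_sum]
  have he7 : Real.exp (7 * Real.log L2) = L2 ^ 7 := by
    have := Real.exp_nat_mul (Real.log L2) 7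
    rw [Real.exp_log hL2pos] at this
    simpa using this
  have he3 : Real.exp (3 * L2) = L1 ^ 3 := by
    have := Real.exp_nat_mul L2 3
    rw [hexpL2] at this
    simpa using this
  have hm3 : Real.exp (-3 * S + 4) ≤ Real.exp 4 * (L2 ^ 7 / L1 ^ 3) := by
    have h3 : L2 ^ 7 / L1 ^ 3 = Real.exp (7 * Real.log L2 - 3 * L2) := by
      rw [Real.exp_sub, he7, he3]
    rw [h3, ← Real.exp_add]
    apply Real.exp_le_exp.2
    linarith
  have hm4 : Real.exp (-K) ^ 2 * Real.exp (21 * S) ≤ L2 ^ 7 / L1 ^ 3 := by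
    rw [← Real.exp_nat_mul, ← Real.exp_add]
    have h3 : Real.exp (((2 : ℕ) : ℝ) * -K + 21 * S) ≤ Real.exp (-(3 * L2)) := by
      apply Real.exp_le_exp.2
      push_cast
      linarith
    have h4 : Real.exp (-(3 * L2)) = 1 / L1 ^ 3 := by
      rw [Real.exp_neg, he3, one_div]
    rw [h4] at h3
    refine h3.trans ?_
    apply div_le_div_of_nonneg_right _ (by positivity)
    exact one_le_pow₀ (by linarith)
  have hexpK : 0 ≤ Real.exp (-K) ^ 2 := by positivity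
  calc ∑ B ∈ SB I K, (mB B : ℝ) * wB I K B ^ 2
      ≤ 2 * Real.exp (-3 * S + 4) + 2 * Real.exp (-K) ^ 2 * Real.exp (21 * S) := by
        refine hsum.trans (add_le_add (mul_le_mul_of_nonneg_left hm1 (by norm_num)) ?_)
        exact mul_le_mul_of_nonneg_left hm2 (by positivity)
    _ ≤ 2 * (Real.exp 4 * (L2 ^ 7 / L1 ^ 3)) + 2 * (L2 ^ 7 / L1 ^ 3) := by
        linarith
    _ = (2 * Real.exp 4 + 2) * L2 ^ 7 / L1 ^ 3 := by ring

theorem euw : type_of% @euw_pr := @euw_pr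

end Pool.Agent.LEV
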