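import Pool.Agent.Lib_helper68.LEV.DefsC
import Pool.Agent.Lib_helper68.LEV.EUW
import Pool.Agent.Lib_helper68.LEV.PRM

/-! Block EUC (helper80): the quadratic sum of the Fourier coefficients of the sum over fractions. -/

namespace Pool.Agent.LEV

open Finset

/-! ### the zeta sum -/

theorem EUC_step {σ : ℝ} (hσ : 0 < σ) {x : ℝ} (hx : 1 ≤ x) :
    (x + 1) ^ (-1 - σ) ≤ 1 / σ * (x ^ (-σ) - (x + 1) ^ (-σ)) := by
  have hx0 : 0 < x := by linarith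
  have hx1 : 0 < x + 1 := by linarith
  have e1 : (x + 1) ^ (-1 - σ) = (x + 1) ^ (-σ) / (x + 1) := by
    rw [show -1 - σ = -σ - 1 by ring, Real.rpow_sub_one hx1.ne']
  have h1 : Real.log x - Real.log (x + 1) ≤ -(1 / (x + 1)) := by
    rw [← Real.log_div hx0.ne' hx1.ne']
    refine (Real.log_le_sub_one_of_pos (by positivity)).trans (le_of_eq ?_)
    field_simp
    ring
  have h2 : (x + 1) ^ (-σ) * (1 + σ / (x + 1)) ≤ x ^ (-σ) := by
    rw [Real.rpow_def_of_pos hx1, Real.rpow_def_of_pos hx0]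
    have h3 := Real.add_one_le_exp (σ / (x + 1))
    calc Real.exp (Real.log (x + 1) * -σ) * (1 + σ / (x + 1))
        ≤ Real.exp (Real.log (x + 1) * -σ) * Real.exp (σ / (x + 1)) :=
          mul_le_mul_of_nonneg_left (by linarith) (Real.exp_pos _).le
      _ = Real.exp (Real.log (x + 1) * -σ + σ / (x + 1)) := by rw [Real.exp_add]
      _ ≤ Real.exp (Real.log x * -σ) := by
          apply Real.exp_le_exp.2
          have h4 : σ * (Real.log x - Real.log (x + 1)) ≤ σ * -(1 / (x + 1)) :=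
            mul_le_mul_of_nonneg_left h1 hσ.le
          have h5 : σ * -(1 / (x + 1)) = -(σ / (x + 1)) := by ring
          linarith
  rw [e1]
  have h6 : (x + 1) ^ (-σ) / (x + 1) * σ ≤ x ^ (-σ) - (x + 1) ^ (-σ) := by
    have h7 : (x + 1) ^ (-σ) * (1 + σ / (x + 1)) =
        (x + 1) ^ (-σ) + (x + 1) ^ (-σ) / (x + 1) * σ := by ring
    linarith
  rw [one_div, ← div_eq_inv_mul, le_div_iff₀ hσ]
  exact h6

theorem EUC_zeta {σ : ℝ} (hσ : 0 < σ) :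
    Summable (fun n : ℕ => (n : ℝ) ^ (-1 - σ)) ∧ ∑' n : ℕ, (n : ℝ) ^ (-1 - σ) ≤ 1 + 1 / σ := by
  have hsum : Summable (fun n : ℕ => (n : ℝ) ^ (-1 - σ)) :=
    Real.summable_nat_rpow.2 (by linarith)
  refine ⟨hsum, ?_⟩
  have hpart : ∀ n : ℕ, ∑ i ∈ range (n + 2), (i : ℝ) ^ (-1 - σ) ≤
      1 + 1 / σ * (1 - ((n : ℝ) + 1) ^ (-σ)) := by
    intro n
    induction n with
    | zero =>
      rw [sum_range_succ, sum_range_one]
      have h0 : (((0 : ℕ)) : ℝ) ^ (-1 - σ) = 0 := by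
        rw [Nat.cast_zero]
        exact Real.zero_rpow (by linarith)
      rw [h0]
      simp
    | succ n ih =>
      rw [sum_range_succ]
      have h1 := EUC_step hσ (x := (n : ℝ) + 1) (by
        have : (0 : ℝ) ≤ n := Nat.cast_nonneg n
        linarith)
      have e1 : (((n + 2 : ℕ)) : ℝ) = (n : ℝ) + 1 + 1 := by push_cast; ring
      rw [e1]
      push_cast
      have e2 : 1 / σ * (1 - ((n : ℝ) + 1) ^ (-σ)) +
          1 / σ * (((n : ℝ) + 1) ^ (-σ) - ((n : ℝ) + 1 + 1) ^ (-σ)) =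
          1 / σ * (1 - ((n : ℝ) + 1 + 1) ^ (-σ)) := by ring
      linarith
  refine Real.tsum_le_of_sum_range_le (fun n => by positivity) fun n => ?_
  have h1 : ∑ i ∈ range n, (i : ℝ) ^ (-1 - σ) ≤ ∑ i ∈ range (n + 2), (i : ℝ) ^ (-1 - σ) :=
    sum_le_sum_of_subset_of_nonneg (range_subset_range.2 (by omega)) fun _ _ _ => by positivity
  refine h1.trans ((hpart n).trans ?_)
  have h2 : 0 ≤ ((n : ℝ) + 1) ^ (-σ) := by positivity
  have h3 : 1 / σ * (1 - ((n : ℝ) + 1) ^ (-σ)) ≤ 1 / σ * 1 :=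
    mul_le_mul_of_nonneg_left (by linarith) (by positivity)
  linarith

/-! ### multiplicative functions of `gcd(n, ∏ I)` -/

theorem EUC_dvd (B : Finset ℕ) (hB : ∀ p ∈ B, p.Prime) (n : ℕ) :
    mB B ∣ n ↔ ∀ p ∈ B, p ∣ n := by
  constructor
  · intro h p hp
    exact (dvd_prod_of_mem (fun p => p) hp).trans h
  · intro h
    exact prod_primes_dvd n (fun p hp => (hB p hp).prime) h

theorem EUC_expand (I : Finset ℕ) (hI : ∀ p ∈ I, p.Prime) (u v : ℕ → ℝ) (n : ℕ) :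
    ∏ p ∈ I, (if p ∣ n then v p else u p) =
      ∑ B ∈ I.powerset, (∏ p ∈ B, (v p - u p)) * (∏ p ∈ I \ B, u p) *
        (if mB B ∣ n then 1 else 0) := by
  have h1 : ∀ p ∈ I, (if p ∣ n then v p else u p) =
      (v p - u p) * (if p ∣ n then 1 else 0) + u p := by
    intro p _
    split_ifs <;> ring
  rw [prod_congr rfl h1, prod_add]
  refine sum_congr rfl fun B hB => ?_
  rw [mem_powerset] at hB
  rw [prod_mul_distrib]
  have h2 : ∏ p ∈ B, (if p ∣ n then (1 : ℝ) else 0) = if mB B ∣ n then 1 else 0 := by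
    split_ifs with h
    · rw [EUC_dvd B (fun p hp => hI p (hB hp))] at h
      exact prod_eq_one fun p hp => if_pos (h p hp)
    · rw [EUC_dvd B (fun p hp => hI p (hB hp))] at h
      push Not at h
      obtain ⟨p, hp, hpn⟩ := h
      exact prod_eq_zero hp (if_neg hpn)
  rw [h2]
  ring

theorem EUC_dvd_sum {σ : ℝ} (hσ : 0 < σ) {m : ℕ} (hm : 0 < m) :
    HasSum (fun n : ℕ => (if m ∣ n then (1 : ℝ) else 0) * (n : ℝ) ^ (-1 - σ))
      ((m : ℝ) ^ (-1 - σ) * ∑' n : ℕ, (n : ℝ) ^ (-1 - σ)) := by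
  have hinj : Function.Injective (fun n : ℕ => m * n) :=
    fun a b h => Nat.eq_of_mul_eq_mul_left hm h
  have h1 := (EUC_zeta hσ).1.hasSum.mul_left ((m : ℝ) ^ (-1 - σ))
  rw [← hinj.hasSum_iff]
  · have e : ((fun n : ℕ => (if m ∣ n then (1 : ℝ) else 0) * (n : ℝ) ^ (-1 - σ)) ∘
        fun n : ℕ => m * n) = fun n : ℕ => (m : ℝ) ^ (-1 - σ) * (n : ℝ) ^ (-1 - σ) := by
      funext n
      simp only [Function.comp_apply]
      rw [if_pos (Dvd.intro n rfl), one_mul]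
      push_cast
      rw [Real.mul_rpow (by positivity) (by positivity)]
    rw [e]
    exact h1
  · intro n hn
    rw [if_neg, zero_mul]
    rintro ⟨c, hc⟩
    exact hn ⟨c, hc.symm⟩

theorem EUC_mult {σ : ℝ} (hσ : 0 < σ) (I : Finset ℕ) (hI : ∀ p ∈ I, p.Prime) (u v : ℕ → ℝ) :
    HasSum (fun n : ℕ => (∏ p ∈ I, (if p ∣ n then v p else u p)) * (n : ℝ) ^ (-1 - σ))
      ((∑' n : ℕ, (n : ℝ) ^ (-1 - σ)) *
        ∏ p ∈ I, ((v p - u p) * (p : ℝ) ^ (-1 - σ) + u p)) := by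
  have h1 : ∀ B ∈ I.powerset, HasSum
      (fun n : ℕ => ((∏ p ∈ B, (v p - u p)) * (∏ p ∈ I \ B, u p)) *
        ((if mB B ∣ n then (1 : ℝ) else 0) * (n : ℝ) ^ (-1 - σ)))
      (((∏ p ∈ B, (v p - u p)) * (∏ p ∈ I \ B, u p)) *
        ((mB B : ℝ) ^ (-1 - σ) * ∑' n : ℕ, (n : ℝ) ^ (-1 - σ))) := by
    intro B hB
    rw [mem_powerset] at hB
    exact (EUC_dvd_sum hσ (prod_pos fun p hp => (hI p (hB hp)).pos)).mul_left _
  have h2 := hasSum_sum h1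
  have e1 : (fun n : ℕ => (∏ p ∈ I, (if p ∣ n then v p else u p)) * (n : ℝ) ^ (-1 - σ)) =
      fun n : ℕ => ∑ B ∈ I.powerset, ((∏ p ∈ B, (v p - u p)) * (∏ p ∈ I \ B, u p)) *
        ((if mB B ∣ n then (1 : ℝ) else 0) * (n : ℝ) ^ (-1 - σ)) := by
    funext n
    rw [EUC_expand I hI u v n, sum_mul]
    exact sum_congr rfl fun B _ => by ring
  have e2 : (∑' n : ℕ, (n : ℝ) ^ (-1 - σ)) * ∏ p ∈ I, ((v p - u p) * (p : ℝ) ^ (-1 - σ) + u p) =
      ∑ B ∈ I.powerset, ((∏ p ∈ B, (v p - u p)) * (∏ p ∈ I \ B, u p)) *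
        ((mB B : ℝ) ^ (-1 - σ) * ∑' n : ℕ, (n : ℝ) ^ (-1 - σ)) := by
    rw [prod_add, mul_sum]
    refine sum_congr rfl fun B _ => ?_
    rw [prod_mul_distrib, EUW_mB, Real.finsetProd_rpow _ _ fun _ _ => by positivity]
    ring
  rw [e1, e2]
  exact h2

/-! ### the coefficients -/

theorem EUC_term (A : Finset ℕ) (hA : ∀ p ∈ A, p.Prime) (n : ℕ) :
    (-1) ^ A.card / (mB A : ℝ) * ∑ B ∈ A.powerset.filter (fun B => mB B ∣ n), (mB B : ℝ) =
      ∏ p ∈ A, -(if p ∣ n then 1 + 1 / (p : ℝ) else 1 / (p : ℝ)) := by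
  have h1 : ∑ B ∈ A.powerset.filter (fun B => mB B ∣ n), (mB B : ℝ) =
      ∏ p ∈ A, (1 + if p ∣ n then (p : ℝ) else 0) := by
    rw [prod_one_add, sum_filter]
    refine sum_congr rfl fun B hB => ?_
    rw [mem_powerset] at hB
    split_ifs with h
    · rw [EUC_dvd B (fun p hp => hA p (hB hp))] at h
      rw [EUW_mB]
      exact prod_congr rfl fun p hp => (if_pos (h p hp)).symm
    · rw [EUC_dvd B (fun p hp => hA p (hB hp))] at h
      push Not at h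
      obtain ⟨p, hp, hpn⟩ := h
      exact (prod_eq_zero hp (if_neg hpn)).symm
  rw [h1, EUW_mB, ← prod_const, ← prod_div_distrib, ← prod_mul_distrib]
  refine prod_congr rfl fun p hp => ?_
  have hp0 : (p : ℝ) ≠ 0 := by
    have := (hA p hp).ne_zero
    exact_mod_cast this
  split_ifs
  · field_simp
    ring
  · field_simp
    ring

theorem EUC_trunc (I : Finset ℕ) (x : ℕ → ℝ) (hx : ∀ p ∈ I, 0 ≤ x p) (K : ℕ) :
    |∑ A ∈ SB I K, ∏ p ∈ A, -x p - ∏ p ∈ I, (1 + -x p)| ≤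
      Real.exp (-K) * ∏ p ∈ I, (1 + Real.exp 1 * x p) := by
  rw [prod_one_add, prod_one_add, SB,
    ← sum_filter_add_sum_filter_not I.powerset (fun A => A.card ≤ K) (fun A => ∏ p ∈ A, -x p)]
  have e1 : ∀ u v : ℝ, u - (u + v) = -v := fun u v => by ring
  rw [e1, abs_neg, mul_sum]
  refine (abs_sum_le_sum_abs _ _).trans ?_
  have hnn : ∀ A ∈ I.powerset, 0 ≤ ∏ p ∈ A, x p := fun A hA =>
    prod_nonneg fun p hp => hx p (mem_powerset.1 hA hp)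
  calc ∑ A ∈ I.powerset.filter (fun A => ¬ A.card ≤ K), |∏ p ∈ A, -x p|
      ≤ ∑ A ∈ I.powerset.filter (fun A => ¬ A.card ≤ K),
        Real.exp (-K) * ∏ p ∈ A, (Real.exp 1 * x p) := by
        refine sum_le_sum fun A hA => ?_
        rw [mem_filter] at hA
        have h0 := hnn A hA.1
        have h2 : |∏ p ∈ A, -x p| = 1 * ∏ p ∈ A, x p := by
          rw [prod_neg, abs_mul, abs_pow, abs_neg, abs_one, one_pow, abs_of_nonneg h0]
        have h3 : Real.exp (-K) * ∏ p ∈ A, (Real.exp 1 * x p) =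
            Real.exp (A.card - K) * ∏ p ∈ A, x p := by
          rw [prod_mul_distrib, prod_const, sub_eq_add_neg, Real.exp_add, ← Real.exp_nat_mul,
            mul_one]
          ring
        rw [h2, h3]
        refine mul_le_mul_of_nonneg_right ?_ h0
        apply Real.one_le_exp
        have : K ≤ A.card := by omega
        have : (K : ℝ) ≤ A.card := by exact_mod_cast this
        linarith
    _ ≤ ∑ A ∈ I.powerset, Real.exp (-K) * ∏ p ∈ A, (Real.exp 1 * x p) := by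
        refine sum_le_sum_of_subset_of_nonneg (filter_subset _ _) fun A hA _ => ?_
        rw [prod_mul_distrib]
        have := hnn A hA
        positivity

theorem EUC_sq (I : Finset ℕ) (hI : ∀ p ∈ I, p.Prime) (K n : ℕ) :
    cB I K n ^ 2 ≤
      2 * ∏ p ∈ I, (if p ∣ n then (1 / (p : ℝ)) ^ 2 else (1 - 1 / (p : ℝ)) ^ 2) +
      2 * Real.exp (-K) ^ 2 * ∏ p ∈ I, (if p ∣ n then (1 + Real.exp 1 * (1 + 1 / (p : ℝ))) ^ 2
        else (1 + Real.exp 1 * (1 / (p : ℝ))) ^ 2) := by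
  have h1 : cB I K n =
      ∑ A ∈ SB I K, ∏ p ∈ A, -(if p ∣ n then 1 + 1 / (p : ℝ) else 1 / (p : ℝ)) := by
    unfold cB
    refine sum_congr rfl fun A hA => ?_
    exact EUC_term A (fun p hp => hI p (mem_powerset.1 (mem_filter.1 hA).1 hp)) n
  have h2 := EUC_trunc I (fun p => if p ∣ n then 1 + 1 / (p : ℝ) else 1 / (p : ℝ))
    (fun p _ => by split_ifs <;> positivity) K
  rw [← h1] at h2
  set u := ∏ p ∈ I, (1 + -(if p ∣ n then 1 + 1 / (p : ℝ) else 1 / (p : ℝ))) with hu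
  set v := ∏ p ∈ I, (1 + Real.exp 1 * (if p ∣ n then 1 + 1 / (p : ℝ) else 1 / (p : ℝ))) with hv
  have hu2 : u ^ 2 = ∏ p ∈ I, (if p ∣ n then (1 / (p : ℝ)) ^ 2 else (1 - 1 / (p : ℝ)) ^ 2) := by
    rw [hu, ← prod_pow]
    refine prod_congr rfl fun p _ => ?_
    split_ifs <;> ring
  have hv2 : v ^ 2 = ∏ p ∈ I, (if p ∣ n then (1 + Real.exp 1 * (1 + 1 / (p : ℝ))) ^ 2
        else (1 + Real.exp 1 * (1 / (p : ℝ))) ^ 2) := by
    rw [hv, ← prod_pow]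
    refine prod_congr rfl fun p _ => ?_
    split_ifs <;> ring
  have h4 : (cB I K n - u) ^ 2 ≤ (Real.exp (-K) * v) ^ 2 := by
    rw [← sq_abs]
    exact pow_le_pow_left₀ (abs_nonneg _) h2 2
  rw [← hu2, ← hv2]
  have h5 : cB I K n ^ 2 ≤ 2 * u ^ 2 + 2 * (Real.exp (-K) * v) ^ 2 := by
    nlinarith [sq_nonneg (cB I K n - 2 * u)]
  calc cB I K n ^ 2 ≤ 2 * u ^ 2 + 2 * (Real.exp (-K) * v) ^ 2 := h5
    _ = _ := by ring

/-! ### the smooth cut-off -/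

theorem EUC_cut {X σ : ℝ} (hX : 0 < X) (hσ : 0 < σ) (hσ1 : σ ≤ 1) (hXσ : Real.log X = 1 / σ)
    {n : ℕ} (hn : 0 < n) : 1 / (n : ℝ) * Real.exp (-n / X) ≤ Real.exp 1 * (n : ℝ) ^ (-1 - σ) := by
  have hn0 : (0 : ℝ) < n := by exact_mod_cast hn
  have e1 : (n : ℝ) ^ (-1 - σ) = 1 / (n : ℝ) * (n : ℝ) ^ (-σ) := by
    rw [show -1 - σ = -σ - 1 by ring, Real.rpow_sub_one hn0.ne']
    ring
  rw [e1]
  have h1 : Real.exp (-n / X) ≤ Real.exp 1 * (n : ℝ) ^ (-σ) := by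
    rw [Real.rpow_def_of_pos hn0, ← Real.exp_add]
    apply Real.exp_le_exp.2
    set t := (n : ℝ) / X with ht
    have ht0 : 0 < t := by positivity
    have h2 : Real.log n = Real.log t + Real.log X := by
      rw [← Real.log_mul ht0.ne' hX.ne', ht]
      congr 1
      field_simp
    have h3 : σ * Real.log t ≤ t := by
      rcases le_or_gt (Real.log t) 0 with h | h
      · have : σ * Real.log t ≤ 0 := mul_nonpos_of_nonneg_of_nonpos hσ.le h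
        linarith
      · have h4 : σ * Real.log t ≤ 1 * Real.log t := mul_le_mul_of_nonneg_right hσ1 h.le
        have h5 := Real.log_le_sub_one_of_pos ht0
        linarith
    have h6 : σ * Real.log X = 1 := by
      rw [hXσ]
      field_simp
    have h7 : -(n : ℝ) / X = -t := by rw [ht]; ring
    rw [h7, h2]
    nlinarith
  have h8 : 0 ≤ 1 / (n : ℝ) := by positivity
  calc 1 / (n : ℝ) * Real.exp (-n / X) ≤ 1 / (n : ℝ) * (Real.exp 1 * (n : ℝ) ^ (-σ)) :=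
        mul_le_mul_of_nonneg_left h1 h8
    _ = _ := by ring

/-- the bound before the estimation of the products -/
theorem EUC_bound (I : Finset ℕ) (hI : ∀ p ∈ I, p.Prime) (K : ℕ) {X σ : ℝ} (hX : 0 < X)
    (hσ : 0 < σ) (hσ1 : σ ≤ 1) (hXσ : Real.log X = 1 / σ) :
    Summable (fun n : ℕ => cB I K n ^ 2 / n * Real.exp (-n / X)) ∧
    ∑' n : ℕ, cB I K n ^ 2 / n * Real.exp (-n / X) ≤
      Real.exp 1 * (2 * ((1 + 1 / σ) *
        ∏ p ∈ I, (((1 / (p : ℝ)) ^ 2 - (1 - 1 / (p : ℝ)) ^ 2) * (p : ℝ) ^ (-1 - σ) +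
          (1 - 1 / (p : ℝ)) ^ 2)) +
        2 * Real.exp (-K) ^ 2 * ((1 + 1 / σ) *
        ∏ p ∈ I, (((1 + Real.exp 1 * (1 + 1 / (p : ℝ))) ^ 2 -
          (1 + Real.exp 1 * (1 / (p : ℝ))) ^ 2) * (p : ℝ) ^ (-1 - σ) +
          (1 + Real.exp 1 * (1 / (p : ℝ))) ^ 2))) := by
  obtain ⟨-, hz⟩ := EUC_zeta hσ
  have hs1 := EUC_mult hσ I hI (fun p => (1 - 1 / (p : ℝ)) ^ 2) (fun p => (1 / (p : ℝ)) ^ 2)
  have hs2 := EUC_mult hσ I hI (fun p => (1 + Real.exp 1 * (1 / (p : ℝ))) ^ 2)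
    (fun p => (1 + Real.exp 1 * (1 + 1 / (p : ℝ))) ^ 2)
  have hs := ((hs1.mul_left 2).add (hs2.mul_left (2 * Real.exp (-K) ^ 2))).mul_left (Real.exp 1)
  have hle : ∀ n : ℕ, cB I K n ^ 2 / n * Real.exp (-n / X) ≤ Real.exp 1 *
      (2 * ((∏ p ∈ I, (if p ∣ n then (1 / (p : ℝ)) ^ 2 else (1 - 1 / (p : ℝ)) ^ 2)) *
          (n : ℝ) ^ (-1 - σ)) +
        2 * Real.exp (-K) ^ 2 * ((∏ p ∈ I, (if p ∣ n then (1 + Real.exp 1 * (1 + 1 / (p : ℝ))) ^ 2
        else (1 + Real.exp 1 * (1 / (p : ℝ))) ^ 2)) * (n : ℝ) ^ (-1 - σ))) := by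
    intro n
    rcases Nat.eq_zero_or_pos n with rfl | hn
    · have h0 : (((0 : ℕ)) : ℝ) ^ (-1 - σ) = 0 := by
        rw [Nat.cast_zero]
        exact Real.zero_rpow (by linarith)
      rw [h0]
      simp
    · have h1 := EUC_cut hX hσ hσ1 hXσ hn
      have h2 := EUC_sq I hI K n
      have h3 : 0 ≤ cB I K n ^ 2 := sq_nonneg _
      have h4 : 0 ≤ Real.exp 1 * (n : ℝ) ^ (-1 - σ) := by positivity
      calc cB I K n ^ 2 / n * Real.exp (-n / X) =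
            cB I K n ^ 2 * (1 / (n : ℝ) * Real.exp (-n / X)) := by ring
        _ ≤ cB I K n ^ 2 * (Real.exp 1 * (n : ℝ) ^ (-1 - σ)) := mul_le_mul_of_nonneg_left h1 h3
        _ ≤ _ * (Real.exp 1 * (n : ℝ) ^ (-1 - σ)) := mul_le_mul_of_nonneg_right h2 h4
        _ = _ := by ring
  have hnn : ∀ n : ℕ, 0 ≤ cB I K n ^ 2 / n * Real.exp (-n / X) := fun n => by positivity
  have hsm : Summable (fun n : ℕ => cB I K n ^ 2 / n * Real.exp (-n / X)) :=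
    Summable.of_nonneg_of_le hnn hle hs.summable
  refine ⟨hsm, ?_⟩
  refine (hsm.tsum_le_tsum hle hs.summable).trans ?_
  rw [hs.tsum_eq]
  have hp1 : ∀ p ∈ I, (p : ℝ) ^ (-1 - σ) ≤ 1 := by
    intro p hp
    apply Real.rpow_le_one_of_one_le_of_nonpos _ (by linarith)
    exact_mod_cast (hI p hp).one_le
  have hP1 : 0 ≤ ∏ p ∈ I, (((1 / (p : ℝ)) ^ 2 - (1 - 1 / (p : ℝ)) ^ 2) * (p : ℝ) ^ (-1 - σ) +
      (1 - 1 / (p : ℝ)) ^ 2) := by
    refine prod_nonneg fun p hp => ?_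
    have h5 := hp1 p hp
    have h6 : 0 ≤ (p : ℝ) ^ (-1 - σ) := by positivity
    have h7 : ((1 / (p : ℝ)) ^ 2 - (1 - 1 / (p : ℝ)) ^ 2) * (p : ℝ) ^ (-1 - σ) +
      (1 - 1 / (p : ℝ)) ^ 2 = (1 / (p : ℝ)) ^ 2 * (p : ℝ) ^ (-1 - σ) +
      (1 - 1 / (p : ℝ)) ^ 2 * (1 - (p : ℝ) ^ (-1 - σ)) := by ring
    rw [h7]
    have h8 : 0 ≤ 1 - (p : ℝ) ^ (-1 - σ) := by linarith
    positivity
  have hP2 : 0 ≤ ∏ p ∈ I, (((1 + Real.exp 1 * (1 + 1 / (p : ℝ))) ^ 2 -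
          (1 + Real.exp 1 * (1 / (p : ℝ))) ^ 2) * (p : ℝ) ^ (-1 - σ) +
          (1 + Real.exp 1 * (1 / (p : ℝ))) ^ 2) := by
    refine prod_nonneg fun p hp => ?_
    have h5 := hp1 p hp
    have h6 : 0 ≤ (p : ℝ) ^ (-1 - σ) := by positivity
    have h7 : ((1 + Real.exp 1 * (1 + 1 / (p : ℝ))) ^ 2 -
          (1 + Real.exp 1 * (1 / (p : ℝ))) ^ 2) * (p : ℝ) ^ (-1 - σ) +
          (1 + Real.exp 1 * (1 / (p : ℝ))) ^ 2 =
      (1 + Real.exp 1 * (1 + 1 / (p : ℝ))) ^ 2 * (p : ℝ) ^ (-1 - σ) +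
      (1 + Real.exp 1 * (1 / (p : ℝ))) ^ 2 * (1 - (p : ℝ) ^ (-1 - σ)) := by ring
    rw [h7]
    have h8 : 0 ≤ 1 - (p : ℝ) ^ (-1 - σ) := by linarith
    positivity
  refine mul_le_mul_of_nonneg_left (add_le_add ?_ ?_) (Real.exp_pos 1).le
  · exact mul_le_mul_of_nonneg_left (mul_le_mul_of_nonneg_right hz hP1) (by norm_num)
  · exact mul_le_mul_of_nonneg_left (mul_le_mul_of_nonneg_right hz hP2) (by positivity)

theorem EUC_pt1 {t q : ℝ} (ht0 : 0 ≤ t) (ht1 : t ≤ 1 / 16) (hq0 : 0 ≤ q) (hq1 : q ≤ t) :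
    (t ^ 2 - (1 - t) ^ 2) * q + (1 - t) ^ 2 ≤ Real.exp (-2 * t + -1 * q + 2 * t ^ 2) := by
  have h6 : (1 - t) ^ 2 ≤ Real.exp (-2 * t) := by
    have h7 := Real.add_one_le_exp (-t)
    have h8 : Real.exp (-2 * t) = Real.exp (-t) ^ 2 := by
      rw [← Real.exp_nat_mul]
      congr 1
      push_cast
      ring
    rw [h8]
    exact pow_le_pow_left₀ (by linarith) (by linarith) 2
  have h9 : 1 - q ≤ Real.exp (-1 * q) := by
    have := Real.add_one_le_exp (-1 * q)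
    linarith
  have h10 : (1 - t) ^ 2 * (1 - q) ≤ Real.exp (-2 * t) * Real.exp (-1 * q) :=
    mul_le_mul h6 h9 (by linarith) (Real.exp_pos _).le
  have h11 : t ^ 2 * q ≤ 2 * t ^ 2 * (Real.exp (-2 * t) * Real.exp (-1 * q)) := by
    have h12 : 1 / 2 ≤ Real.exp (-2 * t) * Real.exp (-1 * q) := by
      rw [← Real.exp_add]
      have := Real.add_one_le_exp (-2 * t + -1 * q)
      linarith
    have h13 : 0 ≤ t ^ 2 := sq_nonneg t
    nlinarith
  have h14 : (t ^ 2 - (1 - t) ^ 2) * q + (1 - t) ^ 2 = t ^ 2 * q + (1 - t) ^ 2 * (1 - q) := by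
    ring
  have h15 : Real.exp (-2 * t + -1 * q + 2 * t ^ 2) =
      Real.exp (-2 * t) * Real.exp (-1 * q) * Real.exp (2 * t ^ 2) := by
    rw [Real.exp_add, Real.exp_add]
  have h16 := Real.add_one_le_exp (2 * t ^ 2)
  rw [h14, h15]
  have h17 : 0 < Real.exp (-2 * t) * Real.exp (-1 * q) := by positivity
  nlinarith

theorem EUC_pt2 {e t q : ℝ} (hρ1 : 2.7 < e) (hρ2 : e < 2.72) (ht0 : 0 ≤ t) (ht1 : t ≤ 1 / 16)
    (hq0 : 0 ≤ q) (hq1 : q ≤ t) :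
    ((1 + e * (1 + t)) ^ 2 - (1 + e * t) ^ 2) * q + (1 + e * t) ^ 2 ≤ Real.exp (22 * t) := by
  have h6 := Real.add_one_le_exp (22 * t)
  refine le_trans ?_ h6
  have h7 : (1 + e * (1 + t)) ^ 2 ≤ 16 := by
    have h8 : 1 + e * (1 + t) ≤ 4 := by nlinarith
    have h9 : 0 ≤ 1 + e * (1 + t) := by positivity
    nlinarith
  have h8 : (1 + e * t) ^ 2 ≤ 1 + 6 * t := by
    have h9 : e ^ 2 ≤ 7.4 := by nlinarith
    have h10 : e ^ 2 * t ^ 2 ≤ 7.4 / 16 * t := by nlinarith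
    nlinarith
  have h9 : ((1 + e * (1 + t)) ^ 2 - (1 + e * t) ^ 2) * q ≤ 16 * t := by
    have h10 : ((1 + e * (1 + t)) ^ 2 - (1 + e * t) ^ 2) * q ≤ (1 + e * (1 + t)) ^ 2 * q := by
      have : 0 ≤ (1 + e * t) ^ 2 * q := by positivity
      linarith
    have h11 : (1 + e * (1 + t)) ^ 2 * q ≤ 16 * q := mul_le_mul_of_nonneg_right h7 hq0
    linarith
  linarith

set_option maxHeartbeats 1000000 in
/-- block EUC -/
theorem euc_pr : ∃ (C : ℝ) (N₀ : ℕ), ∀ N : ℕ, N₀ ≤ N →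
    Summable (fun n : ℕ => cB (IN N) (KN N) n ^ 2 / n * Real.exp (-n / (DN N : ℝ) ^ 2)) ∧
    ∑' n : ℕ, cB (IN N) (KN N) n ^ 2 / n * Real.exp (-n / (DN N : ℝ) ^ 2) ≤
      C * Real.log (Real.log N) ^ 7 / Real.log N ^ 2 := by
  obtain ⟨N₁, h1⟩ := params
  obtain ⟨N₂, h2⟩ := in_sum
  obtain ⟨C0, N₃, h3⟩ := in_sigma
  refine ⟨406 * Real.exp 1 * (Real.exp (C0 + 2) + 1), max N₁ (max N₂ N₃), fun N hN => ?_⟩
  obtain ⟨hL2, hD1, -, hzD, hlogD, -, -, hIp⟩ := h1 N ((le_max_left _ _).trans hN)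
  obtain ⟨hS1, hS2⟩ := h2 N ((le_max_left _ _).trans ((le_max_right _ _).trans hN))
  have h3' := h3 N ((le_max_right _ _).trans ((le_max_right _ _).trans hN))
  set L2 := Real.log (Real.log N) with hL2def
  set L1 := Real.log N with hL1def
  set I := IN N with hI
  set K := KN N with hK
  set S := ∑ p ∈ I, 1 / (p : ℝ) with hS
  set D := DN N with hD
  have hL1pos : 0 < L1 := by
    by_contra hcon
    have h3 : L2 = Real.log L1 := rfl
    have h4 : 0 ≤ L1 := by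
      rw [hL1def]
      exact Real.log_natCast_nonneg N
    have h5 : L1 = 0 := le_antisymm (not_lt.1 hcon) h4
    rw [h5, Real.log_zero] at h3
    linarith
  have hexpL2 : Real.exp L2 = L1 := Real.exp_log hL1pos
  have hL2pos : 0 < L2 := by linarith
  have hK1 : 100 * L2 ≤ K := Nat.le_ceil _
  have hp16 : ∀ p ∈ I, (16 : ℝ) ≤ p := by
    intro p hp
    have := (mem_filter.1 hp).2.2
    linarith
  have hp2 : ∀ p ∈ I, 2 ≤ p := fun p hp => (hIp p hp).1.two_le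
  have hL1L2 : L2 ^ 2 / 2 ≤ L1 := by
    have := Real.quadratic_le_exp_of_nonneg hL2pos.le
    rw [hexpL2] at this
    linarith
  -- the exponent
  have hDpos : (0 : ℝ) < D := by exact_mod_cast hD1
  have hlogD1 : L1 / L2 ^ 2 ≤ Real.log D := by
    have h5 : zN N = Real.exp (L1 / L2 ^ 2) := rfl
    rw [h5] at hzD
    exact (Real.le_log_iff_exp_le hDpos).2 hzD
  have hlogD2 : 1 / 2 ≤ Real.log D := by
    refine le_trans ?_ hlogD1
    rw [le_div_iff₀ (by positivity)]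
    linarith
  set σ := 1 / (2 * Real.log D) with hσdef
  have hlogDpos : 0 < Real.log D := by linarith
  have hσ : 0 < σ := by positivity
  have hσ1 : σ ≤ 1 := by
    rw [hσdef, div_le_one (by positivity)]
    linarith
  have hXσ : Real.log ((D : ℝ) ^ 2) = 1 / σ := by
    rw [Real.log_pow, hσdef]
    push_cast
    field_simp
  have hσL : σ * (L1 / L2 ^ 2) ≤ 1 := by
    have h5 : σ * (L1 / L2 ^ 2) ≤ σ * Real.log D := mul_le_mul_of_nonneg_left hlogD1 hσ.le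
    have h6 : σ * Real.log D = 1 / 2 := by
      rw [hσdef]
      field_simp
    linarith
  have hsig := h3' σ hσ.le hσL
  obtain ⟨hsm, hb⟩ := EUC_bound I (fun p hp => (hIp p hp).1) K (X := (D : ℝ) ^ 2)
    (by positivity) hσ hσ1 hXσ
  refine ⟨hsm, hb.trans ?_⟩
  -- the zeta factor
  have hz : 1 + 1 / σ ≤ 203 * (L1 / L2) := by
    have h5 : 1 / σ = 2 * Real.log D := by
      rw [hσdef]
      field_simp
    have h6 : 1 ≤ L1 / L2 := by
      rw [le_div_iff₀ hL2pos]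
      nlinarith
    have h7 : 101 * L1 / L2 = 101 * (L1 / L2) := by ring
    rw [h5]
    rw [h7] at hlogD
    linarith
  have hz0 : 0 ≤ 1 + 1 / σ := by positivity
  -- the products
  have hq : ∀ p ∈ I, 0 ≤ (p : ℝ) ^ (-1 - σ) ∧ (p : ℝ) ^ (-1 - σ) ≤ 1 / (p : ℝ) := by
    intro p hp
    have hp1 : (1 : ℝ) ≤ p := by linarith [hp16 p hp]
    refine ⟨by positivity, ?_⟩
    rw [one_div, ← Real.rpow_neg_one]
    exact Real.rpow_le_rpow_of_exponent_le hp1 (by linarith)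
  have hm1 : ∏ p ∈ I, (((1 / (p : ℝ)) ^ 2 - (1 - 1 / (p : ℝ)) ^ 2) * (p : ℝ) ^ (-1 - σ) +
          (1 - 1 / (p : ℝ)) ^ 2) ≤ Real.exp (-3 * S + (C0 + 2)) := by
    have h5 : ∀ p ∈ I, ((1 / (p : ℝ)) ^ 2 - (1 - 1 / (p : ℝ)) ^ 2) * (p : ℝ) ^ (-1 - σ) +
          (1 - 1 / (p : ℝ)) ^ 2 ≤
        Real.exp (-2 * (1 / (p : ℝ)) + -1 * (p : ℝ) ^ (-1 - σ) + 2 * (1 / (p : ℝ) ^ 2)) := by
      intro p hp
      obtain ⟨hq0, hq1⟩ := hq p hp
      have hp' := hp16 p hp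
      have ht1 : 1 / (p : ℝ) ≤ 1 / 16 := one_div_le_one_div_of_le (by norm_num) hp'
      have ht2 : 1 / (p : ℝ) ^ 2 = (1 / (p : ℝ)) ^ 2 := by ring
      rw [ht2]
      exact EUC_pt1 (by positivity) ht1 hq0 hq1
    have h6 : ∀ p ∈ I, 0 ≤ ((1 / (p : ℝ)) ^ 2 - (1 - 1 / (p : ℝ)) ^ 2) * (p : ℝ) ^ (-1 - σ) +
          (1 - 1 / (p : ℝ)) ^ 2 := by
      intro p hp
      obtain ⟨hq0, hq1⟩ := hq p hp
      have hp' := hp16 p hp
      have ht1 : 1 / (p : ℝ) ≤ 1 / 16 := one_div_le_one_div_of_le (by norm_num) hp'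
      have h7 : ((1 / (p : ℝ)) ^ 2 - (1 - 1 / (p : ℝ)) ^ 2) * (p : ℝ) ^ (-1 - σ) +
        (1 - 1 / (p : ℝ)) ^ 2 = (1 / (p : ℝ)) ^ 2 * (p : ℝ) ^ (-1 - σ) +
        (1 - 1 / (p : ℝ)) ^ 2 * (1 - (p : ℝ) ^ (-1 - σ)) := by ring
      rw [h7]
      have h8 : 0 ≤ 1 - (p : ℝ) ^ (-1 - σ) := by linarith
      positivity
    refine (prod_le_prod h6 h5).trans ?_
    rw [← Real.exp_sum, sum_add_distrib, sum_add_distrib, ← mul_sum, ← mul_sum, ← mul_sum]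
    apply Real.exp_le_exp.2
    have := EUW_invsq I hp2
    linarith
  have hm2 : ∏ p ∈ I, (((1 + Real.exp 1 * (1 + 1 / (p : ℝ))) ^ 2 -
          (1 + Real.exp 1 * (1 / (p : ℝ))) ^ 2) * (p : ℝ) ^ (-1 - σ) +
          (1 + Real.exp 1 * (1 / (p : ℝ))) ^ 2) ≤ Real.exp (22 * S) := by
    have hρ1 : 2.7182818283 < Real.exp 1 := Real.exp_one_gt_d9
    have hρ2 : Real.exp 1 < 2.7182818286 := Real.exp_one_lt_d9
    have h5 : ∀ p ∈ I, ((1 + Real.exp 1 * (1 + 1 / (p : ℝ))) ^ 2 -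
          (1 + Real.exp 1 * (1 / (p : ℝ))) ^ 2) * (p : ℝ) ^ (-1 - σ) +
          (1 + Real.exp 1 * (1 / (p : ℝ))) ^ 2 ≤ Real.exp (22 * (1 / (p : ℝ))) := by
      intro p hp
      obtain ⟨hq0, hq1⟩ := hq p hp
      have hp' := hp16 p hp
      have ht1 : 1 / (p : ℝ) ≤ 1 / 16 := one_div_le_one_div_of_le (by norm_num) hp'
      exact EUC_pt2 (by linarith) (by linarith) (by positivity) ht1 hq0 hq1
    have h6 : ∀ p ∈ I, 0 ≤ ((1 + Real.exp 1 * (1 + 1 / (p : ℝ))) ^ 2 -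
          (1 + Real.exp 1 * (1 / (p : ℝ))) ^ 2) * (p : ℝ) ^ (-1 - σ) +
          (1 + Real.exp 1 * (1 / (p : ℝ))) ^ 2 := by
      intro p hp
      obtain ⟨hq0, hq1⟩ := hq p hp
      have ht0 : 0 ≤ 1 / (p : ℝ) := by positivity
      have h7 : (1 + Real.exp 1 * (1 / (p : ℝ))) ^ 2 ≤
          (1 + Real.exp 1 * (1 + 1 / (p : ℝ))) ^ 2 := by
        apply pow_le_pow_left₀ (by positivity)
        nlinarith
      have h8 : 0 ≤ (1 + Real.exp 1 * (1 + 1 / (p : ℝ))) ^ 2 -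
          (1 + Real.exp 1 * (1 / (p : ℝ))) ^ 2 := by linarith
      positivity
    refine (prod_le_prod h6 h5).trans ?_
    rw [← Real.exp_sum, ← mul_sum]
  have he7 : Real.exp (7 * Real.log L2) = L2 ^ 7 := by
    have := Real.exp_nat_mul (Real.log L2) 7
    rw [Real.exp_log hL2pos] at this
    simpa using this
  have he3 : Real.exp (3 * L2) = L1 ^ 3 := by
    have := Real.exp_nat_mul L2 3
    rw [hexpL2] at this
    simpa using this
  have hm3 : Real.exp (-3 * S + (C0 + 2)) ≤ Real.exp (C0 + 2) * (L2 ^ 7 / L1 ^ 3) := by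
    have h3 : L2 ^ 7 / L1 ^ 3 = Real.exp (7 * Real.log L2 - 3 * L2) := by
      rw [Real.exp_sub, he7, he3]
    rw [h3, ← Real.exp_add]
    apply Real.exp_le_exp.2
    linarith
  have hm4 : Real.exp (-K) ^ 2 * Real.exp (22 * S) ≤ L2 ^ 7 / L1 ^ 3 := by
    rw [← Real.exp_nat_mul, ← Real.exp_add]
    have h3 : Real.exp (((2 : ℕ) : ℝ) * -K + 22 * S) ≤ Real.exp (-(3 * L2)) := by
      apply Real.exp_le_exp.2
      push_cast
      linarith
    have h4 : Real.exp (-(3 * L2)) = 1 / L1 ^ 3 := by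
      rw [Real.exp_neg, he3, one_div]
    rw [h4] at h3
    refine h3.trans ?_
    apply div_le_div_of_nonneg_right _ (by positivity)
    exact one_le_pow₀ (by linarith)
  have hfin : (L1 / L2) * (L2 ^ 7 / L1 ^ 3) ≤ L2 ^ 7 / L1 ^ 2 := by
    have h5 : (L1 / L2) * (L2 ^ 7 / L1 ^ 3) = 1 / L2 * (L2 ^ 7 / L1 ^ 2) := by
      field_simp
    rw [h5]
    have h6 : 1 / L2 ≤ 1 := by
      rw [div_le_one hL2pos]
      linarith
    have h7 : 0 ≤ L2 ^ 7 / L1 ^ 2 := by positivity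
    calc 1 / L2 * (L2 ^ 7 / L1 ^ 2) ≤ 1 * (L2 ^ 7 / L1 ^ 2) := mul_le_mul_of_nonneg_right h6 h7
      _ = _ := one_mul _
  set PA := ∏ p ∈ I, (((1 / (p : ℝ)) ^ 2 - (1 - 1 / (p : ℝ)) ^ 2) * (p : ℝ) ^ (-1 - σ) +
          (1 - 1 / (p : ℝ)) ^ 2) with hPA
  set PB := ∏ p ∈ I, (((1 + Real.exp 1 * (1 + 1 / (p : ℝ))) ^ 2 -
          (1 + Real.exp 1 * (1 / (p : ℝ))) ^ 2) * (p : ℝ) ^ (-1 - σ) +
          (1 + Real.exp 1 * (1 / (p : ℝ))) ^ 2) with hPB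
  have g1 : (1 + 1 / σ) * PA ≤ 203 * (Real.exp (C0 + 2) * (L2 ^ 7 / L1 ^ 2)) := by
    calc (1 + 1 / σ) * PA ≤ (1 + 1 / σ) * (Real.exp (C0 + 2) * (L2 ^ 7 / L1 ^ 3)) :=
          mul_le_mul_of_nonneg_left (hm1.trans hm3) hz0
      _ ≤ 203 * (L1 / L2) * (Real.exp (C0 + 2) * (L2 ^ 7 / L1 ^ 3)) :=
          mul_le_mul_of_nonneg_right hz (by positivity)
      _ = 203 * Real.exp (C0 + 2) * ((L1 / L2) * (L2 ^ 7 / L1 ^ 3)) := by ring
      _ ≤ 203 * Real.exp (C0 + 2) * (L2 ^ 7 / L1 ^ 2) :=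
          mul_le_mul_of_nonneg_left hfin (by positivity)
      _ = _ := by ring
  have g2 : Real.exp (-K) ^ 2 * ((1 + 1 / σ) * PB) ≤ 203 * (L2 ^ 7 / L1 ^ 2) := by
    calc Real.exp (-K) ^ 2 * ((1 + 1 / σ) * PB) =
          (1 + 1 / σ) * (Real.exp (-K) ^ 2 * PB) := by ring
      _ ≤ (1 + 1 / σ) * (L2 ^ 7 / L1 ^ 3) := by
          refine mul_le_mul_of_nonneg_left ?_ hz0
          exact (mul_le_mul_of_nonneg_left hm2 (by positivity)).trans hm4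
      _ ≤ 203 * (L1 / L2) * (L2 ^ 7 / L1 ^ 3) := mul_le_mul_of_nonneg_right hz (by positivity)
      _ = 203 * ((L1 / L2) * (L2 ^ 7 / L1 ^ 3)) := by ring
      _ ≤ 203 * (L2 ^ 7 / L1 ^ 2) := mul_le_mul_of_nonneg_left hfin (by norm_num)
  calc Real.exp 1 * (2 * ((1 + 1 / σ) * PA) + 2 * Real.exp (-K) ^ 2 * ((1 + 1 / σ) * PB))
      ≤ Real.exp 1 * (2 * (203 * (Real.exp (C0 + 2) * (L2 ^ 7 / L1 ^ 2))) +
        2 * (203 * (L2 ^ 7 / L1 ^ 2))) := by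
        refine mul_le_mul_of_nonneg_left ?_ (Real.exp_pos 1).le
        linarith
    _ = 406 * Real.exp 1 * (Real.exp (C0 + 2) + 1) * L2 ^ 7 / L1 ^ 2 := by ring

theorem euc : type_of% @euc_pr := @euc_pr

end Pool.Agent.LEV
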