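import Pool.Agent.Lib_helper68.LEV.DefsC
import Pool.Agent.Lib_helper68.LEV.FAM
import Pool.Agent.Lib_helper68.LEV.GEK
import Pool.Agent.Lib_helper68.LEV.LSB

/-! block GES: the short vertical segments above reduced fractions -/

namespace Pool.Agent.LEV

open Complex MeasureTheory Filter Topology UpperHalfPlane ModularGroup
open scoped MatrixGroups Modular ENNReal ModularForm ComplexConjugate ContDiff

theorem GES_integrable {E : Type} [NormedAddCommGroup E] {G : ℂ → E} {S : Set ℂ} (hS : IsCompact S)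
    (hm : AEStronglyMeasurable G (volume.restrict S)) (h0 : ∀ z, G z ≠ 0 → z ∈ S) {B : ℝ}
    (hB : ∀ z ∈ S, ‖G z‖ ≤ B) : Integrable G := by
  rw [← integrableOn_iff_integrable_of_support_subset (s := S) h0]
  refine IntegrableOn.of_bound hS.measure_lt_top hm B ?_
  exact (ae_restrict_iff' hS.isClosed.measurableSet).mpr (Eventually.of_forall hB)

/-- the properties of the kernel -/
structure GES_ker (r a b : ℝ) (K : ℂ → ℝ) : Prop where
  hm : Measurable K
  h0 : ∀ z, 0 ≤ K z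
  hs : ∀ z, K z ≠ 0 → |z.re - r| < z.im ∧ a / 2 < z.im ∧ z.im < 3 * b / 2
  hb : ∀ z, K z ≠ 0 → K z ≤ 4 / (Real.pi * z.im)
  hF : ∀ F : ℂ → ℂ, DifferentiableOn ℂ F {z : ℂ | 0 < z.im} →
      ∫ v in a..b, F ((r : ℂ) + (v : ℂ) * Complex.I) = ∫ z : ℂ, F z * (K z : ℂ)

theorem GES_ex (r : ℝ) {a b : ℝ} (ha : 0 < a) (hab : a ≤ b) : ∃ K : ℂ → ℝ, GES_ker r a b K := by
  obtain ⟨K, h1, h2, h3, h4, h5⟩ := vert_kernel r ha hab
  exact ⟨K, ⟨h1, h2, h3, h4, h5⟩⟩

/-- the box containing the support -/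
def GES_box (r a b : ℝ) : Set ℂ := Set.Icc (r - 3 * b / 2) (r + 3 * b / 2) ×ℂ Set.Icc (a / 2) (3 * b / 2)

theorem GES_box_compact (r a b : ℝ) : IsCompact (GES_box r a b) := isCompact_Icc.reProdIm isCompact_Icc

theorem GES_mem {r a b : ℝ} {K : ℂ → ℝ} (h : GES_ker r a b K) {z : ℂ} (hz : K z ≠ 0) :
    z ∈ GES_box r a b := by
  obtain ⟨h1, h2, h3⟩ := h.hs z hz
  have h4 := abs_lt.mp h1
  rw [GES_box, Complex.mem_reProdIm]
  exact ⟨⟨by linarith [h4.1], by linarith [h4.2]⟩, ⟨h2.le, h3.le⟩⟩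

theorem GES_box_pos {r a b : ℝ} (ha : 0 < a) : GES_box r a b ⊆ {z : ℂ | 0 < z.im} := by
  intro z hz
  rw [GES_box, Complex.mem_reProdIm] at hz
  have := hz.2.1
  show 0 < z.im
  linarith

theorem GES_le {r a b : ℝ} (ha : 0 < a) {K : ℂ → ℝ} (h : GES_ker r a b K) (z : ℂ) :
    K z ≤ 8 / (Real.pi * a) := by
  have hpi := Real.pi_pos
  by_cases hz : K z = 0
  · rw [hz]; positivity
  · obtain ⟨h1, h2, h3⟩ := h.hs z hz
    refine (h.hb z hz).trans ?_
    have hy : 0 < z.im := by linarith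
    rw [div_le_div_iff₀ (by positivity) (by positivity)]
    nlinarith

theorem GES_intF {r a b : ℝ} (ha : 0 < a) {K : ℂ → ℝ} (h : GES_ker r a b K) {F : ℂ → ℂ}
    (hF : DifferentiableOn ℂ F {z : ℂ | 0 < z.im}) : Integrable (fun z => F z * (K z : ℂ)) := by
  have hFS : ContinuousOn F (GES_box r a b) := hF.continuousOn.mono (GES_box_pos ha)
  obtain ⟨C, hC⟩ := (GES_box_compact r a b).exists_bound_of_continuousOn hFS
  refine GES_integrable (B := |C| * (8 / (Real.pi * a))) (GES_box_compact r a b) ?_ ?_ ?_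
  · apply AEStronglyMeasurable.mul
    · exact hFS.aestronglyMeasurable (GES_box_compact r a b).isClosed.measurableSet
    · exact (Complex.continuous_ofReal.measurable.comp h.hm).aestronglyMeasurable
  · intro z hz
    apply GES_mem h
    intro h1
    apply hz
    rw [h1, Complex.ofReal_zero, mul_zero]
  · intro z hz
    rw [norm_mul, Complex.norm_real, Real.norm_eq_abs, abs_of_nonneg (h.h0 _)]
    exact mul_le_mul ((hC _ hz).trans (le_abs_self C)) (GES_le ha h z) (h.h0 _) (abs_nonneg _)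

theorem GES_int2 {r a b : ℝ} (ha : 0 < a) {K : ℂ → ℝ} (h : GES_ker r a b K) :
    Integrable (fun z => K z ^ 2) := by
  refine GES_integrable (B := (8 / (Real.pi * a)) ^ 2) (GES_box_compact r a b) ?_ ?_ ?_
  · exact (h.hm.pow_const 2).aestronglyMeasurable
  · intro z hz
    apply GES_mem h
    intro h1
    apply hz
    rw [h1]
    norm_num
  · intro z hz
    rw [Real.norm_eq_abs, abs_of_nonneg (sq_nonneg _)]
    exact pow_le_pow_left₀ (h.h0 z) (GES_le ha h z) 2

theorem GES_K2 {r a b : ℝ} (ha : 0 < a) (hab : a ≤ b) {K : ℂ → ℝ} (h : GES_ker r a b K) :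
    ∫ z, K z ^ 2 ≤ 8 / Real.pi * Real.log (b / a) := by
  have hpi := Real.pi_pos
  have hb : 0 < b := lt_of_lt_of_le ha hab
  set F : ℂ → ℂ := fun z => 2 * Complex.I / (z - (r : ℂ)) with hFd
  have hF : DifferentiableOn ℂ F {z : ℂ | 0 < z.im} := by
    intro z hz
    apply DifferentiableAt.differentiableWithinAt
    have hz1 : z - (r : ℂ) ≠ 0 := by
      intro h1
      have h2 : (z - (r : ℂ)).im = 0 := by rw [h1]; rfl
      rw [Complex.sub_im, Complex.ofReal_im, sub_zero] at h2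
      have h3 : 0 < z.im := hz
      linarith
    exact (differentiableAt_const _).div (by fun_prop) hz1
  have hi := GES_intF ha h hF
  have hre : ∀ z : ℂ, (F z * (K z : ℂ)).re = (F z).re * K z := by
    intro z
    rw [Complex.mul_re, Complex.ofReal_re, Complex.ofReal_im, mul_zero, sub_zero]
  have hval : ∫ z : ℂ, F z * (K z : ℂ) = ((2 * Real.log (b / a) : ℝ) : ℂ) := by
    rw [← h.hF F hF]
    have h1 : ∀ v ∈ Set.uIcc a b, F ((r : ℂ) + (v : ℂ) * Complex.I) = ((2 * v⁻¹ : ℝ) : ℂ) := by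
      intro v hv
      rw [Set.uIcc_of_le hab] at hv
      have hv0 : (v : ℂ) ≠ 0 := by
        have : v ≠ 0 := by linarith [hv.1]
        exact_mod_cast this
      rw [hFd]
      simp only []
      rw [add_sub_cancel_left]
      push_cast
      field_simp
    rw [intervalIntegral.integral_congr h1, intervalIntegral.integral_ofReal,
      intervalIntegral.integral_const_mul, integral_inv_of_pos ha hb]
  have hpt : ∀ z : ℂ, K z ^ 2 ≤ 4 / Real.pi * (F z * (K z : ℂ)).re := by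
    intro z
    rw [hre]
    by_cases hz : K z = 0
    · rw [hz]; simp
    · obtain ⟨h1, h2, h3⟩ := h.hs z hz
      have hy : 0 < z.im := by linarith
      have h4 := h.hb z hz
      have h5 := abs_lt.mp h1
      have h6 : 1 / z.im ≤ (F z).re := by
        have h7 : (F z).re = 2 * z.im / ((z.re - r) ^ 2 + z.im ^ 2) := by
          rw [hFd]
          simp only []
          rw [Complex.div_re]
          have h8 : Complex.normSq (z - (r : ℂ)) = (z.re - r) ^ 2 + z.im ^ 2 := by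
            rw [Complex.normSq_apply]
            simp
            ring
          rw [h8]
          simp
        rw [h7, div_le_div_iff₀ hy (by positivity)]
        nlinarith
      have h9 : K z ≤ 4 / Real.pi * (F z).re := by
        calc K z ≤ 4 / (Real.pi * z.im) := h4
          _ = 4 / Real.pi * (1 / z.im) := by field_simp
          _ ≤ 4 / Real.pi * (F z).re := by
            apply mul_le_mul_of_nonneg_left h6
            positivity
      calc K z ^ 2 = K z * K z := by ring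
        _ ≤ (4 / Real.pi * (F z).re) * K z := mul_le_mul_of_nonneg_right h9 (h.h0 z)
        _ = 4 / Real.pi * ((F z).re * K z) := by ring
  calc ∫ z, K z ^ 2 ≤ ∫ z, 4 / Real.pi * (F z * (K z : ℂ)).re := by
        apply integral_mono (GES_int2 ha h) _ hpt
        exact (hi.re).const_mul _
    _ = 4 / Real.pi * (∫ z, F z * (K z : ℂ)).re := by
        rw [integral_const_mul]
        congr 1
        exact integral_re hi
    _ = 8 / Real.pi * Real.log (b / a) := by
        rw [hval, Complex.ofReal_re]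
        ring

/-- two different reduced fractions -/
theorem GES_frac {e j e' j' D : ℕ} (he : 1 ≤ e) (heD : e ≤ D) (he' : 1 ≤ e') (heD' : e' ≤ D)
    (hc : e.Coprime j) (hc' : e'.Coprime j') (hne : ¬ (e = e' ∧ j = j')) :
    1 / (D : ℝ) ^ 2 ≤ |(j : ℝ) / e - (j' : ℝ) / e'| := by
  have he0 : (0 : ℝ) < e := by exact_mod_cast he
  have he0' : (0 : ℝ) < e' := by exact_mod_cast he'
  have hD : (0 : ℝ) < D := by
    have : 0 < D := by omega
    exact_mod_cast this
  have h1 : (j * e' : ℕ) ≠ j' * e := by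
    intro h
    apply hne
    have h2 : e ∣ e' := by
      have : e ∣ j * e' := by rw [h]; exact dvd_mul_left _ _
      exact hc.dvd_of_dvd_mul_left this
    have h3 : e' ∣ e := by
      have : e' ∣ j' * e := by rw [← h]; exact dvd_mul_left _ _
      exact hc'.dvd_of_dvd_mul_left this
    have h4 : e = e' := Nat.dvd_antisymm h2 h3
    refine ⟨h4, ?_⟩
    rw [h4] at h
    exact Nat.eq_of_mul_eq_mul_right (by omega) h
  have h2 : (1 : ℝ) ≤ |(j : ℝ) * e' - (j' : ℝ) * e| := by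
    have h3 : ((j : ℤ) * e' - (j' : ℤ) * e) ≠ 0 := by
      intro h
      apply h1
      have : (j : ℤ) * e' = (j' : ℤ) * e := by linarith
      exact_mod_cast this
    have h4 := Int.one_le_abs h3
    exact_mod_cast h4
  have h3 : (j : ℝ) / e - (j' : ℝ) / e' = ((j : ℝ) * e' - (j' : ℝ) * e) / (e * e') := by
    field_simp
  rw [h3, abs_div, abs_of_pos (mul_pos he0 he0')]
  have h4 : (e : ℝ) * e' ≤ (D : ℝ) ^ 2 := by
    rw [sq]
    exact mul_le_mul (by exact_mod_cast heD) (by exact_mod_cast heD') he0'.le hD.le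
  exact div_le_div₀ (by positivity) h2 (by positivity) h4

theorem geo_small_pr : ∃ C : ℝ, 0 < C ∧ ∀ (N : ℕ) [Fact N.Prime] {ι : Type} [Fintype ι]
    (f : ι → S2 N), (∀ i, f i ≠ 0) → (∀ i j, i ≠ j → pet (f i) (f j) = 0) →
    ∀ (D : ℕ), 1 ≤ D → 16 * D ^ 4 ≤ N → ∀ (E : Finset ℕ), (∀ e ∈ E, 1 ≤ e ∧ e ≤ D) →
    ∀ (w : ℕ → ℝ),
      ∑ i, 1 / nr (f i) * ‖∑ e ∈ E, (w e : ℂ) * ∑ j ∈ (Finset.range e).filter (fun j => e.Coprime j),
        ∫ v in (1 / ((e : ℝ) * Real.sqrt N))..(1 / (4 * (D : ℝ) ^ 2)),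
          ev (f i) ((j : ℝ) / e) v‖ ^ 2 ≤
        C * (1 + Real.log N) * ∑ e ∈ E, (e : ℝ) * w e ^ 2 := by
  refine ⟨20, by norm_num, ?_⟩
  intro N _ ι _ f hf ho D hD hDN E hE w
  have hpi := Real.pi_gt_three
  have hN2 : 2 ≤ N := (Fact.out : N.Prime).two_le
  have hN0 : (0 : ℝ) < N := by
    have : 0 < N := by omega
    exact_mod_cast this
  have hD1 : (1 : ℝ) ≤ D := by exact_mod_cast hD
  have hD0 : (0 : ℝ) < D := by linarith
  set s : ℝ := Real.sqrt N with hs
  have hs0 : 0 < s := Real.sqrt_pos.mpr hN0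
  have hs2 : s ^ 2 = N := Real.sq_sqrt hN0.le
  have h4D : 4 * (D : ℝ) ^ 2 ≤ s := by
    rw [hs]
    apply Real.le_sqrt_of_sq_le
    have : (16 * (D : ℝ) ^ 4) ≤ N := by exact_mod_cast hDN
    nlinarith
  have hs1 : 1 ≤ s := by nlinarith
  set V : ℝ := 1 / (4 * (D : ℝ) ^ 2) with hV
  have hV0 : 0 < V := by positivity
  have ha0 : ∀ e : ℕ, 1 ≤ e → 0 < 1 / ((e : ℝ) * s) := by
    intro e he
    have : (0 : ℝ) < e := by exact_mod_cast he
    positivity
  have haV : ∀ e : ℕ, 1 ≤ e → 1 / ((e : ℝ) * s) ≤ V := by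
    intro e he
    have he1 : (1 : ℝ) ≤ e := by exact_mod_cast he
    rw [hV]
    apply one_div_le_one_div_of_le (by positivity)
    nlinarith
  -- the kernels
  have hex : ∀ p : (_ : ℕ) × ℕ, ∃ K : ℂ → ℝ, 1 ≤ p.1 →
      GES_ker ((p.2 : ℝ) / p.1) (1 / ((p.1 : ℝ) * s)) V K := by
    intro p
    by_cases hp : 1 ≤ p.1
    · obtain ⟨K, hK⟩ := GES_ex ((p.2 : ℝ) / p.1) (ha0 p.1 hp) (haV p.1 hp)
      exact ⟨K, fun _ => hK⟩
    · exact ⟨0, fun h => absurd h hp⟩
  choose K hK using hex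
  set P : Finset ((_ : ℕ) × ℕ) := E.sigma fun e => (Finset.range e).filter (fun j => e.Coprime j) with hP
  have hPm : ∀ p ∈ P, 1 ≤ p.1 ∧ p.1 ≤ D ∧ p.2 < p.1 ∧ p.1.Coprime p.2 := by
    intro p hp
    rw [hP, Finset.mem_sigma, Finset.mem_filter, Finset.mem_range] at hp
    exact ⟨(hE _ hp.1).1, (hE _ hp.1).2, hp.2.1, hp.2.2⟩
  set φ : ℂ → ℝ := fun z => ∑ p ∈ P, w p.1 * K p z with hφd
  have hφm : Measurable φ := by
    rw [hφd]
    apply Finset.measurable_fun_sum
    intro p hp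
    exact ((hK p (hPm p hp).1).hm).const_mul _
  -- disjoint supports
  have hdisj : ∀ p ∈ P, ∀ q ∈ P, p ≠ q → ∀ z, K p z * K q z = 0 := by
    intro p hp q hq hpq z
    by_contra hne
    have hp0 : K p z ≠ 0 := left_ne_zero_of_mul hne
    have hq0 : K q z ≠ 0 := right_ne_zero_of_mul hne
    obtain ⟨a1, a2, a3, a4⟩ := hPm p hp
    obtain ⟨b1, b2, b3, b4⟩ := hPm q hq
    obtain ⟨c1, c2, c3⟩ := (hK p a1).hs z hp0
    obtain ⟨d1, d2, d3⟩ := (hK q b1).hs z hq0
    have h1 := GES_frac a1 a2 b1 b2 a4 b4 (by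
      rintro ⟨h1, h2⟩
      apply hpq
      exact Sigma.ext h1 (heq_of_eq h2))
    have h2 : |(p.2 : ℝ) / p.1 - (q.2 : ℝ) / q.1| < 2 * z.im := by
      have h3 := abs_lt.mp c1
      have h4 := abs_lt.mp d1
      rw [abs_lt]
      constructor
      · linarith [h3.1, h3.2, h4.1, h4.2]
      · linarith [h3.1, h3.2, h4.1, h4.2]
    have h3 : 2 * z.im < 3 * V := by linarith
    have h4 : 3 * V < 1 / (D : ℝ) ^ 2 := by
      rw [hV]
      rw [mul_one_div, div_lt_div_iff₀ (by positivity) (by positivity)]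
      nlinarith [sq_nonneg (D : ℝ)]
    linarith
  have hφ2 : ∀ z, φ z ^ 2 = ∑ p ∈ P, w p.1 ^ 2 * K p z ^ 2 := by
    intro z
    rw [hφd]
    simp only []
    rw [sq, Finset.sum_mul_sum]
    apply Finset.sum_congr rfl
    intro p hp
    rw [Finset.sum_eq_single p]
    · ring
    · intro q hq hqp
      have := hdisj p hp q hq (Ne.symm hqp) z
      calc w p.1 * K p z * (w q.1 * K q z) = w p.1 * w q.1 * (K p z * K q z) := by ring
        _ = 0 := by rw [this, mul_zero]
    · intro h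
      exact absurd hp h
  have hφi : Integrable (fun z => φ z ^ 2) := by
    simp_rw [hφ2]
    apply integrable_finsetSum
    intro p hp
    exact (GES_int2 (ha0 _ (hPm p hp).1) (hK p (hPm p hp).1)).const_mul _
  have hφs : ∀ z : ℂ, φ z ≠ 0 → -(1 / (2 * (D : ℝ))) ≤ z.re ∧ z.re < -(1 / (2 * (D : ℝ))) + 1 ∧
      1 / (N : ℝ) ≤ z.im := by
    intro z hz
    obtain ⟨p, hp, hpz⟩ := Finset.exists_ne_zero_of_sum_ne_zero hz
    have hp0 : K p z ≠ 0 := right_ne_zero_of_mul hpz
    obtain ⟨a1, a2, a3, a4⟩ := hPm p hp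
    obtain ⟨c1, c2, c3⟩ := (hK p a1).hs z hp0
    have h3 := abs_lt.mp c1
    have hp1 : (1 : ℝ) ≤ p.1 := by exact_mod_cast a1
    have hpD : (p.1 : ℝ) ≤ D := by exact_mod_cast a2
    have hV2 : 3 * V / 2 ≤ 1 / (2 * (D : ℝ)) := by
      rw [hV, mul_one_div, div_div, div_le_div_iff₀ (by positivity) (by positivity)]
      nlinarith
    have hr0 : (0 : ℝ) ≤ (p.2 : ℝ) / p.1 := by positivity
    have hr1 : (p.2 : ℝ) / p.1 ≤ 1 - 1 / D := by
      have h5 : (p.2 : ℝ) + 1 ≤ p.1 := by exact_mod_cast a3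
      have h6 : (p.2 : ℝ) / p.1 ≤ 1 - 1 / p.1 := by
        rw [div_le_iff₀ (by linarith), sub_mul, one_div, inv_mul_cancel₀ (by linarith)]
        linarith
      have h7 : 1 / (D : ℝ) ≤ 1 / p.1 := one_div_le_one_div_of_le (by linarith) hpD
      linarith
    have hhalf : 1 / (2 * (D : ℝ)) + 1 / (2 * (D : ℝ)) = 1 / D := by
      field_simp
      norm_num
    refine ⟨by linarith [h3.1], by linarith [h3.2], ?_⟩
    have h8 : 1 / (N : ℝ) ≤ 1 / ((p.1 : ℝ) * s) / 2 := by
      rw [div_div]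
      apply one_div_le_one_div_of_le (by positivity)
      rw [← hs2]
      have : 2 * (p.1 : ℝ) ≤ s := by nlinarith
      nlinarith
    linarith
  -- the Bessel inequality
  have hB := bessel_strip f hf ho hN0 (-(1 / (2 * (D : ℝ)))) φ hφm hφi hφs
  have hfh : ∀ i, DifferentiableOn ℂ (fun z : ℂ => f i (UpperHalfPlane.ofComplex z)) {z : ℂ | 0 < z.im} := by
    intro i
    have h := fam_hol (f i) OnePoint.infty
    rw [fam_inf] at h
    exact h
  have hL : ∀ i, (∑ e ∈ E, (w e : ℂ) * ∑ j ∈ (Finset.range e).filter (fun j => e.Coprime j),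
        ∫ v in (1 / ((e : ℝ) * s))..V, ev (f i) ((j : ℝ) / e) v) =
      ∫ z : ℂ, f i (UpperHalfPlane.ofComplex z) * (φ z : ℂ) := by
    intro i
    have h1 : ∀ p ∈ P, (w p.1 : ℂ) * ∫ v in (1 / ((p.1 : ℝ) * s))..V, ev (f i) ((p.2 : ℝ) / p.1) v =
        ∫ z : ℂ, (w p.1 : ℂ) * (f i (UpperHalfPlane.ofComplex z) * (K p z : ℂ)) := by
      intro p hp
      rw [integral_const_mul]
      congr 1
      have h2 := (hK p (hPm p hp).1).hF _ (hfh i)
      rw [← h2]
      rfl
    have h3 : (∑ e ∈ E, (w e : ℂ) * ∑ j ∈ (Finset.range e).filter (fun j => e.Coprime j),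
        ∫ v in (1 / ((e : ℝ) * s))..V, ev (f i) ((j : ℝ) / e) v) =
        ∑ p ∈ P, (w p.1 : ℂ) * ∫ v in (1 / ((p.1 : ℝ) * s))..V, ev (f i) ((p.2 : ℝ) / p.1) v := by
      rw [hP, Finset.sum_sigma]
      apply Finset.sum_congr rfl
      intro e _
      rw [Finset.mul_sum]
    rw [h3, Finset.sum_congr rfl h1, ← integral_finsetSum]
    · congr 1
      ext z
      rw [hφd]
      push_cast
      rw [Finset.mul_sum]
      apply Finset.sum_congr rfl
      intro p _
      ring
    · intro p hp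
      exact (GES_intF (ha0 _ (hPm p hp).1) (hK p (hPm p hp).1) (hfh i)).const_mul _
  simp_rw [hL]
  refine hB.trans ?_
  have hI : ∫ z : ℂ, φ z ^ 2 = ∑ p ∈ P, w p.1 ^ 2 * ∫ z, K p z ^ 2 := by
    simp_rw [hφ2]
    rw [integral_finsetSum]
    · apply Finset.sum_congr rfl
      intro p _
      rw [integral_const_mul]
    · intro p hp
      exact (GES_int2 (ha0 _ (hPm p hp).1) (hK p (hPm p hp).1)).const_mul _
  have hlogN : 0 ≤ Real.log N := Real.log_nonneg (by exact_mod_cast (by omega : 1 ≤ N))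
  have hKb : ∀ p ∈ P, ∫ z, K p z ^ 2 ≤ 4 * Real.log N := by
    intro p hp
    obtain ⟨a1, a2, a3, a4⟩ := hPm p hp
    have hp1 : (1 : ℝ) ≤ p.1 := by exact_mod_cast a1
    have hpD : (p.1 : ℝ) ≤ D := by exact_mod_cast a2
    refine (GES_K2 (ha0 _ a1) (haV _ a1) (hK p a1)).trans ?_
    have h1 : V / (1 / ((p.1 : ℝ) * s)) ≤ N := by
      rw [div_div_eq_mul_div, div_one, hV, one_div_mul_eq_div, div_le_iff₀ (by positivity), ← hs2]
      have h2 : (p.1 : ℝ) ≤ 4 * (D : ℝ) ^ 2 := by nlinarith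
      nlinarith [mul_nonneg hs0.le hs0.le]
    have h2 : Real.log (V / (1 / ((p.1 : ℝ) * s))) ≤ Real.log N := by
      apply Real.log_le_log _ h1
      have := ha0 p.1 a1
      positivity
    have h3 : 8 / Real.pi ≤ 4 := by
      rw [div_le_iff₀ (by linarith)]
      linarith
    calc 8 / Real.pi * Real.log (V / (1 / ((p.1 : ℝ) * s))) ≤ 8 / Real.pi * Real.log N := by
          apply mul_le_mul_of_nonneg_left h2
          positivity
      _ ≤ 4 * Real.log N := mul_le_mul_of_nonneg_right h3 hlogN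
  have hIb : ∫ z : ℂ, φ z ^ 2 ≤ 4 * Real.log N * ∑ e ∈ E, (e : ℝ) * w e ^ 2 := by
    rw [hI]
    calc ∑ p ∈ P, w p.1 ^ 2 * ∫ z, K p z ^ 2 ≤ ∑ p ∈ P, w p.1 ^ 2 * (4 * Real.log N) := by
          apply Finset.sum_le_sum
          intro p hp
          exact mul_le_mul_of_nonneg_left (hKb p hp) (sq_nonneg _)
      _ = ∑ e ∈ E, ∑ j ∈ (Finset.range e).filter (fun j => e.Coprime j), w e ^ 2 * (4 * Real.log N) := by
          rw [hP, Finset.sum_sigma]
      _ ≤ ∑ e ∈ E, (e : ℝ) * (w e ^ 2 * (4 * Real.log N)) := by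
          apply Finset.sum_le_sum
          intro e _
          rw [Finset.sum_const, nsmul_eq_mul]
          apply mul_le_mul_of_nonneg_right _ (by positivity)
          have : ((Finset.range e).filter (fun j => e.Coprime j)).card ≤ e := by
            refine (Finset.card_filter_le _ _).trans ?_
            rw [Finset.card_range]
          exact_mod_cast this
      _ = 4 * Real.log N * ∑ e ∈ E, (e : ℝ) * w e ^ 2 := by
          rw [Finset.mul_sum]
          apply Finset.sum_congr rfl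
          intro e _
          ring
  have h5 : (1 + 4 * (N : ℝ) / N) = 5 := by
    field_simp
    norm_num
  rw [h5]
  have hS0 : 0 ≤ ∑ e ∈ E, (e : ℝ) * w e ^ 2 := by
    apply Finset.sum_nonneg
    intro e _
    positivity
  calc 5 * ∫ z : ℂ, φ z ^ 2 ≤ 5 * (4 * Real.log N * ∑ e ∈ E, (e : ℝ) * w e ^ 2) := by linarith
    _ = 20 * Real.log N * ∑ e ∈ E, (e : ℝ) * w e ^ 2 := by ring
    _ ≤ 20 * (1 + Real.log N) * ∑ e ∈ E, (e : ℝ) * w e ^ 2 := by
        apply mul_le_mul_of_nonneg_right _ hS0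
        linarith

theorem geo_small : type_of% @geo_small_pr := @geo_small_pr

end Pool.Agent.LEV
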