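import Pool.Agent.Lib_helper68.LEV.DefsC
import Pool.Agent.Lib_helper68.LEV.GIH

/-! Block GIM: the mollified central value as a sum over reduced fractions. -/

namespace Pool.Agent.LEV

open Complex MeasureTheory Filter Topology UpperHalfPlane ModularGroup
open scoped MatrixGroups Modular ENNReal ModularForm ComplexConjugate ContDiff

theorem GIM_primeFactors {A : Finset ℕ} (hA : ∀ p ∈ A, p.Prime) : (mB A).primeFactors = A :=
  Nat.primeFactors_prod hA

theorem GIM_pos {A : Finset ℕ} (hA : ∀ p ∈ A, p.Prime) : 0 < mB A :=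
  Finset.prod_pos (fun p hp => (hA p hp).pos)

theorem GIM_squarefree {A : Finset ℕ} (hA : ∀ p ∈ A, p.Prime) : Squarefree (mB A) := by
  induction A using Finset.induction_on with
  | empty => simp [mB]
  | insert p A hp ih =>
    have h1 : mB (insert p A) = p * mB A := Finset.prod_insert hp
    rw [h1]
    have h2 := ih (fun q hq => hA q (Finset.mem_insert_of_mem hq))
    have hpp : p.Prime := hA p (Finset.mem_insert_self p A)
    have h3 : p.Coprime (mB A) := by
      apply Nat.Coprime.prod_right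
      intro q hq
      have hqp := hA q (Finset.mem_insert_of_mem hq)
      rw [Nat.coprime_primes hpp hqp]
      intro h4
      exact hp (h4 ▸ hq)
    exact (Nat.squarefree_mul h3).mpr ⟨hpp.squarefree, h2⟩

/-- the divisors of `mB A` -/
theorem GIM_divisors {A : Finset ℕ} (hA : ∀ p ∈ A, p.Prime) (G : ℕ → ℂ) :
    ∑ e ∈ (mB A).divisors, G e = ∑ B ∈ A.powerset, G (mB B) := by
  symm
  refine Finset.sum_nbij' (fun B => mB B) (fun e => e.primeFactors) ?_ ?_ ?_ ?_ ?_
  · intro B hB
    rw [Finset.mem_powerset] at hB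
    rw [Nat.mem_divisors]
    exact ⟨Finset.prod_dvd_prod_of_subset _ _ _ hB, (GIM_pos hA).ne'⟩
  · intro e he
    rw [Nat.mem_divisors] at he
    rw [Finset.mem_powerset]
    have h := Nat.primeFactors_mono he.1 he.2
    rwa [GIM_primeFactors hA] at h
  · intro B hB
    rw [Finset.mem_powerset] at hB
    exact GIM_primeFactors (fun p hp => hA p (hB hp))
  · intro e he
    rw [Nat.mem_divisors] at he
    exact Nat.prod_primeFactors_of_squarefree ((GIM_squarefree hA).squarefree_of_dvd he.1)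
  · intro B _
    rfl

theorem GIM_card {A : Finset ℕ} (hA : ∀ p ∈ A, p.Prime) :
    ((mB A).divisors.card : ℂ) = 2 ^ A.card := by
  have h := GIM_divisors hA (fun _ => (1 : ℂ))
  rw [Finset.sum_const, Finset.sum_const, Finset.card_powerset, nsmul_eq_mul, nsmul_eq_mul,
    mul_one, mul_one] at h
  rw [h]
  push_cast
  rfl

theorem GIM_div {A B : Finset ℕ} (hA : ∀ p ∈ A, p.Prime) (hB : B ⊆ A) :
    mB A / mB B = mB (A \ B) := by
  have h1 : mB (A \ B) * mB B = mB A := Finset.prod_sdiff hB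
  have h2 : 0 < mB B := GIM_pos (fun p hp => hA p (hB hp))
  rw [← h1, Nat.mul_div_cancel _ h2]

theorem lm_id_pr {N : ℕ} [Fact N.Prime] {f : S2 N} (hf : IsNew f) (h1 : co f N = 1) (I : Finset ℕ)
    (hI : ∀ p ∈ I, p.Prime ∧ p ≠ N) (K : ℕ) :
    MI f I K * Lh f = 4 * Real.pi * ∑ B ∈ SB I K, (wB I K B : ℂ) *
      ∑ j ∈ (Finset.range (mB B)).filter (fun j => (mB B).Coprime j),
        ∫ v in Set.Ioi (1 / ((mB B : ℝ) * Real.sqrt N)), ev f ((j : ℝ) / mB B) v := by
  set G : ℕ → ℂ := fun e => ∑ j ∈ (Finset.range e).filter (fun j => e.Coprime j),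
        ∫ v in Set.Ioi (1 / ((e : ℝ) * Real.sqrt N)), ev f ((j : ℝ) / e) v with hG
  have hSB : ∀ A ∈ SB I K, A ⊆ I ∧ A.card ≤ K := by
    intro A hA
    unfold SB at hA
    rw [Finset.mem_filter, Finset.mem_powerset] at hA
    exact hA
  have hcop : ∀ A : Finset ℕ, A ⊆ I → (mB A).Coprime N := by
    intro A hA
    apply Nat.Coprime.prod_left
    intro p hp
    exact (Nat.coprime_primes (hI p (hA hp)).1 Fact.out).mpr (hI p (hA hp)).2
  have h2 : ∀ A ∈ SB I K, (-1 : ℂ) ^ A.card * (co f (mB A) / (mB A : ℂ)) * Lh f =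
      ∑ B ∈ A.powerset, 4 * Real.pi * ((-1 : ℂ) ^ A.card * 2 ^ (A \ B).card / (mB A : ℂ) *
        G (mB B)) := by
    intro A hA
    obtain ⟨hAI, hAK⟩ := hSB A hA
    have hAp : ∀ p ∈ A, p.Prime := fun p hp => (hI p (hAI hp)).1
    have h3 := geo_hecke hf h1 (GIM_squarefree hAp) (hcop A hAI)
    have h4 : ∑ e ∈ (mB A).divisors, ((mB A / e).divisors.card : ℂ) * G e =
        ∑ B ∈ A.powerset, (2 : ℂ) ^ (A \ B).card * G (mB B) := by
      rw [GIM_divisors hAp (fun e => ((mB A / e).divisors.card : ℂ) * G e)]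
      apply Finset.sum_congr rfl
      intro B hB
      rw [Finset.mem_powerset] at hB
      rw [GIM_div hAp hB, GIM_card (fun p hp => hAp p (Finset.sdiff_subset hp))]
    have h5 : co f (mB A) * Lh f = 4 * Real.pi * ∑ B ∈ A.powerset,
        (2 : ℂ) ^ (A \ B).card * G (mB B) := by
      rw [← h4]
      exact h3
    calc (-1 : ℂ) ^ A.card * (co f (mB A) / (mB A : ℂ)) * Lh f
        = (-1 : ℂ) ^ A.card / (mB A : ℂ) * (co f (mB A) * Lh f) := by ring
      _ = ∑ B ∈ A.powerset, 4 * Real.pi * ((-1 : ℂ) ^ A.card * 2 ^ (A \ B).card / (mB A : ℂ) *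
        G (mB B)) := by
          rw [h5, Finset.mul_sum, Finset.mul_sum]
          apply Finset.sum_congr rfl
          intro B _
          ring
  unfold MI
  rw [Finset.sum_mul, Finset.sum_congr rfl h2,
    Finset.sum_comm' (s' := fun B => (SB I K).filter (fun A => B ⊆ A)) (t' := SB I K)]
  · rw [Finset.mul_sum]
    apply Finset.sum_congr rfl
    intro B _
    rw [← Finset.mul_sum, ← Finset.sum_mul]
    congr 2
    unfold wB
    push_cast
    rfl
  · intro A B
    rw [Finset.mem_filter, Finset.mem_powerset]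
    constructor
    · rintro ⟨h3, h4⟩
      refine ⟨⟨h3, h4⟩, ?_⟩
      obtain ⟨h5, h6⟩ := hSB A h3
      unfold SB
      rw [Finset.mem_filter, Finset.mem_powerset]
      exact ⟨h4.trans h5, (Finset.card_le_card h4).trans h6⟩
    · rintro ⟨⟨h3, h4⟩, _⟩
      exact ⟨h3, h4⟩

theorem lm_id : type_of% @lm_id_pr := @lm_id_pr

end Pool.Agent.LEV
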