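import Pool.Agent.Lib_helper68.LEV.DefsC
import Pool.Agent.Lib_helper68.LEV.EIA
import Pool.Agent.Lib_helper68.LEV.EUC
import Pool.Agent.Lib_helper68.LEV.EUW
import Pool.Agent.Lib_helper68.LEV.GEL
import Pool.Agent.Lib_helper68.LEV.GES
import Pool.Agent.Lib_helper68.LEV.GID
import Pool.Agent.Lib_helper68.LEV.GIM
import Pool.Agent.Lib_helper68.LEV.LSB
import Pool.Agent.Lib_helper68.LEV.PET
import Pool.Agent.Lib_helper68.LEV.PRM

/-! block HLM -/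

namespace Pool.Agent.LEV

open Complex MeasureTheory Filter Topology UpperHalfPlane ModularGroup
open scoped MatrixGroups Modular ENNReal ModularForm ComplexConjugate ContDiff

theorem HLM_sub {I : Finset ℕ} {K : ℕ} {B : Finset ℕ} (hB : B ∈ SB I K) : B ⊆ I := by
  rw [SB, Finset.mem_filter, Finset.mem_powerset] at hB
  exact hB.1

theorem HLM_pf {I : Finset ℕ} (hI : ∀ p ∈ I, p.Prime) {K : ℕ} {B : Finset ℕ} (hB : B ∈ SB I K) :
    (mB B).primeFactors = B :=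
  Nat.primeFactors_prod fun p hp => hI p (HLM_sub hB hp)

theorem HLM_exp {x : ℝ} (hx : 0 ≤ x) : Real.exp (-(Real.pi * x)) * (1 + x) ^ 2 ≤ Real.exp (-x) := by
  have h1 : 1 + x ≤ Real.exp x := by
    have := Real.add_one_le_exp x
    linarith
  have h2 : (1 + x) ^ 2 ≤ Real.exp (2 * x) := by
    calc (1 + x) ^ 2 ≤ Real.exp x ^ 2 := pow_le_pow_left₀ (by linarith) h1 2
      _ = Real.exp (2 * x) := by rw [← Real.exp_nat_mul]; norm_num
  calc Real.exp (-(Real.pi * x)) * (1 + x) ^ 2 ≤ Real.exp (-(Real.pi * x)) * Real.exp (2 * x) := by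
        gcongr
    _ = Real.exp (-(Real.pi * x) + 2 * x) := by rw [Real.exp_add]
    _ ≤ Real.exp (-x) := by
        rw [Real.exp_le_exp]
        have := Real.pi_gt_three
        nlinarith

theorem HLM_pow4 {x : ℝ} (hx : 0 ≤ x) : x ^ 4 ≤ 24 * Real.exp x := by
  have h := Real.pow_div_factorial_le_exp x hx 4
  have h4 : ((Nat.factorial 4 : ℕ) : ℝ) = 24 := by norm_num [Nat.factorial]
  rw [h4, div_le_iff₀ (by norm_num)] at h
  linarith

/-- the coefficients of the second part -/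
noncomputable def HLM_g (N : ℕ) (n : ℕ) : ℝ :=
  cB (IN N) (KN N) n * Real.exp (-2 * Real.pi * n * (1 / (4 * (DN N : ℝ) ^ 2))) /
    (2 * Real.pi * Real.sqrt n)

theorem HLM_g_sq (N n : ℕ) (hD : 1 ≤ DN N) : HLM_g N n ^ 2 =
    1 / (4 * Real.pi ^ 2) * (cB (IN N) (KN N) n ^ 2 / n *
      Real.exp (-(Real.pi * (n / (DN N : ℝ) ^ 2)))) := by
  have hD' : (DN N : ℝ) ≠ 0 := by
    have : (1 : ℝ) ≤ DN N := by exact_mod_cast hD
    positivity
  rw [HLM_g, div_pow, mul_pow, ← Real.exp_nat_mul, mul_pow, Real.sq_sqrt (Nat.cast_nonneg n)]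
  have he : ((2 : ℕ) : ℝ) * (-2 * Real.pi * n * (1 / (4 * (DN N : ℝ) ^ 2))) =
      -(Real.pi * (n / (DN N : ℝ) ^ 2)) := by
    push_cast
    field_simp
    ring
  rw [he]
  rcases Nat.eq_zero_or_pos n with rfl | hn
  · simp
  · have hn' : (n : ℝ) ≠ 0 := by
      have : (0 : ℝ) < n := by exact_mod_cast hn
      exact this.ne'
    have hpi := Real.pi_ne_zero
    field_simp
    ring

theorem HLM_summ (N : ℕ) (hD : 1 ≤ DN N) (hs : Summable (fun n : ℕ => cB (IN N) (KN N) n ^ 2 / n *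
      Real.exp (-n / (DN N : ℝ) ^ 2))) :
    Summable (fun n : ℕ => HLM_g N n ^ 2 * (1 + (n : ℝ)) ^ 4) := by
  have hD' : (1 : ℝ) ≤ DN N := by exact_mod_cast hD
  have hD2 : (0 : ℝ) < (DN N : ℝ) ^ 2 := by positivity
  set M : ℝ := 1 / (4 * Real.pi ^ 2) * (((DN N : ℝ) ^ 2) ^ 4 * (24 * Real.exp (1 / (DN N : ℝ) ^ 2)))
    with hM
  refine Summable.of_nonneg_of_le (fun n => by positivity) (fun n => ?_) (hs.mul_left M)
  rw [HLM_g_sq N n hD]
  set x : ℝ := (n : ℝ) / (DN N : ℝ) ^ 2 with hx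
  have hx0 : 0 ≤ x := by positivity
  have h1 : (1 + (n : ℝ)) ^ 4 ≤ ((DN N : ℝ) ^ 2) ^ 4 *
      (24 * Real.exp (1 / (DN N : ℝ) ^ 2)) * Real.exp x := by
    have h2 := HLM_pow4 (x := (1 + (n : ℝ)) / (DN N : ℝ) ^ 2) (by positivity)
    have h3 : (1 + (n : ℝ)) ^ 4 = ((DN N : ℝ) ^ 2) ^ 4 * ((1 + (n : ℝ)) / (DN N : ℝ) ^ 2) ^ 4 := by
      rw [div_pow]
      field_simp
    have h4 : Real.exp ((1 + (n : ℝ)) / (DN N : ℝ) ^ 2) =
        Real.exp (1 / (DN N : ℝ) ^ 2) * Real.exp x := by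
      rw [← Real.exp_add, hx]
      congr 1
      field_simp
    rw [h3]
    calc ((DN N : ℝ) ^ 2) ^ 4 * ((1 + (n : ℝ)) / (DN N : ℝ) ^ 2) ^ 4
        ≤ ((DN N : ℝ) ^ 2) ^ 4 * (24 * Real.exp ((1 + (n : ℝ)) / (DN N : ℝ) ^ 2)) := by gcongr
      _ = _ := by
          rw [h4]
          ring
  have h5 : Real.exp (-(Real.pi * x)) * Real.exp x ≤ Real.exp (-x) := by
    rw [← Real.exp_add, Real.exp_le_exp]
    have := Real.pi_gt_three
    nlinarith
  have h6 : Real.exp (-(n : ℝ) / (DN N : ℝ) ^ 2) = Real.exp (-x) := by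
    rw [hx, neg_div]
  rw [h6]
  have hc : 0 ≤ cB (IN N) (KN N) n ^ 2 / n := by positivity
  calc 1 / (4 * Real.pi ^ 2) * (cB (IN N) (KN N) n ^ 2 / n * Real.exp (-(Real.pi * x))) *
        (1 + (n : ℝ)) ^ 4
      ≤ 1 / (4 * Real.pi ^ 2) * (cB (IN N) (KN N) n ^ 2 / n * Real.exp (-(Real.pi * x))) *
        (((DN N : ℝ) ^ 2) ^ 4 * (24 * Real.exp (1 / (DN N : ℝ) ^ 2)) * Real.exp x) := by gcongr
    _ = M * (cB (IN N) (KN N) n ^ 2 / n) * (Real.exp (-(Real.pi * x)) * Real.exp x) := by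
        rw [hM]
        ring
    _ ≤ M * (cB (IN N) (KN N) n ^ 2 / n) * Real.exp (-x) := by
        have hM0 : 0 ≤ M := by positivity
        gcongr
    _ = M * (cB (IN N) (KN N) n ^ 2 / n * Real.exp (-x)) := by ring

theorem HLM_tsum (N : ℕ) (hD : 1 ≤ DN N) (hDN : 16 * DN N ^ 4 ≤ N)
    (hs : Summable (fun n : ℕ => cB (IN N) (KN N) n ^ 2 / n *
      Real.exp (-n / (DN N : ℝ) ^ 2))) :
    ∑' n : ℕ, HLM_g N n ^ 2 * (1 + (n : ℝ) / N) ^ 2 ≤
      ∑' n : ℕ, cB (IN N) (KN N) n ^ 2 / n * Real.exp (-n / (DN N : ℝ) ^ 2) := by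
  have hD' : (1 : ℝ) ≤ DN N := by exact_mod_cast hD
  have hDN' : (DN N : ℝ) ^ 2 ≤ N := by
    have h1 : (16 : ℝ) * (DN N : ℝ) ^ 4 ≤ N := by exact_mod_cast hDN
    nlinarith [sq_nonneg ((DN N : ℝ) ^ 2), pow_le_pow_right₀ hD' (show 2 ≤ 4 by norm_num),
      pow_pos (lt_of_lt_of_le one_pos hD') 4]
  have hle : ∀ n : ℕ, HLM_g N n ^ 2 * (1 + (n : ℝ) / N) ^ 2 ≤
      cB (IN N) (KN N) n ^ 2 / n * Real.exp (-n / (DN N : ℝ) ^ 2) := by
    intro n
    rw [HLM_g_sq N n hD]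
    set x : ℝ := (n : ℝ) / (DN N : ℝ) ^ 2 with hx
    have hx0 : 0 ≤ x := by positivity
    have h1 : (n : ℝ) / N ≤ x := by
      rw [hx]
      gcongr
    have h2 : (1 + (n : ℝ) / N) ^ 2 ≤ (1 + x) ^ 2 := by
      gcongr
    have h6 : Real.exp (-(n : ℝ) / (DN N : ℝ) ^ 2) = Real.exp (-x) := by
      rw [hx, neg_div]
    rw [h6]
    have hc : 0 ≤ cB (IN N) (KN N) n ^ 2 / n := by positivity
    have hpi : 1 / (4 * Real.pi ^ 2) ≤ 1 := by
      rw [div_le_one (by positivity)]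
      nlinarith [Real.pi_gt_three]
    calc 1 / (4 * Real.pi ^ 2) * (cB (IN N) (KN N) n ^ 2 / n * Real.exp (-(Real.pi * x))) *
          (1 + (n : ℝ) / N) ^ 2
        ≤ 1 * (cB (IN N) (KN N) n ^ 2 / n * Real.exp (-(Real.pi * x))) * (1 + x) ^ 2 := by gcongr
      _ = cB (IN N) (KN N) n ^ 2 / n * (Real.exp (-(Real.pi * x)) * (1 + x) ^ 2) := by ring
      _ ≤ cB (IN N) (KN N) n ^ 2 / n * Real.exp (-x) := by
          have := HLM_exp hx0
          gcongr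
  refine Summable.tsum_le_tsum hle ?_ hs
  exact Summable.of_nonneg_of_le (fun n => by positivity) hle hs

/-- splitting of the geodesic integrals -/
theorem HLM_split {N : ℕ} [Fact N.Prime] {f : S2 N} (hf : IsNew f) (h1 : co f N = 1)
    (hI : ∀ p ∈ IN N, p.Prime ∧ p ≠ N) (V : ℝ) (hV : 0 < V) :
    MI f (IN N) (KN N) * Lh f = 4 * Real.pi *
      ((∑ B ∈ SB (IN N) (KN N), (wB (IN N) (KN N) B : ℂ) *
        ∑ j ∈ (Finset.range (mB B)).filter (fun j => (mB B).Coprime j),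
          ∫ v in (1 / ((mB B : ℝ) * Real.sqrt N))..V, ev f ((j : ℝ) / mB B) v) +
      ∑ B ∈ SB (IN N) (KN N), (wB (IN N) (KN N) B : ℂ) *
        ∑ j ∈ (Finset.range (mB B)).filter (fun j => (mB B).Coprime j),
          ∫ v in Set.Ioi V, ev f ((j : ℝ) / mB B) v) := by
  rw [lm_id hf h1 (IN N) hI (KN N), ← Finset.sum_add_distrib]
  congr 1
  refine Finset.sum_congr rfl fun B hB => ?_
  rw [← mul_add, ← Finset.sum_add_distrib]
  congr 1
  refine Finset.sum_congr rfl fun j hj => ?_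
  have hpos : 0 < mB B := Finset.prod_pos fun p hp => (hI p (HLM_sub hB hp)).1.pos
  have hcop : (mB B).Coprime N := by
    refine Nat.Coprime.prod_left fun p hp => ?_
    have h2 := hI p (HLM_sub hB hp)
    exact (Nat.coprime_primes h2.1 (Fact.out : N.Prime)).2 h2.2
  have hint := (geo_fold hf h1 hpos hcop).1 j (Finset.mem_filter.1 hj).2
  have hN : (0 : ℝ) < N := by exact_mod_cast (Fact.out : N.Prime).pos
  have ha : 0 < 1 / ((mB B : ℝ) * Real.sqrt N) := by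
    have : (0 : ℝ) < mB B := by exact_mod_cast hpos
    have := Real.sqrt_pos.2 hN
    positivity
  rw [intervalIntegral.integral_interval_add_Ioi]
  · exact hint.mono_set (Set.Ioi_subset_Ioi ha.le)
  · exact hint.mono_set (Set.Ioi_subset_Ioi hV.le)

theorem lm_second_pr : ∃ (C : ℝ) (N₀ : ℕ), 0 < C ∧ ∀ (N : ℕ) [Fact N.Prime], N₀ ≤ N →
    ∀ {ι : Type} [Fintype ι] (f : ι → S2 N), Function.Injective f → (∀ i, IsNew (f i)) →
      (∀ i, co (f i) N = 1) →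
      ∑ i, 1 / nr (f i) * ‖MI (f i) (IN N) (KN N) * Lh (f i)‖ ^ 2 ≤
        C * Real.log (Real.log N) ^ 7 / Real.log N ^ 2 := by
  obtain ⟨C1, hC1, hsmall⟩ := geo_small
  obtain ⟨C2, hC2, hls⟩ := ls_inf
  obtain ⟨C3, N3, heuw⟩ := euw
  obtain ⟨C4, N4, heuc⟩ := euc
  obtain ⟨N5, hpar⟩ := params
  refine ⟨32 * Real.pi ^ 2 * (2 * C1 * |C3| + C2 * |C4|) + 1, max N3 (max N4 N5), by positivity,
    ?_⟩
  intro N hNp hN ι _ f hinj hnew hone
  have hN3 : N3 ≤ N := (le_max_left _ _).trans hN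
  have hN4 : N4 ≤ N := ((le_max_left _ _).trans (le_max_right _ _)).trans hN
  have hN5 : N5 ≤ N := ((le_max_right _ _).trans (le_max_right _ _)).trans hN
  obtain ⟨hL2, hD, hDN, -, -, hmB, -, hIN⟩ := hpar N hN5
  have hI : ∀ p ∈ IN N, p.Prime ∧ p ≠ N := fun p hp => ⟨(hIN p hp).1, (hIN p hp).2.ne⟩
  have hI' : ∀ p ∈ IN N, p.Prime := fun p hp => (hIN p hp).1
  have hf0 : ∀ i, f i ≠ 0 := fun i => new_ne_zero (hnew i)
  have horth : ∀ i j, i ≠ j → pet (f i) (f j) = 0 := fun i j hij =>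
    new_orth (hnew i) (hnew j) fun h => hij (hinj h)
  have hnr : ∀ i, 0 < nr (f i) := fun i => nr_pos (hf0 i)
  have hD' : (1 : ℝ) ≤ DN N := by exact_mod_cast hD
  have hV : (0 : ℝ) < 1 / (4 * (DN N : ℝ) ^ 2) := by positivity
  set L1 : ℝ := Real.log N with hL1
  set L2 : ℝ := Real.log L1 with hL2'
  have hL1pos : 1 ≤ L1 := by
    by_contra hcon
    push Not at hcon
    rcases le_or_gt L1 0 with h | h
    · have h0 : L1 = 0 := le_antisymm h (Real.log_natCast_nonneg N)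
      rw [hL2', h0, Real.log_zero] at hL2
      norm_num at hL2
    · have := Real.log_neg h hcon
      linarith
  -- first part
  set S1 : ι → ℂ := fun i => ∑ B ∈ SB (IN N) (KN N), (wB (IN N) (KN N) B : ℂ) *
        ∑ j ∈ (Finset.range (mB B)).filter (fun j => (mB B).Coprime j),
          ∫ v in (1 / ((mB B : ℝ) * Real.sqrt N))..(1 / (4 * (DN N : ℝ) ^ 2)),
            ev (f i) ((j : ℝ) / mB B) v with hS1
  set S2 : ι → ℂ := fun i => ∑ B ∈ SB (IN N) (KN N), (wB (IN N) (KN N) B : ℂ) *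
        ∑ j ∈ (Finset.range (mB B)).filter (fun j => (mB B).Coprime j),
          ∫ v in Set.Ioi (1 / (4 * (DN N : ℝ) ^ 2)), ev (f i) ((j : ℝ) / mB B) v with hS2
  have hminj : Set.InjOn mB (SB (IN N) (KN N) : Set (Finset ℕ)) := by
    intro A hA B hB hAB
    rw [← HLM_pf hI' hA, ← HLM_pf hI' hB, hAB]
  have hB1 : ∑ i, 1 / nr (f i) * ‖S1 i‖ ^ 2 ≤ 2 * C1 * |C3| * (L2 ^ 7 / L1 ^ 2) := by
    have h1 := hsmall N f hf0 horth (DN N) hD hDN ((SB (IN N) (KN N)).image mB) (by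
      intro e he
      obtain ⟨B, hB, rfl⟩ := Finset.mem_image.1 he
      exact hmB B hB) (fun e => wB (IN N) (KN N) e.primeFactors)
    have h2 : ∀ i, ∑ e ∈ (SB (IN N) (KN N)).image mB,
        ((wB (IN N) (KN N) e.primeFactors : ℝ) : ℂ) *
        ∑ j ∈ (Finset.range e).filter (fun j => e.Coprime j),
        ∫ v in (1 / ((e : ℝ) * Real.sqrt N))..(1 / (4 * (DN N : ℝ) ^ 2)),
          ev (f i) ((j : ℝ) / e) v = S1 i := by
      intro i
      rw [Finset.sum_image hminj, hS1]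
      refine Finset.sum_congr rfl fun B hB => ?_
      rw [HLM_pf hI' hB]
    have h3 : ∑ e ∈ (SB (IN N) (KN N)).image mB,
        (e : ℝ) * wB (IN N) (KN N) e.primeFactors ^ 2 =
        ∑ B ∈ SB (IN N) (KN N), (mB B : ℝ) * wB (IN N) (KN N) B ^ 2 := by
      rw [Finset.sum_image hminj]
      refine Finset.sum_congr rfl fun B hB => ?_
      rw [HLM_pf hI' hB]
    simp only [h2, h3] at h1
    have h4 := heuw N hN3
    have h5 : ∑ B ∈ SB (IN N) (KN N), (mB B : ℝ) * wB (IN N) (KN N) B ^ 2 ≤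
        |C3| * L2 ^ 7 / L1 ^ 3 := by
      refine h4.trans ?_
      have : 0 ≤ L2 ^ 7 := by positivity
      have := le_abs_self C3
      gcongr
    calc ∑ i, 1 / nr (f i) * ‖S1 i‖ ^ 2
        ≤ C1 * (1 + L1) * ∑ B ∈ SB (IN N) (KN N), (mB B : ℝ) * wB (IN N) (KN N) B ^ 2 := h1
      _ ≤ C1 * (2 * L1) * (|C3| * L2 ^ 7 / L1 ^ 3) := by
          have : 0 ≤ ∑ B ∈ SB (IN N) (KN N), (mB B : ℝ) * wB (IN N) (KN N) B ^ 2 :=
            Finset.sum_nonneg fun B _ => by positivity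
          gcongr
          linarith
      _ = 2 * C1 * |C3| * (L2 ^ 7 / L1 ^ 2) := by
          field_simp
  have hB2 : ∑ i, 1 / nr (f i) * ‖S2 i‖ ^ 2 ≤ C2 * |C4| * (L2 ^ 7 / L1 ^ 2) := by
    obtain ⟨hs, hsle⟩ := heuc N hN4
    have h1 := hls N f hf0 horth (HLM_g N) (HLM_summ N hD hs)
    have h2 : ∀ i, ∑' n : ℕ, (HLM_g N n : ℂ) * (co (f i) n / (Real.sqrt n : ℂ)) = S2 i := by
      intro i
      rw [hS2]
      simp only
      rw [geo_large (f i) (IN N) hI' (KN N) hV]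
      rfl
    simp only [h2] at h1
    calc ∑ i, 1 / nr (f i) * ‖S2 i‖ ^ 2
        ≤ C2 * ∑' n : ℕ, HLM_g N n ^ 2 * (1 + (n : ℝ) / N) ^ 2 := h1
      _ ≤ C2 * (|C4| * L2 ^ 7 / L1 ^ 2) := by
          have h3 := HLM_tsum N hD hDN hs
          have h4 : C4 * L2 ^ 7 / L1 ^ 2 ≤ |C4| * L2 ^ 7 / L1 ^ 2 := by
            have : 0 ≤ L2 ^ 7 := by positivity
            have := le_abs_self C4
            gcongr
          exact mul_le_mul_of_nonneg_left (h3.trans (hsle.trans h4)) hC2.le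
      _ = C2 * |C4| * (L2 ^ 7 / L1 ^ 2) := by ring
  have hmain : ∀ i, ‖MI (f i) (IN N) (KN N) * Lh (f i)‖ ^ 2 ≤
      32 * Real.pi ^ 2 * (‖S1 i‖ ^ 2 + ‖S2 i‖ ^ 2) := by
    intro i
    rw [HLM_split (hnew i) (hone i) hI _ hV]
    change ‖4 * (Real.pi : ℂ) * (S1 i + S2 i)‖ ^ 2 ≤ _
    rw [norm_mul, norm_mul, Complex.norm_real, Real.norm_of_nonneg Real.pi_pos.le]
    have h4 : ‖(4 : ℂ)‖ = 4 := by simp
    rw [h4]
    have h5 := norm_add_le (S1 i) (S2 i)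
    have h6 : ‖S1 i + S2 i‖ ^ 2 ≤ 2 * (‖S1 i‖ ^ 2 + ‖S2 i‖ ^ 2) := by
      have h7 := norm_nonneg (S1 i + S2 i)
      nlinarith [sq_nonneg (‖S1 i‖ - ‖S2 i‖)]
    have h8 : 0 ≤ Real.pi ^ 2 := by positivity
    calc (4 * Real.pi * ‖S1 i + S2 i‖) ^ 2 = 16 * Real.pi ^ 2 * ‖S1 i + S2 i‖ ^ 2 := by ring
      _ ≤ 16 * Real.pi ^ 2 * (2 * (‖S1 i‖ ^ 2 + ‖S2 i‖ ^ 2)) := by gcongr
      _ = _ := by ring
  calc ∑ i, 1 / nr (f i) * ‖MI (f i) (IN N) (KN N) * Lh (f i)‖ ^ 2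
      ≤ ∑ i, 1 / nr (f i) * (32 * Real.pi ^ 2 * (‖S1 i‖ ^ 2 + ‖S2 i‖ ^ 2)) := by
        refine Finset.sum_le_sum fun i _ => ?_
        have := hnr i
        have := hmain i
        gcongr
    _ = 32 * Real.pi ^ 2 * (∑ i, 1 / nr (f i) * ‖S1 i‖ ^ 2 + ∑ i, 1 / nr (f i) * ‖S2 i‖ ^ 2) := by
        rw [← Finset.sum_add_distrib, Finset.mul_sum]
        refine Finset.sum_congr rfl fun i _ => ?_
        ring
    _ ≤ 32 * Real.pi ^ 2 * (2 * C1 * |C3| * (L2 ^ 7 / L1 ^ 2) + C2 * |C4| * (L2 ^ 7 / L1 ^ 2)) := by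
        gcongr
    _ ≤ (32 * Real.pi ^ 2 * (2 * C1 * |C3| + C2 * |C4|) + 1) * L2 ^ 7 / L1 ^ 2 := by
        have : 0 ≤ L2 ^ 7 / L1 ^ 2 := by positivity
        have h9 : (32 * Real.pi ^ 2 * (2 * C1 * |C3| + C2 * |C4|) + 1) * L2 ^ 7 / L1 ^ 2 =
            32 * Real.pi ^ 2 * (2 * C1 * |C3| * (L2 ^ 7 / L1 ^ 2) + C2 * |C4| * (L2 ^ 7 / L1 ^ 2)) +
              L2 ^ 7 / L1 ^ 2 := by ring
        rw [h9]
        linarith

theorem lm_second : type_of% @lm_second_pr := @lm_second_pr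

end Pool.Agent.LEV
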