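import Pool.Agent.Lib_helper68.LEV.DefsC

/-! Block MIE (helper8). -/

namespace Pool.Agent.LEV

open Complex MeasureTheory Filter Topology UpperHalfPlane ModularGroup
open scoped MatrixGroups Modular ENNReal ModularForm ComplexConjugate ContDiff

theorem MIE_co_mB {N : ℕ} {f : S2 N} (hf : IsNew f) (B : Finset ℕ) :
    (∀ p ∈ B, p.Prime) → co f (mB B) = ∏ p ∈ B, co f p := by
  classical
  induction B using Finset.induction_on with
  | empty =>
    intro _
    rw [mB, Finset.prod_empty, Finset.prod_empty, hf.one]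
  | insert p B hp ih =>
    intro h
    have hB : ∀ q ∈ B, q.Prime := fun q hq => h q (Finset.mem_insert_of_mem hq)
    have hpp : p.Prime := h p (Finset.mem_insert_self _ _)
    have hcop : p.Coprime (mB B) := by
      rw [mB]
      apply Nat.Coprime.prod_right
      intro q hq
      rw [Nat.coprime_primes hpp (hB q hq)]
      rintro rfl
      exact hp hq
    have h1 : mB (insert p B) = p * mB B := by
      rw [mB, mB, Finset.prod_insert hp]
    rw [h1, hf.mul _ _ hcop, ih hB, Finset.prod_insert hp]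

theorem MIE_term {N : ℕ} {f : S2 N} (hf : IsNew f) (hr : ∀ n, (co f n).im = 0) (B : Finset ℕ)
    (hB : ∀ p ∈ B, p.Prime) :
    co f (mB B) / (mB B : ℂ) = ((∏ p ∈ B, ((co f p).re / p) : ℝ) : ℂ) := by
  rw [MIE_co_mB hf B hB, mB, Nat.cast_prod, ← Finset.prod_div_distrib, ofReal_prod]
  refine Finset.prod_congr rfl fun p _ => ?_
  have : co f p = ((co f p).re : ℂ) := by
    apply Complex.ext
    · simp
    · simp [hr p]
  rw [ofReal_div, ofReal_natCast, ← this]

theorem mi_eq_pr {N : ℕ} {f : S2 N} (hf : IsNew f) (hr : ∀ n, (co f n).im = 0) (I : Finset ℕ)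
    (hI : ∀ p ∈ I, p.Prime) (K : ℕ) :
    MI f I K = ((∑ B ∈ SB I K, (-1) ^ B.card * ∏ p ∈ B, ((co f p).re / p) : ℝ) : ℂ) := by
  rw [MI, ofReal_sum]
  refine Finset.sum_congr rfl fun B hB => ?_
  rw [SB, Finset.mem_filter, Finset.mem_powerset] at hB
  rw [MIE_term hf hr B (fun p hp => hI p (hB.1 hp)), ofReal_mul, ofReal_pow, ofReal_neg,
    ofReal_one]

theorem mi_eq : type_of% @mi_eq_pr := @mi_eq_pr

end Pool.Agent.LEV
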