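import Pool.Agent.Lib_helper68.LEV.DefsC

/-! Block MLB (helper80): a lower bound for the truncated mollifier. -/

namespace Pool.Agent.LEV

open Finset

/-- elementary symmetric functions -/
noncomputable def MLB_e (I : Finset ℕ) (x : ℕ → ℝ) (j : ℕ) : ℝ :=
  ∑ B ∈ I.powersetCard j, ∏ p ∈ B, x p

theorem MLB_geom {n : ℕ} (hn : 0 < n) {ω : ℂ} (hω : IsPrimitiveRoot ω n) (m : ℕ) :
    ∑ k ∈ range n, (ω ^ m) ^ k = if n ∣ m then (n : ℂ) else 0 := by
  split_ifs with h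
  · have h1 : ω ^ m = 1 := (hω.pow_eq_one_iff_dvd m).2 h
    simp [h1]
  · have h1 : ω ^ m ≠ 1 := fun h2 => h ((hω.pow_eq_one_iff_dvd m).1 h2)
    have h2 := mul_neg_geom_sum (ω ^ m) n
    have h3 : (ω ^ m) ^ n = 1 := by
      rw [← pow_mul, mul_comm, pow_mul, hω.pow_eq_one, one_pow]
    rw [h3, sub_self] at h2
    exact (mul_eq_zero.1 h2).resolve_left (sub_ne_zero.2 h1.symm)

/-- Cauchy's estimate for the elementary symmetric functions -/
theorem MLB_coef (I : Finset ℕ) (x : ℕ → ℝ) {j : ℕ} (hj : j ≤ I.card) {ρ M : ℝ} (hρ : 0 < ρ)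
    (hM : ∀ ζ : ℂ, ‖ζ‖ = ρ → ‖∏ p ∈ I, (1 + ζ * (x p : ℂ))‖ ≤ M) :
    |MLB_e I x j| * ρ ^ j ≤ M := by
  set n := I.card + 1 with hn
  have hn0 : 0 < n := by omega
  set ω : ℂ := Complex.exp (2 * Real.pi * Complex.I / n) with hωdef
  have hω : IsPrimitiveRoot ω n := Complex.isPrimitiveRoot_exp n hn0.ne'
  have hω1 : ‖ω‖ = 1 := hω.norm'_eq_one hn0.ne'
  set S : ℂ := ∑ k ∈ range n, ω ^ (k * (n - j)) * ∏ p ∈ I, (1 + (ρ * ω ^ k) * (x p : ℂ)) with hS
  have h1 : ‖S‖ ≤ n * M := by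
    refine (norm_sum_le _ _).trans ?_
    have h2 : ∀ k ∈ range n, ‖ω ^ (k * (n - j)) * ∏ p ∈ I, (1 + (ρ * ω ^ k) * (x p : ℂ))‖ ≤ M := by
      intro k _
      rw [norm_mul, norm_pow, hω1, one_pow, one_mul]
      apply hM
      rw [norm_mul, norm_pow, hω1, one_pow, mul_one, Complex.norm_real, Real.norm_of_nonneg hρ.le]
    refine (sum_le_sum h2).trans ?_
    rw [sum_const, card_range, nsmul_eq_mul]
  have h3 : S = n * (ρ ^ j * (MLB_e I x j : ℂ)) := by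
    have h4 : ∀ k, ω ^ (k * (n - j)) * ∏ p ∈ I, (1 + (ρ * ω ^ k) * (x p : ℂ)) =
        ∑ B ∈ I.powerset, (ρ : ℂ) ^ B.card * (∏ p ∈ B, (x p : ℂ)) * (ω ^ (n - j + B.card)) ^ k := by
      intro k
      rw [prod_one_add, mul_sum]
      refine sum_congr rfl fun B _ => ?_
      rw [prod_mul_distrib, prod_const, mul_pow, ← pow_mul, ← pow_mul, add_mul, pow_add,
        mul_comm k (n - j), mul_comm k B.card]
      ring
    rw [hS]
    simp_rw [h4]
    rw [sum_comm]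
    have h5 : ∀ B ∈ I.powerset, ∑ k ∈ range n, (ρ : ℂ) ^ B.card * (∏ p ∈ B, (x p : ℂ)) *
        (ω ^ (n - j + B.card)) ^ k =
        if B.card = j then (n : ℂ) * (ρ ^ j * ∏ p ∈ B, (x p : ℂ)) else 0 := by
      intro B hB
      rw [← mul_sum, MLB_geom hn0 hω]
      have hBc : B.card ≤ I.card := card_le_card (mem_powerset.1 hB)
      by_cases h6 : B.card = j
      · rw [if_pos h6, if_pos, h6]
        · ring
        · rw [h6]
          exact ⟨1, by omega⟩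
      · rw [if_neg h6, if_neg, mul_zero]
        rintro ⟨c, hc⟩
        have hc1 : c ≠ 0 := by
          rintro rfl
          omega
        have hc2 : c = 1 := by
          by_contra h7
          have : n * 2 ≤ n * c := Nat.mul_le_mul_left n (by omega)
          omega
        subst hc2
        omega
    rw [sum_congr rfl h5, ← sum_filter, MLB_e]
    have h7 : I.powerset.filter (fun B => B.card = j) = I.powersetCard j := by
      ext B
      simp [mem_powersetCard]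
    rw [h7]
    push_cast
    rw [mul_sum, mul_sum]
  rw [h3, norm_mul, norm_mul, norm_pow, Complex.norm_natCast, Complex.norm_real, Complex.norm_real,
    Real.norm_of_nonneg hρ.le, Real.norm_eq_abs] at h1
  have hnR : (0 : ℝ) < n := by exact_mod_cast hn0
  have h8 := le_of_mul_le_mul_left h1 hnR
  linarith [mul_comm (ρ ^ j) |MLB_e I x j|]

/-- the product on a circle -/
theorem MLB_circle (I : Finset ℕ) (x : ℕ → ℝ) {ρ : ℝ} (hρ : 0 ≤ ρ) (ζ : ℂ) (hζ : ‖ζ‖ = ρ) :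
    ‖∏ p ∈ I, (1 + ζ * (x p : ℂ))‖ ≤
      Real.exp (ρ * |∑ p ∈ I, x p| + ρ ^ 2 * (∑ p ∈ I, x p ^ 2) / 2) := by
  have h1 : ∀ p, ‖1 + ζ * (x p : ℂ)‖ ^ 2 ≤ Real.exp (2 * ζ.re * x p + ρ ^ 2 * x p ^ 2) := by
    intro p
    have h2 : ‖1 + ζ * (x p : ℂ)‖ ^ 2 = 1 + 2 * ζ.re * x p + ρ ^ 2 * x p ^ 2 := by
      have h3 : ρ ^ 2 = ζ.re ^ 2 + ζ.im ^ 2 := by
        rw [← hζ, ← Complex.normSq_eq_norm_sq, Complex.normSq_apply]
        ring
      rw [← Complex.normSq_eq_norm_sq, Complex.normSq_apply, h3]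
      simp only [Complex.add_re, Complex.one_re, Complex.mul_re, Complex.ofReal_re,
        Complex.ofReal_im, Complex.add_im, Complex.one_im, Complex.mul_im]
      ring
    rw [h2]
    have := Real.add_one_le_exp (2 * ζ.re * x p + ρ ^ 2 * x p ^ 2)
    linarith
  have h4 : ‖∏ p ∈ I, (1 + ζ * (x p : ℂ))‖ ^ 2 ≤
      Real.exp (ρ * |∑ p ∈ I, x p| + ρ ^ 2 * (∑ p ∈ I, x p ^ 2) / 2) ^ 2 := by
    rw [norm_prod, ← prod_pow]
    refine (prod_le_prod (fun p _ => by positivity) fun p _ => h1 p).trans ?_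
    rw [← Real.exp_sum, ← Real.exp_nat_mul]
    apply Real.exp_le_exp.2
    rw [sum_add_distrib, ← mul_sum, ← mul_sum]
    have h5 : ζ.re * ∑ p ∈ I, x p ≤ ρ * |∑ p ∈ I, x p| := by
      refine (le_abs_self _).trans ?_
      rw [abs_mul]
      exact mul_le_mul_of_nonneg_right ((Complex.abs_re_le_norm ζ).trans hζ.le) (abs_nonneg _)
    push_cast
    nlinarith
  exact le_of_sq_le_sq h4 (Real.exp_pos _).le

theorem MLB_log {x : ℝ} (hx : |x| ≤ 1 / 2) : Real.exp (-x - x ^ 2 / 2 - |x| ^ 3) ≤ 1 - x := by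
  have h1 : |x| < 1 := by linarith
  have hx1 : 0 < 1 - x := by linarith [le_abs_self x]
  have h2 := Real.abs_log_sub_add_sum_range_le h1 4
  rw [← Real.le_log_iff_exp_le hx1]
  have h3 : |x| ^ (4 + 1) / (1 - |x|) ≤ 2 * |x| ^ 5 := by
    rw [div_le_iff₀ (by linarith)]
    have h5 : 0 ≤ |x| ^ 5 := by positivity
    calc |x| ^ (4 + 1) = |x| ^ 5 * 1 := by ring
      _ ≤ |x| ^ 5 * (2 * (1 - |x|)) := mul_le_mul_of_nonneg_left (by linarith) h5
      _ = 2 * |x| ^ 5 * (1 - |x|) := by ring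
  have h4 := (abs_le.1 (h2.trans h3)).1
  simp only [sum_range_succ, sum_range_zero] at h4
  norm_num at h4
  have h0 := abs_nonneg x
  have h5 : |x| ^ 5 ≤ 1 / 4 * |x| ^ 3 := by
    have : |x| ^ 2 ≤ 1 / 4 := by nlinarith
    have h6 : |x| ^ 5 = |x| ^ 3 * |x| ^ 2 := by ring
    rw [h6]
    have : 0 ≤ |x| ^ 3 := by positivity
    nlinarith
  have h6 : x ^ 4 ≤ 1 / 2 * |x| ^ 3 := by
    have h7 : x ^ 4 = |x| ^ 3 * |x| := by
      have : x ^ 4 = |x| ^ 4 := by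
        rw [show (4 : ℕ) = 2 * 2 by norm_num, pow_mul, pow_mul, sq_abs]
      rw [this]
      ring
    rw [h7]
    have : 0 ≤ |x| ^ 3 := by positivity
    nlinarith
  have h7 : x ^ 3 ≤ |x| ^ 3 := by
    rw [← abs_pow]
    exact le_abs_self _
  have h8 : 0 ≤ |x| ^ 3 := by positivity
  linarith

theorem MLB_main (I : Finset ℕ) (x : ℕ → ℝ) (hx : ∀ p ∈ I, |x p| ≤ 1 / 2) :
    Real.exp (-∑ p ∈ I, x p - (∑ p ∈ I, x p ^ 2) / 2 - ∑ p ∈ I, |x p| ^ 3) ≤
      ∑ B ∈ I.powerset, (-1) ^ B.card * ∏ p ∈ B, x p := by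
  have h1 : ∑ B ∈ I.powerset, (-1) ^ B.card * ∏ p ∈ B, x p = ∏ p ∈ I, (1 + -x p) := by
    rw [prod_one_add]
    refine sum_congr rfl fun B _ => ?_
    rw [prod_neg]
  rw [h1]
  have h2 : Real.exp (-∑ p ∈ I, x p - (∑ p ∈ I, x p ^ 2) / 2 - ∑ p ∈ I, |x p| ^ 3) =
      ∏ p ∈ I, Real.exp (-x p - x p ^ 2 / 2 - |x p| ^ 3) := by
    rw [← Real.exp_sum, sum_sub_distrib, sum_sub_distrib, sum_neg_distrib, sum_div]
  rw [h2]
  refine prod_le_prod (fun p _ => (Real.exp_pos _).le) fun p hp => ?_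
  have := MLB_log (hx p hp)
  linarith

/-- block MLB -/
theorem m_lower_pr (I : Finset ℕ) (x : ℕ → ℝ) (hx : ∀ p ∈ I, |x p| ≤ 1 / 2) (K : ℕ)
    (hK : 4 * |∑ p ∈ I, x p| + 5 * ∑ p ∈ I, x p ^ 2 + ∑ p ∈ I, |x p| ^ 3 + 1 ≤ K) :
    1 / 2 * Real.exp (-∑ p ∈ I, x p - (∑ p ∈ I, x p ^ 2) / 2 - ∑ p ∈ I, |x p| ^ 3) ≤
      |∑ B ∈ SB I K, (-1) ^ B.card * ∏ p ∈ B, x p| := by
  set P := ∑ p ∈ I, x p with hP
  set Q := ∑ p ∈ I, x p ^ 2 with hQ
  set S3 := ∑ p ∈ I, |x p| ^ 3 with hS3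
  set W := Real.exp (-P - Q / 2 - S3) with hW
  have hmain : W ≤ ∑ B ∈ I.powerset, (-1) ^ B.card * ∏ p ∈ B, x p := MLB_main I x hx
  -- split off the tail
  have hsplit : ∑ B ∈ SB I K, (-1) ^ B.card * ∏ p ∈ B, x p =
      ∑ B ∈ I.powerset, (-1) ^ B.card * ∏ p ∈ B, x p -
      ∑ B ∈ I.powerset.filter (fun B => ¬ B.card ≤ K), (-1) ^ B.card * ∏ p ∈ B, x p := by
    rw [SB, ← sum_filter_add_sum_filter_not I.powerset (fun B => B.card ≤ K)]
    ring
  have htail : |∑ B ∈ I.powerset.filter (fun B => ¬ B.card ≤ K), (-1) ^ B.card * ∏ p ∈ B, x p| ≤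
      ∑ j ∈ Ico (K + 1) (I.card + 1), |MLB_e I x j| := by
    have h1 : ∑ B ∈ I.powerset.filter (fun B => ¬ B.card ≤ K), (-1) ^ B.card * ∏ p ∈ B, x p =
        ∑ j ∈ Ico (K + 1) (I.card + 1), (-1) ^ j * MLB_e I x j := by
      rw [sum_filter, sum_powerset]
      have h2 : ∀ j ∈ range (I.card + 1), ∑ B ∈ powersetCard j I,
          (if ¬ B.card ≤ K then (-1) ^ B.card * ∏ p ∈ B, x p else 0) =
          if ¬ j ≤ K then (-1) ^ j * MLB_e I x j else 0 := by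
        intro j _
        have h3 : ∀ B ∈ powersetCard j I,
            (if ¬ B.card ≤ K then (-1 : ℝ) ^ B.card * ∏ p ∈ B, x p else 0) =
            if ¬ j ≤ K then (-1) ^ j * ∏ p ∈ B, x p else 0 := by
          intro B hB
          rw [(mem_powersetCard.1 hB).2]
        rw [sum_congr rfl h3]
        split_ifs
        · exact sum_const_zero
        · rw [MLB_e, mul_sum]
      rw [sum_congr rfl h2, ← sum_filter]
      refine sum_congr ?_ fun _ _ => rfl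
      ext j
      simp only [mem_filter, mem_range, mem_Ico]
      omega
    rw [h1]
    refine (abs_sum_le_sum_abs _ _).trans (le_of_eq ?_)
    refine sum_congr rfl fun j _ => ?_
    rw [abs_mul, abs_pow, abs_neg, abs_one, one_pow, one_mul]
  set ρ := Real.exp 1 with hρ
  have hρ1 : 2.7182818283 < ρ := Real.exp_one_gt_d9
  have hρ2 : ρ < 2.7182818286 := Real.exp_one_lt_d9
  have hρ0 : 0 < ρ := Real.exp_pos 1
  set M := Real.exp (ρ * |P| + ρ ^ 2 * Q / 2) with hM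
  have hcoef : ∀ j ∈ Ico (K + 1) (I.card + 1), |MLB_e I x j| ≤ M * ρ⁻¹ ^ j := by
    intro j hj
    have h1 := MLB_coef I x (j := j) (by have := (mem_Ico.1 hj).2; omega) hρ0
      (MLB_circle I x hρ0.le)
    rw [inv_pow, ← div_eq_mul_inv, le_div_iff₀ (by positivity)]
    exact h1
  have hsum : ∑ j ∈ Ico (K + 1) (I.card + 1), |MLB_e I x j| ≤ M * (ρ⁻¹ ^ (K + 1) / (1 - ρ⁻¹)) := by
    refine (sum_le_sum hcoef).trans ?_
    rw [← mul_sum]
    refine mul_le_mul_of_nonneg_left ?_ (Real.exp_pos _).le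
    apply geom_sum_Ico_le_of_lt_one (inv_nonneg.2 hρ0.le)
    rw [inv_lt_one₀ hρ0]
    linarith
  have hfin : M * (ρ⁻¹ ^ (K + 1) / (1 - ρ⁻¹)) ≤ 1 / 2 * W := by
    have h1 : ρ⁻¹ ^ (K + 1) / (1 - ρ⁻¹) = Real.exp (-(K : ℝ)) / (ρ - 1) := by
      have h2 : Real.exp (-(K : ℝ)) = ρ⁻¹ ^ K := by
        rw [hρ, ← Real.exp_neg, ← Real.exp_nat_mul]
        congr 1
        ring
      rw [h2, pow_succ]
      have h3 : ρ - 1 ≠ 0 := by linarith
      have h4 : 1 - ρ⁻¹ ≠ 0 := by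
        have : ρ⁻¹ < 1 := by
          rw [inv_lt_one₀ hρ0]
          linarith
        linarith
      field_simp
    rw [h1]
    have h5 : Real.exp (-(K : ℝ)) / (ρ - 1) ≤ 1 / 2 * Real.exp (1 - K) := by
      rw [div_le_iff₀ (by linarith), sub_eq_add_neg 1 (K : ℝ), Real.exp_add, ← hρ]
      have h6 : 0 < Real.exp (-(K : ℝ)) := Real.exp_pos _
      have h7 : 1 ≤ 1 / 2 * (ρ * (ρ - 1)) := by nlinarith
      calc Real.exp (-(K : ℝ)) = Real.exp (-(K : ℝ)) * 1 := by ring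
        _ ≤ Real.exp (-(K : ℝ)) * (1 / 2 * (ρ * (ρ - 1))) := mul_le_mul_of_nonneg_left h7 h6.le
        _ = 1 / 2 * (ρ * Real.exp (-(K : ℝ))) * (ρ - 1) := by ring
    calc M * (Real.exp (-(K : ℝ)) / (ρ - 1)) ≤ M * (1 / 2 * Real.exp (1 - K)) :=
          mul_le_mul_of_nonneg_left h5 (Real.exp_pos _).le
      _ = 1 / 2 * Real.exp (ρ * |P| + ρ ^ 2 * Q / 2 + (1 - K)) := by
          rw [hM, Real.exp_add (ρ * |P| + ρ ^ 2 * Q / 2)]
          ring
      _ ≤ 1 / 2 * W := by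
          refine mul_le_mul_of_nonneg_left (Real.exp_le_exp.2 ?_) (by norm_num)
          have hQ0 : 0 ≤ Q := sum_nonneg fun p _ => sq_nonneg _
          have hP0 : 0 ≤ |P| := abs_nonneg _
          have hP1 : P ≤ |P| := le_abs_self _
          have hS0 : 0 ≤ S3 := sum_nonneg fun p _ => by positivity
          have h7 : ρ * |P| ≤ 3 * |P| := mul_le_mul_of_nonneg_right (by linarith) hP0
          have h8 : ρ ^ 2 * Q ≤ 8 * Q := by
            refine mul_le_mul_of_nonneg_right ?_ hQ0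
            nlinarith
          linarith
  rw [hsplit]
  have hT := htail.trans (hsum.trans hfin)
  have h9 := abs_le.1 hT
  refine le_trans ?_ (le_abs_self _)
  linarith [h9.2]

theorem m_lower : type_of% @m_lower_pr := @m_lower_pr

end Pool.Agent.LEV
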