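import Pool.Agent.Lib_helper68.LEV.DefsC
import Pool.Agent.Lib_helper68.LEV.EIA
import Pool.Agent.Lib_helper68.LEV.HLM
import Pool.Agent.Lib_helper68.LEV.HMO
import Pool.Agent.Lib_helper68.LEV.MIE
import Pool.Agent.Lib_helper68.LEV.MLB
import Pool.Agent.Lib_helper68.LEV.PET
import Pool.Agent.Lib_helper68.LEV.PRM

/-! Block HAR (helper8): almost every even central value is small (harmonic weights). -/

namespace Pool.Agent.LEV

open Complex MeasureTheory Filter Topology UpperHalfPlane ModularGroup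
open scoped MatrixGroups Modular ENNReal ModularForm ComplexConjugate ContDiff

/-- Chebyshev -/
theorem HAR_cheb {ι : Type} [Fintype ι] (w g : ι → ℝ) (hw : ∀ i, 0 ≤ w i) (hg : ∀ i, 0 ≤ g i)
    {t M : ℝ} (ht : 0 < t) (h : ∑ i, w i * g i ≤ M) (s : Finset ι) (hs : ∀ i ∈ s, t ≤ g i) :
    ∑ i ∈ s, w i ≤ M / t := by
  rw [le_div_iff₀ ht]
  calc (∑ i ∈ s, w i) * t = ∑ i ∈ s, w i * t := Finset.sum_mul _ _ _
    _ ≤ ∑ i ∈ s, w i * g i := Finset.sum_le_sum fun i hi =>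
        mul_le_mul_of_nonneg_left (hs i hi) (hw i)
    _ ≤ ∑ i, w i * g i := Finset.sum_le_sum_of_subset_of_nonneg (Finset.subset_univ _)
        (fun i _ _ => mul_nonneg (hw i) (hg i))
    _ ≤ M := h

theorem HAR_loglog : Tendsto (fun N : ℕ => Real.log (Real.log N)) atTop atTop :=
  Real.tendsto_log_atTop.comp (Real.tendsto_log_atTop.comp tendsto_natCast_atTop_atTop)

/-- the deterministic estimate -/
theorem HAR_det {ε : ℝ} (hε : 0 < ε) : ∃ L₀ : ℝ, ∀ (L P Q S S3 X V Mv : ℝ), L₀ ≤ L → 16 ≤ L →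
    S ≤ L → |Q - S| ≤ 1 → X ≤ (min ε 1 / 8) ^ 2 → 0 ≤ X → 0 ≤ Q → 0 ≤ S3 →
    S3 ^ 2 ≤ Q * X → 1 / 2 * Real.exp (-P - Q / 2 - S3) ≤ Mv →
    Mv * V ≤ L ^ 5 / Real.exp L → 0 ≤ V →
    V ≤ Real.exp (-L / 2 + P + ε * Real.sqrt L) := by
  -- `log 2 + 5 log L + 1/2 ≤ (ε/2) √L` for large `L`
  have hlim : Tendsto (fun L : ℝ => (Real.log 2 + 5 * Real.log L + 1 / 2) / Real.sqrt L)
      atTop (𝓝 0) := by
    have h1 : Tendsto (fun L : ℝ => Real.log L / Real.sqrt L) atTop (𝓝 0) := by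
      have := isLittleO_log_rpow_atTop (r := (1 / 2 : ℝ)) (by norm_num)
      have h2 := this.tendsto_div_nhds_zero
      refine h2.congr fun x => ?_
      rw [Real.sqrt_eq_rpow]
    have h2 : Tendsto (fun L : ℝ => (Real.log 2 + 1 / 2) / Real.sqrt L) atTop (𝓝 0) :=
      tendsto_const_nhds.div_atTop (Real.tendsto_sqrt_atTop)
    have h3 := h2.add (h1.const_mul 5)
    simp only [mul_zero, add_zero] at h3
    refine h3.congr fun x => ?_
    ring
  have hev : ∀ᶠ L : ℝ in atTop, (Real.log 2 + 5 * Real.log L + 1 / 2) / Real.sqrt L < ε / 2 :=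
    hlim.eventually (eventually_lt_nhds (by positivity))
  obtain ⟨L₀, hL₀⟩ := eventually_atTop.1 hev
  refine ⟨L₀, fun L P Q S S3 X V Mv hL hL16 hS hQS hX hX0 hQ0 hS30 hS3 hM hMV hV => ?_⟩
  have hLpos : 0 < L := by linarith
  have hsq : 0 < Real.sqrt L := Real.sqrt_pos.2 hLpos
  have h1 := hL₀ L hL
  rw [div_lt_iff₀ hsq] at h1
  have hQ : Q ≤ L + 1 := by
    have := (abs_le.1 hQS).2
    linarith
  -- `S3 ≤ (ε/4) √L`
  have hS3' : S3 ≤ ε / 4 * Real.sqrt L := by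
    have hm : 0 < min ε 1 := lt_min hε one_pos
    have hme : min ε 1 ≤ ε := min_le_left _ _
    have h2 : S3 ^ 2 ≤ (ε / 4 * Real.sqrt L) ^ 2 := by
      have h3 : Q * X ≤ (2 * L) * (min ε 1 / 8) ^ 2 := by
        apply mul_le_mul _ hX hX0 (by linarith)
        linarith
      have h4 : (ε / 4 * Real.sqrt L) ^ 2 = ε ^ 2 / 16 * L := by
        rw [mul_pow, Real.sq_sqrt hLpos.le]; ring
      have h5 : (min ε 1) ^ 2 ≤ ε ^ 2 := pow_le_pow_left₀ hm.le hme 2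
      rw [h4]
      nlinarith
    exact (abs_le_of_sq_le_sq' h2 (by positivity)).2
  -- conclusion
  have h6 : V ≤ L ^ 5 / Real.exp L * (2 * Real.exp (P + Q / 2 + S3)) := by
    have h7 : (1 / 2 * Real.exp (-P - Q / 2 - S3)) * V ≤ L ^ 5 / Real.exp L :=
      (mul_le_mul_of_nonneg_right hM hV).trans hMV
    have h8 : Real.exp (-P - Q / 2 - S3) * Real.exp (P + Q / 2 + S3) = 1 := by
      rw [← Real.exp_add, show -P - Q / 2 - S3 + (P + Q / 2 + S3) = 0 by ring, Real.exp_zero]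
    calc V = (1 / 2 * Real.exp (-P - Q / 2 - S3)) * V * (2 * Real.exp (P + Q / 2 + S3)) := by
          linear_combination (-V) * h8
      _ ≤ _ := mul_le_mul_of_nonneg_right h7 (by positivity)
  have h9 : L ^ 5 / Real.exp L * (2 * Real.exp (P + Q / 2 + S3)) =
      Real.exp (Real.log 2 + 5 * Real.log L - L + (P + Q / 2 + S3)) := by
    generalize P + Q / 2 + S3 = A
    have h10 : Real.exp (5 * Real.log L) = L ^ 5 := by
      rw [mul_comm, Real.exp_mul, Real.exp_log hLpos]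
      norm_cast
    rw [Real.exp_add _ A, Real.exp_sub, Real.exp_add, Real.exp_log (by norm_num : (0 : ℝ) < 2), h10]
    ring
  rw [h9] at h6
  refine h6.trans (Real.exp_le_exp.2 ?_)
  nlinarith [h1, hS3', hQ]

/-- **HAR.** -/
theorem harm_main_pr {ε : ℝ} (hε : 0 < ε) : ∃ N₀ : ℕ, ∀ (N : ℕ) [Fact N.Prime], N₀ ≤ N →
    ∀ {ι : Type} [Fintype ι] [DecidableEq ι] (f : ι → S2 N), Function.Injective f →
      (∀ i, IsNew (f i)) → (∀ i, co (f i) N = 1) → ∀ (s : Finset ι), (∀ i ∈ s,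
        Real.exp (-Real.log (Real.log N) / 2 + Pf (f i) + ε * Real.sqrt (Real.log (Real.log N))) <
          ‖Lh (f i)‖) → ∑ i ∈ s, 1 / nr (f i) ≤ ε := by
  obtain ⟨Ca, Na, hCa, ha⟩ := lm_second
  obtain ⟨Cp, Np, hp⟩ := mom_p
  obtain ⟨Cq, Nq, hq⟩ := mom_q
  obtain ⟨Cr, Nr, hr⟩ := mom_r
  obtain ⟨Nb, hb⟩ := params
  obtain ⟨Ns, hs⟩ := in_sum
  obtain ⟨L₀, hdet⟩ := HAR_det hε
  set e' : ℝ := (min ε 1 / 8) ^ 2 with he'
  have hmin : 0 < min ε 1 := lt_min hε one_pos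
  have he'0 : 0 < e' := by positivity
  have he'1 : e' ≤ 1 / 16 := by
    have : min ε 1 ≤ 1 := min_le_right _ _
    rw [he']
    nlinarith
  -- the total exceptional mass tends to `0`
  have hlim : Tendsto (fun L : ℝ => Ca / L ^ 3 + Cp / L + Cq / L + Cr / e' / L) atTop (𝓝 0) := by
    have h1 : Tendsto (fun L : ℝ => Ca / L ^ 3) atTop (𝓝 0) :=
      tendsto_const_nhds.div_atTop (tendsto_pow_atTop three_ne_zero)
    have h2 : ∀ c : ℝ, Tendsto (fun L : ℝ => c / L) atTop (𝓝 0) := fun c =>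
      tendsto_const_nhds.div_atTop tendsto_id
    have := ((h1.add (h2 Cp)).add (h2 Cq)).add (h2 (Cr / e'))
    simpa using this
  have hev1 : ∀ᶠ N : ℕ in atTop, Ca / Real.log (Real.log N) ^ 3 + Cp / Real.log (Real.log N) +
      Cq / Real.log (Real.log N) + Cr / e' / Real.log (Real.log N) < ε :=
    (hlim.comp HAR_loglog).eventually (eventually_lt_nhds hε)
  have hev2 : ∀ᶠ N : ℕ in atTop, L₀ ≤ Real.log (Real.log N) :=
    HAR_loglog.eventually (eventually_ge_atTop L₀)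
  obtain ⟨N₁, hN₁⟩ := eventually_atTop.1 (hev1.and hev2)
  refine ⟨N₁ + Na + Np + Nq + Nr + Nb + Ns, fun N _ hN ι _ _ f hinj hnew heven s hsb => ?_⟩
  obtain ⟨hmass, hLL⟩ := hN₁ N (by omega)
  have hb' := hb N (by omega)
  have hs' := hs N (by omega)
  set L := Real.log (Real.log N) with hL
  have hL16 : 16 ≤ L := hb'.1
  have hLpos : 0 < L := by linarith
  have hlogpos : 0 < Real.log N := by
    by_contra h0
    push Not at h0
    have h1 : Real.log N = 0 := le_antisymm h0 (Real.log_natCast_nonneg N)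
    rw [hL, h1, Real.log_zero] at hL16
    linarith
  have hexpL : Real.exp L = Real.log N := Real.exp_log hlogpos
  have hw : ∀ i, 0 ≤ 1 / nr (f i) := fun i => by
    have := nr_pos (new_ne_zero (hnew i)); positivity
  have hw' : ∀ (t : Finset ι), 0 ≤ ∑ i ∈ t, 1 / nr (f i) := fun t =>
    Finset.sum_nonneg fun i _ => hw i
  set xx : ι → ℕ → ℝ := fun i p => (co (f i) p).re / p with hxx
  -- four exceptional sets
  set B1 := Finset.univ.filter (fun i => (L ^ 5 / Real.log N) ^ 2 ≤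
    ‖MI (f i) (IN N) (KN N) * Lh (f i)‖ ^ 2) with hB1
  set B2 := Finset.univ.filter (fun i => L ^ 2 ≤ Pf (f i) ^ 2) with hB2
  set B3 := Finset.univ.filter (fun i => 1 ≤
    (∑ p ∈ IN N, (xx i p) ^ 2 - ∑ p ∈ IN N, 1 / (p : ℝ)) ^ 2) with hB3
  set B4 := Finset.univ.filter (fun i => e' ≤ ∑ p ∈ IN N, (xx i p) ^ 4) with hB4
  have hm1 : ∑ i ∈ B1, 1 / nr (f i) ≤ Ca / L ^ 3 := by
    have h1 := HAR_cheb (fun i => 1 / nr (f i))
      (fun i => ‖MI (f i) (IN N) (KN N) * Lh (f i)‖ ^ 2) hw (fun i => by positivity)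
      (t := (L ^ 5 / Real.log N) ^ 2) (by positivity) (ha N (by omega) f hinj hnew heven) B1
      (fun i hi => (Finset.mem_filter.1 hi).2)
    refine h1.trans (le_of_eq ?_)
    rw [← hL]
    field_simp
  have hm2 : ∑ i ∈ B2, 1 / nr (f i) ≤ Cp / L := by
    have h1 := HAR_cheb (fun i => 1 / nr (f i)) (fun i => Pf (f i) ^ 2) hw
      (fun i => by positivity) (t := L ^ 2) (by positivity) (hp N (by omega) f hinj hnew) B2
      (fun i hi => (Finset.mem_filter.1 hi).2)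
    refine h1.trans (le_of_eq ?_)
    rw [← hL]
    field_simp
  have hm3 : ∑ i ∈ B3, 1 / nr (f i) ≤ Cq / L := by
    have h1 := HAR_cheb (fun i => 1 / nr (f i)) (fun i =>
      (∑ p ∈ IN N, (xx i p) ^ 2 - ∑ p ∈ IN N, 1 / (p : ℝ)) ^ 2) hw
      (fun i => by positivity) (t := 1) one_pos (hq N (by omega) f hinj hnew) B3
      (fun i hi => (Finset.mem_filter.1 hi).2)
    rwa [div_one] at h1
  have hm4 : ∑ i ∈ B4, 1 / nr (f i) ≤ Cr / e' / L := by
    have h1 := HAR_cheb (fun i => 1 / nr (f i)) (fun i => ∑ p ∈ IN N, (xx i p) ^ 4) hw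
      (fun i => Finset.sum_nonneg fun p _ => by positivity) (t := e') he'0
      (hr N (by omega) f hinj hnew) B4 (fun i hi => (Finset.mem_filter.1 hi).2)
    refine h1.trans (le_of_eq ?_)
    rw [← hL]
    field_simp
  -- the good elements
  have hsub : s ⊆ B1 ∪ B2 ∪ B3 ∪ B4 := by
    intro i hi
    by_contra hcon
    simp only [Finset.mem_union, not_or] at hcon
    obtain ⟨⟨⟨c1, c2⟩, c3⟩, c4⟩ := hcon
    simp only [hB1, hB2, hB3, hB4, Finset.mem_filter, Finset.mem_univ, true_and, not_le]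
      at c1 c2 c3 c4
    have hP : |Pf (f i)| ≤ L := (abs_lt_of_sq_lt_sq c2 hLpos.le).le
    have hQ : |∑ p ∈ IN N, (xx i p) ^ 2 - ∑ p ∈ IN N, 1 / (p : ℝ)| ≤ 1 := by
      refine (abs_lt_of_sq_lt_sq (by simpa using c3) zero_le_one).le
    have hV : ‖MI (f i) (IN N) (KN N)‖ * ‖Lh (f i)‖ ≤ L ^ 5 / Real.exp L := by
      rw [← norm_mul, hexpL]
      exact (lt_of_pow_lt_pow_left₀ 2 (by positivity) c1).le
    have hx4 : ∀ p ∈ IN N, (xx i p) ^ 4 ≤ 1 / 16 := fun p hpp =>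
      (Finset.single_le_sum (f := fun p => (xx i p) ^ 4) (fun q _ => by positivity) hpp).trans
        (c4.le.trans he'1)
    have hxh : ∀ p ∈ IN N, |xx i p| ≤ 1 / 2 := by
      intro p hpp
      have h1 := hx4 p hpp
      by_contra h2
      push Not at h2
      have h3 : (1 / 2 : ℝ) ^ 4 < |xx i p| ^ 4 := pow_lt_pow_left₀ h2 (by norm_num) (by norm_num)
      have h4 : |xx i p| ^ 4 = (xx i p) ^ 4 := by
        rw [← abs_pow]; exact abs_of_nonneg (by positivity)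
      rw [h4] at h3
      norm_num at h3
      linarith
    have hQ0 : 0 ≤ ∑ p ∈ IN N, (xx i p) ^ 2 := Finset.sum_nonneg fun p _ => by positivity
    have hX0 : 0 ≤ ∑ p ∈ IN N, (xx i p) ^ 4 := Finset.sum_nonneg fun p _ => by positivity
    have hS30 : 0 ≤ ∑ p ∈ IN N, |xx i p| ^ 3 := Finset.sum_nonneg fun p _ => by positivity
    have hCS : (∑ p ∈ IN N, |xx i p| ^ 3) ^ 2 ≤
        (∑ p ∈ IN N, (xx i p) ^ 2) * ∑ p ∈ IN N, (xx i p) ^ 4 := by
      have h1 := Finset.sum_mul_sq_le_sq_mul_sq (IN N) (fun p => |xx i p|) (fun p => (xx i p) ^ 2)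
      have h2 : ∀ p, |xx i p| * (xx i p) ^ 2 = |xx i p| ^ 3 := fun p => by
        rw [← sq_abs]; ring
      simp only [h2, sq_abs] at h1
      refine h1.trans (le_of_eq ?_)
      congr 1
      refine Finset.sum_congr rfl fun p _ => ?_
      ring
    have hQL : ∑ p ∈ IN N, (xx i p) ^ 2 ≤ L + 1 := by
      have := (abs_le.1 hQ).2
      linarith [hs'.2]
    have hS3L : ∑ p ∈ IN N, |xx i p| ^ 3 ≤ L := by
      have h1 : (∑ p ∈ IN N, |xx i p| ^ 3) ^ 2 ≤ L ^ 2 := by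
        have h2 : (∑ p ∈ IN N, (xx i p) ^ 2) * ∑ p ∈ IN N, (xx i p) ^ 4 ≤ (L + 1) * (1 / 16) :=
          mul_le_mul hQL (c4.le.trans he'1) hX0 (by linarith)
        nlinarith
      exact (abs_le_of_sq_le_sq' h1 hLpos.le).2
    have hK : 4 * |∑ p ∈ IN N, xx i p| + 5 * ∑ p ∈ IN N, (xx i p) ^ 2 +
        ∑ p ∈ IN N, |xx i p| ^ 3 + 1 ≤ (KN N : ℝ) := by
      have h1 : 100 * L ≤ (KN N : ℝ) := Nat.le_ceil _
      have h2 : |∑ p ∈ IN N, xx i p| ≤ L := hP
      linarith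
    have hprime : ∀ p ∈ IN N, p.Prime := fun p hpp => (hb'.2.2.2.2.2.2.2 p hpp).1
    have hM := m_lower (IN N) (xx i) hxh (KN N) hK
    have hMI : ‖MI (f i) (IN N) (KN N)‖ =
        |∑ B ∈ SB (IN N) (KN N), (-1) ^ B.card * ∏ p ∈ B, xx i p| := by
      rw [mi_eq (hnew i) (new_real (hnew i)) (IN N) hprime (KN N), Complex.norm_real,
        Real.norm_eq_abs]
    rw [← hMI] at hM
    have hfin := hdet L (Pf (f i)) (∑ p ∈ IN N, (xx i p) ^ 2) (∑ p ∈ IN N, 1 / (p : ℝ))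
      (∑ p ∈ IN N, |xx i p| ^ 3) (∑ p ∈ IN N, (xx i p) ^ 4) ‖Lh (f i)‖
      ‖MI (f i) (IN N) (KN N)‖ hLL hL16 hs'.2 hQ c4.le hX0 hQ0 hS30 hCS hM hV (norm_nonneg _)
    exact absurd (hsb i hi) (not_lt.2 hfin)
  calc ∑ i ∈ s, 1 / nr (f i) ≤ ∑ i ∈ B1 ∪ B2 ∪ B3 ∪ B4, 1 / nr (f i) :=
        Finset.sum_le_sum_of_subset_of_nonneg hsub (fun i _ _ => hw i)
    _ ≤ ∑ i ∈ B1, 1 / nr (f i) + ∑ i ∈ B2, 1 / nr (f i) + ∑ i ∈ B3, 1 / nr (f i) +
        ∑ i ∈ B4, 1 / nr (f i) := by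
      have hu : ∀ A B : Finset ι, ∑ i ∈ A ∪ B, 1 / nr (f i) ≤
          ∑ i ∈ A, 1 / nr (f i) + ∑ i ∈ B, 1 / nr (f i) := by
        intro A B
        have h1 := Finset.sum_union_inter (s₁ := A) (s₂ := B) (f := fun i => 1 / nr (f i))
        have h2 := hw' (A ∩ B)
        linarith
      have h1 := hu (B1 ∪ B2 ∪ B3) B4
      have h2 := hu (B1 ∪ B2) B3
      have h3 := hu B1 B2
      linarith
    _ ≤ Ca / L ^ 3 + Cp / L + Cq / L + Cr / e' / L := by linarith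
    _ ≤ ε := hmass.le

theorem harm_main : type_of% @harm_main_pr := @harm_main_pr

end Pool.Agent.LEV
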