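import Pool.Agent.Lib_helper68.LEV.DefsG

/-! block EQP -/

set_option autoImplicit false

namespace Pool.Agent.LEV

open Complex MeasureTheory Filter Topology UpperHalfPlane ModularGroup ProbabilityTheory
open scoped MatrixGroups Modular ENNReal ModularForm ComplexConjugate ContDiff

theorem EQP_cont (k : ℕ) : Continuous (fun x : ℝ => Uu x k) := by
  induction k using Nat.strong_induction_on with
  | _ k ih =>
    match k with
    | 0 => simp only [Uu]; exact continuous_const
    | 1 => simp only [Uu]; exact continuous_id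
    | (n + 2) =>
      simp only [Uu]
      exact (continuous_id.mul (ih (n + 1) (by omega))).sub (ih n (by omega))

theorem EQP_bound (k : ℕ) : ∃ C : ℝ, ∀ x : ℝ, |x| ≤ 2 → ‖Uu x k‖ ≤ C := by
  obtain ⟨C, hC⟩ := (isCompact_Icc (a := (-2 : ℝ)) (b := 2)).exists_bound_of_continuousOn
    (EQP_cont k).continuousOn
  refine ⟨C, fun x hx => hC x ?_⟩
  exact abs_le.mp hx

theorem EQP_um_eq {I : Finset ℕ} {m : ℕ} (hm : m.primeFactors ⊆ I) (x : ℕ → ℝ) :
    Um m x = ∏ p : I, Uu (x p) (m.factorization p) := by
  unfold Um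
  rw [Finset.prod_coe_sort I (fun p => Uu (x p) (m.factorization p))]
  refine Finset.prod_subset hm fun p _ hp => ?_
  have : m.factorization p = 0 := by
    rw [← Finsupp.notMem_support_iff, Nat.support_factorization]
    exact hp
  rw [this]
  simp only [Uu]

theorem EQP_meas (m : ℕ) : Measurable (fun x : ℕ → ℝ => Um m x) := by
  unfold Um
  exact Finset.measurable_fun_prod _ fun p _ => (EQP_cont _).measurable.comp (measurable_pi_apply p)

theorem EQP_int {I : Finset ℕ} {P : Measure (ℕ → ℝ)} (hP : IsModel I P)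
    {m : ℕ} (hm : m.primeFactors ⊆ I) : Integrable (fun x => Um m x) P := by
  have := hP.prob
  choose C hC using EQP_bound
  refine Integrable.of_bound (EQP_meas m).aestronglyMeasurable
    (∏ p ∈ m.primeFactors, C (m.factorization p)) ?_
  filter_upwards [hP.bdd] with x hx
  unfold Um
  rw [norm_prod]
  exact Finset.prod_le_prod (fun p _ => norm_nonneg _) fun p hp => hC _ _ (hx p (hm hp))

theorem EQP_ev {I : Finset ℕ} {P : Measure (ℕ → ℝ)} (hP : IsModel I P)
    {m : ℕ} (hm : m.primeFactors ⊆ I) :
    ∫ x, Um m x ∂P = ∏ p ∈ I,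
      (if Even (m.factorization p) then 1 / (p : ℝ) ^ (m.factorization p / 2) else 0) := by
  have := hP.prob
  have h1 : ∀ x : ℕ → ℝ, Um m x = ∏ p : I, (fun y : ℝ => Uu y (m.factorization p)) (x p) :=
    fun x => EQP_um_eq hm x
  simp_rw [h1]
  rw [hP.ind.integral_fun_prod_comp (f := fun p : I => fun y : ℝ => Uu y (m.factorization p))
    (fun p => (measurable_pi_apply (p : ℕ)).aemeasurable)
    (fun p => (EQP_cont _).aestronglyMeasurable)]
  rw [← Finset.prod_coe_sort I
    (fun p => if Even (m.factorization p) then 1 / (p : ℝ) ^ (m.factorization p / 2) else 0)]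
  exact Finset.prod_congr rfl fun p _ => hP.mom p p.2 (m.factorization p)

theorem EQP_sq {I : Finset ℕ} {k : ℕ} (hk : k ≠ 0) (hkI : k.primeFactors ⊆ I) :
    ∏ p ∈ I, (if Even ((k ^ 2).factorization p) then
      1 / (p : ℝ) ^ ((k ^ 2).factorization p / 2) else 0) = 1 / (k : ℝ) := by
  have h1 : ∀ p ∈ I, (if Even ((k ^ 2).factorization p) then
      1 / (p : ℝ) ^ ((k ^ 2).factorization p / 2) else 0) = 1 / (p : ℝ) ^ (k.factorization p) := by
    intro p _
    have h2 : (k ^ 2).factorization p = 2 * k.factorization p := by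
      rw [Nat.factorization_pow, Finsupp.smul_apply, smul_eq_mul]
    rw [h2, if_pos (even_two_mul _), Nat.mul_div_cancel_left _ (by norm_num)]
  rw [Finset.prod_congr rfl h1, Finset.prod_div_distrib, Finset.prod_const_one]
  congr 1
  have h3 : ∏ p ∈ k.primeFactors, (p : ℝ) ^ (k.factorization p) = k := by
    have := Nat.prod_factorization_pow_eq_self hk
    rw [Finsupp.prod, Nat.support_factorization] at this
    exact_mod_cast congrArg (fun n : ℕ => (n : ℝ)) this
  rw [← h3]
  refine (Finset.prod_subset hkI fun p _ hp => ?_).symm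
  have : k.factorization p = 0 := by
    rw [← Finsupp.notMem_support_iff, Nat.support_factorization]
    exact hp
  rw [this, pow_zero]

theorem EQP_nsq {I : Finset ℕ} {m : ℕ} (hm : m ≠ 0) (hmI : m.primeFactors ⊆ I)
    (hs : ¬ ∃ k : ℕ, k ^ 2 = m) :
    ∏ p ∈ I, (if Even (m.factorization p) then
      1 / (p : ℝ) ^ (m.factorization p / 2) else 0) = 0 := by
  by_contra hne
  apply hs
  have hall : ∀ p ∈ I, Even (m.factorization p) := by
    intro p hp
    by_contra ho
    exact hne (Finset.prod_eq_zero hp (if_neg ho))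
  refine ⟨∏ p ∈ m.primeFactors, p ^ (m.factorization p / 2), ?_⟩
  have h := Nat.prod_factorization_pow_eq_self hm
  rw [Finsupp.prod, Nat.support_factorization] at h
  rw [← Finset.prod_pow]
  conv_rhs => rw [← h]
  refine Finset.prod_congr rfl fun p hp => ?_
  rw [← pow_mul, Nat.div_mul_cancel (hall p (hmI hp)).two_dvd]

theorem model_mean_pr {I : Finset ℕ} (hI : ∀ p ∈ I, p.Prime) {P : Measure (ℕ → ℝ)}
    (hP : IsModel I P)
    {X : ℕ} {c : ℕ → ℝ} (hc : ∀ m, c m ≠ 0 → 1 ≤ m ∧ m ≤ X ∧ m.primeFactors ⊆ I) :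
    ∫ x, (∑ m ∈ Finset.Icc 1 X, c m * Um m x) ∂P = EP X c := by
  rw [integral_finsetSum]
  · have h1 : ∀ m ∈ Finset.Icc 1 X, m ∉ ((Finset.Icc 1 X).filter (fun k => k ^ 2 ≤ X)).image
        (fun k => k ^ 2) → ∫ x, c m * Um m x ∂P = 0 := by
      intro m hm hmi
      rw [integral_const_mul]
      by_cases hcm : c m = 0
      · rw [hcm, zero_mul]
      · obtain ⟨h1, h2, h3⟩ := hc m hcm
        rw [EQP_ev hP h3, EQP_nsq (by omega) h3, mul_zero]
        rintro ⟨k, rfl⟩
        apply hmi
        rw [Finset.mem_image]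
        refine ⟨k, ?_, rfl⟩
        rw [Finset.mem_filter, Finset.mem_Icc]
        have hk : 1 ≤ k := by
          rcases Nat.eq_zero_or_pos k with h | h
          · rw [h] at h1
            norm_num at h1
          · exact h
        exact ⟨⟨hk, by nlinarith⟩, h2⟩
    rw [← Finset.sum_subset (s₁ := ((Finset.Icc 1 X).filter (fun k => k ^ 2 ≤ X)).image
        (fun k => k ^ 2)) ?_ h1]
    · rw [Finset.sum_image]
      · unfold EP
        refine Finset.sum_congr rfl fun k hk => ?_
        rw [Finset.mem_filter, Finset.mem_Icc] at hk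
        rw [integral_const_mul]
        by_cases hcm : c (k ^ 2) = 0
        · rw [hcm, zero_mul, zero_div]
        · obtain ⟨h1, h2, h3⟩ := hc _ hcm
          rw [Nat.primeFactors_pow k (by norm_num)] at h3
          have hk0 : k ≠ 0 := by omega
          rw [EQP_ev hP (by rw [Nat.primeFactors_pow k (by norm_num)]; exact h3), EQP_sq hk0 h3,
            mul_one_div]
      · intro a _ b _ hab
        exact Nat.pow_left_injective (n := 2) (by norm_num) hab
    · intro m hm
      rw [Finset.mem_image] at hm
      obtain ⟨k, hk, rfl⟩ := hm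
      rw [Finset.mem_filter, Finset.mem_Icc] at hk
      rw [Finset.mem_Icc]
      exact ⟨Nat.one_le_pow _ _ hk.1.1, hk.2⟩
  · intro m hm
    by_cases hcm : c m = 0
    · simp only [hcm, zero_mul]
      have := hP.prob
      exact integrable_const 0
    · exact (EQP_int hP (hc m hcm).2.2).const_mul _

theorem model_mean : type_of% @model_mean_pr := @model_mean_pr

end Pool.Agent.LEV
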