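import Pool.Agent.Lib_helper68.LEV.DefsG
import Pool.Agent.Lib_helper68.LEV.MRT

/-! Level aspect, block JNS: the size of the shortened set of primes. -/

namespace Pool.Agent.LEV

open Complex MeasureTheory Filter Topology UpperHalfPlane ModularGroup ProbabilityTheory
open scoped MatrixGroups Modular ENNReal ModularForm ComplexConjugate ContDiff

/-- the primes up to `x` -/
noncomputable def JNS_M (x : ℝ) : Finset ℕ := (Finset.Icc 1 ⌊x⌋₊).filter Nat.Prime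

theorem JNS_mem {x : ℝ} (hx : 0 ≤ x) (p : ℕ) : p ∈ JNS_M x ↔ p.Prime ∧ (p : ℝ) ≤ x := by
  unfold JNS_M
  rw [Finset.mem_filter, Finset.mem_Icc, Nat.le_floor_iff hx]
  constructor
  · rintro ⟨⟨_, h2⟩, h3⟩
    exact ⟨h3, h2⟩
  · rintro ⟨h1, h2⟩
    exact ⟨⟨h1.one_lt.le, h2⟩, h1⟩

theorem JNS_sub {y x : ℝ} (hy : 0 ≤ y) (hyx : y ≤ x) : JNS_M y ⊆ JNS_M x := by
  intro p hp
  rw [JNS_mem hy] at hp
  rw [JNS_mem (hy.trans hyx)]
  exact ⟨hp.1, hp.2.trans hyx⟩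

theorem JNS_sum {y x : ℝ} (hy : 0 ≤ y) (hyx : y ≤ x) :
    ∑ p ∈ JNS_M x \ JNS_M y, 1 / (p : ℝ) =
      ∑ p ∈ JNS_M x, 1 / (p : ℝ) - ∑ p ∈ JNS_M y, 1 / (p : ℝ) := by
  have h := Finset.sum_sdiff (f := fun p : ℕ => 1 / (p : ℝ)) (JNS_sub hy hyx)
  linarith

theorem JNS_IN (N : ℕ) (p : ℕ) :
    p ∈ IN N ↔ p.Prime ∧ (p : ℝ) ≤ zN N ∧ Real.log (Real.log N) < p := by
  unfold IN
  have hz : 0 ≤ zN N := (Real.exp_pos _).le
  rw [Finset.mem_filter, Finset.mem_Icc, Nat.le_floor_iff hz]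
  constructor
  · rintro ⟨⟨_, h⟩, h3, h4⟩
    exact ⟨h3, h, h4⟩
  · rintro ⟨h1, h, h4⟩
    exact ⟨⟨h1.one_lt.le, h⟩, h1, h4⟩

theorem JNS_ev {δ : ℝ} (h0 : 0 < δ) (h1 : δ < 1) : ∀ᶠ L : ℝ in atTop,
    0 < L ∧ 2 ≤ Real.log L ∧ 1 ≤ Real.log (Real.log L) ∧
      L ^ (1 - δ) ≤ L / Real.log L ^ 2 ∧ Real.log L ≤ L ^ (1 - δ) := by
  have e1 := (isLittleO_log_rpow_atTop (half_pos h0)).bound (c := 1) one_pos
  have e2 := (isLittleO_log_rpow_atTop (sub_pos.2 h1)).bound (c := 1) one_pos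
  have e3 : ∀ᶠ L : ℝ in atTop, 2 ≤ Real.log L := Real.tendsto_log_atTop.eventually_ge_atTop 2
  have e4 : ∀ᶠ L : ℝ in atTop, 1 ≤ Real.log (Real.log L) :=
    (Real.tendsto_log_atTop.comp Real.tendsto_log_atTop).eventually_ge_atTop 1
  filter_upwards [e1, e2, e3, e4, eventually_gt_atTop (0 : ℝ)] with L f1 f2 f3 f4 f5
  have hlog : 0 < Real.log L := by linarith
  have n1 : 0 < L ^ (δ / 2) := Real.rpow_pos_of_pos f5 _
  have n2 : 0 < L ^ (1 - δ) := Real.rpow_pos_of_pos f5 _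
  rw [Real.norm_eq_abs, Real.norm_eq_abs, abs_of_pos hlog, abs_of_pos n1, one_mul] at f1
  rw [Real.norm_eq_abs, Real.norm_eq_abs, abs_of_pos hlog, abs_of_pos n2, one_mul] at f2
  refine ⟨f5, f3, f4, ?_, f2⟩
  rw [le_div_iff₀ (by positivity)]
  have h3 : Real.log L ^ 2 ≤ L ^ δ := by
    calc Real.log L ^ 2 ≤ (L ^ (δ / 2)) ^ 2 := by gcongr
      _ = L ^ δ := by
        rw [← Real.rpow_natCast, ← Real.rpow_mul f5.le]
        norm_num
  calc L ^ (1 - δ) * Real.log L ^ 2 ≤ L ^ (1 - δ) * L ^ δ := by gcongr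
    _ = L := by
      rw [← Real.rpow_add f5]
      norm_num

theorem jn_sum_pr {δ : ℝ} (h0 : 0 < δ) (h1 : δ < 1) : ∃ (C : ℝ) (N₀ : ℕ), ∀ N : ℕ, N₀ ≤ N →
    |∑ p ∈ JN δ N, 1 / (p : ℝ) - (1 - δ) * Real.log (Real.log N)| ≤
      C * Real.log (Real.log (Real.log N)) ∧
    |∑ p ∈ IN N \ JN δ N, 1 / (p : ℝ) - δ * Real.log (Real.log N)| ≤
      C * Real.log (Real.log (Real.log N)) := by
  obtain ⟨C, hC⟩ := mertens_two
  have hC0 : 0 ≤ C := (abs_nonneg _).trans (hC 2 le_rfl)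
  have hT : Tendsto (fun N : ℕ => Real.log (N : ℝ)) atTop atTop :=
    Real.tendsto_log_atTop.comp tendsto_natCast_atTop_atTop
  obtain ⟨N₀, hN₀⟩ := eventually_atTop.1 (hT.eventually (JNS_ev h0 h1))
  refine ⟨2 + 2 * C, N₀, fun N hN => ?_⟩
  obtain ⟨g1, g2, g3, g4, g5⟩ := hN₀ N hN
  set L : ℝ := Real.log N with hL
  set L2 : ℝ := Real.log L with hL2
  set L3 : ℝ := Real.log L2 with hL3
  set x : ℝ := Real.exp (L ^ (1 - δ)) with hx
  have hz : zN N = Real.exp (L / L2 ^ 2) := rfl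
  have hxz : x ≤ zN N := by
    rw [hz]
    exact Real.exp_le_exp.2 g4
  have hLx : L2 ≤ x := by
    have := Real.add_one_le_exp (L ^ (1 - δ))
    linarith
  have hL20 : 0 ≤ L2 := by linarith
  have hx0 : 0 ≤ x := (Real.exp_pos _).le
  have hz0 : 0 ≤ zN N := (Real.exp_pos _).le
  have k1 : JN δ N = JNS_M x \ JNS_M L2 := by
    ext p
    unfold JN
    rw [Finset.mem_filter, JNS_IN N, Finset.mem_sdiff, JNS_mem hx0, JNS_mem hL20]
    constructor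
    · rintro ⟨⟨a1, _, a3⟩, a4⟩
      exact ⟨⟨a1, a4⟩, fun h => absurd h.2 (not_le.2 a3)⟩
    · rintro ⟨⟨a1, a2⟩, a3⟩
      exact ⟨⟨a1, a2.trans hxz, not_le.1 fun h => a3 ⟨a1, h⟩⟩, a2⟩
  have k2 : IN N \ JN δ N = JNS_M (zN N) \ JNS_M x := by
    ext p
    rw [k1, Finset.mem_sdiff, JNS_IN N, Finset.mem_sdiff, Finset.mem_sdiff, JNS_mem hx0,
      JNS_mem hL20, JNS_mem hz0]
    constructor
    · rintro ⟨⟨a1, a2, a3⟩, a4⟩
      exact ⟨⟨a1, a2⟩, fun h => a4 ⟨h, fun h' => absurd h'.2 (not_le.2 a3)⟩⟩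
    · rintro ⟨⟨a1, a2⟩, a3⟩
      refine ⟨⟨a1, a2, not_le.1 fun h => a3 ⟨a1, h.trans hLx⟩⟩, fun h => a3 h.1⟩
  have m1 := hC x (by linarith)
  have m2 := hC (zN N) (by linarith)
  have m3 := hC L2 g2
  have q1 : Real.log (Real.log x) = (1 - δ) * L2 := by
    rw [hx, Real.log_exp, Real.log_rpow g1]
  have q2 : Real.log (Real.log (zN N)) = L2 - 2 * L3 := by
    rw [hz, Real.log_exp, Real.log_div g1.ne' (by positivity), Real.log_pow]
    push_cast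
    rfl
  have q3 : 0 ≤ Real.log (Real.log L2) := Real.log_nonneg g3
  have q4 : Real.log (Real.log L2) ≤ L3 := by
    have := Real.log_le_sub_one_of_pos (show 0 < L3 by linarith)
    rw [← hL3]
    linarith
  rw [q1] at m1
  rw [q2] at m2
  rw [k2, k1, JNS_sum hL20 hLx, JNS_sum hx0 hxz]
  unfold JNS_M
  rw [abs_le] at m1 m2 m3
  have hCL : C ≤ C * L3 := by nlinarith
  constructor
  · rw [abs_le]
    constructor <;> nlinarith [m1.1, m1.2, m3.1, m3.2]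
  · rw [abs_le]
    constructor <;> nlinarith [m1.1, m1.2, m2.1, m2.2]

theorem jn_sum : type_of% @jn_sum_pr := @jn_sum_pr

end Pool.Agent.LEV
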