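import Pool.Agent.Lib_helper68.LEV.DefsG

/-! block MCF -/

set_option autoImplicit false

namespace Pool.Agent.LEV

open Complex MeasureTheory Filter Topology UpperHalfPlane ModularGroup ProbabilityTheory
open scoped MatrixGroups Modular ENNReal ModularForm ComplexConjugate ContDiff

theorem MCF_exp (u : ℝ) :
    ‖Complex.exp ((u : ℂ) * Complex.I) - (1 + (u : ℂ) * Complex.I - (u : ℂ) ^ 2 / 2)‖ ≤
      4 * |u| ^ 3 := by
  have hu0 : 0 ≤ |u| := abs_nonneg u
  rcases le_or_gt |u| 1 with h | h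
  · have hx : ‖(u : ℂ) * Complex.I‖ = |u| := by
      rw [norm_mul, Complex.norm_I, mul_one, Complex.norm_real, Real.norm_eq_abs]
    have h1 := Complex.exp_bound (x := (u : ℂ) * Complex.I) (by rw [hx]; exact h)
      (n := 3) (by norm_num)
    rw [hx] at h1
    have e1 : ∑ m ∈ Finset.range 3, ((u : ℂ) * Complex.I) ^ m / (m.factorial : ℂ) =
        1 + (u : ℂ) * Complex.I - (u : ℂ) ^ 2 / 2 := by
      have e0 : ((u : ℂ) * Complex.I) ^ 2 = -(u : ℂ) ^ 2 := by
        rw [mul_pow, Complex.I_sq]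
        ring
      rw [Finset.sum_range_succ, Finset.sum_range_succ, Finset.sum_range_succ,
        Finset.sum_range_zero, e0]
      simp [Nat.factorial]
      ring
    rw [e1] at h1
    refine h1.trans ?_
    have h2 : ((Nat.succ 3 : ℕ) : ℝ) * (((Nat.factorial 3 : ℕ) : ℝ) * ((3 : ℕ) : ℝ))⁻¹ ≤ 4 := by
      norm_num [Nat.factorial]
    calc |u| ^ 3 * (((Nat.succ 3 : ℕ) : ℝ) * (((Nat.factorial 3 : ℕ) : ℝ) * ((3 : ℕ) : ℝ))⁻¹) ≤
        |u| ^ 3 * 4 := mul_le_mul_of_nonneg_left h2 (by positivity)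
      _ = 4 * |u| ^ 3 := by ring
  · have h1 : ‖Complex.exp ((u : ℂ) * Complex.I)‖ = 1 := Complex.norm_exp_ofReal_mul_I u
    have h2 : ‖(1 + (u : ℂ) * Complex.I - (u : ℂ) ^ 2 / 2)‖ ≤ 1 + |u| + |u| ^ 2 / 2 := by
      refine (norm_sub_le _ _).trans ?_
      refine add_le_add ((norm_add_le _ _).trans ?_) ?_
      · rw [norm_one, norm_mul, Complex.norm_I, mul_one, Complex.norm_real, Real.norm_eq_abs]
      · rw [norm_div, norm_pow, Complex.norm_real, Real.norm_eq_abs, Complex.norm_ofNat]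
    have h3 := norm_sub_le (Complex.exp ((u : ℂ) * Complex.I))
      (1 + (u : ℂ) * Complex.I - (u : ℂ) ^ 2 / 2)
    rw [h1] at h3
    have h4 : |u| ≤ |u| ^ 3 := le_self_pow₀ h.le (by norm_num)
    have h5 : |u| ^ 2 ≤ |u| ^ 3 := pow_le_pow_right₀ h.le (by norm_num)
    linarith

theorem MCF_exp2 {v : ℝ} (hv : 0 ≤ v) : |Real.exp (-v) - (1 - v)| ≤ v ^ 2 := by
  rcases le_or_gt v 1 with h | h
  · have h1 := Real.abs_exp_sub_one_sub_id_le (x := -v) (by rw [abs_neg, abs_of_nonneg hv]; exact h)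
    have e : Real.exp (-v) - 1 - -v = Real.exp (-v) - (1 - v) := by ring
    rw [e] at h1
    rw [neg_sq] at h1
    exact h1
  · have h1 : Real.exp (-v) ≤ 1 := Real.exp_le_one_iff.mpr (by linarith)
    have h2 : 1 - v ≤ Real.exp (-v) := by
      have := Real.add_one_le_exp (-v)
      linarith
    rw [abs_of_nonneg (by linarith)]
    nlinarith

theorem MCF_one {P : Measure (ℕ → ℝ)} [IsProbabilityMeasure P] {y : (ℕ → ℝ) → ℝ}
    (hm : Measurable y) (hb : ∀ᵐ x ∂P, |y x| ≤ 2) (h1 : ∫ x, y x ∂P = 0) {q : ℝ} (hq : 0 ≤ q)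
    (h2 : ∫ x, y x ^ 2 ∂P = 1 + q) (a : ℝ) :
    ‖∫ x, Complex.exp (((a * y x : ℝ) : ℂ) * Complex.I) ∂P - (Real.exp (-a ^ 2 / 2) : ℂ)‖ ≤
      32 * |a| ^ 3 + a ^ 2 * q / 2 + a ^ 4 / 4 := by
  have i1 : Integrable (fun x => Complex.exp (((a * y x : ℝ) : ℂ) * Complex.I)) P := by
    refine Integrable.of_bound (C := 1) ?_ ?_
    · exact (Complex.measurable_exp.comp ((Complex.measurable_ofReal.comp
        (hm.const_mul a)).mul_const _)).aestronglyMeasurable
    · exact Filter.Eventually.of_forall fun x => (Complex.norm_exp_ofReal_mul_I _).le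
  have i2 : Integrable y P := by
    refine Integrable.of_bound (C := 2) hm.aestronglyMeasurable ?_
    filter_upwards [hb] with x hx
    exact hx
  have i3 : Integrable (fun x => y x ^ 2) P := by
    refine Integrable.of_bound (C := 4) (hm.pow_const 2).aestronglyMeasurable ?_
    filter_upwards [hb] with x hx
    rw [norm_pow, Real.norm_eq_abs]
    nlinarith [abs_nonneg (y x)]
  have i4 : Integrable (fun x => (1 : ℂ) + ((a * y x : ℝ) : ℂ) * Complex.I -
      ((a * y x : ℝ) : ℂ) ^ 2 / 2) P := by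
    refine ((integrable_const _).add (((i2.const_mul a).ofReal).mul_const _)).sub ?_
    have : Integrable (fun x => (((a ^ 2 / 2 * y x ^ 2 : ℝ)) : ℂ)) P := (i3.const_mul _).ofReal
    refine this.congr (Filter.Eventually.of_forall fun x => ?_)
    push_cast
    ring
  have e1 : ∫ x, ((1 : ℂ) + ((a * y x : ℝ) : ℂ) * Complex.I -
      ((a * y x : ℝ) : ℂ) ^ 2 / 2) ∂P = ((1 - a ^ 2 / 2 * (1 + q) : ℝ) : ℂ) := by
    have e2 : ∀ x, ((1 : ℂ) + ((a * y x : ℝ) : ℂ) * Complex.I -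
      ((a * y x : ℝ) : ℂ) ^ 2 / 2) = ((1 - a ^ 2 / 2 * y x ^ 2 : ℝ) : ℂ) +
        ((a * y x : ℝ) : ℂ) * Complex.I := by
      intro x
      push_cast
      ring
    simp_rw [e2]
    rw [integral_add, integral_mul_const, integral_complex_ofReal, integral_complex_ofReal,
      integral_const_mul, h1,
      integral_sub (integrable_const _) (i3.const_mul _), integral_const_mul, h2]
    · simp
    · exact ((integrable_const _).sub (i3.const_mul _)).ofReal
    · exact ((i2.const_mul a).ofReal).mul_const _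
  have n1 : ‖∫ x, Complex.exp (((a * y x : ℝ) : ℂ) * Complex.I) ∂P -
      ((1 - a ^ 2 / 2 * (1 + q) : ℝ) : ℂ)‖ ≤ 32 * |a| ^ 3 := by
    rw [← e1, ← integral_sub i1 i4]
    have := norm_integral_le_of_norm_le_const (μ := P)
      (f := fun x => Complex.exp (((a * y x : ℝ) : ℂ) * Complex.I) - ((1 : ℂ) + ((a * y x : ℝ) : ℂ) *
        Complex.I - ((a * y x : ℝ) : ℂ) ^ 2 / 2)) (C := 32 * |a| ^ 3) (by
        filter_upwards [hb] with x hx
        refine (MCF_exp (a * y x)).trans ?_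
        rw [abs_mul, mul_pow]
        have h3 : |y x| ^ 3 ≤ 8 := by
          calc |y x| ^ 3 ≤ 2 ^ 3 := pow_le_pow_left₀ (abs_nonneg _) hx 3
            _ = 8 := by norm_num
        have h4 : 0 ≤ |a| ^ 3 := by positivity
        nlinarith)
    simpa using this
  have n2 : ‖((1 - a ^ 2 / 2 * (1 + q) : ℝ) : ℂ) - (Real.exp (-a ^ 2 / 2) : ℂ)‖ ≤
      a ^ 2 * q / 2 + a ^ 4 / 4 := by
    rw [← Complex.ofReal_sub, Complex.norm_real, Real.norm_eq_abs]
    have h3 := MCF_exp2 (v := a ^ 2 / 2) (by positivity)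
    have e3 : -(a ^ 2 / 2) = -a ^ 2 / 2 := by ring
    rw [e3] at h3
    have e4 : (1 - a ^ 2 / 2 * (1 + q)) - Real.exp (-a ^ 2 / 2) =
        -(Real.exp (-a ^ 2 / 2) - (1 - a ^ 2 / 2)) - a ^ 2 * q / 2 := by ring
    rw [e4]
    refine (abs_sub _ _).trans ?_
    rw [abs_neg, abs_of_nonneg (a := a ^ 2 * q / 2) (by positivity)]
    have e5 : (a ^ 2 / 2) ^ 2 = a ^ 4 / 4 := by ring
    rw [e5] at h3
    linarith
  calc ‖∫ x, Complex.exp (((a * y x : ℝ) : ℂ) * Complex.I) ∂P - (Real.exp (-a ^ 2 / 2) : ℂ)‖ =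
      ‖(∫ x, Complex.exp (((a * y x : ℝ) : ℂ) * Complex.I) ∂P -
      ((1 - a ^ 2 / 2 * (1 + q) : ℝ) : ℂ)) +
        (((1 - a ^ 2 / 2 * (1 + q) : ℝ) : ℂ) - (Real.exp (-a ^ 2 / 2) : ℂ))‖ := by
        congr 1
        ring
    _ ≤ _ := norm_add_le _ _
    _ ≤ 32 * |a| ^ 3 + (a ^ 2 * q / 2 + a ^ 4 / 4) := add_le_add n1 n2
    _ = _ := by ring

theorem MCF_prod {ι : Type} (s : Finset ι) (z w : ι → ℂ) (hz : ∀ i ∈ s, ‖z i‖ ≤ 1)
    (hw : ∀ i ∈ s, ‖w i‖ ≤ 1) :
    ‖∏ i ∈ s, z i - ∏ i ∈ s, w i‖ ≤ ∑ i ∈ s, ‖z i - w i‖ := by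
  classical
  induction s using Finset.induction_on with
  | empty => simp
  | insert a s ha ih =>
    rw [Finset.prod_insert ha, Finset.prod_insert ha, Finset.sum_insert ha]
    have ih' := ih (fun i hi => hz i (Finset.mem_insert_of_mem hi))
      (fun i hi => hw i (Finset.mem_insert_of_mem hi))
    have e : z a * ∏ i ∈ s, z i - w a * ∏ i ∈ s, w i =
        (z a - w a) * ∏ i ∈ s, z i + w a * (∏ i ∈ s, z i - ∏ i ∈ s, w i) := by ring
    rw [e]
    refine (norm_add_le _ _).trans (add_le_add ?_ ?_)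
    · rw [norm_mul]
      refine mul_le_of_le_one_right (norm_nonneg _) ?_
      rw [norm_prod]
      exact Finset.prod_le_one (fun i _ => norm_nonneg _)
        (fun i hi => hz i (Finset.mem_insert_of_mem hi))
    · rw [norm_mul]
      refine (mul_le_of_le_one_left (norm_nonneg _) (hw a (Finset.mem_insert_self _ _))).trans ih'

theorem model_char_pr {ε t : ℝ} (hε : 0 < ε) : ∃ κ : ℝ, 0 < κ ∧ ∀ (I : Finset ℕ),
    (∀ p ∈ I, p.Prime) → ∀ (P : Measure (ℕ → ℝ)), IsModel I P → ∀ b : ℕ → ℝ,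
    ∑ p ∈ I, b p ^ 2 = 1 → (∀ p ∈ I, |b p| ≤ κ ∧ 1 / (p : ℝ) ≤ κ) →
    ‖∫ x, Complex.exp (((t * ∑ p ∈ I, b p * x p : ℝ) : ℂ) * Complex.I) ∂P -
      (Real.exp (-t ^ 2 / 2) : ℂ)‖ ≤ ε := by
  set D : ℝ := 32 * |t| ^ 3 + t ^ 2 + t ^ 4 + 1 with hD
  have hD0 : 0 < D := by positivity
  refine ⟨min 1 (ε / D), lt_min one_pos (div_pos hε hD0), ?_⟩
  intro I hI P hP b hb hκ
  have hprob := hP.prob
  set κ : ℝ := min 1 (ε / D) with hκd
  have hκ1 : κ ≤ 1 := min_le_left _ _
  have hκ0 : 0 < κ := lt_min one_pos (div_pos hε hD0)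
  have hκD : κ * D ≤ ε := by
    have : κ ≤ ε / D := min_le_right _ _
    rwa [le_div_iff₀ hD0] at this
  -- product formula
  have e1 : ∫ x, Complex.exp (((t * ∑ p ∈ I, b p * x p : ℝ) : ℂ) * Complex.I) ∂P =
      ∏ p : I, ∫ x, Complex.exp ((((t * b p) * x p : ℝ) : ℂ) * Complex.I) ∂P := by
    have h0 := hP.ind.integral_fun_prod_comp
      (f := fun p : I => fun y : ℝ => Complex.exp ((((t * b p) * y : ℝ) : ℂ) * Complex.I))
      (fun p => (measurable_pi_apply (p : ℕ)).aemeasurable)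
      (fun p => by
        have : Continuous (fun y : ℝ => Complex.exp ((((t * b p) * y : ℝ) : ℂ) * Complex.I)) := by
          fun_prop
        exact this.aestronglyMeasurable)
    rw [← h0]
    refine integral_congr_ae (Filter.Eventually.of_forall fun x => ?_)
    show Complex.exp (((t * ∑ p ∈ I, b p * x p : ℝ) : ℂ) * Complex.I) =
      ∏ p : I, Complex.exp ((((t * b p) * x p : ℝ) : ℂ) * Complex.I)
    rw [← Complex.exp_sum, ← Finset.sum_mul, ← Complex.ofReal_sum,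
      Finset.sum_coe_sort I (fun p => (t * b p) * x p), Finset.mul_sum]
    congr 3
    exact Finset.sum_congr rfl fun p _ => by ring
  have e2 : (Real.exp (-t ^ 2 / 2) : ℂ) = ∏ p : I, (Real.exp (-(t * b p) ^ 2 / 2) : ℂ) := by
    rw [← Complex.ofReal_prod, ← Real.exp_sum,
      Finset.sum_coe_sort I (fun p => -(t * b p) ^ 2 / 2)]
    congr 2
    have : ∑ p ∈ I, -(t * b p) ^ 2 / 2 = -t ^ 2 / 2 * ∑ p ∈ I, b p ^ 2 := by
      rw [Finset.mul_sum]
      exact Finset.sum_congr rfl fun p _ => by ring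
    rw [this, hb, mul_one]
  rw [e1, e2]
  refine (MCF_prod _ _ _ ?_ ?_).trans ?_
  · intro p _
    have := norm_integral_le_of_norm_le_const (μ := P)
      (f := fun x : ℕ → ℝ => Complex.exp ((((t * b p) * x p : ℝ) : ℂ) * Complex.I)) (C := 1)
      (Filter.Eventually.of_forall fun x => (Complex.norm_exp_ofReal_mul_I _).le)
    simpa using this
  · intro p _
    rw [Complex.norm_real, Real.norm_eq_abs, abs_of_pos (Real.exp_pos _), Real.exp_le_one_iff]
    have : 0 ≤ (t * b p) ^ 2 := sq_nonneg _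
    linarith
  · rw [Finset.sum_coe_sort I (fun p : ℕ => ‖∫ x, Complex.exp ((((t * b p) * x p : ℝ) : ℂ) *
      Complex.I) ∂P - (Real.exp (-(t * b p) ^ 2 / 2) : ℂ)‖)]
    have h1 : ∀ p ∈ I, ‖∫ x, Complex.exp ((((t * b p) * x p : ℝ) : ℂ) *
      Complex.I) ∂P - (Real.exp (-(t * b p) ^ 2 / 2) : ℂ)‖ ≤ κ * D * b p ^ 2 := by
      intro p hp
      have hy : ∀ᵐ x ∂P, |x p| ≤ 2 := by
        filter_upwards [hP.bdd] with x hx
        exact hx p hp
      have hm1 : ∫ x : ℕ → ℝ, x p ∂P = 0 := by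
        have := hP.mom p hp 1
        simpa [Uu] using this
      have i3 : Integrable (fun x : ℕ → ℝ => x p ^ 2) P := by
        refine Integrable.of_bound (C := 4) ((measurable_pi_apply p).pow_const 2).aestronglyMeasurable ?_
        filter_upwards [hy] with x hx
        rw [norm_pow, Real.norm_eq_abs]
        nlinarith [abs_nonneg (x p)]
      have hm2 : ∫ x : ℕ → ℝ, x p ^ 2 ∂P = 1 + 1 / (p : ℝ) := by
        have h2 := hP.mom p hp 2
        have e3 : ∀ x : ℕ → ℝ, Uu (x p) 2 = x p ^ 2 - 1 := by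
          intro x
          simp only [Uu]
          ring
        simp_rw [e3] at h2
        rw [integral_sub i3 (integrable_const _)] at h2
        simp at h2
        rw [one_div]
        linarith
      have h3 := MCF_one (measurable_pi_apply p) hy hm1 (q := 1 / (p : ℝ)) (by positivity) hm2
        (t * b p)
      refine h3.trans ?_
      obtain ⟨hk1, hk2⟩ := hκ p hp
      have hb0 : 0 ≤ |b p| := abs_nonneg _
      have hbb : |b p| ^ 2 = b p ^ 2 := sq_abs _
      have g1 : 32 * |t * b p| ^ 3 ≤ κ * (32 * |t| ^ 3) * b p ^ 2 := by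
        rw [abs_mul, mul_pow, ← hbb]
        have : |b p| ^ 3 ≤ κ * |b p| ^ 2 := by
          calc |b p| ^ 3 = |b p| * |b p| ^ 2 := by ring
            _ ≤ κ * |b p| ^ 2 := mul_le_mul_of_nonneg_right hk1 (by positivity)
        have h5 : 0 ≤ |t| ^ 3 := by positivity
        nlinarith [mul_le_mul_of_nonneg_left this h5]
      have g2 : (t * b p) ^ 2 * (1 / (p : ℝ)) / 2 ≤ κ * t ^ 2 * b p ^ 2 := by
        have h5 : 0 ≤ (t * b p) ^ 2 := sq_nonneg _
        have h6 := mul_le_mul_of_nonneg_left hk2 h5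
        have h7 : 0 ≤ (t * b p) ^ 2 * (1 / (p : ℝ)) := by positivity
        calc (t * b p) ^ 2 * (1 / (p : ℝ)) / 2 ≤ (t * b p) ^ 2 * (1 / (p : ℝ)) := by linarith
          _ ≤ (t * b p) ^ 2 * κ := h6
          _ = κ * t ^ 2 * b p ^ 2 := by ring
      have g3 : (t * b p) ^ 4 / 4 ≤ κ * t ^ 4 * b p ^ 2 := by
        have h5 : b p ^ 2 ≤ κ := by
          rw [← hbb]
          nlinarith
        have h6 : 0 ≤ t ^ 4 * b p ^ 2 := by positivity
        have h7 := mul_le_mul_of_nonneg_left h5 h6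
        have h8 : 0 ≤ (t * b p) ^ 4 := by positivity
        calc (t * b p) ^ 4 / 4 ≤ (t * b p) ^ 4 := by linarith
          _ = t ^ 4 * b p ^ 2 * b p ^ 2 := by ring
          _ ≤ t ^ 4 * b p ^ 2 * κ := h7
          _ = κ * t ^ 4 * b p ^ 2 := by ring
      have g4 : 0 ≤ κ * b p ^ 2 := by positivity
      have e6 : κ * D * b p ^ 2 = κ * (32 * |t| ^ 3) * b p ^ 2 + κ * t ^ 2 * b p ^ 2 +
        κ * t ^ 4 * b p ^ 2 + κ * b p ^ 2 := by rw [hD]; ring
      linarith
    refine (Finset.sum_le_sum h1).trans ?_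
    rw [← Finset.mul_sum, hb, mul_one]
    exact hκD

theorem model_char : type_of% @model_char_pr := @model_char_pr

end Pool.Agent.LEV
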