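import Pool.Agent.Lib_helper68.LEV.DefsG

/-! Block MSG (helper80): moments of the model sums. -/

namespace Pool.Agent.LEV

open MeasureTheory ProbabilityTheory

theorem MSG_uu1 (x : ℝ) : Uu x 1 = x := rfl

theorem MSG_uu0 (x : ℝ) : Uu x 0 = 1 := rfl

theorem MSG_cosh (x : ℝ) (k : ℕ) : x ^ (2 * k) / ((2 * k).factorial : ℝ) ≤ Real.cosh x :=
  le_hasSum (Real.hasSum_cosh x) k fun j _ => by
    rw [pow_mul]
    positivity

theorem MSG_sub {I : Finset ℕ} {P : Measure (ℕ → ℝ)} (hP : IsModel I P) (b : ℕ → ℝ) :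
    HasSubgaussianMGF (fun x : ℕ → ℝ => ∑ p ∈ I, b p * x p)
      (∑ p : I, ⟨(b p) ^ 2, sq_nonneg _⟩ * (‖(2 : ℝ) - (-2)‖₊ / 2) ^ 2) P := by
  have hprob := hP.prob
  have hind : iIndepFun (fun (p : I) (x : ℕ → ℝ) => b p * x p) P :=
    hP.ind.comp (fun (p : I) (t : ℝ) => b p * t) fun p => measurable_const_mul _
  have h1 : ∀ p : I, HasSubgaussianMGF (fun x : ℕ → ℝ => b p * x p)
      (⟨(b p) ^ 2, sq_nonneg _⟩ * (‖(2 : ℝ) - (-2)‖₊ / 2) ^ 2) P := by
    intro p
    refine HasSubgaussianMGF.const_mul ?_ (b p)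
    refine hasSubgaussianMGF_of_mem_Icc_of_integral_eq_zero (measurable_pi_apply _).aemeasurable
      ?_ ?_
    · filter_upwards [hP.bdd] with x hx
      exact abs_le.1 (hx p p.2)
    · have := hP.mom p p.2 1
      simpa [MSG_uu1] using this
  have h2 := HasSubgaussianMGF.sum_of_iIndepFun hind (s := Finset.univ) fun p _ => h1 p
  have e : (fun x : ℕ → ℝ => ∑ p ∈ I, b p * x p) =
      fun x : ℕ → ℝ => ∑ p : I, b p * x p := by
    funext x
    exact (Finset.sum_coe_sort I fun p => b p * x p).symm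
  rw [e]
  exact h2

/-- block MSG -/
theorem model_moment_pr {I : Finset ℕ} (hI : ∀ p ∈ I, p.Prime) {P : Measure (ℕ → ℝ)}
    (hP : IsModel I P) (b : ℕ → ℝ) (k : ℕ) {s : ℝ} (hs : 0 < s) :
    ∫ x, (∑ p ∈ I, b p * x p) ^ (2 * k) ∂P ≤
      ((2 * k).factorial : ℝ) / s ^ (2 * k) * Real.exp (2 * s ^ 2 * ∑ p ∈ I, b p ^ 2) := by
  have hprob := hP.prob
  have hsub := MSG_sub hP b
  set S : (ℕ → ℝ) → ℝ := fun x => ∑ p ∈ I, b p * x p with hS
  have hc : ((∑ p : I, ⟨(b p) ^ 2, sq_nonneg _⟩ * (‖(2 : ℝ) - (-2)‖₊ / 2) ^ 2 : NNReal) : ℝ) =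
      4 * ∑ p ∈ I, b p ^ 2 := by
    rw [NNReal.coe_sum, ← Finset.sum_coe_sort I, Finset.mul_sum]
    refine Finset.sum_congr rfl fun p _ => ?_
    change b p ^ 2 * (‖(2 : ℝ) - (-2)‖ / 2) ^ 2 = 4 * b p ^ 2
    have : ‖(2 : ℝ) - (-2)‖ = 4 := by norm_num
    rw [this]
    ring
  have hm1 : ∀ t : ℝ, ∫ x, Real.exp (t * S x) ∂P ≤ Real.exp (2 * t ^ 2 * ∑ p ∈ I, b p ^ 2) := by
    intro t
    have h1 := hsub.mgf_le t
    rw [hc] at h1
    refine h1.trans (le_of_eq ?_)
    congr 1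
    ring
  have hi1 := hsub.integrable_exp_mul s
  have hi2 := hsub.integrable_exp_mul (-s)
  have hcosh : ∀ x, S x ^ (2 * k) ≤ ((2 * k).factorial : ℝ) / s ^ (2 * k) *
      ((Real.exp (s * S x) + Real.exp (-s * S x)) / 2) := by
    intro x
    have h1 := MSG_cosh (s * S x) k
    rw [Real.cosh_eq, mul_pow] at h1
    have hf : (0 : ℝ) < ((2 * k).factorial : ℝ) := by exact_mod_cast Nat.factorial_pos _
    have hsk : 0 < s ^ (2 * k) := by positivity
    rw [div_le_iff₀ hf] at h1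
    rw [show -s * S x = -(s * S x) by ring, div_mul_eq_mul_div, le_div_iff₀ hsk]
    linarith
  have hint : Integrable (fun x => ((2 * k).factorial : ℝ) / s ^ (2 * k) *
      ((Real.exp (s * S x) + Real.exp (-s * S x)) / 2)) P :=
    ((hi1.add hi2).div_const 2).const_mul _
  have hmeas : AEStronglyMeasurable (fun x => S x ^ (2 * k)) P := by
    have : Measurable S := Finset.measurable_sum _ fun p _ => (measurable_pi_apply p).const_mul _
    exact (this.pow_const _).aestronglyMeasurable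
  have hint2 : Integrable (fun x => S x ^ (2 * k)) P := by
    refine hint.mono hmeas (Filter.Eventually.of_forall fun x => ?_)
    have h0 : 0 ≤ S x ^ (2 * k) := by
      rw [pow_mul]
      positivity
    rw [Real.norm_of_nonneg h0]
    exact (hcosh x).trans (le_abs_self _)
  calc ∫ x, S x ^ (2 * k) ∂P ≤ ∫ x, ((2 * k).factorial : ℝ) / s ^ (2 * k) *
        ((Real.exp (s * S x) + Real.exp (-s * S x)) / 2) ∂P :=
        integral_mono hint2 hint hcosh
    _ = ((2 * k).factorial : ℝ) / s ^ (2 * k) *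
        ((∫ x, Real.exp (s * S x) ∂P + ∫ x, Real.exp (-s * S x) ∂P) / 2) := by
        rw [integral_const_mul, integral_div, integral_add hi1 hi2]
    _ ≤ ((2 * k).factorial : ℝ) / s ^ (2 * k) * Real.exp (2 * s ^ 2 * ∑ p ∈ I, b p ^ 2) := by
        refine mul_le_mul_of_nonneg_left ?_ (by positivity)
        have h1 := hm1 s
        have h2 := hm1 (-s)
        rw [neg_sq] at h2
        linarith

theorem model_moment : type_of% @model_moment_pr := @model_moment_pr

end Pool.Agent.LEV
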