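import Pool.Agent.Lib_helper68.LEV.DefsG
import Pool.Agent.Lib_helper68.LEV.UBT

/-! Level aspect, block NTR: natural averages of Hecke polynomials. -/

namespace Pool.Agent.LEV

open Complex MeasureTheory Filter Topology UpperHalfPlane ModularGroup ProbabilityTheory
open scoped MatrixGroups Modular ENNReal ModularForm ComplexConjugate ContDiff

/-- the inner sum in `QP` -/
noncomputable def ntr_B (X : ℕ) (c : ℕ → ℝ) (n : ℕ) : ℝ :=
  ∑ k ∈ (Finset.Icc 1 X).filter (fun k => n * k ^ 2 ≤ X), c (n * k ^ 2) / k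

/-- the coefficients of `1 + s τ` -/
noncomputable def ntr_c (s : ℝ) (c : ℕ → ℝ) (m : ℕ) : ℝ := (if m = 1 then 1 else 0) + s * c m

theorem ntr_card : (PMat 1).card = 1 := by decide

theorem ntr_QP (X : ℕ) (c : ℕ → ℝ) :
    QP X c = ∑ n ∈ Finset.Icc 1 X, ((PMat n).card : ℝ) / n * ntr_B X c n ^ 2 := rfl

theorem ntr_EP (X : ℕ) (c : ℕ → ℝ) : ntr_B X c 1 = EP X c := by
  unfold ntr_B EP
  simp only [one_mul]

theorem ntr_Bc {X : ℕ} (hX : 1 ≤ X) (s : ℝ) (c : ℕ → ℝ) {n : ℕ} (hn : 1 ≤ n) :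
    ntr_B X (ntr_c s c) n = (if n = 1 then 1 else 0) + s * ntr_B X c n := by
  unfold ntr_B ntr_c
  have h1 : ∀ k ∈ (Finset.Icc 1 X).filter (fun k => n * k ^ 2 ≤ X),
      ((if n * k ^ 2 = 1 then 1 else 0) + s * c (n * k ^ 2)) / (k : ℝ) =
        (if k = 1 then (if n = 1 then (1 : ℝ) else 0) else 0) + s * (c (n * k ^ 2) / k) := by
    intro k hk
    rw [Finset.mem_filter, Finset.mem_Icc] at hk
    by_cases hk1 : k = 1
    · subst hk1
      simp
    · have h2 : n * k ^ 2 ≠ 1 := by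
        intro h
        have := Nat.eq_one_of_mul_eq_one_left h
        exact hk1 (by nlinarith [hk.1.1, Nat.pow_le_pow_left hk.1.1 2])
      rw [if_neg h2, if_neg hk1, zero_add, zero_add, mul_div_assoc]
  rw [Finset.sum_congr rfl h1, Finset.sum_add_distrib, ← Finset.mul_sum]
  congr 1
  rw [Finset.sum_ite_eq']
  by_cases hn1 : n = 1
  · subst hn1
    rw [if_pos rfl, if_pos]
    rw [Finset.mem_filter, Finset.mem_Icc]
    exact ⟨⟨le_refl 1, hX⟩, by simpa using hX⟩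
  · rw [if_neg hn1, ite_self]

theorem ntr_qpc {X : ℕ} (hX : 1 ≤ X) (s : ℝ) (c : ℕ → ℝ) :
    QP X (ntr_c s c) = 1 + 2 * s * EP X c + s ^ 2 * QP X c := by
  rw [ntr_QP, ntr_QP]
  have h1 : ∀ n ∈ Finset.Icc 1 X, ((PMat n).card : ℝ) / n * ntr_B X (ntr_c s c) n ^ 2 =
      (if n = 1 then 1 + 2 * s * EP X c else 0) +
        s ^ 2 * (((PMat n).card : ℝ) / n * ntr_B X c n ^ 2) := by
    intro n hn
    rw [Finset.mem_Icc] at hn
    rw [ntr_Bc hX s c hn.1]
    by_cases hn1 : n = 1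
    · subst hn1
      rw [if_pos rfl, if_pos rfl, ntr_card, ntr_EP]
      push_cast
      ring
    · rw [if_neg hn1, if_neg hn1]
      ring
  rw [Finset.sum_congr rfl h1, Finset.sum_add_distrib, ← Finset.mul_sum, Finset.sum_ite_eq',
    if_pos (Finset.mem_Icc.mpr ⟨le_refl 1, hX⟩)]

theorem ntr_ep_sq {X : ℕ} (hX : 1 ≤ X) (c : ℕ → ℝ) : EP X c ^ 2 ≤ QP X c := by
  rw [ntr_QP]
  have h1 : ((PMat 1).card : ℝ) / ((1 : ℕ) : ℝ) * ntr_B X c 1 ^ 2 = EP X c ^ 2 := by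
    rw [ntr_card, ntr_EP]
    push_cast
    ring
  rw [← h1]
  exact Finset.single_le_sum (f := fun n : ℕ => ((PMat n).card : ℝ) / n * ntr_B X c n ^ 2)
    (fun n _ => mul_nonneg (div_nonneg (Nat.cast_nonneg _) (Nat.cast_nonneg _)) (sq_nonneg _))
    (Finset.mem_Icc.mpr ⟨le_refl 1, hX⟩)

theorem ntr_tau {N : ℕ} {f : S2 N} (hf : IsNew f) {X : ℕ} (hX : 1 ≤ X) (s : ℝ) (c : ℕ → ℝ) :
    tau f X (ntr_c s c) = 1 + s * tau f X c := by
  unfold tau ntr_c
  have hla : la f 1 = 1 := by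
    unfold la
    rw [hf.one]
    simp
  have h1 : ∀ m ∈ Finset.Icc 1 X, ((if m = 1 then 1 else 0) + s * c m) * la f m =
      (if m = 1 then 1 else 0) + s * (c m * la f m) := by
    intro m _
    by_cases hm : m = 1
    · subst hm
      rw [if_pos rfl, hla]
      ring
    · rw [if_neg hm]
      ring
  rw [Finset.sum_congr rfl h1, Finset.sum_add_distrib, ← Finset.mul_sum, Finset.sum_ite_eq',
    if_pos (Finset.mem_Icc.mpr ⟨le_refl 1, hX⟩)]

theorem ntr_count {N : ℕ} {ι : Type} [Fintype ι] {f : ι → S2 N} (hf : AllEven f) :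
    {g : S2 N | IsNew g ∧ co g N = 1}.ncard = Fintype.card ι := by
  have h1 : {g : S2 N | IsNew g ∧ co g N = 1} = f '' Set.univ := by
    ext g
    rw [Set.mem_ofPred_eq, hf.2 g]
    simp
  rw [h1, Set.ncard_image_of_injective _ hf.1, Set.ncard_univ, Nat.card_eq_fintype_card]

theorem nat_trace_pr (hdim : ∀ δ : ℝ, 0 < δ → ∃ N₀ : ℕ, ∀ (N : ℕ) [Fact N.Prime], N₀ ≤ N →
      (1 / 24 - δ) * N ≤ ({f : S2 N | IsNew f ∧ co f N = 1}.ncard : ℝ))
    {ε : ℝ} (hε : 0 < ε) : ∃ N₀ : ℕ, ∀ (N : ℕ) [Fact N.Prime], N₀ ≤ N →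
    ∀ {ι : Type} [Fintype ι] (f : ι → S2 N), AllEven f → ∀ X : ℕ, 1 ≤ X →
    (X : ℝ) ≤ (N : ℝ) ^ (1 / 3000 : ℝ) → ∀ c : ℕ → ℝ, (∀ m, X < m → c m = 0) →
      |∑ i, tau (f i) X c - N / 24 * EP X c| ≤ ε * N * (1 + QP X c) := by
  set r : ℝ := min 1 ε / 4 with hr
  have hr0 : 0 < r := by positivity
  have hr1 : r ≤ 1 / 4 := by
    have := min_le_left (1 : ℝ) ε
    linarith
  have hrε : r ≤ ε / 4 := by
    have := min_le_right (1 : ℝ) ε
    linarith
  have hδ : 0 < r ^ 2 := pow_pos hr0 2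
  obtain ⟨N₁, h1⟩ := hdim (r ^ 2) hδ
  obtain ⟨N₂, h2⟩ := nat_upper hδ
  refine ⟨max N₁ N₂, ?_⟩
  intro N _ hN ι _ f hf X hX hXN c hc
  have hN1 := h1 N (le_trans (le_max_left _ _) hN)
  rw [ntr_count hf] at hN1
  have hnew : ∀ i, IsNew (f i) ∧ co (f i) N = 1 := fun i => (hf.2 (f i)).mpr ⟨i, rfl⟩
  have hc' : ∀ s : ℝ, ∀ m, X < m → ntr_c s c m = 0 := by
    intro s m hm
    unfold ntr_c
    rw [if_neg (by omega), hc m hm]
    ring
  have hN0 : (0 : ℝ) ≤ N := Nat.cast_nonneg N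
  set E := EP X c with hE
  set Q := QP X c with hQ
  set W := ∑ i, tau (f i) X c with hW
  have hEQ : E ^ 2 ≤ Q := ntr_ep_sq hX c
  have key : ∀ s : ℝ, 2 * s * (W - N / 24 * E) ≤
      2 * r ^ 2 * N + 2 * s * r ^ 2 * N * E + s ^ 2 * (1 / 24 + r ^ 2) * N * Q := by
    intro s
    have h3 := h2 N (le_trans (le_max_right _ _) hN) f hf.1 (fun i => (hnew i).1)
      (fun i => (hnew i).2) X hX hXN (ntr_c s c) (hc' s)
    rw [ntr_qpc hX s c] at h3
    have h4 : (Fintype.card ι : ℝ) + 2 * s * W ≤ ∑ i, tau (f i) X (ntr_c s c) ^ 2 := by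
      have h5 : (Fintype.card ι : ℝ) + 2 * s * W = ∑ i : ι, (1 + 2 * s * tau (f i) X c) := by
        rw [Finset.sum_add_distrib, ← Finset.mul_sum, Finset.sum_const, Finset.card_univ,
          nsmul_eq_mul, mul_one]
      rw [h5]
      refine Finset.sum_le_sum (fun i _ => ?_)
      rw [ntr_tau (hnew i).1 hX]
      nlinarith [sq_nonneg (s * tau (f i) X c)]
    nlinarith [h3, h4, hN1]
  have hE1 : |E| ≤ (1 + Q) / 2 := by
    have h6 : |E| ^ 2 ≤ Q := by rw [sq_abs]; exact hEQ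
    nlinarith [sq_nonneg (|E| - 1)]
  have hQ0 : 0 ≤ Q := le_trans (sq_nonneg E) hEQ
  have hEa := le_abs_self E
  have hEb := neg_abs_le E
  have fin : ∀ σ : ℝ, σ = 1 ∨ σ = -1 → σ * (W - N / 24 * E) ≤ ε * N * (1 + Q) := by
    intro σ hσ
    have hσ2 : σ ^ 2 = 1 := by
      rcases hσ with h | h <;> rw [h] <;> norm_num
    have hσE : σ * E ≤ |E| := by
      rcases hσ with h | h
      · rw [h, one_mul]; exact hEa
      · rw [h]; linarith
    have h7 := key (σ * r)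
    have h8 : 2 * r * (σ * (W - N / 24 * E)) ≤
        2 * r ^ 2 * N + 2 * r ^ 3 * N * (σ * E) + r ^ 2 * (1 / 24 + r ^ 2) * N * Q := by
      have h9 : (σ * r) ^ 2 = r ^ 2 := by rw [mul_pow, hσ2, one_mul]
      rw [h9] at h7
      calc 2 * r * (σ * (W - N / 24 * E)) = 2 * (σ * r) * (W - N / 24 * E) := by ring
        _ ≤ _ := h7
        _ = _ := by ring
    have h10 : 2 * r ^ 3 * N * (σ * E) ≤ 2 * r ^ 3 * N * ((1 + Q) / 2) :=
      mul_le_mul_of_nonneg_left (le_trans hσE hE1) (by positivity)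
    have h11 : 2 * r * (σ * (W - N / 24 * E)) ≤ 2 * r * (ε * N * (1 + Q)) := by
      have h12 : 2 * r ^ 2 * N + 2 * r ^ 3 * N * ((1 + Q) / 2) + r ^ 2 * (1 / 24 + r ^ 2) * N * Q ≤
          2 * r * (4 * r * N * (1 + Q)) := by
        have ha : r ^ 3 ≤ r ^ 2 * (1 / 4) := by
          rw [pow_succ]
          exact mul_le_mul_of_nonneg_left hr1 hδ.le
        have hb : r ^ 2 ≤ 1 := by nlinarith
        have hNQ : 0 ≤ N * Q := mul_nonneg hN0 hQ0
        have h13 : 2 * r ^ 3 * N * ((1 + Q) / 2) ≤ r ^ 2 * (N * (1 + Q)) := by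
          have : r ^ 3 * (N * (1 + Q)) ≤ (r ^ 2 * (1 / 4)) * (N * (1 + Q)) :=
            mul_le_mul_of_nonneg_right ha (by positivity)
          have h14 : 0 ≤ r ^ 2 * (N * (1 + Q)) := by positivity
          nlinarith
        have h15 : r ^ 2 * (1 / 24 + r ^ 2) * N * Q ≤ r ^ 2 * 2 * (N * Q) := by
          have : r ^ 2 * (1 / 24 + r ^ 2) ≤ r ^ 2 * 2 :=
            mul_le_mul_of_nonneg_left (by linarith) hδ.le
          calc r ^ 2 * (1 / 24 + r ^ 2) * N * Q = r ^ 2 * (1 / 24 + r ^ 2) * (N * Q) := by ring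
            _ ≤ _ := mul_le_mul_of_nonneg_right this hNQ
        have h16 : 0 ≤ r ^ 2 * N := by positivity
        have h17 : 0 ≤ r ^ 2 * (N * Q) := by positivity
        nlinarith
      have h18 : 4 * r * N * (1 + Q) ≤ ε * N * (1 + Q) := by
        have : 4 * r ≤ ε := by linarith
        have h19 : 0 ≤ N * (1 + Q) := by positivity
        calc 4 * r * N * (1 + Q) = 4 * r * (N * (1 + Q)) := by ring
          _ ≤ ε * (N * (1 + Q)) := mul_le_mul_of_nonneg_right this h19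
          _ = ε * N * (1 + Q) := by ring
      have h20 : 2 * r * (4 * r * N * (1 + Q)) ≤ 2 * r * (ε * N * (1 + Q)) :=
        mul_le_mul_of_nonneg_left h18 (by positivity)
      linarith
    exact le_of_mul_le_mul_left h11 (by positivity)
  rw [abs_le]
  constructor
  · have := fin (-1) (Or.inr rfl)
    linarith
  · have := fin 1 (Or.inl rfl)
    linarith

theorem nat_trace : type_of% @nat_trace_pr := @nat_trace_pr

end Pool.Agent.LEV
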