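import Pool.Agent.Lib_helper68.LEV.DefsG
import Pool.Agent.Lib_helper68.LEV.EIA
import Pool.Agent.Lib_helper68.LEV.EQP
import Pool.Agent.Lib_helper68.LEV.EQS
import Pool.Agent.Lib_helper68.LEV.HPO
import Pool.Agent.Lib_helper68.LEV.JNS
import Pool.Agent.Lib_helper68.LEV.MCF
import Pool.Agent.Lib_helper68.LEV.MEX
import Pool.Agent.Lib_helper68.LEV.MSG
import Pool.Agent.Lib_helper68.LEV.NTR

/-! block NCF -/

set_option autoImplicit false

namespace Pool.Agent.LEV

open Complex MeasureTheory Filter Topology UpperHalfPlane ModularGroup ProbabilityTheory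
open scoped MatrixGroups Modular ENNReal ModularForm ComplexConjugate ContDiff

/-- Taylor's formula for imaginary arguments with the sharp remainder -/
theorem NCF_expa (K : ℕ) : ∀ z : ℂ, z.re = 0 → ‖z‖ = 1 → ∀ v : ℝ, 0 ≤ v →
    ‖Complex.exp ((v : ℂ) * z) - ∑ k ∈ Finset.range K, ((v : ℂ) * z) ^ k / (k.factorial : ℂ)‖ ≤
      v ^ K / (K.factorial : ℝ) := by
  induction K with
  | zero =>
    intro z hz _ v _
    rw [Finset.sum_range_zero, sub_zero, Complex.norm_exp]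
    simp [hz]
  | succ K ih =>
    intro z hz hz1 v hv
    have hs : ∀ x : ℝ, ∑ k ∈ Finset.range (K + 1), ((x : ℂ) * z) ^ k / (k.factorial : ℂ) =
        ∑ k ∈ Finset.range K, ((x : ℂ) * z) ^ (k + 1) / ((k + 1).factorial : ℂ) + 1 := by
      intro x
      rw [Finset.sum_range_succ']
      simp
    have hd : ∀ x : ℝ, HasDerivAt (fun v : ℝ => Complex.exp ((v : ℂ) * z) -
        ∑ k ∈ Finset.range (K + 1), ((v : ℂ) * z) ^ k / (k.factorial : ℂ))
        (z * (Complex.exp ((x : ℂ) * z) -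
          ∑ k ∈ Finset.range K, ((x : ℂ) * z) ^ k / (k.factorial : ℂ))) x := by
      intro x
      simp_rw [hs]
      have h0 : HasDerivAt (fun v : ℝ => (v : ℂ) * z) z x := by
        have := ((hasDerivAt_id x).ofReal_comp).mul_const z
        simpa using this
      have h1 : HasDerivAt (fun v : ℝ => Complex.exp ((v : ℂ) * z))
        (Complex.exp ((x : ℂ) * z) * z) x := h0.cexp
      have h2 : ∀ k ∈ Finset.range K, HasDerivAt
          (fun v : ℝ => ((v : ℂ) * z) ^ (k + 1) / ((k + 1).factorial : ℂ))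
          (z * (((x : ℂ) * z) ^ k / (k.factorial : ℂ))) x := by
        intro k _
        have h3 := (h0.pow (k + 1)).div_const ((k + 1).factorial : ℂ)
        have e : (((k + 1 : ℕ) : ℂ) * ((x : ℂ) * z) ^ (k + 1 - 1) * z) / ((k + 1).factorial : ℂ) =
            z * (((x : ℂ) * z) ^ k / (k.factorial : ℂ)) := by
          rw [Nat.factorial_succ, Nat.add_sub_cancel]
          have hk : ((k : ℂ) + 1) ≠ 0 := by exact_mod_cast Nat.succ_ne_zero k
          have hf : (k.factorial : ℂ) ≠ 0 := by exact_mod_cast Nat.factorial_ne_zero k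
          push_cast
          field_simp
        rw [e] at h3
        exact h3
      have h4 := HasDerivAt.fun_sum h2
      have h5 := h1.sub (h4.add_const 1)
      refine h5.congr_deriv ?_
      rw [← Finset.mul_sum]
      ring
    have hB : ∀ x : ℝ, HasDerivAt (fun v : ℝ => v ^ (K + 1) / ((K + 1).factorial : ℝ))
        (x ^ K / (K.factorial : ℝ)) x := by
      intro x
      have h3 := ((hasDerivAt_id x).pow (K + 1)).div_const ((K + 1).factorial : ℝ)
      refine h3.congr_deriv ?_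
      rw [Nat.factorial_succ, Nat.add_sub_cancel]
      have hk : ((K : ℝ) + 1) ≠ 0 := by positivity
      have hf : (K.factorial : ℝ) ≠ 0 := by exact_mod_cast Nat.factorial_ne_zero K
      simp only [id]
      push_cast
      field_simp
    have hmain := image_norm_le_of_norm_deriv_right_le_deriv_boundary (a := 0) (b := v)
      (f := fun v : ℝ => Complex.exp ((v : ℂ) * z) -
        ∑ k ∈ Finset.range (K + 1), ((v : ℂ) * z) ^ k / (k.factorial : ℂ))
      (f' := fun x : ℝ => z * (Complex.exp ((x : ℂ) * z) -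
          ∑ k ∈ Finset.range K, ((x : ℂ) * z) ^ k / (k.factorial : ℂ)))
      (B := fun v : ℝ => v ^ (K + 1) / ((K + 1).factorial : ℝ))
      (B' := fun x : ℝ => x ^ K / (K.factorial : ℝ))
      (fun x _ => (hd x).continuousAt.continuousWithinAt)
      (fun x _ => (hd x).hasDerivWithinAt)
      (by
        rw [hs]
        simp)
      hB
      (fun x hx => by
        rw [norm_mul, hz1, one_mul]
        exact ih z hz hz1 x hx.1)
    exact hmain ⟨hv, le_rfl⟩

theorem NCF_exp (K : ℕ) (u : ℝ) :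
    ‖Complex.exp ((u : ℂ) * Complex.I) -
      ∑ k ∈ Finset.range K, ((u : ℂ) * Complex.I) ^ k / (k.factorial : ℂ)‖ ≤
      |u| ^ K / (K.factorial : ℝ) := by
  rcases le_or_gt 0 u with h | h
  · rw [abs_of_nonneg h]
    exact NCF_expa K Complex.I Complex.I_re Complex.norm_I u h
  · rw [abs_of_neg h]
    have h1 := NCF_expa K (-Complex.I) (by simp) (by simp) (-u) (by linarith)
    have e : ((-u : ℝ) : ℂ) * (-Complex.I) = (u : ℂ) * Complex.I := by
      push_cast
      ring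
    rw [e] at h1
    exact h1

/-- comparison of characteristic functions by moments -/
theorem NCF_core {ι : Type} [Fintype ι] {Ω : Type} [MeasurableSpace Ω] (P : Measure Ω)
    [IsProbabilityMeasure P] {S : Ω → ℝ} (hS : Measurable S) {C : ℝ}
    (hb : ∀ᵐ x ∂P, |S x| ≤ C) (σ : ι → ℝ) (t : ℝ) {M : ℝ} (hM : 0 ≤ M) {K : ℕ} (hK : Even K)
    (D : ℕ → ℝ) (h : ∀ k ≤ K, |∑ i, σ i ^ k - M * ∫ x, S x ^ k ∂P| ≤ D k) :
    ‖∑ i, Complex.exp (((t * σ i : ℝ) : ℂ) * Complex.I) -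
      (M : ℂ) * ∫ x, Complex.exp (((t * S x : ℝ) : ℂ) * Complex.I) ∂P‖ ≤
      2 * M * (|t| ^ K / (K.factorial : ℝ) * ∫ x, S x ^ K ∂P) +
        ∑ k ∈ Finset.range (K + 1), |t| ^ k / (k.factorial : ℝ) * D k := by
  have hpow : ∀ k : ℕ, Integrable (fun x => S x ^ k) P := by
    intro k
    refine Integrable.of_bound (C := C ^ k) (hS.pow_const k).aestronglyMeasurable ?_
    filter_upwards [hb] with x hx
    rw [norm_pow, Real.norm_eq_abs]
    exact pow_le_pow_left₀ (abs_nonneg _) hx k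
  set T : ℝ → ℂ := fun u => ∑ k ∈ Finset.range K,
    (((t * u : ℝ) : ℂ) * Complex.I) ^ k / (k.factorial : ℂ) with hT
  have hTe : ∀ u : ℝ, T u = ∑ k ∈ Finset.range K,
      (((t : ℂ) * Complex.I) ^ k / (k.factorial : ℂ)) * ((u ^ k : ℝ) : ℂ) := by
    intro u
    rw [hT]
    refine Finset.sum_congr rfl fun k _ => ?_
    push_cast
    rw [mul_pow, mul_pow, mul_pow]
    ring
  have hE : ∀ u : ℝ, ‖Complex.exp (((t * u : ℝ) : ℂ) * Complex.I) - T u‖ ≤
      |t| ^ K / (K.factorial : ℝ) * u ^ K := by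
    intro u
    refine (NCF_exp K (t * u)).trans (le_of_eq ?_)
    rw [abs_mul, mul_pow, hK.pow_abs (a := u)]
    ring
  have iT : Integrable (fun x => T (S x)) P := by
    simp_rw [hTe]
    exact integrable_finsetSum _ fun k _ => ((hpow k).ofReal).const_mul _
  have iE : Integrable (fun x => Complex.exp (((t * S x : ℝ) : ℂ) * Complex.I)) P := by
    refine Integrable.of_bound (C := 1) ?_ ?_
    · exact (Complex.measurable_exp.comp ((Complex.measurable_ofReal.comp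
        (hS.const_mul t)).mul_const _)).aestronglyMeasurable
    · exact Filter.Eventually.of_forall fun x => (Complex.norm_exp_ofReal_mul_I _).le
  have eT : ∫ x, T (S x) ∂P = ∑ k ∈ Finset.range K,
      (((t : ℂ) * Complex.I) ^ k / (k.factorial : ℂ)) * ((∫ x, S x ^ k ∂P : ℝ) : ℂ) := by
    simp_rw [hTe]
    rw [integral_finsetSum _ fun k _ => ((hpow k).ofReal).const_mul _]
    refine Finset.sum_congr rfl fun k _ => ?_
    rw [integral_const_mul, integral_complex_ofReal]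
  have eS : ∑ i, T (σ i) = ∑ k ∈ Finset.range K,
      (((t : ℂ) * Complex.I) ^ k / (k.factorial : ℂ)) * ((∑ i, σ i ^ k : ℝ) : ℂ) := by
    simp_rw [hTe]
    rw [Finset.sum_comm]
    refine Finset.sum_congr rfl fun k _ => ?_
    rw [← Finset.mul_sum, Complex.ofReal_sum]
  -- first part
  have n1 : ‖∑ i, Complex.exp (((t * σ i : ℝ) : ℂ) * Complex.I) - ∑ i, T (σ i)‖ ≤
      |t| ^ K / (K.factorial : ℝ) * (M * ∫ x, S x ^ K ∂P + D K) := by
    rw [← Finset.sum_sub_distrib]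
    refine (norm_sum_le _ _).trans ?_
    refine (Finset.sum_le_sum fun i _ => hE (σ i)).trans ?_
    rw [← Finset.mul_sum]
    refine mul_le_mul_of_nonneg_left ?_ (by positivity)
    have := (abs_le.mp (h K le_rfl)).2
    linarith
  -- second part
  have n2 : ‖∑ i, T (σ i) - (M : ℂ) * ∫ x, T (S x) ∂P‖ ≤
      ∑ k ∈ Finset.range K, |t| ^ k / (k.factorial : ℝ) * D k := by
    rw [eS, eT, Finset.mul_sum, ← Finset.sum_sub_distrib]
    refine (norm_sum_le _ _).trans (Finset.sum_le_sum fun k hk => ?_)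
    have e : (((t : ℂ) * Complex.I) ^ k / (k.factorial : ℂ)) * ((∑ i, σ i ^ k : ℝ) : ℂ) -
        (M : ℂ) * ((((t : ℂ) * Complex.I) ^ k / (k.factorial : ℂ)) *
          ((∫ x, S x ^ k ∂P : ℝ) : ℂ)) = (((t : ℂ) * Complex.I) ^ k / (k.factorial : ℂ)) *
        ((∑ i, σ i ^ k - M * ∫ x, S x ^ k ∂P : ℝ) : ℂ) := by
      push_cast
      ring
    rw [e, norm_mul, Complex.norm_real, Real.norm_eq_abs, norm_div, norm_pow, norm_mul,
      Complex.norm_I, mul_one, Complex.norm_real, Real.norm_eq_abs, Complex.norm_natCast]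
    exact mul_le_mul_of_nonneg_left (h k (Finset.mem_range.mp hk).le) (by positivity)
  -- third part
  have n3 : ‖(M : ℂ) * ∫ x, T (S x) ∂P -
      (M : ℂ) * ∫ x, Complex.exp (((t * S x : ℝ) : ℂ) * Complex.I) ∂P‖ ≤
      |t| ^ K / (K.factorial : ℝ) * (M * ∫ x, S x ^ K ∂P) := by
    rw [← mul_sub, norm_mul, Complex.norm_real, Real.norm_eq_abs, abs_of_nonneg hM, norm_sub_rev,
      ← integral_sub iE iT]
    have h1 : ‖∫ x, (Complex.exp (((t * S x : ℝ) : ℂ) * Complex.I) - T (S x)) ∂P‖ ≤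
        ∫ x, |t| ^ K / (K.factorial : ℝ) * S x ^ K ∂P :=
      norm_integral_le_of_norm_le ((hpow K).const_mul _)
        (Filter.Eventually.of_forall fun x => hE (S x))
    rw [integral_const_mul] at h1
    calc M * ‖∫ x, (Complex.exp (((t * S x : ℝ) : ℂ) * Complex.I) - T (S x)) ∂P‖ ≤
        M * (|t| ^ K / (K.factorial : ℝ) * ∫ x, S x ^ K ∂P) := mul_le_mul_of_nonneg_left h1 hM
      _ = _ := by ring
  have e0 : ∑ i, Complex.exp (((t * σ i : ℝ) : ℂ) * Complex.I) -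
      (M : ℂ) * ∫ x, Complex.exp (((t * S x : ℝ) : ℂ) * Complex.I) ∂P =
      (∑ i, Complex.exp (((t * σ i : ℝ) : ℂ) * Complex.I) - ∑ i, T (σ i)) +
      (∑ i, T (σ i) - (M : ℂ) * ∫ x, T (S x) ∂P) +
      ((M : ℂ) * ∫ x, T (S x) ∂P -
        (M : ℂ) * ∫ x, Complex.exp (((t * S x : ℝ) : ℂ) * Complex.I) ∂P) := by ring
  rw [e0]
  refine (norm_add₃_le).trans ?_
  rw [Finset.sum_range_succ]
  have := add_le_add (add_le_add n1 n2) n3
  refine this.trans (le_of_eq ?_)
  ring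

theorem NCF_loglog : Tendsto (fun N : ℕ => Real.log (Real.log N)) atTop atTop :=
  Real.tendsto_log_atTop.comp (Real.tendsto_log_atTop.comp tendsto_natCast_atTop_atTop)

/-- the variance tends to infinity -/
theorem NCF_var {δ : ℝ} (h0 : 0 < δ) (h1 : δ < 1) (B : ℝ) :
    ∀ᶠ N : ℕ in atTop, B ≤ ∑ p ∈ JN δ N, 1 / (p : ℝ) := by
  obtain ⟨C, N₀, hC⟩ := jn_sum h0 h1
  have h2 : ∀ᶠ x : ℝ in atTop, |C| * Real.log x ≤ (1 - δ) / 2 * x := by
    have h3 : 0 < (1 - δ) / 2 / (|C| + 1) := by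
      have : 0 < 1 - δ := by linarith
      positivity
    have h4 := (Real.isLittleO_log_id_atTop.bound h3)
    filter_upwards [h4, eventually_ge_atTop (1 : ℝ)] with x hx hx1
    rw [Real.norm_eq_abs, id, Real.norm_eq_abs, abs_of_nonneg (Real.log_nonneg hx1),
      abs_of_nonneg (by linarith : (0 : ℝ) ≤ x)] at hx
    have h5 : 0 ≤ Real.log x := Real.log_nonneg hx1
    have h6 : (|C| + 1) * Real.log x ≤ (1 - δ) / 2 * x := by
      calc (|C| + 1) * Real.log x ≤ (|C| + 1) * ((1 - δ) / 2 / (|C| + 1) * x) :=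
            mul_le_mul_of_nonneg_left hx (by positivity)
        _ = (1 - δ) / 2 * x := by
            have : |C| + 1 ≠ 0 := by positivity
            field_simp
    linarith
  have h3 : ∀ᶠ x : ℝ in atTop, B ≤ (1 - δ) / 2 * x := by
    have : Tendsto (fun x : ℝ => (1 - δ) / 2 * x) atTop atTop :=
      tendsto_id.const_mul_atTop (by linarith)
    exact this.eventually_ge_atTop B
  filter_upwards [NCF_loglog.eventually h2, NCF_loglog.eventually h3, eventually_ge_atTop N₀,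
    NCF_loglog.eventually (eventually_ge_atTop (1 : ℝ))] with N h4 h5 h6 h7
  have h8 := (abs_le.mp (hC N h6).1).1
  have h9 : C * Real.log (Real.log (Real.log N)) ≤ |C| * Real.log (Real.log (Real.log N)) :=
    mul_le_mul_of_nonneg_right (le_abs_self C) (Real.log_nonneg h7)
  linarith

/-- the length of the polynomials -/
theorem NCF_len {δ : ℝ} (h0 : 0 < δ) (K : ℕ) :
    ∀ᶠ N : ℕ in atTop, Real.exp (Real.log N ^ (1 - δ)) ^ K ≤ (N : ℝ) ^ (1 / 3000 : ℝ) := by
  have h1 : Tendsto (fun N : ℕ => Real.log N) atTop atTop :=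
    Real.tendsto_log_atTop.comp tendsto_natCast_atTop_atTop
  have h2 : ∀ᶠ x : ℝ in atTop, (K : ℝ) * x ^ (-δ) ≤ 1 / 3000 := by
    have h3 : Tendsto (fun x : ℝ => (K : ℝ) * x ^ (-δ)) atTop (𝓝 ((K : ℝ) * 0)) :=
      (tendsto_rpow_neg_atTop h0).const_mul _
    rw [mul_zero] at h3
    exact h3.eventually_le_const (by norm_num)
  filter_upwards [h1.eventually h2, h1.eventually (eventually_gt_atTop (0 : ℝ)),
    eventually_gt_atTop 0] with N h4 h5 h6
  have hN : (0 : ℝ) < N := by exact_mod_cast h6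
  rw [← Real.exp_nat_mul, Real.rpow_def_of_pos hN]
  refine Real.exp_le_exp.mpr ?_
  have e : Real.log N ^ (1 - δ) = Real.log N * Real.log N ^ (-δ) := by
    rw [sub_eq_add_neg, Real.rpow_add h5, Real.rpow_one]
  rw [e]
  calc (K : ℝ) * (Real.log N * Real.log N ^ (-δ)) = Real.log N * ((K : ℝ) * Real.log N ^ (-δ)) := by
        ring
    _ ≤ Real.log N * (1 / 3000) := mul_le_mul_of_nonneg_left h4 h5.le

/-- moments of the sum over newforms -/
theorem NCF_moment {N : ℕ} [Fact N.Prime] {ι : Type} [Fintype ι] {f : ι → S2 N}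
    (hf : AllEven f) {I : Finset ℕ} (hI : ∀ p ∈ I, p.Prime) {P : Measure (ℕ → ℝ)}
    (hP : IsModel I P) {Z K : ℕ} (hZ1 : 1 ≤ Z) (hZ : ∀ p ∈ I, p ≤ Z) (hZN : ∀ p ∈ I, p < N)
    (b : ℕ → ℝ) {ε' : ℝ} (hε : 0 ≤ ε')
    (ht : ∀ c : ℕ → ℝ, (∀ m, Z ^ K < m → c m = 0) →
      |∑ i, tau (f i) (Z ^ K) c - N / 24 * EP (Z ^ K) c| ≤ ε' * N * (1 + QP (Z ^ K) c))
    (hb : ∑ p ∈ I, b p ^ 2 = 1) {k : ℕ} (hk : k ≤ K) :
    |∑ i, (∑ p ∈ I, b p * la (f i) p) ^ k - N / 24 * ∫ x, (∑ p ∈ I, b p * x p) ^ k ∂P| ≤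
      ε' * N * (1 + ((2 * k).factorial : ℝ) * Real.exp 2) := by
  obtain ⟨c, hc, hG'⟩ := hpoly_mono (Nat.pow_le_pow_right hZ1 hk) (hpoly_pow hI hZ b k)
  have hG : ∀ x : ℕ → ℝ, (∑ p ∈ I, b p * x p) ^ k =
    ∑ m ∈ Finset.Icc 1 (Z ^ K), c m * Um m x := hG'
  have hcm : ∀ m, Z ^ K < m → c m = 0 := by
    intro m hm
    by_contra hne
    exact absurd (hc m hne).2.1 (not_le.mpr hm)
  have e1 : ∀ i, (∑ p ∈ I, b p * la (f i) p) ^ k = tau (f i) (Z ^ K) c := by
    intro i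
    have hn : IsNew (f i) := ((hf.2 (f i)).mpr ⟨i, rfl⟩).1
    rw [hG (la (f i))]
    unfold tau
    refine Finset.sum_congr rfl fun m _ => ?_
    by_cases hcz : c m = 0
    · rw [hcz, zero_mul, zero_mul]
    · obtain ⟨g1, g2, g3⟩ := hc m hcz
      have hco : m.Coprime N := by
        rw [Nat.coprime_comm, (Fact.out : N.Prime).coprime_iff_not_dvd]
        intro hd
        have : N ∈ m.primeFactors := Nat.mem_primeFactors.mpr ⟨Fact.out, hd, by omega⟩
        exact absurd (hZN N (g3 this)) (lt_irrefl _)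
      rw [um_new hn (new_real hn) (by omega) hco]
  have e2 : ∫ x, (∑ p ∈ I, b p * x p) ^ k ∂P = EP (Z ^ K) c := by
    rw [← model_mean hI hP hc]
    exact integral_congr_ae (Filter.Eventually.of_forall fun x => hG x)
  have e3 : ∫ x, (∑ p ∈ I, b p * x p) ^ (2 * k) ∂P = QP (Z ^ K) c := by
    rw [← model_sq hI hP hc]
    refine integral_congr_ae (Filter.Eventually.of_forall fun x => ?_)
    show (∑ p ∈ I, b p * x p) ^ (2 * k) = (∑ m ∈ Finset.Icc 1 (Z ^ K), c m * Um m x) ^ 2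
    rw [← hG x, ← pow_mul, mul_comm 2 k]
  have h4 := model_moment hI hP b k (s := 1) one_pos
  rw [e3, hb, one_pow, div_one, one_pow, mul_one, mul_one] at h4
  have h5 := ht c hcm
  simp_rw [e1]
  rw [e2]
  refine h5.trans ?_
  refine mul_le_mul_of_nonneg_left ?_ (by positivity)
  linarith

theorem nat_char_pr (hdim : ∀ δ : ℝ, 0 < δ → ∃ N₀ : ℕ, ∀ (N : ℕ) [Fact N.Prime], N₀ ≤ N →
      (1 / 24 - δ) * N ≤ ({f : S2 N | IsNew f ∧ co f N = 1}.ncard : ℝ))
    {δ ε : ℝ} (t : ℝ) (h0 : 0 < δ) (h1 : δ < 1) (hε : 0 < ε) :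
    ∃ N₀ : ℕ, ∀ (N : ℕ) [Fact N.Prime], N₀ ≤ N →
    ∀ {ι : Type} [Fintype ι] (f : ι → S2 N), AllEven f →
      ‖(∑ i, Complex.exp (((t * ((∑ p ∈ JN δ N, la (f i) p / Real.sqrt p) /
        Real.sqrt (∑ p ∈ JN δ N, 1 / (p : ℝ))) : ℝ) : ℂ) * Complex.I)) / (Fintype.card ι : ℂ) -
        (Real.exp (-t ^ 2 / 2) : ℂ)‖ ≤ ε := by
  -- parameters
  set eta : ℝ := min (1 / 48) (ε / 288) with heta
  have heta0 : 0 < eta := lt_min (by norm_num) (by positivity)
  have heta1 : eta ≤ 1 / 48 := min_le_left _ _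
  have heta2 : 144 * eta ≤ ε / 2 := by
    have : eta ≤ ε / 288 := min_le_right _ _
    linarith
  set s : ℝ := 2 * (|t| + 1) with hs
  have hs0 : 0 < s := by positivity
  obtain ⟨K', hK'⟩ : ∃ K' : ℕ, (1 / 4 : ℝ) ^ K' * Real.exp (2 * s ^ 2) ≤ eta := by
    obtain ⟨n, hn⟩ := exists_pow_lt_of_lt_one (x := eta / Real.exp (2 * s ^ 2)) (by positivity)
      (by norm_num : (1 / 4 : ℝ) < 1)
    refine ⟨n, ?_⟩
    rw [← le_div_iff₀ (Real.exp_pos _)]
    exact hn.le
  set K : ℕ := 2 * K' with hK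
  have hKe : Even K := even_two_mul K'
  set B : ℝ := ∑ k ∈ Finset.range (K + 1), |t| ^ k / (k.factorial : ℝ) *
    (1 + ((2 * k).factorial : ℝ) * Real.exp 2) with hB
  have hBnn : ∀ k ∈ Finset.range (K + 1), 0 ≤ |t| ^ k / (k.factorial : ℝ) *
    (1 + ((2 * k).factorial : ℝ) * Real.exp 2) := fun k _ => by positivity
  have hB1 : 1 + Real.exp 2 ≤ B := by
    have h2 := Finset.single_le_sum hBnn (Finset.mem_range.mpr (Nat.succ_pos K))
    simpa using h2
  have hB0 : 0 < B := lt_of_lt_of_le (by positivity) hB1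
  set ε' : ℝ := eta / (B + 1) with hε'
  have hε0 : 0 < ε' := by positivity
  have hεB : ε' * B ≤ eta := by
    rw [hε', div_mul_eq_mul_div, div_le_iff₀ (by positivity)]
    nlinarith
  obtain ⟨κ, hκ0, hκ⟩ := model_char (ε := ε / 2) (t := t) (by positivity)
  obtain ⟨N₁, hN₁⟩ := nat_trace hdim hε0
  have hev := ((NCF_var h0 h1 (1 / κ ^ 2)).and (NCF_len h0 (K + 1))).and
    ((NCF_loglog.eventually (eventually_ge_atTop (1 / κ))).and (eventually_ge_atTop (max N₁ 2)))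
  obtain ⟨N₀, hN₀⟩ := eventually_atTop.mp hev
  refine ⟨N₀, ?_⟩
  intro N _ hN ι _ f hf
  obtain ⟨⟨hV, hlen⟩, hll, hmax⟩ := hN₀ N hN
  have hNN₁ : N₁ ≤ N := le_trans (le_max_left _ _) hmax
  have hN2 : 2 ≤ N := le_trans (le_max_right _ _) hmax
  have hNpos : (0 : ℝ) < N := by positivity
  have hN1 : (1 : ℝ) < N := by exact_mod_cast hN2
  set I : Finset ℕ := JN δ N with hI
  have hIm : ∀ p ∈ I, p.Prime ∧ Real.log (Real.log N) < p ∧
      (p : ℝ) ≤ Real.exp (Real.log N ^ (1 - δ)) := by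
    intro p hp
    rw [hI, JN, Finset.mem_filter, IN, Finset.mem_filter] at hp
    exact ⟨hp.1.2.1, hp.1.2.2, hp.2⟩
  have hIp : ∀ p ∈ I, p.Prime := fun p hp => (hIm p hp).1
  set V : ℝ := ∑ p ∈ I, 1 / (p : ℝ) with hVd
  have hV0 : 0 < V := lt_of_lt_of_le (by positivity) hV
  have hsV : 0 < Real.sqrt V := Real.sqrt_pos.mpr hV0
  set Z : ℕ := ⌊Real.exp (Real.log N ^ (1 - δ))⌋₊ with hZ
  have hlog0 : 0 ≤ Real.log N := Real.log_nonneg hN1.le
  have hZ1 : 1 ≤ Z := by
    rw [hZ, Nat.one_le_floor_iff]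
    exact Real.one_le_exp (Real.rpow_nonneg hlog0 _)
  have hZp : ∀ p ∈ I, p ≤ Z := fun p hp => Nat.le_floor (hIm p hp).2.2
  have hZr : (Z : ℝ) ≤ Real.exp (Real.log N ^ (1 - δ)) := Nat.floor_le (Real.exp_pos _).le
  have hE1 : 1 ≤ Real.exp (Real.log N ^ (1 - δ)) := Real.one_le_exp (Real.rpow_nonneg hlog0 _)
  have hXle : ((Z ^ K : ℕ) : ℝ) ≤ (N : ℝ) ^ (1 / 3000 : ℝ) := by
    push_cast
    calc (Z : ℝ) ^ K ≤ Real.exp (Real.log N ^ (1 - δ)) ^ K := pow_le_pow_left₀ (by positivity) hZr K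
      _ ≤ Real.exp (Real.log N ^ (1 - δ)) ^ (K + 1) := pow_le_pow_right₀ hE1 (Nat.le_succ K)
      _ ≤ _ := hlen
  have hZN : ∀ p ∈ I, p < N := by
    intro p hp
    have h2 : (p : ℝ) < N := by
      calc (p : ℝ) ≤ Real.exp (Real.log N ^ (1 - δ)) := (hIm p hp).2.2
        _ ≤ Real.exp (Real.log N ^ (1 - δ)) ^ (K + 1) := le_self_pow₀ hE1 (Nat.succ_ne_zero K)
        _ ≤ (N : ℝ) ^ (1 / 3000 : ℝ) := hlen
        _ < (N : ℝ) ^ (1 : ℝ) := Real.rpow_lt_rpow_of_exponent_lt hN1 (by norm_num)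
        _ = N := Real.rpow_one _
    exact_mod_cast h2
  obtain ⟨P, hP⟩ := model_exists I hIp
  have hprob := hP.prob
  set b : ℕ → ℝ := fun p => 1 / (Real.sqrt p * Real.sqrt V) with hb
  have hb2 : ∀ p : ℕ, b p ^ 2 = 1 / (p : ℝ) / V := by
    intro p
    rw [hb]
    show (1 / (Real.sqrt p * Real.sqrt V)) ^ 2 = 1 / (p : ℝ) / V
    rw [div_pow, mul_pow, Real.sq_sqrt (Nat.cast_nonneg p), Real.sq_sqrt hV0.le, one_pow, div_div]
  have hbs : ∑ p ∈ I, b p ^ 2 = 1 := by
    simp_rw [hb2]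
    rw [← Finset.sum_div, div_self hV0.ne']
  have hS : ∀ y : ℕ → ℝ, (∑ p ∈ I, y p / Real.sqrt p) / Real.sqrt V = ∑ p ∈ I, b p * y p := by
    intro y
    rw [Finset.sum_div]
    refine Finset.sum_congr rfl fun p _ => ?_
    rw [hb]
    show y p / Real.sqrt p / Real.sqrt V = 1 / (Real.sqrt p * Real.sqrt V) * y p
    rw [div_div, one_div, div_eq_mul_inv, mul_comm]
  have hbκ : ∀ p ∈ I, |b p| ≤ κ ∧ 1 / (p : ℝ) ≤ κ := by
    intro p hp
    have hp1 : (1 : ℝ) ≤ p := by exact_mod_cast (hIp p hp).one_le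
    have hp0 : (0 : ℝ) < p := by linarith
    constructor
    · have h3 : b p ^ 2 ≤ κ ^ 2 := by
        rw [hb2]
        have h4 : 1 / (p : ℝ) / V ≤ 1 / V := by
          rw [div_div]
          exact one_div_le_one_div_of_le hV0 (by nlinarith)
        refine h4.trans ?_
        rw [div_le_iff₀ hV0]
        rw [div_le_iff₀ (by positivity)] at hV
        linarith
      exact abs_le_of_sq_le_sq' h3 hκ0.le |> abs_le.mpr
    · have h3 : 1 / κ ≤ (p : ℝ) := hll.trans (hIm p hp).2.1.le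
      rw [div_le_iff₀ hκ0] at h3
      rw [div_le_iff₀ hp0]
      linarith
  have hchar := hκ I hIp P hP b hbs hbκ
  have ht := fun c hc => hN₁ N hNN₁ f hf (Z ^ K) (Nat.one_le_pow _ _ hZ1) hXle c hc
  have hmom : ∀ k ≤ K, |∑ i, (∑ p ∈ I, b p * la (f i) p) ^ k -
      N / 24 * ∫ x, (∑ p ∈ I, b p * x p) ^ k ∂P| ≤
      ε' * N * (1 + ((2 * k).factorial : ℝ) * Real.exp 2) :=
    fun k hk => NCF_moment hf hIp hP hZ1 hZp hZN b hε0.le ht hbs hk
  have hSm : Measurable (fun x : ℕ → ℝ => ∑ p ∈ I, b p * x p) :=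
    Finset.measurable_fun_sum _ fun p _ => (measurable_pi_apply p).const_mul _
  have hSb : ∀ᵐ x ∂P, |∑ p ∈ I, b p * x p| ≤ ∑ p ∈ I, |b p| * 2 := by
    filter_upwards [hP.bdd] with x hx
    refine (Finset.abs_sum_le_sum_abs _ _).trans (Finset.sum_le_sum fun p hp => ?_)
    rw [abs_mul]
    exact mul_le_mul_of_nonneg_left (hx p hp) (abs_nonneg _)
  have hcore := NCF_core P hSm hSb (fun i => ∑ p ∈ I, b p * la (f i) p) t
    (M := (N : ℝ) / 24) (by positivity) hKe
    (fun k => ε' * N * (1 + ((2 * k).factorial : ℝ) * Real.exp 2)) hmom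
  have hES : ∫ x, (∑ p ∈ I, b p * x p) ^ K ∂P ≤ (K.factorial : ℝ) / s ^ K * Real.exp (2 * s ^ 2) := by
    have h3 := model_moment hIp hP b K' hs0
    rw [hbs, mul_one] at h3
    exact h3
  have hT1 : 2 * ((N : ℝ) / 24) * (|t| ^ K / (K.factorial : ℝ) *
      ∫ x, (∑ p ∈ I, b p * x p) ^ K ∂P) ≤ eta * N := by
    have hf0 : (0 : ℝ) < (K.factorial : ℝ) := by exact_mod_cast K.factorial_pos
    have h3 : |t| ^ K / (K.factorial : ℝ) * ∫ x, (∑ p ∈ I, b p * x p) ^ K ∂P ≤ eta := by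
      calc |t| ^ K / (K.factorial : ℝ) * ∫ x, (∑ p ∈ I, b p * x p) ^ K ∂P ≤
          |t| ^ K / (K.factorial : ℝ) * ((K.factorial : ℝ) / s ^ K * Real.exp (2 * s ^ 2)) :=
            mul_le_mul_of_nonneg_left hES (by positivity)
        _ = (|t| / s) ^ K * Real.exp (2 * s ^ 2) := by
            rw [div_pow]
            field_simp
        _ ≤ (1 / 2) ^ K * Real.exp (2 * s ^ 2) := by
            refine mul_le_mul_of_nonneg_right ?_ (Real.exp_pos _).le
            refine pow_le_pow_left₀ (by positivity) ?_ K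
            rw [div_le_iff₀ hs0, hs]
            have := abs_nonneg t
            linarith
        _ = (1 / 4) ^ K' * Real.exp (2 * s ^ 2) := by
            rw [hK, pow_mul]
            norm_num
        _ ≤ eta := hK'
    have h4 := mul_le_mul_of_nonneg_left h3 (by positivity : 0 ≤ 2 * ((N : ℝ) / 24))
    refine h4.trans ?_
    nlinarith
  have hT2 : ∑ k ∈ Finset.range (K + 1), |t| ^ k / (k.factorial : ℝ) *
      (ε' * N * (1 + ((2 * k).factorial : ℝ) * Real.exp 2)) ≤ eta * N := by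
    have e : ∑ k ∈ Finset.range (K + 1), |t| ^ k / (k.factorial : ℝ) *
      (ε' * N * (1 + ((2 * k).factorial : ℝ) * Real.exp 2)) = ε' * B * N := by
      rw [hB, Finset.mul_sum, Finset.sum_mul]
      exact Finset.sum_congr rfl fun k _ => by ring
    rw [e]
    exact mul_le_mul_of_nonneg_right hεB hNpos.le
  have hcard : |(Fintype.card ι : ℝ) - N / 24| ≤ eta * N := by
    have h3 := hmom 0 (Nat.zero_le _)
    simp only [pow_zero, Finset.sum_const, Finset.card_univ, nsmul_eq_mul, mul_one,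
      integral_const, probReal_univ, smul_eq_mul, mul_zero, Nat.factorial_zero, Nat.cast_one,
      one_mul] at h3
    refine h3.trans ?_
    have h4 : ε' * (1 + Real.exp 2) ≤ eta := (mul_le_mul_of_nonneg_left hB1 hε0.le).trans hεB
    calc ε' * N * (1 + Real.exp 2) = ε' * (1 + Real.exp 2) * N := by ring
      _ ≤ eta * N := mul_le_mul_of_nonneg_right h4 hNpos.le
  have hn0 : (N : ℝ) / 48 ≤ (Fintype.card ι : ℝ) := by
    have h3 := (abs_le.mp hcard).1
    have h4 : eta * N ≤ 1 / 48 * N := mul_le_mul_of_nonneg_right heta1 hNpos.le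
    linarith
  have hnpos : (0 : ℝ) < (Fintype.card ι : ℝ) := lt_of_lt_of_le (by positivity) hn0
  -- conclusion
  have eσ : ∀ i, (∑ p ∈ I, la (f i) p / Real.sqrt p) / Real.sqrt V =
      ∑ p ∈ I, b p * la (f i) p := fun i => hS (la (f i))
  simp_rw [eσ]
  set E : ℂ := ∫ x, Complex.exp (((t * ∑ p ∈ I, b p * x p : ℝ) : ℂ) * Complex.I) ∂P with hEd
  set A : ℂ := ∑ i, Complex.exp (((t * ∑ p ∈ I, b p * la (f i) p : ℝ) : ℂ) * Complex.I) with hAd
  have hEn : ‖E‖ ≤ 1 := by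
    have := norm_integral_le_of_norm_le_const (μ := P)
      (f := fun x : ℕ → ℝ => Complex.exp (((t * ∑ p ∈ I, b p * x p : ℝ) : ℂ) * Complex.I)) (C := 1)
      (Filter.Eventually.of_forall fun x => (Complex.norm_exp_ofReal_mul_I _).le)
    rw [probReal_univ, mul_one] at this
    exact this
  have hAE : ‖A - ((N / 24 : ℝ) : ℂ) * E‖ ≤ 2 * eta * N := by
    have h3 := hcore.trans (add_le_add hT1 hT2)
    refine h3.trans (le_of_eq (by ring))
  set n : ℝ := (Fintype.card ι : ℝ) with hnd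
  have hnc : (Fintype.card ι : ℂ) = (n : ℂ) := by
    rw [hnd]
    push_cast
    rfl
  rw [hnc]
  have hnne : (n : ℂ) ≠ 0 := by exact_mod_cast hnpos.ne'
  have e5 : A / (n : ℂ) - (Real.exp (-t ^ 2 / 2) : ℂ) =
      (A - ((N / 24 : ℝ) : ℂ) * E) / (n : ℂ) + ((N / 24 - n : ℝ) : ℂ) * E / (n : ℂ) +
        (E - (Real.exp (-t ^ 2 / 2) : ℂ)) := by
    push_cast
    field_simp
    ring
  rw [e5]
  refine (norm_add₃_le).trans ?_
  have hNn : (N : ℝ) ≤ 48 * n := by linarith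
  have g1 : ‖(A - ((N / 24 : ℝ) : ℂ) * E) / (n : ℂ)‖ ≤ 96 * eta := by
    rw [norm_div, Complex.norm_real, Real.norm_eq_abs, abs_of_pos hnpos, div_le_iff₀ hnpos]
    refine hAE.trans ?_
    nlinarith
  have g2 : ‖((N / 24 - n : ℝ) : ℂ) * E / (n : ℂ)‖ ≤ 48 * eta := by
    rw [norm_div, norm_mul, Complex.norm_real, Complex.norm_real, Real.norm_eq_abs,
      Real.norm_eq_abs, abs_of_pos hnpos, div_le_iff₀ hnpos, abs_sub_comm]
    calc |n - N / 24| * ‖E‖ ≤ |n - N / 24| * 1 := mul_le_mul_of_nonneg_left hEn (abs_nonneg _)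
      _ = |n - N / 24| := mul_one _
      _ ≤ eta * N := hcard
      _ ≤ 48 * eta * n := by nlinarith
  have := add_le_add (add_le_add g1 g2) hchar
  linarith

theorem nat_char : type_of% @nat_char_pr := @nat_char_pr

end Pool.Agent.LEV
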