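import Pool.Agent.Lib_helper68.LEV.DefsG

namespace Pool.Agent.LEV

open Complex MeasureTheory Filter Topology UpperHalfPlane ModularGroup ProbabilityTheory

open scoped MatrixGroups Modular ENNReal ModularForm ComplexConjugate ContDiff

theorem char_tail_pr (μ : ℕ → Measure ℝ) [∀ k, IsProbabilityMeasure (μ k)]
    (h : ∀ t : ℝ, Tendsto (fun k => charFun (μ k) t) atTop (𝓝 (Real.exp (-t ^ 2 / 2) : ℂ)))
    (v : ℝ) {ε : ℝ} (hε : 0 < ε) :
    ∀ᶠ k in atTop, (μ k).real (Set.Ici v) ≤ (gaussianReal 0 1).real (Set.Ici v) + ε := by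
  let P : ℕ → ProbabilityMeasure ℝ := fun k => ⟨μ k, inferInstance⟩
  let P₀ : ProbabilityMeasure ℝ := ⟨gaussianReal 0 1, inferInstance⟩
  have hP : Tendsto P atTop (𝓝 P₀) := by
    apply ProbabilityMeasure.tendsto_of_tendsto_charFun
    intro t
    have e : charFun (P₀ : Measure ℝ) t = (Real.exp (-t ^ 2 / 2) : ℂ) := by
      change charFun (gaussianReal 0 1) t = _
      rw [charFun_gaussianReal]
      push_cast
      congr 1
      ring
    rw [e]
    exact h t
  have hl := ProbabilityMeasure.limsup_measure_closed_le_of_tendsto hP (isClosed_Ici (a := v))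
  have hl' : (atTop.limsup fun k => μ k (Set.Ici v)) ≤ gaussianReal 0 1 (Set.Ici v) := hl
  have hfin : gaussianReal 0 1 (Set.Ici v) ≠ ⊤ := measure_ne_top _ _
  have hlt : (atTop.limsup fun k => μ k (Set.Ici v))
      < gaussianReal 0 1 (Set.Ici v) + ENNReal.ofReal ε := by
    refine lt_of_le_of_lt hl' ?_
    exact ENNReal.lt_add_right hfin (by simpa using hε)
  have hev := Filter.eventually_lt_of_limsup_lt hlt
  filter_upwards [hev] with k hk
  have h1 := ENNReal.toReal_mono (by finiteness) hk.le
  rw [ENNReal.toReal_add hfin (by finiteness), ENNReal.toReal_ofReal hε.le] at h1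
  exact h1

theorem char_tail : type_of% @char_tail_pr := @char_tail_pr

end Pool.Agent.LEV
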