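import Pool.Agent.Lib_helper68.LEV.DefsG
import Pool.Agent.Lib_helper68.LEV.EIA
import Pool.Agent.Lib_helper68.LEV.JNS
import Pool.Agent.Lib_helper68.LEV.LSD
import Pool.Agent.Lib_helper68.LEV.NAT
import Pool.Agent.Lib_helper68.LEV.PET

/-!
# LEVG, block TLS: the primes that were left out
-/

namespace Pool.Agent.LEV

open Complex MeasureTheory Filter Topology UpperHalfPlane ModularGroup ProbabilityTheory
open scoped MatrixGroups Modular ENNReal ModularForm ComplexConjugate ContDiff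

private theorem TLS_L2 : Tendsto (fun N : ℕ => Real.log (Real.log (N : ℝ))) atTop atTop :=
  Real.tendsto_log_atTop.comp (Real.tendsto_log_atTop.comp tendsto_natCast_atTop_atTop)

private theorem TLS_small {c : ℝ} (hc : 0 < c) (C : ℝ) : ∀ᶠ N : ℕ in atTop,
    C * Real.log (Real.log (Real.log (N : ℝ))) ≤ c * Real.log (Real.log (N : ℝ)) := by
  have h1 : ∀ᶠ x : ℝ in atTop, C * Real.log x ≤ c * x := by
    have hc' : 0 < c / (|C| + 1) := by positivity
    filter_upwards [Real.isLittleO_log_id_atTop.bound hc', eventually_ge_atTop (1 : ℝ)]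
      with x hx hx1
    rw [id, Real.norm_eq_abs, Real.norm_eq_abs, abs_of_nonneg (by linarith : (0 : ℝ) ≤ x),
      abs_of_nonneg (Real.log_nonneg hx1)] at hx
    have hl : 0 ≤ Real.log x := Real.log_nonneg hx1
    calc C * Real.log x ≤ |C| * Real.log x := mul_le_mul_of_nonneg_right (le_abs_self C) hl
      _ ≤ (|C| + 1) * Real.log x := by nlinarith
      _ ≤ (|C| + 1) * (c / (|C| + 1) * x) := mul_le_mul_of_nonneg_left hx (by positivity)
      _ = c * x := by field_simp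
  exact TLS_L2.eventually h1

private theorem TLS_zN : ∀ᶠ N : ℕ in atTop, zN N ≤ N := by
  filter_upwards [TLS_L2.eventually_ge_atTop 1, eventually_ge_atTop 2] with N h1 h2
  have hN : (1 : ℝ) < N := by exact_mod_cast (by omega : 1 < N)
  have hlog : 0 < Real.log N := Real.log_pos hN
  unfold zN
  calc Real.exp (Real.log N / Real.log (Real.log N) ^ 2) ≤ Real.exp (Real.log N) := by
        apply Real.exp_le_exp.mpr
        apply div_le_self hlog.le
        nlinarith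
    _ = N := Real.exp_log (by linarith)

/-- the difference is a sum over the primes that were left out -/
private theorem TLS_diff {N : ℕ} (f : S2 N) (δ : ℝ) :
    Pf f - ∑ p ∈ JN δ N, la f p / Real.sqrt p = ∑ p ∈ IN N \ JN δ N, (co f p).re / p := by
  have hsub : JN δ N ⊆ IN N := Finset.filter_subset _ _
  have h1 : ∑ p ∈ JN δ N, la f p / Real.sqrt p = ∑ p ∈ JN δ N, (co f p).re / p := by
    refine Finset.sum_congr rfl fun p _ => ?_
    unfold la
    rw [div_div, Real.mul_self_sqrt (Nat.cast_nonneg p)]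
  rw [h1, Pf, ← Finset.sum_sdiff hsub]
  ring

/-- the harmonic second moment -/
private theorem TLS_sieve {C : ℝ} {N : ℕ} [Fact N.Prime] {ι : Type} [Fintype ι]
    (f : ι → S2 N)
    (h : ∀ (X : ℕ) (b : ℕ → ℂ),
      ∑ i, 1 / nr (f i) * ‖∑ n ∈ Finset.Icc 1 X, b n * (co (f i) n / (Real.sqrt n : ℂ))‖ ^ 2 ≤
        C * (1 + X / N) * ∑ n ∈ Finset.Icc 1 X, ‖b n‖ ^ 2)
    (hpos : ∀ i, 0 < nr (f i)) (hC : 0 < C) (hz : zN N ≤ N) (δ : ℝ) :
    ∑ i, 1 / nr (f i) * (∑ p ∈ IN N \ JN δ N, (co (f i) p).re / p) ^ 2 ≤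
      C * 2 * ∑ p ∈ IN N \ JN δ N, 1 / (p : ℝ) := by
  classical
  have hNpos : (0 : ℝ) < N := by exact_mod_cast (Fact.out : N.Prime).pos
  set D : Finset ℕ := IN N \ JN δ N with hD
  have hDsub : D ⊆ Finset.Icc 1 ⌊zN N⌋₊ := by
    intro p hp
    have : p ∈ IN N := (Finset.mem_sdiff.mp hp).1
    exact (Finset.mem_filter.mp this).1
  have h1 := h ⌊zN N⌋₊ (fun n => if n ∈ D then ((1 / Real.sqrt n : ℝ) : ℂ) else 0)
  -- the coefficient sum
  have h2 : ∑ n ∈ Finset.Icc 1 ⌊zN N⌋₊,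
      ‖(if n ∈ D then ((1 / Real.sqrt n : ℝ) : ℂ) else 0 : ℂ)‖ ^ 2 = ∑ p ∈ D, 1 / (p : ℝ) := by
    rw [← Finset.sum_subset hDsub (f := fun n =>
      ‖(if n ∈ D then ((1 / Real.sqrt n : ℝ) : ℂ) else 0 : ℂ)‖ ^ 2)]
    · refine Finset.sum_congr rfl fun p hp => ?_
      rw [if_pos hp, Complex.norm_real, Real.norm_eq_abs, sq_abs, div_pow, one_pow,
        Real.sq_sqrt (Nat.cast_nonneg p)]
    · intro n _ hn
      rw [if_neg hn, norm_zero]
      norm_num
  have h3 : ∀ i, (∑ p ∈ D, (co (f i) p).re / p) ^ 2 ≤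
      ‖∑ n ∈ Finset.Icc 1 ⌊zN N⌋₊, (if n ∈ D then ((1 / Real.sqrt n : ℝ) : ℂ) else 0) *
        (co (f i) n / (Real.sqrt n : ℂ))‖ ^ 2 := by
    intro i
    have h4 : ∑ n ∈ Finset.Icc 1 ⌊zN N⌋₊, (if n ∈ D then ((1 / Real.sqrt n : ℝ) : ℂ) else 0) *
        (co (f i) n / (Real.sqrt n : ℂ)) = ∑ p ∈ D, co (f i) p / ((p : ℝ) : ℂ) := by
      rw [← Finset.sum_subset hDsub (f := fun n =>
        (if n ∈ D then ((1 / Real.sqrt n : ℝ) : ℂ) else 0) * (co (f i) n / (Real.sqrt n : ℂ)))]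
      · refine Finset.sum_congr rfl fun p hp => ?_
        rw [if_pos hp]
        have h5 : ((Real.sqrt p : ℝ) : ℂ) * ((Real.sqrt p : ℝ) : ℂ) = ((p : ℝ) : ℂ) := by
          rw [← Complex.ofReal_mul, Real.mul_self_sqrt (Nat.cast_nonneg p)]
        rw [← h5]
        push_cast
        ring
      · intro n _ hn
        rw [if_neg hn, zero_mul]
    rw [h4]
    have h6 : (∑ p ∈ D, (co (f i) p).re / p) = (∑ p ∈ D, co (f i) p / ((p : ℝ) : ℂ)).re := by
      rw [Complex.re_sum]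
      refine Finset.sum_congr rfl fun p _ => ?_
      rw [Complex.div_ofReal_re]
    rw [h6, ← sq_abs]
    exact pow_le_pow_left₀ (abs_nonneg _) (Complex.abs_re_le_norm _) 2
  have h7 : ∑ i, 1 / nr (f i) * (∑ p ∈ D, (co (f i) p).re / p) ^ 2 ≤
      ∑ i, 1 / nr (f i) * ‖∑ n ∈ Finset.Icc 1 ⌊zN N⌋₊,
        (if n ∈ D then ((1 / Real.sqrt n : ℝ) : ℂ) else 0) *
          (co (f i) n / (Real.sqrt n : ℂ))‖ ^ 2 := by
    refine Finset.sum_le_sum fun i _ => ?_
    exact mul_le_mul_of_nonneg_left (h3 i) (one_div_pos.mpr (hpos i)).le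
  refine h7.trans (h1.trans ?_)
  rw [h2]
  have h8 : (⌊zN N⌋₊ : ℝ) / N ≤ 1 := by
    rw [div_le_one hNpos]
    exact (Nat.floor_le (Real.exp_pos _).le).trans hz
  have h9 : 0 ≤ ∑ p ∈ D, 1 / (p : ℝ) := Finset.sum_nonneg fun p _ => by positivity
  refine mul_le_mul_of_nonneg_right ?_ h9
  exact mul_le_mul_of_nonneg_left (by linarith) hC.le

/-- the primes that were left out -/
theorem tail_small_pr {ε : ℝ} (hε : 0 < ε) : ∃ δ : ℝ, 0 < δ ∧ δ < 1 ∧ ∃ N₀ : ℕ,
    ∀ (N : ℕ) [Fact N.Prime], N₀ ≤ N →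
      ({f : S2 N | IsNew f ∧ ε * Real.sqrt (Real.log (Real.log N)) ≤
        |Pf f - ∑ p ∈ JN δ N, la f p / Real.sqrt p|}.ncard : ℝ) ≤ ε * N ∧
      |Real.sqrt (∑ p ∈ JN δ N, 1 / (p : ℝ)) - Real.sqrt (Real.log (Real.log N))| ≤
        ε * Real.sqrt (Real.log (Real.log N)) := by
  classical
  obtain ⟨C, hC, hLS⟩ := large_sieve
  obtain ⟨C₂, hC₂, hnat⟩ := nat_of_harm
  obtain ⟨C₃, hC₃, hfin⟩ := new_fin
  -- the choice of `δ`
  set δ : ℝ := min (min (1 / 2) (ε / 4)) (ε ^ 4 / (4 * C * C₂ ^ 2)) with hδ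
  have hδ0 : 0 < δ := by
    rw [hδ]; positivity
  have hδ1 : δ ≤ 1 / 2 := (min_le_left _ _).trans (min_le_left _ _)
  have hδ2 : δ ≤ ε / 4 := (min_le_left _ _).trans (min_le_right _ _)
  have hδ3 : δ ≤ ε ^ 4 / (4 * C * C₂ ^ 2) := min_le_right _ _
  obtain ⟨C₁, N₁, hjn⟩ := jn_sum hδ0 (by linarith : δ < 1)
  refine ⟨δ, hδ0, by linarith, ?_⟩
  have hev := (TLS_zN.and (TLS_small hδ0 C₁)).and ((TLS_small hδ0 (-C₁)).and
    ((TLS_L2.eventually_ge_atTop 1).and (eventually_ge_atTop N₁)))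
  obtain ⟨N₀, hN₀⟩ := eventually_atTop.mp hev
  refine ⟨N₀, fun N _ hN => ?_⟩
  obtain ⟨⟨hz, hs1⟩, hs2, hL1, hNN⟩ := hN₀ N hN
  obtain ⟨hj1, hj2⟩ := hjn N hNN
  set L : ℝ := Real.log (Real.log N) with hL
  have hNpos : (0 : ℝ) < N := by exact_mod_cast (Fact.out : N.Prime).pos
  have hLpos : 0 < L := by linarith
  have hsL : 0 < Real.sqrt L := Real.sqrt_pos.mpr hLpos
  have hsL2 : Real.sqrt L ^ 2 = L := Real.sq_sqrt hLpos.le
  constructor
  · -- counting
    have hF : {f : S2 N | IsNew f}.Finite := (hfin N).1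
    let ι : Type := {f : S2 N // IsNew f}
    have hιf : Finite ι := hF.to_subtype
    let _ : Fintype ι := Fintype.ofFinite ι
    let s : Finset ι := Finset.univ.filter fun i : ι => ε * Real.sqrt L ≤
        |Pf i.1 - ∑ p ∈ JN δ N, la i.1 p / Real.sqrt p|
    have hcard : {f : S2 N | IsNew f ∧ ε * Real.sqrt L ≤
        |Pf f - ∑ p ∈ JN δ N, la f p / Real.sqrt p|}.ncard = s.card := by
      rw [← Set.ncard_coe_finset, ← Set.ncard_image_of_injective _
        (Subtype.val_injective (p := fun f : S2 N => IsNew f))]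
      congr 1
      ext f
      constructor
      · rintro ⟨h1, h2⟩
        exact ⟨⟨f, h1⟩, by simp only [s, Finset.coe_filter, Finset.mem_univ, true_and]; exact h2, rfl⟩
      · rintro ⟨⟨g, hg⟩, h2, rfl⟩
        simp only [s, Finset.coe_filter, Finset.mem_univ, true_and] at h2
        exact ⟨hg, h2⟩
    rw [hcard]
    have hne : ∀ i : ι, i.1 ≠ 0 := fun i => new_ne_zero i.2
    have hpos : ∀ i : ι, 0 < nr i.1 := fun i => nr_pos (hne i)
    have hsieve := TLS_sieve (C := C) (fun i : ι => i.1)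
      (hLS N (fun i : ι => i.1) hne fun i j hij =>
        new_orth i.2 j.2 fun h => hij (Subtype.ext h)) hpos hC hz δ
    have h1 := hnat N (fun i : ι => i.1) Subtype.val_injective (fun i => i.2) s
    have h2 : ∑ i ∈ s, 1 / nr i.1 ≤ C * 2 * (2 * δ) / ε ^ 2 := by
      have h3 : ∑ i ∈ s, 1 / nr i.1 ≤
          ∑ i ∈ s, 1 / nr i.1 * (∑ p ∈ IN N \ JN δ N, (co i.1 p).re / p) ^ 2 / (ε ^ 2 * L) := by
        refine Finset.sum_le_sum fun i hi => ?_
        have h4 : ε * Real.sqrt L ≤ |∑ p ∈ IN N \ JN δ N, (co i.1 p).re / p| := by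
          rw [← TLS_diff]
          exact (Finset.mem_filter.mp hi).2
        have h5 : ε ^ 2 * L ≤ (∑ p ∈ IN N \ JN δ N, (co i.1 p).re / p) ^ 2 := by
          have h6 := pow_le_pow_left₀ (by positivity) h4 2
          rw [mul_pow, hsL2, sq_abs] at h6
          exact h6
        rw [mul_div_assoc]
        refine le_mul_of_one_le_right (one_div_pos.mpr (hpos i)).le ?_
        rw [one_le_div (by positivity)]
        exact h5
      refine h3.trans ?_
      rw [← Finset.sum_div]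
      have h7 : ∑ i ∈ s, 1 / nr i.1 * (∑ p ∈ IN N \ JN δ N, (co i.1 p).re / p) ^ 2 ≤
          C * 2 * (2 * δ * L) := by
        refine (Finset.sum_le_sum_of_subset_of_nonneg (Finset.subset_univ s) fun i _ _ =>
          mul_nonneg (one_div_pos.mpr (hpos i)).le (sq_nonneg _)).trans (hsieve.trans ?_)
        refine mul_le_mul_of_nonneg_left ?_ (by positivity)
        have h8 := (abs_le.mp hj2).2
        linarith
      calc (∑ i ∈ s, 1 / nr i.1 * (∑ p ∈ IN N \ JN δ N, (co i.1 p).re / p) ^ 2) / (ε ^ 2 * L)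
          ≤ C * 2 * (2 * δ * L) / (ε ^ 2 * L) := div_le_div_of_nonneg_right h7 (by positivity)
        _ = C * 2 * (2 * δ) / ε ^ 2 := by field_simp
    refine h1.trans ?_
    have h3 : Real.sqrt (∑ i ∈ s, 1 / nr i.1) ≤ ε / C₂ := by
      refine Real.sqrt_le_iff.mpr ⟨by positivity, h2.trans ?_⟩
      rw [div_pow, div_le_div_iff₀ (by positivity) (by positivity)]
      rw [le_div_iff₀ (by positivity)] at hδ3
      nlinarith [hδ3]
    calc C₂ * N * Real.sqrt (∑ i ∈ s, 1 / nr i.1) ≤ C₂ * N * (ε / C₂) :=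
          mul_le_mul_of_nonneg_left h3 (by positivity)
      _ = ε * N := by field_simp
  · -- the size of the sum
    set S : ℝ := ∑ p ∈ JN δ N, 1 / (p : ℝ) with hS
    have hS0 : 0 ≤ S := Finset.sum_nonneg fun p _ => by positivity
    have h1 : |S - L| ≤ ε * L := by
      rw [abs_le] at hj1 ⊢
      constructor <;> nlinarith [hj1.1, hj1.2]
    have h2 : (Real.sqrt S - Real.sqrt L) * (Real.sqrt S + Real.sqrt L) = S - L := by
      have e1 := Real.sq_sqrt hS0
      nlinarith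
    have h3 : 0 ≤ Real.sqrt S := Real.sqrt_nonneg S
    have h4 : |Real.sqrt S - Real.sqrt L| * Real.sqrt L ≤ ε * L := by
      calc |Real.sqrt S - Real.sqrt L| * Real.sqrt L
          ≤ |Real.sqrt S - Real.sqrt L| * (Real.sqrt S + Real.sqrt L) :=
            mul_le_mul_of_nonneg_left (by linarith) (abs_nonneg _)
        _ = |S - L| := by
            rw [← h2, abs_mul, abs_of_nonneg (by linarith : 0 ≤ Real.sqrt S + Real.sqrt L)]
        _ ≤ ε * L := h1
    have h5 : |Real.sqrt S - Real.sqrt L| * Real.sqrt L ≤ (ε * Real.sqrt L) * Real.sqrt L := by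
      rw [mul_assoc, ← sq, hsL2]; exact h4
    exact le_of_mul_le_mul_right h5 hsL

theorem tail_small : type_of% @tail_small_pr := @tail_small_pr

end Pool.Agent.LEV
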