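import Pool.Agent.Lib_helper68.LEV.DefsC
import Pool.Agent.Lib_helper68.LEV.EIA
import Pool.Agent.Lib_helper68.LEV.HAR
import Pool.Agent.Lib_helper68.LEV.HMO
import Pool.Agent.Lib_helper68.LEV.NAT
import Pool.Agent.Lib_helper68.LEV.PET

set_option autoImplicit false

namespace Pool.Agent.LEV

open Complex MeasureTheory Filter Topology UpperHalfPlane ModularGroup
open scoped MatrixGroups Modular ENNReal ModularForm ComplexConjugate ContDiff

theorem TOP_tendsto : Tendsto (fun N : ℕ => Real.log (Real.log (N : ℝ))) atTop atTop :=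
  Real.tendsto_log_atTop.comp (Real.tendsto_log_atTop.comp tendsto_natCast_atTop_atTop)

theorem TOP_ge (a : ℝ) : ∃ N₀ : ℕ, ∀ N : ℕ, N₀ ≤ N → a ≤ Real.log (Real.log (N : ℝ)) :=
  eventually_atTop.mp (TOP_tendsto.eventually_ge_atTop a)

theorem nat_main_pr {ε : ℝ} (hε : 0 < ε) : ∃ N₀ : ℕ, ∀ (N : ℕ) [Fact N.Prime], N₀ ≤ N →
    ({f : S2 N | IsNew f ∧ co f N = 1 ∧
      Real.exp (-Real.log (Real.log N) / 2 + Pf f + ε * Real.sqrt (Real.log (Real.log N))) <
          ‖Lh f‖}.ncard : ℝ) ≤ ε * N := by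
  classical
  obtain ⟨C, hC, hnat⟩ := nat_of_harm
  obtain ⟨C1, hC1, hfin⟩ := new_fin
  set δ : ℝ := min ε ((ε / C) ^ 2) with hδ
  have hδ0 : 0 < δ := lt_min hε (by positivity)
  obtain ⟨N₀, h⟩ := harm_main hδ0
  refine ⟨N₀, ?_⟩
  intro N _ hN
  set B : Set (S2 N) := {f : S2 N | IsNew f ∧ co f N = 1 ∧
      Real.exp (-Real.log (Real.log N) / 2 + Pf f + ε * Real.sqrt (Real.log (Real.log N))) <
          ‖Lh f‖} with hB
  have hBfin : B.Finite := (hfin N).1.subset (fun f hf => hf.1)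
  have hT : ∀ f ∈ hBfin.toFinset, f ∈ B := fun f hf => hBfin.mem_toFinset.mp hf
  have h1 := h N hN (ι := hBfin.toFinset) (fun i => (i : S2 N)) Subtype.val_injective
    (fun i => (hT i i.2).1) (fun i => (hT i i.2).2.1) Finset.univ
    (fun i _ => lt_of_le_of_lt (Real.exp_le_exp.mpr (by
      have h2 : δ ≤ ε := min_le_left _ _
      have h3 := mul_le_mul_of_nonneg_right h2 (Real.sqrt_nonneg (Real.log (Real.log N)))
      linarith)) (hT i i.2).2.2)
  have h2 := hnat N (ι := hBfin.toFinset) (fun i => (i : S2 N)) Subtype.val_injective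
    (fun i => (hT i i.2).1) Finset.univ
  rw [Finset.card_univ, Fintype.card_coe] at h2
  rw [Set.ncard_eq_toFinset_card _ hBfin]
  have h3 : Real.sqrt (∑ i : hBfin.toFinset, 1 / nr (i : S2 N)) ≤ ε / C := by
    rw [Real.sqrt_le_left (by positivity)]
    exact h1.trans (min_le_right _ _)
  calc (hBfin.toFinset.card : ℝ) ≤ C * N * Real.sqrt (∑ i : hBfin.toFinset, 1 / nr (i : S2 N)) := h2
    _ ≤ C * N * (ε / C) := mul_le_mul_of_nonneg_left h3 (by positivity)
    _ = ε * N := by field_simp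

theorem top_small_pr {A ε : ℝ} (hA : A < 1 / 2) (hε : 0 < ε) :
    ∃ N₀ : ℕ, ∀ (N : ℕ) [Fact N.Prime],
    N₀ ≤ N → ({f : S2 N | IsNew f ∧ co f N = 1 ∧
      Real.log N ^ (-A) < ‖Lh f‖}.ncard : ℝ) ≤ ε * N := by
  classical
  obtain ⟨C, hC, hnat⟩ := nat_of_harm
  obtain ⟨C1, hC1, hfin⟩ := new_fin
  obtain ⟨C2, N2, hmom⟩ := mom_p
  obtain ⟨N3, hmain⟩ := nat_main_pr (half_pos hε)
  set c : ℝ := (1 / 2 - A) / 2 with hc
  have hc0 : 0 < c := by rw [hc]; linarith
  set C3 : ℝ := max C2 1 with hC3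
  have hC30 : 0 < C3 := lt_of_lt_of_le one_pos (le_max_right _ _)
  obtain ⟨N4, hN4⟩ := TOP_ge (1 + (ε / 2 / c) ^ 2 + C3 * (2 * C) ^ 2 / (c ^ 2 * ε ^ 2))
  refine ⟨max (max N2 N3) N4, ?_⟩
  intro N _ hN
  have hN2 : N2 ≤ N := (le_max_left _ _).trans ((le_max_left _ _).trans hN)
  have hN3 : N3 ≤ N := (le_max_right _ _).trans ((le_max_left _ _).trans hN)
  have hL := hN4 N ((le_max_right _ _).trans hN)
  have hb := hmain N hN3
  set L2 := Real.log (Real.log (N : ℝ)) with hL2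
  have hp1 : 0 ≤ (ε / 2 / c) ^ 2 := by positivity
  have hp2 : 0 ≤ C3 * (2 * C) ^ 2 / (c ^ 2 * ε ^ 2) := by positivity
  have hL1 : 1 ≤ L2 := by linarith
  have hL0 : 0 < L2 := by linarith
  have hlog : 0 < Real.log (N : ℝ) := by
    have h0 : 0 ≤ Real.log (N : ℝ) := Real.log_natCast_nonneg N
    rcases h0.eq_or_lt with h1 | h1
    · exfalso
      rw [hL2, ← h1, Real.log_zero] at hL0
      exact lt_irrefl _ hL0
    · exact h1
  set B : Set (S2 N) := {f : S2 N | IsNew f ∧ co f N = 1 ∧ Real.log N ^ (-A) < ‖Lh f‖} with hB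
  set B1 : Set (S2 N) := {f : S2 N | IsNew f ∧ co f N = 1 ∧
      Real.exp (-L2 / 2 + Pf f + ε / 2 * Real.sqrt L2) < ‖Lh f‖} with hB1
  set B2 : Set (S2 N) := {f : S2 N | IsNew f ∧ c * L2 ≤ Pf f} with hB2
  have hB1fin : B1.Finite := (hfin N).1.subset (fun f hf => hf.1)
  have hB2fin : B2.Finite := (hfin N).1.subset (fun f hf => hf.1)
  have hsub : B ⊆ B1 ∪ B2 := by
    intro f hf
    by_cases h1 : Real.exp (-L2 / 2 + Pf f + ε / 2 * Real.sqrt L2) < ‖Lh f‖
    · exact Or.inl ⟨hf.1, hf.2.1, h1⟩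
    · right
      refine ⟨hf.1, ?_⟩
      have h2 : Real.log N ^ (-A) < Real.exp (-L2 / 2 + Pf f + ε / 2 * Real.sqrt L2) :=
        lt_of_lt_of_le hf.2.2 (not_lt.mp h1)
      rw [Real.rpow_def_of_pos hlog, Real.exp_lt_exp] at h2
      -- `ε/2 √L₂ ≤ c L₂`
      have h3 : ε / 2 * Real.sqrt L2 ≤ c * L2 := by
        have h4 : ε / 2 / c ≤ Real.sqrt L2 := by
          apply Real.le_sqrt_of_sq_le
          linarith
        have h5 : Real.sqrt L2 * Real.sqrt L2 = L2 := Real.mul_self_sqrt hL0.le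
        have h6 : ε / 2 ≤ c * Real.sqrt L2 := by
          rw [div_le_iff₀ hc0] at h4
          linarith
        calc ε / 2 * Real.sqrt L2 ≤ (c * Real.sqrt L2) * Real.sqrt L2 :=
              mul_le_mul_of_nonneg_right h6 (Real.sqrt_nonneg _)
          _ = c * L2 := by rw [mul_assoc, h5]
      have h7 : 1 / 2 - A = 2 * c := by rw [hc]; ring
      have h8 : L2 * (-A) = -L2 / 2 + (1 / 2 - A) * L2 := by ring
      rw [← hL2, h8, h7] at h2
      linarith
  have hcard2 : (B2.ncard : ℝ) ≤ ε / 2 * N := by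
    have hT : ∀ f ∈ hB2fin.toFinset, f ∈ B2 := fun f hf => hB2fin.mem_toFinset.mp hf
    have h1 := hmom N hN2 (ι := hB2fin.toFinset) (fun i => (i : S2 N)) Subtype.val_injective
      (fun i => (hT i i.2).1)
    have h2 := hnat N (ι := hB2fin.toFinset) (fun i => (i : S2 N)) Subtype.val_injective
      (fun i => (hT i i.2).1) Finset.univ
    rw [Finset.card_univ, Fintype.card_coe] at h2
    rw [Set.ncard_eq_toFinset_card _ hB2fin]
    have hnr : ∀ i : hB2fin.toFinset, 0 < nr (i : S2 N) :=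
      fun i => nr_pos (new_ne_zero (hT i i.2).1)
    have h3 : (c * L2) ^ 2 * ∑ i : hB2fin.toFinset, 1 / nr (i : S2 N) ≤ C3 * L2 := by
      calc (c * L2) ^ 2 * ∑ i : hB2fin.toFinset, 1 / nr (i : S2 N)
          = ∑ i : hB2fin.toFinset, 1 / nr (i : S2 N) * (c * L2) ^ 2 := by
            rw [Finset.mul_sum]
            exact Finset.sum_congr rfl (fun i _ => mul_comm _ _)
        _ ≤ ∑ i : hB2fin.toFinset, 1 / nr (i : S2 N) * Pf (i : S2 N) ^ 2 := by
            apply Finset.sum_le_sum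
            intro i _
            apply mul_le_mul_of_nonneg_left _ (by have := hnr i; positivity)
            exact pow_le_pow_left₀ (by positivity) (hT i i.2).2 2
        _ ≤ C2 * L2 := h1
        _ ≤ C3 * L2 := mul_le_mul_of_nonneg_right (le_max_left _ _) hL0.le
    have h4 : ∑ i : hB2fin.toFinset, 1 / nr (i : S2 N) ≤ (ε / (2 * C)) ^ 2 := by
      have h5 : ∑ i : hB2fin.toFinset, 1 / nr (i : S2 N) ≤ C3 * L2 / (c * L2) ^ 2 := by
        rw [le_div_iff₀ (by positivity)]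
        linarith
      refine h5.trans ?_
      have h6 : C3 * (2 * C) ^ 2 / (c ^ 2 * ε ^ 2) ≤ L2 := by linarith
      rw [div_le_iff₀ (by positivity)] at h6
      rw [div_pow, div_le_div_iff₀ (by positivity) (by positivity)]
      calc C3 * L2 * (2 * C) ^ 2 = (C3 * (2 * C) ^ 2) * L2 := by ring
        _ ≤ (L2 * (c ^ 2 * ε ^ 2)) * L2 := mul_le_mul_of_nonneg_right h6 hL0.le
        _ = ε ^ 2 * (c * L2) ^ 2 := by ring
    have h7 : Real.sqrt (∑ i : hB2fin.toFinset, 1 / nr (i : S2 N)) ≤ ε / (2 * C) := by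
      rw [Real.sqrt_le_left (by positivity)]
      exact h4
    calc (hB2fin.toFinset.card : ℝ)
        ≤ C * N * Real.sqrt (∑ i : hB2fin.toFinset, 1 / nr (i : S2 N)) := h2
      _ ≤ C * N * (ε / (2 * C)) := mul_le_mul_of_nonneg_left h7 (by positivity)
      _ = ε / 2 * N := by field_simp
  have hcard : (B.ncard : ℝ) ≤ B1.ncard + B2.ncard := by
    have h1 : B.ncard ≤ (B1 ∪ B2).ncard := Set.ncard_le_ncard hsub (hB1fin.union hB2fin)
    have h2 := Set.ncard_union_le B1 B2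
    exact_mod_cast h1.trans h2
  linarith

theorem nat_main : type_of% @nat_main_pr := @nat_main_pr
theorem top_small : type_of% @top_small_pr := @top_small_pr

end Pool.Agent.LEV
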