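import Pool.Agent.Lib_helper68.LEV.DefsG
import Pool.Agent.Lib_helper68.LEV.NAT
import Pool.Agent.Lib_helper68.LEV.NTU
import Pool.Agent.Lib_helper68.LEV.TLS
import Pool.Agent.Lib_helper68.LEV.TOP

/-! Block TOG: the one-sided central limit theorem. -/

namespace Pool.Agent.LEV

open Complex MeasureTheory Filter Topology UpperHalfPlane ModularGroup ProbabilityTheory
open scoped MatrixGroups Modular ENNReal ModularForm ComplexConjugate ContDiff

/-- left continuity of the Gaussian tail -/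
theorem TOG_gauss (V : ℝ) {ε : ℝ} (hε : 0 < ε) : ∃ κ : ℝ, 0 < κ ∧ ∀ v : ℝ, V - κ ≤ v →
    (gaussianReal 0 1).real (Set.Ici v) ≤ (gaussianReal 0 1).real (Set.Ici V) + ε := by
  have hmono : Antitone (fun n : ℕ => Set.Ici (V - 1 / ((n : ℝ) + 1))) := by
    intro m n hmn x hx
    have hx' : V - 1 / ((n : ℝ) + 1) ≤ x := hx
    show V - 1 / ((m : ℝ) + 1) ≤ x
    have h1 : 1 / ((n : ℝ) + 1) ≤ 1 / ((m : ℝ) + 1) := by
      apply one_div_le_one_div_of_le (by positivity)
      have : (m : ℝ) ≤ n := by exact_mod_cast hmn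
      linarith
    linarith
  have hint : (⋂ n : ℕ, Set.Ici (V - 1 / ((n : ℝ) + 1))) = Set.Ici V := by
    ext x
    rw [Set.mem_iInter]
    constructor
    · intro h
      show V ≤ x
      by_contra hlt
      push Not at hlt
      obtain ⟨n, hn⟩ := exists_nat_one_div_lt (sub_pos.mpr hlt)
      have h2 : V - 1 / ((n : ℝ) + 1) ≤ x := h n
      linarith
    · intro h n
      have h' : V ≤ x := h
      show V - 1 / ((n : ℝ) + 1) ≤ x
      have : 0 < 1 / ((n : ℝ) + 1) := by positivity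
      linarith
  have ht := tendsto_measure_iInter_atTop (μ := gaussianReal 0 1)
    (s := fun n : ℕ => Set.Ici (V - 1 / ((n : ℝ) + 1)))
    (fun n => measurableSet_Ici.nullMeasurableSet) hmono ⟨0, measure_ne_top _ _⟩
  rw [hint] at ht
  have ht2 := (ENNReal.tendsto_toReal (measure_ne_top (gaussianReal 0 1) (Set.Ici V))).comp ht
  have hev := ht2.eventually (gt_mem_nhds (show (gaussianReal 0 1 (Set.Ici V)).toReal <
    (gaussianReal 0 1 (Set.Ici V)).toReal + ε by linarith))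
  obtain ⟨n, hn⟩ := hev.exists
  refine ⟨1 / ((n : ℝ) + 1), by positivity, fun v hv => ?_⟩
  have h3 : (gaussianReal 0 1).real (Set.Ici v) ≤
      (gaussianReal 0 1).real (Set.Ici (V - 1 / ((n : ℝ) + 1))) := by
    apply measureReal_mono
    · intro x hx
      exact hv.trans hx
    · exact measure_ne_top _ _
  exact h3.trans hn.le

/-- the one-sided central limit theorem -/
theorem top_clt_pr (hdim : ∀ δ : ℝ, 0 < δ → ∃ N₀ : ℕ, ∀ (N : ℕ) [Fact N.Prime], N₀ ≤ N →
      (1 / 24 - δ) * N ≤ ({f : S2 N | IsNew f ∧ co f N = 1}.ncard : ℝ))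
    (V : ℝ) {ε : ℝ} (hε : 0 < ε) : ∃ N₀ : ℕ, ∀ (N : ℕ) [Fact N.Prime],
    N₀ ≤ N → ({f : S2 N | (IsNew f ∧ co f N = 1) ∧
      Real.exp (-Real.log (Real.log N) / 2 + V * Real.sqrt (Real.log (Real.log N))) ≤
        ‖Lh f‖}.ncard : ℝ) ≤ ((gaussianReal 0 1).real (Set.Ici V) + ε) *
          ({f : S2 N | IsNew f ∧ co f N = 1}.ncard : ℝ) := by
  obtain ⟨κ, hκ, hG⟩ := TOG_gauss V (half_pos hε)
  set e : ℝ := min (ε / 102) (min 1 κ / (|V| + 3)) with he_def
  have hV3 : 0 < |V| + 3 := by positivity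
  have he : 0 < e := lt_min (by positivity) (div_pos (lt_min one_pos hκ) hV3)
  have he1 : e ≤ ε / 102 := min_le_left _ _
  have he2 : e * (|V| + 3) ≤ min 1 κ := by
    have : e ≤ min 1 κ / (|V| + 3) := min_le_right _ _
    calc e * (|V| + 3) ≤ min 1 κ / (|V| + 3) * (|V| + 3) := by gcongr
      _ = min 1 κ := by field_simp
  have he3 : e * (|V| + 3) ≤ 1 := he2.trans (min_le_left _ _)
  have he4 : e * (|V| + 3) ≤ κ := he2.trans (min_le_right _ _)
  set v : ℝ := V - e * (|V| + 3) with hv_def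
  have hGv := hG v (by rw [hv_def]; linarith)
  obtain ⟨N₁, h1⟩ := nat_main he
  obtain ⟨δ, hδ0, hδ1, N₂, h2⟩ := tail_small he
  obtain ⟨N₃, h3⟩ := nat_tail hdim v hδ0 hδ1 he
  obtain ⟨N₄, h4⟩ := hdim (1 / 600) (by norm_num)
  refine ⟨max (max N₁ N₂) (max N₃ N₄), fun N hN hNN => ?_⟩
  have k1 := h1 N (by omega)
  have k2 := h2 N (by omega)
  have k3 := h3 N (by omega)
  have k4 := h4 N (by omega)
  obtain ⟨C, _, hfin⟩ := new_fin
  have hF : {f : S2 N | IsNew f}.Finite := (hfin N).1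
  set H : ℝ := ({f : S2 N | IsNew f ∧ co f N = 1}.ncard : ℝ) with hH
  set T : ℝ := Real.sqrt (Real.log (Real.log N)) with hT
  have hT0 : 0 ≤ T := Real.sqrt_nonneg _
  set A : Set (S2 N) := {f : S2 N | IsNew f ∧ co f N = 1 ∧
      Real.exp (-Real.log (Real.log N) / 2 + Pf f + e * T) < ‖Lh f‖} with hA
  set B : Set (S2 N) := {f : S2 N | IsNew f ∧ e * T ≤
        |Pf f - ∑ p ∈ JN δ N, la f p / Real.sqrt p|} with hB
  set D : Set (S2 N) := {f : S2 N | (IsNew f ∧ co f N = 1) ∧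
      v * Real.sqrt (∑ p ∈ JN δ N, 1 / (p : ℝ)) ≤ ∑ p ∈ JN δ N, la f p / Real.sqrt p} with hD
  have hAf : A.Finite := hF.subset (fun f hf => hf.1)
  have hBf : B.Finite := hF.subset (fun f hf => hf.1)
  have hDf : D.Finite := hF.subset (fun f hf => hf.1.1)
  have hvabs : |v| ≤ |V| + 1 := by
    have h5 : 0 ≤ e * (|V| + 3) := by positivity
    calc |v| ≤ |V| + |e * (|V| + 3)| := abs_sub _ _
      _ ≤ |V| + 1 := by rw [abs_of_nonneg h5]; linarith
  have hsub : {f : S2 N | (IsNew f ∧ co f N = 1) ∧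
      Real.exp (-Real.log (Real.log N) / 2 + V * T) ≤ ‖Lh f‖} ⊆ (A ∪ B) ∪ D := by
    rintro f ⟨⟨hf1, hf2⟩, hf3⟩
    by_cases hfA : f ∈ A
    · exact Or.inl (Or.inl hfA)
    by_cases hfB : f ∈ B
    · exact Or.inl (Or.inr hfB)
    right
    have c1 : ‖Lh f‖ ≤ Real.exp (-Real.log (Real.log N) / 2 + Pf f + e * T) := by
      by_contra hc
      push Not at hc
      exact hfA ⟨hf1, hf2, hc⟩
    have c2 : |Pf f - ∑ p ∈ JN δ N, la f p / Real.sqrt p| < e * T := by
      by_contra hc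
      push Not at hc
      exact hfB ⟨hf1, hc⟩
    have c3 := Real.exp_le_exp.mp (hf3.trans c1)
    have c4 := (abs_lt.mp c2).2
    refine ⟨⟨hf1, hf2⟩, ?_⟩
    have c5 : (V - 2 * e) * T ≤ ∑ p ∈ JN δ N, la f p / Real.sqrt p := by nlinarith
    refine le_trans ?_ c5
    have c6 := abs_le.mp k2.2
    set s : ℝ := Real.sqrt (∑ p ∈ JN δ N, 1 / (p : ℝ)) with hs
    have c7 : v * s = v * T + v * (s - T) := by ring
    have c8 : v * (s - T) ≤ (|V| + 1) * (e * T) := by
      calc v * (s - T) ≤ |v * (s - T)| := le_abs_self _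
        _ = |v| * |s - T| := abs_mul _ _
        _ ≤ (|V| + 1) * (e * T) := by
          apply mul_le_mul hvabs k2.2 (abs_nonneg _) (by positivity)
    rw [c7]
    have c9 : v * T + (|V| + 1) * (e * T) = (V - 2 * e) * T := by
      rw [hv_def]
      ring
    linarith
  have hcard : ({f : S2 N | (IsNew f ∧ co f N = 1) ∧
      Real.exp (-Real.log (Real.log N) / 2 + V * T) ≤ ‖Lh f‖}.ncard : ℝ) ≤
      (A.ncard : ℝ) + B.ncard + D.ncard := by
    have u1 : {f : S2 N | (IsNew f ∧ co f N = 1) ∧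
      Real.exp (-Real.log (Real.log N) / 2 + V * T) ≤ ‖Lh f‖}.ncard ≤ ((A ∪ B) ∪ D).ncard :=
      Set.ncard_le_ncard hsub ((hAf.union hBf).union hDf)
    have u2 : ((A ∪ B) ∪ D).ncard ≤ (A ∪ B).ncard + D.ncard := Set.ncard_union_le _ _
    have u3 : (A ∪ B).ncard ≤ A.ncard + B.ncard := Set.ncard_union_le _ _
    exact_mod_cast (u1.trans (u2.trans (Nat.add_le_add_right u3 _)))
  have hNH : (N : ℝ) ≤ 25 * H := by
    have : (1 / 24 - 1 / 600) * (N : ℝ) ≤ H := k4
    linarith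
  have hH0 : 0 ≤ H := Nat.cast_nonneg _
  calc ({f : S2 N | (IsNew f ∧ co f N = 1) ∧
      Real.exp (-Real.log (Real.log N) / 2 + V * T) ≤ ‖Lh f‖}.ncard : ℝ)
      ≤ (A.ncard : ℝ) + B.ncard + D.ncard := hcard
    _ ≤ e * N + e * N + ((gaussianReal 0 1).real (Set.Ici v) + e) * H := by
        have := k2.1
        linarith
    _ ≤ e * (25 * H) + e * (25 * H) + ((gaussianReal 0 1).real (Set.Ici v) + e) * H := by
        gcongr
    _ = ((gaussianReal 0 1).real (Set.Ici v) + 51 * e) * H := by ring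
    _ ≤ ((gaussianReal 0 1).real (Set.Ici V) + ε) * H := by
        apply mul_le_mul_of_nonneg_right _ hH0
        linarith

theorem top_clt : type_of% @top_clt_pr := @top_clt_pr

end Pool.Agent.LEV
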