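import Pool.Agent.Lib_helper68.GL2.RSA

/-!
# Level aspect: weight 2 cusp forms of prime level. Definitions.
-/

namespace Pool.Agent.LEV

open Complex MeasureTheory Filter Topology UpperHalfPlane ModularGroup
open scoped MatrixGroups Modular ENNReal ModularForm ComplexConjugate ContDiff

/-- `Γ₀(N)` inside `GL₂(ℝ)` -/
abbrev G0 (N : ℕ) : Subgroup (GL (Fin 2) ℝ) :=
  (CongruenceSubgroup.Gamma0 N : Subgroup (GL (Fin 2) ℝ))

/-- cusp forms of weight 2 for `Γ₀(N)` -/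
abbrev S2 (N : ℕ) : Type := CuspForm (G0 N) 2

/-- the Fourier coefficients at infinity -/
noncomputable def co {N : ℕ} (f : S2 N) (n : ℕ) : ℂ := (UpperHalfPlane.qExpansion 1 f).coeff n

/-- the projective line over `ℤ/N`; it is `SL₂(ℤ)/Γ₀(N)` via `g ↦ g ∞` -/
abbrev PX (N : ℕ) : Type := OnePoint (ZMod N)

/-- `c z + d` -/
noncomputable def jd (g : SL(2, ℤ)) (z : ℂ) : ℂ := ((g 1 0 : ℤ) : ℂ) * z + ((g 1 1 : ℤ) : ℂ)

/-- `(a z + b) / (c z + d)` -/
noncomputable def mb (g : SL(2, ℤ)) (z : ℂ) : ℂ :=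
  (((g 0 0 : ℤ) : ℂ) * z + ((g 0 1 : ℤ) : ℂ)) / jd g z

/-- a holomorphic function on the upper half plane -/
def Hol (F : ℍ → ℂ) : Prop :=
  DifferentiableOn ℂ (fun z : ℂ => F (UpperHalfPlane.ofComplex z)) {z : ℂ | 0 < z.im}

section
variable {N : ℕ} [Fact N.Prime]

/-- the action of `SL₂(ℤ)` on the projective line over `ℤ/N` -/
noncomputable def pa (g : SL(2, ℤ)) (q : PX N) : PX N :=
  (Matrix.SpecialLinearGroup.mapGL (ZMod N) g) • q

/-- the chosen coset representative: `sg q ∞ = q` -/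
noncomputable def sg : PX N → SL(2, ℤ)
  | none => 1
  | some j => T ^ (j.val : ℤ) * S

/-- the family of a cusp form: `f_q = f | γ⁻¹` for any `γ` with `γ ∞ = q` -/
noncomputable def fam (f : S2 N) (q : PX N) : ℍ → ℂ := (f : ℍ → ℂ) ∣[(2 : ℤ)] (sg q)⁻¹

/-- equivariant families of forms of weight 2 -/
def Equi (F : PX N → ℍ → ℂ) : Prop :=
  ∀ (g : SL(2, ℤ)) (q : PX N) (z : ℍ), F (pa g q) (g • z) = jd g z ^ 2 * F q z

/-- the energy (square of the Petersson norm) -/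
noncomputable def en (F : PX N → ℍ → ℂ) : ℝ≥0∞ :=
  ∑ q : PX N, ∫⁻ z in 𝒟ᵒ, ‖F q z‖ₑ ^ 2 * ENNReal.ofReal (z.im ^ 2)

/-- the real part of the inner product of two families -/
noncomputable def pr (h k : PX N → ℍ → ℂ) : ℝ :=
  (∑ q : PX N, ∫ z in 𝒟ᵒ, h q z * conj (k q z) * ((z.im ^ 2 : ℝ) : ℂ)).re

/-- the Petersson inner product of two cusp forms (antilinear in the first variable) -/
noncomputable def pet (f g : S2 N) : ℂ :=
  ∑ q : PX N, ∫ z in 𝒟ᵒ, conj (fam f q z) * fam g q z * ((z.im ^ 2 : ℝ) : ℂ)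

/-- the square of the Petersson norm -/
noncomputable def nr (f : S2 N) : ℝ := (pet f f).re

end

/-- `∂_z U` for real valued `U` -/
noncomputable def dz (U : ℂ → ℝ) (z : ℂ) : ℂ :=
  (((fderiv ℝ U z 1 : ℝ) : ℂ) - Complex.I * ((fderiv ℝ U z Complex.I : ℝ) : ℂ)) / 2

/-- `∂_{z̄} U` for real valued `U` -/
noncomputable def dbar (U : ℂ → ℝ) (z : ℂ) : ℂ :=
  (((fderiv ℝ U z 1 : ℝ) : ℂ) + Complex.I * ((fderiv ℝ U z Complex.I : ℝ) : ℂ)) / 2

/-- smooth real test functions with compact support in the upper half plane -/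
structure Tst (v : ℂ → ℝ) : Prop where
  smooth : ContDiff ℝ ∞ v
  cs : HasCompactSupport v
  sub : tsupport v ⊆ {z : ℂ | 0 < z.im}

/-- smooth invariant families of real functions vanishing near the cusps -/
structure TFam {N : ℕ} [Fact N.Prime] (U : PX N → ℂ → ℝ) : Prop where
  smooth : ∀ q, ContDiffOn ℝ ∞ (U q) {z : ℂ | 0 < z.im}
  equi : ∀ (g : SL(2, ℤ)) (q : PX N) (z : ℍ), U (pa g q) ((g • z : ℍ) : ℂ) = U q (z : ℂ)
  supp : ∃ Y : ℝ, ∀ (q : PX N) (z : ℍ), Y < z.im → U q z = 0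

/-- the family of derivatives -/
noncomputable def dF {N : ℕ} (U : PX N → ℂ → ℝ) (q : PX N) (z : ℍ) : ℂ := dz (U q) z

/-- the smoothed step function across the imaginary axis: `1` on the left, `0` on the right -/
noncomputable def th (z : ℂ) : ℝ := Real.smoothTransition (1 / 2 - 2 * (z.re / z.im))

/-- the closed form attached to `w` (supported near the edges of the Farey tessellation) -/
noncomputable def Om {N : ℕ} [Fact N.Prime] (w : PX N → ℝ) (q : PX N) (z : ℍ) : ℂ :=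
  (1 / 4) * ∑' g : SL(2, ℤ), ((w (pa g⁻¹ q) : ℝ) : ℂ) * dz (fun u : ℂ => th (mb g⁻¹ u)) z

/-- the elliptic element of order 3 fixing `e^{iπ/3}`: `z ↦ 1 - 1/z` -/
def Uel : SL(2, ℤ) := T * S

/-- the functions with `w(S q) = -w(q)` and `w(∞) = 0` -/
def WS (N : ℕ) [Fact N.Prime] : Submodule ℝ (PX N → ℝ) where
  carrier := {w | (∀ q, w (pa S q) = -w q) ∧ w OnePoint.infty = 0}
  add_mem' := by
    rintro a b ⟨h1, h2⟩ ⟨h3, h4⟩
    refine ⟨fun q => ?_, ?_⟩
    · rw [Pi.add_apply, Pi.add_apply, h1, h3, neg_add]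
    · rw [Pi.add_apply, h2, h4, add_zero]
  zero_mem' := ⟨fun q => by simp, rfl⟩
  smul_mem' := by
    rintro c a ⟨h1, h2⟩
    refine ⟨fun q => ?_, ?_⟩
    · rw [Pi.smul_apply, Pi.smul_apply, h1, smul_neg]
    · rw [Pi.smul_apply, h2, smul_zero]

/-- the functions with `b(U q) = b(q)` -/
def BU (N : ℕ) [Fact N.Prime] : Submodule ℝ (PX N → ℝ) where
  carrier := {b | ∀ q, b (pa Uel q) = b q}
  add_mem' := by
    intro a b h1 h2 q
    rw [Pi.add_apply, Pi.add_apply, h1, h2]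
  zero_mem' := fun q => by simp
  smul_mem' := by
    intro c a h1 q
    rw [Pi.smul_apply, Pi.smul_apply, h1]

/-- a normalised newform of weight 2 and prime level `N` -/
structure IsNew {N : ℕ} (f : S2 N) : Prop where
  one : co f 1 = 1
  mul : ∀ m n : ℕ, m.Coprime n → co f (m * n) = co f m * co f n
  hecke : ∀ p r : ℕ, p.Prime → p ≠ N →
    co f (p ^ (r + 2)) = co f p * co f (p ^ (r + 1)) - (p : ℂ) * co f (p ^ r)
  level : ∀ r : ℕ, co f (N ^ (r + 1)) = co f N ^ (r + 1)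

/-- equivariant continuous families of finite energy -/
def Fin2 {N : ℕ} [Fact N.Prime] (h : PX N → ℍ → ℂ) : Prop :=
  Equi h ∧ (∀ q, Continuous (h q)) ∧ en h < ⊤

/-- the hyperbolic disc `|w - z| < ρ |w - z̄|` -/
def hball (z : ℍ) (ρ : ℝ) : Set ℍ :=
  {w : ℍ | ‖(w : ℂ) - (z : ℂ)‖ < ρ * ‖(w : ℂ) - conj (z : ℂ)‖}

/-- the point `-1/(N z)` -/
noncomputable def wz (N : ℕ) [Fact N.Prime] (z : ℍ) : ℍ :=
  ⟨-1 / ((N : ℂ) * (z : ℂ)), by
    have hN : (0 : ℝ) < N := by exact_mod_cast (Fact.out : N.Prime).pos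
    have h1 : (-1 / ((N : ℂ) * (z : ℂ))).im = z.im / (N * Complex.normSq z) := by
      rw [neg_div, Complex.neg_im, one_div, Complex.inv_im, Complex.normSq_mul, Complex.normSq_natCast,
        Complex.mul_im, Complex.natCast_re, Complex.natCast_im, zero_mul, add_zero, neg_div, neg_neg]
      have h2 : Complex.normSq z ≠ 0 := (Complex.normSq_pos.mpr z.ne_zero).ne'
      have h3 : (N : ℝ) ≠ 0 := hN.ne'
      have h4 : (z : ℂ).im = z.im := rfl
      rw [h4]
      field_simp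
    rw [h1]
    exact div_pos z.im_pos (mul_pos hN (Complex.normSq_pos.mpr z.ne_zero))⟩

/-- the point `(z - j) / N` -/
noncomputable def zsc (N : ℕ) [Fact N.Prime] (j : ℝ) (z : ℍ) : ℍ :=
  ⟨((z : ℂ) - j) / (N : ℂ), by
    have hN : (0 : ℝ) < N := by exact_mod_cast (Fact.out : N.Prime).pos
    have h1 : (((z : ℂ) - j) / (N : ℂ)).im = z.im / N := by
      rw [Complex.div_natCast_im, Complex.sub_im, Complex.ofReal_im, sub_zero]
      rfl
    rw [h1]
    exact div_pos z.im_pos hN⟩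

/-- `W` is the Fricke operator -/
def IsFricke {N : ℕ} [Fact N.Prime] (W : S2 N →ₗ[ℂ] S2 N) : Prop :=
  ∀ (f : S2 N) (z : ℍ), W f z = ((N : ℂ) * (z : ℂ) ^ 2)⁻¹ * f (wz N z)

/-- `T` acts on the Fourier coefficients as the Hecke operator `T_p` -/
def IsHecke {N : ℕ} (p : ℕ) (T : S2 N →ₗ[ℂ] S2 N) : Prop :=
  ∀ (f : S2 N) (n : ℕ), co (T f) n = co f (p * n) + (if p ∣ n then (p : ℂ) * co f (n / p) else 0)

/-- the integral matrices `M` of determinant `N` with `N ∣ tr M` whose kernel modulo `N` is the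
line `q` -/
def MQ {N : ℕ} (q : PX N) (a b c d : ℤ) : Prop :=
  a * d - b * c = N ∧ (N : ℤ) ∣ a + d ∧
    match q with
    | none => (a : ZMod N) = 0 ∧ (c : ZMod N) = 0
    | some x => (a : ZMod N) * x + (b : ZMod N) = 0 ∧ (c : ZMod N) * x + (d : ZMod N) = 0

/-- the disc around `w` meets the disc around `M w` -/
def meet (w : ℍ) (ρ : ℝ) (a b c d : ℤ) : Prop :=
  ∃ u v : ℍ, u ∈ hball w ρ ∧ v ∈ hball w ρ ∧
    (v : ℂ) * ((c : ℂ) * (u : ℂ) + (d : ℂ)) = (a : ℂ) * (u : ℂ) + (b : ℂ)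

end Pool.Agent.LEV
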