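import Pool.Agent.Lib_helper68.LEV.Defs

/-!
# Level aspect: central values. Definitions.
-/

namespace Pool.Agent.LEV

open Complex MeasureTheory Filter Topology UpperHalfPlane ModularGroup
open scoped MatrixGroups Modular ENNReal ModularForm ComplexConjugate ContDiff

/-- the value of a cusp form at `x + i y` -/
noncomputable def ev {N : ℕ} (f : S2 N) (x y : ℝ) : ℂ :=
  f (UpperHalfPlane.ofComplex ((x : ℂ) + (y : ℂ) * Complex.I))

/-- the central value of the L-function (the point `s = 1` in the classical normalisation) -/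
noncomputable def Lh {N : ℕ} [Fact N.Prime] (f : S2 N) : ℂ :=
  ModularForm.L (k := 2) two_pos f 1

/-- the upper end of the mollifying primes -/
noncomputable def zN (N : ℕ) : ℝ := Real.exp (Real.log N / Real.log (Real.log N) ^ 2)

/-- the mollifying primes -/
noncomputable def IN (N : ℕ) : Finset ℕ :=
  (Finset.Icc 1 ⌊zN N⌋₊).filter (fun p => p.Prime ∧ Real.log (Real.log N) < p)

/-- the number of prime factors allowed -/
noncomputable def KN (N : ℕ) : ℕ := ⌈100 * Real.log (Real.log N)⌉₊

/-- the length of the mollifier -/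
noncomputable def DN (N : ℕ) : ℕ := ⌊zN N ^ KN N⌋₊

/-- the product of the elements of a finite set of primes -/
def mB (B : Finset ℕ) : ℕ := ∏ p ∈ B, p

/-- the subsets with at most `K` elements -/
def SB (I : Finset ℕ) (K : ℕ) : Finset (Finset ℕ) := I.powerset.filter (fun B => B.card ≤ K)

/-- the weight of the reduced fractions with denominator `mB B` -/
noncomputable def wB (I : Finset ℕ) (K : ℕ) (B : Finset ℕ) : ℝ :=
  ∑ A ∈ (SB I K).filter (fun A => B ⊆ A), (-1) ^ A.card * 2 ^ (A \ B).card / (mB A : ℝ)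

/-- the Fourier coefficients of the sum over fractions -/
noncomputable def cB (I : Finset ℕ) (K n : ℕ) : ℝ :=
  ∑ A ∈ SB I K, (-1) ^ A.card / (mB A : ℝ) *
    ∑ B ∈ A.powerset.filter (fun B => mB B ∣ n), (mB B : ℝ)

/-- the mollifier with primes in `I` -/
noncomputable def MI {N : ℕ} (f : S2 N) (I : Finset ℕ) (K : ℕ) : ℂ :=
  ∑ B ∈ SB I K, (-1) ^ B.card * (co f (mB B) / (mB B : ℂ))

/-- the sum over primes -/
noncomputable def Pf {N : ℕ} (f : S2 N) : ℝ := ∑ p ∈ IN N, (co f p).re / p

end Pool.Agent.LEV
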