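import Pool.Agent.Lib_helper68.LEV.DefsC

/-!
# Level aspect: natural averages and the central limit theorem. Definitions.
-/

namespace Pool.Agent.LEV

open Complex MeasureTheory Filter Topology UpperHalfPlane ModularGroup ProbabilityTheory
open scoped MatrixGroups Modular ENNReal ModularForm ComplexConjugate ContDiff

/-- the primitive upper triangular matrices `(a b; 0 d)` of determinant `n`, `0 ≤ b < d` -/
def PMat (n : ℕ) : Finset (ℕ × ℕ × ℕ) :=
  (Finset.range (n + 1) ×ˢ Finset.range (n + 1) ×ˢ Finset.range (n + 1)).filter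
    (fun t => t.1 * t.2.2 = n ∧ t.2.1 < t.2.2 ∧ Nat.gcd (Nat.gcd t.1 t.2.1) t.2.2 = 1)

/-- action of `(a b; 0 d)` on the projective line over `ℤ/N` -/
noncomputable def pm {N : ℕ} [Fact N.Prime] (t : ℕ × ℕ × ℕ) : PX N → PX N
  | none => none
  | some x => some (((t.1 : ZMod N) * x + (t.2.1 : ZMod N)) / (t.2.2 : ZMod N))

/-- `(a z + b) / d` -/
noncomputable def hz (t : ℕ × ℕ × ℕ) (z : ℍ) : ℍ :=
  UpperHalfPlane.ofComplex (((t.1 : ℂ) * (z : ℂ) + (t.2.1 : ℂ)) / (t.2.2 : ℂ))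

/-- the matrix `(a b; c d)` maps the line `q` to itself modulo `N` -/
def fixq {N : ℕ} (q : PX N) (a b c d : ℤ) : Prop :=
  match q with
  | none => (c : ZMod N) = 0
  | some x => (a : ZMod N) * x + (b : ZMod N) = x * ((c : ZMod N) * x + (d : ZMod N))

/-- the line `q` is the kernel of `(a b; c d)` modulo `N` -/
def kerq {N : ℕ} (q : PX N) (a b c d : ℤ) : Prop :=
  match q with
  | none => (a : ZMod N) = 0 ∧ (c : ZMod N) = 0
  | some x => (a : ZMod N) * x + (b : ZMod N) = 0 ∧ (c : ZMod N) * x + (d : ZMod N) = 0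

/-- the discs of radius `ρ` around the Hecke points of degree `≤ X` of `(q, w)` and around their images
under the Fricke involution are disjoint -/
def Good {N : ℕ} (X : ℕ) (ρ : ℝ) (q : PX N) (w : ℍ) : Prop :=
  (∀ a b c d : ℤ, 0 < a * d - b * c → a * d - b * c ≤ (X : ℤ) ^ 2 → fixq q a b c d →
    meet w ρ a b c d → b = 0 ∧ c = 0 ∧ a = d) ∧
  (∀ a b c d Δ : ℤ, 0 < Δ → Δ ≤ (X : ℤ) ^ 2 → a * d - b * c = N * Δ → (N : ℤ) ∣ a + d →
    kerq q a b c d → ¬ meet w ρ a b c d)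

/-- the quadratic form of the Plancherel measure -/
noncomputable def QP (X : ℕ) (c : ℕ → ℝ) : ℝ :=
  ∑ n ∈ Finset.Icc 1 X, ((PMat n).card : ℝ) / n *
    (∑ k ∈ (Finset.Icc 1 X).filter (fun k => n * k ^ 2 ≤ X), c (n * k ^ 2) / k) ^ 2

/-- the linear form of the Plancherel measure -/
noncomputable def EP (X : ℕ) (c : ℕ → ℝ) : ℝ :=
  ∑ k ∈ (Finset.Icc 1 X).filter (fun k => k ^ 2 ≤ X), c (k ^ 2) / k

/-- the normalised coefficient -/
noncomputable def la {N : ℕ} (f : S2 N) (n : ℕ) : ℝ := (co f n).re / Real.sqrt n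

/-- the Hecke polynomial with coefficients `c` -/
noncomputable def tau {N : ℕ} (f : S2 N) (X : ℕ) (c : ℕ → ℝ) : ℝ :=
  ∑ m ∈ Finset.Icc 1 X, c m * la f m

/-- Chebyshev polynomials of the second kind in `x = 2 cos θ` -/
noncomputable def Uu (x : ℝ) : ℕ → ℝ
  | 0 => 1
  | 1 => x
  | (n + 2) => x * Uu x (n + 1) - Uu x n

/-- the function of the values at primes corresponding to `λ(m)` -/
noncomputable def Um (m : ℕ) (x : ℕ → ℝ) : ℝ := ∏ p ∈ m.primeFactors, Uu (x p) (m.factorization p)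

/-- polynomials in the variables with index in `I`, of degree at most `X` -/
def HPoly (I : Finset ℕ) (X : ℕ) (G : (ℕ → ℝ) → ℝ) : Prop :=
  ∃ c : ℕ → ℝ, (∀ m, c m ≠ 0 → 1 ≤ m ∧ m ≤ X ∧ m.primeFactors ⊆ I) ∧
    ∀ x, G x = ∑ m ∈ Finset.Icc 1 X, c m * Um m x

/-- independent variables with the Plancherel distribution at the primes in `I` -/
structure IsModel (I : Finset ℕ) (P : Measure (ℕ → ℝ)) : Prop where
  prob : IsProbabilityMeasure P
  bdd : ∀ᵐ x ∂P, ∀ p ∈ I, |x p| ≤ 2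
  ind : iIndepFun (fun (p : I) (x : ℕ → ℝ) => x p) P
  mom : ∀ p ∈ I, ∀ k : ℕ, ∫ x, Uu (x p) k ∂P = if Even k then 1 / (p : ℝ) ^ (k / 2) else 0

/-- the shorter sum over primes used for the central limit theorem -/
noncomputable def JN (δ : ℝ) (N : ℕ) : Finset ℕ :=
  (IN N).filter (fun p => (p : ℝ) ≤ Real.exp (Real.log N ^ (1 - δ)))

/-- the list `f` consists of all even newforms -/
def AllEven {N : ℕ} {ι : Type} (f : ι → S2 N) : Prop :=
  Function.Injective f ∧ ∀ g : S2 N, (IsNew g ∧ co g N = 1) ↔ ∃ i, f i = g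

end Pool.Agent.LEV
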