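import Pool.Agent.Lib_helper68.LEV.LVL
import Pool.Agent.Lib_helper68.LEV.EIA
import Pool.Agent.Lib_helper68.LEV.QEX

/-! the sign of the functional equation is `co f N` -/

namespace Pool.Agent.LEV

open Complex MeasureTheory Filter Topology UpperHalfPlane ModularGroup
open scoped MatrixGroups Modular ENNReal ModularForm ComplexConjugate ContDiff

variable {N : ℕ} [Fact N.Prime]

/-- the completed L-function has the functional equation with sign `+1` -/
def EvenFE (f : S2 N) : Prop := ∀ s : ℂ, 0 < s.re → s.re < 2 →
  ((Real.sqrt N / (2 * Real.pi) : ℝ) : ℂ) ^ s * Complex.Gamma s *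
      ModularForm.L (k := 2) two_pos f s =
    ((Real.sqrt N / (2 * Real.pi) : ℝ) : ℂ) ^ (2 - s) * Complex.Gamma (2 - s) *
      ModularForm.L (k := 2) two_pos f (2 - s)

theorem evenFE_iff {f : S2 N} (hf : IsNew f) : EvenFE f ↔ co f N = 1 := by
  constructor
  · intro h
    obtain ⟨W, hW⟩ := fricke_exists (N := N)
    rcases (new_fricke hf hW).2 with h1 | h1
    · exact h1
    exfalso
    -- `L = 0` on the strip
    have hN : (0 : ℝ) < Real.sqrt N / (2 * Real.pi) := by
      have : (0 : ℝ) < N := by exact_mod_cast (Fact.out : N.Prime).pos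
      positivity
    have hz : ∀ s : ℂ, 0 < s.re → s.re < 2 → ModularForm.L (k := 2) two_pos f s = 0 := by
      intro s h0 h2
      have e1 := h s h0 h2
      have e2 := func_eq hf s h0 h2
      rw [h1] at e2
      have e3 : ((Real.sqrt N / (2 * Real.pi) : ℝ) : ℂ) ^ s * Complex.Gamma s *
          ModularForm.L (k := 2) two_pos f s = 0 := by
        have : ((Real.sqrt N / (2 * Real.pi) : ℝ) : ℂ) ^ s * Complex.Gamma s *
          ModularForm.L (k := 2) two_pos f s = -(((Real.sqrt N / (2 * Real.pi) : ℝ) : ℂ) ^ s *
          Complex.Gamma s * ModularForm.L (k := 2) two_pos f s) := by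
          conv_lhs => rw [e2]
          rw [e1]; ring
        have h2' : (2 : ℂ) * (((Real.sqrt N / (2 * Real.pi) : ℝ) : ℂ) ^ s * Complex.Gamma s *
          ModularForm.L (k := 2) two_pos f s) = 0 := by linear_combination this
        exact (mul_eq_zero.mp h2').resolve_left two_ne_zero
      have hc : ((Real.sqrt N / (2 * Real.pi) : ℝ) : ℂ) ^ s ≠ 0 := by
        rw [Ne, Complex.cpow_eq_zero_iff]
        rintro ⟨h5, -⟩
        exact hN.ne' (by exact_mod_cast h5)
      have hg : Complex.Gamma s ≠ 0 := Complex.Gamma_ne_zero_of_re_pos h0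
      exact (mul_eq_zero.mp e3).resolve_left (mul_ne_zero hc hg)
    have hd : Differentiable ℂ (ModularForm.L (k := 2) two_pos f) :=
      CuspForm.differentiable_L (k := 2) two_pos f
    have hall : ∀ s : ℂ, ModularForm.L (k := 2) two_pos f s = 0 := by
      have ha : AnalyticOnNhd ℂ (ModularForm.L (k := 2) two_pos f) Set.univ :=
        hd.differentiableOn.analyticOnNhd isOpen_univ
      have he : ModularForm.L (k := 2) two_pos f =ᶠ[𝓝 (1 : ℂ)] 0 := by
        have ho : IsOpen {s : ℂ | 0 < s.re ∧ s.re < 2} :=
          (isOpen_lt continuous_const Complex.continuous_re).inter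
            (isOpen_lt Complex.continuous_re continuous_const)
        have hm : (1 : ℂ) ∈ {s : ℂ | 0 < s.re ∧ s.re < 2} := by
          simp
        filter_upwards [ho.mem_nhds hm] with s hs
        exact hz s hs.1 hs.2
      have := ha.eqOn_zero_of_preconnected_of_eventuallyEq_zero isPreconnected_univ
        (Set.mem_univ 1) he
      intro s
      exact this (Set.mem_univ s)
    -- all coefficients vanish
    have hsum : ∀ s : ℂ, 2 < s.re → HasSum (fun n : ℕ => co f n / (n : ℂ) ^ s) 0 := by
      intro s hs
      have h5 := CuspForm.hasSum_L (k := 2) (F := S2 N) (Γ := G0 N) (s := s) two_pos f (by norm_num; linarith)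
      rw [hall s, mul_zero] at h5
      have h6 : (G0 N).strictWidthInfty = 1 := by
        exact CongruenceSubgroup.strictWidthInfty_Gamma0 N
      rw [h6] at h5
      exact h5
    have hterm : ∀ s : ℂ, 2 < s.re → HasSum (LSeries.term (fun n => co f n) s) 0 := by
      intro s hs
      refine (hsum s hs).congr_fun ?_
      intro n
      rcases Nat.eq_zero_or_pos n with rfl | hn
      · simp [LSeries.term, co_zero f]
      · rw [LSeries.term_of_ne_zero hn.ne']
    have h7 : (fun x : ℝ => LSeries (fun n => co f n) x) =ᶠ[atTop] 0 := by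
      filter_upwards [eventually_gt_atTop (2 : ℝ)] with x hx
      exact (hterm (x : ℂ) (by simpa using hx)).tsum_eq
    have h8 : LSeries.abscissaOfAbsConv (fun n => co f n) ≠ ⊤ := by
      have h9 : LSeriesSummable (fun n => co f n) (3 : ℂ) := (hterm 3 (by norm_num)).summable
      have h10 := h9.abscissaOfAbsConv_le
      intro h11
      rw [h11] at h10
      exact absurd h10 (by simp)
    have h9 := (LSeries_eventually_eq_zero_iff'.mp h7).resolve_right h8 1 one_ne_zero

    rw [hf.one] at h9
    exact one_ne_zero h9
  · intro h s h0 h2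
    have := func_eq hf s h0 h2
    rw [h, one_mul] at this
    exact this

end Pool.Agent.LEV
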