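import Pool.Agent.Lib_helper68.LEV.Fin1
import Pool.Agent.Lib_helper68.LEV.TOP
import Pool.Agent.Lib_helper68.LEV.TOG
import Pool.Agent.Lib_helper68.LEV.UBT
import Pool.Agent.Lib_helper68.LEV.NAT
import Pool.Agent.Lib_helper68.LEV.PSI

/-! the final form -/

namespace Pool.Agent.LEV

open Complex MeasureTheory Filter Topology UpperHalfPlane ModularGroup ProbabilityTheory
open scoped MatrixGroups Modular ENNReal ModularForm ComplexConjugate ContDiff

/-- the even newforms -/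
def HE (N : ℕ) [Fact N.Prime] : Set (S2 N) := {f | IsNew f ∧ EvenFE f}

theorem HE_eq (N : ℕ) [Fact N.Prime] : HE N = {f : S2 N | IsNew f ∧ co f N = 1} := by
  ext f
  constructor
  · rintro ⟨h1, h2⟩
    exact ⟨h1, (evenFE_iff h1).mp h2⟩
  · rintro ⟨h1, h2⟩
    exact ⟨h1, (evenFE_iff h1).mpr h2⟩

theorem HE_fin (N : ℕ) [Fact N.Prime] : (HE N).Finite := by
  obtain ⟨C, _, h⟩ := new_fin
  exact (h N).1.subset fun f hf => hf.1

theorem even_up {ε : ℝ} (hε : 0 < ε) : ∃ N₀ : ℕ, ∀ (N : ℕ) [Fact N.Prime], N₀ ≤ N →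
      ((HE N).ncard : ℝ) ≤ (1 / 24 + ε) * N := by
  classical
  obtain ⟨N₀, h⟩ := nat_upper hε
  refine ⟨N₀, fun N _ hN => ?_⟩
  haveI : Fintype (HE N) := (HE_fin N).fintype
  have hN1 : (1 : ℝ) ≤ (N : ℝ) ^ (1 / 3000 : ℝ) := by
    apply Real.one_le_rpow _ (by norm_num)
    exact_mod_cast (Fact.out : N.Prime).one_lt.le
  have h1 := h N hN (fun i : HE N => (i : S2 N)) Subtype.coe_injective (fun i => i.2.1)
    (fun i => ((HE_eq N) ▸ i.2 : (i : S2 N) ∈ {f : S2 N | IsNew f ∧ co f N = 1}).2) 1 le_rfl (by simpa using hN1)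
    (fun m => if m = 1 then 1 else 0) (fun m hm => by rw [if_neg hm.ne'])
  have h2 : ∀ i : HE N, tau (i : S2 N) 1 (fun m => if m = 1 then 1 else 0) = 1 := by
    intro i
    unfold tau la
    simp [i.2.1.one]
  have h3 : QP 1 (fun m => if m = 1 then 1 else 0) = 1 := by
    unfold QP
    have hc : (PMat 1).card = 1 := (pmat_pow Nat.prime_two 0).1
    have hf : (Finset.Icc 1 1).filter (fun k => 1 * k ^ 2 ≤ 1) = {1} := by decide
    simp only [Finset.Icc_self, Finset.sum_singleton, hc]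
    simp only [Finset.Icc_self] at hf
    rw [hf]
    simp
  simp only [h2, one_pow, Finset.sum_const, Finset.card_univ, nsmul_eq_mul, mul_one, h3] at h1
  rw [← Nat.card_coe_set_eq, Nat.card_eq_fintype_card]
  exact h1

theorem even_low' (δ : ℝ) (hδ : 0 < δ) : ∃ N₀ : ℕ, ∀ (N : ℕ) [Fact N.Prime], N₀ ≤ N →
      (1 / 24 - δ) * N ≤ ((HE N).ncard : ℝ) := by
  obtain ⟨N₀, h⟩ := even_low δ hδ
  refine ⟨N₀, fun N _ hN => ?_⟩
  rw [HE_eq]
  exact h N hN

/-- almost all central values are small -/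
theorem fin_small {A ε : ℝ} (hA : A < 1 / 2) (hε : 0 < ε) : ∃ N₀ : ℕ, ∀ (N : ℕ) [Fact N.Prime],
    N₀ ≤ N → ({f : S2 N | f ∈ HE N ∧ Real.log N ^ (-A) < (Lh f).re}.ncard : ℝ) ≤
      ε * ((HE N).ncard : ℝ) := by
  obtain ⟨N₁, h1⟩ := top_small hA (show (0 : ℝ) < ε / 48 by positivity)
  obtain ⟨N₂, h2⟩ := even_low' (1 / 48) (by norm_num)
  refine ⟨max N₁ N₂, fun N _ hN => ?_⟩
  have h3 := h1 N ((le_max_left _ _).trans hN)
  have h4 := h2 N ((le_max_right _ _).trans hN)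
  have h5 : ({f : S2 N | f ∈ HE N ∧ Real.log N ^ (-A) < (Lh f).re}.ncard : ℝ) ≤
      ({f : S2 N | IsNew f ∧ co f N = 1 ∧ Real.log N ^ (-A) < ‖Lh f‖}.ncard : ℝ) := by
    norm_cast
    apply Set.ncard_le_ncard
    · rintro f ⟨hf, hf2⟩
      rw [HE_eq] at hf
      exact ⟨hf.1, hf.2, hf2.trans_le (Complex.re_le_norm _)⟩
    · exact (HE_fin N).subset fun f hf => by rw [HE_eq]; exact ⟨hf.1, hf.2.1⟩
  calc _ ≤ _ := h5
    _ ≤ ε / 48 * N := h3
    _ = ε * ((1 / 24 - 1 / 48) * N) := by ring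
    _ ≤ ε * ((HE N).ncard : ℝ) := by gcongr

/-- the upper half of the central limit theorem -/
theorem fin_clt (V : ℝ) {ε : ℝ} (hε : 0 < ε) : ∃ N₀ : ℕ, ∀ (N : ℕ) [Fact N.Prime], N₀ ≤ N →
    ({f : S2 N | f ∈ HE N ∧ Real.exp (-Real.log (Real.log N) / 2 +
      V * Real.sqrt (Real.log (Real.log N))) ≤ (Lh f).re}.ncard : ℝ) ≤
      ((gaussianReal 0 1).real (Set.Ici V) + ε) * ((HE N).ncard : ℝ) := by
  obtain ⟨N₀, h⟩ := top_clt even_low V hε
  refine ⟨N₀, fun N _ hN => ?_⟩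
  have h3 := h N hN
  rw [← HE_eq] at h3
  refine le_trans ?_ h3
  norm_cast
  apply Set.ncard_le_ncard
  · rintro f ⟨hf, hf2⟩
    rw [HE_eq] at hf
    exact ⟨hf, hf2.trans (Complex.re_le_norm _)⟩
  · exact (HE_fin N).subset fun f hf => by rw [HE_eq]; exact hf.1

end Pool.Agent.LEV
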